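import Pool.Agent.Y535.PEG.Czn

/-! The zeros over an arc between two cone points are even in number. -/

set_option autoImplicit false
open Complex Set Topology Metric

namespace Pool.Agent.Y535.PEG

open Pool.Agent.H763R2 Pool.Agent.H763R2.An Pool.Agent.W675.Peg Pool.Agent.TH569.Peg
open Pool.Agent.H763R2.Dm (NoSq floor_const)

variable {q : ℝ → ℂ}

theorem zone_no (hG : Gen q) {s σ : ℝ} (hσ : 0 < σ)
    (hK : ∀ x y, Kr (σ / 2) x y → (x, y) ∉ Zq q) (hz : Zn q s σ) {x y : ℝ}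
    (hx : |x - s| < σ / 2) : (x, y) ∉ Zq q := by
  intro h
  obtain ⟨⟨h1, h2⟩, h3, h4⟩ := h
  simp only at h1 h2 h3 h4
  have L := hG.L
  have nz : ∀ z, mgc q z ≠ 0 → z ∉ range q := fun z h hy => h ((mgc_sg L).zero L |>.2 hy)
  rw [abs_lt] at hx
  by_cases c1 : y < x + σ / 2
  · have := (hz x y (by rw [abs_lt]; constructor <;> linarith)
      (by rw [abs_lt]; constructor <;> linarith) h1).1
    exact nz _ (left_ne_zero_of_mul this.ne') h3
  · by_cases c2 : x + 1 - σ / 2 < y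
    · have := (hz (y - 1) x (by rw [abs_lt]; constructor <;> linarith)
        (by rw [abs_lt]; constructor <;> linarith) (by linarith)).2
      have e : DD q x (y - 1) = DD q x y := by
        have := L.per (y - 1)
        rw [sub_add_cancel] at this
        rw [DD_eq, DD_eq, this]
      rw [e] at this
      exact nz _ (left_ne_zero_of_mul this.ne') h3
    · push Not at c1 c2
      exact hK x y ⟨c1, c2⟩ ⟨⟨h1, h2⟩, h3, h4⟩

/-- data near the two ends of an arc -/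
structure Two (q : ℝ → ℂ) (b σ : ℝ) : Prop where
  G : Gen q
  b0 : 0 < b
  b1 : b < 1
  σ0 : 0 < σ
  σ1 : σ ≤ 1 / 2
  K : ∀ x y, Kr (σ / 2) x y → (x, y) ∉ Zq q
  z0 : Zn q 0 σ
  zb : Zn q b σ

theorem Two.no0 {b σ : ℝ} (T : Two q b σ) {y : ℝ} : (0, y) ∉ Zq q :=
  zone_no T.G T.σ0 T.K T.z0 (by simpa using half_pos T.σ0)

theorem Two.nob {b σ : ℝ} (T : Two q b σ) {y : ℝ} : (b, y) ∉ Zq q :=
  zone_no T.G T.σ0 T.K T.zb (by simpa using half_pos T.σ0)

theorem Two.step {b σ a1 a2 : ℝ} (T : Two q b σ) (h : SqP q a1 a2) (h0 : 0 < a1) (h1 : a1 < b) :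
    0 < a2 ∧ a2 < b := by
  have L := T.G.L
  have b1 := T.b1
  have hz : ∃ y, (a1, y) ∈ Zq q := by
    obtain ⟨t1, t2, t3⟩ := h.toZ L
    rcases lt_or_gt_of_ne t3 with h' | h'
    · exact ⟨_, t1 h'⟩
    · exact ⟨_, t2 h'⟩
  obtain ⟨y, hy⟩ := hz
  have g1 : σ / 2 ≤ a1 := by
    by_contra hcon
    push Not at hcon
    exact zone_no T.G T.σ0 T.K T.z0 (by rw [sub_zero, abs_of_pos h0]; exact hcon) hy
  have g2 : a1 ≤ b - σ / 2 := by
    by_contra hcon
    push Not at hcon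
    exact zone_no T.G T.σ0 T.K T.zb (by
      rw [abs_sub_comm, abs_of_pos (by linarith)]; linarith) hy
  have h2 := h.hb.2
  have h3 := h.hb.1
  rcases h.adj L T.K with g | g
  · rw [abs_lt] at g
    constructor <;> linarith
  · rcases lt_abs.1 g with g | g
    · linarith
    · linarith

open Classical in
/-- the square turned by two right angles -/
noncomputable def gI (q : ℝ → ℂ) (z : ℝ × ℝ) : ℝ × ℝ := (pr q (CC q z.1 z.2),
  if pr q (CC q z.1 z.2) < pr q (DD q z.1 z.2) then pr q (DD q z.1 z.2)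
    else pr q (DD q z.1 z.2) + 1)

theorem fract_q (L : Loop q) (y : ℝ) : q (Int.fract y) = q y := by
  have := L.per_int (Int.fract y) ⌊y⌋
  rw [Int.fract_add_floor] at this
  exact this.symm

/-- properties of the turned square -/
theorem Two.turn {b σ x y : ℝ} (T : Two q b σ) (hz : (x, y) ∈ Zq q) (hne : q x ≠ q y)
    (h0 : 0 < x) (h1 : x < b) : (gI q (x, y) ∈ Zq q ∧ q (gI q (x, y)).1 ≠ q (gI q (x, y)).2 ∧
      0 < (gI q (x, y)).1 ∧ (gI q (x, y)).1 < b) ∧ gI q (x, y) ≠ (x, y) ∧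
      gI q (gI q (x, y)) = (x, y) := by
  have L := T.G.L
  have b1 := T.b1
  obtain ⟨⟨hxy, hyx⟩, hD, hC⟩ := hz
  simp only at hxy hyx hD hC
  obtain ⟨y0, hy0⟩ : ∃ y0, y0 = Int.fract y := ⟨_, rfl⟩
  have y0m : y0 ∈ Ico (0:ℝ) 1 := by rw [hy0]; exact ⟨Int.fract_nonneg y, Int.fract_lt_one y⟩
  have qy0 : q y0 = q y := by rw [hy0]; exact fract_q L y
  have eC : CC q x y0 = CC q x y := by rw [CC_eq, CC_eq, qy0]
  have eD : DD q x y0 = DD q x y := by rw [DD_eq, DD_eq, qy0]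
  have hS : SqP q x y0 := ⟨⟨h0.le, by linarith⟩, y0m, by rw [qy0]; exact hne, by rw [eC]; exact hC,
    by rw [eD]; exact hD⟩
  obtain ⟨u, hu⟩ : ∃ u, u = pr q (CC q x y) := ⟨_, rfl⟩
  obtain ⟨v, hv⟩ : ∃ v, v = pr q (DD q x y) := ⟨_, rfl⟩
  obtain ⟨um, ue⟩ := pr_spec L hC
  obtain ⟨vm, ve⟩ := pr_spec L hD
  rw [← hu] at um ue
  rw [← hv] at vm ve
  have hS1 : SqP q y0 u := by
    have := hS.rot L
    rwa [eC, ← hu] at this
  have hS2 : SqP q u v := by
    have := hS1.rot L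
    rw [rot_CC (show q u = CC q x y0 by rw [eC, ue]), eD, ← hv] at this
    exact this
  have s1 := T.step hS h0 h1
  have s2 := T.step hS1 s1.1 s1.2
  obtain ⟨t1, t2, t3⟩ := hS2.toZ L
  have hgI : gI q (x, y) = (u, if u < v then v else v + 1) := by
    unfold gI
    simp only
    rw [← hu, ← hv]
  obtain ⟨v', hv'⟩ : ∃ v', v' = if u < v then v else v + 1 := ⟨_, rfl⟩
  rw [← hv'] at hgI
  have hv'q : q v' = q v := by
    rw [hv']; split_ifs
    · rfl
    · exact L.per v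
  have hmem : (u, v') ∈ Zq q := by
    rw [hv']; split_ifs with h
    · exact t1 h
    · exact t2 (lt_of_le_of_ne (not_lt.1 h) (fun h' => t3 h'.symm))
  obtain ⟨S1, S2, -, -⟩ := T.G.sq x y hne hD hC
  have hy' : (if x < y0 then y0 else y0 + 1) = y := by
    have hfl := Int.floor_add_fract y
    rw [← hy0] at hfl
    have f1 : (⌊y⌋ : ℝ) < 2 := by linarith [y0m.1]
    have f2 : (-1 : ℝ) < ⌊y⌋ := by linarith [y0m.2]
    have f3 : ⌊y⌋ < 2 := by exact_mod_cast f1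
    have f4 : -1 < ⌊y⌋ := by exact_mod_cast f2
    have f5 : ⌊y⌋ = 0 ∨ ⌊y⌋ = 1 := by omega
    rcases f5 with h | h
    · rw [h] at hfl; push_cast at hfl
      rw [if_pos (by linarith)]; linarith
    · rw [h] at hfl; push_cast at hfl
      rw [if_neg (by linarith)]; linarith
  have dA : CC q u v' = q x := by
    rw [CC_eq, hv'q, ve, ue, DD_eq, CC_eq]; ring
  have dB : DD q u v' = q y := by
    rw [DD_eq, hv'q, ve, ue, DD_eq, CC_eq]; ring
  refine ⟨?_, ?_, ?_⟩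
  · rw [hgI]
    exact ⟨hmem, by simp only; rw [hv'q]; exact hS2.ne, s2.1, s2.2⟩
  · rw [hgI]
    intro h
    have hux : u = x := congrArg Prod.fst h
    rw [hux, CC_eq] at ue
    have h5 : (1 + I) * (q y - q x) = 0 := by linear_combination -ue
    rcases mul_eq_zero.1 h5 with h6 | h6
    · have := congrArg Complex.re h6
      simp at this
    · exact hne (sub_eq_zero.1 h6).symm
  · rw [hgI]
    unfold gI
    simp only
    rw [dA, dB, pr_eq L S1 hS.ha rfl, pr_eq L S2 y0m qy0, hy']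

open Classical in
theorem Two.even {b σ : ℝ} (T : Two q b σ) :
    ∑ z ∈ (T.G.fin 3).toFinset.filter (fun z => 0 < z.1 ∧ z.1 < b), io q z = 0 := by
  rw [io_sum]
  have b1 := T.b1
  have hmem : ∀ z, z ∈ ((T.G.fin 3).toFinset.filter (fun z => 0 < z.1 ∧ z.1 < b)).filter
      (fun z => q z.1 ≠ q z.2) ↔ z ∈ Zq q ∧ (0 < z.1 ∧ z.1 < b) ∧ q z.1 ≠ q z.2 := by
    intro z
    simp only [Finset.mem_filter, Set.Finite.mem_toFinset, mem_inter_iff, mem_ofPred_eq]
    constructor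
    · rintro ⟨⟨⟨h1, -⟩, h2⟩, h3⟩
      exact ⟨h1, h2, h3⟩
    · rintro ⟨h1, h2, h3⟩
      exact ⟨⟨⟨h1, by rw [abs_le]; constructor <;> linarith [h2.1, h2.2]⟩, h2⟩, h3⟩
  have : (((T.G.fin 3).toFinset.filter (fun z => 0 < z.1 ∧ z.1 < b)).filter
      (fun z => q z.1 ≠ q z.2)).card = ∑ z ∈ ((T.G.fin 3).toFinset.filter
        (fun z => 0 < z.1 ∧ z.1 < b)).filter (fun z => q z.1 ≠ q z.2), 1 := by simp
  rw [this]
  push_cast
  refine Finset.sum_involution (fun z _ => gI q z) (fun z hz => by decide) (fun z hz _ => ?_)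
    (fun z hz => ?_) (fun z hz => ?_)
  · obtain ⟨h1, h2, h3⟩ := (hmem z).1 hz
    exact (T.turn (x := z.1) (y := z.2) h1 h3 h2.1 h2.2).2.1
  · obtain ⟨h1, h2, h3⟩ := (hmem z).1 hz
    obtain ⟨g1, g2, g3, g4⟩ := (T.turn (x := z.1) (y := z.2) h1 h3 h2.1 h2.2).1
    exact (hmem _).2 ⟨g1, ⟨g3, g4⟩, g2⟩
  · obtain ⟨h1, h2, h3⟩ := (hmem z).1 hz
    exact (T.turn (x := z.1) (y := z.2) h1 h3 h2.1 h2.2).2.2

open Classical in
/-- winding over the arc -/
theorem Two.wind {b σ : ℝ} (T : Two q b σ) : ∃ η0 > 0, ∀ η, 0 < η → η < η0 →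
    Bd (fun x r => GG q (mgc q) x (x + r)) 0 b η (1 - η) ∧ ∃ k : ℤ, Even k ∧
      Wd (fun x r => GG q (mgc q) x (x + r)) 0 b η (1 - η) = k * (2 * Real.pi * I) := by
  have L := T.G.L
  have b0 := T.b0
  have b1 := T.b1
  have S := mgc_sg L
  obtain ⟨η1, hη1, H⟩ := fin_pos (T.G.fin 3) (f := fun z => min (z.2 - z.1) (z.1 + 1 - z.2))
    (fun z hz => lt_min (by have := hz.1.1.1; linarith) (by have := hz.1.1.2; linarith))
  obtain ⟨η0, hη0, m1, m2⟩ : ∃ η0 > 0, η0 ≤ η1 ∧ η0 ≤ 1 / 4 :=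
    ⟨min η1 (1 / 4), by positivity, min_le_left _ _, min_le_right _ _⟩
  refine ⟨η0, hη0, fun η h0 h1 => ?_⟩
  have gap : ∀ x y, (x, y) ∈ Zq q → |x| ≤ 3 → η < y - x ∧ y - x < 1 - η := by
    intro x y hz hx
    have := H (x, y) ⟨hz, hx⟩
    simp only [lt_min_iff] at this
    constructor <;> linarith [this.1, this.2]
  have hGc : Continuous fun p : ℝ × ℝ => (fun x r => GG q (mgc q) x (x + r)) p.1 p.2 :=
    (GG_cont L S.cont).comp (f := fun p : ℝ × ℝ => ((p.1, p.1 + p.2) : ℝ × ℝ)) (by fun_prop)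
  have hx3 : ∀ x ∈ Icc (0:ℝ) b, |x| ≤ 3 := fun x hx => by
    rw [abs_le]; constructor <;> linarith [hx.1, hx.2]
  have hmemZ : ∀ x r, 0 < r → r < 1 → GG q (mgc q) x (x + r) = 0 → (x, x + r) ∈ Zq q :=
    fun x r hr0 hr1 h => (Zq_iff L S ⟨by simp only; linarith, by simp only; linarith⟩).1 h
  have B : Bd (fun x r => GG q (mgc q) x (x + r)) 0 b η (1 - η) := by
    refine ⟨b0.le, by linarith, fun x hx h => ?_, fun x hx h => ?_, fun y hy h => ?_,
      fun y hy h => ?_⟩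
    · have := (gap _ _ (hmemZ x η h0 (by linarith) h) (hx3 x hx)).1
      linarith
    · have := (gap _ _ (hmemZ x (1 - η) (by linarith) (by linarith) h) (hx3 x hx)).2
      linarith
    · exact T.no0 (hmemZ 0 y (by linarith [hy.1]) (by linarith [hy.2]) h)
    · exact T.nob (hmemZ b y (by linarith [hy.1]) (by linarith [hy.2]) h)
  refine ⟨B, ?_⟩
  have hsum := Wd_sum hGc ((T.G.fin 3).toFinset.image (fun z : ℝ × ℝ => ((z.1, z.2 - z.1) : ℝ × ℝ)))
    (fun z => io q (z.1, z.1 + z.2)) (fun z hz => by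
      obtain ⟨w, hw, rfl⟩ := Finset.mem_image.1 hz
      have hw' : w ∈ Zq q := by
        have : w ∈ Zq q ∩ {p | |p.1| ≤ 3} := by simpa using hw
        exact this.1
      obtain ⟨r, hr, hs⟩ := germ_io T.G S hw'
      refine ⟨r / 2, by positivity, fun s hs1 t ht1 => ?_⟩
      have := hs s ⟨by linarith [hs1.1], by linarith [hs1.2]⟩ (s + t)
        ⟨by linarith [hs1.1, ht1.1], by linarith [hs1.2, ht1.2]⟩
      have e0 : ((w.1, w.1 + (w.2 - w.1)) : ℝ × ℝ) = w := by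
        ext <;> simp
      simp only
      rw [e0, show w.1 + s + (w.2 - w.1 + t) = w.2 + (s + t) by ring,
        show w.1 - s + (w.2 - w.1 - t) = w.2 - (s + t) by ring]
      exact this) _ 0 b η (1 - η) B (fun x hx y hy h => by
        have hz := hmemZ x y (by linarith [hy.1]) (by linarith [hy.2]) h
        refine Finset.mem_image.2 ⟨(x, x + y), ?_, by simp⟩
        rw [Set.Finite.mem_toFinset]
        exact ⟨hz, hx3 x hx⟩) rfl
  have hset : ((T.G.fin 3).toFinset.image (fun z : ℝ × ℝ => ((z.1, z.2 - z.1) : ℝ × ℝ))).filter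
      (InR 0 b η (1 - η)) = ((T.G.fin 3).toFinset.filter (fun z => 0 < z.1 ∧ z.1 < b)).image
        (fun z : ℝ × ℝ => ((z.1, z.2 - z.1) : ℝ × ℝ)) := by
    ext z
    simp only [Finset.mem_filter, Finset.mem_image]
    constructor
    · rintro ⟨⟨w, hw, rfl⟩, ⟨g1, g2⟩, -⟩
      exact ⟨w, ⟨hw, g1, g2⟩, rfl⟩
    · rintro ⟨w, ⟨hw, g1, g2⟩, rfl⟩
      refine ⟨⟨w, hw, rfl⟩, ⟨g1, g2⟩, ?_⟩
      rw [Set.Finite.mem_toFinset] at hw
      exact gap w.1 w.2 hw.1 hw.2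
  have hval : ∑ z ∈ ((T.G.fin 3).toFinset.image (fun z : ℝ × ℝ => ((z.1, z.2 - z.1) : ℝ × ℝ))).filter
      (InR 0 b η (1 - η)), io q (z.1, z.1 + z.2) = 0 := by
    rw [hset, Finset.sum_image (fun z _ w _ h => by
      obtain ⟨h1, h2⟩ := Prod.mk.inj h
      exact Prod.ext h1 (by linarith))]
    rw [← T.even]
    refine Finset.sum_congr rfl fun z _ => ?_
    congr 1
    ext <;> simp
  rw [hval] at hsum
  obtain ⟨k, hk, hk2⟩ := hsum
  refine ⟨k, ?_, hk⟩
  rwa [ZMod.intCast_eq_zero_iff_even] at hk2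

end Pool.Agent.Y535.PEG
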