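import Pool.Agent.Y535.PEG.Pair

/-! Comparison of angle functions. -/

set_option autoImplicit false
open Complex Set Topology Metric

namespace Pool.Agent.Y535.PEG

open Pool.Agent.H763R2 Pool.Agent.H763R2.An Pool.Agent.W675.Peg Pool.Agent.TH569.Peg
open Pool.Agent.H763R2.Dm (NoSq floor_const)

theorem floor_pc {X : Type*} [TopologicalSpace X] {V : Set X} (hV : IsPreconnected V) {f : X → ℝ}
    (hf : ContinuousOn f V) (h : ∀ z ∈ V, ∀ n : ℤ, f z ≠ n) {z w : X} (hz : z ∈ V)
    (hw : w ∈ V) : ⌊f z⌋ = ⌊f w⌋ := by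
  have key : ∀ {z w : X}, z ∈ V → w ∈ V → ¬ ⌊f z⌋ < ⌊f w⌋ := by
    intro z w hz hw hlt
    obtain ⟨x, hx, hx0⟩ := hV.intermediate_value hz hw hf
      (show (⌊f w⌋ : ℝ) ∈ Icc (f z) (f w) from ⟨(Int.floor_lt.1 hlt).le, Int.floor_le _⟩)
    exact h x hx _ hx0
  rcases lt_trichotomy ⌊f z⌋ ⌊f w⌋ with h | h | h
  · exact absurd h (key hz hw)
  · exact h
  · exact absurd h (key hw hz)

theorem cmp_ang {X : Type*} [TopologicalSpace X] {V : Set X} (hV : IsPreconnected V) {f k : X → ℝ}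
    (hf : ContinuousOn f V) (hk : ContinuousOn k V) (h : ∀ z ∈ V, 0 < Real.cos (f z - k z)) :
    ∃ j : ℤ, ∀ z ∈ V, |f z - k z - j * (2 * Real.pi)| < Real.pi / 2 := by
  have hπ := Real.pi_pos
  rcases V.eq_empty_or_nonempty with rfl | ⟨z0, hz0⟩
  · exact ⟨0, fun z hz => absurd hz (notMem_empty z)⟩
  refine ⟨⌊(f z0 - k z0 + Real.pi) / (2 * Real.pi)⌋, fun z hz => ?_⟩
  have hfl := floor_pc hV (f := fun z => (f z - k z + Real.pi) / (2 * Real.pi))
    (((hf.sub hk).add continuousOn_const).div_const _) (fun z hz n hn => by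
      have h1 := h z hz
      rw [div_eq_iff (by positivity)] at hn
      rw [show f z - k z = n * (2 * Real.pi) - Real.pi by linarith, Real.cos_sub_pi,
        Real.cos_int_mul_two_pi] at h1
      linarith) hz0 hz
  rw [hfl]
  have hc := h z hz
  set n := ⌊(f z - k z + Real.pi) / (2 * Real.pi)⌋
  have h1 : n * (2 * Real.pi) ≤ f z - k z + Real.pi := by
    have := Int.floor_le ((f z - k z + Real.pi) / (2 * Real.pi))
    rwa [le_div_iff₀ (by positivity)] at this
  have h2 : f z - k z + Real.pi < n * (2 * Real.pi) + 2 * Real.pi := by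
    have := Int.lt_floor_add_one ((f z - k z + Real.pi) / (2 * Real.pi))
    rw [div_lt_iff₀ (by positivity)] at this
    linarith
  by_contra hcon
  push Not at hcon
  have h3 : |f z - k z - n * (2 * Real.pi)| ≤ Real.pi := by
    rw [abs_le]; constructor <;> linarith
  have h4 : Real.cos |f z - k z - n * (2 * Real.pi)| ≤ 0 :=
    Real.cos_nonpos_of_pi_div_two_le_of_le hcon (by linarith)
  rw [Real.cos_abs, Real.cos_sub_int_mul_two_pi] at h4
  linarith

theorem cmp_fl {x y : ℝ} {j : ℤ} (h : |x - y - j * (2 * Real.pi)| < Real.pi / 2)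
    (hx : 0 < Real.cos x * Real.sin x) (hy : 0 < Real.cos y * Real.sin y) :
    ⌊x / Real.pi⌋ = ⌊y / Real.pi⌋ + 2 * j := by
  have hπ := Real.pi_pos
  obtain ⟨a1, a2⟩ := half_fl hx
  obtain ⟨b1, b2⟩ := half_fl hy
  rw [abs_lt] at h
  set a := ⌊x / Real.pi⌋
  set b := ⌊y / Real.pi⌋
  have h1 : ((a - b - 2 * j : ℤ) : ℝ) * Real.pi < 1 * Real.pi := by push_cast; linarith [h.1, h.2]
  have h2 : (-1) * Real.pi < ((a - b - 2 * j : ℤ) : ℝ) * Real.pi := by
    push_cast; linarith [h.1, h.2]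
  have h3 : ((a - b - 2 * j : ℤ) : ℝ) < 1 := lt_of_mul_lt_mul_right h1 hπ.le
  have h4 : (-1 : ℝ) < ((a - b - 2 * j : ℤ) : ℝ) := lt_of_mul_lt_mul_right h2 hπ.le
  have h5 : a - b - 2 * j < 1 := by exact_mod_cast h3
  have h6 : -1 < a - b - 2 * j := by exact_mod_cast h4
  omega

/-- comparison of half turns of two angle functions at two points -/
theorem cmp_two {X : Type*} [TopologicalSpace X] {V : Set X} (hV : IsPreconnected V) {f k : X → ℝ}
    (hf : ContinuousOn f V) (hk : ContinuousOn k V) (h : ∀ z ∈ V, 0 < Real.cos (f z - k z))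
    {z w : X} (hz : z ∈ V) (hw : w ∈ V) (h1 : 0 < Real.cos (f z) * Real.sin (f z))
    (h2 : 0 < Real.cos (k z) * Real.sin (k z)) (h3 : 0 < Real.cos (f w) * Real.sin (f w))
    (h4 : 0 < Real.cos (k w) * Real.sin (k w)) :
    ⌊f w / Real.pi⌋ - ⌊f z / Real.pi⌋ = ⌊k w / Real.pi⌋ - ⌊k z / Real.pi⌋ := by
  obtain ⟨j, hj⟩ := cmp_ang hV hf hk h
  rw [cmp_fl (hj z hz) h1 h2, cmp_fl (hj w hw) h3 h4]
  ring

theorem quad_fl {x : ℝ} {i : ℤ} (h : ⌊x / (2 * Real.pi)⌋ = i) :
    ⌊x / Real.pi⌋ = 2 * i ∨ ⌊x / Real.pi⌋ = 2 * i + 1 := by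
  have hπ := Real.pi_pos
  rw [Int.floor_eq_iff, le_div_iff₀ (by positivity), div_lt_iff₀ (by positivity)] at h
  have h1 : 2 * i ≤ ⌊x / Real.pi⌋ := by
    rw [Int.le_floor, le_div_iff₀ hπ]; push_cast; linarith [h.1]
  have h2 : ⌊x / Real.pi⌋ < 2 * i + 2 := by
    rw [Int.floor_lt, div_lt_iff₀ hπ]; push_cast; linarith [h.2]
  omega

/-- a vector in a half plane -/
theorem amb2 {X : Type*} [TopologicalSpace X] {V : Set X} (hV : IsPreconnected V)
    {θ M1 M2 N1 N2 : X → ℝ} (hθ : ContinuousOn θ V)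
    (hex : ∀ z ∈ V, ∃ ρ > 0, M1 z = ρ * Real.cos (θ z) ∧ M2 z = ρ * Real.sin (θ z)) {τ : ℝ}
    (hτ : τ = 1 ∨ τ = -1)
    (h1 : ∀ z ∈ V, (0 < N1 z → 0 < τ * M1 z) ∧ (N1 z < 0 → τ * M1 z < 0))
    (h2 : ∀ z ∈ V, (0 < N2 z → 0 < τ * M2 z) ∧ (N2 z < 0 → τ * M2 z < 0))
    (hN : ∀ z ∈ V, N1 z < N2 z) : ∃ j : ℤ, ∀ z ∈ V, (0 < N1 z → ⌊θ z / Real.pi⌋ = j) ∧
      (N2 z < 0 → ⌊θ z / Real.pi⌋ = j + 1) := by
  have hπ := Real.pi_pos
  -- the case of the sign one
  have key : ∀ {θ M1 M2 : X → ℝ}, ContinuousOn θ V →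
      (∀ z ∈ V, ∃ ρ > 0, M1 z = ρ * Real.cos (θ z) ∧ M2 z = ρ * Real.sin (θ z)) →
      (∀ z ∈ V, (0 < N1 z → 0 < M1 z) ∧ (N1 z < 0 → M1 z < 0)) →
      (∀ z ∈ V, (0 < N2 z → 0 < M2 z) ∧ (N2 z < 0 → M2 z < 0)) →
      ∃ j : ℤ, ∀ z ∈ V, (0 < N1 z → ⌊θ z / Real.pi⌋ = 2 * j) ∧
        (N2 z < 0 → ⌊θ z / Real.pi⌋ = 2 * j + 1) := by
    intro θ M1 M2 hθ hex h1 h2
    rcases V.eq_empty_or_nonempty with rfl | ⟨z0, hz0⟩
    · exact ⟨0, fun z hz => absurd hz (notMem_empty z)⟩
    refine ⟨⌊θ z0 / (2 * Real.pi)⌋, fun z hz => ?_⟩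
    have hfl := floor_pc hV (f := fun z => θ z / (2 * Real.pi)) (hθ.div_const _)
      (fun z hz n hn => by
        rw [div_eq_iff (by positivity)] at hn
        obtain ⟨ρ, hρ, e1, e2⟩ := hex z hz
        rw [hn, Real.cos_int_mul_two_pi, mul_one] at e1
        rw [hn, show (n : ℝ) * (2 * Real.pi) = ((2 * n : ℤ) : ℝ) * Real.pi by push_cast; ring,
          Real.sin_int_mul_pi, mul_zero] at e2
        have a1 : ¬ N1 z < 0 := fun h => by have := (h1 z hz).2 h; linarith
        have a2 := hN z hz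
        have a3 := (h2 z hz).1 (by linarith)
        linarith) hz hz0
    have hq := quad_fl hfl
    obtain ⟨ρ, hρ, e1, e2⟩ := hex z hz
    constructor
    · intro h
      have a2 := (h2 z hz).1 (by linarith [hN z hz])
      rw [e2] at a2
      obtain ⟨r, hr⟩ := fl_even ((mul_pos_iff_of_pos_left hρ).1 a2)
      omega
    · intro h
      have a2 := (h2 z hz).2 h
      rw [e2] at a2
      have a3 : Real.sin (θ z) < 0 := by
        by_contra hcon
        push Not at hcon
        have := mul_nonneg hρ.le hcon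
        linarith
      obtain ⟨r, hr⟩ := fl_odd a3
      omega
  rcases hτ with rfl | rfl
  · simp only [one_mul] at h1 h2
    obtain ⟨j, hj⟩ := key hθ hex h1 h2
    exact ⟨2 * j, hj⟩
  · obtain ⟨j, hj⟩ := key (θ := fun z => θ z + Real.pi) (M1 := fun z => -1 * M1 z)
      (M2 := fun z => -1 * M2 z) (hθ.add continuousOn_const) (fun z hz => by
        obtain ⟨ρ, hρ, e1, e2⟩ := hex z hz
        refine ⟨ρ, hρ, ?_, ?_⟩
        · rw [Real.cos_add_pi, e1]; ring
        · rw [Real.sin_add_pi, e2]; ring) h1 h2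
    have e : ∀ z, ⌊(θ z + Real.pi) / Real.pi⌋ = ⌊θ z / Real.pi⌋ + 1 := fun z => by
      rw [add_div, div_self hπ.ne', Int.floor_add_one]
    simp only [e] at hj
    refine ⟨2 * j - 1, fun z hz => ⟨fun h => ?_, fun h => ?_⟩⟩
    · have := (hj z hz).1 h; omega
    · have := (hj z hz).2 h; omega

/-- a vector that avoids the negative diagonal -/
theorem amb1 {X : Type*} [TopologicalSpace X] {V : Set X} (hV : IsPreconnected V)
    {θ M1 M2 N1 N2 : X → ℝ} (hθ : ContinuousOn θ V) (hN1 : ContinuousOn N1 V)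
    (hN2 : ContinuousOn N2 V)
    (hex : ∀ z ∈ V, ∃ ρ > 0, M1 z = ρ * Real.cos (θ z) ∧ M2 z = ρ * Real.sin (θ z)) {τ : ℝ}
    (hτ : τ = 1 ∨ τ = -1)
    (h1 : ∀ z ∈ V, (0 < N1 z → 0 < τ * M1 z) ∧ (N1 z < 0 → τ * M1 z < 0) ∧ (N1 z = 0 → M1 z = 0))
    (h2 : ∀ z ∈ V, (0 < N2 z → 0 < τ * M2 z) ∧ (N2 z < 0 → τ * M2 z < 0) ∧ (N2 z = 0 → M2 z = 0))
    (hN : ∀ z ∈ V, ¬ (N1 z = N2 z ∧ N1 z < 0)) :
    ∃ j : ℤ, ∀ z ∈ V, 0 < N1 z → 0 < N2 z → ⌊θ z / Real.pi⌋ = j := by
  have hπ := Real.pi_pos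
  have key : ∀ {θ M1 M2 : X → ℝ}, ContinuousOn θ V →
      (∀ z ∈ V, ∃ ρ > 0, M1 z = ρ * Real.cos (θ z) ∧ M2 z = ρ * Real.sin (θ z)) →
      (∀ z ∈ V, (0 < N1 z → 0 < M1 z) ∧ (N1 z < 0 → M1 z < 0) ∧ (N1 z = 0 → M1 z = 0)) →
      (∀ z ∈ V, (0 < N2 z → 0 < M2 z) ∧ (N2 z < 0 → M2 z < 0) ∧ (N2 z = 0 → M2 z = 0)) →
      ∃ j : ℤ, ∀ z ∈ V, 0 < N1 z → 0 < N2 z → ⌊θ z / Real.pi⌋ = j := by
    intro θ M1 M2 hθ hex h1 h2
    -- not both zero
    have nz : ∀ z ∈ V, ¬ (N1 z = 0 ∧ N2 z = 0) := by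
      rintro z hz ⟨a1, a2⟩
      have b1 := (h1 z hz).2.2 a1
      have b2 := (h2 z hz).2.2 a2
      obtain ⟨ρ, hρ, e1, e2⟩ := hex z hz
      rw [b1] at e1
      rw [b2] at e2
      have c1 : Real.cos (θ z) = 0 := by
        rcases mul_eq_zero.1 e1.symm with h | h
        · exact absurd h hρ.ne'
        · exact h
      have c2 : Real.sin (θ z) = 0 := by
        rcases mul_eq_zero.1 e2.symm with h | h
        · exact absurd h hρ.ne'
        · exact h
      have := Real.cos_sq_add_sin_sq (θ z)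
      rw [c1, c2] at this
      norm_num at this
    obtain ⟨ζ, hζ⟩ : ∃ ζ : X → ℂ, ζ = fun z => (((N1 z + N2 z : ℝ) : ℂ) + ((N2 z - N1 z : ℝ) : ℂ) * I) :=
      ⟨_, rfl⟩
    have ζre : ∀ z, (ζ z).re = N1 z + N2 z := fun z => by rw [hζ]; simp
    have ζim : ∀ z, (ζ z).im = N2 z - N1 z := fun z => by rw [hζ]; simp
    have hslit : ∀ z ∈ V, ζ z ∈ slitPlane := by
      intro z hz
      rw [mem_slitPlane_iff, ζre, ζim]
      by_cases h : N2 z - N1 z = 0
      · left
        by_contra hcon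
        push Not at hcon
        have e : N1 z = N2 z := by linarith
        have a1 := hN z hz
        have a2 := nz z hz
        rcases lt_or_eq_of_le (show N1 z ≤ 0 by linarith) with h' | h'
        · exact a1 ⟨e, h'⟩
        · exact a2 ⟨h', by linarith⟩
      · right; exact h
    have hζc : ContinuousOn ζ V := by
      rw [hζ]
      exact (continuous_ofReal.comp_continuousOn (hN1.add hN2)).add
        ((continuous_ofReal.comp_continuousOn (hN2.sub hN1)).mul continuousOn_const)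
    have hψ : ContinuousOn (fun z => arg (ζ z) + Real.pi / 4) V := by
      refine ContinuousOn.add (fun z hz => ?_) continuousOn_const
      exact ContinuousAt.comp_continuousWithinAt (g := arg) (continuousAt_arg (hslit z hz)) (hζc z hz)
    have sq2 : (0:ℝ) < √2 := by positivity
    have hs2 : √2 * √2 = 2 := Real.mul_self_sqrt (by norm_num)
    have n1 : ∀ z, ‖ζ z‖ * Real.cos (arg (ζ z) + Real.pi / 4) = √2 * N1 z := by
      intro z
      rw [Real.cos_add, Real.cos_pi_div_four, Real.sin_pi_div_four]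
      have a1 := Complex.norm_mul_cos_arg (ζ z)
      have a2 := Complex.norm_mul_sin_arg (ζ z)
      rw [ζre] at a1
      rw [ζim] at a2
      linear_combination (√2 / 2) * a1 - (√2 / 2) * a2
    have n2 : ∀ z, ‖ζ z‖ * Real.sin (arg (ζ z) + Real.pi / 4) = √2 * N2 z := by
      intro z
      rw [Real.sin_add, Real.cos_pi_div_four, Real.sin_pi_div_four]
      have a1 := Complex.norm_mul_cos_arg (ζ z)
      have a2 := Complex.norm_mul_sin_arg (ζ z)
      rw [ζre] at a1
      rw [ζim] at a2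
      linear_combination (√2 / 2) * a1 + (√2 / 2) * a2
    obtain ⟨j, hj⟩ := cmp_ang hV hθ hψ (fun z hz => by
      obtain ⟨ρ, hρ, e1, e2⟩ := hex z hz
      have hz0 : 0 < ‖ζ z‖ := norm_pos_iff.2 (slitPlane_ne_zero (hslit z hz))
      have h3 : 0 < N1 z * M1 z + N2 z * M2 z := by
        obtain ⟨p1, p2, p3⟩ := h1 z hz
        obtain ⟨q1, q2, q3⟩ := h2 z hz
        have c1 : 0 ≤ N1 z * M1 z ∧ (N1 z ≠ 0 → 0 < N1 z * M1 z) := by
          rcases lt_trichotomy (N1 z) 0 with h | h | h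
          · have := mul_pos_of_neg_of_neg h (p2 h)
            exact ⟨this.le, fun _ => this⟩
          · exact ⟨by rw [h, zero_mul], fun h' => absurd h h'⟩
          · have := mul_pos h (p1 h)
            exact ⟨this.le, fun _ => this⟩
        have c2 : 0 ≤ N2 z * M2 z ∧ (N2 z ≠ 0 → 0 < N2 z * M2 z) := by
          rcases lt_trichotomy (N2 z) 0 with h | h | h
          · have := mul_pos_of_neg_of_neg h (q2 h)
            exact ⟨this.le, fun _ => this⟩
          · exact ⟨by rw [h, zero_mul], fun h' => absurd h h'⟩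
          · have := mul_pos h (q1 h)
            exact ⟨this.le, fun _ => this⟩
        by_cases h : N1 z = 0
        · have h' : N2 z ≠ 0 := fun h' => nz z hz ⟨h, h'⟩
          linarith [c1.1, c2.2 h']
        · linarith [c1.2 h, c2.1]
      have h4 : 0 < ρ * ‖ζ z‖ * Real.cos (θ z - (arg (ζ z) + Real.pi / 4)) := by
        have e3 : ρ * ‖ζ z‖ * Real.cos (θ z - (arg (ζ z) + Real.pi / 4)) =
            √2 * (N1 z * M1 z + N2 z * M2 z) := by
          rw [Real.cos_sub, e1, e2]
          linear_combination (ρ * Real.cos (θ z)) * n1 z + (ρ * Real.sin (θ z)) * n2 z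
        rw [e3]
        exact mul_pos sq2 h3
      exact (mul_pos_iff_of_pos_left (mul_pos hρ hz0)).1 h4)
    refine ⟨2 * j, fun z hz p1 p2 => ?_⟩
    have hz0 : 0 < ‖ζ z‖ := norm_pos_iff.2 (slitPlane_ne_zero (hslit z hz))
    have c1 : 0 < Real.cos (arg (ζ z) + Real.pi / 4) := by
      have := n1 z
      have h5 : 0 < ‖ζ z‖ * Real.cos (arg (ζ z) + Real.pi / 4) := by rw [this]; positivity
      exact (mul_pos_iff_of_pos_left hz0).1 h5
    have c2 : 0 < Real.sin (arg (ζ z) + Real.pi / 4) := by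
      have := n2 z
      have h5 : 0 < ‖ζ z‖ * Real.sin (arg (ζ z) + Real.pi / 4) := by rw [this]; positivity
      exact (mul_pos_iff_of_pos_left hz0).1 h5
    obtain ⟨ρ, hρ, e1, e2⟩ := hex z hz
    have m1 := (h1 z hz).1 p1
    have m2 := (h2 z hz).1 p2
    rw [e1] at m1
    rw [e2] at m2
    have d1 := (mul_pos_iff_of_pos_left hρ).1 m1
    have d2 := (mul_pos_iff_of_pos_left hρ).1 m2
    rw [cmp_fl (hj z hz) (mul_pos d1 d2) (mul_pos c1 c2)]
    have hfl : ⌊(arg (ζ z) + Real.pi / 4) / Real.pi⌋ = 0 := by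
      obtain ⟨r, hr⟩ := fl_even c2
      have g1 := neg_pi_lt_arg (ζ z)
      have g2 := arg_le_pi (ζ z)
      have k1 : ⌊(arg (ζ z) + Real.pi / 4) / Real.pi⌋ < 2 := by
        rw [Int.floor_lt, div_lt_iff₀ hπ]; push_cast; linarith
      have k2 : -1 ≤ ⌊(arg (ζ z) + Real.pi / 4) / Real.pi⌋ := by
        rw [Int.le_floor, le_div_iff₀ hπ]; push_cast; linarith
      omega
    rw [hfl]; ring
  rcases hτ with rfl | rfl
  · simp only [one_mul] at h1 h2
    exact key hθ hex h1 h2
  · obtain ⟨j, hj⟩ := key (θ := fun z => θ z + Real.pi) (M1 := fun z => -1 * M1 z)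
      (M2 := fun z => -1 * M2 z) (hθ.add continuousOn_const) (fun z hz => by
        obtain ⟨ρ, hρ, e1, e2⟩ := hex z hz
        refine ⟨ρ, hρ, ?_, ?_⟩
        · rw [Real.cos_add_pi, e1]; ring
        · rw [Real.sin_add_pi, e2]; ring)
      (fun z hz => ⟨(h1 z hz).1, (h1 z hz).2.1, fun h => by rw [(h1 z hz).2.2 h, mul_zero]⟩)
      (fun z hz => ⟨(h2 z hz).1, (h2 z hz).2.1, fun h => by rw [(h2 z hz).2.2 h, mul_zero]⟩)
    refine ⟨j - 1, fun z hz p1 p2 => ?_⟩
    have := hj z hz p1 p2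
    rw [add_div, div_self hπ.ne', Int.floor_add_one] at this
    omega

/-- increments of a convex function with one corner -/
theorem corner_real {s1 s2 X1 X2 h : ℝ} (hs : s1 ≤ s2) (hX : X1 < X2)
    (hh : h = max (s1 * X2) (s2 * X2) - max (s1 * X1) (s2 * X1))
    (e : max (s1 * X1) (s2 * X1) - max (s1 * (X1 - h)) (s2 * (X1 - h)) =
      max (s1 * X2) (s2 * X2) - max (s1 * (X2 - h)) (s2 * (X2 - h)))
    (hn : max (s1 * X1) (s2 * X1) - max (s1 * (X1 - h)) (s2 * (X1 - h)) < 0) : False := by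
  have fneg : ∀ X : ℝ, X ≤ 0 → max (s1 * X) (s2 * X) = s1 * X := fun X hX => by
    apply max_eq_left; nlinarith
  have fpos : ∀ X : ℝ, 0 ≤ X → max (s1 * X) (s2 * X) = s2 * X := fun X hX => by
    apply max_eq_right; nlinarith
  have l1 := le_max_left (s1 * X1) (s2 * X1)
  have l2 := le_max_right (s1 * X1) (s2 * X1)
  have l3 := le_max_left (s1 * X2) (s2 * X2)
  have l4 := le_max_right (s1 * X2) (s2 * X2)
  rcases lt_trichotomy h 0 with hh0 | hh0 | hh0
  · -- the points move to the right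
    by_cases c1 : X1 - h ≤ 0
    · rw [fneg _ c1, fneg X1 (by linarith)] at hn
      have : 0 < s1 := by nlinarith
      have g1 : max (s1 * X1) (s2 * X1) ≤ max (s1 * X2) (s2 * X2) := by
        apply max_le_max <;> nlinarith
      linarith
    · push Not at c1
      rw [fpos (X1 - h) c1.le, fpos (X2 - h) (by linarith)] at e
      rw [fpos (X1 - h) c1.le] at hn
      by_cases c2 : 0 ≤ X1
      · rw [fpos X1 c2] at hn
        have : 0 < s2 := by nlinarith
        rw [fpos X1 c2, fpos X2 (by linarith)] at hh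
        nlinarith
      · push Not at c2
        rw [fneg X1 c2.le] at e hn
        by_cases c3 : 0 ≤ X2
        · rw [fpos X2 c3] at e
          have e' : (s1 - s2) * X1 = 0 := by linarith
          rcases mul_eq_zero.1 e' with h1 | h1
          · have : s1 = s2 := by linarith
            subst this
            rw [max_self, max_self] at hh
            have : 0 < s1 := by nlinarith
            nlinarith
          · linarith
        · push Not at c3
          rw [fneg X2 c3.le] at e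
          have e' : (s1 - s2) * (X1 - X2) = 0 := by linarith
          rcases mul_eq_zero.1 e' with h1 | h1
          · have : s1 = s2 := by linarith
            subst this
            rw [max_self, max_self] at hh
            have : 0 < s1 := by nlinarith
            nlinarith
          · linarith
  · rw [hh0, sub_zero, sub_self] at hn
    exact lt_irrefl _ hn
  · by_cases c1 : 0 ≤ X2 - h
    · rw [e, fpos _ c1, fpos X2 (by linarith)] at hn
      have : s2 < 0 := by nlinarith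
      have g1 : max (s1 * X2) (s2 * X2) ≤ max (s1 * X1) (s2 * X1) := by
        apply max_le_max <;> nlinarith
      linarith
    · push Not at c1
      rw [fneg (X2 - h) c1.le, fneg (X1 - h) (by linarith)] at e
      rw [fneg (X1 - h) (by linarith)] at hn
      by_cases c2 : X2 ≤ 0
      · rw [fneg X1 (by linarith)] at hn
        have : s1 < 0 := by nlinarith
        rw [fneg X2 c2, fneg X1 (by linarith)] at hh
        nlinarith
      · push Not at c2
        rw [fpos X2 c2.le] at e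
        by_cases c3 : X1 ≤ 0
        · rw [fneg X1 c3] at e hn
          have e' : (s2 - s1) * X2 = 0 := by linarith
          rcases mul_eq_zero.1 e' with h1 | h1
          · have : s1 = s2 := by linarith
            subst this
            rw [max_self, max_self] at hh
            have : s1 < 0 := by nlinarith
            nlinarith
          · linarith
        · push Not at c3
          rw [fpos X1 c3.le] at e hn
          have e' : (s2 - s1) * (X1 - X2) = 0 := by linarith
          rcases mul_eq_zero.1 e' with h1 | h1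
          · have : s1 = s2 := by linarith
            subst this
            rw [max_self, max_self] at hh
            have : s1 < 0 := by nlinarith
            nlinarith
          · linarith

end Pool.Agent.Y535.PEG
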