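import Pool.Agent.Y535.PEG.Half

/-! Half turns of the angle functions of a polygon along the curve. -/

set_option autoImplicit false
open Complex Set Topology Metric

namespace Pool.Agent.Y535.PEG

open Pool.Agent.H763R2 Pool.Agent.H763R2.An Pool.Agent.W675.Peg Pool.Agent.TH569.Peg
open Pool.Agent.H763R2.Dm (NoSq floor_const)

variable {q : ℝ → ℂ} {θ : ℝ → ℝ → ℝ}

theorem Dbl.half (L : Loop q) {s0 s1 η1 : ℝ} {e d : ℂ} (H : Dbl q s0 s1 e d η1) {η : ℝ}
    (hη : 0 < η) (A : LA q η θ) : ∃ ρ > 0, ∃ k : ℤ, (∀ s, s < s0 → |s - s0| < ρ → KL θ s (k + 1)) ∧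
      (∀ s, s0 < s → |s - s0| < ρ → KL θ s k) := by
  obtain ⟨β, hβ, hβ1⟩ : ∃ β : ℝ, (β = 1 ∨ β = -1) ∧ 0 < β * cr d e := by
    rcases lt_or_gt_of_ne H.tv with h | h
    · exact ⟨-1, Or.inr rfl, by linarith⟩
    · exact ⟨1, Or.inl rfl, by linarith⟩
  obtain ⟨R, hR, τ, hτ, hsg⟩ := H.sign L hβ
  obtain ⟨p, hp⟩ : ∃ p, p = q s0 := ⟨_, rfl⟩
  rw [← hp] at hsg
  have he0 : e ≠ 0 := by
    rintro rfl
    exact H.tv (by unfold cr; simp)
  have hen : 0 < ‖e‖ := norm_pos_iff.2 he0
  have hη1 := H.hη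
  obtain ⟨ρ, hρ, r1, r2, r3⟩ : ∃ ρ > 0, ρ ≤ η1 ∧ 2 * ρ ≤ η ∧ 3 * (ρ * ‖e‖) ≤ R := by
    refine ⟨min η1 (min (η / 2) (R / (3 * ‖e‖))), by positivity, min_le_left _ _, ?_, ?_⟩
    · have := (min_le_right η1 (min (η / 2) (R / (3 * ‖e‖)))).trans (min_le_left _ _)
      linarith
    · have := (min_le_right η1 (min (η / 2) (R / (3 * ‖e‖)))).trans (min_le_right _ _)
      rw [le_div_iff₀ (by positivity)] at this
      linarith
  have lin : ∀ x : ℝ, |x - s0| < ρ → q x = p + ((x - s0 : ℝ) : ℂ) * e := by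
    intro x hx
    have e1 := H.l0 (x - s0) (hx.le.trans r1)
    rw [show s0 + (x - s0) = x by ring, ← hp] at e1
    exact e1
  have dist : ∀ x y : ℝ, |x - s0| < ρ → |y - s0| < ρ →
      ‖DD q x y - p‖ < R ∧ ‖CC q x y - p‖ < R := by
    intro x y hx hy
    have h1 : ‖((x - s0 : ℝ) : ℂ) * e‖ < ρ * ‖e‖ := by
      rw [norm_mul, norm_real, Real.norm_eq_abs]
      exact mul_lt_mul_of_pos_right hx hen
    have h2 : ‖((y - s0 : ℝ) : ℂ) * e‖ < ρ * ‖e‖ := by
      rw [norm_mul, norm_real, Real.norm_eq_abs]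
      exact mul_lt_mul_of_pos_right hy hen
    have h3 : ‖(((y - s0) - (x - s0) : ℝ) : ℂ) * (I * e)‖ < 2 * (ρ * ‖e‖) := by
      rw [norm_mul, norm_mul, norm_I, one_mul, norm_real, Real.norm_eq_abs]
      have : |(y - s0) - (x - s0)| < 2 * ρ := by
        have := abs_sub (y - s0) (x - s0)
        linarith
      nlinarith
    constructor
    · rw [DD_lin (lin x hx) (lin y hy)]
      refine (norm_add_le _ _).trans_lt ?_
      linarith
    · rw [CC_lin (lin x hx) (lin y hy)]
      refine (norm_add_le _ _).trans_lt ?_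
      linarith
  have up : ∀ x y : ℝ, |x - s0| < ρ → |y - s0| < ρ → x < y →
      0 < cr e (DD q x y - p) ∧ 0 < cr e (CC q x y - p) := by
    intro x y hx hy hxy
    have h4 : 0 < ((y - s0) - (x - s0)) * ‖e‖ ^ 2 := mul_pos (by linarith) (by positivity)
    constructor
    · rw [DD_lin (lin x hx) (lin y hy), cr_lin, cr_self, cr_I_self]; linarith
    · rw [CC_lin (lin x hx) (lin y hy), cr_lin, cr_self, cr_I_self]; linarith
  have b1 : ∀ x y : ℝ, |x - s0| < ρ → |y - s0| < ρ → β * cr d (DD q x y - p) =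
      (x - s0) * (β * cr d e) + (y - x) * (β * cr d (I * e)) := by
    intro x y hx hy
    rw [DD_lin (lin x hx) (lin y hy), cr_lin]; ring
  have b2 : ∀ x y : ℝ, |x - s0| < ρ → |y - s0| < ρ → β * cr d (CC q x y - p) =
      (y - s0) * (β * cr d e) + (y - x) * (β * cr d (I * e)) := by
    intro x y hx hy
    rw [CC_lin (lin x hx) (lin y hy), cr_lin]; ring
  obtain ⟨j, hj⟩ := amb2 (Tri_pre s0 ρ) (θ := fun p => θ p.1 p.2)
    (M1 := fun p => mgc q (DD q p.1 p.2)) (M2 := fun p => mgc q (CC q p.1 p.2))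
    (N1 := fun z => β * cr d (DD q z.1 z.2 - p)) (N2 := fun z => β * cr d (CC q z.1 z.2 - p))
    (A.cont.mono (Tri_Strip r2))
    (fun z hz => A.ex _ _ (Tri_Strip r2 hz).1 (Tri_Strip r2 hz).2) hτ
    (fun z hz => hsg _ (dist z.1 z.2 hz.1 hz.2.1).1 (up z.1 z.2 hz.1 hz.2.1 hz.2.2).1)
    (fun z hz => hsg _ (dist z.1 z.2 hz.1 hz.2.1).2 (up z.1 z.2 hz.1 hz.2.1 hz.2.2).2)
    (fun z hz => by
      rw [b1 _ _ hz.1 hz.2.1, b2 _ _ hz.1 hz.2.1]
      have := mul_lt_mul_of_pos_right (show z.1 - s0 < z.2 - s0 by linarith [hz.2.2]) hβ1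
      linarith)
  refine ⟨ρ, hρ, j, fun s hlt hsρ => ?_, fun s hgt hsρ => ?_⟩
  · rw [abs_lt] at hsρ
    obtain ⟨ρ', hρ', t1, t2, t3⟩ : ∃ ρ' > 0, ρ' < (s - s0) + ρ ∧ 2 * ρ' ≤ s0 - s ∧
        4 * (ρ' * |cr d (I * e)|) < (s0 - s) * (β * cr d e) := by
      have k1 : 0 < (s0 - s) * (β * cr d e) := mul_pos (by linarith) hβ1
      have k2 : 0 < s - s0 + ρ := by linarith
      have k3 : 0 < s0 - s := by linarith
      refine ⟨min (min ((s - s0 + ρ) / 2) ((s0 - s) / 2))
        ((s0 - s) * (β * cr d e) / (4 * (|cr d (I * e)| + 1))), by positivity, ?_, ?_, ?_⟩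
      · have := (min_le_left (min ((s - s0 + ρ) / 2) ((s0 - s) / 2))
          ((s0 - s) * (β * cr d e) / (4 * (|cr d (I * e)| + 1)))).trans (min_le_left _ _)
        linarith
      · have := (min_le_left (min ((s - s0 + ρ) / 2) ((s0 - s) / 2))
          ((s0 - s) * (β * cr d e) / (4 * (|cr d (I * e)| + 1)))).trans (min_le_right _ _)
        linarith
      · have h1 := min_le_right (min ((s - s0 + ρ) / 2) ((s0 - s) / 2))
          ((s0 - s) * (β * cr d e) / (4 * (|cr d (I * e)| + 1)))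
        set ρ' := min (min ((s - s0 + ρ) / 2) ((s0 - s) / 2))
          ((s0 - s) * (β * cr d e) / (4 * (|cr d (I * e)| + 1)))
        rw [le_div_iff₀ (by positivity)] at h1
        have : 0 < ρ' := by positivity
        nlinarith [abs_nonneg (cr d (I * e))]
    refine ⟨ρ', hρ', fun x y hx hy hxy => ?_⟩
    rw [abs_lt] at hx hy
    have hx0 : |x - s0| < ρ := by rw [abs_lt]; constructor <;> linarith
    have hy0 : |y - s0| < ρ := by rw [abs_lt]; constructor <;> linarith
    refine (hj (x, y) ⟨hx0, hy0, hxy⟩).2 ?_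
    simp only
    rw [b2 x y hx0 hy0]
    have hβa : |β| = 1 := by rcases hβ with h | h <;> rw [h] <;> simp
    have g0 : β * cr d (I * e) ≤ |cr d (I * e)| := by
      refine (le_abs_self _).trans ?_
      rw [abs_mul, hβa, one_mul]
    have g1 : (y - s0) * (β * cr d e) ≤ -(s0 - s) / 2 * (β * cr d e) :=
      mul_le_mul_of_nonneg_right (by linarith) hβ1.le
    have g2 : (y - x) * (β * cr d (I * e)) ≤ (y - x) * |cr d (I * e)| :=
      mul_le_mul_of_nonneg_left g0 (by linarith)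
    have g3 : (y - x) * |cr d (I * e)| ≤ (2 * ρ') * |cr d (I * e)| :=
      mul_le_mul_of_nonneg_right (by linarith) (abs_nonneg _)
    linarith
  · rw [abs_lt] at hsρ
    obtain ⟨ρ', hρ', t1, t2, t3⟩ : ∃ ρ' > 0, ρ' < ρ - (s - s0) ∧ 2 * ρ' ≤ s - s0 ∧
        4 * (ρ' * |cr d (I * e)|) < (s - s0) * (β * cr d e) := by
      have k1 : 0 < (s - s0) * (β * cr d e) := mul_pos (by linarith) hβ1
      have k2 : 0 < ρ - (s - s0) := by linarith
      have k3 : 0 < s - s0 := by linarith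
      refine ⟨min (min ((ρ - (s - s0)) / 2) ((s - s0) / 2))
        ((s - s0) * (β * cr d e) / (4 * (|cr d (I * e)| + 1))), by positivity, ?_, ?_, ?_⟩
      · have := (min_le_left (min ((ρ - (s - s0)) / 2) ((s - s0) / 2))
          ((s - s0) * (β * cr d e) / (4 * (|cr d (I * e)| + 1)))).trans (min_le_left _ _)
        linarith
      · have := (min_le_left (min ((ρ - (s - s0)) / 2) ((s - s0) / 2))
          ((s - s0) * (β * cr d e) / (4 * (|cr d (I * e)| + 1)))).trans (min_le_right _ _)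
        linarith
      · have h1 := min_le_right (min ((ρ - (s - s0)) / 2) ((s - s0) / 2))
          ((s - s0) * (β * cr d e) / (4 * (|cr d (I * e)| + 1)))
        set ρ' := min (min ((ρ - (s - s0)) / 2) ((s - s0) / 2))
          ((s - s0) * (β * cr d e) / (4 * (|cr d (I * e)| + 1)))
        rw [le_div_iff₀ (by positivity)] at h1
        have : 0 < ρ' := by positivity
        nlinarith [abs_nonneg (cr d (I * e))]
    refine ⟨ρ', hρ', fun x y hx hy hxy => ?_⟩
    rw [abs_lt] at hx hy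
    have hx0 : |x - s0| < ρ := by rw [abs_lt]; constructor <;> linarith
    have hy0 : |y - s0| < ρ := by rw [abs_lt]; constructor <;> linarith
    refine (hj (x, y) ⟨hx0, hy0, hxy⟩).1 ?_
    simp only
    rw [b1 x y hx0 hy0]
    have hβa : |β| = 1 := by rcases hβ with h | h <;> rw [h] <;> simp
    have g0 : -|cr d (I * e)| ≤ β * cr d (I * e) := by
      have := neg_abs_le (β * cr d (I * e))
      rwa [abs_mul, hβa, one_mul] at this
    have g1 : (s - s0) / 2 * (β * cr d e) ≤ (x - s0) * (β * cr d e) :=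
      mul_le_mul_of_nonneg_right (by linarith) hβ1.le
    have g2 : (y - x) * -|cr d (I * e)| ≤ (y - x) * (β * cr d (I * e)) :=
      mul_le_mul_of_nonneg_left g0 (by linarith)
    have g3 : (y - x) * |cr d (I * e)| ≤ (2 * ρ') * |cr d (I * e)| :=
      mul_le_mul_of_nonneg_right (by linarith) (abs_nonneg _)
    linarith

theorem Cor.rev {s0 η : ℝ} {e f w : ℂ} (H : Cor q s0 e f w η) :
    Cor (fun t => q (-t)) (-s0) (-f) (-e) (-w) η where
  he := by rw [neg_mul_neg]; exact H.hf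
  hf := by rw [neg_mul_neg]; exact H.he
  hη := H.hη
  fwd s hs := by
    have := H.bwd s hs
    simp only [neg_neg]
    rw [show -(-s0 + s) = s0 - s by ring, this]; ring
  bwd s hs := by
    have := H.fwd s hs
    simp only [neg_neg]
    rw [show -(-s0 - s) = s0 + s by ring, this]; ring
  fib t ht := by
    simp only [neg_neg] at ht
    obtain ⟨n, hn⟩ := H.fib _ ht
    exact ⟨-n, by push_cast; linarith⟩

theorem Dbl.rev {s0 s1 η : ℝ} {e d : ℂ} (H : Dbl q s0 s1 e d η) :
    Dbl (fun t => q (-t)) (-s0) (-s1) (-e) (-d) η where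
  hη := H.hη
  l0 s hs := by
    have := H.l0 (-s) (by rwa [abs_neg])
    simp only [neg_neg]
    rw [show -(-s0 + s) = s0 + -s by ring, this]; push_cast; ring
  l1 s hs := by
    have := H.l1 (-s) (by rwa [abs_neg])
    simp only [neg_neg]
    rw [show -(-s1 + s) = s1 + -s by ring, this]; push_cast; ring
  eq := by simp only [neg_neg]; exact H.eq
  tv := by
    have := H.tv
    unfold An.cr at this ⊢
    simpa using this
  fib t ht := by
    simp only [neg_neg] at ht
    rcases H.fib _ ht with ⟨n, hn⟩ | ⟨n, hn⟩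
    · exact Or.inl ⟨-n, by push_cast; linarith⟩
    · exact Or.inr ⟨-n, by push_cast; linarith⟩

/-- every point is a corner passed once or a transversal double point -/
def PLc (q : ℝ → ℂ) : Prop := ∀ s0, (∃ e f w η, Cor q s0 e f w η) ∨ ∃ s1 e d η, Dbl q s0 s1 e d η

/-- the sum of the two numbers of half turns does not change along the curve -/
theorem chain (L : Loop q) (P : PLc q) {η : ℝ} (hη : 0 < η) {θr : ℝ → ℝ → ℝ} (A : LA q η θ)
    (Ar : LA (fun t => q (-t)) η θr) {a b : ℝ} {ka la kb lb : ℤ} (h1 : KL θ a ka)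
    (h2 : KL θr (-a) la) (h3 : KL θ b kb) (h4 : KL θr (-b) lb) : ka + la = kb + lb := by
  have Lr := L.rev
  have loc : ∀ s0, ∃ m : ℤ, ∃ ρ > 0, ∀ s, s ≠ s0 → |s - s0| < ρ →
      ∃ k l, KL θ s k ∧ KL θr (-s) l ∧ k + l = m := by
    intro s0
    rcases P s0 with ⟨e, f, w, η1, H⟩ | ⟨s1, e, d, η1, H⟩
    · obtain ⟨ρ, hρ, k, hk⟩ := H.half L hη A
      obtain ⟨ρ', hρ', l, hl⟩ := H.rev.half Lr hη Ar
      refine ⟨k + l, min ρ ρ', lt_min hρ hρ', fun s hs hsρ => ⟨k, l, ?_, ?_, rfl⟩⟩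
      · exact hk s hs (hsρ.trans_le (min_le_left _ _))
      · refine hl (-s) (fun h => hs (neg_injective h)) ?_
        rw [show -s - -s0 = -(s - s0) by ring, abs_neg]
        exact hsρ.trans_le (min_le_right _ _)
    · obtain ⟨ρ, hρ, k, hk1, hk2⟩ := H.half L hη A
      obtain ⟨ρ', hρ', l, hl1, hl2⟩ := H.rev.half Lr hη Ar
      refine ⟨k + 1 + l, min ρ ρ', lt_min hρ hρ', fun s hs hsρ => ?_⟩
      have e1 : |(-s) - -s0| < ρ' := by
        rw [show -s - -s0 = -(s - s0) by ring, abs_neg]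
        exact hsρ.trans_le (min_le_right _ _)
      have e2 := hsρ.trans_le (min_le_left ρ ρ')
      rcases lt_or_gt_of_ne hs with h | h
      · exact ⟨k + 1, l, hk1 s h e2, hl2 (-s) (by linarith) e1, rfl⟩
      · exact ⟨k, l + 1, hk2 s h e2, hl1 (-s) (by linarith) e1, by ring⟩
  choose m hm using loc
  have hlc : IsLocallyConstant m := by
    rw [IsLocallyConstant.iff_eventually_eq]
    intro s0
    obtain ⟨ρ, hρ, H⟩ := hm s0
    have : ∀ᶠ s in 𝓝 s0, |s - s0| < ρ := by
      filter_upwards [Metric.ball_mem_nhds s0 hρ] with s hs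
      exact hs
    filter_upwards [this] with s hs
    obtain ⟨ρ', hρ', H'⟩ := hm s
    -- a common point
    obtain ⟨r, hr, r1, r2⟩ : ∃ r > 0, r < ρ' ∧ r < ρ - |s - s0| := by
      have : 0 < ρ - |s - s0| := by linarith
      exact ⟨min (ρ' / 2) ((ρ - |s - s0|) / 2), by positivity,
        by linarith [min_le_left (ρ' / 2) ((ρ - |s - s0|) / 2)],
        by linarith [min_le_right (ρ' / 2) ((ρ - |s - s0|) / 2)]⟩
    obtain ⟨s', n1, n2, n3, n4⟩ : ∃ s', s' ≠ s ∧ s' ≠ s0 ∧ |s' - s| < ρ' ∧ |s' - s0| < ρ := by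
      by_cases h : s + r = s0
      · refine ⟨s + r / 2, by linarith, by intro h'; linarith, ?_, ?_⟩
        · rw [add_sub_cancel_left, abs_of_pos (by positivity)]; linarith
        · have := abs_add_le (r / 2) (s - s0)
          rw [show r / 2 + (s - s0) = s + r / 2 - s0 by ring, abs_of_pos (by positivity : 0 < r / 2)] at this
          linarith
      · refine ⟨s + r, by linarith, h, ?_, ?_⟩
        · rw [add_sub_cancel_left, abs_of_pos hr]; linarith
        · have := abs_add_le r (s - s0)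
          rw [show r + (s - s0) = s + r - s0 by ring, abs_of_pos hr] at this
          linarith
    obtain ⟨k, l, a1, a2, a3⟩ := H s' n2 n4
    obtain ⟨k', l', b1, b2, b3⟩ := H' s' n1 n3
    rw [← a3, ← b3, a1.uniq b1, a2.uniq b2]
  have hconst := hlc.apply_eq_of_preconnectedSpace a b
  have val : ∀ s k l, KL θ s k → KL θr (-s) l → m s = k + l := by
    intro s k l hk hl
    obtain ⟨ρ, hρ, H⟩ := hm s
    obtain ⟨ρ1, hρ1, H1⟩ := hk.loc
    obtain ⟨ρ2, hρ2, H2⟩ := hl.loc
    obtain ⟨r, hr, r1, r2, r3⟩ : ∃ r > 0, r < ρ ∧ r < ρ1 ∧ r < ρ2 :=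
      ⟨min ρ (min ρ1 ρ2) / 2, by positivity, by
        have := min_le_left ρ (min ρ1 ρ2)
        linarith, by
        have := (min_le_right ρ (min ρ1 ρ2)).trans (min_le_left _ _)
        linarith, by
        have := (min_le_right ρ (min ρ1 ρ2)).trans (min_le_right _ _)
        linarith⟩
    obtain ⟨k', l', a1, a2, a3⟩ := H (s + r) (by linarith) (by
      rw [add_sub_cancel_left, abs_of_pos hr]; exact r1)
    have b1 := H1 (s + r) (by rw [add_sub_cancel_left, abs_of_pos hr]; exact r2)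
    have b2 := H2 (-(s + r)) (by
      rw [show -(s + r) - -s = -r by ring, abs_neg, abs_of_pos hr]; exact r3)
    rw [← a3, a1.uniq b1, a2.uniq b2]
  rw [← val a ka la h1 h2, ← val b kb lb h3 h4, hconst]

end Pool.Agent.Y535.PEG
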