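import Pool.Agent.Y535.PEG.Mon2

/-! Charges of the arcs of a curve without inscribed squares. -/

set_option autoImplicit false
open Complex Set Topology Metric

namespace Pool.Agent.Y535.PEG

open Pool.Agent.H763R2 Pool.Agent.H763R2.An Pool.Agent.W675.Peg Pool.Agent.TH569.Peg
open Pool.Agent.H763R2.Dm (NoSq floor_const)

variable {c q : ℝ → ℂ} {θ : ℝ → ℝ → ℝ} {g : ℤ}

theorem Ang.rev (L : Loop c) (A : Ang c (mgc c) θ g) :
    Ang (fun t => c (-t)) (mgc (fun t => c (-t))) (fun x y => θ (-x) (-y + 1)) (-g) where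
  cont := by
    refine A.cont.comp (f := fun p : ℝ × ℝ => ((-p.1, -p.2 + 1) : ℝ × ℝ)) (by fun_prop) ?_
    rintro p ⟨h1, h2⟩
    exact ⟨by simp only; linarith, by simp only; linarith⟩
  ex x y h1 h2 := by
    obtain ⟨ρ, hρ, e1, e2⟩ := A.ex (-x) (-y + 1) (by linarith) (by linarith)
    rw [DD_per1 L] at e1
    rw [CC_per1 L] at e2
    refine ⟨ρ, hρ, ?_, ?_⟩
    · rw [mgc_rev L]; exact e1
    · rw [mgc_rev L]; exact e2
  per x y h1 h2 := by
    have := A.per (-x - 1) (-y) (by linarith) (by linarith)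
    rw [sub_add_cancel] at this
    rw [this, show -(x + 1) = -x - 1 by ring, show -(y + 1) + 1 = -y by ring]
    push_cast; ring

theorem KR.rev {s : ℝ} {k : ℤ} (h : KR θ s k) : KL (fun x y => θ (-x) (-y + 1)) (-s) k := by
  obtain ⟨ρ, hρ, H⟩ := h
  refine ⟨ρ, hρ, fun x y hx hy hxy => H (-y) (-x) ?_ ?_ (by linarith)⟩
  · rwa [show -y - s = -(y - -s) by ring, abs_neg]
  · rwa [show -x - s = -(x - -s) by ring, abs_neg]

theorem Cone.rev {s : ℝ} (h : Cone c s) : Cone (fun t => c (-t)) (-s) := by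
  obtain ⟨ρ, hρ, w, hw⟩ := h
  refine ⟨ρ, hρ, -w, fun x y hx hy hxy => ?_⟩
  have := hw (-y) (-x) (by rwa [show -y - s = -(y - -s) by ring, abs_neg])
    (by rwa [show -x - s = -(x - -s) by ring, abs_neg]) (by linarith)
  rwa [show -w * (c (-y) - c (-x)) = w * (c (-x) - c (-y)) by ring]

theorem Cone.per (L : Loop c) {s : ℝ} (h : Cone c s) : Cone c (s + 1) := by
  obtain ⟨ρ, hρ, w, hw⟩ := h
  refine ⟨ρ, hρ, w, fun x y hx hy hxy => ?_⟩
  have := hw (x - 1) (y - 1) (by rwa [show x - 1 - s = x - (s + 1) by ring])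
    (by rwa [show y - 1 - s = y - (s + 1) by ring]) (by linarith)
  have e1 := L.per (x - 1)
  have e2 := L.per (y - 1)
  rw [sub_add_cancel] at e1 e2
  rwa [← e1, ← e2] at this

theorem KR.parity (L : Loop c) (J : Inj c) {z0 : ℂ} (h0 : 0 < mgc c z0) (A : Ang c (mgc c) θ g)
    {s s' : ℝ} (h : Cone c s) (h' : Cone c s') {k k' : ℤ} (hk : KR θ s k) (hk' : KR θ s' k') :
    Even (k' - k) :=
  KL.parity L.rev (J.rev L) (z0 := z0) (by rw [mgc_rev L]; exact h0) (Ang.rev L A) h.rev h'.rev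
    hk.rev hk'.rev

/-- a cone point or a corner between two segments -/
def CC1 (c : ℝ → ℂ) (s : ℝ) : Prop := Cone c s ∨ ∃ e f w η, Cor c s e f w η

theorem KL.tameC (L : Loop c) (J : Inj c) (A : Ang c (mgc c) θ g) {a b : ℝ}
    (h : ∀ s ∈ Icc a b, CC1 c s) (hab : a ≤ b) {k k' : ℤ} (hk : KL θ a k) (hk' : KL θ b k') :
    k = k' := by
  have hA : LA c 1 θ := ⟨A.cont.mono (fun p hp => hp), fun x y h1 h2 => A.ex x y h1 h2⟩
  refine const_Icc (P := KL θ) (fun s k k' h h' => h.uniq h') (fun s k h => h.loc) hab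
    (fun s hs => ?_) hk hk'
  rcases h s hs with h | ⟨e, f, w, η, H⟩
  · obtain ⟨k, hk⟩ := exKL L J A h
    obtain ⟨ρ, hρ, H⟩ := hk.loc
    exact ⟨k, ρ, hρ, fun s' _ hs' => H s' hs'⟩
  · obtain ⟨ρ, hρ, k, hk⟩ := H.half L one_pos hA
    exact ⟨k, ρ, hρ, hk⟩

theorem KR.tameC (L : Loop c) (J : Inj c) (A : Ang c (mgc c) θ g) {a b : ℝ}
    (h : ∀ s ∈ Icc a b, CC1 c s) (hab : a ≤ b) {k k' : ℤ} (hk : KR θ a k) (hk' : KR θ b k') :
    k = k' := by
  refine (KL.tameC L.rev (J.rev L) (Ang.rev L A) (a := -b) (b := -a) (fun s hs => ?_) (by linarith)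
    hk'.rev hk.rev).symm
  rcases h (-s) ⟨by linarith [hs.2], by linarith [hs.1]⟩ with h | ⟨e, f, w, η, H⟩
  · have := h.rev
    rw [neg_neg] at this
    exact Or.inl this
  · have := H.rev
    rw [neg_neg] at this
    exact Or.inr ⟨_, _, _, _, this⟩

/-- transport between two similar arcs -/
theorem tr_gen (L : Loop c) (J : Inj c) {z0 : ℂ} (h0 : 0 < mgc c z0) (A : Ang c (mgc c) θ g)
    {a b a' b' : ℝ} (hab : a < b) (hb : b < a + 1) (hab' : a' < b') (hb' : b' < a' + 1)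
    (Ca : Cone c a) (Cb : Cone c b) {la lb la' lb' ra' rb' : ℤ} (h1 : KL θ a la) (h2 : KL θ b lb)
    (h3 : KL θ a' la') (h4 : KL θ b' lb') (h5 : KR θ a' ra') (h6 : KR θ b' rb')
    {T : ℂ → ℂ} {u : ℂ} {e : ℤ} (hT : Smy T u e)
    (him : T '' (c '' Icc a b) = c '' Icc a' b') :
    ∃ d : ℤ, ((d = 1 ∧ T (c a) = c a' ∧ T (c b) = c b') ∨
        (d = -1 ∧ T (c a) = c b' ∧ T (c b) = c a')) ∧
      ((d * e = 1 ∧ lb' - la' = lb - la) ∨ (d * e = -1 ∧ rb' - ra' = -(lb - la))) := by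
  obtain ⟨φ, d, P, hφ⟩ := mk_mp L J hT hab hb hab' hb' him
  have ea := P.eq a ⟨le_rfl, hab.le⟩
  have eb := P.eq b ⟨hab.le, le_rfl⟩
  have hde : d * e = 1 ∨ d * e = -1 := by
    rcases P.mono with ⟨h1, -⟩ | ⟨h1, -⟩ <;> rcases hT.h with ⟨h2, -⟩ | ⟨h2, -⟩ <;>
      rw [h1, h2] <;> simp
  refine ⟨d, ?_, ?_⟩
  · rcases hφ with ⟨hd, f1, f2⟩ | ⟨hd, f1, f2⟩
    · exact Or.inl ⟨hd, by rw [← ea, f1], by rw [← eb, f2]⟩
    · exact Or.inr ⟨hd, by rw [← ea, f1], by rw [← eb, f2]⟩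
  · rcases hde with hde | hde
    · refine Or.inl ⟨hde, ?_⟩
      rcases hφ with ⟨hd, f1, f2⟩ | ⟨hd, f1, f2⟩
      · have := arc_keep L J h0 A hT P Ca Cb h1 h2 (l0 := la') (l1 := lb')
          (by rw [f1]; exact h3) (by rw [f2]; exact h4) hde
        rw [hd] at this; linarith
      · have := arc_keep L J h0 A hT P Ca Cb h1 h2 (l0 := lb') (l1 := la')
          (by rw [f1]; exact h4) (by rw [f2]; exact h3) hde
        rw [hd] at this; linarith
    · refine Or.inr ⟨hde, ?_⟩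
      rcases hφ with ⟨hd, f1, f2⟩ | ⟨hd, f1, f2⟩
      · have := arc_swap L J h0 A hT P Ca Cb h1 h2 (l0 := ra') (l1 := rb')
          (by rw [f1]; exact h5) (by rw [f2]; exact h6) hde
        rw [hd] at this; linarith
      · have := arc_swap L J h0 A hT P Ca Cb h1 h2 (l0 := rb') (l1 := ra')
          (by rw [f1]; exact h6) (by rw [f2]; exact h5) hde
        rw [hd] at this; linarith

/-- an arc with ends at cone points -/
structure AR (c : ℝ → ℂ) (a b : ℝ) : Prop where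
  ab : a < b
  ba : b < a + 1
  ha : Cone c a
  hb : Cone c b

theorem AR.ne {a b : ℝ} (J : Inj c) (h : AR c a b) : c a ≠ c b := J _ _ h.ab h.ba

theorem im_rev (a b : ℝ) : (fun t => c (-t)) '' Icc (-b) (-a) = c '' Icc a b := by
  ext z
  constructor
  · rintro ⟨t, ht, rfl⟩
    exact ⟨-t, ⟨by linarith [ht.2], by linarith [ht.1]⟩, rfl⟩
  · rintro ⟨t, ht, rfl⟩
    exact ⟨-t, ⟨by linarith [ht.2], by linarith [ht.1]⟩, by simp⟩

/-- side keeping similarity between arcs -/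
def KP (c : ℝ → ℂ) (a b a' b' : ℝ) : Prop := ∃ u v : ℂ, u ≠ 0 ∧
  (((fun z => u * z + v) '' (c '' Icc a b) = c '' Icc a' b' ∧ u * c a + v = c a') ∨
   ((fun z => u * (starRingEnd ℂ) z + v) '' (c '' Icc a b) = c '' Icc a' b' ∧
      u * (starRingEnd ℂ) (c a) + v = c b'))

/-- side exchanging similarity between arcs -/
def SP (c : ℝ → ℂ) (a b a' b' : ℝ) : Prop := ∃ u v : ℂ, u ≠ 0 ∧
  (((fun z => u * z + v) '' (c '' Icc a b) = c '' Icc a' b' ∧ u * c a + v = c b') ∨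
   ((fun z => u * (starRingEnd ℂ) z + v) '' (c '' Icc a b) = c '' Icc a' b' ∧
      u * (starRingEnd ℂ) (c a) + v = c a'))

theorem keepL (L : Loop c) (J : Inj c) {z0 : ℂ} (h0 : 0 < mgc c z0) (A : Ang c (mgc c) θ g)
    {a b a' b' : ℝ} (h : AR c a b) (h' : AR c a' b') {la lb la' lb' : ℤ} (h1 : KL θ a la)
    (h2 : KL θ b lb) (h3 : KL θ a' la') (h4 : KL θ b' lb') (hK : KP c a b a' b') :
    lb' - la' = lb - la := by
  obtain ⟨ra', h5⟩ := exKR L J A h'.ha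
  obtain ⟨rb', h6⟩ := exKR L J A h'.hb
  have hne := h'.ne J
  obtain ⟨u, v, hu, ⟨e1, e2⟩ | ⟨e1, e2⟩⟩ := hK
  · obtain ⟨d, hd, hh⟩ := tr_gen L J h0 A h.ab h.ba h'.ab h'.ba h.ha h.hb h1 h2 h3 h4 h5 h6
      (T := fun z => u * z + v) (u := u) (e := 1) ⟨hu, Or.inl ⟨rfl, v, fun _ => rfl⟩⟩ e1
    rcases hd with ⟨hd, -⟩ | ⟨-, hd, -⟩
    · rcases hh with ⟨-, hh⟩ | ⟨hh, -⟩
      · exact hh
      · rw [hd] at hh; exact absurd hh (by decide)
    · exact absurd (e2.symm.trans hd) hne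
  · obtain ⟨d, hd, hh⟩ := tr_gen L J h0 A h.ab h.ba h'.ab h'.ba h.ha h.hb h1 h2 h3 h4 h5 h6
      (T := fun z => u * (starRingEnd ℂ) z + v) (u := u) (e := -1)
      ⟨hu, Or.inr ⟨rfl, v, fun _ => rfl⟩⟩ e1
    rcases hd with ⟨-, hd, -⟩ | ⟨hd, -⟩
    · exact absurd (hd.symm.trans e2) hne
    · rcases hh with ⟨-, hh⟩ | ⟨hh, -⟩
      · exact hh
      · rw [hd] at hh; exact absurd hh (by decide)

theorem keepR (L : Loop c) (J : Inj c) {z0 : ℂ} (h0 : 0 < mgc c z0) (A : Ang c (mgc c) θ g)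
    {a b a' b' : ℝ} (h : AR c a b) (h' : AR c a' b') {la lb la' lb' : ℤ} (h1 : KR θ a la)
    (h2 : KR θ b lb) (h3 : KR θ a' la') (h4 : KR θ b' lb') (hK : KP c a b a' b') :
    lb' - la' = lb - la := by
  have r : AR (fun t => c (-t)) (-b) (-a) := ⟨by linarith [h.ab], by linarith [h.ba], h.hb.rev, h.ha.rev⟩
  have r' : AR (fun t => c (-t)) (-b') (-a') :=
    ⟨by linarith [h'.ab], by linarith [h'.ba], h'.hb.rev, h'.ha.rev⟩
  -- the ends correspond
  have hne := h.ne J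
  have hne' := h'.ne J
  have key : KP (fun t => c (-t)) (-b) (-a) (-b') (-a') := by
    obtain ⟨la, g1⟩ := exKL L J A h.ha
    obtain ⟨lb, g2⟩ := exKL L J A h.hb
    obtain ⟨la', g3⟩ := exKL L J A h'.ha
    obtain ⟨lb', g4⟩ := exKL L J A h'.hb
    obtain ⟨u, v, hu, ⟨e1, e2⟩ | ⟨e1, e2⟩⟩ := hK
    · obtain ⟨d, hd, -⟩ := tr_gen L J h0 A h.ab h.ba h'.ab h'.ba h.ha h.hb g1 g2 g3 g4 h3 h4
        (T := fun z => u * z + v) (u := u) (e := 1) ⟨hu, Or.inl ⟨rfl, v, fun _ => rfl⟩⟩ e1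
      rcases hd with ⟨-, -, hd⟩ | ⟨-, hd, -⟩
      · refine ⟨u, v, hu, Or.inl ⟨?_, ?_⟩⟩
        · rw [im_rev, im_rev]; exact e1
        · simp only [neg_neg]; exact hd
      · exact absurd (e2.symm.trans hd) hne'
    · obtain ⟨d, hd, -⟩ := tr_gen L J h0 A h.ab h.ba h'.ab h'.ba h.ha h.hb g1 g2 g3 g4 h3 h4
        (T := fun z => u * (starRingEnd ℂ) z + v) (u := u) (e := -1)
        ⟨hu, Or.inr ⟨rfl, v, fun _ => rfl⟩⟩ e1
      rcases hd with ⟨-, hd, -⟩ | ⟨-, -, hd⟩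
      · exact absurd (hd.symm.trans e2) hne'
      · refine ⟨u, v, hu, Or.inr ⟨?_, ?_⟩⟩
        · rw [im_rev, im_rev]; exact e1
        · simp only [neg_neg]; exact hd
  have := keepL L.rev (J.rev L) (z0 := z0) (by rw [mgc_rev L]; exact h0) (Ang.rev L A) r r' h2.rev
    h1.rev h4.rev h3.rev key
  linarith

theorem swapLR (L : Loop c) (J : Inj c) {z0 : ℂ} (h0 : 0 < mgc c z0) (A : Ang c (mgc c) θ g)
    {a b a' b' : ℝ} (h : AR c a b) (h' : AR c a' b') {la lb ra' rb' : ℤ} (h1 : KL θ a la)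
    (h2 : KL θ b lb) (h5 : KR θ a' ra') (h6 : KR θ b' rb') (hK : SP c a b a' b') :
    rb' - ra' = -(lb - la) := by
  obtain ⟨la', h3⟩ := exKL L J A h'.ha
  obtain ⟨lb', h4⟩ := exKL L J A h'.hb
  have hne := h'.ne J
  obtain ⟨u, v, hu, ⟨e1, e2⟩ | ⟨e1, e2⟩⟩ := hK
  · obtain ⟨d, hd, hh⟩ := tr_gen L J h0 A h.ab h.ba h'.ab h'.ba h.ha h.hb h1 h2 h3 h4 h5 h6
      (T := fun z => u * z + v) (u := u) (e := 1) ⟨hu, Or.inl ⟨rfl, v, fun _ => rfl⟩⟩ e1
    rcases hd with ⟨-, hd, -⟩ | ⟨hd, -⟩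
    · exact absurd (hd.symm.trans e2) hne
    · rcases hh with ⟨hh, -⟩ | ⟨-, hh⟩
      · rw [hd] at hh; exact absurd hh (by decide)
      · exact hh
  · obtain ⟨d, hd, hh⟩ := tr_gen L J h0 A h.ab h.ba h'.ab h'.ba h.ha h.hb h1 h2 h3 h4 h5 h6
      (T := fun z => u * (starRingEnd ℂ) z + v) (u := u) (e := -1)
      ⟨hu, Or.inr ⟨rfl, v, fun _ => rfl⟩⟩ e1
    rcases hd with ⟨hd, -⟩ | ⟨-, hd, -⟩
    · rcases hh with ⟨hh, -⟩ | ⟨-, hh⟩
      · rw [hd] at hh; exact absurd hh (by decide)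
      · exact hh
    · exact absurd (e2.symm.trans hd) hne

/-- the charges of a curve without inscribed squares -/
theorem exCharge (L : Loop c) (J : Inj c) (nosq : NoSq (range c)) :
    ∃ (x y : ℝ → ℤ) (g : ℤ), Odd g ∧
      (∀ s, Cone c s → x (s + 1) = x s + g ∧ y (s + 1) = y s + g) ∧
      (∀ s t, AR c s t → (∀ r ∈ Icc s t, CC1 c r) → x t = x s ∧ y t = y s) ∧
      (∀ s t, AR c s t → (∀ r ∈ Icc s t, Mon c r) → Even (x t - x s)) ∧
      (∀ s t, AR c s t → Even ((x t - x s) - (y t - y s))) ∧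
      (∀ s t s' t', AR c s t → AR c s' t' → KP c s t s' t' →
        x t' - x s' = x t - x s ∧ y t' - y s' = y t - y s) ∧
      (∀ s t s' t', AR c s t → AR c s' t' → SP c s t s' t' →
        y t' - y s' = -(x t - x s)) := by
  classical
  obtain ⟨θ, g, A, ho⟩ := exists_odd L J nosq
  obtain ⟨z0, h0⟩ := exists_pos L J nosq
  by_cases hex : ∃ s0, Cone c s0
  · obtain ⟨s0, C0⟩ := hex
    obtain ⟨l0, hl0⟩ := exKL L J A C0
    obtain ⟨r0, hr0⟩ := exKR L J A C0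
    have ex1 : ∀ s, ∃ k : ℤ, Cone c s → KL θ s (l0 + 2 * k) := fun s => by
      by_cases hs : Cone c s
      · obtain ⟨k, hk⟩ := exKL L J A hs
        obtain ⟨m, hm⟩ := KL.parity L J h0 A C0 hs hl0 hk
        exact ⟨m, fun _ => by rwa [show l0 + 2 * m = k by linarith]⟩
      · exact ⟨0, fun h => absurd h hs⟩
    have ex2 : ∀ s, ∃ k : ℤ, Cone c s → KR θ s (r0 + 2 * k) := fun s => by
      by_cases hs : Cone c s
      · obtain ⟨k, hk⟩ := exKR L J A hs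
        obtain ⟨m, hm⟩ := KR.parity L J h0 A C0 hs hr0 hk
        exact ⟨m, fun _ => by rwa [show r0 + 2 * m = k by linarith]⟩
      · exact ⟨0, fun h => absurd h hs⟩
    choose x hx using ex1
    choose y hy using ex2
    refine ⟨x, y, g, ho, ?_, ?_, ?_, ?_, ?_, ?_⟩
    · intro s hs
      have hs1 := hs.per L
      have e1 := (hx (s + 1) hs1).uniq ((hx s hs).per A)
      have e2 := (hy (s + 1) hs1).uniq ((hy s hs).per A)
      constructor <;> linarith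
    · intro s t h hc
      have e1 := KL.tameC L J A hc h.ab.le (hx s h.ha) (hx t h.hb)
      have e2 := KR.tameC L J A hc h.ab.le (hy s h.ha) (hy t h.hb)
      constructor <;> linarith
    · intro s t h hM
      obtain ⟨k, hk⟩ := mono4 L J nosq A h.ab h.ba h.ha h.hb hM (hx s h.ha) (hx t h.hb)
      exact ⟨k, by linarith⟩
    · intro s t h
      obtain ⟨k, hk⟩ := parity L J nosq A h.ab h.ba h.ha h.hb (hx s h.ha) (hx t h.hb)
        (hy s h.ha) (hy t h.hb)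
      exact ⟨-k, by linarith⟩
    · intro s t s' t' h h' hK
      have e1 := keepL L J h0 A h h' (hx s h.ha) (hx t h.hb) (hx s' h'.ha) (hx t' h'.hb) hK
      have e2 := keepR L J h0 A h h' (hy s h.ha) (hy t h.hb) (hy s' h'.ha) (hy t' h'.hb) hK
      constructor <;> linarith
    · intro s t s' t' h h' hK
      have e1 := swapLR L J h0 A h h' (hx s h.ha) (hx t h.hb) (hy s' h'.ha) (hy t' h'.hb) hK
      linarith
  · refine ⟨0, 0, g, ho, ?_, ?_, ?_, ?_, ?_, ?_⟩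
    · exact fun s hs => absurd ⟨s, hs⟩ hex
    · exact fun s t h => absurd ⟨s, h.ha⟩ hex
    · exact fun s t h => absurd ⟨s, h.ha⟩ hex
    · exact fun s t h => absurd ⟨s, h.ha⟩ hex
    · exact fun s t s' t' h => absurd ⟨s, h.ha⟩ hex
    · exact fun s t s' t' h => absurd ⟨s, h.ha⟩ hex

end Pool.Agent.Y535.PEG
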