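import Pool.Agent.Y535.PEG.Amb

/-! Squares over chords across a corner: algebra. -/

set_option autoImplicit false
open Complex Set Topology Metric

namespace Pool.Agent.Y535.PEG

open Pool.Agent.H763R2 Pool.Agent.H763R2.An Pool.Agent.W675.Peg Pool.Agent.TH569.Peg
open Pool.Agent.H763R2.Dm (NoSq floor_const)

/-- increments of a convex function with one corner, second form -/
theorem corner_real2 {s1 s2 X1 X2 h : ℝ} (hs : s1 ≤ s2) (hX : X1 < X2)
    (hh : h = max (s1 * X2) (s2 * X2) - max (s1 * X1) (s2 * X1))
    (e : max (s1 * (X1 + h)) (s2 * (X1 + h)) - max (s1 * X1) (s2 * X1) =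
      max (s1 * (X2 + h)) (s2 * (X2 + h)) - max (s1 * X2) (s2 * X2))
    (hn : max (s1 * (X1 + h)) (s2 * (X1 + h)) - max (s1 * X1) (s2 * X1) < 0) : False := by
  have fneg : ∀ X : ℝ, X ≤ 0 → max (s1 * X) (s2 * X) = s1 * X := fun X hX => by
    apply max_eq_left; nlinarith
  have fpos : ∀ X : ℝ, 0 ≤ X → max (s1 * X) (s2 * X) = s2 * X := fun X hX => by
    apply max_eq_right; nlinarith
  rcases lt_trichotomy h 0 with hh0 | hh0 | hh0
  · by_cases c1 : X2 ≤ 0
    · rw [e, fneg _ c1, fneg (X2 + h) (by linarith)] at hn
      have : 0 < s1 := by nlinarith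
      have g1 : max (s1 * X1) (s2 * X1) ≤ max (s1 * X2) (s2 * X2) := by
        apply max_le_max <;> nlinarith
      linarith
    · push Not at c1
      rw [fpos X2 c1.le] at e
      by_cases c2 : 0 ≤ X1
      · rw [fpos X1 c2] at e hn
        rw [fpos X1 c2, fpos X2 (by linarith)] at hh
        by_cases c3 : 0 ≤ X1 + h
        · rw [fpos _ c3] at hn
          have : 0 < s2 := by nlinarith
          nlinarith
        · push Not at c3
          rw [fneg _ c3.le] at e hn
          by_cases c4 : 0 ≤ X2 + h
          · rw [fpos _ c4] at e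
            have e' : (s1 - s2) * (X1 + h) = 0 := by linarith
            rcases mul_eq_zero.1 e' with h1 | h1
            · have : s1 = s2 := by linarith
              subst this
              have : 0 < s1 := by nlinarith
              nlinarith
            · linarith
          · push Not at c4
            rw [fneg _ c4.le] at e
            have e' : (s1 - s2) * (X1 - X2) = 0 := by linarith
            rcases mul_eq_zero.1 e' with h1 | h1
            · have : s1 = s2 := by linarith
              subst this
              have : 0 < s1 := by nlinarith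
              nlinarith
            · linarith
      · push Not at c2
        rw [fneg X1 c2.le, fneg (X1 + h) (by linarith)] at hn
        have : 0 < s1 := by nlinarith
        have g1 : max (s1 * X1) (s2 * X1) ≤ max (s1 * X2) (s2 * X2) := by
          apply max_le_max <;> nlinarith
        linarith
  · rw [hh0, add_zero, sub_self] at hn
    exact lt_irrefl _ hn
  · by_cases c1 : 0 ≤ X1
    · rw [fpos _ c1, fpos (X1 + h) (by linarith)] at hn
      have : s2 < 0 := by nlinarith
      have g1 : max (s1 * X2) (s2 * X2) ≤ max (s1 * X1) (s2 * X1) := by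
        apply max_le_max <;> nlinarith
      linarith
    · push Not at c1
      rw [fneg X1 c1.le] at e hn
      by_cases c2 : X2 ≤ 0
      · rw [fneg X2 c2] at e
        rw [fneg X2 c2, fneg X1 (by linarith)] at hh
        by_cases c3 : X1 + h ≤ 0
        · rw [fneg _ c3] at hn
          have : s1 < 0 := by nlinarith
          nlinarith
        · push Not at c3
          rw [fpos _ c3.le] at e hn
          rw [fpos _ (by linarith : 0 ≤ X2 + h)] at e
          have e' : (s2 - s1) * (X1 - X2) = 0 := by linarith
          rcases mul_eq_zero.1 e' with h1 | h1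
          · have : s1 = s2 := by linarith
            subst this
            have : s1 < 0 := by nlinarith
            nlinarith
          · linarith
      · push Not at c2
        rw [e, fpos X2 c2.le, fpos (X2 + h) (by linarith)] at hn
        have : s2 < 0 := by nlinarith
        have g1 : max (s1 * X2) (s2 * X2) ≤ max (s1 * X1) (s2 * X1) := by
          apply max_le_max <;> nlinarith
        linarith

/-- a function with one corner -/
noncomputable def fc (s1 s2 X : ℝ) : ℝ := s1 * min X 0 + s2 * max X 0

theorem fc_neg {s1 s2 X : ℝ} (h : X ≤ 0) : fc s1 s2 X = s1 * X := by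
  unfold fc; rw [min_eq_left h, max_eq_right h]; ring

theorem fc_pos {s1 s2 X : ℝ} (h : 0 ≤ X) : fc s1 s2 X = s2 * X := by
  unfold fc; rw [min_eq_right h, max_eq_left h]; ring

theorem fc_mul {s1 s2 X l : ℝ} (hl : 0 ≤ l) : fc s1 s2 (l * X) = l * fc s1 s2 X := by
  rcases le_total X 0 with h | h
  · rw [fc_neg h, fc_neg (mul_nonpos_of_nonneg_of_nonpos hl h)]; ring
  · rw [fc_pos h, fc_pos (mul_nonneg hl h)]; ring

theorem fc_max {s1 s2 : ℝ} (h : s1 ≤ s2) (X : ℝ) : fc s1 s2 X = max (s1 * X) (s2 * X) := by
  rcases le_total X 0 with hX | hX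
  · rw [fc_neg hX, max_eq_left]; nlinarith
  · rw [fc_pos hX, max_eq_right]; nlinarith

theorem fc_min {s1 s2 : ℝ} (h : s2 ≤ s1) (X : ℝ) : fc s1 s2 X = -max (-s1 * X) (-s2 * X) := by
  rcases le_total X 0 with hX | hX
  · rw [fc_neg hX, max_eq_left]
    · ring
    · nlinarith
  · rw [fc_pos hX, max_eq_right]
    · ring
    · nlinarith

/-- the two free vertices of a square over a chord of a corner are not both at the same height
below the corner curve -/
theorem corner_no {s1 s2 X1 X2 : ℝ} (hX : X1 < X2)
    (e : X2 - X1 + fc s1 s2 X1 - fc s1 s2 (X1 - (fc s1 s2 X2 - fc s1 s2 X1)) =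
      X2 - X1 + fc s1 s2 X2 - fc s1 s2 (X2 - (fc s1 s2 X2 - fc s1 s2 X1)))
    (hn : X2 - X1 + fc s1 s2 X1 - fc s1 s2 (X1 - (fc s1 s2 X2 - fc s1 s2 X1)) < 0) : False := by
  rcases le_total s1 s2 with h | h
  · simp only [fc_max h] at e hn
    exact corner_real h hX rfl (by linarith) (by linarith)
  · have ea : ∀ X, fc s1 s2 X = -max (-s1 * X) (-s2 * X) := fc_min h
    have e1 : ∀ X : ℝ, X - (fc s1 s2 X2 - fc s1 s2 X1) =
        X + (max (-s1 * X2) (-s2 * X2) - max (-s1 * X1) (-s2 * X1)) := fun X => by
      rw [ea X1, ea X2]; ring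
    rw [e1, e1, ea, ea, ea, ea] at e
    rw [e1, ea, ea] at hn
    exact corner_real2 (s1 := -s1) (s2 := -s2) (by linarith) hX rfl (by linarith) (by linarith)

end Pool.Agent.Y535.PEG
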