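import Pool.Agent.Y535.PEG.Sim

/-! Points near which all chords lie in an open quarter plane. -/

set_option autoImplicit false
open Complex Set Topology Metric

namespace Pool.Agent.Y535.PEG

open Pool.Agent.H763R2 Pool.Agent.H763R2.An Pool.Agent.W675.Peg Pool.Agent.TH569.Peg
open Pool.Agent.H763R2.Dm (NoSq floor_const)

variable {c : ℝ → ℂ}

/-- near the parameter `s` all chords lie in an open quarter plane -/
def Cone (c : ℝ → ℂ) (s : ℝ) : Prop := ∃ ρ > 0, ∃ w : ℂ, ∀ x y : ℝ, |x - s| < ρ → |y - s| < ρ →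
  x < y → |(w * (c y - c x)).im| < (w * (c y - c x)).re

theorem real_cone {a b l X Y : ℝ} (hab : |b| < a) (h0 : 0 ≤ l) (h1 : l ≤ 1)
    (hX : X = l * a - b) (hY : Y = l * b + a) (h2 : |Y| ≤ |X|) (h3 : |Y - b| ≤ |X - a|) :
    False := by
  subst hX hY
  obtain ⟨ab1, ab2⟩ := abs_lt.1 hab
  have ha : 0 < a := lt_of_le_of_lt (abs_nonneg b) hab
  have k1 : l * b + a ≤ |l * a - b| := (le_abs_self _).trans h2
  have k2 : l * b + a - b ≤ |l * a - b - a| := (le_abs_self _).trans h3
  rcases le_abs.1 k1 with k | k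
  · rcases le_abs.1 k2 with m | m
    · nlinarith [mul_nonneg h0 ha.le, mul_nonneg (sub_nonneg.2 h1) ha.le]
    · nlinarith [mul_nonneg h0 ha.le, mul_nonneg (sub_nonneg.2 h1) ha.le,
        mul_nonneg h0 (sub_nonneg.2 h1)]
  · nlinarith [mul_nonneg h0 ha.le, mul_nonneg (sub_nonneg.2 h1) ha.le]

theorem sign_pre {X : Type*} [TopologicalSpace X] {V : Set X} (hV : IsPreconnected V) {f : X → ℝ}
    (hf : ContinuousOn f V) (h : ∀ z ∈ V, f z ≠ 0) {z w : X} (hz : z ∈ V) (hw : w ∈ V) :
    0 < f z * f w := by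
  rcases lt_or_gt_of_ne (h z hz) with h1 | h1 <;> rcases lt_or_gt_of_ne (h w hw) with h2 | h2
  · exact mul_pos_of_neg_of_neg h1 h2
  · obtain ⟨x, hx, hx0⟩ := hV.intermediate_value hz hw hf
      (show (0:ℝ) ∈ Icc (f z) (f w) from ⟨h1.le, h2.le⟩)
    exact absurd hx0 (h x hx)
  · obtain ⟨x, hx, hx0⟩ := hV.intermediate_value hw hz hf
      (show (0:ℝ) ∈ Icc (f w) (f z) from ⟨h2.le, h1.le⟩)
    exact absurd hx0 (h x hx)
  · exact mul_pos h1 h2

/-- the triangle of pairs near the diagonal -/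
def Tri (s ρ : ℝ) : Set (ℝ × ℝ) := {p | |p.1 - s| < ρ ∧ |p.2 - s| < ρ ∧ p.1 < p.2}

theorem Tri_convex (s ρ : ℝ) : Convex ℝ (Tri s ρ) := by
  rintro ⟨x, y⟩ ⟨h1, h2, h3⟩ ⟨x', y'⟩ ⟨h1', h2', h3'⟩ a d ha hd had
  simp only at h1 h2 h3 h1' h2' h3'
  rw [abs_lt] at h1 h2 h1' h2'
  refine ⟨?_, ?_, ?_⟩ <;> simp only [Prod.smul_mk, Prod.mk_add_mk, smul_eq_mul]
  · rw [abs_lt]
    have hd' : d = 1 - a := by linarith
    subst hd'
    rcases lt_or_eq_of_le ha with h | h
    · constructor
      · nlinarith [mul_lt_mul_of_pos_left h1.1 h, mul_le_mul_of_nonneg_left h1'.1.le hd]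
      · nlinarith [mul_lt_mul_of_pos_left h1.2 h, mul_le_mul_of_nonneg_left h1'.2.le hd]
    · rw [← h]; constructor <;> linarith
  · rw [abs_lt]
    have hd' : d = 1 - a := by linarith
    subst hd'
    rcases lt_or_eq_of_le ha with h | h
    · constructor
      · nlinarith [mul_lt_mul_of_pos_left h2.1 h, mul_le_mul_of_nonneg_left h2'.1.le hd]
      · nlinarith [mul_lt_mul_of_pos_left h2.2 h, mul_le_mul_of_nonneg_left h2'.2.le hd]
    · rw [← h]; constructor <;> linarith
  · rcases lt_or_eq_of_le ha with h | h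
    · nlinarith [mul_le_mul_of_nonneg_left h3'.le hd, mul_lt_mul_of_pos_left h3 h]
    · have : d = 1 := by linarith
      rw [← h, this]; linarith

theorem Tri_pre (s ρ : ℝ) : IsPreconnected (Tri s ρ) := (Tri_convex s ρ).isPreconnected

theorem Tri_mono {s s' ρ ρ' : ℝ} (h : |s' - s| + ρ' ≤ ρ) : Tri s' ρ' ⊆ Tri s ρ := by
  rintro ⟨x, y⟩ ⟨h1, h2, h3⟩
  refine ⟨?_, ?_, h3⟩
  · have := abs_add_le (x - s') (s' - s)
    rw [sub_add_sub_cancel] at this
    simp only at h1 ⊢; linarith
  · have := abs_add_le (y - s') (s' - s)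
    rw [sub_add_sub_cancel] at this
    simp only at h2 ⊢; linarith

/-- the sides of the small squares that face a short chord do not meet the curve -/
theorem cone_seg (L : Loop c) (J : Inj c) {s : ℝ} (h : Cone c s) : ∃ ρ > 0, ∀ x y : ℝ,
    |x - s| < ρ → |y - s| < ρ → x < y → ∀ l ∈ Icc (0:ℝ) 1,
    c x + l * (c y - c x) + I * (c y - c x) ∉ range c ∧
    c x + l * (c y - c x) - I * (c y - c x) ∉ range c := by
  obtain ⟨ρ0, hρ0, w, hw⟩ := h
  obtain ⟨ρ1, hρ1, hnear⟩ := near_par L J hρ0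
  obtain ⟨ρ2, hρ2, hcont⟩ := Metric.continuous_iff.1 L.cont s (ρ1 / 8) (by positivity)
  simp only [dist_eq_norm] at hcont
  have gen : ∀ x z : ℝ, |x - s| < ρ0 → |z - s| < ρ0 →
      |(w * (c z - c x)).im| ≤ |(w * (c z - c x)).re| := by
    intro x z hx hz
    rcases lt_trichotomy x z with h | h | h
    · exact (hw x z hx hz h).le.trans (le_abs_self _)
    · rw [h]; simp
    · have := (hw z x hz hx h).le.trans (le_abs_self _)
      rw [show w * (c z - c x) = -(w * (c x - c z)) by ring, neg_im, neg_re, abs_neg, abs_neg]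
      exact this
  refine ⟨min ρ0 ρ2, lt_min hρ0 hρ2, fun x y hx hy hxy l hl => ?_⟩
  obtain ⟨hx0, hx2⟩ := lt_min_iff.1 hx
  obtain ⟨hy0, hy2⟩ := lt_min_iff.1 hy
  have nx := hcont x hx2
  have ny := hcont y hy2
  have nxy : ‖c y - c x‖ < ρ1 / 4 := by
    have := norm_add_le (c y - c s) (c s - c x)
    rw [sub_add_sub_cancel, norm_sub_rev (c s)] at this
    linarith
  have hl1 : ‖(l : ℂ) * (c y - c x)‖ ≤ ‖c y - c x‖ := by
    rw [norm_mul, norm_real, Real.norm_of_nonneg hl.1]
    exact mul_le_of_le_one_left (norm_nonneg _) hl.2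
  have hI : ‖I * (c y - c x)‖ = ‖c y - c x‖ := by rw [norm_mul, norm_I, one_mul]
  have hc1 := hw x y hx0 hy0 hxy
  -- a curve point near `c s` has a parameter near `s`
  have key : ∀ z, ‖c z - c s‖ < ρ1 → ∃ z', |z' - s| < ρ0 ∧ c z = c z' := by
    intro z hz
    obtain ⟨n, e, he, hs⟩ := hnear z s hz
    exact ⟨s + e, by rw [add_sub_cancel_left]; exact he, by rw [hs, L.per_int]⟩
  constructor
  · rintro ⟨z, hz⟩
    obtain ⟨z', hz', e⟩ := key z (by
      rw [hz, show c x + l * (c y - c x) + I * (c y - c x) - c s =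
        (c x - c s) + (l * (c y - c x) + I * (c y - c x)) by ring]
      refine (norm_add_le _ _).trans_lt ?_
      have := norm_add_le (l * (c y - c x)) (I * (c y - c x))
      linarith)
    have g1 := gen x z' hx0 hz'
    have g2 := gen y z' hy0 hz'
    have e1 : c z' - c x = (l + I) * (c y - c x) := by rw [← e, hz]; ring
    refine real_cone (X := (w * (c z' - c x)).re) (Y := (w * (c z' - c x)).im) hc1 hl.1 hl.2
      ?_ ?_ g1 ?_
    · rw [e1, show w * ((l + I) * (c y - c x)) = l * (w * (c y - c x)) + I * (w * (c y - c x)) by ring]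
      simp; ring
    · rw [e1, show w * ((l + I) * (c y - c x)) = l * (w * (c y - c x)) + I * (w * (c y - c x)) by ring]
      simp
    · rw [show w * (c z' - c y) = w * (c z' - c x) - w * (c y - c x) by ring, sub_re, sub_im] at g2
      exact g2
  · rintro ⟨z, hz⟩
    obtain ⟨z', hz', e⟩ := key z (by
      rw [hz, show c x + l * (c y - c x) - I * (c y - c x) - c s =
        (c x - c s) + (l * (c y - c x) - I * (c y - c x)) by ring]
      refine (norm_add_le _ _).trans_lt ?_
      have := norm_sub_le (l * (c y - c x)) (I * (c y - c x))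
      linarith)
    have g1 := gen x z' hx0 hz'
    have g2 := gen y z' hy0 hz'
    have e1 : c z' - c x = (l - I) * (c y - c x) := by rw [← e, hz]; ring
    refine real_cone (b := -(w * (c y - c x)).im) (X := (w * (c z' - c x)).re)
      (Y := -(w * (c z' - c x)).im) (by rw [abs_neg]; exact hc1) hl.1 hl.2
      ?_ ?_ (by rw [abs_neg]; exact g1) ?_
    · rw [e1, show w * ((l - I) * (c y - c x)) = l * (w * (c y - c x)) - I * (w * (c y - c x)) by ring]
      simp
    · rw [e1, show w * ((l - I) * (c y - c x)) = l * (w * (c y - c x)) - I * (w * (c y - c x)) by ring]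
      simp; ring
    · rw [show w * (c z' - c y) = w * (c z' - c x) - w * (c y - c x) by ring, sub_re, sub_im] at g2
      rw [show -(w * (c z' - c x)).im - -(w * (c y - c x)).im =
        -((w * (c z' - c x)).im - (w * (c y - c x)).im) by ring, abs_neg]
      exact g2

/-- the vertices of small squares on one side of a short chord lie on the same side -/
theorem cone_sign (L : Loop c) (J : Inj c) {s : ℝ} (h : Cone c s) : ∃ ρ > 0, ∀ x y : ℝ,
    |x - s| < ρ → |y - s| < ρ → x < y →
    0 < mgc c (DD c x y) * mgc c (CC c x y) ∧ 0 < mgc c (DD c y x) * mgc c (CC c y x) := by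
  obtain ⟨ρ, hρ, hseg⟩ := cone_seg L J h
  refine ⟨ρ, hρ, fun x y hx hy hxy => ?_⟩
  have hM := (mgc_sg L).cont
  have nz : ∀ z, z ∉ range c → mgc c z ≠ 0 := fun z h hz => h ((mgc_sg L).zero L |>.1 hz)
  constructor
  · have := sign_pre (V := Icc (0:ℝ) 1) isPreconnected_Icc
      (f := fun l : ℝ => mgc c (c x + l * (c y - c x) + I * (c y - c x))) (by fun_prop)
      (fun l hl => nz _ (hseg x y hx hy hxy l hl).1) (z := 0) (w := 1) (by simp) (by simp)
    rw [DD_eq, CC_eq]
    simpa using this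
  · have := sign_pre (V := Icc (0:ℝ) 1) isPreconnected_Icc
      (f := fun l : ℝ => mgc c (c x + l * (c y - c x) - I * (c y - c x))) (by fun_prop)
      (fun l hl => nz _ (hseg x y hx hy hxy l hl).2) (z := 0) (w := 1) (by simp) (by simp)
    rw [DD_eq, CC_eq, mul_comm]
    have e1 : c x + I * (c x - c y) = c x + ((0:ℝ):ℂ) * (c y - c x) - I * (c y - c x) := by
      push_cast; ring
    have e2 : c y + I * (c x - c y) = c x + ((1:ℝ):ℂ) * (c y - c x) - I * (c y - c x) := by
      push_cast; ring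
    rw [e1, e2]
    exact this

theorem wc_shift (L : Loop c) {z : ℂ} {n : ℤ} (h : IsWc c z n) (s : ℝ) :
    IsWc (fun t => c (t + s)) z n := by
  obtain ⟨k, hk, ek, e⟩ := h
  refine ⟨fun t => k (t + s), by fun_prop, fun t => ek _, ?_⟩
  have := wc_step L hk ek e s
  simp only [zero_add]
  rw [add_comm 1 s]
  exact this

end Pool.Agent.Y535.PEG
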