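import Pool.Agent.Y535.PEG.Mk

/-! Half turns along the arcs of a subdivided curve. -/

set_option autoImplicit false
open Complex Set Topology Metric

namespace Pool.Agent.Y535.PEG

open Pool.Agent.H763R2 Pool.Agent.H763R2.An Pool.Agent.W675.Peg Pool.Agent.TH569.Peg
open Pool.Agent.H763R2.Dm (NoSq floor_const)

variable {c : ℝ → ℂ}

/-- a subdivision of the curve by cone points -/
structure Sub (c : ℝ → ℂ) (n : ℕ) (t : ℕ → ℝ) : Prop where
  lt : ∀ i < n, t i < t (i + 1)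
  one : t n = t 0 + 1
  cone : ∀ i ≤ n, Cone c (t i)

theorem Sub.le {n : ℕ} {t : ℕ → ℝ} (H : Sub c n t) {i j : ℕ} (hij : i ≤ j) (hj : j ≤ n) :
    t i ≤ t j := by
  induction j, hij using Nat.le_induction with
  | base => exact le_rfl
  | succ j hij ih => exact (ih (by omega)).trans (H.lt j (by omega)).le

theorem Sub.len {n : ℕ} {t : ℕ → ℝ} (H : Sub c n t) {i j : ℕ} (hi : i < n) (hj : j < n)
    (hij : i ≠ j) : t (i + 1) < t i + 1 := by
  have h0 := H.le (Nat.zero_le i) hi.le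
  have h1 := H.le (show i + 1 ≤ n from hi) le_rfl
  have h2 := H.one
  rcases lt_or_gt_of_ne hij with h | h
  · have := H.le (show i + 1 ≤ j from h) hj.le
    have := H.lt j hj
    have := H.le (show j + 1 ≤ n from hj) le_rfl
    linarith
  · have := H.le (Nat.zero_le j) hj.le
    have := H.lt j hj
    have := H.le (show j + 1 ≤ i from h) hi.le
    linarith

theorem Sub.len2 {n : ℕ} {t : ℕ → ℝ} (H : Sub c n t) (hn : 2 ≤ n) {i : ℕ} (hi : i < n) :
    t (i + 1) < t i + 1 := by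
  rcases Nat.eq_zero_or_pos i with h | h
  · exact H.len hi (j := 1) (by omega) (by omega)
  · exact H.len hi (j := 0) (by omega) (by omega)

/-- the data obtained from a curve without inscribed squares -/
structure Dat (c : ℝ → ℂ) (n : ℕ) (t : ℕ → ℝ) (θ : ℝ → ℝ → ℝ) (g : ℤ) (kL kR : ℕ → ℤ) : Prop where
  L : Loop c
  J : Inj c
  nosq : NoSq (range c)
  S : Sub c n t
  A : Ang c (mgc c) θ g
  odd : Odd g
  hL : ∀ i ≤ n, KL θ (t i) (kL i)
  hR : ∀ i ≤ n, KR θ (t i) (kR i)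

theorem exDat (L : Loop c) (J : Inj c) (nosq : NoSq (range c)) {n : ℕ} {t : ℕ → ℝ}
    (S : Sub c n t) : ∃ θ g kL kR, Dat c n t θ g kL kR := by
  obtain ⟨θ, g, A, ho⟩ := exists_odd L J nosq
  have ex1 : ∀ i, ∃ k, i ≤ n → KL θ (t i) k := fun i => by
    by_cases hi : i ≤ n
    · obtain ⟨k, hk⟩ := exKL L J A (S.cone i hi)
      exact ⟨k, fun _ => hk⟩
    · exact ⟨0, fun h => absurd h hi⟩
  have ex2 : ∀ i, ∃ k, i ≤ n → KR θ (t i) k := fun i => by
    by_cases hi : i ≤ n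
    · obtain ⟨k, hk⟩ := exKR L J A (S.cone i hi)
      exact ⟨k, fun _ => hk⟩
    · exact ⟨0, fun h => absurd h hi⟩
  choose kL hL using ex1
  choose kR hR using ex2
  exact ⟨θ, g, kL, kR, L, J, nosq, S, A, ho, hL, hR⟩

variable {n : ℕ} {t : ℕ → ℝ} {θ : ℝ → ℝ → ℝ} {g : ℤ} {kL kR : ℕ → ℤ}

theorem Dat.sumL (D : Dat c n t θ g kL kR) : ∑ i ∈ Finset.range n, (kL (i + 1) - kL i) = 2 * g := by
  rw [Finset.sum_range_sub]
  have h1 := D.hL n le_rfl
  have h2 := (D.hL 0 (Nat.zero_le _)).per D.A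
  rw [D.S.one] at h1
  have := h1.uniq h2
  linarith

theorem Dat.sumR (D : Dat c n t θ g kL kR) : ∑ i ∈ Finset.range n, (kR (i + 1) - kR i) = 2 * g := by
  rw [Finset.sum_range_sub]
  have h1 := D.hR n le_rfl
  have h2 := (D.hR 0 (Nat.zero_le _)).per D.A
  rw [D.S.one] at h1
  have := h1.uniq h2
  linarith

theorem Dat.even (D : Dat c n t θ g kL kR) {i : ℕ} (hi : i < n) : Even (kL (i + 1) - kL i) := by
  obtain ⟨z0, h0⟩ := exists_pos D.L D.J D.nosq
  exact KL.parity D.L D.J h0 D.A (D.S.cone i hi.le) (D.S.cone (i + 1) hi) (D.hL i hi.le)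
    (D.hL (i + 1) hi)

theorem Dat.tame (D : Dat c n t θ g kL kR) {i : ℕ} (hi : i < n)
    (h : ∀ s ∈ Icc (t i) (t (i + 1)), Cone c s) : kL (i + 1) - kL i = 0 := by
  have := KL.tame D.L D.J D.A h (D.S.lt i hi).le (D.hL i hi.le) (D.hL (i + 1) hi)
  omega

theorem Dat.tameR (D : Dat c n t θ g kL kR) {i : ℕ} (hi : i < n)
    (h : ∀ s ∈ Icc (t i) (t (i + 1)), Cone c s) : kR (i + 1) - kR i = 0 := by
  have := KR.tame D.L D.J D.A h (D.S.lt i hi).le (D.hR i hi.le) (D.hR (i + 1) hi)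
  omega

/-- transport between two similar arcs -/
theorem Dat.tr (D : Dat c n t θ g kL kR) (hn : 2 ≤ n) {i j : ℕ} (hi : i < n) (hj : j < n)
    {T : ℂ → ℂ} {u : ℂ} {e : ℤ} (hT : Smy T u e)
    (him : T '' (c '' Icc (t i) (t (i + 1))) = c '' Icc (t j) (t (j + 1))) :
    ∃ d : ℤ, ((d = 1 ∧ T (c (t i)) = c (t j)) ∨ (d = -1 ∧ T (c (t i)) = c (t (j + 1)))) ∧
      ((d * e = 1 ∧ kL (j + 1) - kL j = kL (i + 1) - kL i) ∨
       (d * e = -1 ∧ kR (j + 1) - kR j = -(kL (i + 1) - kL i))) := by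
  obtain ⟨z0, h0⟩ := exists_pos D.L D.J D.nosq
  have li := D.S.len2 hn hi
  have lj := D.S.len2 hn hj
  obtain ⟨φ, d, P, hφ⟩ := mk_mp D.L D.J hT (D.S.lt i hi) li (D.S.lt j hj) lj him
  have ma : t i ∈ Icc (t i) (t (i + 1)) := ⟨le_rfl, (D.S.lt i hi).le⟩
  have ea := P.eq _ ma
  have hde : d * e = 1 ∨ d * e = -1 := by
    rcases P.mono with ⟨h1, -⟩ | ⟨h1, -⟩ <;> rcases hT.h with ⟨h2, -⟩ | ⟨h2, -⟩ <;>
      rw [h1, h2] <;> simp
  refine ⟨d, ?_, ?_⟩
  · rcases hφ with ⟨hd, f1, f2⟩ | ⟨hd, f1, f2⟩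
    · exact Or.inl ⟨hd, by rw [← ea, f1]⟩
    · exact Or.inr ⟨hd, by rw [← ea, f1]⟩
  · rcases hde with hde | hde
    · refine Or.inl ⟨hde, ?_⟩
      rcases hφ with ⟨hd, f1, f2⟩ | ⟨hd, f1, f2⟩
      · have := arc_keep D.L D.J h0 D.A hT P (D.S.cone i hi.le) (D.S.cone (i + 1) hi)
          (D.hL i hi.le) (D.hL (i + 1) hi) (l0 := kL j) (l1 := kL (j + 1))
          (by rw [f1]; exact D.hL j hj.le) (by rw [f2]; exact D.hL (j + 1) hj) hde
        rw [hd] at this; linarith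
      · have := arc_keep D.L D.J h0 D.A hT P (D.S.cone i hi.le) (D.S.cone (i + 1) hi)
          (D.hL i hi.le) (D.hL (i + 1) hi) (l0 := kL (j + 1)) (l1 := kL j)
          (by rw [f1]; exact D.hL (j + 1) hj) (by rw [f2]; exact D.hL j hj.le) hde
        rw [hd] at this; linarith
    · refine Or.inr ⟨hde, ?_⟩
      rcases hφ with ⟨hd, f1, f2⟩ | ⟨hd, f1, f2⟩
      · have := arc_swap D.L D.J h0 D.A hT P (D.S.cone i hi.le) (D.S.cone (i + 1) hi)
          (D.hL i hi.le) (D.hL (i + 1) hi) (l0 := kR j) (l1 := kR (j + 1))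
          (by rw [f1]; exact D.hR j hj.le) (by rw [f2]; exact D.hR (j + 1) hj) hde
        rw [hd] at this; linarith
      · have := arc_swap D.L D.J h0 D.A hT P (D.S.cone i hi.le) (D.S.cone (i + 1) hi)
          (D.hL i hi.le) (D.hL (i + 1) hi) (l0 := kR (j + 1)) (l1 := kR j)
          (by rw [f1]; exact D.hR (j + 1) hj) (by rw [f2]; exact D.hR j hj.le) hde
        rw [hd] at this; linarith

theorem Dat.ends (D : Dat c n t θ g kL kR) (hn : 2 ≤ n) {j : ℕ} (hj : j < n) :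
    c (t j) ≠ c (t (j + 1)) :=
  D.J _ _ (D.S.lt j hj) (D.S.len2 hn hj)

theorem Dat.keep (D : Dat c n t θ g kL kR) (hn : 2 ≤ n) {i j : ℕ} (hi : i < n) (hj : j < n)
    (h : ∃ u v : ℂ, u ≠ 0 ∧
      (((fun z => u * z + v) '' (c '' Icc (t i) (t (i + 1))) = c '' Icc (t j) (t (j + 1)) ∧
        u * c (t i) + v = c (t j)) ∨
      ((fun z => u * (starRingEnd ℂ) z + v) '' (c '' Icc (t i) (t (i + 1))) =
        c '' Icc (t j) (t (j + 1)) ∧ u * (starRingEnd ℂ) (c (t i)) + v = c (t (j + 1))))) :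
    kL (j + 1) - kL j = kL (i + 1) - kL i := by
  have hne := D.ends hn hj
  obtain ⟨u, v, hu, ⟨h1, h2⟩ | ⟨h1, h2⟩⟩ := h
  · obtain ⟨d, hd, h'⟩ := D.tr hn hi hj (T := fun z => u * z + v) (u := u) (e := 1)
      ⟨hu, Or.inl ⟨rfl, v, fun _ => rfl⟩⟩ h1
    rcases hd with ⟨hd, -⟩ | ⟨-, hd⟩
    · rcases h' with ⟨-, h'⟩ | ⟨h', -⟩
      · exact h'
      · rw [hd] at h'; exact absurd h' (by decide)
    · exact absurd (h2.symm.trans hd) hne
  · obtain ⟨d, hd, h'⟩ := D.tr hn hi hj (T := fun z => u * (starRingEnd ℂ) z + v) (u := u) (e := -1)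
      ⟨hu, Or.inr ⟨rfl, v, fun _ => rfl⟩⟩ h1
    rcases hd with ⟨-, hd⟩ | ⟨hd, -⟩
    · exact absurd (hd.symm.trans h2) hne
    · rcases h' with ⟨-, h'⟩ | ⟨h', -⟩
      · exact h'
      · rw [hd] at h'; exact absurd h' (by decide)

theorem Dat.swap (D : Dat c n t θ g kL kR) (hn : 2 ≤ n) {i j : ℕ} (hi : i < n) (hj : j < n)
    (h : ∃ u v : ℂ, u ≠ 0 ∧
      (((fun z => u * z + v) '' (c '' Icc (t i) (t (i + 1))) = c '' Icc (t j) (t (j + 1)) ∧
        u * c (t i) + v = c (t (j + 1))) ∨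
      ((fun z => u * (starRingEnd ℂ) z + v) '' (c '' Icc (t i) (t (i + 1))) =
        c '' Icc (t j) (t (j + 1)) ∧ u * (starRingEnd ℂ) (c (t i)) + v = c (t j)))) :
    kR (j + 1) - kR j = -(kL (i + 1) - kL i) := by
  have hne := D.ends hn hj
  obtain ⟨u, v, hu, ⟨h1, h2⟩ | ⟨h1, h2⟩⟩ := h
  · obtain ⟨d, hd, h'⟩ := D.tr hn hi hj (T := fun z => u * z + v) (u := u) (e := 1)
      ⟨hu, Or.inl ⟨rfl, v, fun _ => rfl⟩⟩ h1
    rcases hd with ⟨-, hd⟩ | ⟨hd, -⟩
    · exact absurd (hd.symm.trans h2) hne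
    · rcases h' with ⟨h', -⟩ | ⟨-, h'⟩
      · rw [hd] at h'; exact absurd h' (by decide)
      · exact h'
  · obtain ⟨d, hd, h'⟩ := D.tr hn hi hj (T := fun z => u * (starRingEnd ℂ) z + v) (u := u) (e := -1)
      ⟨hu, Or.inr ⟨rfl, v, fun _ => rfl⟩⟩ h1
    rcases hd with ⟨hd, -⟩ | ⟨-, hd⟩
    · rcases h' with ⟨h', -⟩ | ⟨-, h'⟩
      · rw [hd] at h'; exact absurd h' (by decide)
      · exact h'
    · exact absurd (h2.symm.trans hd) hne

/-- pairs of arcs with equal contributions -/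
theorem Dat.pairs (D : Dat c n t θ g kL kR) {W : Finset ℕ} (hW : ∀ i ∈ W, i < n)
    (ht : ∀ i < n, i ∉ W → ∀ s ∈ Icc (t i) (t (i + 1)), Cone c s) {σ : ℕ → ℕ}
    (h1 : ∀ i ∈ W, σ i ∈ W) (h2 : ∀ i ∈ W, σ i ≠ i) (h3 : ∀ i ∈ W, σ (σ i) = i)
    (h : ∀ i ∈ W, ∃ k : ℤ, kL (σ i + 1) - kL (σ i) = kL (i + 1) - kL i + 4 * k) : False := by
  classical
  have hs := D.sumL
  have hev : ∀ i, ∃ m : ℤ, i < n → kL (i + 1) - kL i = 2 * m := fun i => by
    by_cases hi : i < n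
    · obtain ⟨m, hm⟩ := D.even hi
      exact ⟨m, fun _ => by rw [hm]; ring⟩
    · exact ⟨0, fun h => absurd h hi⟩
  choose f hf using hev
  have hsub : W ⊆ Finset.range n := fun i hi => Finset.mem_range.2 (hW i hi)
  have h4 : ∑ i ∈ Finset.range n, (kL (i + 1) - kL i) = ∑ i ∈ W, 2 * f i := by
    rw [← Finset.sum_subset hsub (f := fun i => kL (i + 1) - kL i) (fun i hi hi' =>
      D.tame (Finset.mem_range.1 hi) (ht i (Finset.mem_range.1 hi) hi'))]
    exact Finset.sum_congr rfl fun i hi => hf i (hW i hi)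
  rw [h4, ← Finset.mul_sum] at hs
  have h5 : g = ∑ i ∈ W, f i := by linarith
  have h6 : ∑ i ∈ W, ((f i : ℤ) : ZMod 2) = 0 := by
    refine Finset.sum_involution (fun i _ => σ i) (fun i hi => ?_) (fun i hi _ => h2 i hi)
      (fun i hi => h1 i hi) (fun i hi => h3 i hi)
    obtain ⟨k, hk⟩ := h i hi
    rw [hf i (hW i hi), hf (σ i) (hW _ (h1 i hi))] at hk
    have : f (σ i) = f i + 2 * k := by linarith
    rw [this]
    push_cast
    have h7 : (2 : ZMod 2) = 0 := by decide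
    rw [h7, zero_mul, add_zero]
    exact Dm.two_zero _
  have h7 : ((g : ℤ) : ZMod 2) = 0 := by
    rw [h5]; push_cast; exact h6
  rw [ZMod.intCast_zmod_eq_zero_iff_dvd] at h7
  have := D.odd
  obtain ⟨m, hm⟩ := this
  push_cast at h7
  omega

/-- arcs permuted by similarities that exchange the sides -/
theorem Dat.swaps (D : Dat c n t θ g kL kR) {W : Finset ℕ} (hW : ∀ i ∈ W, i < n)
    (ht : ∀ i < n, i ∉ W → ∀ s ∈ Icc (t i) (t (i + 1)), Cone c s) {σ : ℕ → ℕ}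
    (h1 : ∀ i ∈ W, σ i ∈ W) (h2 : InjOn σ W)
    (h : ∀ i ∈ W, kR (σ i + 1) - kR (σ i) = -(kL (i + 1) - kL i)) : False := by
  classical
  have hs := D.sumL
  have hs' := D.sumR
  have hsub : W ⊆ Finset.range n := fun i hi => Finset.mem_range.2 (hW i hi)
  rw [← Finset.sum_subset hsub (f := fun i => kL (i + 1) - kL i) (fun i hi hi' =>
      D.tame (Finset.mem_range.1 hi) (ht i (Finset.mem_range.1 hi) hi'))] at hs
  rw [← Finset.sum_subset hsub (f := fun i => kR (i + 1) - kR i) (fun i hi hi' =>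
      D.tameR (Finset.mem_range.1 hi) (ht i (Finset.mem_range.1 hi) hi'))] at hs'
  have himg : W.image σ = W := by
    apply Finset.eq_of_subset_of_card_le
    · intro x hx
      obtain ⟨i, hi, rfl⟩ := Finset.mem_image.1 hx
      exact h1 i hi
    · rw [Finset.card_image_of_injOn h2]
  have h3 : ∑ i ∈ W, (kR (i + 1) - kR i) = ∑ i ∈ W, (kR (σ i + 1) - kR (σ i)) := by
    conv_lhs => rw [← himg]
    rw [Finset.sum_image h2]
  rw [h3, Finset.sum_congr rfl h, Finset.sum_neg_distrib, hs] at hs'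
  have h4 : g = 0 := by linarith
  have := D.odd
  rw [h4] at this
  exact absurd this (by decide)

end Pool.Agent.Y535.PEG
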