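import Pool.Agent.Y535.PEG.Poly
import Pool.Agent.Y535.PEG.Core

/-! Approximating generic polygons near cone points. -/

set_option autoImplicit false
open Complex Set Topology Metric

namespace Pool.Agent.Y535.PEG

open Pool.Agent.H763R2 Pool.Agent.H763R2.An Pool.Agent.W675.Peg Pool.Agent.TH569.Peg
open Pool.Agent.H763R2.Dm (NoSq floor_const)

variable {c q : ℝ → ℂ}

theorem wc_rev (L : Loop c) {z : ℂ} {n : ℤ} (h : IsWc c z n) : IsWc (fun t => c (-t)) z (-n) := by
  obtain ⟨k, hk, ek, e⟩ := h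
  refine ⟨fun t => k (-t), by fun_prop, fun t => ek _, ?_⟩
  have := wc_step L hk ek e (-1)
  rw [show (-1 : ℝ) + 1 = 0 by ring] at this
  simp only [neg_zero]
  push_cast
  linear_combination -this

theorem mgc_rev (L : Loop c) (z : ℂ) : mgc (fun t => c (-t)) z = mgc c z := by
  have key : Odc (fun t => c (-t)) z ↔ Odc c z := by
    constructor
    · rintro ⟨n, hn, ho⟩
      have := wc_rev L.rev hn
      simp only [neg_neg] at this
      exact ⟨-n, this, ho.neg⟩
    · rintro ⟨n, hn, ho⟩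
      exact ⟨-n, wc_rev L hn, ho.neg⟩
  unfold mgc
  rw [range_rev]
  by_cases h : Odc c z
  · rw [if_pos h, if_pos (key.2 h)]
  · rw [if_neg h, if_neg (fun h' => h (key.1 h'))]

/-- the vertices of small squares on one side of a short chord lie on the same side -/
theorem zone_sign (L : Loop q) {s ρ0 ρ1 ρ2 : ℝ} {w : ℂ} (hw : CI q s w ρ0)
    (hnear : ∀ z, ‖q z - q s‖ < ρ1 → ∃ (n : ℤ) (e : ℝ), |e| < ρ0 ∧ z = s + e + n)
    (hcont : ∀ x, |x - s| < ρ2 → ‖q x - q s‖ < ρ1 / 8) (h20 : ρ2 ≤ ρ0) (x y : ℝ)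
    (hx : |x - s| < ρ2) (hy : |y - s| < ρ2) (hxy : x < y) :
    0 < mgc q (DD q x y) * mgc q (CC q x y) ∧ 0 < mgc q (DD q y x) * mgc q (CC q y x) := by
  have gen : ∀ x z : ℝ, |x - s| < ρ0 → |z - s| < ρ0 →
      |(w * (q z - q x)).im| ≤ |(w * (q z - q x)).re| := by
    intro x z hx hz
    rcases lt_trichotomy x z with h | h | h
    · exact (hw x z hx hz h).le.trans (le_abs_self _)
    · rw [h]; simp
    · have := (hw z x hz hx h).le.trans (le_abs_self _)
      rw [show w * (q z - q x) = -(w * (q x - q z)) by ring, neg_im, neg_re, abs_neg, abs_neg]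
      exact this
  have hx0 := hx.trans_le h20
  have hy0 := hy.trans_le h20
  have nx := hcont x hx
  have ny := hcont y hy
  have hρ1 : 0 < ρ1 := by
    have := norm_nonneg (q x - q s)
    linarith
  have nxy : ‖q y - q x‖ < ρ1 / 4 := by
    have := norm_add_le (q y - q s) (q s - q x)
    rw [sub_add_sub_cancel, norm_sub_rev (q s)] at this
    linarith
  have hI : ‖I * (q y - q x)‖ = ‖q y - q x‖ := by rw [norm_mul, norm_I, one_mul]
  have hc1 := hw x y hx0 hy0 hxy
  have key : ∀ z, ‖q z - q s‖ < ρ1 → ∃ z', |z' - s| < ρ0 ∧ q z = q z' := by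
    intro z hz
    obtain ⟨n, e, he, hs⟩ := hnear z hz
    exact ⟨s + e, by rw [add_sub_cancel_left]; exact he, by rw [hs, L.per_int]⟩
  have hseg : ∀ l ∈ Icc (0:ℝ) 1, q x + l * (q y - q x) + I * (q y - q x) ∉ range q ∧
      q x + l * (q y - q x) - I * (q y - q x) ∉ range q := by
    intro l hl
    have hl1 : ‖(l : ℂ) * (q y - q x)‖ ≤ ‖q y - q x‖ := by
      rw [norm_mul, norm_real, Real.norm_of_nonneg hl.1]
      exact mul_le_of_le_one_left (norm_nonneg _) hl.2
    constructor
    · rintro ⟨z, hz⟩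
      obtain ⟨z', hz', e⟩ := key z (by
        rw [hz, show q x + l * (q y - q x) + I * (q y - q x) - q s =
          (q x - q s) + (l * (q y - q x) + I * (q y - q x)) by ring]
        refine (norm_add_le _ _).trans_lt ?_
        have := norm_add_le (l * (q y - q x)) (I * (q y - q x))
        linarith)
      have g1 := gen x z' hx0 hz'
      have g2 := gen y z' hy0 hz'
      have e1 : q z' - q x = (l + I) * (q y - q x) := by rw [← e, hz]; ring
      refine real_cone (X := (w * (q z' - q x)).re) (Y := (w * (q z' - q x)).im) hc1 hl.1 hl.2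
        ?_ ?_ g1 ?_
      · rw [e1, show w * ((l + I) * (q y - q x)) = l * (w * (q y - q x)) + I * (w * (q y - q x)) by ring]
        simp; ring
      · rw [e1, show w * ((l + I) * (q y - q x)) = l * (w * (q y - q x)) + I * (w * (q y - q x)) by ring]
        simp
      · rw [show w * (q z' - q y) = w * (q z' - q x) - w * (q y - q x) by ring, sub_re, sub_im] at g2
        exact g2
    · rintro ⟨z, hz⟩
      obtain ⟨z', hz', e⟩ := key z (by
        rw [hz, show q x + l * (q y - q x) - I * (q y - q x) - q s =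
          (q x - q s) + (l * (q y - q x) - I * (q y - q x)) by ring]
        refine (norm_add_le _ _).trans_lt ?_
        have := norm_sub_le (l * (q y - q x)) (I * (q y - q x))
        linarith)
      have g1 := gen x z' hx0 hz'
      have g2 := gen y z' hy0 hz'
      have e1 : q z' - q x = (l - I) * (q y - q x) := by rw [← e, hz]; ring
      refine real_cone (b := -(w * (q y - q x)).im) (X := (w * (q z' - q x)).re)
        (Y := -(w * (q z' - q x)).im) (by rw [abs_neg]; exact hc1) hl.1 hl.2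
        ?_ ?_ (by rw [abs_neg]; exact g1) ?_
      · rw [e1, show w * ((l - I) * (q y - q x)) = l * (w * (q y - q x)) - I * (w * (q y - q x)) by ring]
        simp
      · rw [e1, show w * ((l - I) * (q y - q x)) = l * (w * (q y - q x)) - I * (w * (q y - q x)) by ring]
        simp; ring
      · rw [show w * (q z' - q y) = w * (q z' - q x) - w * (q y - q x) by ring, sub_re, sub_im] at g2
        rw [show -(w * (q z' - q x)).im - -(w * (q y - q x)).im =
          -((w * (q z' - q x)).im - (w * (q y - q x)).im) by ring, abs_neg]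
        exact g2
  have hM := (mgc_sg L).cont
  have nz : ∀ z, z ∉ range q → mgc q z ≠ 0 := fun z h hz => h ((mgc_sg L).zero L |>.1 hz)
  constructor
  · have := sign_pre (V := Icc (0:ℝ) 1) isPreconnected_Icc
      (f := fun l : ℝ => mgc q (q x + l * (q y - q x) + I * (q y - q x))) (by fun_prop)
      (fun l hl => nz _ (hseg l hl).1) (z := 0) (w := 1) (by simp) (by simp)
    rw [DD_eq, CC_eq]
    simpa using this
  · have := sign_pre (V := Icc (0:ℝ) 1) isPreconnected_Icc
      (f := fun l : ℝ => mgc q (q x + l * (q y - q x) - I * (q y - q x))) (by fun_prop)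
      (fun l hl => nz _ (hseg l hl).2) (z := 0) (w := 1) (by simp) (by simp)
    rw [DD_eq, CC_eq, mul_comm]
    have e1 : q x + I * (q x - q y) = q x + ((0:ℝ):ℂ) * (q y - q x) - I * (q y - q x) := by
      push_cast; ring
    have e2 : q y + I * (q x - q y) = q x + ((1:ℝ):ℂ) * (q y - q x) - I * (q y - q x) := by
      push_cast; ring
    rw [e1, e2]
    exact this

/-- signs over the short chords near a point -/
def Zn (q : ℝ → ℂ) (s σ : ℝ) : Prop := ∀ x y : ℝ, |x - s| < σ → |y - s| < σ → x < y →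
  0 < mgc q (DD q x y) * mgc q (CC q x y) ∧ 0 < mgc q (DD q y x) * mgc q (CC q y x)

theorem exApp (L : Loop c) (J : Inj c) {a b : ℝ} (ha : Cone c a) (hb : Cone c b) : ∃ σ > 0,
    (∀ σ' > 0, σ' ≤ σ → Zn c a σ' ∧ Zn c b σ') ∧ ∀ ε > 0, ∃ q, Gen q ∧ PLc q ∧
      (∀ t, ‖q t - c t‖ ≤ ε) ∧ Zn q a σ ∧ Zn q b σ := by
  obtain ⟨ρa, hρa, wa, Ha⟩ := ha
  obtain ⟨ρb, hρb, wb, Hb⟩ := hb
  obtain ⟨sa, hsa, Sa⟩ := cone_sign L J ⟨ρa, hρa, wa, Ha⟩
  obtain ⟨sb, hsb, Sb⟩ := cone_sign L J ⟨ρb, hρb, wb, Hb⟩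
  obtain ⟨ρ, hρ, r1, r2⟩ : ∃ ρ > 0, ρ ≤ ρa ∧ ρ ≤ ρb :=
    ⟨min ρa ρb, by positivity, min_le_left _ _, min_le_right _ _⟩
  have Ca : CI c a wa ρ := fun x y hx hy hxy => Ha x y (hx.trans_le r1) (hy.trans_le r1) hxy
  have Cb : CI c b wb ρ := fun x y hx hy hxy => Hb x y (hx.trans_le r2) (hy.trans_le r2) hxy
  obtain ⟨ρ1, hρ1, hnear⟩ := near_par L J (δ := ρ / 2) (by positivity)
  obtain ⟨τa, hτa, ka⟩ := Metric.continuous_iff.1 L.cont a (ρ1 / 32) (by positivity)
  obtain ⟨τb, hτb, kb⟩ := Metric.continuous_iff.1 L.cont b (ρ1 / 32) (by positivity)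
  simp only [dist_eq_norm] at ka kb
  obtain ⟨σ, hσ, s1, s2, s3, s4, s5⟩ : ∃ σ > 0, σ ≤ τa ∧ σ ≤ τb ∧ σ ≤ ρ / 2 ∧ σ ≤ sa ∧ σ ≤ sb :=
    ⟨min (min (min τa τb) (ρ / 2)) (min sa sb), by positivity,
      (min_le_left _ _).trans ((min_le_left _ _).trans (min_le_left _ _)),
      (min_le_left _ _).trans ((min_le_left _ _).trans (min_le_right _ _)),
      (min_le_left _ _).trans (min_le_right _ _),
      (min_le_right _ _).trans (min_le_left _ _), (min_le_right _ _).trans (min_le_right _ _)⟩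
  refine ⟨σ, hσ, fun σ' _ hσ' => ⟨fun x y hx hy hxy => Sa x y (by linarith) (by linarith) hxy,
    fun x y hx hy hxy => Sb x y (by linarith) (by linarith) hxy⟩, fun ε hε => ?_⟩
  obtain ⟨q, hG, hP, hq, qa, qb⟩ := approx_cone L hρ Ca Cb (ε := min ε (ρ1 / 64)) (by positivity)
  have hq1 : ∀ t, ‖q t - c t‖ ≤ ρ1 / 64 := fun t => (hq t).trans (min_le_right _ _)
  have hcl : ∀ x y, |‖q x - q y‖ - ‖c x - c y‖| ≤ ρ1 / 32 := by
    intro x y
    have h1 := abs_norm_sub_norm_le (q x - q y) (c x - c y)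
    have h2 := norm_sub_le (q x - c x) (q y - c y)
    rw [show q x - c x - (q y - c y) = q x - q y - (c x - c y) by ring] at h2
    have := hq1 x
    have := hq1 y
    linarith
  have hnq : ∀ s z, ‖q z - q s‖ < ρ1 / 2 → ∃ (n : ℤ) (e : ℝ), |e| < ρ / 2 ∧ z = s + e + n := by
    intro s z hz
    refine hnear z s ?_
    have := (abs_le.1 (hcl z s)).1
    linarith
  refine ⟨q, hG, hP, fun t => (hq t).trans (min_le_left _ _), ?_, ?_⟩
  · intro x y hx hy hxy
    refine zone_sign hG.L qa (hnq a) (ρ2 := σ) (fun x hx => ?_) s3 x y hx hy hxy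
    have h1 := ka x (hx.trans_le s1)
    have := (abs_le.1 (hcl x a)).2
    linarith
  · intro x y hx hy hxy
    refine zone_sign hG.L qb (hnq b) (ρ2 := σ) (fun x hx => ?_) s3 x y hx hy hxy
    have h1 := kb x (hx.trans_le s2)
    have := (abs_le.1 (hcl x b)).2
    linarith

end Pool.Agent.Y535.PEG
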