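import Pool.Agent.Y535.PEG.Sgn

/-! The sign of the signed distance near a double point. -/

set_option autoImplicit false
open Complex Set Topology Metric

namespace Pool.Agent.Y535.PEG

open Pool.Agent.H763R2 Pool.Agent.H763R2.An Pool.Agent.W675.Peg Pool.Agent.TH569.Peg
open Pool.Agent.H763R2.Dm (NoSq floor_const)

variable {q : ℝ → ℂ}

/-- a transversal double point -/
structure Dbl (q : ℝ → ℂ) (s0 s1 : ℝ) (e d : ℂ) (η : ℝ) : Prop where
  hη : 0 < η
  l0 : Lin q s0 e η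
  l1 : Lin q s1 d η
  eq : q s1 = q s0
  tv : cr d e ≠ 0
  fib : ∀ t, q t = q s0 → (∃ n : ℤ, t = s0 + n) ∨ ∃ n : ℤ, t = s1 + n

theorem cr_norm (u v : ℂ) : |cr u v| ≤ ‖u‖ * ‖v‖ := by
  have e : cr u v = ((starRingEnd ℂ) u * v).im := by
    unfold cr
    simp only [mul_im, conj_re, conj_im]; ring
  rw [e]
  refine (abs_im_le_norm _).trans ?_
  rw [norm_mul, RCLike.norm_conj]

theorem cr_I_self (u : ℂ) : cr u (I * u) = ‖u‖ ^ 2 := by
  unfold cr
  rw [I_mul_re, I_mul_im, ← Complex.normSq_eq_norm_sq, normSq_apply]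
  ring

theorem cr_lin (u v v' : ℂ) (a b : ℝ) : cr u (a * v + b * v') = a * cr u v + b * cr u v' := by
  rw [cr_add, cr_smul, cr_smul]

theorem Dbl.sign (L : Loop q) {s0 s1 η : ℝ} {e d : ℂ} (H : Dbl q s0 s1 e d η) {β : ℝ}
    (hβ : β = 1 ∨ β = -1) :
    ∃ R > 0, ∃ τ : ℝ, (τ = 1 ∨ τ = -1) ∧ ∀ z, ‖z - q s0‖ < R → 0 < cr e (z - q s0) →
      (0 < β * cr d (z - q s0) → 0 < τ * mgc q z) ∧
      (β * cr d (z - q s0) < 0 → τ * mgc q z < 0) := by
  have S := mgc_sg L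
  have hM := S.cont
  obtain ⟨p, hp⟩ : ∃ p, p = q s0 := ⟨_, rfl⟩
  rw [← hp]
  have hβ0 : β ≠ 0 := by rcases hβ with h | h <;> rw [h] <;> norm_num
  have hββ : β * β = 1 := by rcases hβ with h | h <;> rw [h] <;> norm_num
  have hβa : |β| = 1 := by rcases hβ with h | h <;> rw [h] <;> simp
  have hd0 : d ≠ 0 := by
    rintro rfl
    exact H.tv (by unfold cr; simp)
  have he0 : e ≠ 0 := by
    rintro rfl
    exact H.tv (by unfold cr; simp)
  have hdn : 0 < ‖d‖ := norm_pos_iff.2 hd0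
  have hen : 0 < ‖e‖ := norm_pos_iff.2 he0
  have hed : cr e d ≠ 0 := by
    rw [cr_comm, neg_ne_zero]; exact H.tv
  obtain ⟨δ, hδ, hnear⟩ := L.near_fib p H.hη
  have near : ∀ t, ‖q t - p‖ < δ → (∃ r : ℝ, |r| < η ∧ (∃ n : ℤ, t = s0 + n + r) ∧ q t = p + r * e) ∨
      (∃ r : ℝ, |r| < η ∧ (∃ n : ℤ, t = s1 + n + r) ∧ q t = p + r * d) := by
    intro t ht
    obtain ⟨t', ht', htt⟩ := hnear t ht
    rcases H.fib t' (by rw [← hp]; exact ht') with ⟨n, rfl⟩ | ⟨n, rfl⟩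
    · left
      refine ⟨t - (s0 + n), htt, ⟨n, by ring⟩, ?_⟩
      have h1 := L.per_int (s0 + (t - (s0 + n))) n
      rw [show s0 + (t - (s0 + n)) + n = t by ring] at h1
      rw [h1, H.l0 _ htt.le, hp]
    · right
      refine ⟨t - (s1 + n), htt, ⟨n, by ring⟩, ?_⟩
      have h1 := L.per_int (s1 + (t - (s1 + n))) n
      rw [show s1 + (t - (s1 + n)) + n = t by ring] at h1
      rw [h1, H.l1 _ htt.le, H.eq, hp]
  have off_of : ∀ z, ‖z - p‖ < δ → cr e (z - p) ≠ 0 → cr d (z - p) ≠ 0 → mgc q z ≠ 0 := by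
    intro z hz h1 h2 h
    obtain ⟨t, rfl⟩ := (S.zero L).1 h
    rcases near t hz with ⟨r, -, -, e1⟩ | ⟨r, -, -, e1⟩
    · rw [e1, add_sub_cancel_left, cr_smul, cr_self, mul_zero] at h1
      exact h1 rfl
    · rw [e1, add_sub_cancel_left, cr_smul, cr_self, mul_zero] at h2
      exact h2 rfl
  -- the sectors are convex
  have sec : ∀ σ : ℝ, ∀ z z' : ℂ, ‖z - p‖ < δ → ‖z' - p‖ < δ → 0 < cr e (z - p) →
      0 < cr e (z' - p) → 0 < σ * cr d (z - p) → 0 < σ * cr d (z' - p) → 0 < mgc q z * mgc q z' := by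
    intro σ z z' hz hz' h1 h1' h2 h2'
    have hco : ∀ l ∈ Icc (0:ℝ) 1, ((1 - l : ℝ) : ℂ) * z + (l : ℂ) * z' - p =
        ((1 - l : ℝ) : ℂ) * (z - p) + ((l : ℝ) : ℂ) * (z' - p) := fun l _ => by push_cast; ring
    have pos : ∀ l ∈ Icc (0:ℝ) 1, ∀ a b : ℝ, 0 < a → 0 < b → 0 < (1 - l) * a + l * b := by
      intro l hl a b ha hb
      rcases lt_or_eq_of_le hl.1 with h | h
      · have := mul_nonneg (sub_nonneg.2 hl.2) ha.le
        have := mul_pos h hb
        linarith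
      · rw [← h]; linarith
    have := sign_pre (V := Icc (0:ℝ) 1) isPreconnected_Icc
      (f := fun l : ℝ => mgc q (((1 - l : ℝ) : ℂ) * z + (l : ℂ) * z'))
      (by fun_prop) (fun l hl => off_of _ ?_ ?_ ?_) (z := 0) (w := 1) (by simp) (by simp)
    · simpa using this
    · rw [hco l hl]
      refine (norm_add_le _ _).trans_lt ?_
      rw [norm_mul, norm_mul (l : ℂ), norm_real, norm_real, Real.norm_of_nonneg hl.1,
        Real.norm_of_nonneg (by linarith [hl.2])]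
      have := pos l hl (δ - ‖z - p‖) (δ - ‖z' - p‖) (by linarith) (by linarith)
      linarith
    · rw [hco l hl, cr_lin]
      exact (pos l hl _ _ h1 h1').ne'
    · rw [hco l hl, cr_lin]
      have := pos l hl _ _ h2 h2'
      intro h
      have e3 : (1 - l) * (σ * cr d (z - p)) + l * (σ * cr d (z' - p)) =
          σ * ((1 - l) * cr d (z - p) + l * cr d (z' - p)) := by ring
      rw [e3, h, mul_zero] at this
      exact lt_irrefl _ this
  -- a point on the other branch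
  obtain ⟨σ1, hσ0, hσ2, hσ3, hσ4⟩ : ∃ σ1 : ℝ, σ1 ≠ 0 ∧ |σ1| < η ∧ |σ1| * ‖d‖ < δ / 2 ∧
      0 < σ1 * cr e d := by
    obtain ⟨m, hm, m1, m2⟩ : ∃ m > 0, m < η ∧ m * ‖d‖ < δ / 2 := by
      have := H.hη
      refine ⟨min (η / 2) (δ / (4 * ‖d‖)), by positivity, ?_, ?_⟩
      · have := min_le_left (η / 2) (δ / (4 * ‖d‖))
        linarith
      · have := min_le_right (η / 2) (δ / (4 * ‖d‖))
        rw [le_div_iff₀ (by positivity)] at this
        linarith
    rcases lt_or_gt_of_ne hed with h | h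
    · exact ⟨-m, neg_ne_zero.2 hm.ne', by rw [abs_neg, abs_of_pos hm]; exact m1,
        by rw [abs_neg, abs_of_pos hm]; exact m2, by nlinarith⟩
    · exact ⟨m, hm.ne', by rw [abs_of_pos hm]; exact m1, by rw [abs_of_pos hm]; exact m2,
        mul_pos hm h⟩
  have p1e : q (s1 + σ1) = p + σ1 * d := by rw [H.l1 σ1 hσ2.le, H.eq, hp]
  have fibre : ∀ t, q t = q (s1 + σ1) → ∃ n : ℤ, t = s1 + σ1 + n := by
    intro t ht
    rcases near t (by
      rw [ht, p1e, add_sub_cancel_left, norm_mul, norm_real, Real.norm_eq_abs]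
      linarith) with ⟨r, hr, -, e1⟩ | ⟨r, hr, ⟨n, hn⟩, e1⟩
    · exfalso
      rw [ht, p1e] at e1
      have e2 : ((σ1 : ℝ) : ℂ) * d = (r : ℂ) * e := add_left_cancel e1
      have e3 := congrArg (cr e) e2
      rw [cr_smul, cr_smul, cr_self, mul_zero] at e3
      rw [e3] at hσ4
      exact lt_irrefl _ hσ4
    · rw [ht, p1e] at e1
      have e2 : ((σ1 : ℝ) : ℂ) * d = (r : ℂ) * d := add_left_cancel e1
      have e3 := mul_right_cancel₀ hd0 e2
      have e4 : σ1 = r := by exact_mod_cast e3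
      exact ⟨n, by rw [hn, ← e4]; ring⟩
  obtain ⟨R', hR', hodd⟩ := odd_simple L S (t0 := s1 + σ1) (η := η - |σ1|) hd0
    (by linarith) (fun s hs => by
      rw [p1e, add_assoc, H.l1 (σ1 + s) ((abs_add_le _ _).trans (by linarith)), H.eq, hp]
      push_cast; ring) fibre
  obtain ⟨ε, hε, ε1, ε2, ε3⟩ : ∃ ε > 0, ε * ‖d‖ < R' ∧ ε * ‖d‖ < δ / 2 ∧
      ε * (‖e‖ * ‖d‖) < σ1 * cr e d := by
    refine ⟨min (min (R' / (2 * ‖d‖)) (δ / (4 * ‖d‖))) (σ1 * cr e d / (2 * (‖e‖ * ‖d‖))),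
      by positivity, ?_, ?_, ?_⟩
    · have := (min_le_left (min (R' / (2 * ‖d‖)) (δ / (4 * ‖d‖)))
        (σ1 * cr e d / (2 * (‖e‖ * ‖d‖)))).trans (min_le_left _ _)
      rw [le_div_iff₀ (by positivity)] at this
      linarith
    · have := (min_le_left (min (R' / (2 * ‖d‖)) (δ / (4 * ‖d‖)))
        (σ1 * cr e d / (2 * (‖e‖ * ‖d‖)))).trans (min_le_right _ _)
      rw [le_div_iff₀ (by positivity)] at this
      linarith
    · have := (min_le_right (min (R' / (2 * ‖d‖)) (δ / (4 * ‖d‖)))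
        (σ1 * cr e d / (2 * (‖e‖ * ‖d‖))))
      rw [le_div_iff₀ (by positivity)] at this
      linarith
  have hζ : ‖((ε * β : ℝ) : ℂ) * (I * d)‖ = ε * ‖d‖ := by
    rw [norm_mul, norm_mul, norm_I, one_mul, norm_real, Real.norm_eq_abs, abs_mul, hβa,
      abs_of_pos hε, mul_one]
  have ho := hodd (((ε * β : ℝ) : ℂ) * (I * d)) (by rw [hζ]; exact ε1)
  rw [p1e] at ho
  have crI : |cr e (I * d)| ≤ ‖e‖ * ‖d‖ := by
    refine (cr_norm _ _).trans (le_of_eq ?_)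
    rw [norm_mul, norm_I, one_mul]
  have crI' : |ε * β * cr e (I * d)| < σ1 * cr e d := by
    rw [abs_mul, abs_mul, hβa, mul_one, abs_of_pos hε]
    exact (mul_le_mul_of_nonneg_left crI hε.le).trans_lt ε3
  rw [abs_lt] at crI'
  have ep : p + σ1 * d + ((ε * β : ℝ) : ℂ) * (I * d) - p =
    ((σ1 : ℝ) : ℂ) * d + ((ε * β : ℝ) : ℂ) * (I * d) := by ring
  have em : p + σ1 * d - ((ε * β : ℝ) : ℂ) * (I * d) - p =
    ((σ1 : ℝ) : ℂ) * d + ((-(ε * β) : ℝ) : ℂ) * (I * d) := by push_cast; ring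
  have np : ‖p + σ1 * d + ((ε * β : ℝ) : ℂ) * (I * d) - p‖ < δ := by
    rw [ep]
    refine (norm_add_le _ _).trans_lt ?_
    rw [hζ, norm_mul, norm_real, Real.norm_eq_abs]; linarith
  have nm : ‖p + σ1 * d - ((ε * β : ℝ) : ℂ) * (I * d) - p‖ < δ := by
    rw [show p + σ1 * d - ((ε * β : ℝ) : ℂ) * (I * d) - p =
      σ1 * d - ((ε * β : ℝ) : ℂ) * (I * d) by ring]
    refine (norm_sub_le _ _).trans_lt ?_
    rw [hζ, norm_mul, norm_real, Real.norm_eq_abs]; linarith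
  have ap : 0 < cr e (p + σ1 * d + ((ε * β : ℝ) : ℂ) * (I * d) - p) := by
    rw [ep, cr_lin]; linarith
  have am : 0 < cr e (p + σ1 * d - ((ε * β : ℝ) : ℂ) * (I * d) - p) := by
    rw [em, cr_lin]; linarith
  have hd2 : 0 < ε * ‖d‖ ^ 2 := by positivity
  have bp : β * cr d (p + σ1 * d + ((ε * β : ℝ) : ℂ) * (I * d) - p) = ε * ‖d‖ ^ 2 := by
    rw [ep, cr_lin, cr_self, cr_I_self]
    linear_combination (ε * ‖d‖ ^ 2) * hββ
  have bm : β * cr d (p + σ1 * d - ((ε * β : ℝ) : ℂ) * (I * d) - p) = -(ε * ‖d‖ ^ 2) := by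
    rw [em, cr_lin, cr_self, cr_I_self]
    linear_combination -(ε * ‖d‖ ^ 2) * hββ
  have cP : ∀ z, ‖z - p‖ < δ → 0 < cr e (z - p) → 0 < β * cr d (z - p) →
      0 < mgc q z * mgc q (p + σ1 * d + ((ε * β : ℝ) : ℂ) * (I * d)) := fun z h1 h2 h3 =>
    sec β _ _ h1 np h2 ap h3 (by rw [bp]; exact hd2)
  have cM : ∀ z, ‖z - p‖ < δ → 0 < cr e (z - p) → β * cr d (z - p) < 0 →
      0 < mgc q z * mgc q (p + σ1 * d - ((ε * β : ℝ) : ℂ) * (I * d)) := fun z h1 h2 h3 =>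
    sec (-β) _ _ h1 nm h2 am (by linarith) (by rw [neg_mul, bm]; linarith)
  have hm1 : mgc q (p + σ1 * d + ((ε * β : ℝ) : ℂ) * (I * d)) ≠ 0 :=
    off_of _ np ap.ne' (fun h => by rw [h, mul_zero] at bp; linarith)
  rcases lt_or_gt_of_ne hm1 with hneg | hpos
  · refine ⟨δ, hδ, -1, Or.inr rfl, fun z hz h1 => ⟨fun h => ?_, fun h => ?_⟩⟩
    · have C := cP z hz h1 h
      rw [mul_comm] at C
      have := pos_iff_neg_of_mul_neg_helper hneg C
      linarith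
    · have C := cM z hz h1 h
      have hp' : 0 < mgc q (p + σ1 * d - ((ε * β : ℝ) : ℂ) * (I * d)) := by linarith
      have := (mul_pos_iff_of_pos_right hp').1 C
      linarith
  · refine ⟨δ, hδ, 1, Or.inl rfl, fun z hz h1 => ⟨fun h => ?_, fun h => ?_⟩⟩
    · have C := cP z hz h1 h
      have := (mul_pos_iff_of_pos_right hpos).1 C
      linarith
    · have C := cM z hz h1 h
      have hp' : mgc q (p + σ1 * d - ((ε * β : ℝ) : ℂ) * (I * d)) < 0 := by linarith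
      rw [mul_comm] at C
      have := pos_iff_neg_of_mul_neg_helper hp' C
      linarith

end Pool.Agent.Y535.PEG
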