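import Pool.Agent.Y535.PEG.Fre

/-! Mirror symmetric arcs whose short symmetric chords carry squares on the proper side. -/

set_option autoImplicit false
open Complex Set Topology Metric

namespace Pool.Agent.Y535.PEG

open Pool.Agent.H763R2 Pool.Agent.H763R2.An Pool.Agent.W675.Peg Pool.Agent.TH569.Peg
open Pool.Agent.H763R2.Dm (NoSq floor_const)

variable {c : ℝ → ℂ} {θ : ℝ → ℝ → ℝ} {g : ℤ}

theorem mirror_evenS (L : Loop c) (J : Inj c) {z0 : ℂ} (h0 : 0 < mgc c z0)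
    (A : Ang c (mgc c) θ g) {a b : ℝ} (h : AR c a b) {la lb : ℤ} (h1 : KL θ a la)
    (h2 : KL θ b lb) {u v : ℂ} (hu : u ≠ 0)
    (him : (fun z => u * (starRingEnd ℂ) z + v) '' (c '' Icc a b) = c '' Icc a b)
    (hab : u * (starRingEnd ℂ) (c a) + v = c b)
    (hleft : ∀ ρ > 0, ∃ r r' x y, a ≤ r ∧ r < r' ∧ r' ≤ b ∧ r' - r < ρ ∧
      u * (starRingEnd ℂ) (c r) + v = c r' ∧ |x - a| < ρ ∧ |y - a| < ρ ∧ x < y ∧
      JoinedIn (range c)ᶜ (c r' + I * (c r' - c r)) (c y + I * (c y - c x))) :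
    ∃ k : ℤ, lb - la = 4 * k := by
  have hπ := Real.pi_pos
  obtain ⟨φ, R⟩ := exMr L J h hu him hab
  obtain ⟨m0, hm1, hm2, hm3⟩ := R.fix
  have h1' := h1
  have h2' := h2
  obtain ⟨ρa, hρa, fa⟩ := h1
  obtain ⟨ρb, hρb, fb⟩ := h2
  obtain ⟨S, pa, pb, w, K, ρm, hρm, hS⟩ := exPkM L J h0 A R.hT R.P h.ha h.hb h1' h2' hρb hρa hm1 hm2
  have c1 : ContinuousOn (fun p : ℝ × ℝ => φ p.1) S := R.P.cont.comp (by fun_prop) K.m1
  have c2 : ContinuousOn (fun p : ℝ × ℝ => φ p.2) S := R.P.cont.comp (by fun_prop) K.m2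
  have eD := K.eD
  have eC := K.eC
  rw [show ((-1 : ℤ) * (-1)) = 1 by norm_num, Int.cast_one] at eD eC
  have ba := h.ba
  have hx : ∀ p ∈ S, φ p.2 < φ p.1 ∧ φ p.1 < φ p.2 + 1 := fun p hp => by
    have g1 := R.mem _ (K.m1 p hp)
    have g2 := R.mem _ (K.m2 p hp)
    exact ⟨R.anti (K.m1 p hp) (K.m2 p hp) (K.uu p hp).1, by linarith [g1.2, g2.1]⟩
  obtain ⟨m, hmm⟩ := chg A K.pre K.uu c2 c1 hx K.v0 (α := Real.pi / 2) (σ := -1)
    (fun p hp r r1 r2 => by
    have t1 : DD c (φ p.2) (φ p.1) = (fun z => u * (starRingEnd ℂ) z + v) (CC c p.1 p.2) := by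
      rw [DD_eq, CC_eq, R.P.eq _ (K.m1 p hp), R.P.eq _ (K.m2 p hp)]
      simp only [map_add, map_sub, map_mul, conj_I]; ring
    have t2 : CC c (φ p.2) (φ p.1) = (fun z => u * (starRingEnd ℂ) z + v) (DD c p.1 p.2) := by
      rw [CC_eq, DD_eq, R.P.eq _ (K.m1 p hp), R.P.eq _ (K.m2 p hp)]
      simp only [map_add, map_sub, map_mul, conj_I]; ring
    rw [t1, t2, eD p hp, eC p hp, r1, r2,
      show Real.pi / 2 + -1 * θ p.1 p.2 = Real.pi / 2 - θ p.1 p.2 by ring,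
      Real.cos_pi_div_two_sub, Real.sin_pi_div_two_sub]
    constructor <;> ring)
  -- the ends
  have na1 := K.na1
  have na2 := K.na2
  rw [R.fa] at na1 na2
  have ea := fb _ _ na2 na1 (hx pa K.ma).1
  rw [hmm pa K.ma, fl_half K.qa, K.ka] at ea
  -- a short symmetric chord
  obtain ⟨x, x1, x', y', f1, f2, f3, f4, f5, g1, g2, g3, g4⟩ := hleft (min (min ρa (1 / 2)) ρm)
    (by positivity)
  have hxI : x ∈ Icc a b := ⟨f1, by linarith⟩
  have hx1 : φ x = x1 := inj_Icc J h.ba (R.mem _ hxI) ⟨by linarith, f3⟩ (by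
    rw [← f5]; exact R.P.eq x hxI)
  rw [← hx1] at f2 f3 f4 g4
  have mI : m0 ∈ Icc a b := ⟨hm1.le, hm2.le⟩
  have hxm : x < m0 := by
    by_contra hcon
    push Not at hcon
    have := R.anti.antitoneOn mI hxI hcon
    rw [hm3] at this
    linarith
  have hφx : m0 < φ x := by
    have := R.anti hxI mI hxm
    rwa [hm3] at this
  have f4' := f4.trans_le (min_le_right _ _)
  have hp0 : (x, φ x) ∈ S := hS ⟨by
      simp only; rw [abs_sub_comm, abs_of_pos (by linarith)]; linarith,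
    by simp only; rw [abs_of_pos (by linarith)]; linarith, by simp only; linarith⟩
  have e0 := hmm (x, φ x) hp0
  simp only at e0
  rw [R.inv x hxI] at e0
  have e1 : θ x (φ x) = Real.pi / 4 + m * Real.pi := by linarith
  have s2 := join_sign L g4
  rw [← CC_eq, ← CC_eq] at s2
  have g1' := g1.trans_le (min_le_left _ _)
  have g2' := g2.trans_le (min_le_left _ _)
  have q1 := fa x' y' (g1'.trans_le (min_le_left _ _)) (g2'.trans_le (min_le_left _ _)) g3
  obtain ⟨ra, hra, -, k2⟩ := A.ex x' y' g3 (Tri_UU le_rfl (g1'.trans_le (min_le_right _ _))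
    (g2'.trans_le (min_le_right _ _)) g3)
  obtain ⟨rb, hrb, -, k4⟩ := A.ex x (φ x) (by linarith) (by linarith [(R.mem x hxI).2])
  have hprod : 0 < Real.sin (θ x (φ x)) * Real.sin (θ x' y') := by
    rw [k2, k4, show rb * Real.sin (θ x (φ x)) * (ra * Real.sin (θ x' y')) =
      (rb * ra) * (Real.sin (θ x (φ x)) * Real.sin (θ x' y')) by ring] at s2
    exact (mul_pos_iff_of_pos_left (mul_pos hrb hra)).1 s2
  have hflm : ⌊θ x (φ x) / Real.pi⌋ = m := by
    rw [e1, Int.floor_eq_iff, le_div_iff₀ hπ, div_lt_iff₀ hπ]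
    constructor <;> linarith
  have p1 := fl_pm hflm (left_ne_zero_of_mul hprod.ne')
  have p2 := fl_pm q1 (right_ne_zero_of_mul hprod.ne')
  have hev : Even (m - la) := by
    rcases p1 with ⟨a1, a2⟩ | ⟨a1, a2⟩ <;> rcases p2 with ⟨b1, b2⟩ | ⟨b1, b2⟩
    · exact a2.sub b2
    · exact absurd hprod (not_lt.2 (mul_nonpos_of_nonneg_of_nonpos a1.le b1.le))
    · exact absurd hprod (not_lt.2 (mul_nonpos_of_nonpos_of_nonneg a1.le b1.le))
    · exact a2.sub_odd b2
  obtain ⟨k, hk⟩ := hev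
  exact ⟨k, by linarith⟩

theorem mirror_evenSR (L : Loop c) (J : Inj c) {z0 : ℂ} (h0 : 0 < mgc c z0)
    (A : Ang c (mgc c) θ g) {a b : ℝ} (h : AR c a b) {la lb : ℤ} (h1 : KR θ a la)
    (h2 : KR θ b lb) {u v : ℂ} (hu : u ≠ 0)
    (him : (fun z => u * (starRingEnd ℂ) z + v) '' (c '' Icc a b) = c '' Icc a b)
    (hab : u * (starRingEnd ℂ) (c a) + v = c b)
    (hright : ∀ ρ > 0, ∃ r r' x y, a ≤ r ∧ r < r' ∧ r' ≤ b ∧ r' - r < ρ ∧
      u * (starRingEnd ℂ) (c r) + v = c r' ∧ |x - b| < ρ ∧ |y - b| < ρ ∧ x < y ∧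
      JoinedIn (range c)ᶜ (c r - I * (c r' - c r)) (c x - I * (c y - c x))) :
    ∃ k : ℤ, lb - la = 4 * k := by
  obtain ⟨φ, R⟩ := exMr L J h hu him hab
  have mb : b ∈ Icc a b := ⟨h.ab.le, le_rfl⟩
  have r : AR (fun t => c (-t)) (-b) (-a) := ⟨by linarith [h.ab], by linarith [h.ba], h.hb.rev, h.ha.rev⟩
  obtain ⟨k, hk⟩ := mirror_evenS L.rev (J.rev L) (z0 := z0)
    (by rw [mgc_rev L]; exact h0) (Ang.rev L A) r h2.rev h1.rev hu (v := v)
    (by rw [im_rev]; exact him) (by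
      have := R.P.eq b mb
      rw [R.fb] at this
      simp only [neg_neg]
      exact this.symm) (fun ρ hρ => by
      obtain ⟨s, s', x, y, f1, f2, f3, f4, f5, g1, g2, g3, g4⟩ := hright ρ hρ
      have ms : s ∈ Icc a b := ⟨f1, by linarith⟩
      have ms' : s' ∈ Icc a b := ⟨by linarith, f3⟩
      have hs1 : φ s = s' := inj_Icc J h.ba (R.mem _ ms) ms' (by
        rw [← f5]; exact R.P.eq s ms)
      have hs2 : u * (starRingEnd ℂ) (c s') + v = c s := by
        have e1 := R.P.eq s' ms'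
        rw [← hs1, R.inv s ms, hs1] at e1
        exact e1.symm
      refine ⟨-s', -s, -y, -x, by linarith, by linarith, by linarith, by linarith, ?_,
        by rwa [show -y - -b = -(y - b) by ring, abs_neg],
        by rwa [show -x - -b = -(x - b) by ring, abs_neg], by linarith, ?_⟩
      · simp only [neg_neg]; exact hs2
      · simp only [neg_neg, range_rev]
        rw [show c s + I * (c s - c s') = c s - I * (c s' - c s) by ring,
          show c x + I * (c x - c y) = c x - I * (c y - c x) by ring]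
        exact g4)
  exact ⟨-k, by linarith⟩

/-- mirror symmetric arc: the squares over arbitrarily short symmetric chords have a vertex on the
proper side of the curve -/
def MS (c : ℝ → ℂ) (a b : ℝ) : Prop := ∃ u v : ℂ, u ≠ 0 ∧
  (fun z => u * (starRingEnd ℂ) z + v) '' (c '' Icc a b) = c '' Icc a b ∧
  u * (starRingEnd ℂ) (c a) + v = c b ∧
  ((∀ ρ > 0, ∃ r r' x y, a ≤ r ∧ r < r' ∧ r' ≤ b ∧ r' - r < ρ ∧
      u * (starRingEnd ℂ) (c r) + v = c r' ∧ |x - a| < ρ ∧ |y - a| < ρ ∧ x < y ∧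
      JoinedIn (range c)ᶜ (c r' + I * (c r' - c r)) (c y + I * (c y - c x))) ∨
   (∀ ρ > 0, ∃ r r' x y, a ≤ r ∧ r < r' ∧ r' ≤ b ∧ r' - r < ρ ∧
      u * (starRingEnd ℂ) (c r) + v = c r' ∧ |x - b| < ρ ∧ |y - b| < ρ ∧ x < y ∧
      JoinedIn (range c)ᶜ (c r - I * (c r' - c r)) (c x - I * (c y - c x))))

end Pool.Agent.Y535.PEG
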