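import Pool.Agent.Y535.PEG.Ext
import Pool.Agent.Y535.PEG.Mir2

/-! Integer charges of the arcs of a curve without inscribed squares. -/

set_option autoImplicit false
open Complex Set Topology Metric

namespace Pool.Agent.Y535.PEG

open Pool.Agent.H763R2 Pool.Agent.H763R2.An Pool.Agent.W675.Peg Pool.Agent.TH569.Peg
open Pool.Agent.H763R2.Dm (NoSq floor_const)

variable {c : ℝ → ℂ}

/-- the integer charge of a curve without inscribed squares -/
theorem exChargeX (hP : S_P) (hT1 : S_T1) (hT2 : S_T2) (hSG : S_SG) (hI : S_I) (L : Loop c)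
    (J : Inj c) (nosq : NoSq (range c)) :
    ∃ (x : ℝ → ℤ) (g : ℤ), Odd g ∧
      (∀ s, Cone c s → x (s + 1) = x s + g) ∧
      (∀ s t, AR c s t → (∀ r ∈ Icc s t, Mon c r) → x t = x s) ∧
      (∀ s t s' t', AR c s t → AR c s' t' → KP c s t s' t' → x t' - x s' = x t - x s) ∧
      (∀ s t s' t', AR c s t → AR c s' t' → SP c s t s' t' → x t' - x s' = -(x t - x s)) ∧
      (∀ s t, AR c s t → MS c s t → Even (x t - x s)) := by
  classical
  obtain ⟨θ, g, A, ho⟩ := exists_odd L J nosq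
  obtain ⟨z0, h0⟩ := exists_pos L J nosq
  by_cases hex : ∃ s0, Cone c s0
  · obtain ⟨s0, C0⟩ := hex
    obtain ⟨l0, hl0⟩ := exKL L J A C0
    have ex1 : ∀ s, ∃ k : ℤ, Cone c s → KL θ s (l0 + 2 * k) := fun s => by
      by_cases hs : Cone c s
      · obtain ⟨k, hk⟩ := exKL L J A hs
        obtain ⟨m, hm⟩ := KL.parity L J h0 A C0 hs hl0 hk
        exact ⟨m, fun _ => by rwa [show l0 + 2 * m = k by linarith]⟩
      · exact ⟨0, fun h => absurd h hs⟩
    choose x hx using ex1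
    refine ⟨x, g, ho, ?_, ?_, ?_, ?_, ?_⟩
    · intro s hs
      have hs1 := hs.per L
      have e1 := (hx (s + 1) hs1).uniq ((hx s hs).per A)
      linarith
    · intro s t h hM
      have := monoX hP hT2 hSG hI L J nosq A h.ab h.ba h.ha h.hb hM (hx s h.ha) (hx t h.hb)
      linarith
    · intro s t s' t' h h' hK
      have e1 := keepL L J h0 A h h' (hx s h.ha) (hx t h.hb) (hx s' h'.ha) (hx t' h'.hb) hK
      linarith
    · intro s t s' t' h h' hK
      obtain ⟨ra, k1⟩ := exKR L J A h'.ha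
      obtain ⟨rb, k2⟩ := exKR L J A h'.hb
      have e1 := swapLR L J h0 A h h' (hx s h.ha) (hx t h.hb) k1 k2 hK
      have e2 := parityX hP hT1 hSG hI L J nosq A h'.ab h'.ba h'.ha h'.hb (hx s' h'.ha)
        (hx t' h'.hb) k1 k2
      linarith
    · rintro s t h ⟨u, v, hu, e1, e2, e3 | e3⟩
      · obtain ⟨k, hk⟩ := mirror_evenS L J h0 A h (hx s h.ha) (hx t h.hb) hu e1 e2 e3
        exact ⟨k, by linarith⟩
      · obtain ⟨ra, k1⟩ := exKR L J A h.ha
        obtain ⟨rb, k2⟩ := exKR L J A h.hb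
        obtain ⟨k, hk⟩ := mirror_evenSR L J h0 A h k1 k2 hu e1 e2 e3
        have e4 := parityX hP hT1 hSG hI L J nosq A h.ab h.ba h.ha h.hb (hx s h.ha)
          (hx t h.hb) k1 k2
        exact ⟨k, by linarith⟩
  · refine ⟨0, g, ho, ?_, ?_, ?_, ?_, ?_⟩
    · exact fun s hs => absurd ⟨s, hs⟩ hex
    · exact fun s t h => absurd ⟨s, h.ha⟩ hex
    · exact fun s t s' t' h => absurd ⟨s, h.ha⟩ hex
    · exact fun s t s' t' h => absurd ⟨s, h.ha⟩ hex
    · exact fun s t h => absurd ⟨s, h.ha⟩ hex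

/-- similar arcs are related by a similarity that keeps or exchanges the sides -/
theorem sim_cases (L : Loop c) (J : Inj c) {a b a' b' : ℝ} (h : AR c a b) (h' : AR c a' b')
    {u v : ℂ} (hu : u ≠ 0)
    (H : (fun z => u * z + v) '' (c '' Icc a b) = c '' Icc a' b' ∨
      (fun z => u * (starRingEnd ℂ) z + v) '' (c '' Icc a b) = c '' Icc a' b') :
    KP c a b a' b' ∨ SP c a b a' b' := by
  rcases H with H | H
  · obtain ⟨φ, d, P, hφ⟩ := mk_mp L J (T := fun z => u * z + v) (u := u) (e := 1)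
      ⟨hu, Or.inl ⟨rfl, v, fun _ => rfl⟩⟩ h.ab h.ba h'.ab h'.ba H
    have ea := P.eq a ⟨le_rfl, h.ab.le⟩
    rcases hφ with ⟨-, f1, -⟩ | ⟨-, f1, -⟩
    · exact Or.inl ⟨u, v, hu, Or.inl ⟨H, by rw [← f1]; exact ea.symm⟩⟩
    · exact Or.inr ⟨u, v, hu, Or.inl ⟨H, by rw [← f1]; exact ea.symm⟩⟩
  · obtain ⟨φ, d, P, hφ⟩ := mk_mp L J (T := fun z => u * (starRingEnd ℂ) z + v) (u := u) (e := -1)
      ⟨hu, Or.inr ⟨rfl, v, fun _ => rfl⟩⟩ h.ab h.ba h'.ab h'.ba H
    have ea := P.eq a ⟨le_rfl, h.ab.le⟩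
    rcases hφ with ⟨-, f1, -⟩ | ⟨-, f1, -⟩
    · exact Or.inr ⟨u, v, hu, Or.inr ⟨H, by rw [← f1]; exact ea.symm⟩⟩
    · exact Or.inl ⟨u, v, hu, Or.inr ⟨H, by rw [← f1]; exact ea.symm⟩⟩

/-- centrally symmetric arcs -/
theorem central_SP (L : Loop c) (J : Inj c) {a b : ℝ} (h : AR c a b) {v : ℂ}
    (H : (fun z => v - z) '' (c '' Icc a b) = c '' Icc a b) : SP c a b a b := by
  have H' : (fun z => (-1) * z + v) '' (c '' Icc a b) = c '' Icc a b := by
    rw [← H]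
    congr 1
    funext z
    ring
  have hm1 : (-1 : ℂ) ≠ 0 := by norm_num
  obtain ⟨φ, d, P, hφ⟩ := mk_mp L J (T := fun z => (-1) * z + v) (u := -1) (e := 1)
    ⟨hm1, Or.inl ⟨rfl, v, fun _ => rfl⟩⟩ h.ab h.ba h.ab h.ba H'
  have ea := P.eq a ⟨le_rfl, h.ab.le⟩
  have eb := P.eq b ⟨h.ab.le, le_rfl⟩
  rcases hφ with ⟨-, f1, f2⟩ | ⟨-, f1, -⟩
  · exfalso
    rw [f1] at ea
    rw [f2] at eb
    refine h.ne J ?_
    have h1 : 2 * c a = 2 * c b := by linear_combination ea - eb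
    exact mul_left_cancel₀ two_ne_zero h1
  · exact ⟨-1, v, hm1, Or.inl ⟨H', by rw [← f1]; exact ea.symm⟩⟩

theorem sum_ev (f : ℕ → ℤ) (n : ℕ) (σ : ℕ → ℕ) (h1 : ∀ i < n, σ i < n) (h2 : ∀ i < n, σ (σ i) = i)
    (h3 : ∀ i < n, σ i ≠ i → Even (f (σ i) - f i)) (h4 : ∀ i < n, σ i = i → Even (f i)) :
    Even (∑ i ∈ Finset.range n, f i) := by
  have key : ∑ i ∈ Finset.range n, ((f i : ℤ) : ZMod 2) = 0 := by
    refine Finset.sum_involution (fun i _ => σ i) (fun i hi => ?_) (fun i hi hne => ?_)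
      (fun i hi => Finset.mem_range.2 (h1 i (Finset.mem_range.1 hi)))
      (fun i hi => h2 i (Finset.mem_range.1 hi))
    · have hi' := Finset.mem_range.1 hi
      by_cases h : σ i = i
      · rw [h]; exact Dm.two_zero _
      · have := h3 i hi' h
        rw [← ZMod.intCast_eq_zero_iff_even] at this
        push_cast at this
        rw [sub_eq_zero] at this
        rw [this]; exact Dm.two_zero _
    · intro h
      apply hne
      have := h4 i (Finset.mem_range.1 hi) h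
      rwa [← ZMod.intCast_eq_zero_iff_even] at this
  rw [← ZMod.intCast_eq_zero_iff_even]
  push_cast
  exact key

/-- the combinatorial conclusion -/
theorem square_of_arcs (hP : S_P) (hT1 : S_T1) (hT2 : S_T2) (hSG : S_SG) (hI : S_I) (L : Loop c)
    (J : Inj c) (nosq : NoSq (range c)) {n : ℕ} (hn : 2 ≤ n) {t : ℕ → ℝ} (S : Sub c n t)
    {σ : ℕ → ℕ} (hσ : ∀ i < n, σ i < n ∧ σ (σ i) = i)
    (H : ∀ i < n, (σ i ≠ i ∧ (KP c (t i) (t (i + 1)) (t (σ i)) (t (σ i + 1)) ∨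
        SP c (t i) (t (i + 1)) (t (σ i)) (t (σ i + 1)))) ∨
      (σ i = i ∧ ((∀ s ∈ Icc (t i) (t (i + 1)), Mon c s) ∨ SP c (t i) (t (i + 1)) (t i) (t (i + 1)) ∨
        MS c (t i) (t (i + 1))))) : False := by
  obtain ⟨x, g, hodd, h1, h2, h3, h4, h5⟩ := exChargeX hP hT1 hT2 hSG hI L J nosq
  have ar : ∀ i < n, AR c (t i) (t (i + 1)) := fun i hi =>
    ⟨S.lt i hi, S.len2 hn hi, S.cone i hi.le, S.cone (i + 1) hi⟩
  have hs : ∑ i ∈ Finset.range n, (x (t (i + 1)) - x (t i)) = g := by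
    rw [Finset.sum_range_sub (fun i => x (t i)), S.one, h1 _ (S.cone 0 (Nat.zero_le _))]
    ring
  have hev : Even (∑ i ∈ Finset.range n, (x (t (i + 1)) - x (t i))) := by
    refine sum_ev _ n σ (fun i hi => (hσ i hi).1) (fun i hi => (hσ i hi).2) (fun i hi hne => ?_)
      (fun i hi he => ?_)
    · rcases H i hi with ⟨-, h | h⟩ | ⟨h, -⟩
      · rw [h3 _ _ _ _ (ar i hi) (ar _ (hσ i hi).1) h, sub_self]
        exact Even.zero
      · rw [h4 _ _ _ _ (ar i hi) (ar _ (hσ i hi).1) h]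
        exact ⟨-(x (t (i + 1)) - x (t i)), by ring⟩
      · exact absurd h hne
    · rcases H i hi with ⟨h, -⟩ | ⟨-, h | h | h⟩
      · exact absurd he h
      · rw [h2 _ _ (ar i hi) h, sub_self]
        exact Even.zero
      · have := h4 _ _ _ _ (ar i hi) (ar i hi) h
        have h0 : x (t (i + 1)) - x (t i) = 0 := by linarith
        rw [h0]
        exact Even.zero
      · exact h5 _ _ (ar i hi) h
  rw [hs] at hev
  exact Int.not_even_iff_odd.2 hodd hev

end Pool.Agent.Y535.PEG
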