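import Pool.Agent.Y535.PEG.Mwe

/-! Mirror symmetric arcs have an even charge. -/

set_option autoImplicit false
open Complex Set Topology Metric

namespace Pool.Agent.Y535.PEG

open Pool.Agent.H763R2 Pool.Agent.H763R2.An Pool.Agent.W675.Peg Pool.Agent.TH569.Peg
open Pool.Agent.H763R2.Dm (NoSq floor_const)

variable {c : ℝ → ℂ} {θ : ℝ → ℝ → ℝ} {g : ℤ}

theorem mirror_evenN (L : Loop c) (J : Inj c) (nosq : NoSq (range c)) {z0 : ℂ} (h0 : 0 < mgc c z0)
    (A : Ang c (mgc c) θ g) {a b : ℝ} (h : AR c a b) {la lb : ℤ} (h1 : KL θ a la)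
    (h2 : KL θ b lb) {u v : ℂ} (hu : u ≠ 0)
    (him : (fun z => u * (starRingEnd ℂ) z + v) '' (c '' Icc a b) = c '' Icc a b)
    (hab : u * (starRingEnd ℂ) (c a) + v = c b) : ∃ k : ℤ, lb - la = 4 * k := by
  have hπ := Real.pi_pos
  obtain ⟨φ, R⟩ := exMr L J h hu him hab
  obtain ⟨m0, hm1, hm2, hm3⟩ := R.fix
  have h1' := h1
  have h2' := h2
  obtain ⟨ρa, hρa, fa⟩ := h1
  obtain ⟨ρb, hρb, fb⟩ := h2
  obtain ⟨S, pa, pb, w, K, ρm, hρm, hS⟩ := exPkM L J h0 A R.hT R.P h.ha h.hb h1' h2' hρb hρa hm1 hm2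
  have c1 : ContinuousOn (fun p : ℝ × ℝ => φ p.1) S := R.P.cont.comp (by fun_prop) K.m1
  have c2 : ContinuousOn (fun p : ℝ × ℝ => φ p.2) S := R.P.cont.comp (by fun_prop) K.m2
  have eD := K.eD
  have eC := K.eC
  rw [show ((-1 : ℤ) * (-1)) = 1 by norm_num, Int.cast_one] at eD eC
  have ba := h.ba
  have hx : ∀ p ∈ S, φ p.2 < φ p.1 ∧ φ p.1 < φ p.2 + 1 := fun p hp => by
    have g1 := R.mem _ (K.m1 p hp)
    have g2 := R.mem _ (K.m2 p hp)
    exact ⟨R.anti (K.m1 p hp) (K.m2 p hp) (K.uu p hp).1, by linarith [g1.2, g2.1]⟩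
  obtain ⟨m, hmm⟩ := chg A K.pre K.uu c2 c1 hx K.v0 (α := Real.pi / 2) (σ := -1)
    (fun p hp r r1 r2 => by
    have t1 : DD c (φ p.2) (φ p.1) = (fun z => u * (starRingEnd ℂ) z + v) (CC c p.1 p.2) := by
      rw [DD_eq, CC_eq, R.P.eq _ (K.m1 p hp), R.P.eq _ (K.m2 p hp)]
      simp only [map_add, map_sub, map_mul, conj_I]; ring
    have t2 : CC c (φ p.2) (φ p.1) = (fun z => u * (starRingEnd ℂ) z + v) (DD c p.1 p.2) := by
      rw [CC_eq, DD_eq, R.P.eq _ (K.m1 p hp), R.P.eq _ (K.m2 p hp)]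
      simp only [map_add, map_sub, map_mul, conj_I]; ring
    rw [t1, t2, eD p hp, eC p hp, r1, r2,
      show Real.pi / 2 + -1 * θ p.1 p.2 = Real.pi / 2 - θ p.1 p.2 by ring,
      Real.cos_pi_div_two_sub, Real.sin_pi_div_two_sub]
    constructor <;> ring)
  -- the ends
  have na1 := K.na1
  have na2 := K.na2
  rw [R.fa] at na1 na2
  have ea := fb _ _ na2 na1 (hx pa K.ma).1
  rw [hmm pa K.ma, fl_half K.qa, K.ka] at ea
  -- a short symmetric chord
  obtain ⟨r1, g1, g2, ρs, hρs, Hs⟩ := mir_sign L J nosq h0 h R hm1 hm2 hm3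
  have mI : m0 ∈ Icc a b := ⟨hm1.le, hm2.le⟩
  obtain ⟨δ, hδ, hcon⟩ := Metric.continuousWithinAt_iff.1 (R.P.cont m0 mI) ρm hρm
  simp only [Real.dist_eq] at hcon
  obtain ⟨r, g3, g4, g5, g6⟩ : ∃ r, r1 < r ∧ r < m0 ∧ m0 - r < δ ∧ m0 - r < ρm := by
    refine ⟨max ((r1 + m0) / 2) (m0 - min δ ρm / 2), ?_, ?_, ?_, ?_⟩
    · exact lt_of_lt_of_le (by linarith) (le_max_left _ _)
    · exact max_lt (by linarith) (by have : 0 < min δ ρm := lt_min hδ hρm; linarith)
    · have := le_max_right ((r1 + m0) / 2) (m0 - min δ ρm / 2)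
      have := min_le_left δ ρm
      linarith
    · have := le_max_right ((r1 + m0) / 2) (m0 - min δ ρm / 2)
      have := min_le_right δ ρm
      linarith
  have hrI : r ∈ Icc a b := ⟨by linarith, by linarith⟩
  have hφx : m0 < φ r := by
    have := R.anti hrI mI g4
    rwa [hm3] at this
  have hφy := hcon hrI (by rw [abs_sub_comm, abs_of_pos (by linarith)]; exact g5)
  rw [hm3] at hφy
  have hp0 : (r, φ r) ∈ S := hS ⟨by
      simp only; rw [abs_sub_comm, abs_of_pos (by linarith)]; linarith, hφy, by simp only; linarith⟩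
  have e0 := hmm (r, φ r) hp0
  simp only at e0
  rw [R.inv r hrI] at e0
  have e1 : θ r (φ r) = Real.pi / 4 + m * Real.pi := by linarith
  obtain ⟨x', y', i1, i2, i3⟩ := pair_near (s := a) (lt_min (lt_min hρa hρs)
    (by norm_num : (0:ℝ) < 1 / 2))
  have s2 := Hs r g3 g4 x' y' (i1.trans_le ((min_le_left _ _).trans (min_le_right _ _)))
    (i2.trans_le ((min_le_left _ _).trans (min_le_right _ _))) i3
  have q1 := fa x' y' (i1.trans_le ((min_le_left _ _).trans (min_le_left _ _)))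
    (i2.trans_le ((min_le_left _ _).trans (min_le_left _ _))) i3
  obtain ⟨ra, hra, -, k2⟩ := A.ex x' y' i3 (Tri_UU le_rfl (i1.trans_le (min_le_right _ _))
    (i2.trans_le (min_le_right _ _)) i3)
  obtain ⟨rb, hrb, k3, k4⟩ := A.ex r (φ r) (by linarith) (by linarith [(R.mem r hrI).2])
  have hcs : 0 < Real.sin (θ r (φ r)) * Real.cos (θ r (φ r)) := by
    have h3 := Real.sin_two_mul (θ r (φ r))
    rw [e1, show 2 * (Real.pi / 4 + m * Real.pi) = Real.pi / 2 + m * (2 * Real.pi) by ring,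
      Real.sin_add_int_mul_two_pi, Real.sin_pi_div_two, ← e1] at h3
    linarith
  have hprod1 : 0 < Real.cos (θ r (φ r)) * Real.sin (θ x' y') := by
    rw [k2, k3, show rb * Real.cos (θ r (φ r)) * (ra * Real.sin (θ x' y')) =
      (rb * ra) * (Real.cos (θ r (φ r)) * Real.sin (θ x' y')) by ring] at s2
    exact (mul_pos_iff_of_pos_left (mul_pos hrb hra)).1 s2
  have hprod : 0 < Real.sin (θ r (φ r)) * Real.sin (θ x' y') := pos_tr hcs hprod1
  have hflm : ⌊θ r (φ r) / Real.pi⌋ = m := by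
    rw [e1, Int.floor_eq_iff, le_div_iff₀ hπ, div_lt_iff₀ hπ]
    constructor <;> linarith
  have p1 := fl_pm hflm (left_ne_zero_of_mul hprod.ne')
  have p2 := fl_pm q1 (right_ne_zero_of_mul hprod.ne')
  have hev : Even (m - la) := by
    rcases p1 with ⟨a1, a2⟩ | ⟨a1, a2⟩ <;> rcases p2 with ⟨b1, b2⟩ | ⟨b1, b2⟩
    · exact a2.sub b2
    · exact absurd hprod (not_lt.2 (mul_nonpos_of_nonneg_of_nonpos a1.le b1.le))
    · exact absurd hprod (not_lt.2 (mul_nonpos_of_nonpos_of_nonneg a1.le b1.le))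
    · exact a2.sub_odd b2
  obtain ⟨k, hk⟩ := hev
  exact ⟨k, by linarith⟩

/-- an arc that a reflection maps onto itself exchanging its ends -/
def MN (c : ℝ → ℂ) (a b : ℝ) : Prop := ∃ u v : ℂ, u ≠ 0 ∧
  (fun z => u * (starRingEnd ℂ) z + v) '' (c '' Icc a b) = c '' Icc a b ∧
  u * (starRingEnd ℂ) (c a) + v = c b

end Pool.Agent.Y535.PEG
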