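import Pool.Agent.Y535.PEG.ExC
import Pool.Agent.Y535.PEG.Mwf
import Pool.Agent.Y529.PEG.E
import Pool.Agent.Y255.PEG.LoopP
import Pool.Agent.Y331.PEG.Idx
import Pool.Agent.Y672.PEG.Z
import Pool.Agent.Y26.PEG.SgI
import Pool.Agent.Y484.PEG.T2
import Pool.Agent.Y407.PEG.Sg
import Pool.Agent.Y154.PEG.T1

/-! Integer charges of the arcs of a curve without inscribed squares, final form. -/

set_option autoImplicit false
open Complex Set Topology Metric

namespace Pool.Agent.Y535.PEG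

open Pool.Agent.H763R2 Pool.Agent.H763R2.An Pool.Agent.W675.Peg Pool.Agent.TH569.Peg
open Pool.Agent.H763R2.Dm (NoSq floor_const)

variable {c : ℝ → ℂ}

theorem jP : S_P := Y255.PEG.loopP Y529.PEG.erase
theorem jT1 : S_T1 := Y154.PEG.t1 Y672.PEG.wdz
theorem jT2 : S_T2 := Y484.PEG.t2 Y672.PEG.wdz
theorem jI : S_I := Y26.PEG.sgI Y331.PEG.idx

/-- the integer charge of a curve without inscribed squares -/
theorem exChargeN (L : Loop c) (J : Inj c) (nosq : NoSq (range c)) :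
    ∃ (x : ℝ → ℤ) (g : ℤ), Odd g ∧
      (∀ s, Cone c s → x (s + 1) = x s + g) ∧
      (∀ s t, AR c s t → (∀ r ∈ Icc s t, Mon c r) → x t = x s) ∧
      (∀ s t s' t', AR c s t → AR c s' t' → KP c s t s' t' → x t' - x s' = x t - x s) ∧
      (∀ s t s' t', AR c s t → AR c s' t' → SP c s t s' t' → x t' - x s' = -(x t - x s)) ∧
      (∀ s t, AR c s t → MN c s t → Even (x t - x s)) := by
  classical
  obtain ⟨θ, g, A, ho⟩ := exists_odd L J nosq
  obtain ⟨z0, h0⟩ := exists_pos L J nosq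
  by_cases hex : ∃ s0, Cone c s0
  · obtain ⟨s0, C0⟩ := hex
    obtain ⟨l0, hl0⟩ := exKL L J A C0
    have ex1 : ∀ s, ∃ k : ℤ, Cone c s → KL θ s (l0 + 2 * k) := fun s => by
      by_cases hs : Cone c s
      · obtain ⟨k, hk⟩ := exKL L J A hs
        obtain ⟨m, hm⟩ := KL.parity L J h0 A C0 hs hl0 hk
        exact ⟨m, fun _ => by rwa [show l0 + 2 * m = k by linarith]⟩
      · exact ⟨0, fun h => absurd h hs⟩
    choose x hx using ex1
    refine ⟨x, g, ho, ?_, ?_, ?_, ?_, ?_⟩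
    · intro s hs
      have hs1 := hs.per L
      have e1 := (hx (s + 1) hs1).uniq ((hx s hs).per A)
      linarith
    · intro s t h hM
      have := monoX jP jT2 Y407.PEG.sgU jI L J nosq A h.ab h.ba h.ha h.hb hM (hx s h.ha) (hx t h.hb)
      linarith
    · intro s t s' t' h h' hK
      have e1 := keepL L J h0 A h h' (hx s h.ha) (hx t h.hb) (hx s' h'.ha) (hx t' h'.hb) hK
      linarith
    · intro s t s' t' h h' hK
      obtain ⟨ra, k1⟩ := exKR L J A h'.ha
      obtain ⟨rb, k2⟩ := exKR L J A h'.hb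
      have e1 := swapLR L J h0 A h h' (hx s h.ha) (hx t h.hb) k1 k2 hK
      have e2 := parityX jP jT1 Y407.PEG.sgU jI L J nosq A h'.ab h'.ba h'.ha h'.hb (hx s' h'.ha)
        (hx t' h'.hb) k1 k2
      linarith
    · rintro s t h ⟨u, v, hu, e1, e2⟩
      obtain ⟨k, hk⟩ := mirror_evenN L J nosq h0 A h (hx s h.ha) (hx t h.hb) hu e1 e2
      exact ⟨k, by linarith⟩
  · refine ⟨0, g, ho, ?_, ?_, ?_, ?_, ?_⟩
    · exact fun s hs => absurd ⟨s, hs⟩ hex
    · exact fun s t h => absurd ⟨s, h.ha⟩ hex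
    · exact fun s t s' t' h => absurd ⟨s, h.ha⟩ hex
    · exact fun s t s' t' h => absurd ⟨s, h.ha⟩ hex
    · exact fun s t h => absurd ⟨s, h.ha⟩ hex

/-- a similarity of the plane -/
def Smx (f : ℂ → ℂ) : Prop := ∃ u v : ℂ, u ≠ 0 ∧
  (f = (fun z => u * z + v) ∨ f = fun z => u * (starRingEnd ℂ) z + v)

/-- the combinatorial conclusion -/
theorem square_of_arcsN (L : Loop c) (J : Inj c) (nosq : NoSq (range c)) {n : ℕ} (hn : 2 ≤ n)
    {t : ℕ → ℝ} (S : Sub c n t) {σ : ℕ → ℕ} (hσ : ∀ i < n, σ i < n ∧ σ (σ i) = i)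
    (H : ∀ i < n, (∀ s ∈ Icc (t i) (t (i + 1)), Mon c s) ∨
      ∃ f, Smx f ∧ f '' (c '' Icc (t i) (t (i + 1))) = c '' Icc (t (σ i)) (t (σ i + 1)) ∧
        (σ i = i → f (c (t i)) = c (t (i + 1)))) : False := by
  obtain ⟨x, g, hodd, h1, h2, h3, h4, h5⟩ := exChargeN L J nosq
  have ar : ∀ i < n, AR c (t i) (t (i + 1)) := fun i hi =>
    ⟨S.lt i hi, S.len2 hn hi, S.cone i hi.le, S.cone (i + 1) hi⟩
  have hs : ∑ i ∈ Finset.range n, (x (t (i + 1)) - x (t i)) = g := by
    rw [Finset.sum_range_sub (fun i => x (t i)), S.one, h1 _ (S.cone 0 (Nat.zero_le _))]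
    ring
  have sim : ∀ i < n, (∃ f, Smx f ∧ f '' (c '' Icc (t i) (t (i + 1))) =
      c '' Icc (t (σ i)) (t (σ i + 1))) → (x (t (σ i + 1)) - x (t (σ i)) = x (t (i + 1)) - x (t i) ∨
      x (t (σ i + 1)) - x (t (σ i)) = -(x (t (i + 1)) - x (t i))) := by
    rintro i hi ⟨f, ⟨u, v, hu, hf⟩, him⟩
    have := sim_cases L J (ar i hi) (ar _ (hσ i hi).1) hu (v := v) (by
      rcases hf with hf | hf
      · left; rw [← hf]; exact him
      · right; rw [← hf]; exact him)
    rcases this with h | h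
    · exact Or.inl (h3 _ _ _ _ (ar i hi) (ar _ (hσ i hi).1) h)
    · exact Or.inr (h4 _ _ _ _ (ar i hi) (ar _ (hσ i hi).1) h)
  have hev : Even (∑ i ∈ Finset.range n, (x (t (i + 1)) - x (t i))) := by
    refine sum_ev _ n σ (fun i hi => (hσ i hi).1) (fun i hi => (hσ i hi).2) (fun i hi hne => ?_)
      (fun i hi he => ?_)
    · have key : x (t (σ i + 1)) - x (t (σ i)) = x (t (i + 1)) - x (t i) ∨
          x (t (σ i + 1)) - x (t (σ i)) = -(x (t (i + 1)) - x (t i)) := by
        rcases H i hi with h | ⟨f, k1, k2, -⟩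
        · have e1 : x (t (i + 1)) - x (t i) = 0 := by rw [h2 _ _ (ar i hi) h, sub_self]
          rcases H (σ i) (hσ i hi).1 with h' | ⟨f, k1, k2, -⟩
          · left
            rw [h2 _ _ (ar _ (hσ i hi).1) h', sub_self, e1]
          · have e2 := sim (σ i) (hσ i hi).1 ⟨f, k1, k2⟩
            rw [(hσ i hi).2, e1] at e2
            left
            rw [e1]
            rcases e2 with e2 | e2 <;> linarith
        · exact sim i hi ⟨f, k1, k2⟩
      rcases key with h | h
      · rw [h, sub_self]; exact Even.zero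
      · rw [h]; exact ⟨-(x (t (i + 1)) - x (t i)), by ring⟩
    · rcases H i hi with h | ⟨f, ⟨u, v, hu, hf⟩, k2, k3⟩
      · rw [h2 _ _ (ar i hi) h, sub_self]
        exact Even.zero
      · have k3' := k3 he
        rw [he] at k2
        rcases hf with hf | hf
        · rw [hf] at k2 k3'
          have := h4 _ _ _ _ (ar i hi) (ar i hi) ⟨u, v, hu, Or.inl ⟨k2, k3'⟩⟩
          have h0 : x (t (i + 1)) - x (t i) = 0 := by linarith
          rw [h0]
          exact Even.zero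
        · rw [hf] at k2 k3'
          exact h5 _ _ (ar i hi) ⟨u, v, hu, k2, k3'⟩
  rw [hs] at hev
  exact Int.not_even_iff_odd.2 hodd hev

end Pool.Agent.Y535.PEG
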