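import Pool.Agent.Y535.PEG.Sap2

/-! Exact comparison of the half turns: integer charges. -/

set_option autoImplicit false
open Complex Set Topology Metric

namespace Pool.Agent.Y535.PEG

open Pool.Agent.H763R2 Pool.Agent.H763R2.An Pool.Agent.W675.Peg Pool.Agent.TH569.Peg
open Pool.Agent.H763R2.Dm (NoSq floor_const)

variable {c q : ℝ → ℂ} {θ : ℝ → ℝ → ℝ} {g : ℤ}

theorem inj_fib (L : Loop q) (J : Inj q) (s : ℝ) : ∀ z, q z = q s → ∃ n : ℤ, z = s + n := by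
  intro z hz
  refine ⟨⌊z - s⌋, ?_⟩
  by_contra hne
  have h1 : q (z - ⌊z - s⌋) = q z := by
    have := L.per_int (z - ⌊z - s⌋) ⌊z - s⌋
    rw [sub_add_cancel] at this
    exact this.symm
  have h2 := Int.floor_le (z - s)
  have h3 := Int.lt_floor_add_one (z - s)
  rcases lt_or_eq_of_le (show s ≤ z - ⌊z - s⌋ by linarith) with h | h
  · exact J s (z - ⌊z - s⌋) h (by linarith) (by rw [h1, hz])
  · exact hne (by linarith)

theorem par0X (hP : S_P) (hT : S_T1) (hSG : S_SG) (hI : S_I) (L : Loop c) (J : Inj c) (nosq : NoSq (range c)) (A : Ang c (mgc c) θ g) {b : ℝ}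
    (b0 : 0 < b) (b1 : b < 1) (C0 : Cone c 0) (Cb : Cone c b) {l0 lb r0 rb : ℤ}
    (hl0 : KL θ 0 l0) (hlb : KL θ b lb) (hr0 : KR θ 0 r0) (hrb : KR θ b rb) :
    rb - r0 = lb - l0 := by
  obtain ⟨σ0, hσ0, hzc, happ⟩ := exAppS hP L J (u := 1) (v := 0) C0 Cb
    (fun s hs => absurd (hs.1.trans hs.2) (by norm_num))
  obtain ⟨ρ1, hρ1, H1⟩ := hl0
  obtain ⟨ρ2, hρ2, H2⟩ := hlb
  obtain ⟨ρ3, hρ3, H3⟩ := hr0
  obtain ⟨ρ4, hρ4, H4⟩ := hrb
  obtain ⟨σ, hσ, σa, σb⟩ : ∃ σ > 0, σ ≤ σ0 ∧ σ ≤ 1 / 4 := ⟨min σ0 (1 / 4), by positivity,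
    min_le_left _ _, min_le_right _ _⟩
  obtain ⟨ε0, hε0, e0, e1, e2, e3, e4⟩ : ∃ ε0 > 0, ε0 < σ ∧ ε0 < ρ1 ∧ ε0 < ρ2 ∧ ε0 < ρ3 ∧ ε0 < ρ4 := by
    have hm : 0 < min (min (min ρ1 ρ2) (min ρ3 ρ4)) σ := by positivity
    refine ⟨min (min (min ρ1 ρ2) (min ρ3 ρ4)) σ / 2, by positivity, ?_, ?_, ?_, ?_, ?_⟩
    · have := min_le_right (min (min ρ1 ρ2) (min ρ3 ρ4)) σ
      linarith
    · have := (min_le_left (min (min ρ1 ρ2) (min ρ3 ρ4)) σ).trans
        ((min_le_left _ _).trans (min_le_left _ _))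
      linarith
    · have := (min_le_left (min (min ρ1 ρ2) (min ρ3 ρ4)) σ).trans
        ((min_le_left _ _).trans (min_le_right _ _))
      linarith
    · have := (min_le_left (min (min ρ1 ρ2) (min ρ3 ρ4)) σ).trans
        ((min_le_right _ _).trans (min_le_left _ _))
      linarith
    · have := (min_le_left (min (min ρ1 ρ2) (min ρ3 ρ4)) σ).trans
        ((min_le_right _ _).trans (min_le_right _ _))
      linarith
  obtain ⟨ρm, hρm, m1, m2⟩ : ∃ ρm > 0, ρm ≤ ε0 ∧ ρm ≤ σ / 2 :=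
    ⟨min ε0 (σ / 2), by positivity, min_le_left _ _, min_le_right _ _⟩
  obtain ⟨δ, hδ, hK⟩ := Kr_bound L J (mgc_sg L) nosq hρm (by linarith)
  obtain ⟨q, hG, hPL, hJ, hq, qz0, qzb, -⟩ := happ (δ / 24) (by positivity)
  have Lq := hG.L
  have Sq := mgc_sg Lq
  have qz0 := qz0.mono σa
  have qzb := qzb.mono σa
  obtain ⟨cz0, czb⟩ := hzc σ hσ σa
  have close : ∀ x y, Kr ρm x y → ‖GG q (mgc q) x y - GG c (mgc c) x y‖ < ‖GG c (mgc c) x y‖ := by
    intro x y h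
    have := GG_close L Lq hq x y
    have := hK x y h
    linarith
  have T : Two q b σ := ⟨hG, b0, b1, hσ, by linarith, fun x y h hz => by
    have h' : Kr ρm x y := ⟨by linarith [h.1], by linarith [h.2]⟩
    have h0 := (Zq_iff Lq Sq (x := x) (y := y) ⟨by simp only; linarith [h'.1],
      by simp only; linarith [h'.2]⟩).2 hz
    have := close x y h'
    rw [h0, zero_sub, norm_neg] at this
    exact lt_irrefl _ this, qz0, qzb⟩
  obtain ⟨η1, hη1, sh1, sh2⟩ := short hG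
  obtain ⟨θ1, A1⟩ := exLA Lq hη1 sh1
  obtain ⟨θr, Ar⟩ := exLA Lq.rev hη1 sh2
  obtain ⟨τ, hτ, t1, t2⟩ : ∃ τ > 0, τ ≤ σ ∧ 2 * τ ≤ η1 :=
    ⟨min σ (η1 / 2), by positivity, min_le_left _ _, by
      have := min_le_right σ (η1 / 2)
      linarith⟩
  obtain ⟨ka, hka⟩ := A1.fl hτ t2 (qz0.mono t1)
  obtain ⟨kb, hkb⟩ := A1.fl hτ t2 (qzb.mono t1)
  obtain ⟨la, hla⟩ := Ar.fl hτ t2 ((qz0.mono t1).rev Lq)
  obtain ⟨lb', hlb'⟩ := Ar.fl hτ t2 ((qzb.mono t1).rev Lq)
  have hch1 : ka = kb := by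
    refine const_Icc (P := KL θ1) (fun s k k' h h' => h.uniq h') (fun s k h => h.loc) b0.le
      (fun s hs => ?_) (⟨τ, hτ, hka⟩ : KL θ1 0 ka) (⟨τ, hτ, hkb⟩ : KL θ1 b kb)
    obtain ⟨e, f, w, η', H⟩ := exCor Lq hPL (inj_fib Lq hJ s)
    obtain ⟨ρ, hρ, k, hk⟩ := H.half Lq hη1 A1
    exact ⟨k, ρ, hρ, hk⟩
  have hch2 : la = lb' := by
    refine const_Icc (P := fun s k => KL θr (-s) k) (fun s k k' h h' => h.uniq h') (fun s k h => ?_)
      b0.le (fun s hs => ?_) (⟨τ, hτ, hla⟩ : KL θr (-0) la) (⟨τ, hτ, hlb'⟩ : KL θr (-b) lb')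
    · obtain ⟨ρ, hρ, hk⟩ := h.loc
      refine ⟨ρ, hρ, fun s' hs' => hk (-s') ?_⟩
      rwa [show -s' - -s = -(s' - s) by ring, abs_neg]
    · obtain ⟨e, f, w, η', H⟩ := exCor Lq hPL (inj_fib Lq hJ s)
      obtain ⟨ρ, hρ, k, hk⟩ := H.rev.half Lq.rev hη1 Ar
      refine ⟨k, ρ, hρ, fun s' h1 h2 => hk (-s') (fun h => h1 (neg_injective h)) ?_⟩
      rwa [show -s' - -s = -(s' - s) by ring, abs_neg]
  obtain ⟨τ0, hτ0⟩ := hSG q hG hPL hJ
  obtain ⟨j0, hj0⟩ := hI q hG hJ τ0 hτ0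
  obtain ⟨η0, hη0, hW⟩ := hT q b σ j0 T hJ hj0
  obtain ⟨η, hη, n1, n2, n3⟩ : ∃ η > 0, η < η0 ∧ η < τ ∧ η < ε0 := by
    have hm : 0 < min (min η0 τ) ε0 := by positivity
    refine ⟨min (min η0 τ) ε0 / 2, by positivity, ?_, ?_, ?_⟩
    · have := (min_le_left (min η0 τ) ε0).trans (min_le_left _ _)
      linarith
    · have := (min_le_left (min η0 τ) ε0).trans (min_le_right _ _)
      linarith
    · have := min_le_right (min η0 τ) ε0
      linarith
  obtain ⟨B, hWk⟩ := hW η hη n1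
  -- the vertical sides
  have side : ∀ s : ℝ, Zn q s σ → Zn c s σ → (∀ r ∈ Icc η (1 - η), GG q (mgc q) s (s + r) ≠ 0) →
      ∀ κL κR k1 l1 : ℤ, (⌊θ s (s + ε0) / Real.pi⌋ = κL) → (⌊θ s (s + (1 - ε0)) / Real.pi⌋ = κR) →
      ⌊θ1 s (s + η) / Real.pi⌋ = k1 → ⌊θr (-s) (-s + η) / Real.pi⌋ = l1 → ∃ m1 m2 j : ℤ,
      (l1 + 2 * m2) - (k1 + 2 * m1) = κR - κL ∧ k1 + 2 * m1 = κL + 2 * j ∧
      (dl (fun r => GG q (mgc q) s (s + r)) η (1 - η)).im =
        (θr (-s) (-s + η) + m2 * (2 * Real.pi)) - (θ1 s (s + η) + m1 * (2 * Real.pi)) := by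
    intro s zq zc hne κL κR k1 l1 hκL hκR hk1 hl1
    have hGc : Continuous fun r => GG q (mgc q) s (s + r) :=
      (GG_cont Lq Sq.cont).comp (f := fun r : ℝ => ((s, s + r) : ℝ × ℝ)) (by fun_prop)
    obtain ⟨K, hKc, hKe⟩ := ex_log (f := fun r => GG q (mgc q) s (s + r)) (a := η) (b := 1 - η)
      (by linarith) hGc hne
    have hex : ∀ r ∈ Icc η (1 - η), ∃ ρ > 0, mgc q (DD q s (s + r)) = ρ * Real.cos (K r).im ∧
        mgc q (CC q s (s + r)) = ρ * Real.sin (K r).im := by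
      intro r hr
      have e := hKe r hr
      have e5 := congrArg Complex.re e
      have e6 := congrArg Complex.im e
      rw [exp_re] at e5
      rw [exp_im] at e6
      refine ⟨Real.exp (K r).re, Real.exp_pos _, ?_, ?_⟩
      · rw [e5]; simp [GG]
      · rw [e6]; simp [GG]
    have fwd : ∀ {p : ℝ → ℂ} (r : ℝ), Zn p s σ → 0 < r → r < σ →
        0 < mgc p (DD p s (s + r)) * mgc p (CC p s (s + r)) := by
      intro p r hz h1 h2
      exact (hz s (s + r) (by simpa using hσ) (by rw [add_sub_cancel_left, abs_of_pos h1]; exact h2)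
        (by linarith)).1
    have bwd : ∀ {p : ℝ → ℂ} (_ : Loop p) (r : ℝ), Zn p s σ → 1 - σ < r → r < 1 →
        0 < mgc p (DD p s (s + r)) * mgc p (CC p s (s + r)) := by
      intro p Lp r hz h1 h2
      have := (hz (s + r - 1) s (by
        rw [show s + r - 1 - s = -(1 - r) by ring, abs_neg, abs_of_pos (by linarith)]; linarith)
        (by simpa using hσ) (by linarith)).2
      rw [← DD_per1 Lp, ← CC_per1 Lp, sub_add_cancel] at this
      exact this
    obtain ⟨v1, j, v2⟩ := vert (q := q) A (s := s) (ε0 := ε0) (η := η) hη n3.le (by linarith)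
      hκL hκR
      (fun r hr => close s (s + r) ⟨by linarith [hr.1], by linarith [hr.2]⟩)
      (fwd ε0 zc hε0 e0) (bwd L (1 - ε0) zc (by linarith) (by linarith))
      (fun r h1 h2 => fwd r zq h1 (by linarith))
      (fun r h1 h2 => bwd Lq r zq (by linarith) h2)
      (φ := fun r => (K r).im) ((continuous_im.comp hKc).continuousOn) hex
    obtain ⟨ρa, hρa, a1, a2⟩ := hex η ⟨le_rfl, by linarith⟩
    obtain ⟨ρb, hρb, a3, a4⟩ := hex (1 - η) ⟨by linarith, le_rfl⟩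
    obtain ⟨ρc, hρc, a5, a6⟩ := A1.ex s (s + η) (by linarith) (by linarith)
    obtain ⟨ρd, hρd, a7, a8⟩ := Ar.ex (-s) (-s + η) (by linarith) (by linarith)
    obtain ⟨m1, hm1⟩ := same_ang hρa hρc (a1.symm.trans a5) (a2.symm.trans a6)
    rw [mgc_rev Lq, rev_DD Lq] at a7
    rw [mgc_rev Lq, rev_CC Lq] at a8
    obtain ⟨m2, hm2⟩ := same_ang hρb hρd (a3.symm.trans a7) (a4.symm.trans a8)
    refine ⟨m1, m2, j, ?_, ?_, ?_⟩
    · rw [← v1, fl_add hm1, fl_add hm2, hk1, hl1]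
    · rw [← v2, fl_add hm1, hk1]
    · rw [dl_im (φ := fun r => (K r).im) (by linarith) hGc hne (continuous_im.comp hKc).continuousOn
        (fun r hr => by
          obtain ⟨ρ, hρ, x1, x2⟩ := hex r hr
          exact ⟨ρ, hρ, by unfold GG; rw [x1, x2]⟩), hm1, hm2]
  obtain ⟨p1, p2, j, E1, E2, E3⟩ := side 0 qz0 cz0 B.h3 l0 r0 ka la
    (H1 0 (0 + ε0) (by simpa using hρ1) (by simpa [abs_of_pos hε0] using e1) (by linarith))
    (by
      have := H3 (0 - ε0) 0 (by simpa [abs_of_pos hε0] using e3) (by simpa using hρ3) (by linarith)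
      rwa [show 0 - ε0 + 1 = 0 + (1 - ε0) by ring] at this)
    (hka 0 (0 + η) (by simpa using hτ) (by simpa [abs_of_pos hη] using n2) (by linarith))
    (hla (-0) (-0 + η) (by simpa using hτ) (by simpa [abs_of_pos hη] using n2) (by linarith))
  obtain ⟨p1', p2', j', E1', E2', E3'⟩ := side b qzb czb B.h4 lb rb kb lb'
    (H2 b (b + ε0) (by simpa using hρ2) (by simpa [abs_of_pos hε0] using e2) (by linarith))
    (by
      have := H4 (b - ε0) b (by
        rw [show b - ε0 - b = -ε0 by ring, abs_neg, abs_of_pos hε0]; exact e4)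
        (by simpa using hρ4) (by linarith)
      rwa [show b - ε0 + 1 = b + (1 - ε0) by ring] at this)
    (hkb b (b + η) (by simpa using hτ) (by simpa [abs_of_pos hη] using n2) (by linarith))
    (hlb' (-b) (-b + η) (by simpa using hτ) (by
      rw [show -b + η - -b = η by ring, abs_of_pos hη]; exact n2) (by linarith))
  have hGc : Continuous fun p : ℝ × ℝ => GG q (mgc q) p.1 p.2 := GG_cont Lq Sq.cont
  have D1 : (dl (fun x => GG q (mgc q) x (x + η)) 0 b).im = θ1 b (b + η) - θ1 0 (0 + η) := by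
    refine dl_im (φ := fun x => θ1 x (x + η)) b0.le
      (hGc.comp (f := fun x : ℝ => ((x, x + η) : ℝ × ℝ)) (by fun_prop)) B.h1 ?_ (fun x hx => ?_)
    · refine A1.cont.comp (f := fun x : ℝ => ((x, x + η) : ℝ × ℝ)) (by fun_prop) ?_
      intro x hx
      exact ⟨by simp only; linarith, by simp only; linarith⟩
    · obtain ⟨ρ, hρ, x1, x2⟩ := A1.ex x (x + η) (by linarith) (by linarith)
      refine ⟨ρ, hρ, ?_⟩
      change GG q (mgc q) x (x + η) = _
      unfold GG; rw [x1, x2]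
  have D2 : (dl (fun x => GG q (mgc q) x (x + (1 - η))) 0 b).im =
      θr (-b) (-b + η) - θr (-0) (-0 + η) := by
    refine dl_im (φ := fun x => θr (-x) (-x + η)) b0.le
      (hGc.comp (f := fun x : ℝ => ((x, x + (1 - η)) : ℝ × ℝ)) (by fun_prop)) B.h2 ?_
      (fun x hx => ?_)
    · refine Ar.cont.comp (f := fun x : ℝ => ((-x, -x + η) : ℝ × ℝ)) (by fun_prop) ?_
      intro x hx
      exact ⟨by simp only; linarith, by simp only; linarith⟩
    · obtain ⟨ρ, hρ, x1, x2⟩ := Ar.ex (-x) (-x + η) (by linarith) (by linarith)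
      rw [mgc_rev Lq, rev_DD Lq] at x1
      rw [mgc_rev Lq, rev_CC Lq] at x2
      refine ⟨ρ, hρ, ?_⟩
      change GG q (mgc q) x (x + (1 - η)) = _
      unfold GG; rw [x1, x2]
  have hWi := congrArg Complex.im hWk
  unfold Wd at hWi
  rw [sub_im, sub_im, add_im, D1, D2, E3, E3', zero_im] at hWi
  have hπ := Real.pi_pos
  have hint : (((p2' - p1') - (p2 - p1) : ℤ) : ℝ) * (2 * Real.pi) = 0 := by
    push_cast
    linarith
  have hint2 : (((p2' - p1') - (p2 - p1) : ℤ) : ℝ) = 0 := by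
    rcases mul_eq_zero.1 hint with h | h
    · exact h
    · exact absurd h (by positivity)
  have hint3 : (p2' - p1') - (p2 - p1) = 0 := by exact_mod_cast hint2
  linarith

/-- the numbers of half turns on the two sides agree -/
theorem parityX (hP : S_P) (hT : S_T1) (hSG : S_SG) (hI : S_I) (L : Loop c) (J : Inj c) (nosq : NoSq (range c)) (A : Ang c (mgc c) θ g) {a b : ℝ}
    (hab : a < b) (hba : b < a + 1) (Ca : Cone c a) (Cb : Cone c b) {la lb ra rb : ℤ}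
    (hla : KL θ a la) (hlb : KL θ b lb) (hra : KR θ a ra) (hrb : KR θ b rb) :
    rb - ra = lb - la := by
  have hm : mgc (fun t => c (t + a)) = mgc c := funext (mgc_shift L a)
  have A' := A.shift a
  rw [← hm] at A'
  have e0 : a = 0 + a := by ring
  have eb : b = (b - a) + a := by ring
  rw [e0] at hla hra Ca
  rw [eb] at hlb hrb Cb
  exact par0X hP hT hSG hI (L.shift a) (J.shift a) (by rw [range_shift]; exact nosq) A' (b := b - a)
    (by linarith) (by linarith) Ca.shift Cb.shift hla.shift hlb.shift hra.shift hrb.shift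

theorem mono0X (hP : S_P) (hT : S_T2) (hSG : S_SG) (hI : S_I) (L : Loop c) (J : Inj c) (nosq : NoSq (range c)) (A : Ang c (mgc c) θ g) {b : ℝ}
    (b0 : 0 < b) (b1 : b < 1) (C0 : Cone c 0) (Cb : Cone c b) (hM : ∀ s ∈ Icc 0 b, Mon c s)
    {l0 lb : ℤ} (hl0 : KL θ 0 l0) (hlb : KL θ b lb) : lb = l0 := by
  obtain ⟨σ0, hσ0, hzc, happ⟩ := exAppS hP L J C0 Cb hM
  obtain ⟨ρ1, hρ1, H1⟩ := hl0
  obtain ⟨ρ2, hρ2, H2⟩ := hlb
  obtain ⟨σ, hσ, σa, σb, σc, σd⟩ : ∃ σ > 0, σ ≤ σ0 ∧ σ ≤ 1 / 4 ∧ σ ≤ ρ1 ∧ σ ≤ ρ2 :=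
    ⟨min (min σ0 (1 / 4)) (min ρ1 ρ2), by positivity,
      (min_le_left _ _).trans (min_le_left _ _), (min_le_left _ _).trans (min_le_right _ _),
      (min_le_right _ _).trans (min_le_left _ _), (min_le_right _ _).trans (min_le_right _ _)⟩
  obtain ⟨ε0, hε⟩ : ∃ ε0, ε0 = σ / 2 := ⟨_, rfl⟩
  have hε0 : 0 < ε0 := by rw [hε]; positivity
  obtain ⟨δ, hδ, hK⟩ := Kr_bound L J (mgc_sg L) nosq hε0 (by linarith)
  obtain ⟨q, hG, hPL, hJ, hq, qz0, qzb, qm⟩ := happ (δ / 24) (by positivity)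
  have Lq := hG.L
  have Sq := mgc_sg Lq
  have qz0 := qz0.mono σa
  have qzb := qzb.mono σa
  have qm' : ∀ s ∈ Icc 0 b, ∃ w, CG 0 q s w σ := fun s hs => by
    obtain ⟨w, hw⟩ := qm s hs
    exact ⟨w, fun x y hx hy hxy => hw x y (hx.trans_le σa) (hy.trans_le σa) hxy⟩
  obtain ⟨cz0, czb⟩ := hzc σ hσ σa
  have close : ∀ x y, Kr ε0 x y → ‖GG q (mgc q) x y - GG c (mgc c) x y‖ < ‖GG c (mgc c) x y‖ := by
    intro x y h
    have := GG_close L Lq hq x y
    have := hK x y h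
    linarith
  have T : Two q b σ := ⟨hG, b0, b1, hσ, by linarith, fun x y h hz => by
    rw [← hε] at h
    have h0 := (Zq_iff Lq Sq (x := x) (y := y) ⟨by simp only; linarith [h.1],
      by simp only; linarith [h.2]⟩).2 hz
    have := close x y h
    rw [h0, zero_sub, norm_neg] at this
    exact lt_irrefl _ this, qz0, qzb⟩
  obtain ⟨η1, hη1, sh1, -⟩ := short hG
  obtain ⟨θ1, A1⟩ := exLA Lq hη1 sh1
  obtain ⟨τ, hτ, t1, t2⟩ : ∃ τ > 0, τ ≤ σ ∧ 2 * τ ≤ η1 :=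
    ⟨min σ (η1 / 2), by positivity, min_le_left _ _, by
      have := min_le_right σ (η1 / 2)
      linarith⟩
  obtain ⟨ka, hka⟩ := A1.fl hτ t2 (qz0.mono t1)
  obtain ⟨kb, hkb⟩ := A1.fl hτ t2 (qzb.mono t1)
  have hch : ka = kb := by
    refine const_Icc (P := KL θ1) (fun s k k' h h' => h.uniq h') (fun s k h => h.loc) b0.le
      (fun s hs => ?_) (⟨τ, hτ, hka⟩ : KL θ1 0 ka) (⟨τ, hτ, hkb⟩ : KL θ1 b kb)
    obtain ⟨e, f, w, η', H⟩ := exCor Lq hPL (inj_fib Lq hJ s)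
    obtain ⟨ρ, hρ, k, hk⟩ := H.half Lq hη1 A1
    exact ⟨k, ρ, hρ, hk⟩
  obtain ⟨τ0, hτ0⟩ := hSG q hG hPL hJ
  obtain ⟨j0, hj0⟩ := hI q hG hJ τ0 hτ0
  obtain ⟨η0, hη0, hW⟩ := hT q b σ j0 T hJ hj0 qm'
  obtain ⟨η, hη, n1, n2, n3⟩ : ∃ η > 0, η < η0 ∧ η < τ ∧ η < ε0 := by
    have hm : 0 < min (min η0 τ) ε0 := by positivity
    refine ⟨min (min η0 τ) ε0 / 2, by positivity, ?_, ?_, ?_⟩
    · have := (min_le_left (min η0 τ) ε0).trans (min_le_left _ _)
      linarith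
    · have := (min_le_left (min η0 τ) ε0).trans (min_le_right _ _)
      linarith
    · have := min_le_right (min η0 τ) ε0
      linarith
  obtain ⟨B, hWk⟩ := hW η hη n1
  rw [← hε] at B hWk
  have hGc : Continuous fun p : ℝ × ℝ => GG q (mgc q) p.1 p.2 := GG_cont Lq Sq.cont
  -- the upper side
  have hGt : Continuous fun x => GG q (mgc q) x (x + ε0) :=
    hGc.comp (f := fun x : ℝ => ((x, x + ε0) : ℝ × ℝ)) (by fun_prop)
  obtain ⟨K, hKc, hKe⟩ := ex_log (f := fun x => GG q (mgc q) x (x + ε0)) b0.le hGt B.h2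
  have hexK : ∀ x ∈ Icc 0 b, ∃ ρ > 0, mgc q (DD q x (x + ε0)) = ρ * Real.cos (K x).im ∧
      mgc q (CC q x (x + ε0)) = ρ * Real.sin (K x).im := by
    intro x hx
    have e := hKe x hx
    have e5 := congrArg Complex.re e
    have e6 := congrArg Complex.im e
    rw [exp_re] at e5
    rw [exp_im] at e6
    refine ⟨Real.exp (K x).re, Real.exp_pos _, ?_, ?_⟩
    · rw [e5]; simp [GG]
    · rw [e6]; simp [GG]
  have fwd : ∀ {p : ℝ → ℂ} {s : ℝ} (r : ℝ), Zn p s σ → 0 < r → r < σ →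
      0 < mgc p (DD p s (s + r)) * mgc p (CC p s (s + r)) := by
    intro p s r hz h1 h2
    exact (hz s (s + r) (by simpa using hσ) (by rw [add_sub_cancel_left, abs_of_pos h1]; exact h2)
      (by linarith)).1
  have trig : ∀ {M1 M2 x : ℝ}, (∃ ρ > 0, M1 = ρ * Real.cos x ∧ M2 = ρ * Real.sin x) →
      0 < M1 * M2 → 0 < Real.cos x * Real.sin x := by
    rintro M1 M2 x ⟨ρ, hρ, e1, e2⟩ h
    rw [e1, e2, show ρ * Real.cos x * (ρ * Real.sin x) =
      ρ * ρ * (Real.cos x * Real.sin x) by ring] at h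
    exact (mul_pos_iff_of_pos_left (mul_pos hρ hρ)).1 h
  have m0 : (0:ℝ) ∈ Icc 0 b := ⟨le_rfl, b0.le⟩
  have mb : b ∈ Icc 0 b := ⟨b0.le, le_rfl⟩
  have hk' : ContinuousOn (fun x => θ x (x + ε0)) (Icc 0 b) := by
    refine A.cont.comp (f := fun x : ℝ => ((x, x + ε0) : ℝ × ℝ)) (by fun_prop) ?_
    intro x hx
    exact ⟨by simp only; linarith, by simp only; linarith⟩
  have top := cmp_two (V := Icc 0 b) isPreconnected_Icc (f := fun x => (K x).im)
    (k := fun x => θ x (x + ε0)) (continuous_im.comp hKc).continuousOn hk'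
    (fun x hx => by
      obtain ⟨ρ, hρ, e1, e2⟩ := hexK x hx
      obtain ⟨t, ht, e3, e4⟩ := A.ex x (x + ε0) (by linarith) (by linarith)
      have h := close x (x + ε0) ⟨le_rfl, by linarith⟩
      unfold GG at h
      rw [e1, e2, e3, e4] at h
      exact cos_close hρ ht h) m0 mb
    (trig (hexK 0 m0) (fwd ε0 qz0 hε0 (by linarith)))
    (trig (A.ex 0 (0 + ε0) (by linarith) (by linarith)) (fwd ε0 cz0 hε0 (by linarith)))
    (trig (hexK b mb) (fwd ε0 qzb hε0 (by linarith)))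
    (trig (A.ex b (b + ε0) (by linarith) (by linarith)) (fwd ε0 czb hε0 (by linarith)))
  have v0 := H1 0 (0 + ε0) (by simpa using hρ1) (by simpa [abs_of_pos hε0] using (by linarith : ε0 < ρ1))
    (by linarith)
  have vb := H2 b (b + ε0) (by simpa using hρ2) (by simpa [abs_of_pos hε0] using (by linarith : ε0 < ρ2))
    (by linarith)
  rw [v0, vb] at top
  -- the vertical sides
  have side : ∀ s ∈ Icc 0 b, Zn q s σ → (∀ r ∈ Icc η ε0, GG q (mgc q) s (s + r) ≠ 0) →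
      ∀ k1 : ℤ, ⌊θ1 s (s + η) / Real.pi⌋ = k1 → ∃ m1 m2 : ℤ,
      k1 + 2 * m1 = ⌊(K s).im / Real.pi⌋ + 2 * m2 ∧
      (dl (fun r => GG q (mgc q) s (s + r)) η ε0).im =
        ((K s).im + m2 * (2 * Real.pi)) - (θ1 s (s + η) + m1 * (2 * Real.pi)) := by
    intro s hs zq hne k1 hk1
    have hGs : Continuous fun r => GG q (mgc q) s (s + r) :=
      hGc.comp (f := fun r : ℝ => ((s, s + r) : ℝ × ℝ)) (by fun_prop)
    obtain ⟨E, hE, hEe⟩ := ex_log (f := fun r => GG q (mgc q) s (s + r)) n3.le hGs hne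
    have hex : ∀ r ∈ Icc η ε0, ∃ ρ > 0, mgc q (DD q s (s + r)) = ρ * Real.cos (E r).im ∧
        mgc q (CC q s (s + r)) = ρ * Real.sin (E r).im := by
      intro r hr
      have e := hEe r hr
      have e5 := congrArg Complex.re e
      have e6 := congrArg Complex.im e
      rw [exp_re] at e5
      rw [exp_im] at e6
      refine ⟨Real.exp (E r).re, Real.exp_pos _, ?_, ?_⟩
      · rw [e5]; simp [GG]
      · rw [e6]; simp [GG]
    have f1 : ⌊(E η).im / Real.pi⌋ = ⌊(E ε0).im / Real.pi⌋ :=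
      floor_pre (V := Icc η ε0) isPreconnected_Icc (f := fun r => (E r).im)
        (continuous_im.comp hE).continuousOn (fun r hr =>
        right_ne_zero_of_mul (trig (hex r hr) (fwd r zq (by linarith [hr.1]) (by linarith [hr.2]))).ne')
        ⟨le_rfl, n3.le⟩ ⟨n3.le, le_rfl⟩
    obtain ⟨ρa, hρa, a1, a2⟩ := hex η ⟨le_rfl, n3.le⟩
    obtain ⟨ρb, hρb, a3, a4⟩ := hex ε0 ⟨n3.le, le_rfl⟩
    obtain ⟨ρc, hρc, a5, a6⟩ := A1.ex s (s + η) (by linarith) (by linarith)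
    obtain ⟨ρd, hρd, a7, a8⟩ := hexK s hs
    obtain ⟨m1, hm1⟩ := same_ang hρa hρc (a1.symm.trans a5) (a2.symm.trans a6)
    obtain ⟨m2, hm2⟩ := same_ang hρb hρd (a3.symm.trans a7) (a4.symm.trans a8)
    refine ⟨m1, m2, ?_, ?_⟩
    · rw [← fl_add hm2, ← f1, fl_add hm1, hk1]
    · rw [dl_im (φ := fun r => (E r).im) n3.le hGs hne (continuous_im.comp hE).continuousOn
        (fun r hr => by
          obtain ⟨ρ, hρ, x1, x2⟩ := hex r hr
          exact ⟨ρ, hρ, by unfold GG; rw [x1, x2]⟩), hm1, hm2]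
  obtain ⟨p1, p2, E1, E3⟩ := side 0 m0 qz0 B.h3 ka
    (hka 0 (0 + η) (by simpa using hτ) (by simpa [abs_of_pos hη] using n2) (by linarith))
  obtain ⟨p1', p2', E1', E3'⟩ := side b mb qzb B.h4 kb
    (hkb b (b + η) (by simpa using hτ) (by simpa [abs_of_pos hη] using n2) (by linarith))
  have D1 : (dl (fun x => GG q (mgc q) x (x + η)) 0 b).im = θ1 b (b + η) - θ1 0 (0 + η) := by
    refine dl_im (φ := fun x => θ1 x (x + η)) b0.le
      (hGc.comp (f := fun x : ℝ => ((x, x + η) : ℝ × ℝ)) (by fun_prop)) B.h1 ?_ (fun x hx => ?_)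
    · refine A1.cont.comp (f := fun x : ℝ => ((x, x + η) : ℝ × ℝ)) (by fun_prop) ?_
      intro x hx
      exact ⟨by simp only; linarith, by simp only; linarith⟩
    · obtain ⟨ρ, hρ, x1, x2⟩ := A1.ex x (x + η) (by linarith) (by linarith)
      refine ⟨ρ, hρ, ?_⟩
      change GG q (mgc q) x (x + η) = _
      unfold GG; rw [x1, x2]
  have D2 : (dl (fun x => GG q (mgc q) x (x + ε0)) 0 b).im = (K b).im - (K 0).im := by
    refine dl_im (φ := fun x => (K x).im) b0.le hGt B.h2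
      (continuous_im.comp hKc).continuousOn (fun x hx => ?_)
    obtain ⟨ρ, hρ, x1, x2⟩ := hexK x hx
    exact ⟨ρ, hρ, by unfold GG; rw [x1, x2]⟩
  have hWi := congrArg Complex.im hWk
  unfold Wd at hWi
  rw [sub_im, sub_im, add_im, D1, D2, E3, E3', zero_im] at hWi
  have hπ := Real.pi_pos
  have hint : (((p2' - p1') - (p2 - p1) : ℤ) : ℝ) * (2 * Real.pi) = 0 := by
    push_cast
    linarith
  have hint2 : (((p2' - p1') - (p2 - p1) : ℤ) : ℝ) = 0 := by
    rcases mul_eq_zero.1 hint with h | h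
    · exact h
    · exact absurd h (by positivity)
  have hint3 : (p2' - p1') - (p2 - p1) = 0 := by exact_mod_cast hint2
  linarith

/-- along a locally monotone arc the number of half turns does not change -/
theorem monoX (hP : S_P) (hT : S_T2) (hSG : S_SG) (hI : S_I) (L : Loop c) (J : Inj c) (nosq : NoSq (range c)) (A : Ang c (mgc c) θ g) {a b : ℝ}
    (hab : a < b) (hba : b < a + 1) (Ca : Cone c a) (Cb : Cone c b)
    (hM : ∀ s ∈ Icc a b, Mon c s) {la lb : ℤ} (hla : KL θ a la) (hlb : KL θ b lb) :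
    lb = la := by
  have hm : mgc (fun t => c (t + a)) = mgc c := funext (mgc_shift L a)
  have A' := A.shift a
  rw [← hm] at A'
  have e0 : a = 0 + a := by ring
  have eb : b = (b - a) + a := by ring
  rw [e0] at hla Ca
  rw [eb] at hlb Cb
  refine mono0X hP hT hSG hI (L.shift a) (J.shift a) (by rw [range_shift]; exact nosq) A' (b := b - a)
    (by linarith) (by linarith) Ca.shift Cb.shift (fun s hs => ?_) hla.shift hlb.shift
  obtain ⟨ρ, hρ, w, hw⟩ := hM (s + a) ⟨by linarith [hs.1], by linarith [hs.2]⟩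
  refine ⟨ρ, hρ, w, fun x y hx hy hxy => hw _ _ ?_ ?_ (by linarith)⟩
  · rwa [show x + a - (s + a) = x - s by ring]
  · rwa [show y + a - (s + a) = y - s by ring]


end Pool.Agent.Y535.PEG
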