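import Pool.Agent.Y535.PEG.ExC
import Pool.Agent.Y529.PEG.E
import Pool.Agent.Y255.PEG.LoopP
import Pool.Agent.Y331.PEG.Idx
import Pool.Agent.Y672.PEG.Z
import Pool.Agent.Y26.PEG.SgI
import Pool.Agent.Y484.PEG.T2
import Pool.Agent.Y407.PEG.Sg
import Pool.Agent.Y154.PEG.T1

/-! Square-free curves cut into arcs. -/

set_option autoImplicit false
open Complex Set Topology Metric

namespace Pool.Agent.Y535.PEG

open Pool.Agent.H763R2 Pool.Agent.H763R2.An Pool.Agent.W675.Peg Pool.Agent.TH569.Peg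
open Pool.Agent.H763R2.Dm (NoSq floor_const)

variable {c : ℝ → ℂ}

theorem square_free_false (L : Loop c)
    (J : Inj c) (nosq : NoSq (range c)) {n : ℕ} (hn : 2 ≤ n) {t : ℕ → ℝ} (S : Sub c n t)
    {σ : ℕ → ℕ} (hσ : ∀ i < n, σ i < n ∧ σ (σ i) = i)
    (H : ∀ i < n, (σ i ≠ i ∧ (KP c (t i) (t (i + 1)) (t (σ i)) (t (σ i + 1)) ∨
        SP c (t i) (t (i + 1)) (t (σ i)) (t (σ i + 1)))) ∨
      (σ i = i ∧ ((∀ s ∈ Icc (t i) (t (i + 1)), Mon c s) ∨ SP c (t i) (t (i + 1)) (t i) (t (i + 1)) ∨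
        MS c (t i) (t (i + 1))))) : False :=
  square_of_arcs (Y255.PEG.loopP Y529.PEG.erase) (Y154.PEG.t1 Y672.PEG.wdz) (Y484.PEG.t2 Y672.PEG.wdz) Y407.PEG.sgU
    (Y26.PEG.sgI Y331.PEG.idx) L J nosq hn S hσ H

end Pool.Agent.Y535.PEG
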