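import Pool.Agent.Y535.PEG.Mir

/-! Charges of the arcs of a curve without inscribed squares: all rules. -/

set_option autoImplicit false
open Complex Set Topology Metric

namespace Pool.Agent.Y535.PEG

open Pool.Agent.H763R2 Pool.Agent.H763R2.An Pool.Agent.W675.Peg Pool.Agent.TH569.Peg
open Pool.Agent.H763R2.Dm (NoSq floor_const)

variable {c : ℝ → ℂ} {θ : ℝ → ℝ → ℝ} {g : ℤ}

/-- a path of chords from short chords at `s` to short chords at `t` -/
structure Pth (p : ℝ → ℝ × ℝ) (s t ρ : ℝ) : Prop where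
  cont : ContinuousOn p (Icc 0 1)
  lt : ∀ τ ∈ Icc (0:ℝ) 1, (p τ).1 < (p τ).2 ∧ (p τ).2 < (p τ).1 + 1
  s1 : |(p 0).1 - s| < ρ
  s2 : |(p 0).2 - s| < ρ
  t1 : |(p 1).1 - t| < ρ
  t2 : |(p 1).2 - t| < ρ

theorem fl_sh {x : ℝ} (h : 0 < Real.cos x * Real.sin x) :
    ⌊(x + Real.pi / 2) / Real.pi⌋ = ⌊x / Real.pi⌋ := by
  have hπ := Real.pi_pos
  obtain ⟨h1, h2⟩ := half_fl h
  rw [Int.floor_eq_iff, le_div_iff₀ hπ, div_lt_iff₀ hπ]
  constructor <;> linarith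

theorem free_eq (L : Loop c) (J : Inj c) (A : Ang c (mgc c) θ g) {s t : ℝ} (Cs : Cone c s)
    (Ct : Cone c t) {ls lt : ℤ} (h1 : KL θ s ls) (h2 : KL θ t lt)
    (hp : ∀ ρ > 0, ∃ p, Pth p s t ρ ∧
      ((∀ τ ∈ Icc (0:ℝ) 1, CC c (p τ).1 (p τ).2 ∉ range c) ∨
       (∀ τ ∈ Icc (0:ℝ) 1, DD c (p τ).1 (p τ).2 ∉ range c))) : ls = lt := by
  obtain ⟨r1, hr1, sa⟩ := cone_sign L J Cs
  obtain ⟨r2, hr2, sb⟩ := cone_sign L J Ct
  obtain ⟨r3, hr3, ka⟩ := h1
  obtain ⟨r4, hr4, kb⟩ := h2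
  obtain ⟨ρ, hρ, l1, l2, l3, l4⟩ : ∃ ρ > 0, ρ ≤ r1 ∧ ρ ≤ r2 ∧ ρ ≤ r3 ∧ ρ ≤ r4 :=
    ⟨min (min r1 r2) (min r3 r4), by positivity, (min_le_left _ _).trans (min_le_left _ _),
      (min_le_left _ _).trans (min_le_right _ _), (min_le_right _ _).trans (min_le_left _ _),
      (min_le_right _ _).trans (min_le_right _ _)⟩
  obtain ⟨p, P, H⟩ := hp ρ hρ
  have m0 : (0:ℝ) ∈ Icc (0:ℝ) 1 := ⟨le_rfl, zero_le_one⟩
  have m1 : (1:ℝ) ∈ Icc (0:ℝ) 1 := ⟨zero_le_one, le_rfl⟩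
  have nz : ∀ z, z ∉ range c → mgc c z ≠ 0 := fun z h hz => h ((mgc_sg L).zero L |>.1 hz)
  have hf : ContinuousOn (fun τ => θ (p τ).1 (p τ).2) (Icc 0 1) :=
    A.cont.comp P.cont (fun τ hτ => P.lt τ hτ)
  have e0 := ka _ _ (P.s1.trans_le l3) (P.s2.trans_le l3) (P.lt 0 m0).1
  have e1 := kb _ _ (P.t1.trans_le l4) (P.t2.trans_le l4) (P.lt 1 m1).1
  rcases H with H | H
  · have := floor_pre (V := Icc (0:ℝ) 1) isPreconnected_Icc hf (fun τ hτ => by
      obtain ⟨r, hr, -, e2⟩ := A.ex _ _ (P.lt τ hτ).1 (P.lt τ hτ).2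
      have h2 := nz _ (H τ hτ)
      rw [e2] at h2
      exact right_ne_zero_of_mul h2) m0 m1
    rw [← e0, ← e1]; exact this
  · have := floor_pre (V := Icc (0:ℝ) 1) isPreconnected_Icc
      (f := fun τ => θ (p τ).1 (p τ).2 + Real.pi / 2) (hf.add continuousOn_const) (fun τ hτ => by
      obtain ⟨r, hr, e2, -⟩ := A.ex _ _ (P.lt τ hτ).1 (P.lt τ hτ).2
      have h2 := nz _ (H τ hτ)
      rw [e2] at h2
      rw [Real.sin_add_pi_div_two]
      exact right_ne_zero_of_mul h2) m0 m1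
    rw [fl_sh (cs_pos A (P.lt 0 m0).1 (P.lt 0 m0).2 (sa _ _ (P.s1.trans_le l1) (P.s2.trans_le l1)
      (P.lt 0 m0).1).1), fl_sh (cs_pos A (P.lt 1 m1).1 (P.lt 1 m1).2 (sb _ _ (P.t1.trans_le l2)
      (P.t2.trans_le l2) (P.lt 1 m1).1).1)] at this
    rw [← e0, ← e1]; exact this

theorem Pth.rev {p : ℝ → ℝ × ℝ} {s t ρ : ℝ} (P : Pth p s t ρ) :
    Pth (fun τ => (-(p τ).2, -(p τ).1)) (-s) (-t) ρ where
  cont := (continuous_snd.comp_continuousOn P.cont).neg.prodMk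
    (continuous_fst.comp_continuousOn P.cont).neg
  lt τ hτ := by
    have := P.lt τ hτ
    constructor <;> simp only <;> linarith [this.1, this.2]
  s1 := by
    simp only
    rw [show -(p 0).2 - -s = -((p 0).2 - s) by ring, abs_neg]; exact P.s2
  s2 := by
    simp only
    rw [show -(p 0).1 - -s = -((p 0).1 - s) by ring, abs_neg]; exact P.s1
  t1 := by
    simp only
    rw [show -(p 1).2 - -t = -((p 1).2 - t) by ring, abs_neg]; exact P.t2
  t2 := by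
    simp only
    rw [show -(p 1).1 - -t = -((p 1).1 - t) by ring, abs_neg]; exact P.t1

theorem free_eqR (L : Loop c) (J : Inj c) (A : Ang c (mgc c) θ g) {s t : ℝ} (Cs : Cone c s)
    (Ct : Cone c t) {ls lt : ℤ} (h1 : KR θ s ls) (h2 : KR θ t lt)
    (hp : ∀ ρ > 0, ∃ p, Pth p s t ρ ∧
      ((∀ τ ∈ Icc (0:ℝ) 1, CC c (p τ).2 (p τ).1 ∉ range c) ∨
       (∀ τ ∈ Icc (0:ℝ) 1, DD c (p τ).2 (p τ).1 ∉ range c))) : ls = lt := by
  refine free_eq L.rev (J.rev L) (Ang.rev L A) Cs.rev Ct.rev h1.rev h2.rev (fun ρ hρ => ?_)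
  obtain ⟨p, P, H⟩ := hp ρ hρ
  refine ⟨_, P.rev, ?_⟩
  rw [range_rev]
  rcases H with H | H
  · left
    intro τ hτ
    have := H τ hτ
    rw [CC_eq] at this ⊢
    simpa only [neg_neg] using this
  · right
    intro τ hτ
    have := H τ hτ
    rw [DD_eq] at this ⊢
    simpa only [neg_neg] using this

/-- on the left of the curve near `s` -/
def OL (c : ℝ → ℂ) (s : ℝ) (z : ℂ) : Prop := ∀ ρ > 0, ∃ x y, |x - s| < ρ ∧ |y - s| < ρ ∧ x < y ∧
  JoinedIn (range c)ᶜ z (c y + I * (c y - c x))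

/-- on the right of the curve near `s` -/
def OR (c : ℝ → ℂ) (s : ℝ) (z : ℂ) : Prop := ∀ ρ > 0, ∃ x y, |x - s| < ρ ∧ |y - s| < ρ ∧ x < y ∧
  JoinedIn (range c)ᶜ z (c x - I * (c y - c x))

theorem mirror_evenR (L : Loop c) (J : Inj c) (nosq : NoSq (range c)) {z0 : ℂ} (h0 : 0 < mgc c z0)
    (A : Ang c (mgc c) θ g) {a b : ℝ} (h : AR c a b) {la lb : ℤ} (h1 : KR θ a la)
    (h2 : KR θ b lb) {u v : ℂ} (hu : u ≠ 0)
    (him : (fun z => u * (starRingEnd ℂ) z + v) '' (c '' Icc a b) = c '' Icc a b)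
    (hab : u * (starRingEnd ℂ) (c a) + v = c b)
    (hfree : ∀ r r', a ≤ r → r < r' → r' ≤ b → u * (starRingEnd ℂ) (c r) + v = c r' →
      c r - I * (c r' - c r) ∉ c '' Icc b (a + 1))
    (hright : OR c b (c a - I * (c b - c a))) :
    ∃ k : ℤ, lb - la = 4 * k := by
  obtain ⟨φ, R⟩ := exMr L J h hu him hab
  have mb : b ∈ Icc a b := ⟨h.ab.le, le_rfl⟩
  have r : AR (fun t => c (-t)) (-b) (-a) := ⟨by linarith [h.ab], by linarith [h.ba], h.hb.rev, h.ha.rev⟩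
  obtain ⟨k, hk⟩ := mirror_even L.rev (J.rev L) (by rw [range_rev]; exact nosq) (z0 := z0)
    (by rw [mgc_rev L]; exact h0) (Ang.rev L A) r h2.rev h1.rev hu (v := v)
    (by rw [im_rev]; exact him) (by
      have := R.P.eq b mb
      rw [R.fb] at this
      simp only [neg_neg]
      exact this.symm) (fun r r' hr hrr hr' he hmem => by
      have m1 : -r' ∈ Icc a b := ⟨by linarith, by linarith⟩
      have m2 : -r ∈ Icc a b := ⟨by linarith, by linarith⟩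
      have e1 := R.P.eq (-r) m2
      have e2 : φ (-r) = -r' := inj_Icc J h.ba (R.mem _ m2) m1 (e1.trans he)
      have e3 : φ (-r') = -r := by rw [← e2]; exact R.inv _ m2
      have e4 := R.P.eq (-r') m1
      rw [e3] at e4
      refine hfree (-r') (-r) m1.1 (by linarith) m2.2 e4.symm ?_
      obtain ⟨t, ht, hte⟩ := hmem
      refine ⟨-t + 1, ⟨by linarith [ht.2], by linarith [ht.1]⟩, ?_⟩
      rw [L.per]
      refine Eq.trans hte ?_
      ring) (fun ρ hρ => by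
      obtain ⟨x, y, g1, g2, g3, g4⟩ := hright ρ hρ
      refine ⟨-y, -x, by rwa [show -y - -b = -(y - b) by ring, abs_neg],
        by rwa [show -x - -b = -(x - b) by ring, abs_neg], by linarith, ?_⟩
      simp only [neg_neg, range_rev]
      rw [show c a + I * (c a - c b) = c a - I * (c b - c a) by ring,
        show c x + I * (c x - c y) = c x - I * (c y - c x) by ring]
      exact g4)
  exact ⟨-k, by linarith⟩

/-- mirror symmetric arc with free squares on its left -/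
def ML (c : ℝ → ℂ) (a b : ℝ) : Prop := ∃ u v : ℂ, u ≠ 0 ∧
  (fun z => u * (starRingEnd ℂ) z + v) '' (c '' Icc a b) = c '' Icc a b ∧
  u * (starRingEnd ℂ) (c a) + v = c b ∧
  (∀ r r', a ≤ r → r < r' → r' ≤ b → u * (starRingEnd ℂ) (c r) + v = c r' →
      c r' + I * (c r' - c r) ∉ c '' Icc b (a + 1)) ∧ OL c a (c b + I * (c b - c a))

/-- mirror symmetric arc with free squares on its right -/
def MR (c : ℝ → ℂ) (a b : ℝ) : Prop := ∃ u v : ℂ, u ≠ 0 ∧
  (fun z => u * (starRingEnd ℂ) z + v) '' (c '' Icc a b) = c '' Icc a b ∧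
  u * (starRingEnd ℂ) (c a) + v = c b ∧
  (∀ r r', a ≤ r → r < r' → r' ≤ b → u * (starRingEnd ℂ) (c r) + v = c r' →
      c r - I * (c r' - c r) ∉ c '' Icc b (a + 1)) ∧ OR c b (c a - I * (c b - c a))

/-- left free path -/
def FL (c : ℝ → ℂ) (s t : ℝ) : Prop := ∀ ρ > 0, ∃ p, Pth p s t ρ ∧
  ((∀ τ ∈ Icc (0:ℝ) 1, CC c (p τ).1 (p τ).2 ∉ range c) ∨
   (∀ τ ∈ Icc (0:ℝ) 1, DD c (p τ).1 (p τ).2 ∉ range c))

/-- right free path -/
def FR (c : ℝ → ℂ) (s t : ℝ) : Prop := ∀ ρ > 0, ∃ p, Pth p s t ρ ∧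
  ((∀ τ ∈ Icc (0:ℝ) 1, CC c (p τ).2 (p τ).1 ∉ range c) ∨
   (∀ τ ∈ Icc (0:ℝ) 1, DD c (p τ).2 (p τ).1 ∉ range c))

/-- the charges of a curve without inscribed squares -/
theorem exCharge2 (L : Loop c) (J : Inj c) (nosq : NoSq (range c)) :
    ∃ (x y : ℝ → ℤ) (g : ℤ), Odd g ∧
      (∀ s, Cone c s → x (s + 1) = x s + g ∧ y (s + 1) = y s + g) ∧
      (∀ s t, AR c s t → (∀ r ∈ Icc s t, CC1 c r) → x t = x s ∧ y t = y s) ∧
      (∀ s t, AR c s t → (∀ r ∈ Icc s t, Mon c r) → Even (x t - x s)) ∧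
      (∀ s t, AR c s t → Even ((x t - x s) - (y t - y s))) ∧
      (∀ s t s' t', AR c s t → AR c s' t' → KP c s t s' t' →
        x t' - x s' = x t - x s ∧ y t' - y s' = y t - y s) ∧
      (∀ s t s' t', AR c s t → AR c s' t' → SP c s t s' t' →
        y t' - y s' = -(x t - x s)) ∧
      (∀ s t, AR c s t → ML c s t → Even (x t - x s)) ∧
      (∀ s t, AR c s t → MR c s t → Even (y t - y s)) ∧
      (∀ s t, Cone c s → Cone c t → FL c s t → x t = x s) ∧
      (∀ s t, Cone c s → Cone c t → FR c s t → y t = y s) := by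
  classical
  obtain ⟨θ, g, A, ho⟩ := exists_odd L J nosq
  obtain ⟨z0, h0⟩ := exists_pos L J nosq
  by_cases hex : ∃ s0, Cone c s0
  · obtain ⟨s0, C0⟩ := hex
    obtain ⟨l0, hl0⟩ := exKL L J A C0
    obtain ⟨r0, hr0⟩ := exKR L J A C0
    have ex1 : ∀ s, ∃ k : ℤ, Cone c s → KL θ s (l0 + 2 * k) := fun s => by
      by_cases hs : Cone c s
      · obtain ⟨k, hk⟩ := exKL L J A hs
        obtain ⟨m, hm⟩ := KL.parity L J h0 A C0 hs hl0 hk
        exact ⟨m, fun _ => by rwa [show l0 + 2 * m = k by linarith]⟩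
      · exact ⟨0, fun h => absurd h hs⟩
    have ex2 : ∀ s, ∃ k : ℤ, Cone c s → KR θ s (r0 + 2 * k) := fun s => by
      by_cases hs : Cone c s
      · obtain ⟨k, hk⟩ := exKR L J A hs
        obtain ⟨m, hm⟩ := KR.parity L J h0 A C0 hs hr0 hk
        exact ⟨m, fun _ => by rwa [show r0 + 2 * m = k by linarith]⟩
      · exact ⟨0, fun h => absurd h hs⟩
    choose x hx using ex1
    choose y hy using ex2
    refine ⟨x, y, g, ho, ?_, ?_, ?_, ?_, ?_, ?_, ?_, ?_, ?_, ?_⟩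
    · intro s hs
      have hs1 := hs.per L
      have e1 := (hx (s + 1) hs1).uniq ((hx s hs).per A)
      have e2 := (hy (s + 1) hs1).uniq ((hy s hs).per A)
      constructor <;> linarith
    · intro s t h hc
      have e1 := KL.tameC L J A hc h.ab.le (hx s h.ha) (hx t h.hb)
      have e2 := KR.tameC L J A hc h.ab.le (hy s h.ha) (hy t h.hb)
      constructor <;> linarith
    · intro s t h hM
      obtain ⟨k, hk⟩ := mono4 L J nosq A h.ab h.ba h.ha h.hb hM (hx s h.ha) (hx t h.hb)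
      exact ⟨k, by linarith⟩
    · intro s t h
      obtain ⟨k, hk⟩ := parity L J nosq A h.ab h.ba h.ha h.hb (hx s h.ha) (hx t h.hb)
        (hy s h.ha) (hy t h.hb)
      exact ⟨-k, by linarith⟩
    · intro s t s' t' h h' hK
      have e1 := keepL L J h0 A h h' (hx s h.ha) (hx t h.hb) (hx s' h'.ha) (hx t' h'.hb) hK
      have e2 := keepR L J h0 A h h' (hy s h.ha) (hy t h.hb) (hy s' h'.ha) (hy t' h'.hb) hK
      constructor <;> linarith
    · intro s t s' t' h h' hK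
      have e1 := swapLR L J h0 A h h' (hx s h.ha) (hx t h.hb) (hy s' h'.ha) (hy t' h'.hb) hK
      linarith
    · rintro s t h ⟨u, v, hu, e1, e2, e3, e4⟩
      obtain ⟨k, hk⟩ := mirror_even L J nosq h0 A h (hx s h.ha) (hx t h.hb) hu e1 e2 e3 e4
      exact ⟨k, by linarith⟩
    · rintro s t h ⟨u, v, hu, e1, e2, e3, e4⟩
      obtain ⟨k, hk⟩ := mirror_evenR L J nosq h0 A h (hy s h.ha) (hy t h.hb) hu e1 e2 e3 e4
      exact ⟨k, by linarith⟩
    · intro s t hs ht h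
      have := free_eq L J A hs ht (hx s hs) (hx t ht) h
      linarith
    · intro s t hs ht h
      have := free_eqR L J A hs ht (hy s hs) (hy t ht) h
      linarith
  · refine ⟨0, 0, g, ho, ?_, ?_, ?_, ?_, ?_, ?_, ?_, ?_, ?_, ?_⟩
    · exact fun s hs => absurd ⟨s, hs⟩ hex
    · exact fun s t h => absurd ⟨s, h.ha⟩ hex
    · exact fun s t h => absurd ⟨s, h.ha⟩ hex
    · exact fun s t h => absurd ⟨s, h.ha⟩ hex
    · exact fun s t s' t' h => absurd ⟨s, h.ha⟩ hex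
    · exact fun s t s' t' h => absurd ⟨s, h.ha⟩ hex
    · exact fun s t h => absurd ⟨s, h.ha⟩ hex
    · exact fun s t h => absurd ⟨s, h.ha⟩ hex
    · exact fun s t h => absurd ⟨s, h⟩ hex
    · exact fun s t h => absurd ⟨s, h⟩ hex

end Pool.Agent.Y535.PEG
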