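import Pool.Agent.Y535.PEG.Dbs

/-! Half turns of the angle function of a polygon near a corner and near a double point. -/

set_option autoImplicit false
open Complex Set Topology Metric

namespace Pool.Agent.Y535.PEG

open Pool.Agent.H763R2 Pool.Agent.H763R2.An Pool.Agent.W675.Peg Pool.Agent.TH569.Peg
open Pool.Agent.H763R2.Dm (NoSq floor_const)

variable {q : ℝ → ℂ} {θ : ℝ → ℝ → ℝ}

/-- the pairs of a short forward chord -/
def Strip (η : ℝ) : Set (ℝ × ℝ) := {p : ℝ × ℝ | p.1 < p.2 ∧ p.2 < p.1 + η}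

/-- an angle function for short forward chords -/
structure LA (q : ℝ → ℂ) (η : ℝ) (θ : ℝ → ℝ → ℝ) : Prop where
  cont : ContinuousOn (fun p : ℝ × ℝ => θ p.1 p.2) (Strip η)
  ex : ∀ x y, x < y → y < x + η → ∃ ρ > 0, mgc q (DD q x y) = ρ * Real.cos (θ x y) ∧
    mgc q (CC q x y) = ρ * Real.sin (θ x y)

theorem Strip_convex (η : ℝ) : Convex ℝ (Strip η) := by
  rintro ⟨x, y⟩ ⟨h3, h4⟩ ⟨x', y'⟩ ⟨h3', h4'⟩ p r hp hr hpr
  simp only at h3 h4 h3' h4'
  have hq' : r = 1 - p := by linarith
  subst hq'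
  refine ⟨?_, ?_⟩ <;> simp only [Prod.smul_mk, Prod.mk_add_mk, smul_eq_mul]
  · rcases lt_or_eq_of_le hp with h | h
    · nlinarith [mul_lt_mul_of_pos_left h3 h, mul_le_mul_of_nonneg_left h3'.le hr]
    · rw [← h]; linarith
  · rcases lt_or_eq_of_le hp with h | h
    · nlinarith [mul_lt_mul_of_pos_left h4 h, mul_le_mul_of_nonneg_left h4'.le hr]
    · rw [← h]; linarith

theorem Strip_open (η : ℝ) : IsOpen (Strip η) :=
  (isOpen_lt continuous_fst continuous_snd).inter
    (isOpen_lt continuous_snd (continuous_fst.add continuous_const))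

theorem exLA (L : Loop q) {η : ℝ} (hη : 0 < η)
    (h0 : ∀ x y, x < y → y < x + η → GG q (mgc q) x y ≠ 0) : ∃ θ, LA q η θ := by
  have hne : (Strip η).Nonempty := ⟨(0, η / 2), by
    refine ⟨?_, ?_⟩ <;> simp only <;> linarith⟩
  have : ContractibleSpace (Strip η) := (Strip_convex η).contractibleSpace hne
  have : LocallyPathConnectedSpace (Strip η) := (Strip_open η).locallyPathConnectedSpace
  have hG := GG_cont L (mgc_sg L).cont
  obtain ⟨K, hK, hKe⟩ := H777R2.exists_log (X := Strip η)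
    (g := fun p => GG q (mgc q) p.1.1 p.1.2) (hG.comp continuous_subtype_val)
    (fun p => h0 _ _ p.2.1 p.2.2)
  classical
  obtain ⟨θ, hθ⟩ : ∃ θ : ℝ → ℝ → ℝ, θ = fun x y =>
    if h : ((x, y) : ℝ × ℝ) ∈ Strip η then (K ⟨(x, y), h⟩).im else 0 := ⟨_, rfl⟩
  have hθe : ∀ x y (h : ((x, y) : ℝ × ℝ) ∈ Strip η), θ x y = (K ⟨(x, y), h⟩).im := by
    intro x y h; rw [hθ]; simp only; rw [dif_pos h]
  refine ⟨θ, ?_, fun x y h1 h2 => ?_⟩
  · rw [continuousOn_iff_continuous_domRestrict]
    have : (Strip η).domRestrict (fun p : ℝ × ℝ => θ p.1 p.2) = fun p : Strip η => (K p).im := by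
      funext p
      exact hθe p.1.1 p.1.2 p.2
    rw [this]
    exact continuous_im.comp hK
  · have h : ((x, y) : ℝ × ℝ) ∈ Strip η := ⟨h1, h2⟩
    have e := hKe ⟨(x, y), h⟩
    have e1 := congrArg Complex.re e
    have e2 := congrArg Complex.im e
    rw [exp_re] at e1
    rw [exp_im] at e2
    refine ⟨Real.exp (K ⟨(x, y), h⟩).re, Real.exp_pos _, ?_, ?_⟩
    · rw [hθe x y h, e1]; simp [GG]
    · rw [hθe x y h, e2]; simp [GG]

theorem Tri_Strip {s ρ η : ℝ} (h : 2 * ρ ≤ η) : Tri s ρ ⊆ Strip η := by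
  rintro ⟨x, y⟩ ⟨h1, h2, h3⟩
  simp only at h1 h2 h3
  rw [abs_lt] at h1 h2
  exact ⟨h3, by simp only; linarith⟩

/-- first vertex of the square over a straight chord -/
theorem DD_lin {p u : ℂ} {x y a b : ℝ} (hx : q x = p + a * u) (hy : q y = p + b * u) :
    DD q x y - p = a * u + ((b - a : ℝ) : ℂ) * (I * u) := by
  rw [DD_eq, hx, hy]; push_cast; ring

theorem CC_lin {p u : ℂ} {x y a b : ℝ} (hx : q x = p + a * u) (hy : q y = p + b * u) :
    CC q x y - p = b * u + ((b - a : ℝ) : ℂ) * (I * u) := by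
  rw [CC_eq, hx, hy]; push_cast; ring

theorem side_pos {w u : ℂ} (hu : 0 < (w * u).re) {r : ℝ} (hr : 0 < r) (a : ℝ) :
    0 < (w * (a * u + r * (I * u))).im - slp w u * (w * (a * u + r * (I * u))).re := by
  have e : w * (a * u + r * (I * u)) = a * (w * u) + r * (I * (w * u)) := by ring
  rw [e]
  simp only [add_re, add_im, re_ofReal_mul, im_ofReal_mul, I_mul_re, I_mul_im]
  have h2 : (a * (w * u).im + r * (w * u).re) - slp w u * (a * (w * u).re + r * -(w * u).im) =
      r * (((w * u).re ^ 2 + (w * u).im ^ 2) / (w * u).re) := by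
    unfold slp
    have := hu.ne'
    field_simp
    ring
  rw [h2]
  positivity

theorem Cor.half (L : Loop q) {s0 η1 : ℝ} {e f w : ℂ} (H : Cor q s0 e f w η1) {η : ℝ} (hη : 0 < η)
    (A : LA q η θ) : ∃ ρ > 0, ∃ k : ℤ, ∀ s, s ≠ s0 → |s - s0| < ρ → KL θ s k := by
  obtain ⟨R, hR, τ, hτ, hsg⟩ := H.sign L
  obtain ⟨p, hp⟩ : ∃ p, p = q s0 := ⟨_, rfl⟩
  obtain ⟨m, hm, me, mf⟩ : ∃ m > 0, ‖e‖ ≤ m ∧ ‖f‖ ≤ m :=
    ⟨max ‖e‖ ‖f‖ + 1, by positivity, (le_max_left _ _).trans (by linarith),
      (le_max_right _ _).trans (by linarith)⟩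
  have hη1 := H.hη
  obtain ⟨ρ, hρ, r1, r2, r3⟩ : ∃ ρ > 0, ρ ≤ η1 ∧ 2 * ρ ≤ η ∧ 3 * (ρ * m) ≤ R := by
    refine ⟨min η1 (min (η / 2) (R / (3 * m))), by positivity, min_le_left _ _, ?_, ?_⟩
    · have := (min_le_right η1 (min (η / 2) (R / (3 * m)))).trans (min_le_left _ _)
      linarith
    · have := (min_le_right η1 (min (η / 2) (R / (3 * m)))).trans (min_le_right _ _)
      rw [le_div_iff₀ (by positivity)] at this
      linarith
  -- the curve near the corner
  have loc : ∀ x : ℝ, |x - s0| < ρ → ‖q x - p‖ ≤ |x - s0| * m ∧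
      (w * (q x - p)).im = fc (slp w e) (slp w f) (w * (q x - p)).re := by
    intro x hx
    have hxx : s0 + (x - s0) = x := by ring
    constructor
    · rcases le_total 0 (x - s0) with h | h
      · have e1 := H.fwd (x - s0) ⟨h, by rw [abs_of_nonneg h] at hx; linarith⟩
        rw [hxx, ← hp] at e1
        rw [e1, add_sub_cancel_left, norm_mul, norm_real, Real.norm_eq_abs]
        exact mul_le_mul_of_nonneg_left mf (abs_nonneg _)
      · have e1 := H.bwd (-(x - s0)) ⟨by linarith, by rw [abs_of_nonpos h] at hx; linarith⟩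
        rw [sub_neg_eq_add, hxx, ← hp] at e1
        rw [e1, sub_sub_cancel_left, norm_neg, norm_mul, norm_real, norm_neg, Real.norm_eq_abs]
        exact mul_le_mul_of_nonneg_left me (abs_nonneg _)
    · have := H.zero (s := x - s0) (hx.le.trans r1)
      rw [hxx, ← hp] at this
      unfold hN at this
      linarith
  have locX : ∀ x y : ℝ, |x - s0| < ρ → |y - s0| < ρ → x < y →
      (w * (q x - p)).re < (w * (q y - p)).re := by
    have val : ∀ x : ℝ, |x - s0| < ρ → (0 ≤ x - s0 → (w * (q x - p)).re = (x - s0) * (w * f).re) ∧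
        (x - s0 ≤ 0 → (w * (q x - p)).re = (x - s0) * (w * e).re) := by
      intro x hx
      have hxx : s0 + (x - s0) = x := by ring
      constructor
      · intro h
        have e1 := H.fwd (x - s0) ⟨h, by rw [abs_of_nonneg h] at hx; linarith⟩
        rw [hxx, ← hp] at e1
        rw [e1, add_sub_cancel_left, show w * (((x - s0 : ℝ) : ℂ) * f) =
          ((x - s0 : ℝ) : ℂ) * (w * f) by ring, re_ofReal_mul]
      · intro h
        have e1 := H.bwd (-(x - s0)) ⟨by linarith, by rw [abs_of_nonpos h] at hx; linarith⟩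
        rw [sub_neg_eq_add, hxx, ← hp] at e1
        rw [e1, show w * (p - ((-(x - s0) : ℝ) : ℂ) * e - p) =
          ((x - s0 : ℝ) : ℂ) * (w * e) by push_cast; ring, re_ofReal_mul]
    intro x y hx hy hxy
    have he := H.he
    have hf := H.hf
    rcases le_total 0 (x - s0) with h | h
    · rw [(val x hx).1 h, (val y hy).1 (by linarith)]
      exact mul_lt_mul_of_pos_right (by linarith) hf
    · rw [(val x hx).2 h]
      rcases le_total 0 (y - s0) with h' | h'
      · rw [(val y hy).1 h']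
        rcases lt_or_eq_of_le h with h2 | h2
        · have := mul_neg_of_neg_of_pos h2 he
          have := mul_nonneg h' hf.le
          linarith
        · rw [h2, zero_mul]
          exact mul_pos (by linarith) hf
      · rw [(val y hy).2 h']
        exact mul_lt_mul_of_pos_right (by linarith) he
  have dist : ∀ x y : ℝ, |x - s0| < ρ → |y - s0| < ρ →
      ‖DD q x y - p‖ < R ∧ ‖CC q x y - p‖ < R := by
    intro x y hx hy
    have h1 : ‖q x - p‖ < ρ * m := (loc x hx).1.trans_lt (mul_lt_mul_of_pos_right hx hm)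
    have h2 : ‖q y - p‖ < ρ * m := (loc y hy).1.trans_lt (mul_lt_mul_of_pos_right hy hm)
    have h3 : ‖I * (q y - q x)‖ < 2 * (ρ * m) := by
      rw [norm_mul, norm_I, one_mul, show q y - q x = (q y - p) - (q x - p) by ring]
      have := norm_sub_le (q y - p) (q x - p)
      linarith
    constructor
    · rw [DD_eq, show q x + I * (q y - q x) - p = (q x - p) + I * (q y - q x) by ring]
      have := norm_add_le (q x - p) (I * (q y - q x))
      linarith
    · rw [CC_eq, show q y + I * (q y - q x) - p = (q y - p) + I * (q y - q x) by ring]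
      have := norm_add_le (q y - p) (I * (q y - q x))
      linarith
  rw [← hp] at hsg
  obtain ⟨k, hk⟩ := amb1 (Tri_pre s0 ρ) (θ := fun p => θ p.1 p.2)
    (M1 := fun p => mgc q (DD q p.1 p.2)) (M2 := fun p => mgc q (CC q p.1 p.2))
    (N1 := fun z => hN p w (slp w e) (slp w f) (DD q z.1 z.2))
    (N2 := fun z => hN p w (slp w e) (slp w f) (CC q z.1 z.2))
    (A.cont.mono (Tri_Strip r2)) ((hN_cont _ _ _ _).comp L.DD_cont).continuousOn
    ((hN_cont _ _ _ _).comp L.CC_cont).continuousOn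
    (fun z hz => A.ex _ _ (Tri_Strip r2 hz).1 (Tri_Strip r2 hz).2) hτ
    (fun z hz => hsg _ (dist z.1 z.2 hz.1 hz.2.1).1)
    (fun z hz => hsg _ (dist z.1 z.2 hz.1 hz.2.1).2)
    (fun z hz hc => by
      obtain ⟨c1, c2⟩ := hc
      have y1 := (loc z.1 hz.1).2
      have y2 := (loc z.2 hz.2.1).2
      have hX := locX z.1 z.2 hz.1 hz.2.1 hz.2.2
      obtain ⟨X1, hX1⟩ : ∃ X1, X1 = (w * (q z.1 - p)).re := ⟨_, rfl⟩
      obtain ⟨X2, hX2⟩ : ∃ X2, X2 = (w * (q z.2 - p)).re := ⟨_, rfl⟩
      rw [← hX1] at y1 hX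
      rw [← hX2] at y2 hX
      have d1 : w * (DD q z.1 z.2 - p) = w * (q z.1 - p) + I * (w * (q z.2 - p) - w * (q z.1 - p)) := by
        rw [DD_eq]; ring
      have d2 : w * (CC q z.1 z.2 - p) = w * (q z.2 - p) + I * (w * (q z.2 - p) - w * (q z.1 - p)) := by
        rw [CC_eq]; ring
      unfold hN at c1 c2
      rw [d1] at c1 c2
      rw [d2] at c1
      simp only [add_re, add_im, I_mul_re, I_mul_im, sub_re, sub_im, ← hX1, ← hX2, y1, y2] at c1 c2
      refine corner_no (s1 := slp w e) (s2 := slp w f) hX ?_ ?_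
      · rw [show X1 + -(fc (slp w e) (slp w f) X2 - fc (slp w e) (slp w f) X1) =
          X1 - (fc (slp w e) (slp w f) X2 - fc (slp w e) (slp w f) X1) by ring,
          show X2 + -(fc (slp w e) (slp w f) X2 - fc (slp w e) (slp w f) X1) =
          X2 - (fc (slp w e) (slp w f) X2 - fc (slp w e) (slp w f) X1) by ring] at c1
        linarith
      · rw [show X1 + -(fc (slp w e) (slp w f) X2 - fc (slp w e) (slp w f) X1) =
          X1 - (fc (slp w e) (slp w f) X2 - fc (slp w e) (slp w f) X1) by ring] at c2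
        linarith)
  refine ⟨ρ, hρ, k, fun s hs hsρ => ?_⟩
  rcases lt_or_gt_of_ne hs with hlt | hgt
  · -- before the corner
    rw [abs_lt] at hsρ
    have he := H.he
    obtain ⟨ρ', hρ', t1, t2, t3⟩ : ∃ ρ' > 0, ρ' < (s - s0) + ρ ∧ 2 * ρ' ≤ s0 - s ∧
        4 * (ρ' * |(w * e).im|) ≤ (s0 - s) * (w * e).re := by
      have k1 : 0 < (s0 - s) * (w * e).re := mul_pos (by linarith) he
      have k2 : 0 < s - s0 + ρ := by linarith
      have k3 : 0 < s0 - s := by linarith
      refine ⟨min (min ((s - s0 + ρ) / 2) ((s0 - s) / 2))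
        ((s0 - s) * (w * e).re / (4 * (|(w * e).im| + 1))), by positivity, ?_, ?_, ?_⟩
      · have := (min_le_left (min ((s - s0 + ρ) / 2) ((s0 - s) / 2))
          ((s0 - s) * (w * e).re / (4 * (|(w * e).im| + 1)))).trans (min_le_left _ _)
        linarith
      · have := (min_le_left (min ((s - s0 + ρ) / 2) ((s0 - s) / 2))
          ((s0 - s) * (w * e).re / (4 * (|(w * e).im| + 1)))).trans (min_le_right _ _)
        linarith
      · have h1 := min_le_right (min ((s - s0 + ρ) / 2) ((s0 - s) / 2))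
          ((s0 - s) * (w * e).re / (4 * (|(w * e).im| + 1)))
        set ρ' := min (min ((s - s0 + ρ) / 2) ((s0 - s) / 2))
          ((s0 - s) * (w * e).re / (4 * (|(w * e).im| + 1)))
        rw [le_div_iff₀ (by positivity)] at h1
        have : 0 < ρ' := by positivity
        nlinarith [abs_nonneg (w * e).im]
    refine ⟨ρ', hρ', fun x y hx hy hxy => ?_⟩
    rw [abs_lt] at hx hy
    have hx0 : |x - s0| < ρ := by rw [abs_lt]; constructor <;> linarith
    have hy0 : |y - s0| < ρ := by rw [abs_lt]; constructor <;> linarith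
    have lin : ∀ x : ℝ, |x - s0| < ρ → x - s0 ≤ 0 → q x = p + ((x - s0 : ℝ) : ℂ) * e := by
      intro x hx h
      have e1 := H.bwd (-(x - s0)) ⟨by linarith, by rw [abs_of_nonpos h] at hx; linarith⟩
      rw [sub_neg_eq_add, show s0 + (x - s0) = x by ring, ← hp] at e1
      rw [e1]; push_cast; ring
    have lx := lin x hx0 (by linarith)
    have ly := lin y hy0 (by linarith)
    have hr : 0 < (y - s0) - (x - s0) := by linarith
    have him := neg_abs_le (w * e).im
    have him2 := abs_nonneg (w * e).im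
    have hre : ∀ a : ℝ, a ≤ -(s0 - s) / 2 →
        (w * (a * e + (((y - s0) - (x - s0) : ℝ) : ℂ) * (I * e))).re ≤ 0 := by
      intro a ha
      rw [show w * (a * e + (((y - s0) - (x - s0) : ℝ) : ℂ) * (I * e)) =
        a * (w * e) + (((y - s0) - (x - s0) : ℝ) : ℂ) * (I * (w * e)) by ring]
      simp only [add_re, re_ofReal_mul, I_mul_re]
      have g1 : a * (w * e).re ≤ -(s0 - s) / 2 * (w * e).re := mul_le_mul_of_nonneg_right ha he.le
      have g2 : ((y - s0) - (x - s0)) * -(w * e).im ≤ ((y - s0) - (x - s0)) * |(w * e).im| :=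
        mul_le_mul_of_nonneg_left (neg_le_abs _) hr.le
      have g3 : ((y - s0) - (x - s0)) * |(w * e).im| ≤ (2 * ρ') * |(w * e).im| :=
        mul_le_mul_of_nonneg_right (by linarith) him2
      linarith
    refine hk (x, y) ⟨hx0, hy0, hxy⟩ ?_ ?_
    · show 0 < hN p w (slp w e) (slp w f) (DD q x y)
      unfold hN
      rw [DD_lin lx ly, fc_neg (hre _ (by linarith))]
      exact side_pos he hr _
    · show 0 < hN p w (slp w e) (slp w f) (CC q x y)
      unfold hN
      rw [CC_lin lx ly, fc_neg (hre _ (by linarith))]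
      exact side_pos he hr _
  · -- after the corner
    rw [abs_lt] at hsρ
    have hf := H.hf
    obtain ⟨ρ', hρ', t1, t2, t3⟩ : ∃ ρ' > 0, ρ' < ρ - (s - s0) ∧ 2 * ρ' ≤ s - s0 ∧
        4 * (ρ' * |(w * f).im|) ≤ (s - s0) * (w * f).re := by
      have k1 : 0 < (s - s0) * (w * f).re := mul_pos (by linarith) hf
      have k2 : 0 < ρ - (s - s0) := by linarith
      have k3 : 0 < s - s0 := by linarith
      refine ⟨min (min ((ρ - (s - s0)) / 2) ((s - s0) / 2))
        ((s - s0) * (w * f).re / (4 * (|(w * f).im| + 1))), by positivity, ?_, ?_, ?_⟩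
      · have := (min_le_left (min ((ρ - (s - s0)) / 2) ((s - s0) / 2))
          ((s - s0) * (w * f).re / (4 * (|(w * f).im| + 1)))).trans (min_le_left _ _)
        linarith
      · have := (min_le_left (min ((ρ - (s - s0)) / 2) ((s - s0) / 2))
          ((s - s0) * (w * f).re / (4 * (|(w * f).im| + 1)))).trans (min_le_right _ _)
        linarith
      · have h1 := min_le_right (min ((ρ - (s - s0)) / 2) ((s - s0) / 2))
          ((s - s0) * (w * f).re / (4 * (|(w * f).im| + 1)))
        set ρ' := min (min ((ρ - (s - s0)) / 2) ((s - s0) / 2))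
          ((s - s0) * (w * f).re / (4 * (|(w * f).im| + 1)))
        rw [le_div_iff₀ (by positivity)] at h1
        have : 0 < ρ' := by positivity
        nlinarith [abs_nonneg (w * f).im]
    refine ⟨ρ', hρ', fun x y hx hy hxy => ?_⟩
    rw [abs_lt] at hx hy
    have hx0 : |x - s0| < ρ := by rw [abs_lt]; constructor <;> linarith
    have hy0 : |y - s0| < ρ := by rw [abs_lt]; constructor <;> linarith
    have lin : ∀ x : ℝ, |x - s0| < ρ → 0 ≤ x - s0 → q x = p + ((x - s0 : ℝ) : ℂ) * f := by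
      intro x hx h
      have e1 := H.fwd (x - s0) ⟨h, by rw [abs_of_nonneg h] at hx; linarith⟩
      rw [show s0 + (x - s0) = x by ring, ← hp] at e1
      rw [e1]
    have lx := lin x hx0 (by linarith)
    have ly := lin y hy0 (by linarith)
    have hr : 0 < (y - s0) - (x - s0) := by linarith
    have him2 := abs_nonneg (w * f).im
    have hre : ∀ a : ℝ, (s - s0) / 2 ≤ a →
        0 ≤ (w * (a * f + (((y - s0) - (x - s0) : ℝ) : ℂ) * (I * f))).re := by
      intro a ha
      rw [show w * (a * f + (((y - s0) - (x - s0) : ℝ) : ℂ) * (I * f)) =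
        a * (w * f) + (((y - s0) - (x - s0) : ℝ) : ℂ) * (I * (w * f)) by ring]
      simp only [add_re, re_ofReal_mul, I_mul_re]
      have g1 : (s - s0) / 2 * (w * f).re ≤ a * (w * f).re := mul_le_mul_of_nonneg_right ha hf.le
      have g2 : ((y - s0) - (x - s0)) * (w * f).im ≤ ((y - s0) - (x - s0)) * |(w * f).im| :=
        mul_le_mul_of_nonneg_left (le_abs_self _) hr.le
      have g3 : ((y - s0) - (x - s0)) * |(w * f).im| ≤ (2 * ρ') * |(w * f).im| :=
        mul_le_mul_of_nonneg_right (by linarith) him2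
      linarith
    refine hk (x, y) ⟨hx0, hy0, hxy⟩ ?_ ?_
    · show 0 < hN p w (slp w e) (slp w f) (DD q x y)
      unfold hN
      rw [DD_lin lx ly, fc_pos (hre _ (by linarith))]
      exact side_pos hf hr _
    · show 0 < hN p w (slp w e) (slp w f) (CC q x y)
      unfold hN
      rw [CC_lin lx ly, fc_pos (hre _ (by linarith))]
      exact side_pos hf hr _

end Pool.Agent.Y535.PEG
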