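import Pool.Agent.TH569.Peg.C
import Pool.Agent.Helper265.JcE

/-! Winding numbers of a Jordan curve: zero outside, one and the same odd number inside. -/

set_option autoImplicit false
open Complex Set Topology Metric

namespace Pool.Agent.Y535.PEG

open Pool.Agent.H763R2 Pool.Agent.H763R2.An Pool.Agent.W675.Peg Pool.Agent.TH569.Peg
open Pool.Agent.H763R2.Dm (NoSq)

variable {c : ℝ → ℂ}

/-- the curve on the additive circle -/
noncomputable def acir (L : Loop c) : AddCircle (1:ℝ) → ℂ :=
  Function.Periodic.lift (show Function.Periodic c 1 from L.per)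

theorem acir_coe (L : Loop c) (t : ℝ) : acir L (t : AddCircle (1:ℝ)) = c t := rfl

theorem acir_cont (L : Loop c) : Continuous (acir L) :=
  continuous_coinduced_dom.2 L.cont

/-- the curve parametrised by the circle -/
noncomputable def cir (L : Loop c) : Circle → ℂ :=
  acir L ∘ (AddCircle.homeomorphCircle (one_ne_zero : (1:ℝ) ≠ 0)).symm

theorem cir_cont (L : Loop c) : Continuous (cir L) :=
  (acir_cont L).comp (Homeomorph.continuous _)

theorem acir_inj (L : Loop c) (J : Inj c) : Function.Injective (acir L) := by
  intro u v e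
  induction u using QuotientAddGroup.induction_on with
  | H s =>
    induction v using QuotientAddGroup.induction_on with
    | H t =>
      have h1 : c s = c t := e
      obtain ⟨n, hn⟩ := int_of_eq L J h1
      rw [hn]
      rw [AddCircle.coe_add]
      have : ((n : ℝ) : AddCircle (1:ℝ)) = 0 := by
        rw [AddCircle.coe_eq_zero_iff]
        exact ⟨n, by simp⟩
      rw [this, add_zero]

theorem cir_inj (L : Loop c) (J : Inj c) : Function.Injective (cir L) :=
  (acir_inj L J).comp (Homeomorph.injective _)

theorem range_cir (L : Loop c) : range (cir L) = range c := by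
  have h1 : range (cir L) = range (acir L) := by
    unfold cir
    rw [range_comp, (AddCircle.homeomorphCircle (one_ne_zero : (1:ℝ) ≠ 0)).symm.surjective.range_eq,
      image_univ]
  rw [h1]
  apply Subset.antisymm
  · rintro _ ⟨u, rfl⟩
    induction u using QuotientAddGroup.induction_on with
    | H s => exact ⟨s, rfl⟩
  · rintro _ ⟨t, rfl⟩
    exact ⟨(t : AddCircle (1:ℝ)), rfl⟩

/-- the winding number is constant on a component of the complement -/
theorem wind_comp (L : Loop c) {z w : ℂ} (hz : z ∉ range c)
    (hw : w ∈ connectedComponentIn (range c)ᶜ z) {n : ℤ} (h : IsWc c z n) : IsWc c w n := by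
  set D := connectedComponentIn (range c)ᶜ z with hD
  have hDo : IsOpen D := L.closed.isOpen_compl.connectedComponentIn
  have hzD : z ∈ D := mem_connectedComponentIn hz
  have hDc : IsConnected D := ⟨⟨z, hzD⟩, isPreconnected_connectedComponentIn⟩
  have hDp : IsPathConnected D := (hDo.isConnected_iff_isPathConnected).1 hDc
  obtain ⟨γ, hγ⟩ := hDp.joinedIn z hzD w hw
  have := L.pathW (β := fun s => γ.extend s) (γ.continuous_extend) (fun s hs => by
    have h1 : γ.extend s ∈ D := by
      have h2 : γ.extend s ∈ range γ := by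
        rw [← γ.extend_range]
        exact mem_range_self s
      obtain ⟨u, hu⟩ := h2
      rw [← hu]
      exact hγ u
    exact connectedComponentIn_subset _ _ h1 hs) (n := n) (by
      simp only [Path.extend_zero]; exact h)
  simpa using this

/-- far points have winding number zero -/
theorem wind_far (L : Loop c) {R : ℝ} (hR : ∀ t, ‖c t‖ ≤ R) {z : ℂ} (hz : R < ‖z‖) :
    z ∉ range c ∧ IsWc c z 0 := by
  have hz0 : z ≠ 0 := by
    rintro rfl
    have := (norm_nonneg _).trans (hR 0)
    rw [norm_zero] at hz
    linarith
  refine L.half (a := -z) (neg_ne_zero.2 hz0) fun t => ?_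
  have e : (c t - z) / (-z) = 1 - c t / z := by
    field_simp
    ring
  rw [e, sub_re, one_re]
  have h1 : ‖c t / z‖ < 1 := by
    rw [norm_div, div_lt_one (norm_pos_iff.2 hz0)]
    exact (hR t).trans_lt hz
  have h2 := (re_le_norm (c t / z))
  linarith

/-- winding numbers of a Jordan curve -/
theorem wind_vals (L : Loop c) (J : Inj c) {z0 : ℂ} (h0 : 0 < mgc c z0) :
    ∃ n0 : ℤ, Odd n0 ∧ ∀ z, z ∉ range c → ∀ n, IsWc c z n →
      (0 < mgc c z → n = n0) ∧ (mgc c z < 0 → n = 0) := by
  have odd_of_pos : ∀ z, z ∉ range c → 0 < mgc c z → ∃ n, IsWc c z n ∧ Odd n := by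
    intro z _ hp
    by_contra hcon
    have : mgc c z = - infDist z (range c) := by
      unfold mgc
      rw [if_neg (show ¬ Odc c z from hcon)]
    have h2 := infDist_nonneg (x := z) (s := range c)
    linarith
  have pos_of_odd : ∀ z, z ∉ range c → ∀ n, IsWc c z n → Odd n → 0 < mgc c z := by
    intro z hz n hn ho
    have hpos := (L.closed.notMem_iff_infDist_pos L.ne).1 hz
    unfold mgc
    rw [if_pos (show Odc c z from ⟨n, hn, ho⟩)]
    exact hpos
  have nz : ∀ z, mgc c z ≠ 0 → z ∉ range c := fun z h hz => h ((mgc_sg L).zero L |>.2 hz)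
  have hz0 : z0 ∉ range c := nz z0 h0.ne'
  obtain ⟨n0, hn0, ho⟩ := odd_of_pos z0 hz0 h0
  have hr := range_cir L
  have key : ∀ z, z ∉ range c → Bornology.IsBounded (connectedComponentIn (range c)ᶜ z) →
      IsWc c z n0 := by
    intro z hz hb
    have h1 := Pool.Agent.Helper265.Br.jordan_one (cir_cont L) (cir_inj L J) (a := z0) (b := z)
      (by rw [hr]; exact hz0) (by rw [hr]; exact hz) (by rw [hr]; exact (ins_of_pos L h0).2)
      (by rw [hr]; exact hb)
    rw [hr] at h1
    exact wind_comp L hz0 h1 hn0
  refine ⟨n0, ho, fun z hz n hn => ⟨fun hp => ?_, fun hp => ?_⟩⟩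
  · exact hn.unique (key z hz (ins_of_pos L hp).2)
  · by_cases hb : Bornology.IsBounded (connectedComponentIn (range c)ᶜ z)
    · have := pos_of_odd z hz n0 (key z hz hb) ho
      linarith
    · obtain ⟨R, hR⟩ := L.compact.isBounded.subset_closedBall 0
      have hR' : ∀ t, ‖c t‖ ≤ R := fun t => by
        have := hR (mem_range_self t)
        rwa [mem_closedBall, dist_zero_right] at this
      have : ∃ w ∈ connectedComponentIn (range c)ᶜ z, R < ‖w‖ := by
        by_contra hcon
        push Not at hcon
        apply hb
        refine (Metric.isBounded_closedBall (x := (0:ℂ)) (r := R)).subset fun w hw => ?_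
        rw [mem_closedBall, dist_zero_right]
        exact hcon w hw
      obtain ⟨w, hw, hwR⟩ := this
      exact (wind_comp L hz hw hn).unique (wind_far L hR' hwR).2

end Pool.Agent.Y535.PEG
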