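import Pool.Agent.Y535.PEG.Jct
import Pool.Agent.W675.SqC

/-! The signed distance of a Jordan curve near an arc that is mapped into the curve by a direct
similarity. -/

set_option autoImplicit false
open Complex Set Topology Metric

namespace Pool.Agent.Y535.PEG

open Pool.Agent.H763R2 Pool.Agent.H763R2.An Pool.Agent.W675.Peg Pool.Agent.TH569.Peg
open Pool.Agent.H763R2.Dm (NoSq floor_const)

variable {c : ℝ → ℂ}

/-- continuous angles with positive cosine move by less than `π` -/
theorem cos_pos_lt {f : ℝ → ℝ} (hf : Continuous f) {a b : ℝ} (hab : a ≤ b)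
    (h : ∀ s ∈ Icc a b, 0 < Real.cos (f s)) : |f b - f a| < Real.pi := by
  have hπ := Real.pi_pos
  have hcl : ∀ s, max a (min b s) ∈ Icc a b := fun s =>
    ⟨le_max_left _ _, max_le hab (min_le_left _ _)⟩
  have hfl := floor_const (ψ := fun s => f (max a (min b s)) + Real.pi) (by fun_prop)
    (fun s => by
      rintro ⟨-, h2⟩
      simp only [Real.cos_add_pi] at h2
      have := h _ (hcl s)
      linarith) a b
  simp only [min_self, max_self, min_eq_right hab, max_eq_right hab] at hfl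
  have key : ∀ x, 0 < Real.cos x → ∀ N : ℤ, ⌊(x + Real.pi) / (2 * Real.pi)⌋ = N →
      |x - N * (2 * Real.pi)| < Real.pi / 2 := by
    intro x hx N hN
    have h1 := Int.floor_le ((x + Real.pi) / (2 * Real.pi))
    have h2 := Int.lt_floor_add_one ((x + Real.pi) / (2 * Real.pi))
    rw [hN] at h1 h2
    rw [le_div_iff₀ (by positivity)] at h1
    rw [div_lt_iff₀ (by positivity)] at h2
    have hc : Real.cos (x - N * (2 * Real.pi)) = Real.cos x := Real.cos_sub_int_mul_two_pi x N
    by_contra hcon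
    push Not at hcon
    set y := x - N * (2 * Real.pi) with hy
    have hy1 : |y| ≤ Real.pi := by
      rw [abs_le]; constructor <;> linarith
    have : Real.cos |y| ≤ 0 := Real.cos_nonpos_of_pi_div_two_le_of_le hcon (by linarith)
    rw [Real.cos_abs, hc] at this
    linarith
  have ha := key _ (h a ⟨le_rfl, hab⟩) _ rfl
  have hb := key _ (h b ⟨hab, le_rfl⟩) _ rfl
  rw [← hfl] at hb
  rw [abs_lt] at ha hb ⊢
  constructor <;> linarith [ha.1, ha.2, hb.1, hb.2]

theorem wc_step {z : ℂ} (L : Loop c) {k : ℝ → ℂ} (hk : Continuous k)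
    (ek : ∀ t, exp (k t) = c t - z) {n : ℤ} (e : k 1 - k 0 = n * (2 * Real.pi * I)) (s : ℝ) :
    k (s + 1) - k s = n * (2 * Real.pi * I) := by
  have := H777R2.exp_const (X := ℝ) (k := fun t => k (t + 1) - k t) (by fun_prop) (c := 1)
    (fun t => by
      rw [exp_sub, ek, ek, L.per, ← ek, div_self (exp_ne_zero _)]) s 0
  simp only [zero_add] at this
  rw [this, e]

/-- local differences of winding numbers are invariant under direct similarities -/
theorem loc_wind (L : Loop c) {t τ δ : ℝ} (hδ : 0 < δ) (hδ2 : δ < 1 / 2) {u v : ℂ} (hu : u ≠ 0)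
    (hT : ∀ s ∈ Icc (t - δ) (t + δ), c (s + τ) = u * c s + v) {z z' : ℂ}
    (h1 : ∀ s ∈ Icc (t + δ) (t + 1 - δ), ‖z - z'‖ < ‖c s - z'‖)
    (h2 : ∀ s ∈ Icc (t + δ) (t + 1 - δ), ‖u * z - u * z'‖ < ‖c (s + τ) - (u * z' + v)‖)
    {n n' m m' : ℤ} (hn : IsWc c z n) (hn' : IsWc c z' n') (hm : IsWc c (u * z + v) m)
    (hm' : IsWc c (u * z' + v) m') : n - n' = m - m' := by
  obtain ⟨k, hk, ek, e1⟩ := hn
  obtain ⟨k', hk', ek', e1'⟩ := hn'
  obtain ⟨q, hq, eq, e2⟩ := hm
  obtain ⟨q', hq', eq', e2'⟩ := hm'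
  have hπ := Real.pi_pos
  obtain ⟨A, hA⟩ : ∃ A : ℝ → ℂ, A = fun s => k s - k' s := ⟨_, rfl⟩
  obtain ⟨B, hB⟩ : ∃ B : ℝ → ℂ, B = fun s => q (s + τ) - q' (s + τ) := ⟨_, rfl⟩
  have cA : Continuous A := by rw [hA]; fun_prop
  have cB : Continuous B := by rw [hB]; fun_prop
  have eA : ∀ s, exp (A s) = (c s - z) / (c s - z') := fun s => by
    rw [hA]; simp only; rw [exp_sub, ek, ek']
  have eB : ∀ s, exp (B s) = (c (s + τ) - (u * z + v)) / (c (s + τ) - (u * z' + v)) := fun s => by
    rw [hB]; simp only; rw [exp_sub, eq, eq']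
  have nz' : ∀ s, c s - z' ≠ 0 := fun s => by rw [← ek']; exact exp_ne_zero _
  have nw' : ∀ s, c s - (u * z' + v) ≠ 0 := fun s => by rw [← eq']; exact exp_ne_zero _
  -- the local part
  have hloc : A (t - δ) - B (t - δ) = A (t + δ) - B (t + δ) := by
    refine H777R2.exp_const_on (X := ℝ) (A := Icc (t - δ) (t + δ)) isPreconnected_Icc
      (k := fun s => A s - B s) (by fun_prop) (c := 1) (fun s hs => ?_)
      ⟨le_rfl, by linarith⟩ ⟨by linarith, le_rfl⟩
    rw [exp_sub, eA, eB, hT s hs]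
    have a1 := nz' s
    have e3 : u * c s + v - (u * z + v) = u * (c s - z) := by ring
    have e4 : u * c s + v - (u * z' + v) = u * (c s - z') := by ring
    rw [e3, e4, mul_div_mul_left _ _ hu]
    refine div_self ?_
    rw [← eA]
    exact exp_ne_zero _
  -- the far part
  have far : ∀ {a b w : ℂ}, b ≠ 0 → ‖w‖ < ‖b‖ → a = b - w → 0 < (a / b).re := by
    intro a b w hb hw e
    rw [e, sub_div, div_self hb, sub_re, one_re]
    have h3 : ‖w / b‖ < 1 := by rw [norm_div, div_lt_one (norm_pos_iff.2 hb)]; exact hw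
    have h4 := re_le_norm (w / b)
    linarith
  have posA : ∀ s ∈ Icc (t + δ) (t + 1 - δ), 0 < Real.cos (A s).im := by
    intro s hs
    have h3 := far (a := c s - z) (nz' s) (h1 s hs) (by ring)
    rw [← eA, exp_re] at h3
    exact (mul_pos_iff_of_pos_left (Real.exp_pos _)).1 h3
  have posB : ∀ s ∈ Icc (t + δ) (t + 1 - δ), 0 < Real.cos (B s).im := by
    intro s hs
    have h3 := far (a := c (s + τ) - (u * z + v)) (nw' (s + τ)) (h2 s hs) (by ring)
    rw [← eB, exp_re] at h3
    exact (mul_pos_iff_of_pos_left (Real.exp_pos _)).1 h3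
  have hle : t + δ ≤ t + 1 - δ := by linarith
  have gA := cos_pos_lt (f := fun s => (A s).im) (by fun_prop) hle posA
  have gB := cos_pos_lt (f := fun s => (B s).im) (by fun_prop) hle posB
  have sA : A (t + 1 - δ) - A (t - δ) = (n - n' : ℤ) * (2 * Real.pi * I) := by
    have a1 := wc_step L hk ek e1 (t - δ)
    have a2 := wc_step L hk' ek' e1' (t - δ)
    rw [show t - δ + 1 = t + 1 - δ by ring] at a1 a2
    rw [hA]
    push_cast
    linear_combination a1 - a2
  have sB : B (t + 1 - δ) - B (t - δ) = (m - m' : ℤ) * (2 * Real.pi * I) := by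
    have a1 := wc_step L hq eq e2 (t - δ + τ)
    have a2 := wc_step L hq' eq' e2' (t - δ + τ)
    rw [show t - δ + τ + 1 = t + 1 - δ + τ by ring] at a1 a2
    rw [hB]
    push_cast
    linear_combination a1 - a2
  have e5 : ((n - n' - (m - m') : ℤ) : ℂ) * (2 * Real.pi * I) =
      (A (t + 1 - δ) - A (t + δ)) - (B (t + 1 - δ) - B (t + δ)) := by
    push_cast at sA sB ⊢
    linear_combination -sA + sB - hloc
  have e6 := congrArg Complex.im e5
  rw [show ((n - n' - (m - m') : ℤ) : ℂ) * (2 * Real.pi * I) =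
    ((((n - n' - (m - m') : ℤ) : ℝ) * (2 * Real.pi) : ℝ) : ℂ) * I by push_cast; ring] at e6
  rw [mul_I_im, ofReal_re] at e6
  simp only [sub_im] at e6
  rw [abs_lt] at gA gB
  have i1 : (((n - n' - (m - m') : ℤ)) : ℝ) < 1 := by
    by_contra hcon
    push Not at hcon
    nlinarith [gA.1, gA.2, gB.1, gB.2]
  have i2 : (-1 : ℝ) < ((n - n' - (m - m') : ℤ) : ℝ) := by
    by_contra hcon
    push Not at hcon
    nlinarith [gA.1, gA.2, gB.1, gB.2]
  have i3 : n - n' - (m - m') < 1 := by exact_mod_cast i1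
  have i4 : -1 < n - n' - (m - m') := by exact_mod_cast i2
  omega

end Pool.Agent.Y535.PEG
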