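import Pool.Agent.Y535.PEG.Mwe

/-! Chains of mirror symmetric arcs. -/

set_option autoImplicit false
open Complex Set Topology Metric

namespace Pool.Agent.Y535.PEG

open Pool.Agent.H763R2 Pool.Agent.H763R2.An Pool.Agent.W675.Peg Pool.Agent.TH569.Peg
open Pool.Agent.H763R2.Dm (NoSq floor_const)

variable {c : ℝ → ℂ} {θ : ℝ → ℝ → ℝ} {g : ℤ}

theorem exMrN (L : Loop c) (J : Inj c) {a b : ℝ} (ab : a < b) (ba : b < a + 1) {u v : ℂ} (hu : u ≠ 0)
    (him : (fun z => u * (starRingEnd ℂ) z + v) '' (c '' Icc a b) = c '' Icc a b)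
    (hab : u * (starRingEnd ℂ) (c a) + v = c b) : ‖u‖ = 1 ∧ ∃ φ, Mr c a b u v φ := by
  have hT : Smy (fun z => u * (starRingEnd ℂ) z + v) u (-1) :=
    ⟨hu, Or.inr ⟨rfl, v, fun _ => rfl⟩⟩
  obtain ⟨φ, d, P, hφ⟩ := mk_mp L J hT ab ba ab ba him
  have hne : c a ≠ c b := J a b ab ba
  have ma : a ∈ Icc a b := ⟨le_rfl, ab.le⟩
  have mb : b ∈ Icc a b := ⟨ab.le, le_rfl⟩
  have ea := P.eq a ma
  have eb := P.eq b mb
  rcases hφ with ⟨-, f1, -⟩ | ⟨hd, f1, f2⟩
  · rw [f1] at ea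
    exact absurd (ea.trans hab) hne
  · subst hd
    have anti : StrictAntiOn φ (Icc a b) := by
      rcases P.mono with ⟨h, -⟩ | ⟨-, h, -⟩
      · exact absurd h (by decide)
      · exact h
    have mem : ∀ s ∈ Icc a b, φ s ∈ Icc a b := fun s hs => by
      have g1 := anti.antitoneOn ma hs hs.1
      have g2 := anti.antitoneOn hs mb hs.2
      rw [f1] at g1
      rw [f2] at g2
      exact ⟨g2, g1⟩
    rw [f2] at eb
    have hne2 : c b - c a ≠ 0 := sub_ne_zero.2 (Ne.symm hne)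
    have h1 : c b - c a = u * (starRingEnd ℂ) (c a - c b) := by
      rw [← conj_lin (v := v), hab, ← eb]
    have hmod : u * (starRingEnd ℂ) u = 1 := by
      have e1 : u * (starRingEnd ℂ) u * (c b - c a) = c b - c a := by
        have h2 : (starRingEnd ℂ) (c b - c a) = (starRingEnd ℂ) u * (c a - c b) := by
          rw [h1, map_mul, Complex.conj_conj]
        calc u * (starRingEnd ℂ) u * (c b - c a) = -(u * ((starRingEnd ℂ) u * (c a - c b))) := by ring
          _ = -(u * (starRingEnd ℂ) (c b - c a)) := by rw [← h2]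
          _ = u * (starRingEnd ℂ) (c a - c b) := by
            rw [show c b - c a = -(c a - c b) by ring, map_neg]; ring
          _ = c b - c a := h1.symm
      exact mul_right_cancel₀ hne2 (by rw [e1, one_mul])
    have hinv : ∀ z, u * (starRingEnd ℂ) (u * (starRingEnd ℂ) z + v) + v = z := by
      intro z
      have h1 : u * (starRingEnd ℂ) v + v = 0 := by
        have h2 := eb
        rw [← hab] at h2
        simp only [map_add, map_mul, Complex.conj_conj] at h2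
        have h3 : u * ((starRingEnd ℂ) u * c a + (starRingEnd ℂ) v) + v =
          (u * (starRingEnd ℂ) u) * c a + (u * (starRingEnd ℂ) v + v) := by ring
        rw [h3, hmod, one_mul] at h2
        have : c a + (u * (starRingEnd ℂ) v + v) = c a + 0 := by rw [← h2, add_zero]
        exact add_left_cancel this
      simp only [map_add, map_mul, Complex.conj_conj]
      rw [show u * ((starRingEnd ℂ) u * z + (starRingEnd ℂ) v) + v =
        (u * (starRingEnd ℂ) u) * z + (u * (starRingEnd ℂ) v + v) by ring, hmod, h1]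
      ring
    refine ⟨?_, φ, P, hT, f1, f2, anti, mem, fun s hs => ?_⟩
    · have h2 := congrArg norm h1
      rw [norm_mul, Complex.norm_conj, norm_sub_rev (c a)] at h2
      have h3 : ‖c b - c a‖ ≠ 0 := norm_ne_zero_iff.2 hne2
      exact mul_right_cancel₀ h3 (by rw [← h2, one_mul])
    · have e1 := P.eq (φ s) (mem s hs)
      rw [P.eq s hs, hinv] at e1
      exact inj_Icc J ba (mem _ (mem s hs)) hs e1

/-- the angle function over short chords of a mirror symmetric arc -/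
theorem mir_rel (L : Loop c) (J : Inj c) {z0 : ℂ} (h0 : 0 < mgc c z0) (A : Ang c (mgc c) θ g)
    {a b : ℝ} {u v : ℂ} {φ : ℝ → ℝ} (R : Mr c a b u v φ) {a1 b1 : ℝ} (ha1 : a < a1)
    (h11 : a1 ≤ b1) (hb1 : b1 < b) : ∃ k : ℤ, ∃ ε > 0, ∀ x y, a1 ≤ x → y ≤ b1 → x < y → y < x + ε →
      θ (φ y) (φ x) = Real.pi / 2 - θ x y + k * (2 * Real.pi) := by
  have ba := R.P.b1
  obtain ⟨r, hr, hM⟩ := arc_eq L J h0 R.hT R.P ha1 hb1 h11
  have huc : UniformContinuousOn c (Icc a b) :=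
    isCompact_Icc.uniformContinuousOn_of_continuous L.cont.continuousOn
  obtain ⟨ε, hε, hu⟩ := Metric.uniformContinuousOn_iff.1 huc (r / 2) (by positivity)
  obtain ⟨S, hS⟩ : ∃ S : Set (ℝ × ℝ), S = {p | a1 ≤ p.1 ∧ p.2 ≤ b1 ∧ p.1 < p.2 ∧ p.2 < p.1 + ε} :=
    ⟨_, rfl⟩
  have mS : ∀ p ∈ S, p.1 ∈ Icc a b ∧ p.2 ∈ Icc a b ∧ p.1 < p.2 ∧ p.2 < p.1 + 1 := by
    rintro p hp
    rw [hS] at hp
    obtain ⟨h1, h2, h3, h4⟩ := hp
    exact ⟨⟨by linarith, by linarith⟩, ⟨by linarith, by linarith⟩, h3, by linarith⟩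
  have near : ∀ p ∈ S, ‖DD c p.1 p.2 - c p.1‖ < r ∧ ‖CC c p.1 p.2 - c p.1‖ < r := by
    intro p hp
    have hp' := mS p hp
    rw [hS] at hp
    obtain ⟨h1, h2, h3, h4⟩ := hp
    have h5 := hu p.2 hp'.2.1 p.1 hp'.1 (by
      rw [Real.dist_eq, abs_of_pos (by linarith)]; linarith)
    rw [dist_eq_norm] at h5
    constructor
    · rw [DD_eq, add_sub_cancel_left, norm_mul, norm_I, one_mul]; linarith
    · rw [CC_eq, show c p.2 + I * (c p.2 - c p.1) - c p.1 =
        (c p.2 - c p.1) + I * (c p.2 - c p.1) by ring]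
      refine (norm_add_le _ _).trans_lt ?_
      rw [norm_mul, norm_I, one_mul]; linarith
  have hpre : IsPreconnected S := by
    refine Convex.isPreconnected ?_
    rw [hS]
    rintro ⟨x, y⟩ ⟨h1, h2, h3, h4⟩ ⟨x', y'⟩ ⟨h1', h2', h3', h4'⟩ p q hp hq hpq
    simp only at h1 h2 h3 h4 h1' h2' h3' h4'
    have hq' : q = 1 - p := by linarith
    subst hq'
    refine ⟨?_, ?_, ?_, ?_⟩ <;> simp only [Prod.smul_mk, Prod.mk_add_mk, smul_eq_mul]
    · nlinarith [mul_le_mul_of_nonneg_left h1 hp, mul_le_mul_of_nonneg_left h1' hq]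
    · nlinarith [mul_le_mul_of_nonneg_left h2 hp, mul_le_mul_of_nonneg_left h2' hq]
    · rcases lt_or_eq_of_le hp with h | h
      · nlinarith [mul_lt_mul_of_pos_left h3 h, mul_le_mul_of_nonneg_left h3'.le hq]
      · rw [← h]; linarith
    · rcases lt_or_eq_of_le hp with h | h
      · nlinarith [mul_lt_mul_of_pos_left h4 h, mul_le_mul_of_nonneg_left h4'.le hq]
      · rw [← h]; linarith
  have c1 : ContinuousOn (fun p : ℝ × ℝ => φ p.1) S :=
    R.P.cont.comp (by fun_prop) (fun p hp => (mS p hp).1)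
  have c2 : ContinuousOn (fun p : ℝ × ℝ => φ p.2) S :=
    R.P.cont.comp (by fun_prop) (fun p hp => (mS p hp).2.1)
  have hx : ∀ p ∈ S, φ p.2 < φ p.1 ∧ φ p.1 < φ p.2 + 1 := fun p hp => by
    obtain ⟨m1, m2, m3, -⟩ := mS p hp
    have g1 := R.mem _ m1
    have g2 := R.mem _ m2
    exact ⟨R.anti m1 m2 m3, by linarith [g1.2, g2.1]⟩
  have hv : 0 < ‖u‖ := norm_pos_iff.2 R.hT.ne
  obtain ⟨m, hmm⟩ := chg A hpre (fun p hp => (mS p hp).2.2) c2 c1 hx hv (α := Real.pi / 2) (σ := -1)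
    (fun p hp r' r1 r2 => by
    obtain ⟨m1, m2, -, -⟩ := mS p hp
    have hp' := hp
    rw [hS] at hp'
    have eD := hM p.1 ⟨hp'.1, by linarith [hp'.2.1, hp'.2.2.1]⟩ _ (near p hp).1
    have eC := hM p.1 ⟨hp'.1, by linarith [hp'.2.1, hp'.2.2.1]⟩ _ (near p hp).2
    rw [show ((-1 : ℤ) * (-1)) = 1 by norm_num, Int.cast_one] at eD eC
    have t1 : DD c (φ p.2) (φ p.1) = (fun z => u * (starRingEnd ℂ) z + v) (CC c p.1 p.2) := by
      rw [DD_eq, CC_eq, R.P.eq _ m1, R.P.eq _ m2]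
      simp only [map_add, map_sub, map_mul, conj_I]; ring
    have t2 : CC c (φ p.2) (φ p.1) = (fun z => u * (starRingEnd ℂ) z + v) (DD c p.1 p.2) := by
      rw [CC_eq, DD_eq, R.P.eq _ m1, R.P.eq _ m2]
      simp only [map_add, map_sub, map_mul, conj_I]; ring
    rw [t1, t2, eD, eC, r1, r2,
      show Real.pi / 2 + -1 * θ p.1 p.2 = Real.pi / 2 - θ p.1 p.2 by ring,
      Real.cos_pi_div_two_sub, Real.sin_pi_div_two_sub]
    constructor <;> ring)
  refine ⟨m, ε, hε, fun x y h1 h2 h3 h4 => ?_⟩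
  have := hmm (x, y) (by rw [hS]; exact ⟨h1, h2, h3, h4⟩)
  simp only at this
  rw [this]; ring

/-- parity of the number of half turns at a mirror symmetric chord -/
theorem mir_n0 (L : Loop c) (J : Inj c) (nosq : NoSq (range c)) {n0 : ℤ} (ho : Odd n0)
    (hw : ∀ z, z ∉ range c → ∀ n, IsWc c z n → (0 < mgc c z → n = n0) ∧ (mgc c z < 0 → n = 0))
    {a b : ℝ} {u v : ℂ} {φ : ℝ → ℝ} (R : Mr c a b u v φ) {m : ℝ} (hm1 : a < m)
    (hm2 : m < b) (hm3 : φ m = m) : ∃ r1, a ≤ r1 ∧ r1 < m ∧ ∀ r, r1 < r → r < m →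
      (n0 = 1 ∧ 0 < mgc c (DD c r (φ r))) ∨ (n0 ≠ 1 ∧ mgc c (DD c r (φ r)) < 0) := by
  obtain ⟨r1, h1, h2, H⟩ := mir_wd L J nosq R.P.b1 R hm1 hm2 hm3
  refine ⟨r1, h1, h2, fun r g1 g2 => ?_⟩
  obtain ⟨⟨o1, o2⟩, hn⟩ := H r g1 g2
  have nz : ∀ z, z ∉ range c → mgc c z ≠ 0 := fun z h hz => h ((mgc_sg L).zero L |>.1 hz)
  have n00 : n0 ≠ 0 := by
    rintro rfl
    exact absurd ho (by decide)
  obtain ⟨n, hn1⟩ := L.exW o1
  obtain ⟨m, hm1⟩ := L.exW o2
  have e := hn n m hn1 hm1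
  have P' := hw _ o1 n hn1
  have Q' := hw _ o2 m hm1
  rcases lt_or_gt_of_ne (nz _ o1) with h1 | h1 <;> rcases lt_or_gt_of_ne (nz _ o2) with h2 | h2
  · have := P'.2 h1; have := Q'.2 h2; omega
  · have a1 := P'.2 h1; have a2 := Q'.1 h2
    exact Or.inr ⟨by omega, h1⟩
  · have a1 := P'.1 h1; have a2 := Q'.2 h2
    exact Or.inl ⟨by omega, h1⟩
  · have := P'.1 h1; have := Q'.1 h2; omega

theorem cos_quarter (k : ℤ) : (Even k → 0 < Real.cos (Real.pi / 4 + k * Real.pi)) ∧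
    (Odd k → Real.cos (Real.pi / 4 + k * Real.pi) < 0) := by
  have h4 : 0 < Real.cos (Real.pi / 4) := by rw [Real.cos_pi_div_four]; positivity
  constructor
  · rintro ⟨m, rfl⟩
    rw [show Real.pi / 4 + ((m + m : ℤ) : ℝ) * Real.pi = Real.pi / 4 + m * (2 * Real.pi) by
      push_cast; ring, Real.cos_add_int_mul_two_pi]
    exact h4
  · rintro ⟨m, rfl⟩
    rw [show Real.pi / 4 + ((2 * m + 1 : ℤ) : ℝ) * Real.pi =
      (Real.pi / 4 + Real.pi) + m * (2 * Real.pi) by push_cast; ring, Real.cos_add_int_mul_two_pi,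
      Real.cos_add_pi]
    linarith

theorem par_n0 (A : Ang c (mgc c) θ g) {n0 : ℤ} {x y : ℝ} (h1 : x < y) (h2 : y < x + 1) {k : ℤ}
    (hk : θ x y = Real.pi / 4 + k * Real.pi)
    (hs : (n0 = 1 ∧ 0 < mgc c (DD c x y)) ∨ (n0 ≠ 1 ∧ mgc c (DD c x y) < 0)) :
    Even k ↔ n0 = 1 := by
  obtain ⟨r, hr, e1, -⟩ := A.ex x y h1 h2
  rw [hk] at e1
  obtain ⟨c1, c2⟩ := cos_quarter k
  constructor
  · intro hk
    rcases hs with ⟨h, -⟩ | ⟨-, h⟩
    · exact h
    · have := mul_pos hr (c1 hk)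
      linarith
  · intro hn
    rcases hs with ⟨-, h⟩ | ⟨h, -⟩
    · by_contra hcon
      have := mul_neg_of_pos_of_neg hr (c2 (Int.not_even_iff_odd.1 hcon))
      linarith
    · exact absurd hn h

/-- the constant of a mirror symmetric arc has the parity of the curve -/
theorem mir_const (L : Loop c) (J : Inj c) (nosq : NoSq (range c)) (A : Ang c (mgc c) θ g) {n0 : ℤ}
    (ho : Odd n0)
    (hw : ∀ z, z ∉ range c → ∀ n, IsWc c z n → (0 < mgc c z → n = n0) ∧ (mgc c z < 0 → n = 0))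
    {a b : ℝ} {u v : ℂ} {φ : ℝ → ℝ} (R : Mr c a b u v φ) {a1 b1 : ℝ} (ha1 : a < a1) (hb1 : b1 < b)
    (m : ℝ) (hma : a1 < m) (hmb : m < b1) (hm3 : φ m = m) {k : ℤ} {ε : ℝ} (hε : 0 < ε)
    (H : ∀ x y, a1 ≤ x → y ≤ b1 → x < y → y < x + ε →
      θ (φ y) (φ x) = Real.pi / 2 - θ x y + k * (2 * Real.pi)) : Even k ↔ n0 = 1 := by
  have ba := R.P.b1
  obtain ⟨r1, g1, g2, Hs⟩ := mir_n0 L J nosq ho hw R (by linarith) (by linarith) hm3
  have mI : m ∈ Icc a b := ⟨by linarith, by linarith⟩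
  obtain ⟨ρ, hρ, hρ1, hρ2⟩ : ∃ ρ > 0, ρ ≤ b1 - m ∧ ρ ≤ ε / 2 :=
    ⟨min (b1 - m) (ε / 2), lt_min (by linarith) (by positivity), min_le_left _ _, min_le_right _ _⟩
  obtain ⟨δ, hδ, hcon⟩ := Metric.continuousWithinAt_iff.1 (R.P.cont m mI) ρ hρ
  simp only [Real.dist_eq] at hcon
  obtain ⟨r, g3, g4, g5, g6, g7⟩ : ∃ r, r1 < r ∧ r < m ∧ m - r < δ ∧ a1 < r ∧ m - r < ε / 2 := by
    have h5 : 0 < min (min δ (m - a1)) (min (ε / 2) (m - r1)) := by
      refine lt_min (lt_min hδ (by linarith)) (lt_min (by positivity) (by linarith))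
    refine ⟨m - min (min δ (m - a1)) (min (ε / 2) (m - r1)) / 2, ?_, by linarith, ?_, ?_, ?_⟩
    · have := (min_le_right (min δ (m - a1)) (min (ε / 2) (m - r1))).trans (min_le_right _ _)
      linarith
    · have := (min_le_left (min δ (m - a1)) (min (ε / 2) (m - r1))).trans (min_le_left _ _)
      linarith
    · have := (min_le_left (min δ (m - a1)) (min (ε / 2) (m - r1))).trans (min_le_right _ _)
      linarith
    · have := (min_le_right (min δ (m - a1)) (min (ε / 2) (m - r1))).trans (min_le_left _ _)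
      linarith
  have hrI : r ∈ Icc a b := ⟨by linarith, by linarith⟩
  have hφx : m < φ r := by
    have := R.anti hrI mI g4
    rwa [hm3] at this
  have hφy := hcon hrI (by rw [abs_sub_comm, abs_of_pos (by linarith)]; exact g5)
  rw [hm3, abs_of_pos (by linarith)] at hφy
  have h := H r (φ r) g6.le (by linarith) (by linarith) (by linarith)
  rw [R.inv r hrI] at h
  exact par_n0 A (x := r) (y := φ r) (by linarith) (by linarith) (k := k) (by linarith)
    (Hs r g3 g4)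

/-- a local rotation of a simple curve about one of its points is trivial -/
theorem rot_id (L : Loop c) (J : Inj c) {q δ : ℝ} (hδ : 0 < δ) {ψ : ℝ → ℝ}
    (hψ : ContinuousOn ψ (Icc (q - δ) q)) (hq : ψ q = q) (hle : ∀ s ∈ Icc (q - δ) q, ψ s ≤ q)
    {U : ℂ} (hU : ‖U‖ = 1) (h : ∀ s ∈ Icc (q - δ) q, c (ψ s) - c q = U * (c s - c q)) :
    ∃ δ' > 0, δ' ≤ δ ∧ ∀ s ∈ Icc (q - δ') q, ψ s = s := by
  have mq : q ∈ Icc (q - δ) q := ⟨by linarith, le_rfl⟩
  obtain ⟨δ1, hδ1, hc1⟩ := Metric.continuousWithinAt_iff.1 (hψ q mq) (1 / 4) (by norm_num)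
  simp only [Real.dist_eq] at hc1
  obtain ⟨δ', hδ', d1, d2, d3⟩ : ∃ δ' > 0, δ' ≤ δ ∧ δ' < δ1 ∧ δ' ≤ 1 / 4 :=
    ⟨min (min δ (δ1 / 2)) (1 / 4), by positivity, (min_le_left _ _).trans (min_le_left _ _),
      lt_of_le_of_lt ((min_le_left _ _).trans (min_le_right _ _)) (by linarith), min_le_right _ _⟩
  have nrm : ∀ s ∈ Icc (q - δ) q, ‖c (ψ s) - c q‖ = ‖c s - c q‖ := fun s hs => by
    rw [h s hs, norm_mul, hU, one_mul]
  have ne : ∀ s ∈ Icc (q - δ') q, s < q → c s - c q ≠ 0 := fun s hs hsq =>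
    sub_ne_zero.2 (J s q hsq (by linarith [hs.1]))
  have hU1 : U = 1 := by
    by_contra hcon
    obtain ⟨s0, hs0⟩ : ∃ s0, s0 = q - δ' := ⟨_, rfl⟩
    have m0 : s0 ∈ Icc (q - δ') q := ⟨by linarith, by linarith⟩
    have hcomp : IsCompact {s ∈ Icc s0 q | ‖c s0 - c q‖ ≤ ‖c s - c q‖} := by
      refine isCompact_Icc.inter_right (t := {s | ‖c s0 - c q‖ ≤ ‖c s - c q‖}) ?_
      have hc := L.cont
      exact isClosed_le continuous_const (by fun_prop)
    obtain ⟨s1, ⟨hs1, hs1n⟩, hmax⟩ := hcomp.exists_isGreatest ⟨s0, ⟨⟨le_rfl, by linarith⟩, le_rfl⟩⟩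
    have hρ0 : 0 < ‖c s0 - c q‖ := norm_pos_iff.2 (ne s0 m0 (by linarith))
    have hs1q : s1 < q := by
      refine lt_of_le_of_ne hs1.2 ?_
      rintro rfl
      rw [sub_self, norm_zero] at hs1n
      linarith
    have mI : s1 ∈ Icc (q - δ) q := ⟨by linarith [hs1.1], hs1.2⟩
    rcases lt_trichotomy (ψ s1) s1 with h1 | h1 | h1
    · have hc2 : ContinuousOn ψ (Icc s1 q) := hψ.mono (Icc_subset_Icc mI.1 le_rfl)
      obtain ⟨s2, hs2, e2⟩ := intermediate_value_Icc hs1q.le hc2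
        (show s1 ∈ Icc (ψ s1) (ψ q) by rw [hq]; exact ⟨h1.le, hs1q.le⟩)
      have h12 : s1 < s2 := lt_of_le_of_ne hs2.1 (by rintro rfl; linarith)
      have := hmax (show s2 ∈ {s ∈ Icc s0 q | ‖c s0 - c q‖ ≤ ‖c s - c q‖} from
        ⟨⟨by linarith [hs1.1], hs2.2⟩, by
          have := nrm s2 ⟨by linarith [mI.1], hs2.2⟩
          rw [e2] at this
          linarith⟩)
      linarith
    · have h2 := h s1 mI
      rw [h1] at h2
      have h3 : (1 - U) * (c s1 - c q) = 0 := by linear_combination h2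
      rcases mul_eq_zero.1 h3 with h4 | h4
      · exact hcon (sub_eq_zero.1 h4).symm
      · exact ne s1 ⟨by linarith [hs1.1], hs1.2⟩ hs1q h4
    · have := hmax (show ψ s1 ∈ {s ∈ Icc s0 q | ‖c s0 - c q‖ ≤ ‖c s - c q‖} from
        ⟨⟨by linarith [hs1.1], hle s1 mI⟩, by rw [nrm s1 mI]; exact hs1n⟩)
      linarith
  refine ⟨δ', hδ', d1, fun s hs => ?_⟩
  have hsI : s ∈ Icc (q - δ) q := ⟨by linarith [hs.1], hs.2⟩
  have h2 := h s hsI
  rw [hU1, one_mul] at h2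
  have h3 : c (ψ s) = c s := sub_left_injective h2
  have h4 := hc1 hsI (by rw [abs_sub_comm, abs_of_nonneg (by linarith [hs.2])]; linarith [hs.1])
  rw [hq, abs_lt] at h4
  rcases lt_trichotomy (ψ s) s with h5 | h5 | h5
  · exact absurd h3 (J _ _ h5 (by linarith [hs.2]))
  · exact h5
  · exact absurd h3.symm (J _ _ h5 (by linarith [hs.1]))

end Pool.Agent.Y535.PEG
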