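import Pool.Agent.Y535.PEG.Mch

/-! Jordan curves composed of mirror symmetric overlapping arcs. -/

set_option autoImplicit false
open Complex Set Topology Metric

namespace Pool.Agent.Y535.PEG

open Pool.Agent.H763R2 Pool.Agent.H763R2.An Pool.Agent.W675.Peg Pool.Agent.TH569.Peg
open Pool.Agent.H763R2.Dm (NoSq floor_const)

variable {c : ℝ → ℂ} {θ : ℝ → ℝ → ℝ} {g : ℤ}

/-- a product of an even number of reflections near a point of the curve -/
structure TE (c : ℝ → ℂ) (θ : ℝ → ℝ → ℝ) (q q' : ℝ) (K : ℤ) (Ψ : ℝ → ℝ) (δ : ℝ) (U V : ℂ) :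
    Prop where
  hδ : 0 < δ
  cont : ContinuousOn Ψ (Icc (q - δ) (q + δ))
  mono : StrictMonoOn Ψ (Icc (q - δ) (q + δ))
  base : Ψ q = q'
  nU : ‖U‖ = 1
  eq : ∀ s ∈ Icc (q - δ) (q + δ), c (Ψ s) = U * c s + V
  rel : ∀ x ∈ Icc (q - δ) (q + δ), ∀ y ∈ Icc (q - δ) (q + δ), x < y →
    θ (Ψ x) (Ψ y) = θ x y + K * (2 * Real.pi)

/-- a product of an odd number of reflections near a point of the curve -/
structure TO (c : ℝ → ℂ) (θ : ℝ → ℝ → ℝ) (q q' : ℝ) (K : ℤ) (Ψ : ℝ → ℝ) (δ : ℝ) (U V : ℂ) :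
    Prop where
  hδ : 0 < δ
  cont : ContinuousOn Ψ (Icc (q - δ) (q + δ))
  anti : StrictAntiOn Ψ (Icc (q - δ) (q + δ))
  base : Ψ q = q'
  nU : ‖U‖ = 1
  eq : ∀ s ∈ Icc (q - δ) (q + δ), c (Ψ s) = U * (starRingEnd ℂ) (c s) + V
  rel : ∀ x ∈ Icc (q - δ) (q + δ), ∀ y ∈ Icc (q - δ) (q + δ), x < y →
    θ (Ψ y) (Ψ x) = Real.pi / 2 - θ x y + K * (2 * Real.pi)

theorem near_cont {Ψ : ℝ → ℝ} {q δ : ℝ} (hδ : 0 < δ) (h : ContinuousOn Ψ (Icc (q - δ) (q + δ)))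
    {η : ℝ} (hη : 0 < η) : ∃ δ' > 0, δ' ≤ δ ∧ ∀ s ∈ Icc (q - δ') (q + δ'), |Ψ s - Ψ q| < η := by
  obtain ⟨κ, hκ, hc⟩ := Metric.continuousWithinAt_iff.1 (h q ⟨by linarith, by linarith⟩) η hη
  simp only [Real.dist_eq] at hc
  refine ⟨min δ (κ / 2), by positivity, min_le_left _ _, fun s hs => ?_⟩
  have h1 := min_le_left δ (κ / 2)
  have h2 := min_le_right δ (κ / 2)
  refine hc ⟨by linarith [hs.1], by linarith [hs.2]⟩ ?_
  rw [abs_lt]
  constructor <;> linarith [hs.1, hs.2]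

theorem TE.step {q q' q'' : ℝ} {K : ℤ} {Ψ : ℝ → ℝ} {δ : ℝ} {U V : ℂ} (T : TE c θ q q' K Ψ δ U V)
    {a b : ℝ} {u v : ℂ} {φ : ℝ → ℝ} (R : Mr c a b u v φ) (hu : ‖u‖ = 1) {a1 b1 : ℝ} (ha1 : a < a1)
    (hb1 : b1 < b) (h1 : a1 < q') (h2 : q' < b1) (h3 : φ q' = q'') {k : ℤ} {ε : ℝ} (hε : 0 < ε)
    (H : ∀ x y, a1 ≤ x → y ≤ b1 → x < y → y < x + ε →
      θ (φ y) (φ x) = Real.pi / 2 - θ x y + k * (2 * Real.pi)) :
    ∃ δ' U' V', TO c θ q q'' (k - K) (fun s => φ (Ψ s)) δ' U' V' := by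
  obtain ⟨δ', hδ', hle, hn⟩ := near_cont T.hδ T.cont (η := min (min (q' - a1) (b1 - q')) (ε / 2))
    (lt_min (lt_min (by linarith) (by linarith)) (by positivity))
  rw [T.base] at hn
  have sub : Icc (q - δ') (q + δ') ⊆ Icc (q - δ) (q + δ) :=
    Icc_subset_Icc (by linarith) (by linarith)
  have w : ∀ s ∈ Icc (q - δ') (q + δ'), a1 < Ψ s ∧ Ψ s < b1 ∧ |Ψ s - q'| < ε / 2 := fun s hs => by
    have h := hn s hs
    have e1 := h.trans_le ((min_le_left _ _).trans (min_le_left _ _))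
    have e2 := h.trans_le ((min_le_left _ _).trans (min_le_right _ _))
    have e3 := h.trans_le (min_le_right _ _)
    rw [abs_lt] at e1 e2
    exact ⟨by linarith, by linarith, e3⟩
  have mem : ∀ s ∈ Icc (q - δ') (q + δ'), Ψ s ∈ Icc a b := fun s hs => by
    obtain ⟨g1, g2, -⟩ := w s hs
    exact ⟨by linarith, by linarith⟩
  refine ⟨δ', u * (starRingEnd ℂ) U, u * (starRingEnd ℂ) V + v, hδ', ?_, ?_, ?_, ?_, ?_, ?_⟩
  · exact R.P.cont.comp (T.cont.mono sub) mem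
  · exact fun x hx y hy hxy => R.anti (mem x hx) (mem y hy) (T.mono (sub hx) (sub hy) hxy)
  · rw [T.base, h3]
  · rw [norm_mul, Complex.norm_conj, hu, T.nU, one_mul]
  · intro s hs
    rw [R.P.eq _ (mem s hs), T.eq s (sub hs)]
    simp only [map_add, map_mul]; ring
  · intro x hx y hy hxy
    obtain ⟨g1, g2, g3⟩ := w x hx
    obtain ⟨g4, g5, g6⟩ := w y hy
    rw [abs_lt] at g3 g6
    have := H (Ψ x) (Ψ y) g1.le g5.le (T.mono (sub hx) (sub hy) hxy) (by linarith)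
    rw [this, T.rel x (sub hx) y (sub hy) hxy]
    push_cast; ring

theorem TO.step {q q' q'' : ℝ} {K : ℤ} {Ψ : ℝ → ℝ} {δ : ℝ} {U V : ℂ} (T : TO c θ q q' K Ψ δ U V)
    {a b : ℝ} {u v : ℂ} {φ : ℝ → ℝ} (R : Mr c a b u v φ) (hu : ‖u‖ = 1) {a1 b1 : ℝ} (ha1 : a < a1)
    (hb1 : b1 < b) (h1 : a1 < q') (h2 : q' < b1) (h3 : φ q' = q'') {k : ℤ} {ε : ℝ} (hε : 0 < ε)
    (H : ∀ x y, a1 ≤ x → y ≤ b1 → x < y → y < x + ε →
      θ (φ y) (φ x) = Real.pi / 2 - θ x y + k * (2 * Real.pi)) :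
    ∃ δ' U' V', TE c θ q q'' (k - K) (fun s => φ (Ψ s)) δ' U' V' := by
  obtain ⟨δ', hδ', hle, hn⟩ := near_cont T.hδ T.cont (η := min (min (q' - a1) (b1 - q')) (ε / 2))
    (lt_min (lt_min (by linarith) (by linarith)) (by positivity))
  rw [T.base] at hn
  have sub : Icc (q - δ') (q + δ') ⊆ Icc (q - δ) (q + δ) :=
    Icc_subset_Icc (by linarith) (by linarith)
  have w : ∀ s ∈ Icc (q - δ') (q + δ'), a1 < Ψ s ∧ Ψ s < b1 ∧ |Ψ s - q'| < ε / 2 := fun s hs => by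
    have h := hn s hs
    have e1 := h.trans_le ((min_le_left _ _).trans (min_le_left _ _))
    have e2 := h.trans_le ((min_le_left _ _).trans (min_le_right _ _))
    have e3 := h.trans_le (min_le_right _ _)
    rw [abs_lt] at e1 e2
    exact ⟨by linarith, by linarith, e3⟩
  have mem : ∀ s ∈ Icc (q - δ') (q + δ'), Ψ s ∈ Icc a b := fun s hs => by
    obtain ⟨g1, g2, -⟩ := w s hs
    exact ⟨by linarith, by linarith⟩
  refine ⟨δ', u * (starRingEnd ℂ) U, u * (starRingEnd ℂ) V + v, hδ', ?_, ?_, ?_, ?_, ?_, ?_⟩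
  · exact R.P.cont.comp (T.cont.mono sub) mem
  · exact fun x hx y hy hxy => R.anti (mem y hy) (mem x hx) (T.anti (sub hx) (sub hy) hxy)
  · rw [T.base, h3]
  · rw [norm_mul, Complex.norm_conj, hu, T.nU, one_mul]
  · intro s hs
    rw [R.P.eq _ (mem s hs), T.eq s (sub hs)]
    simp only [map_add, map_mul, Complex.conj_conj]; ring
  · intro x hx y hy hxy
    obtain ⟨g1, g2, g3⟩ := w x hx
    obtain ⟨g4, g5, g6⟩ := w y hy
    rw [abs_lt] at g3 g6
    have := H (Ψ y) (Ψ x) g4.le g2.le (T.anti (sub hx) (sub hy) hxy) (by linarith)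
    rw [this, T.rel x (sub hx) y (sub hy) hxy]
    push_cast; ring

/-- an even number of reflections -/
theorem TE.last (L : Loop c) (J : Inj c) (A : Ang c (mgc c) θ g) {q : ℝ} {K : ℤ} {Ψ : ℝ → ℝ}
    {δ : ℝ} {U V : ℂ} (T : TE c θ q (q + 1) K Ψ δ U V) : g = K := by
  have hδ := T.hδ
  have sub : Icc (q - δ) q ⊆ Icc (q - δ) (q + δ) := Icc_subset_Icc le_rfl (by linarith)
  have mq : q ∈ Icc (q - δ) (q + δ) := ⟨by linarith, by linarith⟩
  have hP : c q = U * c q + V := by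
    have := T.eq q mq
    rwa [T.base, L.per] at this
  obtain ⟨δ', hδ', hle, hid⟩ := rot_id L J hδ (ψ := fun s => Ψ s - 1)
    ((T.cont.mono sub).sub continuousOn_const) (by rw [T.base]; ring) (fun s hs => by
      have := T.mono.monotoneOn (sub hs) mq hs.2
      rw [T.base] at this
      linarith) T.nU (fun s hs => by
      have h1 := L.per (Ψ s - 1)
      rw [sub_add_cancel] at h1
      rw [← h1, T.eq s (sub hs)]
      linear_combination -hP)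
  obtain ⟨t, ht, h1, h2⟩ : ∃ t > 0, t ≤ δ' ∧ t ≤ 1 / 2 :=
    ⟨min δ' (1 / 2), by positivity, min_le_left _ _, min_le_right _ _⟩
  have e1 := hid (q - t) ⟨by linarith, by linarith⟩
  have e2 := hid q ⟨by linarith, le_rfl⟩
  have e3 := T.rel (q - t) ⟨by linarith, by linarith⟩ q mq (by linarith)
  rw [show Ψ (q - t) = (q - t) + 1 by linarith, show Ψ q = q + 1 by linarith,
    A.per _ _ (by linarith) (by linarith)] at e3
  have hπ := Real.pi_pos
  have e4 : ((g : ℝ) - K) * (2 * Real.pi) = 0 := by linarith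
  rcases mul_eq_zero.1 e4 with h5 | h5
  · have : (g : ℝ) = K := by linarith
    exact_mod_cast this
  · exact absurd h5 (by positivity)

end Pool.Agent.Y535.PEG
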