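import Pool.Agent.Y535.PEG.Mci

/-! Congruences between arcs of a curve and the angle function over short chords. -/

set_option autoImplicit false
open Complex Set Topology Metric

namespace Pool.Agent.Y535.PEG

open Pool.Agent.H763R2 Pool.Agent.H763R2.An Pool.Agent.W675.Peg Pool.Agent.TH569.Peg
open Pool.Agent.H763R2.Dm (NoSq floor_const)

variable {c : ℝ → ℂ} {θ : ℝ → ℝ → ℝ} {g : ℤ}

theorem short_pre (a1 b1 ε : ℝ) :
    IsPreconnected {p : ℝ × ℝ | a1 ≤ p.1 ∧ p.2 ≤ b1 ∧ p.1 < p.2 ∧ p.2 < p.1 + ε} := by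
  refine Convex.isPreconnected ?_
  rintro ⟨x, y⟩ ⟨h1, h2, h3, h4⟩ ⟨x', y'⟩ ⟨h1', h2', h3', h4'⟩ p q hp hq hpq
  simp only at h1 h2 h3 h4 h1' h2' h3' h4'
  have hq' : q = 1 - p := by linarith
  subst hq'
  refine ⟨?_, ?_, ?_, ?_⟩ <;> simp only [Prod.smul_mk, Prod.mk_add_mk, smul_eq_mul]
  · nlinarith [mul_le_mul_of_nonneg_left h1 hp, mul_le_mul_of_nonneg_left h1' hq]
  · nlinarith [mul_le_mul_of_nonneg_left h2 hp, mul_le_mul_of_nonneg_left h2' hq]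
  · rcases lt_or_eq_of_le hp with h | h
    · nlinarith [mul_lt_mul_of_pos_left h3 h, mul_le_mul_of_nonneg_left h3'.le hq]
    · rw [← h]; linarith
  · rcases lt_or_eq_of_le hp with h | h
    · nlinarith [mul_lt_mul_of_pos_left h4 h, mul_le_mul_of_nonneg_left h4'.le hq]
    · rw [← h]; linarith

theorem short_near (L : Loop c) {a b a1 b1 r : ℝ} (ha1 : a < a1) (hb1 : b1 < b) (hr : 0 < r) :
    ∃ ε > 0, ∀ x y, a1 ≤ x → y ≤ b1 → x < y → y < x + ε →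
      ‖DD c x y - c x‖ < r ∧ ‖CC c x y - c x‖ < r := by
  have huc : UniformContinuousOn c (Icc a b) :=
    isCompact_Icc.uniformContinuousOn_of_continuous L.cont.continuousOn
  obtain ⟨ε, hε, hu⟩ := Metric.uniformContinuousOn_iff.1 huc (r / 2) (by positivity)
  refine ⟨ε, hε, fun x y h1 h2 h3 h4 => ?_⟩
  have h5 := hu y ⟨by linarith, by linarith⟩ x ⟨by linarith, by linarith⟩ (by
    rw [Real.dist_eq, abs_of_pos (by linarith)]; linarith)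
  rw [dist_eq_norm] at h5
  constructor
  · rw [DD_eq, add_sub_cancel_left, norm_mul, norm_I, one_mul]; linarith
  · rw [CC_eq, show c y + I * (c y - c x) - c x = (c y - c x) + I * (c y - c x) by ring]
    refine (norm_add_le _ _).trans_lt ?_
    rw [norm_mul, norm_I, one_mul]; linarith

theorem rel_minus (L : Loop c) (J : Inj c) {z0 : ℂ} (h0 : 0 < mgc c z0) (A : Ang c (mgc c) θ g)
    {a b : ℝ} {u v : ℂ} {φ : ℝ → ℝ} (hT : Smy (fun z => u * (starRingEnd ℂ) z + v) u (-1))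
    (P : Mp c (fun z => u * (starRingEnd ℂ) z + v) φ a b (-1)) {a1 b1 : ℝ} (ha1 : a < a1)
    (h11 : a1 ≤ b1) (hb1 : b1 < b) : ∃ k : ℤ, ∃ ε > 0, ∀ x y, a1 ≤ x → y ≤ b1 → x < y → y < x + ε →
      θ (φ y) (φ x) = Real.pi / 2 - θ x y + k * (2 * Real.pi) := by
  have ba := P.b1
  obtain ⟨anti, wid⟩ : StrictAntiOn φ (Icc a b) ∧ φ a < φ b + 1 := by
    rcases P.mono with ⟨h, -⟩ | ⟨-, h, h'⟩
    · exact absurd h (by decide)
    · exact ⟨h, h'⟩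
  obtain ⟨r, hr, hM⟩ := arc_eq L J h0 hT P ha1 hb1 h11
  obtain ⟨ε, hε, hn⟩ := short_near L ha1 hb1 hr
  obtain ⟨S, hS⟩ : ∃ S : Set (ℝ × ℝ), S = {p | a1 ≤ p.1 ∧ p.2 ≤ b1 ∧ p.1 < p.2 ∧ p.2 < p.1 + ε} :=
    ⟨_, rfl⟩
  have hpre : IsPreconnected S := hS ▸ short_pre a1 b1 ε
  have ma : a ∈ Icc a b := ⟨le_rfl, P.ab.le⟩
  have mb : b ∈ Icc a b := ⟨P.ab.le, le_rfl⟩
  have mS : ∀ p ∈ S, p.1 ∈ Icc a b ∧ p.2 ∈ Icc a b ∧ p.1 < p.2 ∧ p.2 < p.1 + 1 := by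
    rintro p hp
    rw [hS] at hp
    obtain ⟨h1, h2, h3, h4⟩ := hp
    exact ⟨⟨by linarith, by linarith⟩, ⟨by linarith, by linarith⟩, h3, by linarith⟩
  have c1 : ContinuousOn (fun p : ℝ × ℝ => φ p.1) S :=
    P.cont.comp (by fun_prop) (fun p hp => (mS p hp).1)
  have c2 : ContinuousOn (fun p : ℝ × ℝ => φ p.2) S :=
    P.cont.comp (by fun_prop) (fun p hp => (mS p hp).2.1)
  have hx : ∀ p ∈ S, φ p.2 < φ p.1 ∧ φ p.1 < φ p.2 + 1 := fun p hp => by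
    obtain ⟨m1, m2, m3, -⟩ := mS p hp
    have g1 := anti.antitoneOn ma m1 m1.1
    have g2 := anti.antitoneOn m2 mb m2.2
    exact ⟨anti m1 m2 m3, by linarith⟩
  have hv : 0 < ‖u‖ := norm_pos_iff.2 hT.ne
  obtain ⟨m, hmm⟩ := chg A hpre (fun p hp => (mS p hp).2.2) c2 c1 hx hv (α := Real.pi / 2) (σ := -1)
    (fun p hp r' r1 r2 => by
    obtain ⟨m1, m2, -, -⟩ := mS p hp
    have hp' := hp
    rw [hS] at hp'
    have near := hn p.1 p.2 hp'.1 hp'.2.1 hp'.2.2.1 hp'.2.2.2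
    have eD := hM p.1 ⟨hp'.1, by linarith [hp'.2.1, hp'.2.2.1]⟩ _ near.1
    have eC := hM p.1 ⟨hp'.1, by linarith [hp'.2.1, hp'.2.2.1]⟩ _ near.2
    rw [show ((-1 : ℤ) * (-1)) = 1 by norm_num, Int.cast_one] at eD eC
    have t1 : DD c (φ p.2) (φ p.1) = (fun z => u * (starRingEnd ℂ) z + v) (CC c p.1 p.2) := by
      rw [DD_eq, CC_eq, P.eq _ m1, P.eq _ m2]
      simp only [map_add, map_sub, map_mul, conj_I]; ring
    have t2 : CC c (φ p.2) (φ p.1) = (fun z => u * (starRingEnd ℂ) z + v) (DD c p.1 p.2) := by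
      rw [CC_eq, DD_eq, P.eq _ m1, P.eq _ m2]
      simp only [map_add, map_sub, map_mul, conj_I]; ring
    rw [t1, t2, eD, eC, r1, r2,
      show Real.pi / 2 + -1 * θ p.1 p.2 = Real.pi / 2 - θ p.1 p.2 by ring,
      Real.cos_pi_div_two_sub, Real.sin_pi_div_two_sub]
    constructor <;> ring)
  refine ⟨m, ε, hε, fun x y h1 h2 h3 h4 => ?_⟩
  have := hmm (x, y) (by rw [hS]; exact ⟨h1, h2, h3, h4⟩)
  simp only at this
  rw [this]; ring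

theorem rel_plus (L : Loop c) (J : Inj c) {z0 : ℂ} (h0 : 0 < mgc c z0) (A : Ang c (mgc c) θ g)
    {a b : ℝ} {u v : ℂ} {φ : ℝ → ℝ} (hT : Smy (fun z => u * z + v) u 1)
    (P : Mp c (fun z => u * z + v) φ a b 1) {a1 b1 : ℝ} (ha1 : a < a1)
    (h11 : a1 ≤ b1) (hb1 : b1 < b) : ∃ k : ℤ, ∃ ε > 0, ∀ x y, a1 ≤ x → y ≤ b1 → x < y → y < x + ε →
      θ (φ x) (φ y) = θ x y + k * (2 * Real.pi) := by
  have ba := P.b1
  obtain ⟨mono, wid⟩ : StrictMonoOn φ (Icc a b) ∧ φ b < φ a + 1 := by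
    rcases P.mono with ⟨-, h, h'⟩ | ⟨h, -⟩
    · exact ⟨h, h'⟩
    · exact absurd h (by decide)
  obtain ⟨r, hr, hM⟩ := arc_eq L J h0 hT P ha1 hb1 h11
  obtain ⟨ε, hε, hn⟩ := short_near L ha1 hb1 hr
  obtain ⟨S, hS⟩ : ∃ S : Set (ℝ × ℝ), S = {p | a1 ≤ p.1 ∧ p.2 ≤ b1 ∧ p.1 < p.2 ∧ p.2 < p.1 + ε} :=
    ⟨_, rfl⟩
  have hpre : IsPreconnected S := hS ▸ short_pre a1 b1 ε
  have ma : a ∈ Icc a b := ⟨le_rfl, P.ab.le⟩
  have mb : b ∈ Icc a b := ⟨P.ab.le, le_rfl⟩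
  have mS : ∀ p ∈ S, p.1 ∈ Icc a b ∧ p.2 ∈ Icc a b ∧ p.1 < p.2 ∧ p.2 < p.1 + 1 := by
    rintro p hp
    rw [hS] at hp
    obtain ⟨h1, h2, h3, h4⟩ := hp
    exact ⟨⟨by linarith, by linarith⟩, ⟨by linarith, by linarith⟩, h3, by linarith⟩
  have c1 : ContinuousOn (fun p : ℝ × ℝ => φ p.1) S :=
    P.cont.comp (by fun_prop) (fun p hp => (mS p hp).1)
  have c2 : ContinuousOn (fun p : ℝ × ℝ => φ p.2) S :=
    P.cont.comp (by fun_prop) (fun p hp => (mS p hp).2.1)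
  have hx : ∀ p ∈ S, φ p.1 < φ p.2 ∧ φ p.2 < φ p.1 + 1 := fun p hp => by
    obtain ⟨m1, m2, m3, -⟩ := mS p hp
    have g1 := mono.monotoneOn ma m1 m1.1
    have g2 := mono.monotoneOn m2 mb m2.2
    exact ⟨mono m1 m2 m3, by linarith⟩
  have hv : 0 < ‖u‖ := norm_pos_iff.2 hT.ne
  obtain ⟨m, hmm⟩ := chg A hpre (fun p hp => (mS p hp).2.2) c1 c2 hx hv (α := 0) (σ := 1)
    (fun p hp r' r1 r2 => by
    obtain ⟨m1, m2, -, -⟩ := mS p hp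
    have hp' := hp
    rw [hS] at hp'
    have near := hn p.1 p.2 hp'.1 hp'.2.1 hp'.2.2.1 hp'.2.2.2
    have eD := hM p.1 ⟨hp'.1, by linarith [hp'.2.1, hp'.2.2.1]⟩ _ near.1
    have eC := hM p.1 ⟨hp'.1, by linarith [hp'.2.1, hp'.2.2.1]⟩ _ near.2
    rw [show ((1 : ℤ) * 1) = 1 by norm_num, Int.cast_one] at eD eC
    have t1 : DD c (φ p.1) (φ p.2) = (fun z => u * z + v) (DD c p.1 p.2) := by
      rw [DD_eq, DD_eq, P.eq _ m1, P.eq _ m2]; ring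
    have t2 : CC c (φ p.1) (φ p.2) = (fun z => u * z + v) (CC c p.1 p.2) := by
      rw [CC_eq, CC_eq, P.eq _ m1, P.eq _ m2]; ring
    rw [t1, t2, eD, eC, r1, r2, show 0 + 1 * θ p.1 p.2 = θ p.1 p.2 by ring]
    constructor <;> ring)
  refine ⟨m, ε, hε, fun x y h1 h2 h3 h4 => ?_⟩
  have := hmm (x, y) (by rw [hS]; exact ⟨h1, h2, h3, h4⟩)
  simp only at this
  rw [this]; ring

theorem exWin {a1 b1 s ε : ℝ} (h1 : a1 < s) (h2 : s < b1) (hε : 0 < ε) :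
    ∃ δ > 0, a1 ≤ s - δ ∧ s + δ ≤ b1 ∧ δ < ε / 2 :=
  ⟨min (min (s - a1) (b1 - s)) (ε / 3), lt_min (lt_min (by linarith) (by linarith)) (by linarith),
    by linarith [(min_le_left (min (s - a1) (b1 - s)) (ε / 3)).trans (min_le_left _ _)],
    by linarith [(min_le_left (min (s - a1) (b1 - s)) (ε / 3)).trans (min_le_right _ _)],
    lt_of_le_of_lt (min_le_right _ _) (by linarith)⟩

theorem germ_minus {a b : ℝ} {u v : ℂ} {φ : ℝ → ℝ}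
    (P : Mp c (fun z => u * (starRingEnd ℂ) z + v) φ a b (-1)) {a1 b1 : ℝ} (ha1 : a < a1)
    (hb1 : b1 < b) (hu : ‖u‖ = 1) {k : ℤ} {ε : ℝ} (hε : 0 < ε)
    (H : ∀ x y, a1 ≤ x → y ≤ b1 → x < y → y < x + ε →
      θ (φ y) (φ x) = Real.pi / 2 - θ x y + k * (2 * Real.pi)) {s : ℝ} (h1 : a1 < s) (h2 : s < b1) :
    ∃ δ, TO c θ s (φ s) k φ δ u v := by
  have anti : StrictAntiOn φ (Icc a b) := by
    rcases P.mono with ⟨h, -⟩ | ⟨-, h, -⟩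
    · exact absurd h (by decide)
    · exact h
  obtain ⟨δ, hδ, d1, d2, d3⟩ := exWin h1 h2 hε
  have sub : Icc (s - δ) (s + δ) ⊆ Icc a b := Icc_subset_Icc (by linarith) (by linarith)
  refine ⟨δ, hδ, P.cont.mono sub, anti.mono sub, rfl, hu, fun x hx => P.eq x (sub hx),
    fun x hx y hy hxy => ?_⟩
  exact H x y (by linarith [hx.1]) (by linarith [hy.2]) hxy (by linarith [hx.1, hy.2])

theorem germ_plus {a b : ℝ} {u v : ℂ} {φ : ℝ → ℝ}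
    (P : Mp c (fun z => u * z + v) φ a b 1) {a1 b1 : ℝ} (ha1 : a < a1)
    (hb1 : b1 < b) (hu : ‖u‖ = 1) {k : ℤ} {ε : ℝ} (hε : 0 < ε)
    (H : ∀ x y, a1 ≤ x → y ≤ b1 → x < y → y < x + ε →
      θ (φ x) (φ y) = θ x y + k * (2 * Real.pi)) {s : ℝ} (h1 : a1 < s) (h2 : s < b1) :
    ∃ δ, TE c θ s (φ s) k φ δ u v := by
  have mono : StrictMonoOn φ (Icc a b) := by
    rcases P.mono with ⟨-, h, -⟩ | ⟨h, -⟩
    · exact h
    · exact absurd h (by decide)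
  obtain ⟨δ, hδ, d1, d2, d3⟩ := exWin h1 h2 hε
  have sub : Icc (s - δ) (s + δ) ⊆ Icc a b := Icc_subset_Icc (by linarith) (by linarith)
  refine ⟨δ, hδ, P.cont.mono sub, mono.mono sub, rfl, hu, fun x hx => P.eq x (sub hx),
    fun x hx y hy hxy => ?_⟩
  exact H x y (by linarith [hx.1]) (by linarith [hy.2]) hxy (by linarith [hx.1, hy.2])

end Pool.Agent.Y535.PEG
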