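import Pool.Agent.Y535.PEG.Mck

/-! The groupoid of local congruences of a curve with itself, and a consistent parity. -/

set_option autoImplicit false
open Complex Set Topology Metric

namespace Pool.Agent.Y535.PEG

open Pool.Agent.H763R2 Pool.Agent.H763R2.An Pool.Agent.W675.Peg Pool.Agent.TH569.Peg
open Pool.Agent.H763R2.Dm (NoSq floor_const)

variable {c : ℝ → ℂ} {θ : ℝ → ℝ → ℝ} {g : ℤ}

theorem win_sub {q δ δ' : ℝ} (h : δ' ≤ δ) : Icc (q - δ') (q + δ') ⊆ Icc (q - δ) (q + δ) :=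
  Icc_subset_Icc (by linarith) (by linarith)

theorem win_mem {x t δ : ℝ} (h : |x - t| < δ) : x ∈ Icc (t - δ) (t + δ) := by
  rw [abs_lt] at h
  exact ⟨by linarith, by linarith⟩

theorem TE.compE {s t r : ℝ} {K K' : ℤ} {Ψ Ψ' : ℝ → ℝ} {δ δ' : ℝ} {U V U' V' : ℂ}
    (T : TE c θ s t K Ψ δ U V) (T' : TE c θ t r K' Ψ' δ' U' V') :
    ∃ (K2 : ℤ) (Ψ2 : ℝ → ℝ) (δ2 : ℝ) (U2 V2 : ℂ), TE c θ s r K2 Ψ2 δ2 U2 V2 ∧ K2 = K + K' := by
  obtain ⟨δ2, h2, hle, hn⟩ := near_cont T.hδ T.cont T'.hδ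
  rw [T.base] at hn
  have sub := win_sub (q := s) hle
  have mem : ∀ x ∈ Icc (s - δ2) (s + δ2), Ψ x ∈ Icc (t - δ') (t + δ') := fun x hx =>
    win_mem (hn x hx)
  refine ⟨K + K', fun x => Ψ' (Ψ x), δ2, U' * U, U' * V + V', ⟨h2, T'.cont.comp (T.cont.mono sub) mem,
    fun x hx y hy hxy => T'.mono (mem x hx) (mem y hy) (T.mono (sub hx) (sub hy) hxy), ?_, ?_, ?_, ?_⟩,
    rfl⟩
  · rw [T.base, T'.base]
  · rw [norm_mul, T'.nU, T.nU, one_mul]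
  · intro x hx
    rw [T'.eq _ (mem x hx), T.eq x (sub hx)]; ring
  · intro x hx y hy hxy
    rw [T'.rel _ (mem x hx) _ (mem y hy) (T.mono (sub hx) (sub hy) hxy),
      T.rel x (sub hx) y (sub hy) hxy]
    push_cast; ring

theorem TE.compO {s t r : ℝ} {K K' : ℤ} {Ψ Ψ' : ℝ → ℝ} {δ δ' : ℝ} {U V U' V' : ℂ}
    (T : TE c θ s t K Ψ δ U V) (T' : TO c θ t r K' Ψ' δ' U' V') :
    ∃ (K2 : ℤ) (Ψ2 : ℝ → ℝ) (δ2 : ℝ) (U2 V2 : ℂ), TO c θ s r K2 Ψ2 δ2 U2 V2 ∧ K2 = K' - K := by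
  obtain ⟨δ2, h2, hle, hn⟩ := near_cont T.hδ T.cont T'.hδ
  rw [T.base] at hn
  have sub := win_sub (q := s) hle
  have mem : ∀ x ∈ Icc (s - δ2) (s + δ2), Ψ x ∈ Icc (t - δ') (t + δ') := fun x hx =>
    win_mem (hn x hx)
  refine ⟨K' - K, fun x => Ψ' (Ψ x), δ2, U' * (starRingEnd ℂ) U, U' * (starRingEnd ℂ) V + V',
    ⟨h2, T'.cont.comp (T.cont.mono sub) mem,
    fun x hx y hy hxy => T'.anti (mem x hx) (mem y hy) (T.mono (sub hx) (sub hy) hxy), ?_, ?_, ?_, ?_⟩,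
    rfl⟩
  · rw [T.base, T'.base]
  · rw [norm_mul, Complex.norm_conj, T'.nU, T.nU, one_mul]
  · intro x hx
    rw [T'.eq _ (mem x hx), T.eq x (sub hx)]
    simp only [map_add, map_mul]; ring
  · intro x hx y hy hxy
    rw [T'.rel _ (mem x hx) _ (mem y hy) (T.mono (sub hx) (sub hy) hxy),
      T.rel x (sub hx) y (sub hy) hxy]
    push_cast; ring

theorem TO.compE {s t r : ℝ} {K K' : ℤ} {Ψ Ψ' : ℝ → ℝ} {δ δ' : ℝ} {U V U' V' : ℂ}
    (T : TO c θ s t K Ψ δ U V) (T' : TE c θ t r K' Ψ' δ' U' V') :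
    ∃ (K2 : ℤ) (Ψ2 : ℝ → ℝ) (δ2 : ℝ) (U2 V2 : ℂ), TO c θ s r K2 Ψ2 δ2 U2 V2 ∧ K2 = K + K' := by
  obtain ⟨δ2, h2, hle, hn⟩ := near_cont T.hδ T.cont T'.hδ
  rw [T.base] at hn
  have sub := win_sub (q := s) hle
  have mem : ∀ x ∈ Icc (s - δ2) (s + δ2), Ψ x ∈ Icc (t - δ') (t + δ') := fun x hx =>
    win_mem (hn x hx)
  refine ⟨K + K', fun x => Ψ' (Ψ x), δ2, U' * U, U' * V + V',
    ⟨h2, T'.cont.comp (T.cont.mono sub) mem,
    fun x hx y hy hxy => T'.mono (mem y hy) (mem x hx) (T.anti (sub hx) (sub hy) hxy), ?_, ?_, ?_, ?_⟩,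
    rfl⟩
  · rw [T.base, T'.base]
  · rw [norm_mul, T'.nU, T.nU, one_mul]
  · intro x hx
    rw [T'.eq _ (mem x hx), T.eq x (sub hx)]; ring
  · intro x hx y hy hxy
    rw [T'.rel _ (mem y hy) _ (mem x hx) (T.anti (sub hx) (sub hy) hxy),
      T.rel x (sub hx) y (sub hy) hxy]
    push_cast; ring

theorem TO.compO {s t r : ℝ} {K K' : ℤ} {Ψ Ψ' : ℝ → ℝ} {δ δ' : ℝ} {U V U' V' : ℂ}
    (T : TO c θ s t K Ψ δ U V) (T' : TO c θ t r K' Ψ' δ' U' V') :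
    ∃ (K2 : ℤ) (Ψ2 : ℝ → ℝ) (δ2 : ℝ) (U2 V2 : ℂ), TE c θ s r K2 Ψ2 δ2 U2 V2 ∧ K2 = K' - K := by
  obtain ⟨δ2, h2, hle, hn⟩ := near_cont T.hδ T.cont T'.hδ
  rw [T.base] at hn
  have sub := win_sub (q := s) hle
  have mem : ∀ x ∈ Icc (s - δ2) (s + δ2), Ψ x ∈ Icc (t - δ') (t + δ') := fun x hx =>
    win_mem (hn x hx)
  refine ⟨K' - K, fun x => Ψ' (Ψ x), δ2, U' * (starRingEnd ℂ) U, U' * (starRingEnd ℂ) V + V',
    ⟨h2, T'.cont.comp (T.cont.mono sub) mem,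
    fun x hx y hy hxy => T'.anti (mem y hy) (mem x hx) (T.anti (sub hx) (sub hy) hxy), ?_, ?_, ?_, ?_⟩,
    rfl⟩
  · rw [T.base, T'.base]
  · rw [norm_mul, Complex.norm_conj, T'.nU, T.nU, one_mul]
  · intro x hx
    rw [T'.eq _ (mem x hx), T.eq x (sub hx)]
    simp only [map_add, map_mul, Complex.conj_conj]; ring
  · intro x hx y hy hxy
    rw [T'.rel _ (mem y hy) _ (mem x hx) (T.anti (sub hx) (sub hy) hxy),
      T.rel x (sub hx) y (sub hy) hxy]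
    push_cast; ring

/-- a local congruence fixing a point that keeps the directions -/
theorem TE.loop (L : Loop c) (J : Inj c) {q : ℝ} {K : ℤ} {Ψ : ℝ → ℝ}
    {δ : ℝ} {U V : ℂ} (T : TE c θ q q K Ψ δ U V) : K = 0 := by
  have hδ := T.hδ
  have sub : Icc (q - δ) q ⊆ Icc (q - δ) (q + δ) := Icc_subset_Icc le_rfl (by linarith)
  have mq : q ∈ Icc (q - δ) (q + δ) := ⟨by linarith, by linarith⟩
  have hP : c q = U * c q + V := by
    have := T.eq q mq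
    rwa [T.base] at this
  obtain ⟨δ', hδ', hle, hid⟩ := rot_id L J hδ (ψ := Ψ) (T.cont.mono sub) T.base (fun s hs => by
      have := T.mono.monotoneOn (sub hs) mq hs.2
      rwa [T.base] at this) T.nU (fun s hs => by
      rw [T.eq s (sub hs)]
      linear_combination -hP)
  have e1 := hid (q - δ') ⟨by linarith, by linarith⟩
  have e3 := T.rel (q - δ') ⟨by linarith, by linarith⟩ q mq (by linarith)
  rw [e1, T.base] at e3
  have hπ := Real.pi_pos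
  have e4 : (K : ℝ) * (2 * Real.pi) = 0 := by linarith
  rcases mul_eq_zero.1 e4 with h5 | h5
  · exact_mod_cast h5
  · exact absurd h5 (by positivity)

/-- a local reflection of the curve fixing one of its points -/
theorem TO.loop (L : Loop c) (J : Inj c) (nosq : NoSq (range c)) (A : Ang c (mgc c) θ g) {n0 : ℤ}
    (ho : Odd n0)
    (hw : ∀ z, z ∉ range c → ∀ n, IsWc c z n → (0 < mgc c z → n = n0) ∧ (mgc c z < 0 → n = 0))
    {q : ℝ} {K : ℤ} {ψ : ℝ → ℝ} {δ : ℝ} {U V : ℂ} (T : TO c θ q q K ψ δ U V) :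
    Even K ↔ n0 = 1 := by
  have hδ := T.hδ
  have mq : q ∈ Icc (q - δ) (q + δ) := ⟨by linarith, by linarith⟩
  have hcψ := T.eq
  have hψq : ψ q = q := T.base
  have hψa := T.anti
  have hψc := T.cont
  have hP : U * (starRingEnd ℂ) (c q) + V = c q := by
    rw [← hcψ q mq, hψq]
  have hmod : U * (starRingEnd ℂ) U = 1 := by
    rw [Complex.mul_conj, Complex.normSq_eq_norm_sq, T.nU]; norm_num
  have hinv : ∀ z, U * (starRingEnd ℂ) (U * (starRingEnd ℂ) z + V) + V = z := by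
    intro z
    have h1 : U * (starRingEnd ℂ) (U * (starRingEnd ℂ) (c q) + V) + V = c q := by
      rw [hP, hP]
    simp only [map_add, map_mul, Complex.conj_conj] at h1 ⊢
    have h2 : U * (starRingEnd ℂ) V + V = 0 := by
      linear_combination h1 - c q * hmod
    linear_combination h2 + z * hmod
  obtain ⟨δ1, hδ1, l1, n1⟩ := near_cont hδ hψc (η := 1 / 4) (by norm_num)
  obtain ⟨δ2, hδ2, l2, n2⟩ := near_cont (q := q) hδ1
    (hψc.mono (Icc_subset_Icc (by linarith) (by linarith))) (η := δ1) hδ1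
  rw [hψq] at n1 n2
  obtain ⟨t, ht, t1, t2⟩ : ∃ t > 0, t ≤ δ2 ∧ t ≤ 1 / 4 :=
    ⟨min δ2 (1 / 4), by positivity, min_le_left _ _, min_le_right _ _⟩
  obtain ⟨r0, hr0⟩ : ∃ r0, r0 = q - t := ⟨_, rfl⟩
  obtain ⟨b, hb⟩ : ∃ b, b = ψ r0 := ⟨_, rfl⟩
  have m0 : r0 ∈ Icc (q - δ) (q + δ) := ⟨by linarith, by linarith⟩
  have hqb : q < b := by
    have := hψa m0 mq (by linarith)
    rwa [hψq, ← hb] at this
  have hb1 := n2 r0 ⟨by linarith, by linarith⟩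
  have hb2 := n1 r0 ⟨by linarith, by linarith⟩
  rw [← hb, abs_lt] at hb1 hb2
  have mb : b ∈ Icc (q - δ) (q + δ) := ⟨by linarith, by linarith⟩
  have hbb : ψ b = r0 := by
    have h1 : c (ψ b) = c r0 := by
      rw [hcψ b mb]
      conv_lhs => rw [hb]
      rw [hcψ r0 m0, hinv]
    have h2 := n1 b ⟨by linarith, by linarith⟩
    rw [abs_lt] at h2
    rcases lt_trichotomy (ψ b) r0 with h3 | h3 | h3
    · exact absurd h1 (J _ _ h3 (by linarith))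
    · exact h3
    · exact absurd h1.symm (J _ _ h3 (by linarith))
  have hab : r0 < b := by linarith
  have hba : b < r0 + 1 := by linarith
  have sub : Icc r0 b ⊆ Icc (q - δ) (q + δ) := Icc_subset_Icc m0.1 mb.2
  have mr0 : r0 ∈ Icc r0 b := ⟨le_rfl, hab.le⟩
  have mbb : b ∈ Icc r0 b := ⟨hab.le, le_rfl⟩
  have hmap : ∀ s ∈ Icc r0 b, ψ s ∈ Icc r0 b := fun s hs => by
    have g1 := hψa.antitoneOn m0 (sub hs) hs.1
    have g2 := hψa.antitoneOn (sub hs) mb hs.2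
    rw [← hb] at g1
    rw [hbb] at g2
    exact ⟨g2, g1⟩
  have him : (fun z => U * (starRingEnd ℂ) z + V) '' (c '' Icc r0 b) = c '' Icc r0 b := by
    have sub1 : (fun z => U * (starRingEnd ℂ) z + V) '' (c '' Icc r0 b) ⊆ c '' Icc r0 b := by
      rintro _ ⟨_, ⟨s, hs, rfl⟩, rfl⟩
      exact ⟨ψ s, hmap s hs, hcψ s (sub hs)⟩
    refine Subset.antisymm sub1 ?_
    rintro z hz
    exact ⟨U * (starRingEnd ℂ) z + V, sub1 ⟨z, hz, rfl⟩, hinv z⟩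
  have hU0 : U ≠ 0 := by
    intro h
    rw [h, zero_mul] at hmod
    exact zero_ne_one hmod
  obtain ⟨-, φ, R⟩ := exMrN L J hab hba hU0 him (by rw [hb]; exact (hcψ r0 m0).symm)
  have hφ : ∀ s ∈ Icc r0 b, φ s = ψ s := fun s hs => by
    refine inj_Icc J hba (R.mem s hs) (hmap s hs) ?_
    rw [R.P.eq s hs, hcψ s (sub hs)]
  have hqI : q ∈ Icc r0 b := ⟨by linarith, hqb.le⟩
  obtain ⟨r1, g1, g2, Hs⟩ := mir_n0 L J nosq ho hw R (m := q) (by linarith) hqb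
    (by rw [hφ q hqI, hψq])
  obtain ⟨r, hr⟩ : ∃ r, r = (r1 + q) / 2 := ⟨_, rfl⟩
  have hrI : r ∈ Icc r0 b := ⟨by linarith, by linarith⟩
  have hsg := Hs r (by linarith) (by linarith)
  have hφr : q < φ r := by
    have := R.anti hrI hqI (by linarith)
    rwa [hφ q hqI, hψq] at this
  have hφI := R.mem r hrI
  have e1 : ψ r = φ r := (hφ r hrI).symm
  have e2 : ψ (φ r) = r := by
    have h1 := hφ (φ r) hφI
    rw [R.inv r hrI] at h1
    linarith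
  have e3 := T.rel r (sub hrI) (φ r) (sub hφI) (by linarith)
  rw [e1, e2] at e3
  exact par_n0 A (x := r) (y := φ r) (by linarith) (by linarith [hφI.2]) (k := K)
    (by linarith) hsg

/-- Two parameters are related by a local congruence of the curve, with a parity. -/
def Gm (c : ℝ → ℂ) (θ : ℝ → ℝ → ℝ) (κ : ZMod 2) (s t : ℝ) (k : ZMod 2) : Prop :=
  (∃ (K : ℤ) (Ψ : ℝ → ℝ) (δ : ℝ) (U V : ℂ), TE c θ s t K Ψ δ U V ∧ (K : ZMod 2) = k) ∨
  (∃ (K : ℤ) (Ψ : ℝ → ℝ) (δ : ℝ) (U V : ℂ), TO c θ s t K Ψ δ U V ∧ (K : ZMod 2) + κ = k)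

theorem zm2 (x y : ZMod 2) : x + x = 0 ∧ x - y = x + y := by
  revert x y; decide

theorem Gm.comp {κ : ZMod 2} {s t r : ℝ} {k k' : ZMod 2} (h : Gm c θ κ s t k)
    (h' : Gm c θ κ t r k') : Gm c θ κ s r (k + k') := by
  rcases h with ⟨K, Ψ, δ, U, V, T, e⟩ | ⟨K, Ψ, δ, U, V, T, e⟩ <;>
    rcases h' with ⟨K', Ψ', δ', U', V', T', e'⟩ | ⟨K', Ψ', δ', U', V', T', e'⟩
  · obtain ⟨K2, Ψ2, δ2, U2, V2, T2, e2⟩ := T.compE T'
    exact Or.inl ⟨K2, Ψ2, δ2, U2, V2, T2, by rw [e2, ← e, ← e']; push_cast; ring⟩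
  · obtain ⟨K2, Ψ2, δ2, U2, V2, T2, e2⟩ := T.compO T'
    refine Or.inr ⟨K2, Ψ2, δ2, U2, V2, T2, ?_⟩
    rw [e2, ← e, ← e']; push_cast
    rw [(zm2 (K' : ZMod 2) K).2]; ring
  · obtain ⟨K2, Ψ2, δ2, U2, V2, T2, e2⟩ := T.compE T'
    refine Or.inr ⟨K2, Ψ2, δ2, U2, V2, T2, ?_⟩
    rw [e2, ← e, ← e']; push_cast; ring
  · obtain ⟨K2, Ψ2, δ2, U2, V2, T2, e2⟩ := T.compO T'
    refine Or.inl ⟨K2, Ψ2, δ2, U2, V2, T2, ?_⟩
    rw [e2, ← e, ← e']; push_cast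
    rw [(zm2 (K' : ZMod 2) K).2,
      show (K : ZMod 2) + κ + (K' + κ) = (K' + K) + (κ + κ) by ring, (zm2 κ κ).1, add_zero]

theorem Gm.refl (κ : ZMod 2) (s : ℝ) : Gm c θ κ s s 0 := by
  refine Or.inl ⟨0, id, 1, 1, 0, ⟨one_pos, continuousOn_id, ?_, rfl, norm_one, ?_, ?_⟩, by simp⟩
  · exact fun x _ y _ h => h
  · intro s _; simp
  · intro x _ y _ _; simp

theorem Gm.shift (L : Loop c) (A : Ang c (mgc c) θ g) (κ : ZMod 2) (s : ℝ) :
    Gm c θ κ s (s + 1) g := by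
  refine Or.inl ⟨g, fun x => x + 1, 1 / 4, 1, 0, ⟨by norm_num, by fun_prop, ?_, rfl, norm_one, ?_,
    ?_⟩, rfl⟩
  · exact fun x _ y _ h => by simpa using h
  · intro s _; rw [L.per]; ring
  · intro x hx y hy hxy
    rw [A.per x y hxy (by linarith [hx.1, hy.2])]

theorem Gm.unshift (L : Loop c) (A : Ang c (mgc c) θ g) (κ : ZMod 2) (s : ℝ) :
    Gm c θ κ (s + 1) s g := by
  refine Or.inl ⟨-g, fun x => x - 1, 1 / 4, 1, 0, ⟨by norm_num, by fun_prop, ?_, by ring, norm_one,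
    ?_, ?_⟩, ?_⟩
  · exact fun x _ y _ h => by simpa using h
  · intro s _
    have := L.per (s - 1)
    rw [sub_add_cancel] at this
    rw [← this]; ring
  · intro x hx y hy hxy
    have := A.per (x - 1) (y - 1) (by linarith) (by linarith [hx.1, hy.2])
    rw [sub_add_cancel, sub_add_cancel] at this
    rw [this]; push_cast; ring
  · push_cast
    have := (zm2 (0 : ZMod 2) g).2
    rwa [zero_sub, zero_add] at this

/-- the parity correction -/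
theorem exκ (n0 : ℤ) : ∃ κ : ZMod 2, ∀ K : ℤ, (Even K ↔ n0 = 1) → (K : ZMod 2) + κ = 0 := by
  by_cases h : n0 = 1
  · refine ⟨0, fun K hK => ?_⟩
    rw [add_zero]
    exact (ZMod.intCast_zmod_eq_zero_iff_dvd K 2).2 (even_iff_two_dvd.1 (hK.2 h))
  · refine ⟨1, fun K hK => ?_⟩
    have h1 : ¬ Even K := fun h2 => h (hK.1 h2)
    obtain ⟨m, rfl⟩ := Int.not_even_iff_odd.1 h1
    push_cast
    have : (2 : ZMod 2) = 0 := by decide
    rw [this, zero_mul, zero_add]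
    decide

theorem Gm.loop (L : Loop c) (J : Inj c) (nosq : NoSq (range c)) (A : Ang c (mgc c) θ g) {n0 : ℤ}
    (ho : Odd n0)
    (hw : ∀ z, z ∉ range c → ∀ n, IsWc c z n → (0 < mgc c z → n = n0) ∧ (mgc c z < 0 → n = 0))
    {κ : ZMod 2} (hκ : ∀ K : ℤ, (Even K ↔ n0 = 1) → (K : ZMod 2) + κ = 0) {s : ℝ} {k : ZMod 2}
    (h : Gm c θ κ s s k) : k = 0 := by
  rcases h with ⟨K, Ψ, δ, U, V, T, e⟩ | ⟨K, Ψ, δ, U, V, T, e⟩
  · rw [T.loop L J] at e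
    rw [← e]; simp
  · rw [← e]
    exact hκ K (T.loop L J nosq A ho hw)

/-- a consistent parity on the classes of congruent parameters -/
theorem exX {κ : ZMod 2} (hl : ∀ s k, Gm c θ κ s s k → k = 0) : ∃ x : ℝ → ZMod 2,
    ∀ s t k k', Gm c θ κ s t k → Gm c θ κ t s k' → x t = x s + k := by
  classical
  obtain ⟨r, hr⟩ : ∃ r : Setoid ℝ, ∀ s t, r s t ↔ ∃ k k', Gm c θ κ s t k ∧ Gm c θ κ t s k' := by
    refine ⟨⟨fun s t => ∃ k k', Gm c θ κ s t k ∧ Gm c θ κ t s k', ⟨fun s => ⟨0, 0, Gm.refl κ s,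
      Gm.refl κ s⟩, fun ⟨k, k', h, h'⟩ => ⟨k', k, h', h⟩, ?_⟩⟩, fun s t => Iff.rfl⟩
    rintro s t r ⟨k, k', h, h'⟩ ⟨l, l', i, i'⟩
    exact ⟨_, _, h.comp i, i'.comp h'⟩
  have h1 : ∀ s, ∃ k, Gm c θ κ (Quotient.out (Quotient.mk r s)) s k := fun s => by
    obtain ⟨k, k', h, -⟩ := (hr _ _).1 (Quotient.mk_out (s := r) s)
    exact ⟨k, h⟩
  choose x hx using h1
  refine ⟨x, fun s t k k' h h' => ?_⟩
  have e1 : Quotient.mk r s = Quotient.mk r t := Quotient.sound ((hr s t).2 ⟨k, k', h, h'⟩)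
  obtain ⟨a, a', i, i'⟩ := (hr _ _).1 (Quotient.mk_out (s := r) t)
  have p1 := hl _ _ ((hx t).comp i')
  have p2 := hx s
  rw [e1] at p2
  have p3 := hl _ _ ((p2.comp h).comp i')
  have : x t + a' = x s + k + a' := by rw [p1, p3]
  exact add_right_cancel this

end Pool.Agent.Y535.PEG
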