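import Pool.Agent.Y535.PEG.Mcl

/-! Jordan curves composed of overlapping arcs that are mirror symmetric or congruent in pairs. -/

set_option autoImplicit false
open Complex Set Topology Metric

namespace Pool.Agent.Y535.PEG

open Pool.Agent.H763R2 Pool.Agent.H763R2.An Pool.Agent.W675.Peg Pool.Agent.TH569.Peg
open Pool.Agent.H763R2.Dm (NoSq floor_const)

variable {c : ℝ → ℂ} {θ : ℝ → ℝ → ℝ} {g : ℤ}

theorem plus_germs (L : Loop c) (J : Inj c) {z0 : ℂ} (h0 : 0 < mgc c z0) (A : Ang c (mgc c) θ g)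
    (κ : ZMod 2) {a b a' b' : ℝ} (hb : b < a + 1) (hb' : b' < a' + 1) {u v : ℂ} (hu : ‖u‖ = 1)
    (him : (fun z => u * z + v) '' (c '' Icc a b) = c '' Icc a' b') {p p' q q' : ℝ} (hp : a < p)
    (hp' : p' < b) (hq : a' < q) (hq' : q' < b') (hpp : p < p') (hqq : q < q')
    (e1 : u * c p + v = c q) (e2 : u * c p' + v = c q') :
    ∃ k, Gm c θ κ p q k ∧ Gm c θ κ p' q' k := by
  have hu0 : u ≠ 0 := norm_ne_zero_iff.1 (by rw [hu]; exact one_ne_zero)
  have hT : Smy (fun z => u * z + v) u 1 := ⟨hu0, Or.inl ⟨rfl, v, fun _ => rfl⟩⟩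
  obtain ⟨φ, d, P, hφ⟩ := mk_mp L J hT (by linarith) hb (by linarith) hb' him
  have ma : a ∈ Icc a b := ⟨le_rfl, by linarith⟩
  have mb : b ∈ Icc a b := ⟨by linarith, le_rfl⟩
  have mp : p ∈ Icc a b := ⟨by linarith, by linarith⟩
  have mp' : p' ∈ Icc a b := ⟨by linarith, by linarith⟩
  have mem : ∀ s ∈ Icc a b, φ s ∈ Icc a' b' := fun s hs => by
    rcases hφ with ⟨hd, f1, f2⟩ | ⟨hd, f1, f2⟩
    · rcases P.mono with ⟨-, h, -⟩ | ⟨h, -⟩
      · rw [← f1, ← f2]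
        exact ⟨h.monotoneOn ma hs hs.1, h.monotoneOn hs mb hs.2⟩
      · rw [hd] at h; exact absurd h (by decide)
    · rcases P.mono with ⟨h, -⟩ | ⟨-, h, -⟩
      · rw [hd] at h; exact absurd h (by decide)
      · rw [← f1, ← f2]
        exact ⟨h.antitoneOn hs mb hs.2, h.antitoneOn ma hs hs.1⟩
  have f1 : φ p = q := inj_Icc J hb' (mem p mp) ⟨by linarith, by linarith⟩
    (by rw [P.eq p mp]; exact e1)
  have f2 : φ p' = q' := inj_Icc J hb' (mem p' mp') ⟨by linarith, by linarith⟩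
    (by rw [P.eq p' mp']; exact e2)
  have hd : d = 1 := by
    rcases P.mono with ⟨h, -⟩ | ⟨-, h, -⟩
    · exact h
    · have := h mp mp' hpp
      rw [f1, f2] at this
      linarith
  subst hd
  obtain ⟨k, ε, hε, H⟩ := rel_plus L J h0 A hT P (a1 := (a + p) / 2) (b1 := (p' + b) / 2)
    (by linarith) (by linarith) (by linarith)
  obtain ⟨δ, T⟩ := germ_plus P (by linarith) (by linarith) hu hε H (s := p) (by linarith)
    (by linarith)
  obtain ⟨δ', T'⟩ := germ_plus P (by linarith) (by linarith) hu hε H (s := p') (by linarith)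
    (by linarith)
  rw [f1] at T
  rw [f2] at T'
  exact ⟨k, Or.inl ⟨k, _, _, _, _, T, rfl⟩, Or.inl ⟨k, _, _, _, _, T', rfl⟩⟩

theorem minus_germs (L : Loop c) (J : Inj c) (nosq : NoSq (range c)) {z0 : ℂ} (h0 : 0 < mgc c z0)
    (A : Ang c (mgc c) θ g) {n0 : ℤ} (ho : Odd n0)
    (hw : ∀ z, z ∉ range c → ∀ n, IsWc c z n → (0 < mgc c z → n = n0) ∧ (mgc c z < 0 → n = 0))
    {κ : ZMod 2} (hκ : ∀ K : ℤ, (Even K ↔ n0 = 1) → (K : ZMod 2) + κ = 0)
    {a b a' b' : ℝ} (hb : b < a + 1) (hb' : b' < a' + 1) {u v : ℂ} (hu : ‖u‖ = 1)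
    (him : (fun z => u * (starRingEnd ℂ) z + v) '' (c '' Icc a b) = c '' Icc a' b')
    {p p' q q' : ℝ} (hp : a < p)
    (hp' : p' < b) (hq : a' < q) (hq' : q' < b') (hpp : p < p') (hqq : q < q')
    (e1 : u * (starRingEnd ℂ) (c p) + v = c q') (e2 : u * (starRingEnd ℂ) (c p') + v = c q) :
    ∃ k, Gm c θ κ p q' k ∧ Gm c θ κ p' q k ∧ (p = q → p' = q' → k = 0) := by
  have hu0 : u ≠ 0 := norm_ne_zero_iff.1 (by rw [hu]; exact one_ne_zero)
  have hT : Smy (fun z => u * (starRingEnd ℂ) z + v) u (-1) := ⟨hu0, Or.inr ⟨rfl, v, fun _ => rfl⟩⟩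
  obtain ⟨φ, d, P, hφ⟩ := mk_mp L J hT (by linarith) hb (by linarith) hb' him
  have ma : a ∈ Icc a b := ⟨le_rfl, by linarith⟩
  have mb : b ∈ Icc a b := ⟨by linarith, le_rfl⟩
  have mp : p ∈ Icc a b := ⟨by linarith, by linarith⟩
  have mp' : p' ∈ Icc a b := ⟨by linarith, by linarith⟩
  have mem : ∀ s ∈ Icc a b, φ s ∈ Icc a' b' := fun s hs => by
    rcases hφ with ⟨hd, f1, f2⟩ | ⟨hd, f1, f2⟩
    · rcases P.mono with ⟨-, h, -⟩ | ⟨h, -⟩
      · rw [← f1, ← f2]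
        exact ⟨h.monotoneOn ma hs hs.1, h.monotoneOn hs mb hs.2⟩
      · rw [hd] at h; exact absurd h (by decide)
    · rcases P.mono with ⟨h, -⟩ | ⟨-, h, -⟩
      · rw [hd] at h; exact absurd h (by decide)
      · rw [← f1, ← f2]
        exact ⟨h.antitoneOn hs mb hs.2, h.antitoneOn ma hs hs.1⟩
  have f1 : φ p = q' := inj_Icc J hb' (mem p mp) ⟨by linarith, by linarith⟩
    (by rw [P.eq p mp]; exact e1)
  have f2 : φ p' = q := inj_Icc J hb' (mem p' mp') ⟨by linarith, by linarith⟩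
    (by rw [P.eq p' mp']; exact e2)
  obtain ⟨hd, anti⟩ : d = -1 ∧ StrictAntiOn φ (Icc a b) := by
    rcases P.mono with ⟨-, h, -⟩ | ⟨h, h', -⟩
    · have := h mp mp' hpp
      rw [f1, f2] at this
      linarith
    · exact ⟨h, h'⟩
  subst hd
  obtain ⟨k, ε, hε, H⟩ := rel_minus L J h0 A hT P (a1 := (a + p) / 2) (b1 := (p' + b) / 2)
    (by linarith) (by linarith) (by linarith)
  obtain ⟨δ, T⟩ := germ_minus P (by linarith) (by linarith) hu hε H (s := p) (by linarith)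
    (by linarith)
  obtain ⟨δ', T'⟩ := germ_minus P (by linarith) (by linarith) hu hε H (s := p') (by linarith)
    (by linarith)
  refine ⟨(k : ZMod 2) + κ, Or.inr ⟨k, _, _, _, _, by rw [f1] at T; exact T, rfl⟩,
    Or.inr ⟨k, _, _, _, _, by rw [f2] at T'; exact T', rfl⟩, fun g1 g2 => ?_⟩
  subst g1 g2
  have hc : ContinuousOn (fun s => φ s - s) (Icc p p') :=
    (P.cont.mono (Icc_subset_Icc mp.1 mp'.2)).sub continuousOn_id
  obtain ⟨m, hm, hm0⟩ := intermediate_value_Icc' hpp.le hc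
    (show (0:ℝ) ∈ Icc (φ p' - p') (φ p - p) by rw [f1, f2]; constructor <;> linarith)
  simp only at hm0
  have hfm : φ m = m := by linarith
  obtain ⟨δ'', T''⟩ := germ_minus P (by linarith) (by linarith) hu hε H (s := m)
    (by linarith [hm.1]) (by linarith [hm.2])
  rw [hfm] at T''
  exact hκ k (T''.loop L J nosq A ho hw)

/-- The prolonged arc over `[p, p']` is mapped onto the prolonged arc over `[q, q']` by a
congruence keeping the orientation of the plane and the direction of the curve. -/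
def Dirc (c : ℝ → ℂ) (p p' q q' : ℝ) : Prop := ∃ a b a' b' : ℝ, a < p ∧ p' < b ∧ b < a + 1 ∧
  a' < q ∧ q' < b' ∧ b' < a' + 1 ∧ ∃ u v : ℂ, ‖u‖ = 1 ∧
    (fun z => u * z + v) '' (c '' Icc a b) = c '' Icc a' b' ∧ u * c p + v = c q ∧
    u * c p' + v = c q'

/-- The prolonged arc over `[p, p']` is mapped onto the prolonged arc over `[q, q']` by a
congruence reversing the orientation of the plane and the direction of the curve. -/
def Mirc (c : ℝ → ℂ) (p p' q q' : ℝ) : Prop := ∃ a b a' b' : ℝ, a < p ∧ p' < b ∧ b < a + 1 ∧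
  a' < q ∧ q' < b' ∧ b' < a' + 1 ∧ ∃ u v : ℂ, ‖u‖ = 1 ∧
    (fun z => u * (starRingEnd ℂ) z + v) '' (c '' Icc a b) = c '' Icc a' b' ∧
    u * (starRingEnd ℂ) (c p) + v = c q' ∧ u * (starRingEnd ℂ) (c p') + v = c q

theorem Dirc.symm {p p' q q' : ℝ} (h : Dirc c p p' q q') : Dirc c q q' p p' := by
  obtain ⟨a, b, a', b', h1, h2, h3, h4, h5, h6, u, v, hu, him, e1, e2⟩ := h
  have hu0 : u ≠ 0 := norm_ne_zero_iff.1 (by rw [hu]; exact one_ne_zero)
  have hinv : ∀ z, u⁻¹ * (u * z + v) + (-(u⁻¹ * v)) = z := fun z => by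
    field_simp; ring
  refine ⟨a', b', a, b, h4, h5, h6, h1, h2, h3, u⁻¹, -(u⁻¹ * v), by rw [norm_inv, hu, inv_one],
    ?_, ?_, ?_⟩
  · rw [← him, image_image]
    simp only [hinv, image_id']
  · rw [← e1, hinv]
  · rw [← e2, hinv]

theorem Mirc.symm {p p' q q' : ℝ} (h : Mirc c p p' q q') : Mirc c q q' p p' := by
  obtain ⟨a, b, a', b', h1, h2, h3, h4, h5, h6, u, v, hu, him, e1, e2⟩ := h
  have hmod : u * (starRingEnd ℂ) u = 1 := by
    rw [Complex.mul_conj, Complex.normSq_eq_norm_sq, hu]; norm_num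
  have hinv : ∀ z, u * (starRingEnd ℂ) (u * (starRingEnd ℂ) z + v) +
      (-(u * (starRingEnd ℂ) v)) = z := fun z => by
    simp only [map_add, map_mul, Complex.conj_conj]
    linear_combination z * hmod
  refine ⟨a', b', a, b, h4, h5, h6, h1, h2, h3, u, -(u * (starRingEnd ℂ) v), hu,
    ?_, ?_, ?_⟩
  · rw [← him, image_image]
    simp only [hinv, image_id']
  · rw [← e2, hinv]
  · rw [← e1, hinv]

theorem zm2_sub {x y z w k : ZMod 2} (h1 : z = x + k) (h2 : w = y + k) : w - z = y - x := by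
  subst h1 h2; ring

theorem zm2_sub' {x y z w k : ZMod 2} (h1 : w = x + k) (h2 : z = y + k) : w - z = y - x := by
  subst h1 h2
  rw [show x + k - (y + k) = x - y by ring, (zm2 x y).2, (zm2 y x).2, add_comm]

/-- Jordan curves composed of overlapping arcs that are mirror symmetric or congruent in pairs
contain inscribed squares. -/
theorem congruent_false (L : Loop c) (J : Inj c) (nosq : NoSq (range c)) {n : ℕ} {q : ℕ → ℝ}
    (hq : ∀ i < n, q i < q (i + 1)) (hn : q n = q 0 + 1) {σ : ℕ → ℕ}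
    (hσ : ∀ i < n, σ i < n ∧ σ (σ i) = i)
    (H : ∀ i < n, (σ i ≠ i ∧ Dirc c (q i) (q (i + 1)) (q (σ i)) (q (σ i + 1))) ∨
      Mirc c (q i) (q (i + 1)) (q (σ i)) (q (σ i + 1))) : False := by
  obtain ⟨θ, g, A, hodd⟩ := exists_odd L J nosq
  obtain ⟨z0, h0⟩ := exists_pos L J nosq
  obtain ⟨n0, ho, hw⟩ := wind_vals L J h0
  obtain ⟨κ, hκ⟩ := exκ n0
  obtain ⟨x, hx⟩ := exX (c := c) (θ := θ) (κ := κ) (fun s k h => h.loop L J nosq A ho hw hκ)
  have hs : ∑ i ∈ Finset.range n, (x (q (i + 1)) - x (q i)) = (g : ZMod 2) := by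
    rw [Finset.sum_range_sub (fun i => x (q i)), hn,
      hx _ _ _ _ (Gm.shift L A κ (q 0)) (Gm.unshift L A κ (q 0))]
    ring
  have key : ∀ i < n, x (q (σ i + 1)) - x (q (σ i)) = x (q (i + 1)) - x (q i) ∧
      (σ i = i → x (q (i + 1)) - x (q i) = 0) := fun i hi => by
    have hj := (hσ i hi).1
    rcases H i hi with ⟨hne, h⟩ | h
    · refine ⟨?_, fun h' => absurd h' hne⟩
      have h' := h.symm
      obtain ⟨a, b, a', b', h1, h2, h3, h4, h5, h6, u, v, hu, him, e1, e2⟩ := h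
      obtain ⟨k, g1, g2⟩ := plus_germs L J h0 A κ h3 h6 hu him h1 h2 h4 h5 (hq i hi) (hq _ hj) e1 e2
      obtain ⟨a, b, a', b', h1, h2, h3, h4, h5, h6, u, v, hu, him, e1, e2⟩ := h'
      obtain ⟨k', g3, g4⟩ := plus_germs L J h0 A κ h3 h6 hu him h1 h2 h4 h5 (hq _ hj) (hq i hi) e1 e2
      exact zm2_sub (hx _ _ _ _ g1 g3) (hx _ _ _ _ g2 g4)
    · have h' := h.symm
      obtain ⟨a, b, a', b', h1, h2, h3, h4, h5, h6, u, v, hu, him, e1, e2⟩ := h
      obtain ⟨k, g1, g2, g5⟩ := minus_germs L J nosq h0 A ho hw hκ h3 h6 hu him h1 h2 h4 h5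
        (hq i hi) (hq _ hj) e1 e2
      obtain ⟨a, b, a', b', h1, h2, h3, h4, h5, h6, u, v, hu, him, e1, e2⟩ := h'
      obtain ⟨k', g3, g4, -⟩ := minus_germs L J nosq h0 A ho hw hκ h3 h6 hu him h1 h2 h4 h5
        (hq _ hj) (hq i hi) e1 e2
      refine ⟨zm2_sub' (hx _ _ _ _ g1 g4) (hx _ _ _ _ g2 g3), fun he => ?_⟩
      have hk := g5 (by rw [he]) (by rw [he])
      have := hx _ _ _ _ g1 g4
      rw [hk, add_zero, he] at this
      rw [this, sub_self]
  have h2 : ∑ i ∈ Finset.range n, (x (q (i + 1)) - x (q i)) = 0 := by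
    refine Finset.sum_involution (fun i _ => σ i) (fun i hi => ?_) (fun i hi hne => ?_)
      (fun i hi => Finset.mem_range.2 (hσ i (Finset.mem_range.1 hi)).1)
      (fun i hi => (hσ i (Finset.mem_range.1 hi)).2)
    · rw [(key i (Finset.mem_range.1 hi)).1]
      exact (zm2 _ 0).1
    · exact fun he => hne ((key i (Finset.mem_range.1 hi)).2 he)
  rw [hs] at h2
  have h3 := (ZMod.intCast_zmod_eq_zero_iff_dvd g 2).1 h2
  exact Int.not_even_iff_odd.2 hodd (even_iff_two_dvd.2 h3)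

end Pool.Agent.Y535.PEG
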