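import Pool.Agent.Y535.PEG.Mcm
import Pool.Agent.Y535.PEG.ExD

/-! Local congruences and the levels of the tame points. -/

set_option autoImplicit false
open Complex Set Topology Metric

namespace Pool.Agent.Y535.PEG

open Pool.Agent.H763R2 Pool.Agent.H763R2.An Pool.Agent.W675.Peg Pool.Agent.TH569.Peg
open Pool.Agent.H763R2.Dm (NoSq floor_const)

variable {c : ℝ → ℂ} {θ : ℝ → ℝ → ℝ} {g : ℤ}

/-- the level of a tame point has the parity of the curve -/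
theorem KL.n0 (L : Loop c) (J : Inj c) (A : Ang c (mgc c) θ g) {n0 : ℤ} (ho : Odd n0)
    (hw : ∀ z, z ∉ range c → ∀ n, IsWc c z n → (0 < mgc c z → n = n0) ∧ (mgc c z < 0 → n = 0))
    {s : ℝ} (h : Cone c s) {l : ℤ} (hl : KL θ s l) : Even l ↔ n0 = 1 := by
  obtain ⟨p, q, hpq, hp, hq, ρ, hρ, hsg⟩ := cone_test L J h
  obtain ⟨ρ2, hρ2, h2⟩ := hl
  have nC : ∀ y : ℂ, mgc c y ≠ 0 → y ∉ range c := fun y h hy => h ((mgc_sg L).zero L |>.2 hy)
  have n00 : n0 ≠ 0 := by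
    rintro rfl
    exact absurd ho (by decide)
  have g4 : (n0 = 1 ∧ 0 < mgc c p) ∨ (n0 ≠ 1 ∧ mgc c p < 0) := by
    obtain ⟨n, hn⟩ := L.exW (nC p hp)
    obtain ⟨m, hm⟩ := L.exW (nC q hq)
    have e := hpq n m hn hm
    have P' := hw p (nC p hp) n hn
    have Q' := hw q (nC q hq) m hm
    rcases lt_or_gt_of_ne hp with h1 | h1 <;> rcases lt_or_gt_of_ne hq with h2 | h2
    · have := P'.2 h1; have := Q'.2 h2; omega
    · have a1 := P'.2 h1; have a2 := Q'.1 h2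
      exact Or.inr ⟨by omega, h1⟩
    · have a1 := P'.1 h1; have a2 := Q'.2 h2
      exact Or.inl ⟨by omega, h1⟩
    · have := P'.1 h1; have := Q'.1 h2; omega
  obtain ⟨ρ', hρ', l1, l2, l3⟩ : ∃ ρ' > 0, ρ' ≤ ρ ∧ ρ' ≤ ρ2 ∧ ρ' ≤ 1 / 2 :=
    ⟨min (min ρ ρ2) (1 / 2), by positivity, (min_le_left _ _).trans (min_le_left _ _),
      (min_le_left _ _).trans (min_le_right _ _), min_le_right _ _⟩
  obtain ⟨x, y, hx, hy, hxy⟩ := pair_near (s := s) hρ'
  have b1 := (hsg x y (hx.trans_le l1) (hy.trans_le l1) hxy).2.1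
  have b2 := h2 x y (hx.trans_le l2) (hy.trans_le l2) hxy
  obtain ⟨r, hr, -, e2⟩ := A.ex x y hxy (Tri_UU l3 hx hy hxy)
  rw [e2] at b1
  rw [← b2]
  rcases g4 with ⟨a1, a2⟩ | ⟨a1, a2⟩
  · have h5 : 0 < r * Real.sin (θ x y) := (mul_pos_iff_of_pos_left a2).1 b1
    exact ⟨fun _ => a1, fun _ => fl_even ((mul_pos_iff_of_pos_left hr).1 h5)⟩
  · have h5 : r * Real.sin (θ x y) < 0 := by
      by_contra hcon
      push Not at hcon
      have := mul_nonpos_of_nonpos_of_nonneg a2.le hcon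
      linarith
    have h6 : Real.sin (θ x y) < 0 := by
      by_contra hcon
      push Not at hcon
      have := mul_nonneg hr.le hcon
      linarith
    exact ⟨fun h => absurd h (Int.not_even_iff_odd.2 (fl_odd h6)), fun h => absurd h a1⟩

/-- a short forward chord at a point -/
theorem chord_at {s ρ1 ρ2 ρ3 : ℝ} (h1 : 0 < ρ1) (h2 : 0 < ρ2) (h3 : 0 < ρ3) :
    ∃ y, s < y ∧ |y - s| < ρ1 ∧ |y - s| < ρ2 ∧ y ≤ s + ρ3 ∧ y < s + 1 := by
  obtain ⟨r, hr, l1, l2, l3, l4⟩ : ∃ r > 0, r < ρ1 ∧ r < ρ2 ∧ r ≤ ρ3 ∧ r < 1 := by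
    refine ⟨min (min (ρ1 / 2) (ρ2 / 2)) (min ρ3 (1 / 2)), by positivity, ?_, ?_, ?_, ?_⟩
    · exact lt_of_le_of_lt ((min_le_left _ _).trans (min_le_left _ _)) (by linarith)
    · exact lt_of_le_of_lt ((min_le_left _ _).trans (min_le_right _ _)) (by linarith)
    · exact (min_le_right _ _).trans (min_le_left _ _)
    · exact lt_of_le_of_lt ((min_le_right _ _).trans (min_le_right _ _)) (by norm_num)
  refine ⟨s + r, by linarith, ?_, ?_, by linarith, by linarith⟩ <;>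
    rw [add_sub_cancel_left, abs_of_pos hr] <;> assumption

theorem TE.level {s t : ℝ} {K : ℤ} {Ψ : ℝ → ℝ} {δ : ℝ} {U V : ℂ} (T : TE c θ s t K Ψ δ U V)
    {l l' : ℤ} (h : KL θ s l) (h' : KL θ t l') : l' = l + 2 * K := by
  obtain ⟨ρ1, hρ1, h1⟩ := h
  obtain ⟨ρ2, hρ2, h2⟩ := h'
  obtain ⟨δ', hδ', hle, hn⟩ := near_cont T.hδ T.cont hρ2
  rw [T.base] at hn
  obtain ⟨y, hy, y1, -, y2, -⟩ := chord_at (s := s) hρ1 hρ1 hδ'
  have ms : s ∈ Icc (s - δ') (s + δ') := ⟨by linarith, by linarith⟩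
  have my : y ∈ Icc (s - δ') (s + δ') := ⟨by linarith, by linarith⟩
  have sub := win_sub (q := s) hle
  have e1 := h1 s y (by simpa using hρ1) y1 hy
  have e2 := h2 (Ψ s) (Ψ y) (hn s ms) (hn y my) (T.mono (sub ms) (sub my) hy)
  rw [fl_add (T.rel s (sub ms) y (sub my) hy), e1] at e2
  exact e2.symm

theorem TO.level (L : Loop c) (J : Inj c) (A : Ang c (mgc c) θ g) {s t : ℝ} {K : ℤ} {Ψ : ℝ → ℝ}
    {δ : ℝ} {U V : ℂ} (T : TO c θ s t K Ψ δ U V) (hs : Cone c s)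
    {l l' : ℤ} (h : KL θ s l) (h' : KL θ t l') : l' = -l + 2 * K := by
  obtain ⟨p, q, -, hp, -, ρ3, hρ3, hsg⟩ := cone_test L J hs
  obtain ⟨ρ1, hρ1, h1⟩ := h
  obtain ⟨ρ2, hρ2, h2⟩ := h'
  obtain ⟨δ', hδ', hle, hn⟩ := near_cont T.hδ T.cont hρ2
  rw [T.base] at hn
  obtain ⟨y, hy, y1, y3, y2, y4⟩ := chord_at (s := s) hρ1 hρ3 hδ'
  have ms : s ∈ Icc (s - δ') (s + δ') := ⟨by linarith, by linarith⟩
  have my : y ∈ Icc (s - δ') (s + δ') := ⟨by linarith, by linarith⟩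
  have sub := win_sub (q := s) hle
  have e1 := h1 s y (by simpa using hρ1) y1 hy
  have e2 := h2 (Ψ y) (Ψ s) (hn y my) (hn s ms) (T.anti (sub ms) (sub my) hy)
  obtain ⟨b1, b2, -, -⟩ := hsg s y (by simpa using hρ3) y3 hy
  have b3 : 0 < mgc c (DD c s y) * mgc c (CC c s y) := pos_tr (by rwa [mul_comm] at b1) b2
  have cs := cs_pos A hy y4 b3
  rw [T.rel s (sub ms) y (sub my) hy,
    show Real.pi / 2 - θ s y + K * (2 * Real.pi) = Real.pi / 2 + -1 * θ s y + K * (2 * Real.pi) by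
      ring, fl_half cs, e1] at e2
  exact e2.symm

theorem TE.cone {s t : ℝ} {K : ℤ} {Ψ : ℝ → ℝ} {δ : ℝ} {U V : ℂ} (T : TE c θ s t K Ψ δ U V)
    (h : Cone c s) : Cone c t := by
  obtain ⟨ρ, hρ, w, hw⟩ := h
  have hU : U ≠ 0 := norm_ne_zero_iff.1 (by rw [T.nU]; exact one_ne_zero)
  obtain ⟨η, hη, h1, h2⟩ : ∃ η > 0, η ≤ δ ∧ η < ρ :=
    ⟨min δ (ρ / 2), lt_min T.hδ (by linarith), min_le_left _ _,
      lt_of_le_of_lt (min_le_right _ _) (by linarith)⟩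
  have sub := win_sub (q := s) h1
  have ms : s ∈ Icc (s - η) (s + η) := ⟨by linarith, by linarith⟩
  have m1 : s - η ∈ Icc (s - η) (s + η) := ⟨by linarith, by linarith⟩
  have m2 : s + η ∈ Icc (s - η) (s + η) := ⟨by linarith, by linarith⟩
  have a1 := T.mono (sub m1) (sub ms) (by linarith)
  have a2 := T.mono (sub ms) (sub m2) (by linarith)
  rw [T.base] at a1 a2
  refine ⟨min (t - Ψ (s - η)) (Ψ (s + η) - t), lt_min (by linarith) (by linarith), w * U⁻¹,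
    fun x y hx hy hxy => ?_⟩
  have ex : ∀ x, |x - t| < min (t - Ψ (s - η)) (Ψ (s + η) - t) →
      ∃ x0 ∈ Icc (s - η) (s + η), Ψ x0 = x := fun x hx => by
    rw [lt_min_iff, abs_lt, abs_lt] at hx
    exact intermediate_value_Icc (by linarith) (T.cont.mono sub) ⟨by linarith, by linarith⟩
  obtain ⟨x0, hx0, rfl⟩ := ex x hx
  obtain ⟨y0, hy0, rfl⟩ := ex y hy
  have hlt : x0 < y0 := by
    by_contra hcon
    push Not at hcon
    have := T.mono.monotoneOn (sub hy0) (sub hx0) hcon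
    linarith
  have e : w * U⁻¹ * (c (Ψ y0) - c (Ψ x0)) = w * (c y0 - c x0) := by
    rw [T.eq _ (sub hx0), T.eq _ (sub hy0)]
    field_simp; ring
  rw [e]
  refine hw x0 y0 ?_ ?_ hlt
  · rw [abs_lt]; constructor <;> linarith [hx0.1, hx0.2]
  · rw [abs_lt]; constructor <;> linarith [hy0.1, hy0.2]

theorem TO.cone {s t : ℝ} {K : ℤ} {Ψ : ℝ → ℝ} {δ : ℝ} {U V : ℂ} (T : TO c θ s t K Ψ δ U V)
    (h : Cone c s) : Cone c t := by
  obtain ⟨ρ, hρ, w, hw⟩ := h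
  have hU : U ≠ 0 := norm_ne_zero_iff.1 (by rw [T.nU]; exact one_ne_zero)
  obtain ⟨η, hη, h1, h2⟩ : ∃ η > 0, η ≤ δ ∧ η < ρ :=
    ⟨min δ (ρ / 2), lt_min T.hδ (by linarith), min_le_left _ _,
      lt_of_le_of_lt (min_le_right _ _) (by linarith)⟩
  have sub := win_sub (q := s) h1
  have ms : s ∈ Icc (s - η) (s + η) := ⟨by linarith, by linarith⟩
  have m1 : s - η ∈ Icc (s - η) (s + η) := ⟨by linarith, by linarith⟩
  have m2 : s + η ∈ Icc (s - η) (s + η) := ⟨by linarith, by linarith⟩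
  have a1 := T.anti (sub m1) (sub ms) (by linarith)
  have a2 := T.anti (sub ms) (sub m2) (by linarith)
  rw [T.base] at a1 a2
  refine ⟨min (Ψ (s - η) - t) (t - Ψ (s + η)), lt_min (by linarith) (by linarith),
    -((starRingEnd ℂ) w * U⁻¹), fun x y hx hy hxy => ?_⟩
  have ex : ∀ x, |x - t| < min (Ψ (s - η) - t) (t - Ψ (s + η)) →
      ∃ x0 ∈ Icc (s - η) (s + η), Ψ x0 = x := fun x hx => by
    rw [lt_min_iff, abs_lt, abs_lt] at hx
    exact intermediate_value_Icc' (by linarith) (T.cont.mono sub) ⟨by linarith, by linarith⟩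
  obtain ⟨x0, hx0, rfl⟩ := ex x hx
  obtain ⟨y0, hy0, rfl⟩ := ex y hy
  have hlt : y0 < x0 := by
    by_contra hcon
    push Not at hcon
    have := T.anti.antitoneOn (sub hx0) (sub hy0) hcon
    linarith
  have e : -((starRingEnd ℂ) w * U⁻¹) * (c (Ψ y0) - c (Ψ x0)) =
      (starRingEnd ℂ) (w * (c x0 - c y0)) := by
    rw [T.eq _ (sub hx0), T.eq _ (sub hy0), map_mul, map_sub]
    field_simp; ring
  rw [e, Complex.conj_im, Complex.conj_re, abs_neg]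
  refine hw y0 x0 ?_ ?_ hlt
  · rw [abs_lt]; constructor <;> linarith [hy0.1, hy0.2]
  · rw [abs_lt]; constructor <;> linarith [hx0.1, hx0.2]

/-- local congruences change the levels of tame points by their parity -/
theorem Gm.tame (L : Loop c) (J : Inj c) (A : Ang c (mgc c) θ g) {n0 : ℤ} (ho : Odd n0)
    (hw : ∀ z, z ∉ range c → ∀ n, IsWc c z n → (0 < mgc c z → n = n0) ∧ (mgc c z < 0 → n = 0))
    {κ : ZMod 2} (hκ : ∀ K : ℤ, (Even K ↔ n0 = 1) → (K : ZMod 2) + κ = 0) {s t : ℝ} {k : ZMod 2}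
    (h : Gm c θ κ s t k) (hs : Cone c s) : Cone c t ∧ ∀ l0 a b : ℤ, KL θ s (l0 + 2 * a) →
      KL θ t (l0 + 2 * b) → (b : ZMod 2) = a + k := by
  rcases h with ⟨K, Ψ, δ, U, V, T, e⟩ | ⟨K, Ψ, δ, U, V, T, e⟩
  · refine ⟨T.cone hs, fun l0 a b h1 h2 => ?_⟩
    have h3 := T.level h1 h2
    have h4 : b = a + K := by linarith
    rw [h4, ← e]; push_cast; ring
  · refine ⟨T.cone hs, fun l0 a b h1 h2 => ?_⟩
    have h3 := T.level L J A hs h1 h2
    have h4 : b = K - a - l0 := by linarith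
    have h5 := h1.n0 L J A ho hw hs
    have h6 : Even l0 ↔ n0 = 1 := by
      rw [← h5, Int.even_add]
      simp
    have h7 := hκ l0 h6
    have h8 : κ = -(l0 : ZMod 2) := by linear_combination h7
    rw [h4, ← e, h8]; push_cast
    have h9 := (zm2 (0 : ZMod 2) a).2
    rw [zero_sub, zero_add] at h9
    linear_combination h9

end Pool.Agent.Y535.PEG
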