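import Pool.Agent.Y535.PEG.Mcn

/-! Jordan curves composed of locally monotone arcs, arcs similar to each other with tame ends, and
overlapping congruent arcs with arbitrary ends. -/

set_option autoImplicit false
open Complex Set Topology Metric

namespace Pool.Agent.Y535.PEG

open Pool.Agent.H763R2 Pool.Agent.H763R2.An Pool.Agent.W675.Peg Pool.Agent.TH569.Peg
open Pool.Agent.H763R2.Dm (NoSq floor_const)

variable {c : ℝ → ℂ} {θ : ℝ → ℝ → ℝ} {g : ℤ}

/-- the integer charge of a curve without inscribed squares and the levels of tame points -/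
theorem exChargeK (L : Loop c) (J : Inj c) (nosq : NoSq (range c)) (A : Ang c (mgc c) θ g) :
    ∃ (x : ℝ → ℤ) (l0 : ℤ),
      (∀ s, Cone c s → KL θ s (l0 + 2 * x s)) ∧
      (∀ s t, AR c s t → (∀ r ∈ Icc s t, Mon c r) → x t = x s) ∧
      (∀ s t s' t', AR c s t → AR c s' t' → KP c s t s' t' → x t' - x s' = x t - x s) ∧
      (∀ s t s' t', AR c s t → AR c s' t' → SP c s t s' t' → x t' - x s' = -(x t - x s)) ∧
      (∀ s t, AR c s t → MN c s t → Even (x t - x s)) := by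
  classical
  obtain ⟨z0, h0⟩ := exists_pos L J nosq
  by_cases hex : ∃ s0, Cone c s0
  · obtain ⟨s0, C0⟩ := hex
    obtain ⟨l0, hl0⟩ := exKL L J A C0
    have ex1 : ∀ s, ∃ k : ℤ, Cone c s → KL θ s (l0 + 2 * k) := fun s => by
      by_cases hs : Cone c s
      · obtain ⟨k, hk⟩ := exKL L J A hs
        obtain ⟨m, hm⟩ := KL.parity L J h0 A C0 hs hl0 hk
        exact ⟨m, fun _ => by rwa [show l0 + 2 * m = k by linarith]⟩
      · exact ⟨0, fun h => absurd h hs⟩
    choose x hx using ex1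
    refine ⟨x, l0, hx, ?_, ?_, ?_, ?_⟩
    · intro s t h hM
      have := monoX jP jT2 Y407.PEG.sgU jI L J nosq A h.ab h.ba h.ha h.hb hM (hx s h.ha) (hx t h.hb)
      linarith
    · intro s t s' t' h h' hK
      have e1 := keepL L J h0 A h h' (hx s h.ha) (hx t h.hb) (hx s' h'.ha) (hx t' h'.hb) hK
      linarith
    · intro s t s' t' h h' hK
      obtain ⟨ra, k1⟩ := exKR L J A h'.ha
      obtain ⟨rb, k2⟩ := exKR L J A h'.hb
      have e1 := swapLR L J h0 A h h' (hx s h.ha) (hx t h.hb) k1 k2 hK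
      have e2 := parityX jP jT1 Y407.PEG.sgU jI L J nosq A h'.ab h'.ba h'.ha h'.hb (hx s' h'.ha)
        (hx t' h'.hb) k1 k2
      linarith
    · rintro s t h ⟨u, v, hu, e1, e2⟩
      obtain ⟨k, hk⟩ := mirror_evenN L J nosq h0 A h (hx s h.ha) (hx t h.hb) hu e1 e2
      exact ⟨k, by linarith⟩
  · refine ⟨0, 0, ?_, ?_, ?_, ?_, ?_⟩
    · exact fun s hs => absurd ⟨s, hs⟩ hex
    · exact fun s t h => absurd ⟨s, h.ha⟩ hex
    · exact fun s t s' t' h => absurd ⟨s, h.ha⟩ hex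
    · exact fun s t s' t' h => absurd ⟨s, h.ha⟩ hex
    · exact fun s t h => absurd ⟨s, h.ha⟩ hex

theorem dirc_x (L : Loop c) (J : Inj c) {z0 : ℂ} (h0 : 0 < mgc c z0) (A : Ang c (mgc c) θ g)
    {κ : ZMod 2} {x : ℝ → ZMod 2}
    (hx : ∀ s t k k', Gm c θ κ s t k → Gm c θ κ t s k' → x t = x s + k) {p p' q q' : ℝ}
    (hp : p < p') (hq : q < q') (h : Dirc c p p' q q') : x q' - x q = x p' - x p := by
  have h' := h.symm
  obtain ⟨a, b, a', b', h1, h2, h3, h4, h5, h6, u, v, hu, him, e1, e2⟩ := h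
  obtain ⟨k, g1, g2⟩ := plus_germs L J h0 A κ h3 h6 hu him h1 h2 h4 h5 hp hq e1 e2
  obtain ⟨a, b, a', b', h1, h2, h3, h4, h5, h6, u, v, hu, him, e1, e2⟩ := h'
  obtain ⟨k', g3, g4⟩ := plus_germs L J h0 A κ h3 h6 hu him h1 h2 h4 h5 hq hp e1 e2
  exact zm2_sub (hx _ _ _ _ g1 g3) (hx _ _ _ _ g2 g4)

theorem mirc_x (L : Loop c) (J : Inj c) (nosq : NoSq (range c)) {z0 : ℂ} (h0 : 0 < mgc c z0)
    (A : Ang c (mgc c) θ g) {n0 : ℤ} (ho : Odd n0)
    (hw : ∀ z, z ∉ range c → ∀ n, IsWc c z n → (0 < mgc c z → n = n0) ∧ (mgc c z < 0 → n = 0))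
    {κ : ZMod 2} (hκ : ∀ K : ℤ, (Even K ↔ n0 = 1) → (K : ZMod 2) + κ = 0) {x : ℝ → ZMod 2}
    (hx : ∀ s t k k', Gm c θ κ s t k → Gm c θ κ t s k' → x t = x s + k) {p p' q q' : ℝ}
    (hp : p < p') (hq : q < q') (h : Mirc c p p' q q') : x q' - x q = x p' - x p ∧
      (p = q → p' = q' → x p' - x p = 0) := by
  have h' := h.symm
  obtain ⟨a, b, a', b', h1, h2, h3, h4, h5, h6, u, v, hu, him, e1, e2⟩ := h
  obtain ⟨k, g1, g2, g5⟩ := minus_germs L J nosq h0 A ho hw hκ h3 h6 hu him h1 h2 h4 h5 hp hq e1 e2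
  obtain ⟨a, b, a', b', h1, h2, h3, h4, h5, h6, u, v, hu, him, e1, e2⟩ := h'
  obtain ⟨k', g3, g4, -⟩ := minus_germs L J nosq h0 A ho hw hκ h3 h6 hu him h1 h2 h4 h5 hq hp e1 e2
  refine ⟨zm2_sub' (hx _ _ _ _ g1 g4) (hx _ _ _ _ g2 g3), fun he he' => ?_⟩
  have hk := g5 he he'
  subst he he'
  have := hx _ _ _ _ g1 g4
  rw [hk, add_zero] at this
  rw [this, sub_self]

theorem ord_chain {n : ℕ} {t : ℕ → ℝ} (ht : ∀ i < n, t i < t (i + 1)) {i j : ℕ} (hij : i ≤ j)
    (hj : j ≤ n) : t i ≤ t j := by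
  induction j, hij using Nat.le_induction with
  | base => exact le_rfl
  | succ j hij ih => exact (ih (by omega)).trans (ht j (by omega)).le

theorem ord_len {n : ℕ} (hn : 2 ≤ n) {t : ℕ → ℝ} (ht : ∀ i < n, t i < t (i + 1))
    (h1 : t n = t 0 + 1) {i : ℕ} (hi : i < n) : t (i + 1) < t i + 1 := by
  rcases Nat.eq_zero_or_pos i with rfl | h
  · have h2 := ht 1 (by omega)
    have h3 := ord_chain ht (i := 1 + 1) (j := n) (by omega) le_rfl
    have h4 : t (0 + 1) = t 1 := rfl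
    linarith
  · have h2 := ht 0 (by omega)
    have h3 := ord_chain ht (i := 0 + 1) (j := i) (by omega) hi.le
    have h4 := ord_chain ht (i := i + 1) (j := n) (by omega) le_rfl
    linarith

/-- the general conclusion -/
theorem glued_false (L : Loop c) (J : Inj c) (nosq : NoSq (range c)) {n : ℕ} (hn : 2 ≤ n)
    {t : ℕ → ℝ} (ht : ∀ i < n, t i < t (i + 1)) (h1 : t n = t 0 + 1) {σ : ℕ → ℕ}
    (hσ : ∀ i < n, σ i < n ∧ σ (σ i) = i)
    (H : ∀ i < n,
      (Cone c (t i) ∧ Cone c (t (i + 1)) ∧ ∀ s ∈ Icc (t i) (t (i + 1)), Mon c s) ∨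
      (Cone c (t i) ∧ Cone c (t (i + 1)) ∧ Cone c (t (σ i)) ∧ Cone c (t (σ i + 1)) ∧
        ∃ f, Smx f ∧ f '' (c '' Icc (t i) (t (i + 1))) = c '' Icc (t (σ i)) (t (σ i + 1)) ∧
          (σ i = i → f (c (t i)) = c (t (i + 1)))) ∨
      (σ i ≠ i ∧ Dirc c (t i) (t (i + 1)) (t (σ i)) (t (σ i + 1))) ∨
      Mirc c (t i) (t (i + 1)) (t (σ i)) (t (σ i + 1))) : False := by
  classical
  obtain ⟨θ, g, A, hodd⟩ := exists_odd L J nosq
  obtain ⟨z0, h0⟩ := exists_pos L J nosq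
  obtain ⟨n0, ho, hw⟩ := wind_vals L J h0
  obtain ⟨κ, hκ⟩ := exκ n0
  obtain ⟨x0, hx0⟩ := exX (c := c) (θ := θ) (κ := κ) (fun s k h => h.loop L J nosq A ho hw hκ)
  obtain ⟨y, l0, hy, m1, m2, m3, m4⟩ := exChargeK L J nosq A
  obtain ⟨x, hxc, hxn⟩ : ∃ x : ℝ → ZMod 2, (∀ s, Cone c s → x s = (y s : ZMod 2)) ∧
      ∀ s, ¬ Cone c s → x s = x0 s :=
    ⟨fun s => if Cone c s then (y s : ZMod 2) else x0 s, fun s hs => if_pos hs,
      fun s hs => if_neg hs⟩
  have hx : ∀ s t k k', Gm c θ κ s t k → Gm c θ κ t s k' → x t = x s + k := by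
    intro s t k k' h h'
    by_cases hs : Cone c s
    · obtain ⟨hc, hl⟩ := h.tame L J A ho hw hκ hs
      rw [hxc s hs, hxc t hc]
      exact hl l0 _ _ (hy s hs) (hy t hc)
    · have hc : ¬ Cone c t := fun hc => hs (h'.tame L J A ho hw hκ hc).1
      rw [hxn s hs, hxn t hc]
      exact hx0 _ _ _ _ h h'
  have hs : ∑ i ∈ Finset.range n, (x (t (i + 1)) - x (t i)) = (g : ZMod 2) := by
    rw [Finset.sum_range_sub (fun i => x (t i)), h1,
      hx _ _ _ _ (Gm.shift L A κ (t 0)) (Gm.unshift L A κ (t 0))]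
    ring
  have ar : ∀ i < n, Cone c (t i) → Cone c (t (i + 1)) → AR c (t i) (t (i + 1)) :=
    fun i hi c1 c2 => ⟨ht i hi, ord_len hn ht h1 hi, c1, c2⟩
  have one : ∀ i < n, (x (t (i + 1)) - x (t i) = 0 ∨
      x (t (σ i + 1)) - x (t (σ i)) = x (t (i + 1)) - x (t i)) ∧
      (σ i = i → x (t (i + 1)) - x (t i) = 0) := fun i hi => by
    have hj := (hσ i hi).1
    rcases H i hi with ⟨c1, c2, h⟩ | ⟨c1, c2, c3, c4, f, ⟨u, v, hu, hf⟩, k2, k3⟩ | ⟨hne, h⟩ | h
    · have e := m1 _ _ (ar i hi c1 c2) h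
      have e' : x (t (i + 1)) - x (t i) = 0 := by
        rw [hxc _ c1, hxc _ c2, e, sub_self]
      exact ⟨Or.inl e', fun _ => e'⟩
    · have hA := ar i hi c1 c2
      have hA' := ar _ hj c3 c4
      have hcase := sim_cases L J hA hA' hu (v := v) (by
        rcases hf with hf | hf
        · left; rw [← hf]; exact k2
        · right; rw [← hf]; exact k2)
      have e1 : y (t (σ i + 1)) - y (t (σ i)) = y (t (i + 1)) - y (t i) ∨
          y (t (σ i + 1)) - y (t (σ i)) = -(y (t (i + 1)) - y (t i)) := by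
        rcases hcase with h | h
        · exact Or.inl (m2 _ _ _ _ hA hA' h)
        · exact Or.inr (m3 _ _ _ _ hA hA' h)
      refine ⟨Or.inr ?_, fun he => ?_⟩
      · rw [hxc _ c1, hxc _ c2, hxc _ c3, hxc _ c4]
        rcases e1 with e1 | e1
        · have := congrArg (fun m : ℤ => (m : ZMod 2)) e1
          push_cast at this
          exact this
        · have := congrArg (fun m : ℤ => (m : ZMod 2)) e1
          push_cast at this
          rw [this]
          have h9 := (zm2 (0 : ZMod 2) ((y (t (i + 1)) : ZMod 2) - (y (t i) : ZMod 2))).2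
          rwa [zero_sub, zero_add] at h9
      · rw [hxc _ c1, hxc _ c2]
        have hev : Even (y (t (i + 1)) - y (t i)) := by
          have k3' := k3 he
          rw [he] at k2
          rcases hf with hf | hf
          · rw [hf] at k2 k3'
            have := m3 _ _ _ _ hA hA ⟨u, v, hu, Or.inl ⟨k2, k3'⟩⟩
            have h0 : y (t (i + 1)) - y (t i) = 0 := by linarith
            rw [h0]
            exact Even.zero
          · rw [hf] at k2 k3'
            exact m4 _ _ hA ⟨u, v, hu, k2, k3'⟩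
        have := (ZMod.intCast_zmod_eq_zero_iff_dvd _ 2).2 (even_iff_two_dvd.1 hev)
        push_cast at this
        exact this
    · exact ⟨Or.inr (dirc_x L J h0 A hx (ht i hi) (ht _ hj) h), fun he => absurd he hne⟩
    · obtain ⟨e1, e2⟩ := mirc_x L J nosq h0 A ho hw hκ hx (ht i hi) (ht _ hj) h
      exact ⟨Or.inr e1, fun he => e2 (by rw [he]) (by rw [he])⟩
  have key : ∀ i < n, x (t (σ i + 1)) - x (t (σ i)) = x (t (i + 1)) - x (t i) := fun i hi => by
    obtain ⟨hj, hjj⟩ := hσ i hi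
    rcases (one i hi).1 with h | h
    · rcases (one _ hj).1 with h' | h'
      · rw [h, h']
      · rw [hjj] at h'
        exact h'.symm
    · exact h
  have h2 : ∑ i ∈ Finset.range n, (x (t (i + 1)) - x (t i)) = 0 := by
    refine Finset.sum_involution (fun i _ => σ i) (fun i hi => ?_) (fun i hi hne => ?_)
      (fun i hi => Finset.mem_range.2 (hσ i (Finset.mem_range.1 hi)).1)
      (fun i hi => (hσ i (Finset.mem_range.1 hi)).2)
    · rw [key i (Finset.mem_range.1 hi)]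
      exact (zm2 _ 0).1
    · exact fun he => hne ((one i (Finset.mem_range.1 hi)).2 he)
  rw [hs] at h2
  have h3 := (ZMod.intCast_zmod_eq_zero_iff_dvd g 2).1 h2
  exact Int.not_even_iff_odd.2 hodd (even_iff_two_dvd.2 h3)

end Pool.Agent.Y535.PEG
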