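import Pool.Agent.Y535.PEG.Chg

/-! Arcs that are symmetric about a line. -/

set_option autoImplicit false
open Complex Set Topology Metric

namespace Pool.Agent.Y535.PEG

open Pool.Agent.H763R2 Pool.Agent.H763R2.An Pool.Agent.W675.Peg Pool.Agent.TH569.Peg
open Pool.Agent.H763R2.Dm (NoSq floor_const)

variable {c : ℝ → ℂ} {θ : ℝ → ℝ → ℝ} {g : ℤ}

theorem exPkM (L : Loop c) (J : Inj c) {z0 : ℂ} (h0 : 0 < mgc c z0) (A : Ang c (mgc c) θ g)
    {T : ℂ → ℂ} {u : ℂ} {e d : ℤ} (hT : Smy T u e) {φ : ℝ → ℝ} {a b : ℝ} (P : Mp c T φ a b d)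
    (ha : Cone c a) (hb : Cone c b) {k0 k1 : ℤ} (hk0 : KL θ a k0) (hk1 : KL θ b k1) {ρa ρb : ℝ}
    (hρa : 0 < ρa) (hρb : 0 < ρb) {m0 : ℝ} (hm1 : a < m0) (hm2 : m0 < b) :
    ∃ S pa pb v, Pk c θ T φ a b d e k0 k1 ρa ρb S pa pb v ∧ ∃ ρm > 0, Tri m0 ρm ⊆ S := by
  have hab := P.ab
  obtain ⟨r1, hr1, sa⟩ := cone_sign L J ha
  obtain ⟨r2, hr2, sb⟩ := cone_sign L J hb
  obtain ⟨r3, hr3, ka⟩ := hk0
  obtain ⟨r4, hr4, kb⟩ := hk1
  obtain ⟨r5, hr5, fa⟩ := Metric.continuousWithinAt_iff.1 (P.cont a ⟨le_rfl, hab.le⟩) ρa hρa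
  obtain ⟨r6, hr6, fb⟩ := Metric.continuousWithinAt_iff.1 (P.cont b ⟨hab.le, le_rfl⟩) ρb hρb
  simp only [Real.dist_eq] at fa fb
  obtain ⟨δ, hδ, d1, d2, d3, d4, d5, d6, d7, d8, d9⟩ : ∃ δ > 0, 2 * δ < r1 ∧ 2 * δ < r2 ∧
      2 * δ < r3 ∧ 2 * δ < r4 ∧ 2 * δ < r5 ∧ 2 * δ < r6 ∧ 3 * δ < b - a ∧ 2 * δ < m0 - a ∧
      2 * δ < b - m0 := by
    have hba : 0 < m0 - a := by linarith
    have hba' : 0 < b - m0 := by linarith
    refine ⟨min (min (min r1 r2) (min r3 r4)) (min (min r5 r6) (min (m0 - a) (b - m0))) / 4,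
      by positivity, ?_⟩
    set m := min (min (min r1 r2) (min r3 r4)) (min (min r5 r6) (min (m0 - a) (b - m0))) with hm
    have hm0 : 0 < m := by positivity
    have l1 : m ≤ r1 := (min_le_left _ _).trans ((min_le_left _ _).trans (min_le_left _ _))
    have l2 : m ≤ r2 := (min_le_left _ _).trans ((min_le_left _ _).trans (min_le_right _ _))
    have l3 : m ≤ r3 := (min_le_left _ _).trans ((min_le_right _ _).trans (min_le_left _ _))
    have l4 : m ≤ r4 := (min_le_left _ _).trans ((min_le_right _ _).trans (min_le_right _ _))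
    have l5 : m ≤ r5 := (min_le_right _ _).trans ((min_le_left _ _).trans (min_le_left _ _))
    have l6 : m ≤ r6 := (min_le_right _ _).trans ((min_le_left _ _).trans (min_le_right _ _))
    have l7 : m ≤ m0 - a := (min_le_right _ _).trans ((min_le_right _ _).trans (min_le_left _ _))
    have l8 : m ≤ b - m0 := (min_le_right _ _).trans ((min_le_right _ _).trans (min_le_right _ _))
    refine ⟨?_, ?_, ?_, ?_, ?_, ?_, ?_, ?_, ?_⟩ <;> linarith
  obtain ⟨r, hr, hM⟩ := arc_eq L J h0 hT P (a1 := a + δ) (b1 := b - δ) (by linarith) (by linarith)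
    (by linarith)
  have huc : UniformContinuousOn c (Icc a b) :=
    isCompact_Icc.uniformContinuousOn_of_continuous L.cont.continuousOn
  obtain ⟨η, hη, hu⟩ := Metric.uniformContinuousOn_iff.1 huc (r / 2) (by positivity)
  obtain ⟨ε, hε, e1, e2⟩ : ∃ ε > 0, ε ≤ δ ∧ ε ≤ η := ⟨min δ η, by positivity, min_le_left _ _,
    min_le_right _ _⟩
  have b1 := P.b1
  refine ⟨{p | a + δ ≤ p.1 ∧ p.2 ≤ b - δ ∧ p.1 < p.2 ∧ p.2 < p.1 + ε}, (a + δ, a + δ + ε / 2),
    (b - δ - ε / 2, b - δ), ‖u‖, ?_, min δ (ε / 2), by positivity, ?_⟩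
  swap
  · rintro ⟨x, y⟩ ⟨g1, g2, g3⟩
    simp only at g1 g2 g3
    have k1 := min_le_left δ (ε / 2)
    have k2 := min_le_right δ (ε / 2)
    rw [abs_lt] at g1 g2
    exact ⟨by simp only; linarith, by simp only; linarith, g3, by simp only; linarith⟩
  have near : ∀ x y : ℝ, a + δ ≤ x → y ≤ b - δ → x < y → y < x + ε →
      ‖DD c x y - c x‖ < r ∧ ‖CC c x y - c x‖ < r := by
    intro x y h1 h2 h3 h4
    have h5 := hu y ⟨by linarith, by linarith⟩ x ⟨by linarith, by linarith⟩ (by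
      rw [Real.dist_eq, abs_of_pos (by linarith)]; linarith)
    rw [dist_eq_norm] at h5
    constructor
    · rw [DD_eq, add_sub_cancel_left, norm_mul, norm_I, one_mul]; linarith
    · rw [CC_eq, show c y + I * (c y - c x) - c x = (c y - c x) + I * (c y - c x) by ring]
      refine (norm_add_le _ _).trans_lt ?_
      rw [norm_mul, norm_I, one_mul]; linarith
  have uu : ∀ x y : ℝ, a + δ ≤ x → y ≤ b - δ → x < y → y < x + ε → y < x + 1 :=
    fun x y h1 h2 h3 h4 => by linarith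
  refine ⟨?_, norm_pos_iff.2 hT.ne, ?_, ?_, ?_, ?_, ?_, ?_, ?_, ?_, ?_, ?_, ?_, ?_, ?_, ?_, ?_⟩
  · refine Convex.isPreconnected ?_
    rintro ⟨x, y⟩ ⟨h1, h2, h3, h4⟩ ⟨x', y'⟩ ⟨h1', h2', h3', h4'⟩ p q hp hq hpq
    simp only at h1 h2 h3 h4 h1' h2' h3' h4'
    have hq' : q = 1 - p := by linarith
    subst hq'
    refine ⟨?_, ?_, ?_, ?_⟩ <;> simp only [Prod.smul_mk, Prod.mk_add_mk, smul_eq_mul]
    · nlinarith [mul_le_mul_of_nonneg_left h1 hp, mul_le_mul_of_nonneg_left h1' hq]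
    · nlinarith [mul_le_mul_of_nonneg_left h2 hp, mul_le_mul_of_nonneg_left h2' hq]
    · rcases lt_or_eq_of_le hp with h | h
      · nlinarith [mul_lt_mul_of_pos_left h3 h, mul_le_mul_of_nonneg_left h3'.le hq]
      · rw [← h]; linarith
    · rcases lt_or_eq_of_le hp with h | h
      · nlinarith [mul_lt_mul_of_pos_left h4 h, mul_le_mul_of_nonneg_left h4'.le hq]
      · rw [← h]; linarith
  · exact ⟨le_rfl, by simp only; linarith, by simp only; linarith, by simp only; linarith⟩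
  · exact ⟨by simp only; linarith, le_rfl, by simp only; linarith, by simp only; linarith⟩
  · rintro ⟨x, y⟩ ⟨h1, h2, h3, h4⟩
    exact ⟨h3, uu x y h1 h2 h3 h4⟩
  · rintro ⟨x, y⟩ ⟨h1, h2, h3, h4⟩
    simp only at h1 h2 h3 h4
    exact ⟨by simp only; linarith, by simp only; linarith⟩
  · rintro ⟨x, y⟩ ⟨h1, h2, h3, h4⟩
    simp only at h1 h2 h3 h4
    exact ⟨by simp only; linarith, by simp only; linarith⟩
  · rintro ⟨x, y⟩ ⟨h1, h2, h3, h4⟩
    exact hM x ⟨h1, by simp only at h3 h2; linarith⟩ _ (near x y h1 h2 h3 h4).1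
  · rintro ⟨x, y⟩ ⟨h1, h2, h3, h4⟩
    exact hM x ⟨h1, by simp only at h3 h2; linarith⟩ _ (near x y h1 h2 h3 h4).2
  · exact ka _ _ (by rw [add_sub_cancel_left, abs_of_pos hδ]; linarith)
      (by rw [show a + δ + ε / 2 - a = δ + ε / 2 by ring, abs_of_pos (by positivity)]; linarith)
      (by linarith)
  · exact kb _ _ (by
      rw [show b - δ - ε / 2 - b = -(δ + ε / 2) by ring, abs_neg, abs_of_pos (by positivity)]
      linarith) (by rw [show b - δ - b = -δ by ring, abs_neg, abs_of_pos hδ]; linarith)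
      (by linarith)
  · exact cs_pos A (by simp only; linarith) (by simp only; linarith)
      (sa _ _ (by rw [add_sub_cancel_left, abs_of_pos hδ]; linarith)
      (by rw [show a + δ + ε / 2 - a = δ + ε / 2 by ring, abs_of_pos (by positivity)]; linarith)
      (by linarith)).1
  · exact cs_pos A (by simp only; linarith) (by simp only; linarith)
      (sb _ _ (by
      rw [show b - δ - ε / 2 - b = -(δ + ε / 2) by ring, abs_neg, abs_of_pos (by positivity)]
      linarith) (by rw [show b - δ - b = -δ by ring, abs_neg, abs_of_pos hδ]; linarith)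
      (by linarith)).1
  · exact fa ⟨by simp only; linarith, by simp only; linarith⟩
      (by rw [add_sub_cancel_left, abs_of_pos hδ]; linarith)
  · exact fa ⟨by simp only; linarith, by simp only; linarith⟩
      (by rw [show a + δ + ε / 2 - a = δ + ε / 2 by ring, abs_of_pos (by positivity)]; linarith)
  · exact fb ⟨by simp only; linarith, by simp only; linarith⟩
      (by rw [show b - δ - ε / 2 - b = -(δ + ε / 2) by ring, abs_neg, abs_of_pos (by positivity)]
          linarith)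
  · exact fb ⟨by simp only; linarith, by simp only; linarith⟩
      (by rw [show b - δ - b = -δ by ring, abs_neg, abs_of_pos hδ]; linarith)


theorem conj_lin {u v z w : ℂ} : (u * (starRingEnd ℂ) z + v) - (u * (starRingEnd ℂ) w + v) =
    u * (starRingEnd ℂ) (z - w) := by
  rw [map_sub]; ring

/-- data of an arc that a reflection maps onto itself -/
structure Mr (c : ℝ → ℂ) (a b : ℝ) (u v : ℂ) (φ : ℝ → ℝ) : Prop where
  P : Mp c (fun z => u * (starRingEnd ℂ) z + v) φ a b (-1)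
  hT : Smy (fun z => u * (starRingEnd ℂ) z + v) u (-1)
  fa : φ a = b
  fb : φ b = a
  anti : StrictAntiOn φ (Icc a b)
  mem : ∀ s ∈ Icc a b, φ s ∈ Icc a b
  inv : ∀ s ∈ Icc a b, φ (φ s) = s

theorem exMr (L : Loop c) (J : Inj c) {a b : ℝ} (h : AR c a b) {u v : ℂ} (hu : u ≠ 0)
    (him : (fun z => u * (starRingEnd ℂ) z + v) '' (c '' Icc a b) = c '' Icc a b)
    (hab : u * (starRingEnd ℂ) (c a) + v = c b) : ∃ φ, Mr c a b u v φ := by
  have hT : Smy (fun z => u * (starRingEnd ℂ) z + v) u (-1) :=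
    ⟨hu, Or.inr ⟨rfl, v, fun _ => rfl⟩⟩
  obtain ⟨φ, d, P, hφ⟩ := mk_mp L J hT h.ab h.ba h.ab h.ba him
  have hne := h.ne J
  have ma : a ∈ Icc a b := ⟨le_rfl, h.ab.le⟩
  have mb : b ∈ Icc a b := ⟨h.ab.le, le_rfl⟩
  have ea := P.eq a ma
  have eb := P.eq b mb
  rcases hφ with ⟨-, f1, -⟩ | ⟨hd, f1, f2⟩
  · rw [f1] at ea
    exact absurd (ea.trans hab) hne
  · subst hd
    have anti : StrictAntiOn φ (Icc a b) := by
      rcases P.mono with ⟨h, -⟩ | ⟨-, h, -⟩
      · exact absurd h (by decide)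
      · exact h
    have mem : ∀ s ∈ Icc a b, φ s ∈ Icc a b := fun s hs => by
      have g1 := anti.antitoneOn ma hs hs.1
      have g2 := anti.antitoneOn hs mb hs.2
      rw [f1] at g1
      rw [f2] at g2
      exact ⟨g2, g1⟩
    rw [f2] at eb
    -- the reflection is an involution
    have hmod : u * (starRingEnd ℂ) u = 1 := by
      have e1 : u * (starRingEnd ℂ) u * (c b - c a) = c b - c a := by
        have h1 : c b - c a = u * (starRingEnd ℂ) (c a - c b) := by
          rw [← conj_lin (v := v), hab, ← eb]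
        have h2 : (starRingEnd ℂ) (c b - c a) = (starRingEnd ℂ) u * (c a - c b) := by
          rw [h1, map_mul, Complex.conj_conj]
        calc u * (starRingEnd ℂ) u * (c b - c a) = -(u * ((starRingEnd ℂ) u * (c a - c b))) := by ring
          _ = -(u * (starRingEnd ℂ) (c b - c a)) := by rw [← h2]
          _ = u * (starRingEnd ℂ) (c a - c b) := by
            rw [show c b - c a = -(c a - c b) by ring, map_neg]; ring
          _ = c b - c a := h1.symm
      have hne2 : c b - c a ≠ 0 := sub_ne_zero.2 (Ne.symm hne)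
      exact mul_right_cancel₀ hne2 (by rw [e1, one_mul])
    have hinv : ∀ z, u * (starRingEnd ℂ) (u * (starRingEnd ℂ) z + v) + v = z := by
      intro z
      have h1 : u * (starRingEnd ℂ) v + v = 0 := by
        have h2 := eb
        rw [← hab] at h2
        simp only [map_add, map_mul, Complex.conj_conj] at h2
        have h3 : u * ((starRingEnd ℂ) u * c a + (starRingEnd ℂ) v) + v =
          (u * (starRingEnd ℂ) u) * c a + (u * (starRingEnd ℂ) v + v) := by ring
        rw [h3, hmod, one_mul] at h2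
        have : c a + (u * (starRingEnd ℂ) v + v) = c a + 0 := by rw [← h2, add_zero]
        exact add_left_cancel this
      simp only [map_add, map_mul, Complex.conj_conj]
      rw [show u * ((starRingEnd ℂ) u * z + (starRingEnd ℂ) v) + v =
        (u * (starRingEnd ℂ) u) * z + (u * (starRingEnd ℂ) v + v) by ring, hmod, h1]
      ring
    refine ⟨φ, P, hT, f1, f2, anti, mem, fun s hs => ?_⟩
    have e1 := P.eq (φ s) (mem s hs)
    rw [P.eq s hs, hinv] at e1
    exact inj_Icc J h.ba (mem _ (mem s hs)) hs e1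

theorem Mr.fix {a b : ℝ} {u v : ℂ} {φ : ℝ → ℝ} (R : Mr c a b u v φ) :
    ∃ m, a < m ∧ m < b ∧ φ m = m := by
  have hab := R.P.ab
  have hc : ContinuousOn (fun s => φ s - s) (Icc a b) := R.P.cont.sub continuousOn_id
  obtain ⟨m, hm, h0⟩ := intermediate_value_Icc' hab.le hc (show (0:ℝ) ∈ Icc (φ b - b) (φ a - a) by
    rw [R.fa, R.fb]; constructor <;> linarith)
  have hm0 : φ m = m := by linarith
  refine ⟨m, lt_of_le_of_ne hm.1 ?_, lt_of_le_of_ne hm.2 ?_, hm0⟩
  · rintro rfl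
    rw [R.fa] at hm0; linarith
  · rintro rfl
    rw [R.fb] at hm0; linarith

/-- third vertices over the symmetric chords -/
theorem Mr.tri {a b : ℝ} {u v : ℂ} {φ : ℝ → ℝ} (R : Mr c a b u v φ) {s : ℝ} (hs : s ∈ Icc a b) :
    u * (starRingEnd ℂ) (CC c s (φ s)) + v = DD c s (φ s) := by
  have e1 := R.P.eq s hs
  have e2 := R.P.eq (φ s) (R.mem s hs)
  rw [R.inv s hs] at e2
  rw [CC_eq, DD_eq]
  have h3 : u * (starRingEnd ℂ) (c (φ s) + I * (c (φ s) - c s)) + v =
      (u * (starRingEnd ℂ) (c (φ s)) + v) - I * ((u * (starRingEnd ℂ) (c (φ s)) + v) -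
        (u * (starRingEnd ℂ) (c s) + v)) := by
    simp only [map_add, map_mul, map_sub, conj_I]; ring
  rw [h3, ← e2, ← e1]; ring

theorem range_split (L : Loop c) {a b : ℝ} (h1 : a < b) (h2 : b < a + 1) {z : ℂ}
    (hz : z ∈ range c) : z ∈ c '' Icc a b ∨ z ∈ c '' Icc b (a + 1) := by
  obtain ⟨t, rfl⟩ := hz
  obtain ⟨n, hn⟩ : ∃ n : ℤ, n = ⌊t - a⌋ := ⟨_, rfl⟩
  have h3 := Int.floor_le (t - a)
  have h4 := Int.lt_floor_add_one (t - a)
  rw [← hn] at h3 h4
  have e : c (t - n) = c t := by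
    have := L.per_int (t - n) n
    rw [sub_add_cancel] at this
    exact this.symm
  rcases le_total (t - n) b with h | h
  · exact Or.inl ⟨t - n, ⟨by linarith, h⟩, e⟩
  · exact Or.inr ⟨t - n, ⟨h, by linarith⟩, e⟩

theorem join_sign (L : Loop c) {z w : ℂ} (h : JoinedIn (range c)ᶜ z w) : 0 < mgc c z * mgc c w := by
  obtain ⟨γ, hγ⟩ := h
  have hM := (mgc_sg L).cont
  have nz : ∀ z, z ∉ range c → mgc c z ≠ 0 := fun z h hz => h ((mgc_sg L).zero L |>.1 hz)
  have := sign_pre (X := unitInterval) (V := univ) isPreconnected_univ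
    (f := fun s => mgc c (γ s)) (hM.comp γ.continuous).continuousOn
    (fun s _ => nz _ (hγ s)) (z := 0) (w := 1) (mem_univ _) (mem_univ _)
  simpa using this

theorem fl_pm {x : ℝ} {k : ℤ} (h : ⌊x / Real.pi⌋ = k) (hs : Real.sin x ≠ 0) :
    (0 < Real.sin x ∧ Even k) ∨ (Real.sin x < 0 ∧ Odd k) := by
  rcases lt_or_gt_of_ne hs with h1 | h1
  · exact Or.inr ⟨h1, h ▸ fl_odd h1⟩
  · exact Or.inl ⟨h1, h ▸ fl_even h1⟩

/-- the charge of a mirror symmetric arc is even if the squares over the symmetric chords do not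
meet the rest of the curve and the last one is on the proper side -/
theorem mirror_even (L : Loop c) (J : Inj c) (nosq : NoSq (range c)) {z0 : ℂ} (h0 : 0 < mgc c z0)
    (A : Ang c (mgc c) θ g) {a b : ℝ} (h : AR c a b) {la lb : ℤ} (h1 : KL θ a la)
    (h2 : KL θ b lb) {u v : ℂ} (hu : u ≠ 0)
    (him : (fun z => u * (starRingEnd ℂ) z + v) '' (c '' Icc a b) = c '' Icc a b)
    (hab : u * (starRingEnd ℂ) (c a) + v = c b)
    (hfree : ∀ r r', a ≤ r → r < r' → r' ≤ b → u * (starRingEnd ℂ) (c r) + v = c r' →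
      c r' + I * (c r' - c r) ∉ c '' Icc b (a + 1))
    (hleft : ∀ ρ > 0, ∃ x y, |x - a| < ρ ∧ |y - a| < ρ ∧ x < y ∧
      JoinedIn (range c)ᶜ (c b + I * (c b - c a)) (c y + I * (c y - c x))) :
    ∃ k : ℤ, lb - la = 4 * k := by
  have hπ := Real.pi_pos
  obtain ⟨φ, R⟩ := exMr L J h hu him hab
  obtain ⟨m0, hm1, hm2, hm3⟩ := R.fix
  have h1' := h1
  have h2' := h2
  obtain ⟨ρa, hρa, fa⟩ := h1
  obtain ⟨ρb, hρb, fb⟩ := h2
  obtain ⟨S, pa, pb, w, K, ρm, hρm, hS⟩ := exPkM L J h0 A R.hT R.P h.ha h.hb h1' h2' hρb hρa hm1 hm2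
  have c1 : ContinuousOn (fun p : ℝ × ℝ => φ p.1) S := R.P.cont.comp (by fun_prop) K.m1
  have c2 : ContinuousOn (fun p : ℝ × ℝ => φ p.2) S := R.P.cont.comp (by fun_prop) K.m2
  have eD := K.eD
  have eC := K.eC
  rw [show ((-1 : ℤ) * (-1)) = 1 by norm_num, Int.cast_one] at eD eC
  have ba := h.ba
  have hx : ∀ p ∈ S, φ p.2 < φ p.1 ∧ φ p.1 < φ p.2 + 1 := fun p hp => by
    have g1 := R.mem _ (K.m1 p hp)
    have g2 := R.mem _ (K.m2 p hp)
    exact ⟨R.anti (K.m1 p hp) (K.m2 p hp) (K.uu p hp).1, by linarith [g1.2, g2.1]⟩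
  obtain ⟨m, hmm⟩ := chg A K.pre K.uu c2 c1 hx K.v0 (α := Real.pi / 2) (σ := -1)
    (fun p hp r r1 r2 => by
    have t1 : DD c (φ p.2) (φ p.1) = (fun z => u * (starRingEnd ℂ) z + v) (CC c p.1 p.2) := by
      rw [DD_eq, CC_eq, R.P.eq _ (K.m1 p hp), R.P.eq _ (K.m2 p hp)]
      simp only [map_add, map_sub, map_mul, conj_I]; ring
    have t2 : CC c (φ p.2) (φ p.1) = (fun z => u * (starRingEnd ℂ) z + v) (DD c p.1 p.2) := by
      rw [CC_eq, DD_eq, R.P.eq _ (K.m1 p hp), R.P.eq _ (K.m2 p hp)]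
      simp only [map_add, map_sub, map_mul, conj_I]; ring
    rw [t1, t2, eD p hp, eC p hp, r1, r2,
      show Real.pi / 2 + -1 * θ p.1 p.2 = Real.pi / 2 - θ p.1 p.2 by ring,
      Real.cos_pi_div_two_sub, Real.sin_pi_div_two_sub]
    constructor <;> ring)
  -- the ends
  have na1 := K.na1
  have na2 := K.na2
  rw [R.fa] at na1 na2
  have ea := fb _ _ na2 na1 (hx pa K.ma).1
  rw [hmm pa K.ma, fl_half K.qa, K.ka] at ea
  -- a short symmetric chord
  have hcm : ContinuousWithinAt φ (Icc a b) m0 := R.P.cont m0 ⟨hm1.le, hm2.le⟩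
  obtain ⟨r5, hr5, f5⟩ := Metric.continuousWithinAt_iff.1 hcm ρm hρm
  obtain ⟨x, hxa, hxm, hxr⟩ : ∃ x, a < x ∧ x < m0 ∧ m0 - x < min r5 ρm := by
    have hk : 0 < min (m0 - a) (min r5 ρm) := by
      have : 0 < m0 - a := by linarith
      positivity
    refine ⟨m0 - min (m0 - a) (min r5 ρm) / 2, ?_, by linarith, ?_⟩
    · have := min_le_left (m0 - a) (min r5 ρm)
      linarith
    · have := min_le_right (m0 - a) (min r5 ρm)
      linarith
  have hx5 := hxr.trans_le (min_le_left _ _)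
  have hx6 := hxr.trans_le (min_le_right _ _)
  have hxI : x ∈ Icc a b := ⟨hxa.le, by linarith⟩
  have mI : m0 ∈ Icc a b := ⟨hm1.le, hm2.le⟩
  have hφx : m0 < φ x := by
    have := R.anti hxI mI hxm
    rwa [hm3] at this
  have hφd : |φ x - m0| < ρm := by
    have := f5 hxI (by rw [Real.dist_eq, abs_sub_comm, abs_of_pos (by linarith)]; exact hx5)
    rwa [Real.dist_eq, hm3] at this
  have hp0 : (x, φ x) ∈ S := hS ⟨by simp only; rw [abs_sub_comm, abs_of_pos (by linarith)]; exact hx6,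
    hφd, by simp only; linarith⟩
  have e0 := hmm (x, φ x) hp0
  simp only at e0
  rw [R.inv x hxI] at e0
  have e1 : θ x (φ x) = Real.pi / 4 + m * Real.pi := by linarith
  -- the sign along the symmetric chords
  have hφc : ContinuousOn (fun r => CC c r (φ r)) (Icc a x) := by
    have h5 : ContinuousOn φ (Icc a x) := R.P.cont.mono (fun r hr => ⟨hr.1, by linarith [hr.2]⟩)
    have h6 : Continuous fun p : ℝ × ℝ => CC c p.1 p.2 := L.CC_cont
    exact h6.comp_continuousOn (continuousOn_id.prodMk h5)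
  have nz : ∀ z, z ∉ range c → mgc c z ≠ 0 := fun z h hz => h ((mgc_sg L).zero L |>.1 hz)
  have hnot : ∀ r ∈ Icc a x, CC c r (φ r) ∉ range c := by
    intro r hr hmem
    have hrI : r ∈ Icc a b := ⟨hr.1, by linarith [hr.2]⟩
    have hrm : r < m0 := by linarith [hr.2]
    have hφr : m0 < φ r := by
      have := R.anti hrI mI hrm
      rwa [hm3] at this
    have hlt : r < φ r := by linarith
    rcases range_split L h.ab h.ba hmem with h5 | h5
    · have h6 : DD c r (φ r) ∈ range c := by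
        have : DD c r (φ r) ∈ c '' Icc a b := by
          rw [← him, ← R.tri hrI]
          exact ⟨_, h5, rfl⟩
        exact image_subset_range _ _ this
      exact An.nz L J (mgc_sg L) nosq (x := r) (y := φ r) hlt (by linarith [(R.mem r hrI).2, hr.1])
        ⟨(mgc_sg L).zero L |>.2 h6, (mgc_sg L).zero L |>.2 hmem⟩
    · refine hfree r (φ r) hr.1 hlt (R.mem r hrI).2 (R.P.eq r hrI).symm ?_
      rw [← CC_eq]; exact h5
  have s1 := sign_pre (V := Icc a x) isPreconnected_Icc (f := fun r => mgc c (CC c r (φ r)))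
    ((mgc_sg L).cont.comp_continuousOn hφc) (fun r hr => nz _ (hnot r hr))
    (z := a) (w := x) ⟨le_rfl, hxa.le⟩ ⟨hxa.le, le_rfl⟩
  rw [R.fa] at s1
  -- the sign near the first end
  obtain ⟨x', y', g1, g2, g3, g4⟩ := hleft (min ρa (1 / 2)) (by positivity)
  have s2 := join_sign L g4
  rw [← CC_eq, ← CC_eq] at s2
  have q1 := fa x' y' (g1.trans_le (min_le_left _ _)) (g2.trans_le (min_le_left _ _)) g3
  obtain ⟨ra, hra, -, k2⟩ := A.ex x' y' g3 (Tri_UU le_rfl (g1.trans_le (min_le_right _ _))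
    (g2.trans_le (min_le_right _ _)) g3)
  obtain ⟨rb, hrb, -, k4⟩ := A.ex x (φ x) (by linarith) (by linarith [(R.mem x hxI).2])
  have hprod : 0 < Real.sin (θ x (φ x)) * Real.sin (θ x' y') := by
    rw [k4] at s1
    rw [k2] at s2
    have h7 : 0 < (mgc c (CC c a b) * (rb * Real.sin (θ x (φ x)))) *
      (mgc c (CC c a b) * (ra * Real.sin (θ x' y'))) := mul_pos s1 s2
    have h8 : (mgc c (CC c a b) * (rb * Real.sin (θ x (φ x)))) *
      (mgc c (CC c a b) * (ra * Real.sin (θ x' y'))) = (mgc c (CC c a b) ^ 2 * (rb * ra)) *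
        (Real.sin (θ x (φ x)) * Real.sin (θ x' y')) := by ring
    rw [h8] at h7
    have h9 : 0 < mgc c (CC c a b) ^ 2 * (rb * ra) := by
      have : mgc c (CC c a b) ≠ 0 := left_ne_zero_of_mul s1.ne'
      positivity
    exact (mul_pos_iff_of_pos_left h9).1 h7
  have hflm : ⌊θ x (φ x) / Real.pi⌋ = m := by
    rw [e1, Int.floor_eq_iff, le_div_iff₀ hπ, div_lt_iff₀ hπ]
    constructor <;> linarith
  have p1 := fl_pm hflm (left_ne_zero_of_mul hprod.ne')
  have p2 := fl_pm q1 (right_ne_zero_of_mul hprod.ne')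
  have hev : Even (m - la) := by
    rcases p1 with ⟨a1, a2⟩ | ⟨a1, a2⟩ <;> rcases p2 with ⟨b1, b2⟩ | ⟨b1, b2⟩
    · exact a2.sub b2
    · exact absurd hprod (not_lt.2 (mul_nonpos_of_nonneg_of_nonpos a1.le b1.le))
    · exact absurd hprod (not_lt.2 (mul_nonpos_of_nonpos_of_nonneg a1.le b1.le))
    · exact a2.sub_odd b2
  obtain ⟨k, hk⟩ := hev
  exact ⟨k, by linarith⟩

end Pool.Agent.Y535.PEG
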