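import Pool.Agent.Y535.PEG.Pair

/-! The change of parameter between two similar arcs. -/

set_option autoImplicit false
open Complex Set Topology Metric

namespace Pool.Agent.Y535.PEG

open Pool.Agent.H763R2 Pool.Agent.H763R2.An Pool.Agent.W675.Peg Pool.Agent.TH569.Peg
open Pool.Agent.H763R2.Dm (NoSq floor_const)

variable {c : ℝ → ℂ}

theorem inj_Icc (J : Inj c) {a b : ℝ} (hb : b < a + 1) : InjOn c (Icc a b) := by
  intro x hx y hy h
  rcases lt_trichotomy x y with h1 | h1 | h1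
  · exact absurd h (J x y h1 (by linarith [hx.1, hy.2]))
  · exact h1
  · exact absurd h.symm (J y x h1 (by linarith [hy.1, hx.2]))

theorem Smy.inj {T : ℂ → ℂ} {u : ℂ} {e : ℤ} (h : Smy T u e) : Function.Injective T := by
  intro x y hxy
  have := h.norm x y
  rw [hxy, sub_self, norm_zero] at this
  have hu : ‖u‖ ≠ 0 := norm_ne_zero_iff.2 h.ne
  have h2 : ‖x - y‖ = 0 := by
    rcases mul_eq_zero.1 this.symm with h3 | h3
    · exact absurd h3 hu
    · exact h3
  exact sub_eq_zero.1 (norm_eq_zero.1 h2)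

theorem Smy.cont {T : ℂ → ℂ} {u : ℂ} {e : ℤ} (h : Smy T u e) : Continuous T := by
  rcases h.h with ⟨-, v, hv⟩ | ⟨-, v, hv⟩
  · rw [show T = fun z => u * z + v from funext hv]; fun_prop
  · rw [show T = fun z => u * (starRingEnd ℂ) z + v from funext hv]
    exact (continuous_const.mul continuous_conj).add continuous_const

theorem mk_mp (L : Loop c) (J : Inj c) {T : ℂ → ℂ} {u : ℂ} {e : ℤ} (hT : Smy T u e)
    {a b a' b' : ℝ} (hab : a < b) (hb : b < a + 1) (hab' : a' < b') (hb' : b' < a' + 1)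
    (him : T '' (c '' Icc a b) = c '' Icc a' b') :
    ∃ φ d, Mp c T φ a b d ∧ ((d = 1 ∧ φ a = a' ∧ φ b = b') ∨ (d = -1 ∧ φ a = b' ∧ φ b = a')) := by
  classical
  have h1 : ∀ s : Icc a b, ∃ s' : Icc a' b', c s' = T (c s) := by
    rintro ⟨s, hs⟩
    have : T (c s) ∈ c '' Icc a' b' := by
      rw [← him]; exact ⟨c s, ⟨s, hs, rfl⟩, rfl⟩
    obtain ⟨s', hs', e'⟩ := this
    exact ⟨⟨s', hs'⟩, e'⟩
  choose ψ hψ using h1
  have hcl : IsClosedEmbedding (fun s' : Icc a' b' => c s') := by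
    refine Continuous.isClosedEmbedding (L.cont.comp continuous_subtype_val) ?_
    intro x y hxy
    exact Subtype.ext (inj_Icc J hb' x.2 y.2 hxy)
  have hψc : Continuous ψ := by
    rw [hcl.isInducing.continuous_iff]
    have : (fun s' : Icc a' b' => c s') ∘ ψ = fun s : Icc a b => T (c s) := by
      funext s; exact hψ s
    rw [this]
    exact hT.cont.comp (L.cont.comp continuous_subtype_val)
  obtain ⟨φ, hφ⟩ : ∃ φ : ℝ → ℝ, φ = fun s => if h : s ∈ Icc a b then (ψ ⟨s, h⟩ : ℝ) else a' :=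
    ⟨_, rfl⟩
  have hφe : ∀ s (h : s ∈ Icc a b), φ s = ψ ⟨s, h⟩ := fun s h => by rw [hφ]; simp only; rw [dif_pos h]
  have hφc : ContinuousOn φ (Icc a b) := by
    rw [continuousOn_iff_continuous_domRestrict]
    have : (Icc a b).domRestrict φ = fun s => (ψ s : ℝ) := by
      funext s; exact hφe s.1 s.2
    rw [this]
    exact continuous_subtype_val.comp hψc
  have heq : ∀ s ∈ Icc a b, c (φ s) = T (c s) := fun s hs => by rw [hφe s hs, hψ]
  have hmem : ∀ s ∈ Icc a b, φ s ∈ Icc a' b' := fun s hs => by rw [hφe s hs]; exact (ψ _).2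
  have hinj : InjOn φ (Icc a b) := by
    intro x hx y hy hxy
    have : T (c x) = T (c y) := by rw [← heq x hx, ← heq y hy, hxy]
    exact inj_Icc J hb hx hy (hT.inj this)
  have hsur : ∀ s' ∈ Icc a' b', ∃ s ∈ Icc a b, φ s = s' := by
    intro s' hs'
    have : c s' ∈ T '' (c '' Icc a b) := by rw [him]; exact ⟨s', hs', rfl⟩
    obtain ⟨_, ⟨s, hs, rfl⟩, e'⟩ := this
    refine ⟨s, hs, inj_Icc J hb' (hmem s hs) hs' ?_⟩
    rw [heq s hs, e']
  have ma : a ∈ Icc a b := ⟨le_rfl, hab.le⟩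
  have mb : b ∈ Icc a b := ⟨hab.le, le_rfl⟩
  obtain ⟨sa, hsa, ea⟩ := hsur a' ⟨le_rfl, hab'.le⟩
  obtain ⟨sb, hsb, eb⟩ := hsur b' ⟨hab'.le, le_rfl⟩
  rcases hφc.strictMonoOn_of_injOn_Icc' hab.le hinj with hm | hm
  · have g1 := hm.monotoneOn ma hsa hsa.1
    have g2 := hm.monotoneOn hsb mb hsb.2
    have e1 : φ a = a' := le_antisymm (by linarith) (hmem a ma).1
    have e2 : φ b = b' := le_antisymm (hmem b mb).2 (by linarith)
    exact ⟨φ, 1, ⟨hab, hb, hφc, heq, Or.inl ⟨rfl, hm, by rw [e1, e2]; exact hb'⟩⟩,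
      Or.inl ⟨rfl, e1, e2⟩⟩
  · have g1 := hm.antitoneOn ma hsb hsb.1
    have g2 := hm.antitoneOn hsa mb hsa.2
    have e1 : φ a = b' := le_antisymm (hmem a ma).2 (by linarith)
    have e2 : φ b = a' := le_antisymm (by linarith) (hmem b mb).1
    exact ⟨φ, -1, ⟨hab, hb, hφc, heq, Or.inr ⟨rfl, hm, by rw [e1, e2]; exact hb'⟩⟩,
      Or.inr ⟨rfl, e1, e2⟩⟩

end Pool.Agent.Y535.PEG
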