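import Pool.Agent.Y535.PEG.Mono

/-! The number of half turns along a locally monotone arc changes by a multiple of four. -/

set_option autoImplicit false
open Complex Set Topology Metric

namespace Pool.Agent.Y535.PEG

open Pool.Agent.H763R2 Pool.Agent.H763R2.An Pool.Agent.W675.Peg Pool.Agent.TH569.Peg
open Pool.Agent.H763R2.Dm (NoSq floor_const)

variable {c q : ℝ → ℂ} {θ : ℝ → ℝ → ℝ} {g : ℤ}

open Classical in
/-- winding over the arc -/
theorem Two.wind2 {b σ : ℝ} (T : Two q b σ) (hM : ∀ s ∈ Icc 0 b, ∃ w, CG 0 q s w σ) :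
    ∃ η0 > 0, ∀ η, 0 < η → η < η0 →
    Bd (fun x r => GG q (mgc q) x (x + r)) 0 b η (σ / 2) ∧ ∃ k : ℤ, Even k ∧
      Wd (fun x r => GG q (mgc q) x (x + r)) 0 b η (σ / 2) = k * (2 * Real.pi * I) := by
  have L := T.G.L
  have b0 := T.b0
  have b1 := T.b1
  have σ0 := T.σ0
  have σ1 := T.σ1
  have S := mgc_sg L
  obtain ⟨η1, hη1, H⟩ := fin_pos (T.G.fin 3) (f := fun z => min (z.2 - z.1) (z.1 + 1 - z.2))
    (fun z hz => lt_min (by have := hz.1.1.1; linarith) (by have := hz.1.1.2; linarith))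
  obtain ⟨η0, hη0, m1, m2⟩ : ∃ η0 > 0, η0 ≤ η1 ∧ η0 ≤ σ / 2 :=
    ⟨min η1 (σ / 2), by positivity, min_le_left _ _, min_le_right _ _⟩
  refine ⟨η0, hη0, fun η h0 h1 => ?_⟩
  have gap : ∀ x y, (x, y) ∈ Zq q → |x| ≤ 3 → η < y - x := by
    intro x y hz hx
    have := H (x, y) ⟨hz, hx⟩
    simp only [lt_min_iff] at this
    linarith [this.1]
  have hGc : Continuous fun p : ℝ × ℝ => (fun x r => GG q (mgc q) x (x + r)) p.1 p.2 :=
    (GG_cont L S.cont).comp (f := fun p : ℝ × ℝ => ((p.1, p.1 + p.2) : ℝ × ℝ)) (by fun_prop)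
  have hx3 : ∀ x ∈ Icc (0:ℝ) b, |x| ≤ 3 := fun x hx => by
    rw [abs_le]; constructor <;> linarith [hx.1, hx.2]
  have hmemZ : ∀ x r, 0 < r → r < 1 → GG q (mgc q) x (x + r) = 0 → (x, x + r) ∈ Zq q :=
    fun x r hr0 hr1 h => (Zq_iff L S ⟨by simp only; linarith, by simp only; linarith⟩).1 h
  have B : Bd (fun x r => GG q (mgc q) x (x + r)) 0 b η (σ / 2) := by
    refine ⟨b0.le, by linarith, fun x hx h => ?_, fun x hx h => ?_, fun y hy h => ?_,
      fun y hy h => ?_⟩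
    · have := gap _ _ (hmemZ x η h0 (by linarith) h) (hx3 x hx)
      linarith
    · exact T.K _ _ ⟨le_rfl, by linarith⟩ (hmemZ x (σ / 2) (by linarith) (by linarith) h)
    · exact T.no0 (hmemZ 0 y (by linarith [hy.1]) (by linarith [hy.2]) h)
    · exact T.nob (hmemZ b y (by linarith [hy.1]) (by linarith [hy.2]) h)
  refine ⟨B, ?_⟩
  have hsum := Wd_sum hGc ((T.G.fin 3).toFinset.image (fun z : ℝ × ℝ => ((z.1, z.2 - z.1) : ℝ × ℝ)))
    (fun z => io q (z.1, z.1 + z.2)) (fun z hz => by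
      obtain ⟨w, hw, rfl⟩ := Finset.mem_image.1 hz
      have hw' : w ∈ Zq q := by
        have : w ∈ Zq q ∩ {p | |p.1| ≤ 3} := by simpa using hw
        exact this.1
      obtain ⟨r, hr, hs⟩ := germ_io T.G S hw'
      refine ⟨r / 2, by positivity, fun s hs1 t ht1 => ?_⟩
      have := hs s ⟨by linarith [hs1.1], by linarith [hs1.2]⟩ (s + t)
        ⟨by linarith [hs1.1, ht1.1], by linarith [hs1.2, ht1.2]⟩
      have e0 : ((w.1, w.1 + (w.2 - w.1)) : ℝ × ℝ) = w := by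
        ext <;> simp
      simp only
      rw [e0, show w.1 + s + (w.2 - w.1 + t) = w.2 + (s + t) by ring,
        show w.1 - s + (w.2 - w.1 - t) = w.2 - (s + t) by ring]
      exact this) _ 0 b η (σ / 2) B (fun x hx y hy h => by
        have hz := hmemZ x y (by linarith [hy.1]) (by linarith [hy.2]) h
        refine Finset.mem_image.2 ⟨(x, x + y), ?_, by simp⟩
        rw [Set.Finite.mem_toFinset]
        exact ⟨hz, hx3 x hx⟩) rfl
  have hset : ((T.G.fin 3).toFinset.image (fun z : ℝ × ℝ => ((z.1, z.2 - z.1) : ℝ × ℝ))).filter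
      (InR 0 b η (σ / 2)) = ((T.G.fin 3).toFinset.filter
        (fun z => (0 < z.1 ∧ z.1 < b) ∧ z.2 < z.1 + σ / 2)).image
        (fun z : ℝ × ℝ => ((z.1, z.2 - z.1) : ℝ × ℝ)) := by
    ext z
    simp only [Finset.mem_filter, Finset.mem_image]
    constructor
    · rintro ⟨⟨w, hw, rfl⟩, ⟨g1, g2⟩, g3, g4⟩
      exact ⟨w, ⟨hw, ⟨g1, g2⟩, by simp only at g4; linarith⟩, rfl⟩
    · rintro ⟨w, ⟨hw, ⟨g1, g2⟩, g3⟩, rfl⟩
      refine ⟨⟨w, hw, rfl⟩, ⟨g1, g2⟩, ?_⟩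
      rw [Set.Finite.mem_toFinset] at hw
      exact ⟨gap w.1 w.2 hw.1 hw.2, by simp only; linarith⟩
  have hval : ∑ z ∈ ((T.G.fin 3).toFinset.image (fun z : ℝ × ℝ => ((z.1, z.2 - z.1) : ℝ × ℝ))).filter
      (InR 0 b η (σ / 2)), io q (z.1, z.1 + z.2) = 0 := by
    rw [hset, Finset.sum_image (fun z _ w _ h => by
      obtain ⟨h1, h2⟩ := Prod.mk.inj h
      exact Prod.ext h1 (by linarith))]
    rw [← T.even2 hM]
    refine Finset.sum_congr rfl fun z _ => ?_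
    congr 1
    ext <;> simp
  rw [hval] at hsum
  obtain ⟨k, hk, hk2⟩ := hsum
  refine ⟨k, ?_, hk⟩
  rwa [ZMod.intCast_eq_zero_iff_even] at hk2

theorem mono0 (L : Loop c) (J : Inj c) (nosq : NoSq (range c)) (A : Ang c (mgc c) θ g) {b : ℝ}
    (b0 : 0 < b) (b1 : b < 1) (C0 : Cone c 0) (Cb : Cone c b) (hM : ∀ s ∈ Icc 0 b, Mon c s)
    {l0 lb : ℤ} (hl0 : KL θ 0 l0) (hlb : KL θ b lb) : ∃ k : ℤ, lb - l0 = 4 * k := by
  obtain ⟨σ0, hσ0, hzc, happ⟩ := exApp2 L J C0 Cb hM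
  obtain ⟨ρ1, hρ1, H1⟩ := hl0
  obtain ⟨ρ2, hρ2, H2⟩ := hlb
  obtain ⟨σ, hσ, σa, σb, σc, σd⟩ : ∃ σ > 0, σ ≤ σ0 ∧ σ ≤ 1 / 4 ∧ σ ≤ ρ1 ∧ σ ≤ ρ2 :=
    ⟨min (min σ0 (1 / 4)) (min ρ1 ρ2), by positivity,
      (min_le_left _ _).trans (min_le_left _ _), (min_le_left _ _).trans (min_le_right _ _),
      (min_le_right _ _).trans (min_le_left _ _), (min_le_right _ _).trans (min_le_right _ _)⟩
  obtain ⟨ε0, hε⟩ : ∃ ε0, ε0 = σ / 2 := ⟨_, rfl⟩
  have hε0 : 0 < ε0 := by rw [hε]; positivity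
  obtain ⟨δ, hδ, hK⟩ := Kr_bound L J (mgc_sg L) nosq hε0 (by linarith)
  obtain ⟨q, hG, hP, hq, qz0, qzb, qm, qs⟩ := happ (δ / 24) (by positivity)
  have Lq := hG.L
  have Sq := mgc_sg Lq
  have qz0 := qz0.mono σa
  have qzb := qzb.mono σa
  have qm' : ∀ s ∈ Icc 0 b, ∃ w, CG 0 q s w σ := fun s hs => by
    obtain ⟨w, hw⟩ := qm s hs
    exact ⟨w, fun x y hx hy hxy => hw x y (hx.trans_le σa) (hy.trans_le σa) hxy⟩
  obtain ⟨cz0, czb⟩ := hzc σ hσ σa
  have close : ∀ x y, Kr ε0 x y → ‖GG q (mgc q) x y - GG c (mgc c) x y‖ < ‖GG c (mgc c) x y‖ := by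
    intro x y h
    have := GG_close L Lq hq x y
    have := hK x y h
    linarith
  have T : Two q b σ := ⟨hG, b0, b1, hσ, by linarith, fun x y h hz => by
    rw [← hε] at h
    have h0 := (Zq_iff Lq Sq (x := x) (y := y) ⟨by simp only; linarith [h.1],
      by simp only; linarith [h.2]⟩).2 hz
    have := close x y h
    rw [h0, zero_sub, norm_neg] at this
    exact lt_irrefl _ this, qz0, qzb⟩
  obtain ⟨η1, hη1, sh1, -⟩ := short hG
  obtain ⟨θ1, A1⟩ := exLA Lq hη1 sh1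
  obtain ⟨τ, hτ, t1, t2⟩ : ∃ τ > 0, τ ≤ σ ∧ 2 * τ ≤ η1 :=
    ⟨min σ (η1 / 2), by positivity, min_le_left _ _, by
      have := min_le_right σ (η1 / 2)
      linarith⟩
  obtain ⟨ka, hka⟩ := A1.fl hτ t2 (qz0.mono t1)
  obtain ⟨kb, hkb⟩ := A1.fl hτ t2 (qzb.mono t1)
  have hch : ka = kb := by
    refine const_Icc (P := KL θ1) (fun s k k' h h' => h.uniq h') (fun s k h => h.loc) b0.le
      (fun s hs => ?_) (⟨τ, hτ, hka⟩ : KL θ1 0 ka) (⟨τ, hτ, hkb⟩ : KL θ1 b kb)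
    obtain ⟨e, f, w, η', H⟩ := exCor Lq hP (qs s hs)
    obtain ⟨ρ, hρ, k, hk⟩ := H.half Lq hη1 A1
    exact ⟨k, ρ, hρ, hk⟩
  obtain ⟨η0, hη0, hW⟩ := T.wind2 qm'
  obtain ⟨η, hη, n1, n2, n3⟩ : ∃ η > 0, η < η0 ∧ η < τ ∧ η < ε0 := by
    have hm : 0 < min (min η0 τ) ε0 := by positivity
    refine ⟨min (min η0 τ) ε0 / 2, by positivity, ?_, ?_, ?_⟩
    · have := (min_le_left (min η0 τ) ε0).trans (min_le_left _ _)
      linarith
    · have := (min_le_left (min η0 τ) ε0).trans (min_le_right _ _)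
      linarith
    · have := min_le_right (min η0 τ) ε0
      linarith
  obtain ⟨B, k, hk, hWk⟩ := hW η hη n1
  rw [← hε] at B hWk
  have hGc : Continuous fun p : ℝ × ℝ => GG q (mgc q) p.1 p.2 := GG_cont Lq Sq.cont
  -- the upper side
  have hGt : Continuous fun x => GG q (mgc q) x (x + ε0) :=
    hGc.comp (f := fun x : ℝ => ((x, x + ε0) : ℝ × ℝ)) (by fun_prop)
  obtain ⟨K, hKc, hKe⟩ := ex_log (f := fun x => GG q (mgc q) x (x + ε0)) b0.le hGt B.h2
  have hexK : ∀ x ∈ Icc 0 b, ∃ ρ > 0, mgc q (DD q x (x + ε0)) = ρ * Real.cos (K x).im ∧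
      mgc q (CC q x (x + ε0)) = ρ * Real.sin (K x).im := by
    intro x hx
    have e := hKe x hx
    have e5 := congrArg Complex.re e
    have e6 := congrArg Complex.im e
    rw [exp_re] at e5
    rw [exp_im] at e6
    refine ⟨Real.exp (K x).re, Real.exp_pos _, ?_, ?_⟩
    · rw [e5]; simp [GG]
    · rw [e6]; simp [GG]
  have fwd : ∀ {p : ℝ → ℂ} {s : ℝ} (r : ℝ), Zn p s σ → 0 < r → r < σ →
      0 < mgc p (DD p s (s + r)) * mgc p (CC p s (s + r)) := by
    intro p s r hz h1 h2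
    exact (hz s (s + r) (by simpa using hσ) (by rw [add_sub_cancel_left, abs_of_pos h1]; exact h2)
      (by linarith)).1
  have trig : ∀ {M1 M2 x : ℝ}, (∃ ρ > 0, M1 = ρ * Real.cos x ∧ M2 = ρ * Real.sin x) →
      0 < M1 * M2 → 0 < Real.cos x * Real.sin x := by
    rintro M1 M2 x ⟨ρ, hρ, e1, e2⟩ h
    rw [e1, e2, show ρ * Real.cos x * (ρ * Real.sin x) =
      ρ * ρ * (Real.cos x * Real.sin x) by ring] at h
    exact (mul_pos_iff_of_pos_left (mul_pos hρ hρ)).1 h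
  have m0 : (0:ℝ) ∈ Icc 0 b := ⟨le_rfl, b0.le⟩
  have mb : b ∈ Icc 0 b := ⟨b0.le, le_rfl⟩
  have hk' : ContinuousOn (fun x => θ x (x + ε0)) (Icc 0 b) := by
    refine A.cont.comp (f := fun x : ℝ => ((x, x + ε0) : ℝ × ℝ)) (by fun_prop) ?_
    intro x hx
    exact ⟨by simp only; linarith, by simp only; linarith⟩
  have top := cmp_two (V := Icc 0 b) isPreconnected_Icc (f := fun x => (K x).im)
    (k := fun x => θ x (x + ε0)) (continuous_im.comp hKc).continuousOn hk'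
    (fun x hx => by
      obtain ⟨ρ, hρ, e1, e2⟩ := hexK x hx
      obtain ⟨t, ht, e3, e4⟩ := A.ex x (x + ε0) (by linarith) (by linarith)
      have h := close x (x + ε0) ⟨le_rfl, by linarith⟩
      unfold GG at h
      rw [e1, e2, e3, e4] at h
      exact cos_close hρ ht h) m0 mb
    (trig (hexK 0 m0) (fwd ε0 qz0 hε0 (by linarith)))
    (trig (A.ex 0 (0 + ε0) (by linarith) (by linarith)) (fwd ε0 cz0 hε0 (by linarith)))
    (trig (hexK b mb) (fwd ε0 qzb hε0 (by linarith)))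
    (trig (A.ex b (b + ε0) (by linarith) (by linarith)) (fwd ε0 czb hε0 (by linarith)))
  have v0 := H1 0 (0 + ε0) (by simpa using hρ1) (by simpa [abs_of_pos hε0] using (by linarith : ε0 < ρ1))
    (by linarith)
  have vb := H2 b (b + ε0) (by simpa using hρ2) (by simpa [abs_of_pos hε0] using (by linarith : ε0 < ρ2))
    (by linarith)
  rw [v0, vb] at top
  -- the vertical sides
  have side : ∀ s ∈ Icc 0 b, Zn q s σ → (∀ r ∈ Icc η ε0, GG q (mgc q) s (s + r) ≠ 0) →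
      ∀ k1 : ℤ, ⌊θ1 s (s + η) / Real.pi⌋ = k1 → ∃ m1 m2 : ℤ,
      k1 + 2 * m1 = ⌊(K s).im / Real.pi⌋ + 2 * m2 ∧
      (dl (fun r => GG q (mgc q) s (s + r)) η ε0).im =
        ((K s).im + m2 * (2 * Real.pi)) - (θ1 s (s + η) + m1 * (2 * Real.pi)) := by
    intro s hs zq hne k1 hk1
    have hGs : Continuous fun r => GG q (mgc q) s (s + r) :=
      hGc.comp (f := fun r : ℝ => ((s, s + r) : ℝ × ℝ)) (by fun_prop)
    obtain ⟨E, hE, hEe⟩ := ex_log (f := fun r => GG q (mgc q) s (s + r)) n3.le hGs hne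
    have hex : ∀ r ∈ Icc η ε0, ∃ ρ > 0, mgc q (DD q s (s + r)) = ρ * Real.cos (E r).im ∧
        mgc q (CC q s (s + r)) = ρ * Real.sin (E r).im := by
      intro r hr
      have e := hEe r hr
      have e5 := congrArg Complex.re e
      have e6 := congrArg Complex.im e
      rw [exp_re] at e5
      rw [exp_im] at e6
      refine ⟨Real.exp (E r).re, Real.exp_pos _, ?_, ?_⟩
      · rw [e5]; simp [GG]
      · rw [e6]; simp [GG]
    have f1 : ⌊(E η).im / Real.pi⌋ = ⌊(E ε0).im / Real.pi⌋ :=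
      floor_pre (V := Icc η ε0) isPreconnected_Icc (f := fun r => (E r).im)
        (continuous_im.comp hE).continuousOn (fun r hr =>
        right_ne_zero_of_mul (trig (hex r hr) (fwd r zq (by linarith [hr.1]) (by linarith [hr.2]))).ne')
        ⟨le_rfl, n3.le⟩ ⟨n3.le, le_rfl⟩
    obtain ⟨ρa, hρa, a1, a2⟩ := hex η ⟨le_rfl, n3.le⟩
    obtain ⟨ρb, hρb, a3, a4⟩ := hex ε0 ⟨n3.le, le_rfl⟩
    obtain ⟨ρc, hρc, a5, a6⟩ := A1.ex s (s + η) (by linarith) (by linarith)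
    obtain ⟨ρd, hρd, a7, a8⟩ := hexK s hs
    obtain ⟨m1, hm1⟩ := same_ang hρa hρc (a1.symm.trans a5) (a2.symm.trans a6)
    obtain ⟨m2, hm2⟩ := same_ang hρb hρd (a3.symm.trans a7) (a4.symm.trans a8)
    refine ⟨m1, m2, ?_, ?_⟩
    · rw [← fl_add hm2, ← f1, fl_add hm1, hk1]
    · rw [dl_im (φ := fun r => (E r).im) n3.le hGs hne (continuous_im.comp hE).continuousOn
        (fun r hr => by
          obtain ⟨ρ, hρ, x1, x2⟩ := hex r hr
          exact ⟨ρ, hρ, by unfold GG; rw [x1, x2]⟩), hm1, hm2]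
  obtain ⟨p1, p2, E1, E3⟩ := side 0 m0 qz0 B.h3 ka
    (hka 0 (0 + η) (by simpa using hτ) (by simpa [abs_of_pos hη] using n2) (by linarith))
  obtain ⟨p1', p2', E1', E3'⟩ := side b mb qzb B.h4 kb
    (hkb b (b + η) (by simpa using hτ) (by simpa [abs_of_pos hη] using n2) (by linarith))
  have D1 : (dl (fun x => GG q (mgc q) x (x + η)) 0 b).im = θ1 b (b + η) - θ1 0 (0 + η) := by
    refine dl_im (φ := fun x => θ1 x (x + η)) b0.le
      (hGc.comp (f := fun x : ℝ => ((x, x + η) : ℝ × ℝ)) (by fun_prop)) B.h1 ?_ (fun x hx => ?_)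
    · refine A1.cont.comp (f := fun x : ℝ => ((x, x + η) : ℝ × ℝ)) (by fun_prop) ?_
      intro x hx
      exact ⟨by simp only; linarith, by simp only; linarith⟩
    · obtain ⟨ρ, hρ, x1, x2⟩ := A1.ex x (x + η) (by linarith) (by linarith)
      refine ⟨ρ, hρ, ?_⟩
      change GG q (mgc q) x (x + η) = _
      unfold GG; rw [x1, x2]
  have D2 : (dl (fun x => GG q (mgc q) x (x + ε0)) 0 b).im = (K b).im - (K 0).im := by
    refine dl_im (φ := fun x => (K x).im) b0.le hGt B.h2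
      (continuous_im.comp hKc).continuousOn (fun x hx => ?_)
    obtain ⟨ρ, hρ, x1, x2⟩ := hexK x hx
    exact ⟨ρ, hρ, by unfold GG; rw [x1, x2]⟩
  have hWi := congrArg Complex.im hWk
  unfold Wd at hWi
  rw [sub_im, sub_im, add_im, D1, D2, E3, E3', show (k : ℂ) * (2 * Real.pi * I) =
    (((k : ℝ) * (2 * Real.pi) : ℝ) : ℂ) * I by push_cast; ring, mul_I_im, ofReal_re] at hWi
  have hπ := Real.pi_pos
  have hint : (((p2' - p1') - (p2 - p1) : ℤ) : ℝ) * (2 * Real.pi) = (k : ℝ) * (2 * Real.pi) := by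
    push_cast
    linarith
  have hint2 := mul_right_cancel₀ (by positivity : (2 * Real.pi) ≠ 0) hint
  have hint3 : (p2' - p1') - (p2 - p1) = k := by exact_mod_cast hint2
  obtain ⟨u, hu⟩ := hk
  exact ⟨-u, by linarith⟩

/-- along a locally monotone arc the number of half turns changes by a multiple of four -/
theorem mono4 (L : Loop c) (J : Inj c) (nosq : NoSq (range c)) (A : Ang c (mgc c) θ g) {a b : ℝ}
    (hab : a < b) (hba : b < a + 1) (Ca : Cone c a) (Cb : Cone c b)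
    (hM : ∀ s ∈ Icc a b, Mon c s) {la lb : ℤ} (hla : KL θ a la) (hlb : KL θ b lb) :
    ∃ k : ℤ, lb - la = 4 * k := by
  have hm : mgc (fun t => c (t + a)) = mgc c := funext (mgc_shift L a)
  have A' := A.shift a
  rw [← hm] at A'
  have e0 : a = 0 + a := by ring
  have eb : b = (b - a) + a := by ring
  rw [e0] at hla Ca
  rw [eb] at hlb Cb
  refine mono0 (L.shift a) (J.shift a) (by rw [range_shift]; exact nosq) A' (b := b - a)
    (by linarith) (by linarith) Ca.shift Cb.shift (fun s hs => ?_) hla.shift hlb.shift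
  obtain ⟨ρ, hρ, w, hw⟩ := hM (s + a) ⟨by linarith [hs.1], by linarith [hs.2]⟩
  refine ⟨ρ, hρ, w, fun x y hx hy hxy => hw _ _ ?_ ?_ (by linarith)⟩
  · rwa [show x + a - (s + a) = x - s by ring]
  · rwa [show y + a - (s + a) = y - s by ring]

end Pool.Agent.Y535.PEG
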