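import Pool.Agent.Y535.PEG.Poz

/-! Locally monotone arcs. -/

set_option autoImplicit false
open Complex Set Topology Metric

namespace Pool.Agent.Y535.PEG

open Pool.Agent.H763R2 Pool.Agent.H763R2.An Pool.Agent.W675.Peg Pool.Agent.TH569.Peg
open Pool.Agent.H763R2.Dm (NoSq floor_const)

variable {c q : ℝ → ℂ} {θ : ℝ → ℝ → ℝ} {g : ℤ}

/-- near the parameter `s` all chords lie in an open half plane -/
def Mon (c : ℝ → ℂ) (s : ℝ) : Prop := ∃ ρ > 0, ∃ w : ℂ, ∀ x y : ℝ, |x - s| < ρ → |y - s| < ρ →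
  x < y → 0 < (w * (c y - c x)).re

theorem leb1 {a b : ℝ} (h : ∀ s ∈ Icc a b, Mon c s) : ∃ δ > 0, ∀ s ∈ Icc a b, ∃ w, CG 0 c s w δ := by
  obtain ⟨δ, hδ, H⟩ := lebesgue_number_lemma_of_metric (s := Icc a b)
    (c := fun i : {p : ℝ × ℝ × ℂ // CG 0 c p.1 p.2.2 p.2.1} => ball i.1.1 i.1.2.1)
    isCompact_Icc (fun i => isOpen_ball) (fun s hs => by
      obtain ⟨ρ, hρ, w, hw⟩ := h s hs
      refine mem_iUnion.2 ⟨⟨(s, ρ, w), fun x y hx hy hxy => by
        rw [zero_mul]; exact hw x y hx hy hxy⟩, mem_ball_self hρ⟩)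
  refine ⟨δ, hδ, fun s hs => ?_⟩
  obtain ⟨⟨⟨s', ρ', w⟩, hi⟩, hb⟩ := H s hs
  refine ⟨w, fun x y hx hy hxy => hi x y ?_ ?_ hxy⟩
  · exact hb (show x ∈ ball s δ from hx)
  · exact hb (show y ∈ ball s δ from hy)

theorem exApp2 (L : Loop c) (J : Inj c) {b : ℝ} (ha : Cone c 0) (hb : Cone c b)
    (hM : ∀ s ∈ Icc 0 b, Mon c s) : ∃ σ > 0,
    (∀ σ' > 0, σ' ≤ σ → Zn c 0 σ' ∧ Zn c b σ') ∧ ∀ ε > 0, ∃ q, Gen q ∧ PLc q ∧
      (∀ t, ‖q t - c t‖ ≤ ε) ∧ Zn q 0 σ ∧ Zn q b σ ∧ (∀ s ∈ Icc 0 b, ∃ w, CG 0 q s w σ) ∧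
      ∀ s ∈ Icc 0 b, ∀ z, q z = q s → ∃ n : ℤ, z = s + n := by
  obtain ⟨ρa, hρa, wa, Ha⟩ := ha
  obtain ⟨ρb, hρb, wb, Hb⟩ := hb
  obtain ⟨sa, hsa, Sa⟩ := cone_sign L J ⟨ρa, hρa, wa, Ha⟩
  obtain ⟨sb, hsb, Sb⟩ := cone_sign L J ⟨ρb, hρb, wb, Hb⟩
  obtain ⟨δ, hδ, hleb⟩ := leb1 hM
  obtain ⟨ρ, hρ, r1, r2, r3⟩ : ∃ ρ > 0, ρ ≤ ρa ∧ ρ ≤ ρb ∧ ρ ≤ δ :=
    ⟨min (min ρa ρb) δ, by positivity, (min_le_left _ _).trans (min_le_left _ _),
      (min_le_left _ _).trans (min_le_right _ _), min_le_right _ _⟩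
  have Ca : CG 1 c 0 wa ρ := fun x y hx hy hxy => by
    rw [one_mul]; exact Ha x y (hx.trans_le r1) (hy.trans_le r1) hxy
  have Cb : CG 1 c b wb ρ := fun x y hx hy hxy => by
    rw [one_mul]; exact Hb x y (hx.trans_le r2) (hy.trans_le r2) hxy
  obtain ⟨t, htI, htf, htc⟩ := (isCompact_Icc (a := (0:ℝ)) (b := b)).finite_cover_balls
    (e := ρ / 4) (by positivity)
  have hfin : Finite t := htf
  have hwt : ∀ y : t, ∃ w, CG 0 c y w ρ := fun y => by
    obtain ⟨w, hw⟩ := hleb y (htI y.2)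
    exact ⟨w, fun x z hx hz hxz => hw x z (hx.trans_le r3) (hz.trans_le r3) hxz⟩
  choose wt hwt using hwt
  obtain ⟨ρ1, hρ1, hnear⟩ := near_par L J (δ := ρ / 4) (by positivity)
  obtain ⟨τa, hτa, ka⟩ := Metric.continuous_iff.1 L.cont 0 (ρ1 / 32) (by positivity)
  obtain ⟨τb, hτb, kb⟩ := Metric.continuous_iff.1 L.cont b (ρ1 / 32) (by positivity)
  simp only [dist_eq_norm] at ka kb
  obtain ⟨σ, hσ, s1, s2, s3, s4, s5⟩ : ∃ σ > 0, σ ≤ τa ∧ σ ≤ τb ∧ σ ≤ ρ / 4 ∧ σ ≤ sa ∧ σ ≤ sb :=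
    ⟨min (min (min τa τb) (ρ / 4)) (min sa sb), by positivity,
      (min_le_left _ _).trans ((min_le_left _ _).trans (min_le_left _ _)),
      (min_le_left _ _).trans ((min_le_left _ _).trans (min_le_right _ _)),
      (min_le_left _ _).trans (min_le_right _ _),
      (min_le_right _ _).trans (min_le_left _ _), (min_le_right _ _).trans (min_le_right _ _)⟩
  refine ⟨σ, hσ, fun σ' _ hσ' => ⟨fun x y hx hy hxy => Sa x y (by linarith) (by linarith) hxy,
    fun x y hx hy hxy => Sb x y (by linarith) (by linarith) hxy⟩, fun ε hε => ?_⟩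
  obtain ⟨q, hG, hP, hq, hz⟩ := approx_zones L (ι := t ⊕ Bool)
    (s := Sum.elim (fun y => (y : ℝ)) (fun i => if i then 0 else b))
    (τ := Sum.elim (fun _ => 0) (fun _ => 1))
    (w := Sum.elim wt (fun i => if i then wa else wb)) hρ
    (by rintro (y | i) <;> simp) (by
      rintro (y | i)
      · exact hwt y
      · cases i
        · simpa using Cb
        · simpa using Ca) (ε := min ε (ρ1 / 64)) (by positivity)
  have qa := hz (Sum.inr true)
  have qb := hz (Sum.inr false)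
  simp only [Sum.elim_inr, if_true] at qa
  simp only [Sum.elim_inr, Bool.false_eq_true, if_false] at qb
  have qa' : CI q 0 wa (ρ / 4) := fun x y hx hy hxy => by
    have := qa x y (by linarith) (by linarith) hxy
    rwa [one_mul] at this
  have qb' : CI q b wb (ρ / 4) := fun x y hx hy hxy => by
    have := qb x y (by linarith) (by linarith) hxy
    rwa [one_mul] at this
  have qm : ∀ s ∈ Icc 0 b, ∃ w, CG 0 q s w (ρ / 4) := by
    intro s hs
    obtain ⟨y, hy, hsy⟩ := mem_iUnion₂.1 (htc hs)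
    have h1 := hz (Sum.inl ⟨y, hy⟩)
    simp only [Sum.elim_inl] at h1
    have hsy' : |s - y| < ρ / 4 := hsy
    refine ⟨_, fun x z hx hz hxz => h1 x z ?_ ?_ hxz⟩
    · have := abs_add_le (x - s) (s - y)
      rw [sub_add_sub_cancel] at this
      linarith
    · have := abs_add_le (z - s) (s - y)
      rw [sub_add_sub_cancel] at this
      linarith
  have hq1 : ∀ t, ‖q t - c t‖ ≤ ρ1 / 64 := fun t => (hq t).trans (min_le_right _ _)
  have hcl : ∀ x y, |‖q x - q y‖ - ‖c x - c y‖| ≤ ρ1 / 32 := by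
    intro x y
    have h1 := abs_norm_sub_norm_le (q x - q y) (c x - c y)
    have h2 := norm_sub_le (q x - c x) (q y - c y)
    rw [show q x - c x - (q y - c y) = q x - q y - (c x - c y) by ring] at h2
    have := hq1 x
    have := hq1 y
    linarith
  have hnq : ∀ s z, ‖q z - q s‖ < ρ1 / 2 → ∃ (n : ℤ) (e : ℝ), |e| < ρ / 4 ∧ z = s + e + n := by
    intro s z hz
    refine hnear z s ?_
    have := (abs_le.1 (hcl z s)).1
    linarith
  refine ⟨q, hG, hP, fun t => (hq t).trans (min_le_left _ _), ?_, ?_, ?_, ?_⟩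
  · intro x y hx hy hxy
    refine zone_sign hG.L qa' (hnq 0) (ρ2 := σ) (fun x hx => ?_) s3 x y hx hy hxy
    have h1 := ka x (hx.trans_le s1)
    have := (abs_le.1 (hcl x 0)).2
    linarith
  · intro x y hx hy hxy
    refine zone_sign hG.L qb' (hnq b) (ρ2 := σ) (fun x hx => ?_) s3 x y hx hy hxy
    have h1 := kb x (hx.trans_le s2)
    have := (abs_le.1 (hcl x b)).2
    linarith
  · intro s hs
    obtain ⟨w, hw⟩ := qm s hs
    exact ⟨w, fun x y hx hy hxy => hw x y (hx.trans_le s3) (hy.trans_le s3) hxy⟩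
  · intro s hs z hzs
    obtain ⟨w, hw⟩ := qm s hs
    obtain ⟨n, e, he, hze⟩ := hnq s z (by rw [hzs, sub_self, norm_zero]; positivity)
    have hqe : q (s + e) = q s := by
      rw [← hzs, hze, hG.L.per_int]
    rcases lt_trichotomy e 0 with h | h | h
    · have := hw (s + e) s (by rw [add_sub_cancel_left]; exact he) (by simpa using (by positivity : 0 < ρ / 4))
        (by linarith)
      rw [hqe, sub_self, mul_zero] at this
      simp at this
    · exact ⟨n, by rw [hze, h]; ring⟩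
    · have := hw s (s + e) (by simpa using (by positivity : 0 < ρ / 4)) (by rw [add_sub_cancel_left]; exact he)
        (by linarith)
      rw [hqe, sub_self, mul_zero] at this
      simp at this

theorem exCor (L : Loop q) (P : PLc q) {s : ℝ} (h : ∀ z, q z = q s → ∃ n : ℤ, z = s + n) :
    ∃ e f w η, Cor q s e f w η := by
  rcases P s with H | ⟨s1, e, d, η, H⟩
  · exact H
  · exfalso
    obtain ⟨n, hn⟩ := h s1 H.eq
    have h1 := H.l0 η (by rw [abs_of_pos H.hη])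
    have h2 := H.l1 η (by rw [abs_of_pos H.hη])
    rw [H.eq, hn, show s + n + η = s + η + n by ring, L.per_int, h1] at h2
    have h3 : (η : ℂ) * e = η * d := add_left_cancel h2
    have h4 : e = d := mul_left_cancel₀ (by exact_mod_cast H.hη.ne') h3
    apply H.tv
    rw [h4, An.cr_self]

theorem Two.near {b σ a1 a2 : ℝ} (T : Two q b σ) (h : SqP q a1 a2) (h0 : 0 < a1) (h1 : a1 < b) :
    |a1 - a2| < σ / 2 := by
  obtain ⟨g1, g2⟩ := T.step h h0 h1
  have L := T.G.L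
  have b1 := T.b1
  have hz : ∃ y, (a1, y) ∈ Zq q := by
    obtain ⟨t1, t2, t3⟩ := h.toZ L
    rcases lt_or_gt_of_ne t3 with h' | h'
    · exact ⟨_, t1 h'⟩
    · exact ⟨_, t2 h'⟩
  obtain ⟨y, hy⟩ := hz
  have g3 : σ / 2 ≤ a1 := by
    by_contra hcon
    push Not at hcon
    exact zone_no T.G T.σ0 T.K T.z0 (by rw [sub_zero, abs_of_pos h0]; exact hcon) hy
  have g4 : a1 ≤ b - σ / 2 := by
    by_contra hcon
    push Not at hcon
    exact zone_no T.G T.σ0 T.K T.zb (by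
      rw [abs_sub_comm, abs_of_pos (by linarith)]; linarith) hy
  rcases h.adj L T.K with g | g
  · exact g
  · rcases lt_abs.1 g with g | g
    · linarith
    · linarith

open Classical in
/-- the other forward edge of a square -/
noncomputable def gM (q : ℝ → ℂ) (z : ℝ × ℝ) : ℝ × ℝ :=
  if z.2 < pr q (CC q z.1 z.2) then (z.2, pr q (CC q z.1 z.2)) else (pr q (DD q z.1 z.2), z.1)

theorem Two.other {b σ x y : ℝ} (T : Two q b σ) (hM : ∀ s ∈ Icc 0 b, ∃ w, CG 0 q s w σ)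
    (hz : (x, y) ∈ Zq q) (hne : q x ≠ q y) (h0 : 0 < x) (h1 : x < b) (h2 : y < x + σ / 2) :
    (gM q (x, y) ∈ Zq q ∧ q (gM q (x, y)).1 ≠ q (gM q (x, y)).2 ∧
      0 < (gM q (x, y)).1 ∧ (gM q (x, y)).1 < b ∧ (gM q (x, y)).2 < (gM q (x, y)).1 + σ / 2) ∧
      gM q (x, y) ≠ (x, y) ∧ gM q (gM q (x, y)) = (x, y) := by
  have L := T.G.L
  have b1 := T.b1
  have σ1 := T.σ1
  have σ0 := T.σ0
  obtain ⟨⟨hxy, hyx⟩, hD, hC⟩ := hz
  simp only at hxy hyx hD hC
  -- the second parameter lies in `(0, 1)`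
  have hy1 : y < 1 := by
    by_contra hcon
    push Not at hcon
    have qy0 : q (y - 1) = q y := by
      have := L.per (y - 1)
      rw [sub_add_cancel] at this; exact this.symm
    have hS : SqP q x (y - 1) := ⟨⟨h0.le, by linarith⟩, ⟨by linarith, by linarith⟩,
      by rw [qy0]; exact hne, by rw [CC_eq, qy0, ← CC_eq]; exact hC,
      by rw [DD_eq, qy0, ← DD_eq]; exact hD⟩
    have := T.near hS h0 h1
    rw [abs_of_pos (by linarith)] at this
    linarith
  have hS : SqP q x y := ⟨⟨h0.le, by linarith⟩, ⟨by linarith, hy1⟩, hne, hC, hD⟩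
  obtain ⟨u, hu⟩ : ∃ u, u = pr q (CC q x y) := ⟨_, rfl⟩
  obtain ⟨v, hv⟩ : ∃ v, v = pr q (DD q x y) := ⟨_, rfl⟩
  obtain ⟨um, ue⟩ := pr_spec L hC
  obtain ⟨vm, ve⟩ := pr_spec L hD
  rw [← hu] at um ue
  rw [← hv] at vm ve
  have hS1 : SqP q y u := by
    have := hS.rot L
    rwa [← hu] at this
  have hS2 : SqP q u v := by
    have := hS1.rot L
    rw [rot_CC ue, ← hv] at this
    exact this
  have hS3 : SqP q v x := by
    have := hS.tor L
    rwa [← hv] at this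
  have s1 := T.step hS h0 h1
  have s2 := T.step hS1 s1.1 s1.2
  have s3 := T.step hS2 s2.1 s2.2
  have n1 := T.near hS h0 h1
  have n2 := T.near hS1 s1.1 s1.2
  have n4 := T.near hS3 s3.1 s3.2
  obtain ⟨S1, S2, -, -⟩ := T.G.sq x y hne hD hC
  obtain ⟨w, hw⟩ := hM x ⟨h0.le, h1.le⟩
  have yux : |y - x| < σ := by rw [abs_sub_comm]; linarith
  have ux : |u - x| < σ := by
    have := abs_add_le (u - y) (y - x)
    rw [sub_add_sub_cancel, abs_sub_comm u y, abs_sub_comm y x] at this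
    linarith
  have vx : |v - x| < σ := by linarith
  have xx : |x - x| < σ := by simpa using σ0
  have mono : ∀ a d, |a - x| < σ → |d - x| < σ → a < d → 0 < (w * (q d - q a)).re := by
    intro a d ha hd had
    have := hw a d ha hd had
    rwa [zero_mul] at this
  have m0 := mono x y xx yux hxy
  have eC : q u - q y = I * (q y - q x) := by rw [ue, CC_eq]; ring
  have eA : q x - q v = -(I * (q y - q x)) := by rw [ve, DD_eq]; ring
  have eDC : q v - q u = -(q y - q x) := by rw [ve, ue, DD_eq, CC_eq]; ring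
  have huy : u ≠ y := fun h => hS1.ne (by rw [h])
  have hvx : v ≠ x := fun h => hS3.ne (by rw [h])
  have huv : v < u := by
    rcases lt_trichotomy v u with h | h | h
    · exact h
    · exact absurd (by rw [h]) hS2.ne
    · have := mono u v ux vx h
      rw [eDC, mul_neg, neg_re] at this
      linarith
  unfold gM
  simp only
  rw [← hu, ← hv]
  by_cases hyu : y < u
  · rw [if_pos hyu]
    simp only
    refine ⟨⟨(hS1.toZ L).1 hyu, hS1.ne, s1.1, s1.2, ?_⟩, ?_, ?_⟩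
    · rw [abs_lt] at n2; linarith
    · intro h
      have := (Prod.mk.inj h).1
      linarith
    · rw [rot_CC ue, ← hv, if_neg (by linarith), rot_DD ue, pr_eq L S1 hS.ha rfl]
  · have huy' : u < y := lt_of_le_of_ne (not_lt.1 hyu) huy
    have hvx' : v < x := by
      rcases lt_trichotomy v x with h | h | h
      · exact h
      · exact absurd h hvx
      · have a1 := mono u y ux yux huy'
        have a2 := mono x v xx vx h
        rw [show q y - q u = -(q u - q y) by ring, eC, mul_neg, neg_re] at a1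
        rw [show q v - q x = -(q x - q v) by ring, eA, neg_neg] at a2
        linarith
    rw [if_neg hyu]
    simp only
    refine ⟨⟨(hS3.toZ L).1 hvx', hS3.ne, s3.1, s3.2, ?_⟩, ?_, ?_⟩
    · rw [abs_lt] at n4; linarith
    · intro h
      have := (Prod.mk.inj h).1
      linarith
    · rw [tor_CC ve, pr_eq L S2 ⟨by linarith, hy1⟩ rfl, if_pos hxy]

open Classical in
theorem Two.even2 {b σ : ℝ} (T : Two q b σ) (hM : ∀ s ∈ Icc 0 b, ∃ w, CG 0 q s w σ) :
    ∑ z ∈ (T.G.fin 3).toFinset.filter (fun z => (0 < z.1 ∧ z.1 < b) ∧ z.2 < z.1 + σ / 2), io q z = 0 := by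
  rw [io_sum]
  have b1 := T.b1
  have hmem : ∀ z, z ∈ ((T.G.fin 3).toFinset.filter
      (fun z => (0 < z.1 ∧ z.1 < b) ∧ z.2 < z.1 + σ / 2)).filter
      (fun z => q z.1 ≠ q z.2) ↔ z ∈ Zq q ∧ ((0 < z.1 ∧ z.1 < b) ∧ z.2 < z.1 + σ / 2) ∧
        q z.1 ≠ q z.2 := by
    intro z
    simp only [Finset.mem_filter, Set.Finite.mem_toFinset, mem_inter_iff, mem_ofPred_eq]
    constructor
    · rintro ⟨⟨⟨h1, -⟩, h2⟩, h3⟩
      exact ⟨h1, h2, h3⟩
    · rintro ⟨h1, h2, h3⟩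
      exact ⟨⟨⟨h1, by rw [abs_le]; constructor <;> linarith [h2.1.1, h2.1.2]⟩, h2⟩, h3⟩
  have : (((T.G.fin 3).toFinset.filter (fun z => (0 < z.1 ∧ z.1 < b) ∧ z.2 < z.1 + σ / 2)).filter
      (fun z => q z.1 ≠ q z.2)).card = ∑ z ∈ ((T.G.fin 3).toFinset.filter
        (fun z => (0 < z.1 ∧ z.1 < b) ∧ z.2 < z.1 + σ / 2)).filter (fun z => q z.1 ≠ q z.2), 1 := by
    simp
  rw [this]
  push_cast
  refine Finset.sum_involution (fun z _ => gM q z) (fun z hz => by decide) (fun z hz _ => ?_)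
    (fun z hz => ?_) (fun z hz => ?_)
  · obtain ⟨h1, h2, h3⟩ := (hmem z).1 hz
    exact (T.other hM (x := z.1) (y := z.2) h1 h3 h2.1.1 h2.1.2 h2.2).2.1
  · obtain ⟨h1, h2, h3⟩ := (hmem z).1 hz
    obtain ⟨g1, g2, g3, g4, g5⟩ := (T.other hM (x := z.1) (y := z.2) h1 h3 h2.1.1 h2.1.2 h2.2).1
    exact (hmem _).2 ⟨g1, ⟨⟨g3, g4⟩, g5⟩, g2⟩
  · obtain ⟨h1, h2, h3⟩ := (hmem z).1 hz
    exact (T.other hM (x := z.1) (y := z.2) h1 h3 h2.1.1 h2.1.2 h2.2).2.2

end Pool.Agent.Y535.PEG
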