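import Pool.Agent.Y535.PEG.Fre

/-! Winding numbers of the vertices of the squares over symmetric chords: the core. -/

set_option autoImplicit false
open Complex Set Topology Metric

namespace Pool.Agent.Y535.PEG

open Pool.Agent.H763R2 Pool.Agent.H763R2.An Pool.Agent.W675.Peg Pool.Agent.TH569.Peg
open Pool.Agent.H763R2.Dm (NoSq floor_const log_diff_unique)

variable {c : ℝ → ℂ}

/-- branches of the logarithm of a quotient -/
theorem br {f g B : ℝ → ℂ} {l r : ℝ} (hlr : l ≤ r) (hf : ContinuousOn f (Icc l r))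
    (hg : ContinuousOn g (Icc l r)) (hB : ContinuousOn B (Icc l r))
    (f0 : ∀ s ∈ Icc l r, f s ∈ slitPlane) (g0 : ∀ s ∈ Icc l r, g s ∈ slitPlane)
    (e : ∀ s ∈ Icc l r, exp (B s) = f s / g s) :
    (B r).im - (B l).im = ((f r).arg - (g r).arg) - ((f l).arg - (g l).arg) := by
  have h := H777R2.exp_const_on (X := ℝ) (A := Icc l r) isPreconnected_Icc
    (k := fun s => B s - (log (f s) - log (g s)))
    (hB.sub ((hf.clog f0).sub (hg.clog g0))) (c := 1) (fun s hs => by
      have hf0 := slitPlane_ne_zero (f0 s hs)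
      have hg0 := slitPlane_ne_zero (g0 s hs)
      rw [exp_sub, exp_sub, exp_log hf0, exp_log hg0, e s hs]
      exact div_self (div_ne_zero hf0 hg0)) ⟨le_rfl, hlr⟩ ⟨hlr, le_rfl⟩
  have := congrArg Complex.im h
  simp only [sub_im, log_im] at this
  linarith

theorem cos_br {f g B : ℂ} (hf : f ≠ 0) (hg : g ≠ 0) (e : exp B = f / g) :
    Real.cos B.im = Real.cos (f.arg - g.arg) := by
  have h : exp B = exp (log f - log g) := by rw [exp_sub, exp_log hf, exp_log hg, e]
  obtain ⟨n, hn⟩ := exp_eq_exp_iff_exists_int.1 h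
  have := congrArg Complex.im hn
  rw [add_im, sub_im, log_im, log_im, show (n : ℂ) * (2 * Real.pi * I) =
    (((n : ℝ) * (2 * Real.pi) : ℝ) : ℂ) * I by push_cast; ring, mul_I_im, ofReal_re] at this
  rw [this]
  exact Real.cos_add_int_mul_two_pi _ n

theorem abs_half {x : ℝ} (h : |x| < Real.pi) (hc : 0 < Real.cos x) : |x| < Real.pi / 2 := by
  by_contra hcon
  push Not at hcon
  have := Real.cos_nonpos_of_pi_div_two_le_of_le hcon (by linarith [Real.pi_pos])
  rw [Real.cos_abs] at this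
  linarith

theorem im_exp {E : ℂ} {x : ℝ} (h : exp E = exp (x * I)) : ∃ n : ℤ, E.im = x + n * (2 * Real.pi) := by
  obtain ⟨n, hn⟩ := exp_eq_exp_iff_exists_int.1 h
  have := congrArg Complex.im hn
  rw [add_im, show (n : ℂ) * (2 * Real.pi * I) =
    (((n : ℝ) * (2 * Real.pi) : ℝ) : ℂ) * I by push_cast; ring, mul_I_im, mul_I_im, ofReal_re,
    ofReal_re] at this
  exact ⟨n, this⟩

theorem arg_abs_lt {z : ℂ} (h : 0 < z.re) : |z.arg| < Real.pi / 2 := by
  rw [abs_arg_lt_pi_div_two_iff]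
  exact Or.inl h

/-- the winding numbers of the vertices of the squares on the two sides of a chord -/
theorem wd_core (L : Loop c) {P Q : ℝ → ℝ} (hP : Continuous P) (hQ : Continuous Q)
    (hPQ : ∀ x, P x < Q x) (hne : ∀ x, c (P x) ≠ c (Q x))
    (hD : ∀ x, DD c (P x) (Q x) ∉ range c) (hD' : ∀ x, CC c (Q x) (P x) ∉ range c)
    {ω : ℂ} (hω : ω ≠ 0) {x1 l1 : ℝ} (hl1 : 0 < l1) (he1 : c (Q x1) - c (P x1) = l1 * ω)
    (hin : ∀ s ∈ Icc (P x1) (Q x1), 0 ≤ ((c s - c (P x1)) / ω).re)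
    {x2 l2 : ℝ} (hl2 : 0 < l2) (he2 : c (Q x2) - c (P x2) = l2 * ω) {a1 b1 : ℝ} (hb : Q x2 ≤ b1)
    (hba : b1 ≤ a1 + 1) (ha : a1 ≤ P x2) (ho1 : ∀ s ∈ Icc (Q x2) b1, 0 < ((c s - c (P x2)) / ω).re)
    (ho2 : ∀ s ∈ Icc a1 (P x2), ((c s - c (P x2)) / ω).re ≤ 0)
    (ho3 : ((c a1 - c (P x2)) / ω).re < 0)
    (hfar : ∀ s ∈ Icc b1 (a1 + 1), 2 * ‖c (Q x2) - c (P x2)‖ < ‖c s - CC c (Q x2) (P x2)‖) :
    ∀ x n n', IsWc c (DD c (P x) (Q x)) n → IsWc c (CC c (Q x) (P x)) n' → n = n' + 1 := by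
  have hπ := Real.pi_pos
  have hc := L.cont
  have cD : Continuous fun x => DD c (P x) (Q x) :=
    L.DD_cont.comp (f := fun x : ℝ => ((P x, Q x) : ℝ × ℝ)) (by fun_prop)
  have cD' : Continuous fun x => CC c (Q x) (P x) :=
    L.CC_cont.comp (f := fun x : ℝ => ((Q x, P x) : ℝ × ℝ)) (by fun_prop)
  obtain ⟨K, hK, eK⟩ := H777R2.exists_log (X := ℝ × ℝ) (g := fun p => c p.2 - DD c (P p.1) (Q p.1))
    (by
      have := cD.comp (f := fun p : ℝ × ℝ => p.1) (by fun_prop)
      exact (hc.comp continuous_snd).sub this) (fun p h => hD p.1 (by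
      rw [sub_eq_zero] at h; rw [← h]; exact mem_range_self _))
  obtain ⟨K', hK', eK'⟩ := H777R2.exists_log (X := ℝ × ℝ)
    (g := fun p => c p.2 - CC c (Q p.1) (P p.1))
    (by
      have := cD'.comp (f := fun p : ℝ × ℝ => p.1) (by fun_prop)
      exact (hc.comp continuous_snd).sub this) (fun p h => hD' p.1 (by
      rw [sub_eq_zero] at h; rw [← h]; exact mem_range_self _))
  obtain ⟨B, hB⟩ : ∃ B : ℝ → ℝ → ℂ, B = fun x s => K (x, s) - K' (x, s) := ⟨_, rfl⟩
  have eB : ∀ x s, exp (B x s) = (c s - DD c (P x) (Q x)) / (c s - CC c (Q x) (P x)) := fun x s => by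
    rw [hB]; simp only; rw [exp_sub, eK, eK']
  have cB : Continuous fun p : ℝ × ℝ => B p.1 p.2 := by
    rw [hB]; exact hK.sub hK'
  have wB : ∀ x n n', IsWc c (DD c (P x) (Q x)) n → IsWc c (CC c (Q x) (P x)) n' → ∀ s,
      B x (s + 1) - B x s = (n - n') * (2 * Real.pi * I) := by
    rintro x n n' ⟨k, hk, ek, e1⟩ ⟨k', hk', ek', e2⟩ s
    have hk1 : Continuous fun s => K (x, s) := hK.comp (by fun_prop)
    have hk2 : Continuous fun s => K' (x, s) := hK'.comp (by fun_prop)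
    rw [← log_diff_unique hk1 hk (fun t => eK (x, t)) ek] at e1
    rw [← log_diff_unique hk2 hk' (fun t => eK' (x, t)) ek'] at e2
    have a1 := wc_step (z := DD c (P x) (Q x)) L hk1 (fun t => eK (x, t)) e1 s
    have a2 := wc_step (z := CC c (Q x) (P x)) L hk2 (fun t => eK' (x, t)) e2 s
    rw [hB]
    simp only at a1 a2 ⊢
    linear_combination a1 - a2
  -- the values at the ends of the chord
  have nzI1 : (1 : ℂ) + I ≠ 0 := by
    intro h
    have := congrArg Complex.re h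
    simp at this
  have vP : ∀ x, exp (B x (P x)) = -1 := fun x => by
    rw [eB, DD_eq, CC_eq]
    have h1 : c (Q x) - c (P x) ≠ 0 := sub_ne_zero.2 (hne x).symm
    rw [show c (P x) - (c (P x) + I * (c (Q x) - c (P x))) = -(I * (c (Q x) - c (P x))) by ring,
      show c (P x) - (c (P x) + I * (c (P x) - c (Q x))) = I * (c (Q x) - c (P x)) by ring, neg_div,
      div_self (mul_ne_zero I_ne_zero h1)]
  have vP1 : ∀ x, exp (B x (P x + 1)) = -1 := fun x => by
    rw [← vP x, eB, eB, L.per]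
  have vQ : ∀ x, exp (B x (Q x)) = -I := fun x => by
    rw [eB, DD_eq, CC_eq]
    have h1 : c (Q x) - c (P x) ≠ 0 := sub_ne_zero.2 (hne x).symm
    rw [show c (Q x) - (c (P x) + I * (c (Q x) - c (P x))) = (1 - I) * (c (Q x) - c (P x)) by ring,
      show c (Q x) - (c (P x) + I * (c (P x) - c (Q x))) = (1 + I) * (c (Q x) - c (P x)) by ring,
      mul_div_mul_right _ _ h1, div_eq_iff nzI1]
    ring_nf
    rw [I_sq]; ring
  have e1 : ∀ x, B x (Q x) - B x (P x) = B x1 (Q x1) - B x1 (P x1) := fun x =>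
    H777R2.exp_const (X := ℝ) (k := fun x => B x (Q x) - B x (P x))
      ((cB.comp (f := fun x : ℝ => ((x, Q x) : ℝ × ℝ)) (by fun_prop)).sub
        (cB.comp (f := fun x : ℝ => ((x, P x) : ℝ × ℝ)) (by fun_prop))) (c := I) (fun x => by
      rw [exp_sub, vP, vQ]; ring) x x1
  have e2 : ∀ x, B x (P x + 1) - B x (Q x) = B x2 (P x2 + 1) - B x2 (Q x2) := fun x =>
    H777R2.exp_const (X := ℝ) (k := fun x => B x (P x + 1) - B x (Q x))
      ((cB.comp (f := fun x : ℝ => ((x, P x + 1) : ℝ × ℝ)) (by fun_prop)).sub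
        (cB.comp (f := fun x : ℝ => ((x, Q x) : ℝ × ℝ)) (by fun_prop))) (c := -I) (fun x => by
      rw [exp_sub, vP1, vQ, div_eq_iff (neg_ne_zero.2 I_ne_zero)]
      ring_nf; rw [I_sq]) x x2
  -- quotients
  have quo : ∀ x s, exp (B x s) = ((c s - DD c (P x) (Q x)) / ω) / ((c s - CC c (Q x) (P x)) / ω) :=
    fun x s => by rw [eB, div_div_div_cancel_right₀ hω]
  have quo' : ∀ x s, exp (B x s) =
      (-((c s - DD c (P x) (Q x)) / ω)) / (-((c s - CC c (Q x) (P x)) / ω)) :=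
    fun x s => by rw [neg_div_neg_eq, quo]
  have reD : ∀ x l s, c (Q x) - c (P x) = (l : ℝ) * ω → ((c s - DD c (P x) (Q x)) / ω).re =
      ((c s - c (P x)) / ω).re := fun x l s h => by
    rw [DD_eq, h, show c s - (c (P x) + I * (l * ω)) = (c s - c (P x)) - (l * I) * ω by ring, sub_div,
      mul_div_cancel_right₀ _ hω, sub_re]
    simp
  have reC : ∀ x l s, c (Q x) - c (P x) = (l : ℝ) * ω → ((c s - CC c (Q x) (P x)) / ω).re =
      ((c s - c (P x)) / ω).re := fun x l s h => by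
    rw [CC_eq, show c s - (c (P x) + I * (c (P x) - c (Q x))) =
      (c s - c (P x)) + I * (c (Q x) - c (P x)) by ring, h, show (c s - c (P x)) + I * (l * ω) =
      (c s - c (P x)) + (l * I) * ω by ring, add_div, mul_div_cancel_right₀ _ hω, add_re]
    simp
  have nzD : ∀ x s, (c s - DD c (P x) (Q x)) / ω ≠ 0 := fun x s =>
    div_ne_zero (fun h => hD x (by rw [sub_eq_zero] at h; rw [← h]; exact mem_range_self _)) hω
  have nzC : ∀ x s, (c s - CC c (Q x) (P x)) / ω ≠ 0 := fun x s =>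
    div_ne_zero (fun h => hD' x (by rw [sub_eq_zero] at h; rw [← h]; exact mem_range_self _)) hω
  have slit : ∀ z : ℂ, z ≠ 0 → 0 ≤ z.re → z ∈ slitPlane := fun z h0 h1 => by
    rcases h1.lt_or_eq with h | h
    · exact Or.inl h
    · refine Or.inr fun him => h0 (Complex.ext h.symm him)
  have fP : ∀ x l, c (Q x) - c (P x) = (l : ℝ) * ω → (c (P x) - DD c (P x) (Q x)) / ω = (l : ℂ) * (-I) :=
    fun x l h => by
      rw [DD_eq, h, div_eq_iff hω]; ring
  have gP : ∀ x l, c (Q x) - c (P x) = (l : ℝ) * ω → (c (P x) - CC c (Q x) (P x)) / ω = (l : ℂ) * I :=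
    fun x l h => by
      rw [CC_eq, show c (P x) - (c (P x) + I * (c (P x) - c (Q x))) = I * (c (Q x) - c (P x)) by ring, h,
        div_eq_iff hω]; ring
  have cf : ∀ x, Continuous fun s => (c s - DD c (P x) (Q x)) / ω := fun x => by fun_prop
  have cg : ∀ x, Continuous fun s => (c s - CC c (Q x) (P x)) / ω := fun x => by fun_prop
  have cBx : ∀ x, Continuous fun s => B x s := fun x =>
    cB.comp (f := fun s : ℝ => ((x, s) : ℝ × ℝ)) (by fun_prop)
  -- the angle at the second end of a chord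
  have aQ : ∀ x l, 0 < l → c (Q x) - c (P x) = (l : ℝ) * ω →
      ((c (Q x) - DD c (P x) (Q x)) / ω).arg - ((c (Q x) - CC c (Q x) (P x)) / ω).arg =
        -(Real.pi / 2) := by
    intro x l hl h
    have r1 : 0 < ((c (Q x) - DD c (P x) (Q x)) / ω).re := by
      rw [reD x l _ h, h, mul_div_cancel_right₀ _ hω, ofReal_re]; exact hl
    have r2 : 0 < ((c (Q x) - CC c (Q x) (P x)) / ω).re := by
      rw [reC x l _ h, h, mul_div_cancel_right₀ _ hω, ofReal_re]; exact hl
    have a1 := arg_abs_lt r1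
    have a2 := arg_abs_lt r2
    have h3 : exp (log ((c (Q x) - DD c (P x) (Q x)) / ω) - log ((c (Q x) - CC c (Q x) (P x)) / ω)) =
        exp ((-(Real.pi / 2) : ℝ) * I) := by
      rw [exp_sub, exp_log (nzD x _), exp_log (nzC x _), ← quo, vQ]
      push_cast
      rw [exp_mul_I]
      simp
    obtain ⟨n, hn⟩ := im_exp h3
    rw [sub_im, log_im, log_im] at hn
    rw [abs_lt] at a1 a2
    have n1 : (n : ℝ) < 1 := by
      by_contra hcon
      push Not at hcon
      nlinarith [a1.1, a1.2, a2.1, a2.2]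
    have n2 : (-1 : ℝ) < n := by
      by_contra hcon
      push Not at hcon
      nlinarith [a1.1, a1.2, a2.1, a2.2]
    have n3 : n < 1 := by exact_mod_cast n1
    have n4 : -1 < n := by exact_mod_cast n2
    have n5 : n = 0 := by omega
    rw [hn, n5]; simp
  have argP : ∀ l : ℝ, 0 < l → ((l : ℂ) * (-I)).arg = -(Real.pi / 2) ∧ ((l : ℂ) * I).arg = Real.pi / 2 :=
    fun l hl => ⟨by rw [arg_real_mul _ hl, arg_neg_I], by rw [arg_real_mul _ hl, arg_I]⟩
  -- the inner arc
  have I1 : (B x1 (Q x1)).im - (B x1 (P x1)).im = Real.pi / 2 := by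
    rw [br (f := fun s => (c s - DD c (P x1) (Q x1)) / ω) (g := fun s => (c s - CC c (Q x1) (P x1)) / ω)
      (B := B x1) (hPQ x1).le (cf x1).continuousOn (cg x1).continuousOn (cBx x1).continuousOn
      (fun s hs => slit _ (nzD x1 s) (by rw [reD x1 l1 s he1]; exact hin s hs))
      (fun s hs => slit _ (nzC x1 s) (by rw [reC x1 l1 s he1]; exact hin s hs))
      (fun s _ => quo x1 s), aQ x1 l1 hl1 he1, fP x1 l1 he1, gP x1 l1 he1, (argP l1 hl1).1,
      (argP l1 hl1).2]
    ring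
  -- the outer arc
  have O1 := br (f := fun s => (c s - DD c (P x2) (Q x2)) / ω)
    (g := fun s => (c s - CC c (Q x2) (P x2)) / ω)
    (B := B x2) hb (cf x2).continuousOn (cg x2).continuousOn (cBx x2).continuousOn
    (fun s hs => slit _ (nzD x2 s) (by rw [reD x2 l2 s he2]; exact (ho1 s hs).le))
    (fun s hs => slit _ (nzC x2 s) (by rw [reC x2 l2 s he2]; exact (ho1 s hs).le))
    (fun s _ => quo x2 s)
  rw [aQ x2 l2 hl2 he2] at O1
  have ha' : a1 + 1 ≤ P x2 + 1 := by linarith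
  have hsh : ∀ s ∈ Icc (a1 + 1) (P x2 + 1), ((c s - c (P x2)) / ω).re ≤ 0 := fun s hs => by
    have := ho2 (s - 1) ⟨by linarith [hs.1], by linarith [hs.2]⟩
    rwa [show c (s - 1) = c s by have := L.per (s - 1); rw [sub_add_cancel] at this; exact this.symm]
      at this
  have O3 := br (f := fun s => -((c s - DD c (P x2) (Q x2)) / ω))
    (g := fun s => -((c s - CC c (Q x2) (P x2)) / ω))
    (B := B x2) ha' (cf x2).neg.continuousOn (cg x2).neg.continuousOn (cBx x2).continuousOn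
    (fun s hs => slit _ (neg_ne_zero.2 (nzD x2 s)) (by
      rw [neg_re, reD x2 l2 s he2]; linarith [hsh s hs]))
    (fun s hs => slit _ (neg_ne_zero.2 (nzC x2 s)) (by
      rw [neg_re, reC x2 l2 s he2]; linarith [hsh s hs]))
    (fun s _ => quo' x2 s)
  rw [L.per, fP x2 l2 he2, gP x2 l2 he2, show -((l2 : ℂ) * -I) = l2 * I by ring,
    show -((l2 : ℂ) * I) = l2 * (-I) by ring, (argP l2 hl2).1, (argP l2 hl2).2] at O3
  -- the far part
  have farcos : ∀ s ∈ Icc b1 (a1 + 1), 0 < Real.cos (B x2 s).im := by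
    intro s hs
    have h1 := hfar s hs
    have hne1 : c s - CC c (Q x2) (P x2) ≠ 0 := fun h => hD' x2 (by
      rw [sub_eq_zero] at h; rw [← h]; exact mem_range_self _)
    have h2 : (c s - DD c (P x2) (Q x2)) / (c s - CC c (Q x2) (P x2)) =
        1 - (2 * I * (c (Q x2) - c (P x2))) / (c s - CC c (Q x2) (P x2)) := by
      rw [eq_sub_iff_add_eq, ← add_div, div_eq_one_iff_eq hne1, DD_eq, CC_eq]; ring
    have h3 : ‖(2 * I * (c (Q x2) - c (P x2))) / (c s - CC c (Q x2) (P x2))‖ < 1 := by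
      rw [norm_div, div_lt_one (norm_pos_iff.2 hne1), norm_mul, norm_mul, norm_I, Complex.norm_two,
        mul_one]
      exact h1
    have h4 := re_le_norm ((2 * I * (c (Q x2) - c (P x2))) / (c s - CC c (Q x2) (P x2)))
    have h5 : 0 < ((c s - DD c (P x2) (Q x2)) / (c s - CC c (Q x2) (P x2))).re := by
      rw [h2, sub_re, one_re]; linarith
    rw [← eB, exp_re] at h5
    exact (mul_pos_iff_of_pos_left (Real.exp_pos _)).1 h5
  have O2 := cos_pos_lt (f := fun s => (B x2 s).im) (continuous_im.comp (cBx x2)) hba farcos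
  -- the two intermediate angles
  obtain ⟨α, hα⟩ : ∃ α, α = ((c b1 - DD c (P x2) (Q x2)) / ω).arg -
      ((c b1 - CC c (Q x2) (P x2)) / ω).arg := ⟨_, rfl⟩
  obtain ⟨β, hβ⟩ : ∃ β, β = (-((c (a1 + 1) - DD c (P x2) (Q x2)) / ω)).arg -
      (-((c (a1 + 1) - CC c (Q x2) (P x2)) / ω)).arg := ⟨_, rfl⟩
  rw [← hα] at O1
  rw [← hβ] at O3
  have bα : |α| < Real.pi / 2 := by
    have r0 := ho1 b1 ⟨hb, le_rfl⟩
    have a1' := arg_abs_lt (z := (c b1 - DD c (P x2) (Q x2)) / ω) (by rw [reD x2 l2 _ he2]; exact r0)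
    have a2' := arg_abs_lt (z := (c b1 - CC c (Q x2) (P x2)) / ω) (by rw [reC x2 l2 _ he2]; exact r0)
    refine abs_half ?_ ?_
    · rw [hα, abs_lt]
      rw [abs_lt] at a1' a2'
      constructor <;> linarith
    · rw [hα, ← cos_br (nzD x2 _) (nzC x2 _) (quo x2 b1)]
      exact farcos b1 ⟨le_rfl, hba⟩
  have bβ : |β| < Real.pi / 2 := by
    have r0 : ((c (a1 + 1) - c (P x2)) / ω).re < 0 := by rw [L.per]; exact ho3
    have a1' := arg_abs_lt (z := -((c (a1 + 1) - DD c (P x2) (Q x2)) / ω)) (by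
      rw [neg_re, reD x2 l2 _ he2]; linarith)
    have a2' := arg_abs_lt (z := -((c (a1 + 1) - CC c (Q x2) (P x2)) / ω)) (by
      rw [neg_re, reC x2 l2 _ he2]; linarith)
    refine abs_half ?_ ?_
    · rw [hβ, abs_lt]
      rw [abs_lt] at a1' a2'
      constructor <;> linarith
    · rw [hβ, ← cos_br (neg_ne_zero.2 (nzD x2 _)) (neg_ne_zero.2 (nzC x2 _)) (quo' x2 (a1 + 1))]
      exact farcos (a1 + 1) ⟨hba, le_rfl⟩
  have O4 : (B x2 (P x2 + 1)).im - (B x2 (Q x2)).im = 3 * (Real.pi / 2) := by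
    have h3 : exp (B x2 (P x2 + 1) - B x2 (Q x2)) = exp ((-(Real.pi / 2) : ℝ) * I) := by
      rw [exp_sub, vP1, vQ]
      push_cast
      rw [exp_mul_I]
      simp
    obtain ⟨n, hn⟩ := im_exp h3
    rw [sub_im] at hn
    rw [abs_lt] at O2 bα bβ
    have n1 : (n : ℝ) < 2 := by
      by_contra hcon
      push Not at hcon
      nlinarith [O2.1, O2.2, bα.1, bα.2, bβ.1, bβ.2]
    have n2 : (0 : ℝ) < n := by
      by_contra hcon
      push Not at hcon
      nlinarith [O2.1, O2.2, bα.1, bα.2, bβ.1, bβ.2]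
    have n3 : n < 2 := by exact_mod_cast n1
    have n4 : 0 < n := by exact_mod_cast n2
    have n5 : n = 1 := by omega
    rw [hn, n5]; push_cast; ring
  intro x n n' hn hn'
  have w1 := wB x n n' hn hn' (P x)
  have w2 : ((n : ℂ) - n') * (2 * Real.pi * I) = (B x1 (Q x1) - B x1 (P x1)) +
      (B x2 (P x2 + 1) - B x2 (Q x2)) := by
    rw [← w1, ← e1 x, ← e2 x]; ring
  have w3 := congrArg Complex.im w2
  rw [show ((n : ℂ) - n') * (2 * Real.pi * I) = ((((n : ℝ) - n') * (2 * Real.pi) : ℝ) : ℂ) * I by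
    push_cast; ring, mul_I_im, ofReal_re, add_im, sub_im, sub_im, I1, O4] at w3
  have w4 : ((n : ℝ) - n' - 1) * (2 * Real.pi) = 0 := by linarith
  rcases mul_eq_zero.1 w4 with h | h
  · have : (n : ℝ) = n' + 1 := by linarith
    exact_mod_cast this
  · exact absurd h (by positivity)

end Pool.Agent.Y535.PEG
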