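import Pool.Agent.Y535.PEG.Mwd

/-! The squares over short symmetric chords of a mirror symmetric arc lie on the proper sides. -/

set_option autoImplicit false
open Complex Set Topology Metric

namespace Pool.Agent.Y535.PEG

open Pool.Agent.H763R2 Pool.Agent.H763R2.An Pool.Agent.W675.Peg Pool.Agent.TH569.Peg
open Pool.Agent.H763R2.Dm (NoSq floor_const)

variable {c : ℝ → ℂ}

theorem Mr.tri2 {a b : ℝ} {u v : ℂ} {φ : ℝ → ℝ} (R : Mr c a b u v φ) {s : ℝ} (hs : s ∈ Icc a b) :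
    u * (starRingEnd ℂ) (DD c s (φ s)) + v = CC c s (φ s) := by
  have e1 := R.P.eq s hs
  have e2 := R.P.eq (φ s) (R.mem s hs)
  rw [R.inv s hs] at e2
  rw [CC_eq, DD_eq]
  have h3 : u * (starRingEnd ℂ) (c s + I * (c (φ s) - c s)) + v =
      (u * (starRingEnd ℂ) (c s) + v) - I * ((u * (starRingEnd ℂ) (c (φ s)) + v) -
        (u * (starRingEnd ℂ) (c s) + v)) := by
    simp only [map_add, map_mul, map_sub, conj_I]; ring
  rw [h3, ← e2, ← e1]; ring

/-- winding numbers of the vertices of the squares over short symmetric chords -/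
theorem mir_wd (L : Loop c) (J : Inj c) (nosq : NoSq (range c)) {a b : ℝ} (ba : b < a + 1)
    {u v : ℂ} {φ : ℝ → ℝ} (R : Mr c a b u v φ) {m : ℝ} (hm1 : a < m) (hm2 : m < b) (hm3 : φ m = m) :
    ∃ r1, a ≤ r1 ∧ r1 < m ∧ ∀ r, r1 < r → r < m →
      (DD c r (φ r) ∉ range c ∧ CC c (φ r) r ∉ range c) ∧
      ∀ n n', IsWc c (DD c r (φ r)) n → IsWc c (CC c (φ r) r) n' → n = n' + 1 := by
  have hab : a < b := hm1.trans hm2
  have ma : a ∈ Icc a b := ⟨le_rfl, hab.le⟩
  have mb : b ∈ Icc a b := ⟨hab.le, le_rfl⟩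
  have mm : m ∈ Icc a b := ⟨hm1.le, hm2.le⟩
  have hc := L.cont
  obtain ⟨ω, hωd⟩ : ∃ ω, ω = c b - c a := ⟨_, rfl⟩
  have hω : ω ≠ 0 := by
    rw [hωd]
    exact sub_ne_zero.2 (fun h => J a b hab ba h.symm)
  have hωc : u * (starRingEnd ℂ) ω = -ω := by
    rw [hωd, ← conj_lin (v := v)]
    have e1 := R.P.eq a ma
    have e2 := R.P.eq b mb
    rw [R.fa] at e1
    rw [R.fb] at e2
    rw [← e1, ← e2]; ring
  have hu1 : ‖u‖ = 1 := by
    have := congrArg norm hωc
    rw [norm_mul, norm_neg, Complex.norm_conj] at this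
    exact mul_right_cancel₀ (norm_ne_zero_iff.2 hω) (by rw [this, one_mul])
  obtain ⟨X, hX⟩ : ∃ X : ℝ → ℝ, X = fun s => ((c s - c m) / ω).re := ⟨_, rfl⟩
  have cX : Continuous X := by rw [hX]; fun_prop
  have Xm : X m = 0 := by rw [hX]; simp
  have hcm : c m = u * (starRingEnd ℂ) (c m) + v := by
    have := R.P.eq m mm
    rwa [hm3] at this
  have kφ : ∀ s ∈ Icc a b, c (φ s) - c m = u * (starRingEnd ℂ) (c s - c m) := by
    intro s hs
    rw [← conj_lin (v := v), ← hcm]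
    exact congrArg (fun z => z - c m) (R.P.eq s hs)
  have k1 : ∀ s ∈ Icc a b, c (φ s) - c s = ((-2 * X s : ℝ) : ℂ) * ω := by
    intro s hs
    obtain ⟨ζ, hζ⟩ : ∃ ζ, ζ = (c s - c m) / ω := ⟨_, rfl⟩
    have h1 : c s - c m = ζ * ω := by rw [hζ, div_mul_cancel₀ _ hω]
    have h2 := kφ s hs
    rw [h1, map_mul, show u * ((starRingEnd ℂ) ζ * (starRingEnd ℂ) ω) =
      (starRingEnd ℂ) ζ * (u * (starRingEnd ℂ) ω) by ring, hωc] at h2
    have h3 := Complex.add_conj ζ
    have h4 : X s = ζ.re := by rw [hX, hζ]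
    rw [h4]
    have h5 : c (φ s) - c s = (c (φ s) - c m) - (c s - c m) := by ring
    rw [h5, h1, h2]
    push_cast at h3 ⊢
    linear_combination -ω * h3
  have k3 : ∀ s ∈ Icc a b, X (φ s) = -X s := by
    intro s hs
    have h1 := k1 s hs
    have h2 := k1 (φ s) (R.mem s hs)
    rw [R.inv s hs] at h2
    have h3 : (((-2 * X s + -2 * X (φ s) : ℝ)) : ℂ) * ω = 0 := by
      push_cast at h1 h2 ⊢
      linear_combination -h1 - h2
    rcases mul_eq_zero.1 h3 with h | h
    · have : (-2 * X s + -2 * X (φ s) : ℝ) = 0 := by exact_mod_cast h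
      linarith
    · exact absurd h hω
  have kX : ∀ s r, ((c s - c r) / ω).re = X s - X r := by
    intro s r
    rw [hX]
    simp only
    rw [← sub_re, ← sub_div]
    congr 2
    ring
  have lt_φ : ∀ s, a ≤ s → s < m → m < φ s := fun s h1 h2 => by
    have := R.anti ⟨h1, by linarith⟩ mm h2
    rwa [hm3] at this
  have k5 : ∀ s, a ≤ s → s < m → X s < 0 := by
    intro s h1 h2
    have ha : X a = -1 / 2 := by
      have := k1 a ma
      rw [R.fa, ← hωd] at this
      have h3 : (((-2 * X a - 1 : ℝ)) : ℂ) * ω = 0 := by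
        push_cast at this ⊢
        linear_combination -this
      rcases mul_eq_zero.1 h3 with h | h
      · have : (-2 * X a - 1 : ℝ) = 0 := by exact_mod_cast h
        linarith
      · exact absurd h hω
    have := sign_pre (V := Ico a m) isPreconnected_Ico cX.continuousOn (fun z hz hz0 => by
      have h3 := k1 z ⟨hz.1, by linarith [hz.2]⟩
      rw [hz0, mul_zero, ofReal_zero, zero_mul, sub_eq_zero] at h3
      have h4 := inj_Icc J ba (R.mem z ⟨hz.1, by linarith [hz.2]⟩) ⟨hz.1, by linarith [hz.2]⟩ h3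
      have h5 := lt_φ z hz.1 hz.2
      linarith [hz.2]) (z := a) (w := s) ⟨le_rfl, hm1⟩ ⟨h1, h2⟩
    rw [ha] at this
    linarith
  have nφ : ∀ s ∈ Icc a b, ‖c (φ s) - c m‖ = ‖c s - c m‖ := fun s hs => by
    rw [kφ s hs, norm_mul, Complex.norm_conj, hu1, one_mul]
  -- the scales
  obtain ⟨δ0, hδ0, d1, d2⟩ : ∃ δ0 > 0, δ0 ≤ m - a ∧ δ0 ≤ b - m :=
    ⟨min (m - a) (b - m), lt_min (by linarith) (by linarith), min_le_left _ _, min_le_right _ _⟩
  obtain ⟨ρ1, hρ1, near1⟩ := near_par L J hδ0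
  obtain ⟨κ, hκ, hk⟩ := Metric.continuous_iff.1 hc m (ρ1 / 8) (by positivity)
  simp only [dist_eq_norm] at hk
  obtain ⟨a1, ha1, ha1m, hκ1⟩ : ∃ a1, a ≤ a1 ∧ a1 < m ∧ m - κ < a1 :=
    ⟨max a (m - κ / 2), le_max_left _ _, max_lt hm1 (by linarith), by
      have := le_max_right a (m - κ / 2)
      linarith⟩
  have ha1b := lt_φ a1 ha1 ha1m
  have mb1 : φ a1 ∈ Icc a b := R.mem a1 ⟨ha1, by linarith⟩
  obtain ⟨δ2, hδ2, d3, d4, d5⟩ : ∃ δ2 > 0, δ2 ≤ m - a1 ∧ δ2 ≤ φ a1 - m ∧ δ2 < 1 / 2 :=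
    ⟨min (min (m - a1) (φ a1 - m)) (1 / 4),
      lt_min (lt_min (by linarith) (by linarith)) (by norm_num),
      (min_le_left _ _).trans (min_le_left _ _), (min_le_left _ _).trans (min_le_right _ _),
      (min_le_right _ _).trans_lt (by norm_num)⟩
  obtain ⟨ρ2, hρ2, near2⟩ := near_par L J hδ2
  have far : ∀ s ∈ Icc (φ a1) (a1 + 1), ρ2 ≤ ‖c s - c m‖ := fun s hs =>
    ge_of_far L J d5 hδ2 near2 (s := s) (t := m) (by linarith [hs.1]) (by linarith [hs.2])
  obtain ⟨κ2, hκ2, hk2⟩ := Metric.continuous_iff.1 hc m (ρ2 / 16) (by positivity)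
  simp only [dist_eq_norm] at hk2
  obtain ⟨r1, hr1, hr1m, hr1κ⟩ : ∃ r1, a1 ≤ r1 ∧ r1 < m ∧ m - κ2 < r1 :=
    ⟨max a1 (m - κ2 / 2), le_max_left _ _, max_lt ha1m (by linarith), by
      have := le_max_right a1 (m - κ2 / 2)
      linarith⟩
  have tr : ∀ z, ‖z - c m‖ < ρ1 → z ∈ range c → u * (starRingEnd ℂ) z + v ∈ range c := by
    rintro _ hz ⟨t, rfl⟩
    obtain ⟨n, e, he, ht⟩ := near1 t m hz
    rw [abs_lt] at he
    rw [ht, L.per_int, ← R.P.eq (m + e) ⟨by linarith, by linarith⟩]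
    exact mem_range_self _
  have ne : ∀ r, a ≤ r → r < m → c (φ r) - c r ≠ 0 := fun r h1 h2 => by
    rw [k1 r ⟨h1, by linarith⟩]
    have := k5 r h1 h2
    exact mul_ne_zero (ofReal_ne_zero.2 (fun h => by linarith)) hω
  have out : ∀ r, a1 ≤ r → r < m → DD c r (φ r) ∉ range c ∧ CC c (φ r) r ∉ range c := by
    intro r h1 h2
    have mr : r ∈ Icc a b := ⟨by linarith, by linarith⟩
    have n1 : ‖c r - c m‖ < ρ1 / 8 := hk r (by rw [Real.norm_eq_abs, abs_sub_comm, abs_of_pos (by linarith)]; linarith)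
    have n2 := nφ r mr
    have n3 : ‖c (φ r) - c r‖ < ρ1 / 4 := by
      have := norm_sub_le (c (φ r) - c m) (c r - c m)
      rw [sub_sub_sub_cancel_right] at this
      linarith
    have hne := ne r mr.1 h2
    constructor
    · intro h
      have h3 := tr _ (by
        rw [DD_eq, show c r + I * (c (φ r) - c r) - c m = (c r - c m) + I * (c (φ r) - c r) by ring]
        refine (norm_add_le _ _).trans_lt ?_
        rw [norm_mul, norm_I, one_mul]; linarith) h
      rw [R.tri2 mr] at h3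
      refine nosq ⟨c r, c (φ r) - c r, hne, mem_range_self _, ?_, ?_, ?_⟩
      · rw [add_sub_cancel]; exact mem_range_self _
      · rw [add_sub_cancel, ← CC_eq]; exact h3
      · rw [← DD_eq]; exact h
    · intro h
      have h3 := tr _ (by
        rw [CC_eq, show c r + I * (c r - c (φ r)) - c m = (c r - c m) - I * (c (φ r) - c r) by ring]
        refine (norm_sub_le _ _).trans_lt ?_
        rw [norm_mul, norm_I, one_mul]; linarith) h
      have h4 := R.tri (R.mem r mr)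
      rw [R.inv r mr] at h4
      rw [h4] at h3
      refine nosq ⟨c (φ r), c r - c (φ r), by
        rw [← neg_sub]; exact neg_ne_zero.2 hne, mem_range_self _, ?_, ?_, ?_⟩
      · rw [add_sub_cancel]; exact mem_range_self _
      · rw [add_sub_cancel, ← CC_eq]; exact h
      · rw [← DD_eq]; exact h3
  refine ⟨r1, by linarith, hr1m, fun r0 h01 h02 => ⟨out r0 (by linarith) h02, ?_⟩⟩
  -- the two special chords
  obtain ⟨ri, mri, hri⟩ := isCompact_Icc.exists_isMinOn (s := Icc r1 m) ⟨r1, le_rfl, hr1m.le⟩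
    cX.continuousOn
  have hri' : ∀ s ∈ Icc r1 m, X ri ≤ X s := fun s hs => hri hs
  have Xr1 := k5 r1 (by linarith) hr1m
  have Xri : X ri < 0 := (hri' r1 ⟨le_rfl, hr1m.le⟩).trans_lt Xr1
  have rim : ri < m := lt_of_le_of_ne mri.2 (by
    rintro rfl
    linarith)
  obtain ⟨y1, my1, hy1⟩ := isCompact_Icc.exists_isMaxOn (s := Icc a1 r1) ⟨a1, le_rfl, hr1⟩
    cX.continuousOn
  have hy1' : ∀ s ∈ Icc a1 r1, X s ≤ X y1 := fun s hs => hy1 hs
  have Xy1 : X y1 < 0 := k5 y1 (by linarith [my1.1]) (by linarith [my1.2])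
  obtain ⟨ε, hε, hXε⟩ := Metric.continuous_iff.1 cX m (-X y1) (by linarith)
  simp only [Real.dist_eq] at hXε
  obtain ⟨r', hr'1, hr'2, hr'3⟩ : ∃ r', r1 < r' ∧ r' < m ∧ m - ε < r' :=
    ⟨max ((r1 + m) / 2) (m - ε / 2), lt_of_lt_of_le (by linarith) (le_max_left _ _),
      max_lt (by linarith) (by linarith), by
      have := le_max_right ((r1 + m) / 2) (m - ε / 2)
      linarith⟩
  have Xr' : X y1 < X r' := by
    have := hXε r' (by rw [abs_sub_comm, abs_of_pos (by linarith)]; linarith)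
    rw [Xm, abs_lt] at this
    linarith [this.1]
  obtain ⟨ro, mro, hro⟩ := isCompact_Icc.exists_isMaxOn (s := Icc a1 r') ⟨a1, le_rfl, by linarith⟩
    cX.continuousOn
  have hro' : ∀ s ∈ Icc a1 r', X s ≤ X ro := fun s hs => hro hs
  have Xro1 : X y1 < X ro := Xr'.trans_le (hro' r' ⟨by linarith, le_rfl⟩)
  have ro1 : r1 < ro := by
    by_contra hcon
    push Not at hcon
    have := hy1' ro ⟨mro.1, hcon⟩
    linarith
  have rom : ro < m := mro.2.trans_lt hr'2
  have Xro : X ro < 0 := k5 ro (by linarith) rom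
  obtain ⟨p, p1, p2, p3, p4⟩ : ∃ p, r1 ≤ p ∧ p ≤ r0 ∧ p ≤ ri ∧ p ≤ ro :=
    ⟨r1, le_rfl, h01.le, mri.1, ro1.le⟩
  obtain ⟨q, q1, q2, q3, q4⟩ : ∃ q, q < m ∧ r0 ≤ q ∧ ri ≤ q ∧ ro ≤ q :=
    ⟨max r0 (max ri ro), max_lt h02 (max_lt rim rom), le_max_left _ _,
      (le_max_left _ _).trans (le_max_right _ _), (le_max_right _ _).trans (le_max_right _ _)⟩
  obtain ⟨P, hPd⟩ : ∃ P : ℝ → ℝ, P = fun x => max p (min q x) := ⟨_, rfl⟩
  have cP : Continuous P := by rw [hPd]; fun_prop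
  have P1 : ∀ x, r1 ≤ P x := fun x => by rw [hPd]; exact p1.trans (le_max_left _ _)
  have P2 : ∀ x, P x < m := fun x => by
    rw [hPd]
    exact max_lt (by linarith) ((min_le_left _ _).trans_lt q1)
  have P3 : ∀ x, p ≤ x → x ≤ q → P x = x := fun x h1 h2 => by
    rw [hPd]; simp only; rw [min_eq_right h2, max_eq_right h1]
  have Pm : ∀ x, P x ∈ Icc a b := fun x => ⟨by linarith [P1 x], by linarith [P2 x]⟩
  have cQ : Continuous fun x => φ (P x) := R.P.cont.comp_continuous cP Pm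
  have hPri := P3 ri p3 q3
  have hPro := P3 ro p4 q4
  have key := wd_core L (P := P) (Q := fun x => φ (P x)) cP cQ
    (fun x => (P2 x).trans (lt_φ _ (Pm x).1 (P2 x)))
    (fun x h => ne (P x) (Pm x).1 (P2 x) (by rw [h, sub_self]))
    (fun x => (out (P x) (by linarith [P1 x]) (P2 x)).1)
    (fun x => (out (P x) (by linarith [P1 x]) (P2 x)).2) hω
    (x1 := ri) (l1 := -2 * X ri) (by linarith) (by
      rw [hPri]; exact k1 ri ⟨by linarith [mri.1], by linarith⟩)
    (fun s hs => by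
      rw [hPri] at hs
      rw [hPri, kX]
      rcases le_total s m with h | h
      · have := hri' s ⟨by linarith [mri.1, hs.1], h⟩
        linarith
      · have ms : s ∈ Icc a b := ⟨by linarith, hs.2.trans (R.mem ri ⟨by linarith [mri.1], by linarith⟩).2⟩
        have h3 := k3 s ms
        have h4 : φ s ≤ m := by
          have := R.anti.antitoneOn mm ms h
          rwa [hm3] at this
        have h5 : X (φ s) ≤ 0 := by
          rcases lt_or_eq_of_le h4 with h6 | h6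
          · exact (k5 _ (R.mem s ms).1 h6).le
          · rw [h6, Xm]
        linarith)
    (x2 := ro) (l2 := -2 * X ro) (by linarith) (by
      rw [hPro]; exact k1 ro ⟨by linarith, by linarith⟩)
    (a1 := a1) (b1 := φ a1) (by
      rw [hPro]
      exact R.anti.antitoneOn ⟨ha1, by linarith⟩ ⟨by linarith, by linarith⟩ mro.1)
    (by linarith [mb1.2]) (by rw [hPro]; exact mro.1)
    (fun s hs => by
      rw [hPro] at hs
      rw [hPro, kX]
      have mso : ro ∈ Icc a b := ⟨by linarith, by linarith⟩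
      have ms : s ∈ Icc a b := ⟨(R.mem ro mso).1.trans hs.1, hs.2.trans mb1.2⟩
      have h3 := k3 s ms
      have h4 : φ s ≤ ro := by
        have := R.anti.antitoneOn (R.mem ro mso) ms hs.1
        rwa [R.inv ro mso] at this
      have h5 : a1 ≤ φ s := by
        have := R.anti.antitoneOn ms mb1 hs.2
        rwa [R.inv a1 ⟨ha1, by linarith⟩] at this
      have := hro' (φ s) ⟨h5, by linarith [mro.2]⟩
      linarith)
    (fun s hs => by
      rw [hPro] at hs ⊢
      rw [kX]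
      have := hro' s ⟨hs.1, by linarith [mro.2, hs.2]⟩
      linarith)
    (by
      rw [hPro, kX]
      have := hy1' a1 ⟨le_rfl, hr1⟩
      linarith)
    (fun s hs => by
      rw [hPro]
      have mso : ro ∈ Icc a b := ⟨by linarith, by linarith⟩
      have n1 : ‖c ro - c m‖ < ρ2 / 16 :=
        hk2 ro (by rw [Real.norm_eq_abs, abs_sub_comm, abs_of_pos (by linarith)]; linarith)
      have n2 := nφ ro mso
      have n3 : ‖c (φ ro) - c ro‖ < ρ2 / 8 := by
        have := norm_sub_le (c (φ ro) - c m) (c ro - c m)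
        rw [sub_sub_sub_cancel_right] at this
        linarith
      have n4 := far s hs
      have n5 : ‖CC c (φ ro) ro - c m‖ < ρ2 / 4 := by
        rw [CC_eq, show c ro + I * (c ro - c (φ ro)) - c m = (c ro - c m) - I * (c (φ ro) - c ro) by ring]
        refine (norm_sub_le _ _).trans_lt ?_
        rw [norm_mul, norm_I, one_mul]; linarith
      have n6 := norm_sub_norm_le (c s - c m) (CC c (φ ro) ro - c m)
      rw [sub_sub_sub_cancel_right] at n6
      linarith) r0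
  rw [P3 r0 p2 q2] at key
  exact key

/-- the squares over short symmetric chords lie on the proper side -/
theorem mir_sign (L : Loop c) (J : Inj c) (nosq : NoSq (range c)) {z0 : ℂ} (h0 : 0 < mgc c z0)
    {a b : ℝ} (h : AR c a b) {u v : ℂ} {φ : ℝ → ℝ} (R : Mr c a b u v φ) {m : ℝ} (hm1 : a < m)
    (hm2 : m < b) (hm3 : φ m = m) : ∃ r1, a ≤ r1 ∧ r1 < m ∧ ∃ ρ > 0, ∀ r, r1 < r → r < m →
      ∀ x y, |x - a| < ρ → |y - a| < ρ → x < y → 0 < mgc c (DD c r (φ r)) * mgc c (CC c x y) := by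
  obtain ⟨r1, h1, h2, H⟩ := mir_wd L J nosq h.ba R hm1 hm2 hm3
  obtain ⟨n0, ho, hw⟩ := wind_vals L J h0
  obtain ⟨p, q, hpq, hp, hq, ρ, hρ, hsg⟩ := cone_test L J h.ha
  refine ⟨r1, h1, h2, ρ, hρ, fun r g1 g2 x y hx hy hxy => ?_⟩
  obtain ⟨⟨o1, o2⟩, hn⟩ := H r g1 g2
  obtain ⟨-, s2, -, -⟩ := hsg x y hx hy hxy
  have nC : ∀ y : ℂ, mgc c y ≠ 0 → y ∉ range c := fun y h hy => h ((mgc_sg L).zero L |>.2 hy)
  have nz : ∀ z, z ∉ range c → mgc c z ≠ 0 := fun z h hz => h ((mgc_sg L).zero L |>.1 hz)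
  have n00 : n0 ≠ 0 := by
    rintro rfl
    exact absurd ho (by decide)
  have gen : ∀ P Q : ℂ, P ∉ range c → Q ∉ range c →
      (∀ n m : ℤ, IsWc c P n → IsWc c Q m → n = m + 1) →
      (n0 = 1 ∧ 0 < mgc c P) ∨ (n0 ≠ 1 ∧ mgc c P < 0) := by
    intro P Q hP hQ hPQ
    obtain ⟨n, hn⟩ := L.exW hP
    obtain ⟨m, hm⟩ := L.exW hQ
    have e := hPQ n m hn hm
    have P' := hw P hP n hn
    have Q' := hw Q hQ m hm
    rcases lt_or_gt_of_ne (nz P hP) with h1 | h1 <;> rcases lt_or_gt_of_ne (nz Q hQ) with h2 | h2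
    · have := P'.2 h1; have := Q'.2 h2; omega
    · have a1 := P'.2 h1; have a2 := Q'.1 h2
      exact Or.inr ⟨by omega, h1⟩
    · have a1 := P'.1 h1; have a2 := Q'.2 h2
      exact Or.inl ⟨by omega, h1⟩
    · have := P'.1 h1; have := Q'.1 h2; omega
  have g3 := gen _ _ o1 o2 hn
  have g4 := gen p q (nC p hp) (nC q hq) hpq
  have g5 : 0 < mgc c (DD c r (φ r)) * mgc c p := by
    rcases g3 with ⟨a1, a2⟩ | ⟨a1, a2⟩ <;> rcases g4 with ⟨b1, b2⟩ | ⟨b1, b2⟩
    · exact mul_pos a2 b2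
    · exact absurd a1 b1
    · exact absurd b1 a1
    · exact mul_pos_of_neg_of_neg a2 b2
  exact pos_tr g5 s2

end Pool.Agent.Y535.PEG
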