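import Pool.Agent.Y535.PEG.Rel

/-! Half turns of the angle function along two similar arcs. -/

set_option autoImplicit false
open Complex Set Topology Metric

namespace Pool.Agent.Y535.PEG

open Pool.Agent.H763R2 Pool.Agent.H763R2.An Pool.Agent.W675.Peg Pool.Agent.TH569.Peg
open Pool.Agent.H763R2.Dm (NoSq floor_const)

variable {c : ℝ → ℂ} {θ : ℝ → ℝ → ℝ} {g : ℤ}

/-- a region of short chords of an arc, with a chord near each end -/
structure Pk (c : ℝ → ℂ) (θ : ℝ → ℝ → ℝ) (T : ℂ → ℂ) (φ : ℝ → ℝ) (a b : ℝ) (d e : ℤ) (k0 k1 : ℤ)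
    (ρa ρb : ℝ) (S : Set (ℝ × ℝ)) (pa pb : ℝ × ℝ) (v : ℝ) : Prop where
  pre : IsPreconnected S
  v0 : 0 < v
  ma : pa ∈ S
  mb : pb ∈ S
  uu : ∀ p ∈ S, p.1 < p.2 ∧ p.2 < p.1 + 1
  m1 : ∀ p ∈ S, p.1 ∈ Icc a b
  m2 : ∀ p ∈ S, p.2 ∈ Icc a b
  eD : ∀ p ∈ S, mgc c (T (DD c p.1 p.2)) = ((d * e : ℤ) : ℝ) * (v * mgc c (DD c p.1 p.2))
  eC : ∀ p ∈ S, mgc c (T (CC c p.1 p.2)) = ((d * e : ℤ) : ℝ) * (v * mgc c (CC c p.1 p.2))
  ka : ⌊θ pa.1 pa.2 / Real.pi⌋ = k0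
  kb : ⌊θ pb.1 pb.2 / Real.pi⌋ = k1
  qa : 0 < Real.cos (θ pa.1 pa.2) * Real.sin (θ pa.1 pa.2)
  qb : 0 < Real.cos (θ pb.1 pb.2) * Real.sin (θ pb.1 pb.2)
  na1 : |φ pa.1 - φ a| < ρa
  na2 : |φ pa.2 - φ a| < ρa
  nb1 : |φ pb.1 - φ b| < ρb
  nb2 : |φ pb.2 - φ b| < ρb

theorem cs_pos (A : Ang c (mgc c) θ g) {x y : ℝ} (h1 : x < y) (h2 : y < x + 1)
    (h : 0 < mgc c (DD c x y) * mgc c (CC c x y)) : 0 < Real.cos (θ x y) * Real.sin (θ x y) := by
  obtain ⟨r, hr, e1, e2⟩ := A.ex x y h1 h2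
  rw [e1, e2] at h
  have : 0 < r ^ 2 * (Real.cos (θ x y) * Real.sin (θ x y)) := by
    have e : r * Real.cos (θ x y) * (r * Real.sin (θ x y)) =
      r ^ 2 * (Real.cos (θ x y) * Real.sin (θ x y)) := by ring
    rwa [← e]
  exact (mul_pos_iff_of_pos_left (by positivity)).1 this

theorem exPk (L : Loop c) (J : Inj c) {z0 : ℂ} (h0 : 0 < mgc c z0) (A : Ang c (mgc c) θ g)
    {T : ℂ → ℂ} {u : ℂ} {e d : ℤ} (hT : Smy T u e) {φ : ℝ → ℝ} {a b : ℝ} (P : Mp c T φ a b d)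
    (ha : Cone c a) (hb : Cone c b) {k0 k1 : ℤ} (hk0 : KL θ a k0) (hk1 : KL θ b k1) {ρa ρb : ℝ}
    (hρa : 0 < ρa) (hρb : 0 < ρb) : ∃ S pa pb v, Pk c θ T φ a b d e k0 k1 ρa ρb S pa pb v := by
  have hab := P.ab
  obtain ⟨r1, hr1, sa⟩ := cone_sign L J ha
  obtain ⟨r2, hr2, sb⟩ := cone_sign L J hb
  obtain ⟨r3, hr3, ka⟩ := hk0
  obtain ⟨r4, hr4, kb⟩ := hk1
  obtain ⟨r5, hr5, fa⟩ := Metric.continuousWithinAt_iff.1 (P.cont a ⟨le_rfl, hab.le⟩) ρa hρa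
  obtain ⟨r6, hr6, fb⟩ := Metric.continuousWithinAt_iff.1 (P.cont b ⟨hab.le, le_rfl⟩) ρb hρb
  simp only [Real.dist_eq] at fa fb
  obtain ⟨δ, hδ, d1, d2, d3, d4, d5, d6, d7⟩ : ∃ δ > 0, 2 * δ < r1 ∧ 2 * δ < r2 ∧ 2 * δ < r3 ∧
      2 * δ < r4 ∧ 2 * δ < r5 ∧ 2 * δ < r6 ∧ 3 * δ < b - a := by
    have hba : 0 < b - a := by linarith
    refine ⟨min (min (min r1 r2) (min r3 r4)) (min (min r5 r6) (b - a)) / 4, by positivity, ?_⟩
    set m := min (min (min r1 r2) (min r3 r4)) (min (min r5 r6) (b - a)) with hm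
    have hm0 : 0 < m := by positivity
    have l1 : m ≤ r1 := (min_le_left _ _).trans ((min_le_left _ _).trans (min_le_left _ _))
    have l2 : m ≤ r2 := (min_le_left _ _).trans ((min_le_left _ _).trans (min_le_right _ _))
    have l3 : m ≤ r3 := (min_le_left _ _).trans ((min_le_right _ _).trans (min_le_left _ _))
    have l4 : m ≤ r4 := (min_le_left _ _).trans ((min_le_right _ _).trans (min_le_right _ _))
    have l5 : m ≤ r5 := (min_le_right _ _).trans ((min_le_left _ _).trans (min_le_left _ _))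
    have l6 : m ≤ r6 := (min_le_right _ _).trans ((min_le_left _ _).trans (min_le_right _ _))
    have l7 : m ≤ b - a := (min_le_right _ _).trans (min_le_right _ _)
    refine ⟨?_, ?_, ?_, ?_, ?_, ?_, ?_⟩ <;> linarith
  obtain ⟨r, hr, hM⟩ := arc_eq L J h0 hT P (a1 := a + δ) (b1 := b - δ) (by linarith) (by linarith)
    (by linarith)
  have huc : UniformContinuousOn c (Icc a b) :=
    isCompact_Icc.uniformContinuousOn_of_continuous L.cont.continuousOn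
  obtain ⟨η, hη, hu⟩ := Metric.uniformContinuousOn_iff.1 huc (r / 2) (by positivity)
  obtain ⟨ε, hε, e1, e2⟩ : ∃ ε > 0, ε ≤ δ ∧ ε ≤ η := ⟨min δ η, by positivity, min_le_left _ _,
    min_le_right _ _⟩
  have b1 := P.b1
  refine ⟨{p | a + δ ≤ p.1 ∧ p.2 ≤ b - δ ∧ p.1 < p.2 ∧ p.2 < p.1 + ε}, (a + δ, a + δ + ε / 2),
    (b - δ - ε / 2, b - δ), ‖u‖, ?_⟩
  have near : ∀ x y : ℝ, a + δ ≤ x → y ≤ b - δ → x < y → y < x + ε →
      ‖DD c x y - c x‖ < r ∧ ‖CC c x y - c x‖ < r := by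
    intro x y h1 h2 h3 h4
    have h5 := hu y ⟨by linarith, by linarith⟩ x ⟨by linarith, by linarith⟩ (by
      rw [Real.dist_eq, abs_of_pos (by linarith)]; linarith)
    rw [dist_eq_norm] at h5
    constructor
    · rw [DD_eq, add_sub_cancel_left, norm_mul, norm_I, one_mul]; linarith
    · rw [CC_eq, show c y + I * (c y - c x) - c x = (c y - c x) + I * (c y - c x) by ring]
      refine (norm_add_le _ _).trans_lt ?_
      rw [norm_mul, norm_I, one_mul]; linarith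
  have uu : ∀ x y : ℝ, a + δ ≤ x → y ≤ b - δ → x < y → y < x + ε → y < x + 1 :=
    fun x y h1 h2 h3 h4 => by linarith
  refine ⟨?_, norm_pos_iff.2 hT.ne, ?_, ?_, ?_, ?_, ?_, ?_, ?_, ?_, ?_, ?_, ?_, ?_, ?_, ?_, ?_⟩
  · refine Convex.isPreconnected ?_
    rintro ⟨x, y⟩ ⟨h1, h2, h3, h4⟩ ⟨x', y'⟩ ⟨h1', h2', h3', h4'⟩ p q hp hq hpq
    simp only at h1 h2 h3 h4 h1' h2' h3' h4'
    have hq' : q = 1 - p := by linarith
    subst hq'
    refine ⟨?_, ?_, ?_, ?_⟩ <;> simp only [Prod.smul_mk, Prod.mk_add_mk, smul_eq_mul]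
    · nlinarith [mul_le_mul_of_nonneg_left h1 hp, mul_le_mul_of_nonneg_left h1' hq]
    · nlinarith [mul_le_mul_of_nonneg_left h2 hp, mul_le_mul_of_nonneg_left h2' hq]
    · rcases lt_or_eq_of_le hp with h | h
      · nlinarith [mul_lt_mul_of_pos_left h3 h, mul_le_mul_of_nonneg_left h3'.le hq]
      · rw [← h]; linarith
    · rcases lt_or_eq_of_le hp with h | h
      · nlinarith [mul_lt_mul_of_pos_left h4 h, mul_le_mul_of_nonneg_left h4'.le hq]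
      · rw [← h]; linarith
  · exact ⟨le_rfl, by simp only; linarith, by simp only; linarith, by simp only; linarith⟩
  · exact ⟨by simp only; linarith, le_rfl, by simp only; linarith, by simp only; linarith⟩
  · rintro ⟨x, y⟩ ⟨h1, h2, h3, h4⟩
    exact ⟨h3, uu x y h1 h2 h3 h4⟩
  · rintro ⟨x, y⟩ ⟨h1, h2, h3, h4⟩
    simp only at h1 h2 h3 h4
    exact ⟨by simp only; linarith, by simp only; linarith⟩
  · rintro ⟨x, y⟩ ⟨h1, h2, h3, h4⟩
    simp only at h1 h2 h3 h4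
    exact ⟨by simp only; linarith, by simp only; linarith⟩
  · rintro ⟨x, y⟩ ⟨h1, h2, h3, h4⟩
    exact hM x ⟨h1, by simp only at h3 h2; linarith⟩ _ (near x y h1 h2 h3 h4).1
  · rintro ⟨x, y⟩ ⟨h1, h2, h3, h4⟩
    exact hM x ⟨h1, by simp only at h3 h2; linarith⟩ _ (near x y h1 h2 h3 h4).2
  · exact ka _ _ (by rw [add_sub_cancel_left, abs_of_pos hδ]; linarith)
      (by rw [show a + δ + ε / 2 - a = δ + ε / 2 by ring, abs_of_pos (by positivity)]; linarith)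
      (by linarith)
  · exact kb _ _ (by
      rw [show b - δ - ε / 2 - b = -(δ + ε / 2) by ring, abs_neg, abs_of_pos (by positivity)]
      linarith) (by rw [show b - δ - b = -δ by ring, abs_neg, abs_of_pos hδ]; linarith)
      (by linarith)
  · exact cs_pos A (by simp only; linarith) (by simp only; linarith)
      (sa _ _ (by rw [add_sub_cancel_left, abs_of_pos hδ]; linarith)
      (by rw [show a + δ + ε / 2 - a = δ + ε / 2 by ring, abs_of_pos (by positivity)]; linarith)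
      (by linarith)).1
  · exact cs_pos A (by simp only; linarith) (by simp only; linarith)
      (sb _ _ (by
      rw [show b - δ - ε / 2 - b = -(δ + ε / 2) by ring, abs_neg, abs_of_pos (by positivity)]
      linarith) (by rw [show b - δ - b = -δ by ring, abs_neg, abs_of_pos hδ]; linarith)
      (by linarith)).1
  · exact fa ⟨by simp only; linarith, by simp only; linarith⟩
      (by rw [add_sub_cancel_left, abs_of_pos hδ]; linarith)
  · exact fa ⟨by simp only; linarith, by simp only; linarith⟩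
      (by rw [show a + δ + ε / 2 - a = δ + ε / 2 by ring, abs_of_pos (by positivity)]; linarith)
  · exact fb ⟨by simp only; linarith, by simp only; linarith⟩
      (by rw [show b - δ - ε / 2 - b = -(δ + ε / 2) by ring, abs_neg, abs_of_pos (by positivity)]
          linarith)
  · exact fb ⟨by simp only; linarith, by simp only; linarith⟩
      (by rw [show b - δ - b = -δ by ring, abs_neg, abs_of_pos hδ]; linarith)

/-- comparison of the angle function at two families of chords -/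
theorem chg (A : Ang c (mgc c) θ g) {S : Set (ℝ × ℝ)} (hS : IsPreconnected S)
    (hU : ∀ p ∈ S, p.1 < p.2 ∧ p.2 < p.1 + 1) {q1 q2 : ℝ × ℝ → ℝ} (hq1 : ContinuousOn q1 S)
    (hq2 : ContinuousOn q2 S) (hQ : ∀ p ∈ S, q1 p < q2 p ∧ q2 p < q1 p + 1) {v : ℝ} (hv : 0 < v)
    {α σ : ℝ} (hrel : ∀ p ∈ S, ∀ r, mgc c (DD c p.1 p.2) = r * Real.cos (θ p.1 p.2) →
      mgc c (CC c p.1 p.2) = r * Real.sin (θ p.1 p.2) →
      mgc c (DD c (q1 p) (q2 p)) = v * r * Real.cos (α + σ * θ p.1 p.2) ∧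
      mgc c (CC c (q1 p) (q2 p)) = v * r * Real.sin (α + σ * θ p.1 p.2)) :
    ∃ m : ℤ, ∀ p ∈ S, θ (q1 p) (q2 p) = α + σ * θ p.1 p.2 + m * (2 * Real.pi) := by
  refine ang_const hS (f := fun p => θ (q1 p) (q2 p)) (k := fun p => α + σ * θ p.1 p.2)
    (A.cont.comp (f := fun p : ℝ × ℝ => ((q1 p, q2 p) : ℝ × ℝ)) (hq1.prodMk hq2) hQ)
    (continuousOn_const.add (continuousOn_const.mul (A.cont.mono hU))) (fun p hp => ?_)
  obtain ⟨r, hr, e1, e2⟩ := A.ex p.1 p.2 (hU p hp).1 (hU p hp).2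
  obtain ⟨r', hr', e1', e2'⟩ := A.ex (q1 p) (q2 p) (hQ p hp).1 (hQ p hp).2
  obtain ⟨f1, f2⟩ := hrel p hp r e1 e2
  rw [e1'] at f1
  rw [e2'] at f2
  exact trig_rel hr' (mul_pos hv hr) f1 f2

theorem fl_shift (x : ℝ) (m n : ℤ) :
    ⌊(x + n * Real.pi + m * (2 * Real.pi)) / Real.pi⌋ = ⌊x / Real.pi⌋ + n + 2 * m := by
  rw [show (x + n * Real.pi + m * (2 * Real.pi)) / Real.pi = x / Real.pi + ((n + 2 * m : ℤ) : ℝ) by
    push_cast; field_simp; ring, Int.floor_add_intCast]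
  ring

theorem fl_half {x : ℝ} (h : 0 < Real.cos x * Real.sin x) (m : ℤ) :
    ⌊(Real.pi / 2 + -1 * x + m * (2 * Real.pi)) / Real.pi⌋ = -⌊x / Real.pi⌋ + 2 * m := by
  have hπ := Real.pi_pos
  obtain ⟨h1, h2⟩ := half_fl h
  rw [Int.floor_eq_iff, le_div_iff₀ hπ, div_lt_iff₀ hπ]
  push_cast
  constructor <;> linarith

theorem fl_mhalf {x : ℝ} (h : 0 < Real.cos x * Real.sin x) (m : ℤ) :
    ⌊(-(Real.pi / 2) + -1 * x + m * (2 * Real.pi)) / Real.pi⌋ = -⌊x / Real.pi⌋ - 1 + 2 * m := by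
  have hπ := Real.pi_pos
  obtain ⟨h1, h2⟩ := half_fl h
  rw [Int.floor_eq_iff, le_div_iff₀ hπ, div_lt_iff₀ hπ]
  push_cast
  constructor <;> linarith

/-- transport of half turns along similar arcs, the sides being kept -/
theorem arc_keep (L : Loop c) (J : Inj c) {z0 : ℂ} (h0 : 0 < mgc c z0) (A : Ang c (mgc c) θ g)
    {T : ℂ → ℂ} {u : ℂ} {e d : ℤ} (hT : Smy T u e) {φ : ℝ → ℝ} {a b : ℝ} (P : Mp c T φ a b d)
    (ha : Cone c a) (hb : Cone c b) {k0 k1 l0 l1 : ℤ} (hk0 : KL θ a k0) (hk1 : KL θ b k1)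
    (hl0 : KL θ (φ a) l0) (hl1 : KL θ (φ b) l1) (hde : d * e = 1) : l1 - l0 = d * (k1 - k0) := by
  obtain ⟨ρa, hρa, fa⟩ := hl0
  obtain ⟨ρb, hρb, fb⟩ := hl1
  obtain ⟨S, pa, pb, v, K⟩ := exPk L J h0 A hT P ha hb hk0 hk1 hρa hρb
  have c1 : ContinuousOn (fun p : ℝ × ℝ => φ p.1) S := P.cont.comp (by fun_prop) K.m1
  have c2 : ContinuousOn (fun p : ℝ × ℝ => φ p.2) S := P.cont.comp (by fun_prop) K.m2
  have eD := K.eD
  have eC := K.eC
  rw [hde, Int.cast_one] at eD eC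
  have ab := P.ab.le
  rcases P.mono with ⟨hd, hm, hl⟩ | ⟨hd, hm, hl⟩
  · have he : e = 1 := by rw [hd, one_mul] at hde; exact hde
    have hv : ∃ v0, ∀ z, T z = u * z + v0 := by
      rcases hT.h with ⟨-, h⟩ | ⟨h, -⟩
      · exact h
      · rw [he] at h; exact absurd h (by decide)
    obtain ⟨v0, hv0⟩ := hv
    have hx : ∀ p ∈ S, φ p.1 < φ p.2 ∧ φ p.2 < φ p.1 + 1 := fun p hp => by
      have g1 := hm.monotoneOn ⟨le_rfl, ab⟩ (K.m1 p hp) (K.m1 p hp).1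
      have g2 := hm.monotoneOn (K.m2 p hp) ⟨ab, le_rfl⟩ (K.m2 p hp).2
      exact ⟨hm (K.m1 p hp) (K.m2 p hp) (K.uu p hp).1, by linarith⟩
    obtain ⟨m, hmm⟩ := chg A K.pre K.uu c1 c2 hx K.v0 (α := 0) (σ := 1) (fun p hp r r1 r2 => by
      have t1 : DD c (φ p.1) (φ p.2) = T (DD c p.1 p.2) := by
        rw [DD_eq, DD_eq, P.eq _ (K.m1 p hp), P.eq _ (K.m2 p hp), hv0, hv0, hv0]; ring
      have t2 : CC c (φ p.1) (φ p.2) = T (CC c p.1 p.2) := by
        rw [CC_eq, CC_eq, P.eq _ (K.m1 p hp), P.eq _ (K.m2 p hp), hv0, hv0, hv0]; ring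
      rw [t1, t2, eD p hp, eC p hp, r1, r2, zero_add, one_mul, one_mul]
      constructor <;> ring)
    have ea := fa _ _ K.na1 K.na2 (hx pa K.ma).1
    have eb := fb _ _ K.nb1 K.nb2 (hx pb K.mb).1
    rw [hmm pa K.ma] at ea
    rw [hmm pb K.mb] at eb
    have sa := fl_shift (θ pa.1 pa.2) m 0
    have sb := fl_shift (θ pb.1 pb.2) m 0
    rw [K.ka] at sa
    rw [K.kb] at sb
    have e1 : (0:ℝ) + 1 * θ pa.1 pa.2 + m * (2 * Real.pi) =
      θ pa.1 pa.2 + ((0:ℤ):ℝ) * Real.pi + m * (2 * Real.pi) := by push_cast; ring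
    have e2 : (0:ℝ) + 1 * θ pb.1 pb.2 + m * (2 * Real.pi) =
      θ pb.1 pb.2 + ((0:ℤ):ℝ) * Real.pi + m * (2 * Real.pi) := by push_cast; ring
    rw [e1, sa] at ea
    rw [e2, sb] at eb
    rw [hd, ← ea, ← eb]; ring
  · have he : e = -1 := by rw [hd] at hde; linarith
    have hv : ∃ v0, ∀ z, T z = u * (starRingEnd ℂ) z + v0 := by
      rcases hT.h with ⟨h, -⟩ | ⟨-, h⟩
      · rw [he] at h; exact absurd h (by decide)
      · exact h
    obtain ⟨v0, hv0⟩ := hv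
    have hx : ∀ p ∈ S, φ p.2 < φ p.1 ∧ φ p.1 < φ p.2 + 1 := fun p hp => by
      have g1 := hm.antitoneOn ⟨le_rfl, ab⟩ (K.m1 p hp) (K.m1 p hp).1
      have g2 := hm.antitoneOn (K.m2 p hp) ⟨ab, le_rfl⟩ (K.m2 p hp).2
      exact ⟨hm (K.m1 p hp) (K.m2 p hp) (K.uu p hp).1, by linarith⟩
    obtain ⟨m, hmm⟩ := chg A K.pre K.uu c2 c1 hx K.v0 (α := Real.pi / 2) (σ := -1)
      (fun p hp r r1 r2 => by
      have t1 : DD c (φ p.2) (φ p.1) = T (CC c p.1 p.2) := by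
        rw [DD_eq, CC_eq, P.eq _ (K.m1 p hp), P.eq _ (K.m2 p hp), hv0, hv0, hv0]
        simp only [map_add, map_sub, map_mul, conj_I]; ring
      have t2 : CC c (φ p.2) (φ p.1) = T (DD c p.1 p.2) := by
        rw [CC_eq, DD_eq, P.eq _ (K.m1 p hp), P.eq _ (K.m2 p hp), hv0, hv0, hv0]
        simp only [map_add, map_sub, map_mul, conj_I]; ring
      rw [t1, t2, eD p hp, eC p hp, r1, r2,
        show Real.pi / 2 + -1 * θ p.1 p.2 = Real.pi / 2 - θ p.1 p.2 by ring,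
        Real.cos_pi_div_two_sub, Real.sin_pi_div_two_sub]
      constructor <;> ring)
    have ea := fa _ _ K.na2 K.na1 (hx pa K.ma).1
    have eb := fb _ _ K.nb2 K.nb1 (hx pb K.mb).1
    rw [hmm pa K.ma, fl_half K.qa, K.ka] at ea
    rw [hmm pb K.mb, fl_half K.qb, K.kb] at eb
    rw [hd, ← ea, ← eb]; ring

/-- transport of half turns along similar arcs, the sides being exchanged -/
theorem arc_swap (L : Loop c) (J : Inj c) {z0 : ℂ} (h0 : 0 < mgc c z0) (A : Ang c (mgc c) θ g)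
    {T : ℂ → ℂ} {u : ℂ} {e d : ℤ} (hT : Smy T u e) {φ : ℝ → ℝ} {a b : ℝ} (P : Mp c T φ a b d)
    (ha : Cone c a) (hb : Cone c b) {k0 k1 l0 l1 : ℤ} (hk0 : KL θ a k0) (hk1 : KL θ b k1)
    (hl0 : KR θ (φ a) l0) (hl1 : KR θ (φ b) l1) (hde : d * e = -1) :
    l1 - l0 = -(d * (k1 - k0)) := by
  obtain ⟨ρa, hρa, fa⟩ := hl0
  obtain ⟨ρb, hρb, fb⟩ := hl1
  obtain ⟨S, pa, pb, v, K⟩ := exPk L J h0 A hT P ha hb hk0 hk1 hρa hρb
  have c1 : ContinuousOn (fun p : ℝ × ℝ => φ p.1) S := P.cont.comp (by fun_prop) K.m1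
  have c2 : ContinuousOn (fun p : ℝ × ℝ => φ p.2) S := P.cont.comp (by fun_prop) K.m2
  have eD := K.eD
  have eC := K.eC
  rw [hde, Int.cast_neg, Int.cast_one] at eD eC
  have ab := P.ab.le
  rcases P.mono with ⟨hd, hm, hl⟩ | ⟨hd, hm, hl⟩
  · have he : e = -1 := by rw [hd, one_mul] at hde; exact hde
    have hv : ∃ v0, ∀ z, T z = u * (starRingEnd ℂ) z + v0 := by
      rcases hT.h with ⟨h, -⟩ | ⟨-, h⟩
      · rw [he] at h; exact absurd h (by decide)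
      · exact h
    obtain ⟨v0, hv0⟩ := hv
    have hx0 : ∀ p ∈ S, φ p.1 < φ p.2 := fun p hp => hm (K.m1 p hp) (K.m2 p hp) (K.uu p hp).1
    have hx : ∀ p ∈ S, φ p.2 < φ p.1 + 1 ∧ φ p.1 + 1 < φ p.2 + 1 := fun p hp => by
      have g1 := hm.monotoneOn ⟨le_rfl, ab⟩ (K.m1 p hp) (K.m1 p hp).1
      have g2 := hm.monotoneOn (K.m2 p hp) ⟨ab, le_rfl⟩ (K.m2 p hp).2
      exact ⟨by linarith, by linarith [hx0 p hp]⟩
    obtain ⟨m, hmm⟩ := chg A K.pre K.uu (q1 := fun p => φ p.2) (q2 := fun p => φ p.1 + 1) c2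
      (c1.add continuousOn_const) hx K.v0
      (α := -(Real.pi / 2)) (σ := -1) (fun p hp r r1 r2 => by
      have t1 : DD c (φ p.2) (φ p.1 + 1) = T (CC c p.1 p.2) := by
        rw [DD_per1 L, DD_eq, CC_eq, P.eq _ (K.m1 p hp), P.eq _ (K.m2 p hp), hv0, hv0, hv0]
        simp only [map_add, map_sub, map_mul, conj_I]; ring
      have t2 : CC c (φ p.2) (φ p.1 + 1) = T (DD c p.1 p.2) := by
        rw [CC_per1 L, CC_eq, DD_eq, P.eq _ (K.m1 p hp), P.eq _ (K.m2 p hp), hv0, hv0, hv0]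
        simp only [map_add, map_sub, map_mul, conj_I]; ring
      rw [t1, t2, eD p hp, eC p hp, r1, r2,
        show -(Real.pi / 2) + -1 * θ p.1 p.2 = -(Real.pi / 2 + θ p.1 p.2) by ring,
        Real.cos_neg, Real.sin_neg, add_comm (Real.pi / 2), Real.cos_add_pi_div_two,
        Real.sin_add_pi_div_two]
      constructor <;> ring)
    have ea := fa _ _ K.na1 K.na2 (hx0 pa K.ma)
    have eb := fb _ _ K.nb1 K.nb2 (hx0 pb K.mb)
    rw [hmm pa K.ma, fl_mhalf K.qa, K.ka] at ea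
    rw [hmm pb K.mb, fl_mhalf K.qb, K.kb] at eb
    rw [hd, ← ea, ← eb]; ring
  · have he : e = 1 := by rw [hd] at hde; linarith
    have hv : ∃ v0, ∀ z, T z = u * z + v0 := by
      rcases hT.h with ⟨-, h⟩ | ⟨h, -⟩
      · exact h
      · rw [he] at h; exact absurd h (by decide)
    obtain ⟨v0, hv0⟩ := hv
    have hx0 : ∀ p ∈ S, φ p.2 < φ p.1 := fun p hp => hm (K.m1 p hp) (K.m2 p hp) (K.uu p hp).1
    have hx : ∀ p ∈ S, φ p.1 < φ p.2 + 1 ∧ φ p.2 + 1 < φ p.1 + 1 := fun p hp => by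
      have g1 := hm.antitoneOn ⟨le_rfl, ab⟩ (K.m1 p hp) (K.m1 p hp).1
      have g2 := hm.antitoneOn (K.m2 p hp) ⟨ab, le_rfl⟩ (K.m2 p hp).2
      exact ⟨by linarith, by linarith [hx0 p hp]⟩
    obtain ⟨m, hmm⟩ := chg A K.pre K.uu (q1 := fun p => φ p.1) (q2 := fun p => φ p.2 + 1) c1
      (c2.add continuousOn_const) hx K.v0
      (α := Real.pi) (σ := 1) (fun p hp r r1 r2 => by
      have t1 : DD c (φ p.1) (φ p.2 + 1) = T (DD c p.1 p.2) := by
        rw [DD_per1 L, DD_eq, DD_eq, P.eq _ (K.m1 p hp), P.eq _ (K.m2 p hp), hv0, hv0, hv0]; ring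
      have t2 : CC c (φ p.1) (φ p.2 + 1) = T (CC c p.1 p.2) := by
        rw [CC_per1 L, CC_eq, CC_eq, P.eq _ (K.m1 p hp), P.eq _ (K.m2 p hp), hv0, hv0, hv0]; ring
      rw [t1, t2, eD p hp, eC p hp, r1, r2, one_mul, add_comm Real.pi, Real.cos_add_pi,
        Real.sin_add_pi]
      constructor <;> ring)
    have ea := fa _ _ K.na2 K.na1 (hx0 pa K.ma)
    have eb := fb _ _ K.nb2 K.nb1 (hx0 pb K.mb)
    rw [hmm pa K.ma] at ea
    rw [hmm pb K.mb] at eb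
    have sa := fl_shift (θ pa.1 pa.2) m 1
    have sb := fl_shift (θ pb.1 pb.2) m 1
    rw [K.ka] at sa
    rw [K.kb] at sb
    have e1 : Real.pi + 1 * θ pa.1 pa.2 + m * (2 * Real.pi) =
      θ pa.1 pa.2 + ((1:ℤ):ℝ) * Real.pi + m * (2 * Real.pi) := by push_cast; ring
    have e2 : Real.pi + 1 * θ pb.1 pb.2 + m * (2 * Real.pi) =
      θ pb.1 pb.2 + ((1:ℤ):ℝ) * Real.pi + m * (2 * Real.pi) := by push_cast; ring
    rw [e1, sa] at ea
    rw [e2, sb] at eb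
    rw [hd, ← ea, ← eb]; ring

end Pool.Agent.Y535.PEG
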