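import Pool.Agent.Y535.PEG.Rect
import Pool.Agent.Y535.PEG.Amb

/-! Comparison of the half turns on the two sides of a curve without inscribed squares. -/

set_option autoImplicit false
open Complex Set Topology Metric

namespace Pool.Agent.Y535.PEG

open Pool.Agent.H763R2 Pool.Agent.H763R2.An Pool.Agent.W675.Peg Pool.Agent.TH569.Peg
open Pool.Agent.H763R2.Dm (NoSq floor_const)

variable {c q : ℝ → ℂ} {θ : ℝ → ℝ → ℝ} {g : ℤ}

theorem same_ang {r t x y : ℝ} (hr : 0 < r) (ht : 0 < t) (h1 : r * Real.cos x = t * Real.cos y)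
    (h2 : r * Real.sin x = t * Real.sin y) : ∃ m : ℤ, x = y + m * (2 * Real.pi) := by
  obtain ⟨m, hm⟩ := ang_const (X := Unit) (V := univ) isPreconnected_univ (f := fun _ => x)
    (k := fun _ => y) continuousOn_const continuousOn_const
    (fun _ _ => trig_rel hr ht h1 h2)
  exact ⟨m, hm () (mem_univ _)⟩

theorem fl_add {x y : ℝ} {m : ℤ} (h : x = y + m * (2 * Real.pi)) :
    ⌊x / Real.pi⌋ = ⌊y / Real.pi⌋ + 2 * m := by
  have hπ := Real.pi_pos
  rw [h, add_div, show (m : ℝ) * (2 * Real.pi) / Real.pi = ((2 * m : ℤ) : ℝ) by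
      push_cast; field_simp, Int.floor_add_intCast]

/-- close vectors have close angles -/
theorem cos_close {r t x y : ℝ} (hr : 0 < r) (ht : 0 < t)
    (h : ‖(((r * Real.cos x : ℝ) : ℂ) + ((r * Real.sin x : ℝ) : ℂ) * I) -
      (((t * Real.cos y : ℝ) : ℂ) + ((t * Real.sin y : ℝ) : ℂ) * I)‖ <
      ‖((t * Real.cos y : ℝ) : ℂ) + ((t * Real.sin y : ℝ) : ℂ) * I‖) :
    0 < Real.cos (x - y) := by
  have h1 := pow_lt_pow_left₀ h (norm_nonneg _) (two_ne_zero)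
  rw [Complex.sq_norm, Complex.sq_norm, normSq_apply, normSq_apply] at h1
  simp only [sub_re, sub_im, add_re, add_im, mul_I_re, mul_I_im, ofReal_re, ofReal_im] at h1
  rw [Real.cos_sub]
  have a1 := Real.cos_sq_add_sin_sq x
  have a2 : (r * Real.cos x) ^ 2 + (r * Real.sin x) ^ 2 = r ^ 2 := by
    rw [mul_pow, mul_pow, ← mul_add, a1, mul_one]
  have h2 : 0 < r * t * (Real.cos x * Real.cos y + Real.sin x * Real.sin y) := by
    have : 0 < r ^ 2 := by positivity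
    nlinarith
  exact (mul_pos_iff_of_pos_left (mul_pos hr ht)).1 h2

theorem norm_pol {ρ x : ℝ} (hρ : 0 < ρ) :
    ‖((ρ * Real.cos x : ℝ) : ℂ) + ((ρ * Real.sin x : ℝ) : ℂ) * I‖ = ρ := by
  have h1 : ‖((ρ * Real.cos x : ℝ) : ℂ) + ((ρ * Real.sin x : ℝ) : ℂ) * I‖ ^ 2 = ρ ^ 2 := by
    rw [Complex.sq_norm, normSq_apply]
    simp only [add_re, add_im, mul_I_re, mul_I_im, ofReal_re, ofReal_im]
    have := Real.cos_sq_add_sin_sq x
    linear_combination ρ ^ 2 * this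
  exact (pow_left_inj₀ (norm_nonneg _) hρ.le (two_ne_zero)).1 h1

/-- change of the argument -/
theorem dl_im {f : ℝ → ℂ} {a b : ℝ} (hab : a ≤ b) (hf : Continuous f)
    (h0 : ∀ t ∈ Icc a b, f t ≠ 0) {φ : ℝ → ℝ} (hφ : ContinuousOn φ (Icc a b))
    (hex : ∀ t ∈ Icc a b, ∃ ρ > 0, f t = ((ρ * Real.cos (φ t) : ℝ) : ℂ) +
      ((ρ * Real.sin (φ t) : ℝ) : ℂ) * I) : (dl f a b).im = φ b - φ a := by
  have h1 : ContinuousOn (fun t => Real.log ‖f t‖) (Icc a b) :=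
    ContinuousOn.log hf.norm.continuousOn (fun t ht => norm_ne_zero_iff.2 (h0 t ht))
  have hK : ContinuousOn (fun t => ((Real.log ‖f t‖ : ℝ) : ℂ) + ((φ t : ℝ) : ℂ) * I) (Icc a b) :=
    (continuous_ofReal.comp_continuousOn h1).add
      ((continuous_ofReal.comp_continuousOn hφ).mul continuousOn_const)
  rw [dl_eq hab hK (fun t ht => by
    obtain ⟨ρ, hρ, e⟩ := hex t ht
    have hn : ‖f t‖ = ρ := by rw [e]; exact norm_pol hρ
    rw [exp_add, ← ofReal_exp, hn, Real.exp_log hρ, exp_mul_I, ← ofReal_cos, ← ofReal_sin, e]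
    push_cast; ring)]
  simp

/-- half turns along the chords with one end at a cone point -/
theorem vert (A : Ang c (mgc c) θ g) {s ε0 η : ℝ} {κL κR : ℤ} (hη : 0 < η) (hηε : η ≤ ε0)
    (hε : ε0 < 1 / 2) (hl : ⌊θ s (s + ε0) / Real.pi⌋ = κL)
    (hr : ⌊θ s (s + (1 - ε0)) / Real.pi⌋ = κR)
    (hcl : ∀ r ∈ Icc ε0 (1 - ε0), ‖GG q (mgc q) s (s + r) - GG c (mgc c) s (s + r)‖ <
      ‖GG c (mgc c) s (s + r)‖)
    (c1 : 0 < mgc c (DD c s (s + ε0)) * mgc c (CC c s (s + ε0)))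
    (c2 : 0 < mgc c (DD c s (s + (1 - ε0))) * mgc c (CC c s (s + (1 - ε0))))
    (q1 : ∀ r, 0 < r → r ≤ ε0 → 0 < mgc q (DD q s (s + r)) * mgc q (CC q s (s + r)))
    (q2 : ∀ r, 1 - ε0 ≤ r → r < 1 → 0 < mgc q (DD q s (s + r)) * mgc q (CC q s (s + r)))
    {φ : ℝ → ℝ} (hφ : ContinuousOn φ (Icc η (1 - η)))
    (hex : ∀ r ∈ Icc η (1 - η), ∃ ρ > 0, mgc q (DD q s (s + r)) = ρ * Real.cos (φ r) ∧
      mgc q (CC q s (s + r)) = ρ * Real.sin (φ r)) :
    ⌊φ (1 - η) / Real.pi⌋ - ⌊φ η / Real.pi⌋ = κR - κL ∧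
      ∃ j : ℤ, ⌊φ η / Real.pi⌋ = κL + 2 * j := by
  have sub1 : Icc η ε0 ⊆ Icc η (1 - η) := fun r hr => ⟨hr.1, by linarith [hr.2]⟩
  have sub2 : Icc (1 - ε0) (1 - η) ⊆ Icc η (1 - η) := fun r hr => ⟨by linarith [hr.1], hr.2⟩
  have sub3 : Icc ε0 (1 - ε0) ⊆ Icc η (1 - η) := fun r hr => ⟨by linarith [hr.1], by linarith [hr.2]⟩
  have cs : ∀ r ∈ Icc η (1 - η), 0 < mgc q (DD q s (s + r)) * mgc q (CC q s (s + r)) →
      0 < Real.cos (φ r) * Real.sin (φ r) := by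
    intro r hr h
    obtain ⟨ρ, hρ, e1, e2⟩ := hex r hr
    rw [e1, e2, show ρ * Real.cos (φ r) * (ρ * Real.sin (φ r)) =
      ρ * ρ * (Real.cos (φ r) * Real.sin (φ r)) by ring] at h
    exact (mul_pos_iff_of_pos_left (mul_pos hρ hρ)).1 h
  have cc : ∀ r ∈ Icc ε0 (1 - ε0), 0 < mgc c (DD c s (s + r)) * mgc c (CC c s (s + r)) →
      0 < Real.cos (θ s (s + r)) * Real.sin (θ s (s + r)) := by
    intro r hr h
    obtain ⟨ρ, hρ, e1, e2⟩ := A.ex s (s + r) (by linarith [hr.1]) (by linarith [hr.2])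
    rw [e1, e2, show ρ * Real.cos (θ s (s + r)) * (ρ * Real.sin (θ s (s + r))) =
      ρ * ρ * (Real.cos (θ s (s + r)) * Real.sin (θ s (s + r))) by ring] at h
    exact (mul_pos_iff_of_pos_left (mul_pos hρ hρ)).1 h
  have f1 : ⌊φ η / Real.pi⌋ = ⌊φ ε0 / Real.pi⌋ :=
    floor_pre (V := Icc η ε0) isPreconnected_Icc (hφ.mono sub1) (fun r hr =>
      right_ne_zero_of_mul (cs r (sub1 hr) (q1 r (by linarith [hr.1]) hr.2)).ne')
      ⟨le_rfl, hηε⟩ ⟨hηε, le_rfl⟩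
  have f2 : ⌊φ (1 - η) / Real.pi⌋ = ⌊φ (1 - ε0) / Real.pi⌋ :=
    floor_pre (V := Icc (1 - ε0) (1 - η)) isPreconnected_Icc (hφ.mono sub2) (fun r hr =>
      right_ne_zero_of_mul (cs r (sub2 hr) (q2 r hr.1 (by linarith [hr.2]))).ne')
      ⟨by linarith, le_rfl⟩ ⟨le_rfl, by linarith⟩
  have hk : ContinuousOn (fun r => θ s (s + r)) (Icc ε0 (1 - ε0)) := by
    refine A.cont.comp (f := fun r : ℝ => ((s, s + r) : ℝ × ℝ)) (by fun_prop) ?_
    intro r hr
    exact ⟨by simp only; linarith [hr.1], by simp only; linarith [hr.2]⟩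
  have hcos : ∀ r ∈ Icc ε0 (1 - ε0), 0 < Real.cos (φ r - θ s (s + r)) := by
    intro r hr
    obtain ⟨ρ, hρ, e1, e2⟩ := hex r (sub3 hr)
    obtain ⟨t, ht, e3, e4⟩ := A.ex s (s + r) (by linarith [hr.1]) (by linarith [hr.2])
    have h := hcl r hr
    unfold GG at h
    rw [e1, e2, e3, e4] at h
    exact cos_close hρ ht h
  have ma : ε0 ∈ Icc ε0 (1 - ε0) := ⟨le_rfl, by linarith⟩
  have mb : 1 - ε0 ∈ Icc ε0 (1 - ε0) := ⟨by linarith, le_rfl⟩
  have h3 := cmp_two (V := Icc ε0 (1 - ε0)) isPreconnected_Icc (hφ.mono sub3) hk hcos ma mb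
    (cs _ (sub3 ma) (q1 _ (by linarith) le_rfl)) (cc _ ma c1)
    (cs _ (sub3 mb) (q2 _ le_rfl (by linarith))) (cc _ mb c2)
  obtain ⟨j, hj⟩ := cmp_ang (V := Icc ε0 (1 - ε0)) isPreconnected_Icc (hφ.mono sub3) hk hcos
  have h4 := cmp_fl (hj _ ma) (cs _ (sub3 ma) (q1 _ (by linarith) le_rfl)) (cc _ ma c1)
  refine ⟨?_, j, ?_⟩
  · rw [f1, f2, h3, hl, hr]
  · rw [f1, h4, hl]

theorem Zn.rev (L : Loop q) {s σ : ℝ} (h : Zn q s σ) : Zn (fun t => q (-t)) (-s) σ := by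
  intro x y hx hy hxy
  have := h (-y) (-x) (by rw [show -y - s = -(y - -s) by ring, abs_neg]; exact hy)
    (by rw [show -x - s = -(x - -s) by ring, abs_neg]; exact hx) (by linarith)
  rw [mgc_rev L, mgc_rev L, mgc_rev L, mgc_rev L]
  exact ⟨this.2, this.1⟩

theorem Zn.mono {s σ σ' : ℝ} (h : Zn q s σ) (h' : σ' ≤ σ) : Zn q s σ' :=
  fun x y hx hy hxy => h x y (hx.trans_le h') (hy.trans_le h') hxy

theorem LA.fl {η : ℝ} (A : LA q η θ) {s σ : ℝ} (hσ : 0 < σ) (hση : 2 * σ ≤ η) (hz : Zn q s σ) :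
    ∃ k : ℤ, ∀ x y : ℝ, |x - s| < σ → |y - s| < σ → x < y → ⌊θ x y / Real.pi⌋ = k := by
  obtain ⟨x0, y0, hx0, hy0, hxy0⟩ := pair_near (s := s) hσ
  refine ⟨⌊θ x0 y0 / Real.pi⌋, fun x y hx hy hxy => ?_⟩
  refine floor_pre (Tri_pre s σ) (f := fun p => θ p.1 p.2) (A.cont.mono (Tri_Strip hση))
    (fun p hp => ?_) (z := (x, y)) (w := (x0, y0)) ⟨hx, hy, hxy⟩ ⟨hx0, hy0, hxy0⟩
  have := (hz p.1 p.2 hp.1 hp.2.1 hp.2.2).1
  have hs := Tri_Strip hση hp
  obtain ⟨r, hr, -, e2⟩ := A.ex p.1 p.2 hs.1 hs.2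
  have h2 := right_ne_zero_of_mul this.ne'
  rw [e2] at h2
  exact right_ne_zero_of_mul h2

theorem GG_rev (L : Loop q) (x y : ℝ) :
    GG (fun t => q (-t)) (mgc (fun t => q (-t))) x y = GG q (mgc q) (-x) (-y) := by
  unfold GG
  rw [mgc_rev L, mgc_rev L]
  rfl

theorem GG_per1 (L : Loop q) (x y : ℝ) : GG q (mgc q) x (y + 1) = GG q (mgc q) x y := by
  unfold GG
  rw [DD_per1 L, CC_per1 L]

/-- short chords of a generic polygon carry no squares -/
theorem short (hG : Gen q) : ∃ η > 0, (∀ x y, x < y → y < x + η → GG q (mgc q) x y ≠ 0) ∧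
    (∀ x y, x < y → y < x + η →
      GG (fun t => q (-t)) (mgc (fun t => q (-t))) x y ≠ 0) := by
  have L := hG.L
  have S := mgc_sg L
  obtain ⟨η1, hη1, H⟩ := fin_pos (hG.fin 3) (f := fun z => min (z.2 - z.1) (z.1 + 1 - z.2))
    (fun z hz => lt_min (by have := hz.1.1.1; linarith) (by have := hz.1.1.2; linarith))
  have gap : ∀ x y, (x, y) ∈ Zq q → η1 < y - x ∧ η1 < x + 1 - y := by
    intro x y hz
    have h1 := Zq_per L hz (-⌊x⌋)
    push_cast at h1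
    have h2 : x + -(⌊x⌋ : ℝ) = Int.fract x := by rw [← Int.self_sub_floor]; ring
    have h3 : |x + -(⌊x⌋ : ℝ)| ≤ 3 := by
      rw [h2, abs_of_nonneg (Int.fract_nonneg x)]
      linarith [Int.fract_lt_one x]
    have := H _ ⟨h1, h3⟩
    simp only [lt_min_iff] at this
    constructor <;> linarith [this.1, this.2]
  refine ⟨min η1 1, by positivity, fun x y h1 h2 h => ?_, fun x y h1 h2 h => ?_⟩
  · have h3 := min_le_left η1 1
    have h4 := min_le_right η1 1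
    have hz := (Zq_iff L S (x := x) (y := y) ⟨h1, by simp only; linarith⟩).1 h
    linarith [(gap x y hz).1]
  · have h3 := min_le_left η1 1
    have h4 := min_le_right η1 1
    rw [GG_rev L, ← GG_per1 L] at h
    have hz := (Zq_iff L S (x := -x) (y := -y + 1) ⟨by simp only; linarith,
      by simp only; linarith⟩).1 h
    linarith [(gap _ _ hz).2]

theorem rev_DD (L : Loop q) (s η : ℝ) :
    DD (fun t => q (-t)) (-s) (-s + η) = DD q s (s + (1 - η)) := by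
  rw [DD_eq, DD_eq, show s + (1 - η) = (s - η) + 1 by ring, L.per,
    show -(-s + η) = s - η by ring, neg_neg]

theorem rev_CC (L : Loop q) (s η : ℝ) :
    CC (fun t => q (-t)) (-s) (-s + η) = CC q s (s + (1 - η)) := by
  rw [CC_eq, CC_eq, show s + (1 - η) = (s - η) + 1 by ring, L.per,
    show -(-s + η) = s - η by ring, neg_neg]

theorem par0 (L : Loop c) (J : Inj c) (nosq : NoSq (range c)) (A : Ang c (mgc c) θ g) {b : ℝ}
    (b0 : 0 < b) (b1 : b < 1) (C0 : Cone c 0) (Cb : Cone c b) {l0 lb r0 rb : ℤ}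
    (hl0 : KL θ 0 l0) (hlb : KL θ b lb) (hr0 : KR θ 0 r0) (hrb : KR θ b rb) :
    ∃ k : ℤ, (rb - r0) = (lb - l0) + 4 * k := by
  obtain ⟨z0, hz0⟩ := exists_pos L J nosq
  have hpar := KL.parity L J hz0 A C0 Cb hl0 hlb
  obtain ⟨σ0, hσ0, hzc, happ⟩ := exApp L J C0 Cb
  obtain ⟨ρ1, hρ1, H1⟩ := hl0
  obtain ⟨ρ2, hρ2, H2⟩ := hlb
  obtain ⟨ρ3, hρ3, H3⟩ := hr0
  obtain ⟨ρ4, hρ4, H4⟩ := hrb
  obtain ⟨σ, hσ, σa, σb⟩ : ∃ σ > 0, σ ≤ σ0 ∧ σ ≤ 1 / 4 := ⟨min σ0 (1 / 4), by positivity,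
    min_le_left _ _, min_le_right _ _⟩
  obtain ⟨ε0, hε0, e0, e1, e2, e3, e4⟩ : ∃ ε0 > 0, ε0 < σ ∧ ε0 < ρ1 ∧ ε0 < ρ2 ∧ ε0 < ρ3 ∧ ε0 < ρ4 := by
    have hm : 0 < min (min (min ρ1 ρ2) (min ρ3 ρ4)) σ := by positivity
    refine ⟨min (min (min ρ1 ρ2) (min ρ3 ρ4)) σ / 2, by positivity, ?_, ?_, ?_, ?_, ?_⟩
    · have := min_le_right (min (min ρ1 ρ2) (min ρ3 ρ4)) σ
      linarith
    · have := (min_le_left (min (min ρ1 ρ2) (min ρ3 ρ4)) σ).trans
        ((min_le_left _ _).trans (min_le_left _ _))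
      linarith
    · have := (min_le_left (min (min ρ1 ρ2) (min ρ3 ρ4)) σ).trans
        ((min_le_left _ _).trans (min_le_right _ _))
      linarith
    · have := (min_le_left (min (min ρ1 ρ2) (min ρ3 ρ4)) σ).trans
        ((min_le_right _ _).trans (min_le_left _ _))
      linarith
    · have := (min_le_left (min (min ρ1 ρ2) (min ρ3 ρ4)) σ).trans
        ((min_le_right _ _).trans (min_le_right _ _))
      linarith
  obtain ⟨ρm, hρm, m1, m2⟩ : ∃ ρm > 0, ρm ≤ ε0 ∧ ρm ≤ σ / 2 :=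
    ⟨min ε0 (σ / 2), by positivity, min_le_left _ _, min_le_right _ _⟩
  obtain ⟨δ, hδ, hK⟩ := Kr_bound L J (mgc_sg L) nosq hρm (by linarith)
  obtain ⟨q, hG, hP, hq, qz0, qzb⟩ := happ (δ / 24) (by positivity)
  have Lq := hG.L
  have Sq := mgc_sg Lq
  have qz0 := qz0.mono σa
  have qzb := qzb.mono σa
  obtain ⟨cz0, czb⟩ := hzc σ hσ σa
  have close : ∀ x y, Kr ρm x y → ‖GG q (mgc q) x y - GG c (mgc c) x y‖ < ‖GG c (mgc c) x y‖ := by
    intro x y h
    have := GG_close L Lq hq x y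
    have := hK x y h
    linarith
  have T : Two q b σ := ⟨hG, b0, b1, hσ, by linarith, fun x y h hz => by
    have h' : Kr ρm x y := ⟨by linarith [h.1], by linarith [h.2]⟩
    have h0 := (Zq_iff Lq Sq (x := x) (y := y) ⟨by simp only; linarith [h'.1],
      by simp only; linarith [h'.2]⟩).2 hz
    have := close x y h'
    rw [h0, zero_sub, norm_neg] at this
    exact lt_irrefl _ this, qz0, qzb⟩
  obtain ⟨η1, hη1, sh1, sh2⟩ := short hG
  obtain ⟨θ1, A1⟩ := exLA Lq hη1 sh1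
  obtain ⟨θr, Ar⟩ := exLA Lq.rev hη1 sh2
  obtain ⟨τ, hτ, t1, t2⟩ : ∃ τ > 0, τ ≤ σ ∧ 2 * τ ≤ η1 :=
    ⟨min σ (η1 / 2), by positivity, min_le_left _ _, by
      have := min_le_right σ (η1 / 2)
      linarith⟩
  obtain ⟨ka, hka⟩ := A1.fl hτ t2 (qz0.mono t1)
  obtain ⟨kb, hkb⟩ := A1.fl hτ t2 (qzb.mono t1)
  obtain ⟨la, hla⟩ := Ar.fl hτ t2 ((qz0.mono t1).rev Lq)
  obtain ⟨lb', hlb'⟩ := Ar.fl hτ t2 ((qzb.mono t1).rev Lq)
  have hch := chain Lq hP hη1 A1 Ar (a := 0) (b := b) ⟨τ, hτ, hka⟩ ⟨τ, hτ, hla⟩ ⟨τ, hτ, hkb⟩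
    ⟨τ, hτ, hlb'⟩
  obtain ⟨η0, hη0, hW⟩ := T.wind
  obtain ⟨η, hη, n1, n2, n3⟩ : ∃ η > 0, η < η0 ∧ η < τ ∧ η < ε0 := by
    have hm : 0 < min (min η0 τ) ε0 := by positivity
    refine ⟨min (min η0 τ) ε0 / 2, by positivity, ?_, ?_, ?_⟩
    · have := (min_le_left (min η0 τ) ε0).trans (min_le_left _ _)
      linarith
    · have := (min_le_left (min η0 τ) ε0).trans (min_le_right _ _)
      linarith
    · have := min_le_right (min η0 τ) ε0
      linarith
  obtain ⟨B, k, hk, hWk⟩ := hW η hη n1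
  -- the vertical sides
  have side : ∀ s : ℝ, Zn q s σ → Zn c s σ → (∀ r ∈ Icc η (1 - η), GG q (mgc q) s (s + r) ≠ 0) →
      ∀ κL κR k1 l1 : ℤ, (⌊θ s (s + ε0) / Real.pi⌋ = κL) → (⌊θ s (s + (1 - ε0)) / Real.pi⌋ = κR) →
      ⌊θ1 s (s + η) / Real.pi⌋ = k1 → ⌊θr (-s) (-s + η) / Real.pi⌋ = l1 → ∃ m1 m2 j : ℤ,
      (l1 + 2 * m2) - (k1 + 2 * m1) = κR - κL ∧ k1 + 2 * m1 = κL + 2 * j ∧
      (dl (fun r => GG q (mgc q) s (s + r)) η (1 - η)).im =
        (θr (-s) (-s + η) + m2 * (2 * Real.pi)) - (θ1 s (s + η) + m1 * (2 * Real.pi)) := by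
    intro s zq zc hne κL κR k1 l1 hκL hκR hk1 hl1
    have hGc : Continuous fun r => GG q (mgc q) s (s + r) :=
      (GG_cont Lq Sq.cont).comp (f := fun r : ℝ => ((s, s + r) : ℝ × ℝ)) (by fun_prop)
    obtain ⟨K, hKc, hKe⟩ := ex_log (f := fun r => GG q (mgc q) s (s + r)) (a := η) (b := 1 - η)
      (by linarith) hGc hne
    have hex : ∀ r ∈ Icc η (1 - η), ∃ ρ > 0, mgc q (DD q s (s + r)) = ρ * Real.cos (K r).im ∧
        mgc q (CC q s (s + r)) = ρ * Real.sin (K r).im := by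
      intro r hr
      have e := hKe r hr
      have e5 := congrArg Complex.re e
      have e6 := congrArg Complex.im e
      rw [exp_re] at e5
      rw [exp_im] at e6
      refine ⟨Real.exp (K r).re, Real.exp_pos _, ?_, ?_⟩
      · rw [e5]; simp [GG]
      · rw [e6]; simp [GG]
    have fwd : ∀ {p : ℝ → ℂ} (r : ℝ), Zn p s σ → 0 < r → r < σ →
        0 < mgc p (DD p s (s + r)) * mgc p (CC p s (s + r)) := by
      intro p r hz h1 h2
      exact (hz s (s + r) (by simpa using hσ) (by rw [add_sub_cancel_left, abs_of_pos h1]; exact h2)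
        (by linarith)).1
    have bwd : ∀ {p : ℝ → ℂ} (_ : Loop p) (r : ℝ), Zn p s σ → 1 - σ < r → r < 1 →
        0 < mgc p (DD p s (s + r)) * mgc p (CC p s (s + r)) := by
      intro p Lp r hz h1 h2
      have := (hz (s + r - 1) s (by
        rw [show s + r - 1 - s = -(1 - r) by ring, abs_neg, abs_of_pos (by linarith)]; linarith)
        (by simpa using hσ) (by linarith)).2
      rw [← DD_per1 Lp, ← CC_per1 Lp, sub_add_cancel] at this
      exact this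
    obtain ⟨v1, j, v2⟩ := vert (q := q) A (s := s) (ε0 := ε0) (η := η) hη n3.le (by linarith)
      hκL hκR
      (fun r hr => close s (s + r) ⟨by linarith [hr.1], by linarith [hr.2]⟩)
      (fwd ε0 zc hε0 e0) (bwd L (1 - ε0) zc (by linarith) (by linarith))
      (fun r h1 h2 => fwd r zq h1 (by linarith))
      (fun r h1 h2 => bwd Lq r zq (by linarith) h2)
      (φ := fun r => (K r).im) ((continuous_im.comp hKc).continuousOn) hex
    obtain ⟨ρa, hρa, a1, a2⟩ := hex η ⟨le_rfl, by linarith⟩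
    obtain ⟨ρb, hρb, a3, a4⟩ := hex (1 - η) ⟨by linarith, le_rfl⟩
    obtain ⟨ρc, hρc, a5, a6⟩ := A1.ex s (s + η) (by linarith) (by linarith)
    obtain ⟨ρd, hρd, a7, a8⟩ := Ar.ex (-s) (-s + η) (by linarith) (by linarith)
    obtain ⟨m1, hm1⟩ := same_ang hρa hρc (a1.symm.trans a5) (a2.symm.trans a6)
    rw [mgc_rev Lq, rev_DD Lq] at a7
    rw [mgc_rev Lq, rev_CC Lq] at a8
    obtain ⟨m2, hm2⟩ := same_ang hρb hρd (a3.symm.trans a7) (a4.symm.trans a8)
    refine ⟨m1, m2, j, ?_, ?_, ?_⟩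
    · rw [← v1, fl_add hm1, fl_add hm2, hk1, hl1]
    · rw [← v2, fl_add hm1, hk1]
    · rw [dl_im (φ := fun r => (K r).im) (by linarith) hGc hne (continuous_im.comp hKc).continuousOn
        (fun r hr => by
          obtain ⟨ρ, hρ, x1, x2⟩ := hex r hr
          exact ⟨ρ, hρ, by unfold GG; rw [x1, x2]⟩), hm1, hm2]
  obtain ⟨p1, p2, j, E1, E2, E3⟩ := side 0 qz0 cz0 B.h3 l0 r0 ka la
    (H1 0 (0 + ε0) (by simpa using hρ1) (by simpa [abs_of_pos hε0] using e1) (by linarith))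
    (by
      have := H3 (0 - ε0) 0 (by simpa [abs_of_pos hε0] using e3) (by simpa using hρ3) (by linarith)
      rwa [show 0 - ε0 + 1 = 0 + (1 - ε0) by ring] at this)
    (hka 0 (0 + η) (by simpa using hτ) (by simpa [abs_of_pos hη] using n2) (by linarith))
    (hla (-0) (-0 + η) (by simpa using hτ) (by simpa [abs_of_pos hη] using n2) (by linarith))
  obtain ⟨p1', p2', j', E1', E2', E3'⟩ := side b qzb czb B.h4 lb rb kb lb'
    (H2 b (b + ε0) (by simpa using hρ2) (by simpa [abs_of_pos hε0] using e2) (by linarith))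
    (by
      have := H4 (b - ε0) b (by
        rw [show b - ε0 - b = -ε0 by ring, abs_neg, abs_of_pos hε0]; exact e4)
        (by simpa using hρ4) (by linarith)
      rwa [show b - ε0 + 1 = b + (1 - ε0) by ring] at this)
    (hkb b (b + η) (by simpa using hτ) (by simpa [abs_of_pos hη] using n2) (by linarith))
    (hlb' (-b) (-b + η) (by simpa using hτ) (by
      rw [show -b + η - -b = η by ring, abs_of_pos hη]; exact n2) (by linarith))
  have hGc : Continuous fun p : ℝ × ℝ => GG q (mgc q) p.1 p.2 := GG_cont Lq Sq.cont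
  have D1 : (dl (fun x => GG q (mgc q) x (x + η)) 0 b).im = θ1 b (b + η) - θ1 0 (0 + η) := by
    refine dl_im (φ := fun x => θ1 x (x + η)) b0.le
      (hGc.comp (f := fun x : ℝ => ((x, x + η) : ℝ × ℝ)) (by fun_prop)) B.h1 ?_ (fun x hx => ?_)
    · refine A1.cont.comp (f := fun x : ℝ => ((x, x + η) : ℝ × ℝ)) (by fun_prop) ?_
      intro x hx
      exact ⟨by simp only; linarith, by simp only; linarith⟩
    · obtain ⟨ρ, hρ, x1, x2⟩ := A1.ex x (x + η) (by linarith) (by linarith)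
      refine ⟨ρ, hρ, ?_⟩
      change GG q (mgc q) x (x + η) = _
      unfold GG; rw [x1, x2]
  have D2 : (dl (fun x => GG q (mgc q) x (x + (1 - η))) 0 b).im =
      θr (-b) (-b + η) - θr (-0) (-0 + η) := by
    refine dl_im (φ := fun x => θr (-x) (-x + η)) b0.le
      (hGc.comp (f := fun x : ℝ => ((x, x + (1 - η)) : ℝ × ℝ)) (by fun_prop)) B.h2 ?_
      (fun x hx => ?_)
    · refine Ar.cont.comp (f := fun x : ℝ => ((-x, -x + η) : ℝ × ℝ)) (by fun_prop) ?_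
      intro x hx
      exact ⟨by simp only; linarith, by simp only; linarith⟩
    · obtain ⟨ρ, hρ, x1, x2⟩ := Ar.ex (-x) (-x + η) (by linarith) (by linarith)
      rw [mgc_rev Lq, rev_DD Lq] at x1
      rw [mgc_rev Lq, rev_CC Lq] at x2
      refine ⟨ρ, hρ, ?_⟩
      change GG q (mgc q) x (x + (1 - η)) = _
      unfold GG; rw [x1, x2]
  have hWi := congrArg Complex.im hWk
  unfold Wd at hWi
  rw [sub_im, sub_im, add_im, D1, D2, E3, E3', show (k : ℂ) * (2 * Real.pi * I) =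
    (((k : ℝ) * (2 * Real.pi) : ℝ) : ℂ) * I by push_cast; ring, mul_I_im, ofReal_re] at hWi
  have hπ := Real.pi_pos
  have hint : (((p2' - p1') - (p2 - p1) : ℤ) : ℝ) * (2 * Real.pi) = (k : ℝ) * (2 * Real.pi) := by
    push_cast
    linarith
  have hint2 := mul_right_cancel₀ (by positivity : (2 * Real.pi) ≠ 0) hint
  have hint3 : (p2' - p1') - (p2 - p1) = k := by exact_mod_cast hint2
  obtain ⟨u, hu⟩ := hk
  obtain ⟨v, hv⟩ := hpar
  exact ⟨u - (v + (j' - j) - (p1' - p1)), by linarith⟩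

theorem mgc_shift (L : Loop c) (s : ℝ) (z : ℂ) : mgc (fun t => c (t + s)) z = mgc c z := by
  have key : Odc (fun t => c (t + s)) z ↔ Odc c z := by
    constructor
    · rintro ⟨n, hn, ho⟩
      have := wc_shift (L.shift s) hn (-s)
      simp only [neg_add_cancel_right] at this
      exact ⟨n, this, ho⟩
    · rintro ⟨n, hn, ho⟩
      exact ⟨n, wc_shift L hn s, ho⟩
  unfold mgc
  rw [range_shift]
  by_cases h : Odc c z
  · rw [if_pos h, if_pos (key.2 h)]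
  · rw [if_neg h, if_neg (fun h' => h (key.1 h'))]

theorem Cone.shift {s a : ℝ} (h : Cone c (s + a)) : Cone (fun t => c (t + a)) s := by
  obtain ⟨ρ, hρ, w, hw⟩ := h
  refine ⟨ρ, hρ, w, fun x y hx hy hxy => hw _ _ ?_ ?_ (by linarith)⟩
  · rwa [show x + a - (s + a) = x - s by ring]
  · rwa [show y + a - (s + a) = y - s by ring]

theorem KL.shift {s a : ℝ} {k : ℤ} (h : KL θ (s + a) k) : KL (fun x y => θ (x + a) (y + a)) s k := by
  obtain ⟨ρ, hρ, hw⟩ := h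
  refine ⟨ρ, hρ, fun x y hx hy hxy => hw _ _ ?_ ?_ (by linarith)⟩
  · rwa [show x + a - (s + a) = x - s by ring]
  · rwa [show y + a - (s + a) = y - s by ring]

theorem KR.shift {s a : ℝ} {k : ℤ} (h : KR θ (s + a) k) : KR (fun x y => θ (x + a) (y + a)) s k := by
  obtain ⟨ρ, hρ, hw⟩ := h
  refine ⟨ρ, hρ, fun x y hx hy hxy => ?_⟩
  have := hw (x + a) (y + a) (by rwa [show x + a - (s + a) = x - s by ring])
    (by rwa [show y + a - (s + a) = y - s by ring]) (by linarith)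
  rwa [show x + a + 1 = x + 1 + a by ring] at this

/-- the numbers of half turns on the two sides agree modulo four -/
theorem parity (L : Loop c) (J : Inj c) (nosq : NoSq (range c)) (A : Ang c (mgc c) θ g) {a b : ℝ}
    (hab : a < b) (hba : b < a + 1) (Ca : Cone c a) (Cb : Cone c b) {la lb ra rb : ℤ}
    (hla : KL θ a la) (hlb : KL θ b lb) (hra : KR θ a ra) (hrb : KR θ b rb) :
    ∃ k : ℤ, (rb - ra) = (lb - la) + 4 * k := by
  have hm : mgc (fun t => c (t + a)) = mgc c := funext (mgc_shift L a)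
  have A' := A.shift a
  rw [← hm] at A'
  have e0 : a = 0 + a := by ring
  have eb : b = (b - a) + a := by ring
  rw [e0] at hla hra Ca
  rw [eb] at hlb hrb Cb
  exact par0 (L.shift a) (J.shift a) (by rw [range_shift]; exact nosq) A' (b := b - a)
    (by linarith) (by linarith) Ca.shift Cb.shift hla.shift hlb.shift hra.shift hrb.shift

end Pool.Agent.Y535.PEG
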