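import Pool.Agent.H763R2.An.Pr
import Pool.Agent.Y535.PEG.Chain

/-! Closed polygons with prescribed vertices perturbed to generic ones. -/

set_option autoImplicit false
open Complex Set Topology Metric

namespace Pool.Agent.Y535.PEG

open Pool.Agent.H763R2 Pool.Agent.H763R2.An Pool.Agent.W675.Peg Pool.Agent.TH569.Peg
open Pool.Agent.H763R2.Dm (NoSq floor_const)

variable {c : ℝ → ℂ} {m : ℕ}

/-- small perturbations of lines -/
theorem pertG [NeZero m] {d0 : ZMod m → ℂ} (k0 : ZMod m → ℝ)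
    (hcr0 : ∀ n : ℤ, An.cr (d0 ((n - 1 : ℤ) : ZMod m)) (d0 (n : ZMod m)) ≠ 0) {ε : ℝ}
    (hε : 0 < ε) : ∃ δ > 0,
    ∀ f k : ZMod m → ℝ, (∀ i, f i ∈ Ioo 0 δ) → (∀ i, k i ∈ Ioo (k0 i) (k0 i + δ)) → ∀ n : ℤ,
    ‖Vx (dp d0 f) k n - Vx d0 k0 n‖ < ε := by
  have key : ∀ᶠ p : (ZMod m → ℝ) × (ZMod m → ℝ) in 𝓝 ((0 : ZMod m → ℝ), k0), ∀ a : ZMod m,
      ‖Xl (dp d0 p.1 (a - 1)) (dp d0 p.1 a) (p.2 (a - 1)) (p.2 a) -
        Xl (d0 (a - 1)) (d0 a) (k0 (a - 1)) (k0 a)‖ < ε := by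
    rw [Filter.eventually_all]
    intro a
    obtain ⟨n, rfl⟩ := ZMod.intCast_surjective a
    have hcr := hcr0 n
    push_cast at hcr
    have dp0 : ∀ a, dp d0 0 a = d0 a := by intro a; unfold dp; simp
    have hc : ContinuousAt (fun p : (ZMod m → ℝ) × (ZMod m → ℝ) =>
        Xl (dp d0 p.1 ((n : ZMod m) - 1)) (dp d0 p.1 n) (p.2 ((n : ZMod m) - 1))
          (p.2 n)) ((0 : ZMod m → ℝ), k0) := by
      unfold Xl
      refine ContinuousAt.div ?_ ?_ ?_
      · unfold dp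
        apply Continuous.continuousAt
        fun_prop
      · unfold An.cr dp
        apply Continuous.continuousAt
        fun_prop
      · simp only [dp0]
        exact_mod_cast hcr
    have h2 := Metric.continuousAt_iff'.1 hc ε hε
    filter_upwards [h2] with p hp
    rw [dist_eq_norm] at hp
    simpa only [dp0] using hp
  obtain ⟨δ, hδ, hk⟩ := Metric.eventually_nhds_iff.1 key
  refine ⟨δ, hδ, fun f k hf hkk n => ?_⟩
  have := hk (y := (f, k)) (by
    rw [Prod.dist_eq]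
    refine max_lt ((dist_pi_lt_iff hδ).2 fun i => ?_) ((dist_pi_lt_iff hδ).2 fun i => ?_)
    · change dist (f i) 0 < δ
      rw [Real.dist_eq, sub_zero, abs_of_pos (hf i).1]; exact (hf i).2
    · change dist (k i) (k0 i) < δ
      rw [Real.dist_eq, abs_of_pos (by linarith [(hkk i).1])]; linarith [(hkk i).2]) (n : ZMod m)
  unfold Vx
  push_cast
  exact this

theorem quad_ev {A B C : ℝ} (hC : C ≠ 0) : ∀ᶠ s in 𝓝[>] (0:ℝ), A + s * B + s ^ 2 * C ≠ 0 := by
  by_cases hA : A = 0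
  · subst hA
    by_cases hB : B = 0
    · subst hB
      filter_upwards [self_mem_nhdsWithin] with s hs
      have hs' : (0:ℝ) < s := hs
      have : s ^ 2 * C ≠ 0 := mul_ne_zero (by positivity) hC
      simpa using this
    · have h1 : ∀ᶠ s in 𝓝 (0:ℝ), B + s * C ≠ 0 := by
        have hc : ContinuousAt (fun s : ℝ => B + s * C) 0 := by fun_prop
        exact hc.eventually_ne (by simpa using hB)
      filter_upwards [self_mem_nhdsWithin, h1.filter_mono nhdsWithin_le_nhds] with s hs h2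
      have hs' : (0:ℝ) < s := hs
      have : s * (B + s * C) ≠ 0 := mul_ne_zero hs'.ne' h2
      rw [show 0 + s * B + s ^ 2 * C = s * (B + s * C) by ring]
      exact this
  · have h1 : ∀ᶠ s in 𝓝 (0:ℝ), A + s * B + s ^ 2 * C ≠ 0 := by
      have hc : ContinuousAt (fun s : ℝ => A + s * B + s ^ 2 * C) 0 := by fun_prop
      exact hc.eventually_ne (by simpa using hA)
    exact h1.filter_mono nhdsWithin_le_nhds

theorem cr_quad (A B u v : ℂ) (s : ℝ) : An.cr (A + s * u) (B + s * v) =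
    An.cr A B + s * (An.cr A v + An.cr u B) + s ^ 2 * An.cr u v := by
  unfold An.cr
  simp only [add_re, add_im, re_ofReal_mul, im_ofReal_mul]
  ring

/-- the vertices of the base polygon -/
noncomputable def Pv (c : ℝ → ℂ) (m : ℕ) (s : ℝ) (n : ℤ) : ℂ := c ((n : ℝ) / m) + s * I ^ n

theorem Pv_near (c : ℝ → ℂ) (m : ℕ) {s : ℝ} (hs : 0 ≤ s) (n : ℤ) :
    ‖Pv c m s n - c ((n : ℝ) / m)‖ = s := by
  unfold Pv
  rw [add_sub_cancel_left, norm_mul, norm_zpow, norm_I, one_zpow, mul_one, norm_real,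
    Real.norm_of_nonneg hs]

theorem Pv_per (L : Loop c) {m : ℕ} (hm : 4 ∣ m) (hm0 : 0 < m) (s : ℝ) (n j : ℤ) :
    Pv c m s (n + m * j) = Pv c m s n := by
  unfold Pv
  have hm1 : (m : ℝ) ≠ 0 := by exact_mod_cast hm0.ne'
  have e1 : ((n + m * j : ℤ) : ℝ) / m = (n : ℝ) / m + (j : ℤ) := by
    push_cast
    field_simp
  obtain ⟨N, rfl⟩ := hm
  rw [e1, L.per_int, zpow_add₀ I_ne_zero]
  have e2 : I ^ (((4 * N : ℕ) : ℤ) * j) = 1 := by
    rw [show (((4 * N : ℕ) : ℤ) * j) = (4 : ℤ) * (N * j) by push_cast; ring, zpow_mul]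
    have : I ^ (4 : ℤ) = 1 := by
      have := I_pow_four
      exact_mod_cast this
    rw [this, one_zpow]
  rw [e2, mul_one]

/-- direction of the edges -/
noncomputable def dB (c : ℝ → ℂ) (m : ℕ) (s : ℝ) (a : ZMod m) : ℂ :=
  Pv c m s ((a.val : ℤ) + 1) - Pv c m s (a.val : ℤ)

/-- offsets of the edges -/
noncomputable def kB (c : ℝ → ℂ) (m : ℕ) (s : ℝ) (a : ZMod m) : ℝ :=
  An.cr (dB c m s a) (Pv c m s (a.val : ℤ))

theorem val_ex [NeZero m] (n : ℤ) : ∃ j : ℤ, n = ((n : ZMod m).val : ℤ) + m * j := by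
  have h1 : (((n : ZMod m).val : ℕ) : ℤ) = n % m := ZMod.val_intCast n
  refine ⟨n / m, ?_⟩
  rw [h1]; have := Int.emod_add_mul_ediv n m; linarith

theorem dB_cast [NeZero m] (L : Loop c) (hm : 4 ∣ m) (s : ℝ) (n : ℤ) :
    dB c m s (n : ZMod m) = Pv c m s (n + 1) - Pv c m s n := by
  have hm0 := Nat.pos_of_ne_zero (NeZero.ne m)
  obtain ⟨j, hj⟩ := val_ex (m := m) n
  unfold dB
  have e1 := Pv_per L hm hm0 s ((n : ZMod m).val : ℤ) j
  have e2 := Pv_per L hm hm0 s (((n : ZMod m).val : ℤ) + 1) j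
  rw [← hj] at e1
  rw [show ((n : ZMod m).val : ℤ) + 1 + m * j = ((n : ZMod m).val : ℤ) + m * j + 1 by ring,
    ← hj] at e2
  rw [← e1, ← e2]

theorem kB_cast [NeZero m] (L : Loop c) (hm : 4 ∣ m) (s : ℝ) (n : ℤ) :
    kB c m s (n : ZMod m) = An.cr (dB c m s (n : ZMod m)) (Pv c m s n) := by
  have hm0 := Nat.pos_of_ne_zero (NeZero.ne m)
  obtain ⟨j, hj⟩ := val_ex (m := m) n
  unfold kB
  have e1 := Pv_per L hm hm0 s ((n : ZMod m).val : ℤ) j
  rw [← hj] at e1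
  rw [← e1]

theorem Xl_uniq {u v X : ℂ} (h : An.cr u v ≠ 0) : Xl u v (An.cr u X) (An.cr v X) = X := by
  unfold Xl
  rw [div_eq_iff (by exact_mod_cast h)]
  unfold An.cr
  apply Complex.ext <;> simp <;> ring

theorem Vx_base [NeZero m] (L : Loop c) (hm : 4 ∣ m) {s : ℝ}
    (hcr : ∀ n : ℤ, An.cr (dB c m s ((n - 1 : ℤ) : ZMod m)) (dB c m s (n : ZMod m)) ≠ 0) (n : ℤ) :
    Vx (dB c m s) (kB c m s) n = Pv c m s n := by
  unfold Vx
  have e1 : kB c m s ((n - 1 : ℤ) : ZMod m) = An.cr (dB c m s ((n - 1 : ℤ) : ZMod m)) (Pv c m s n) := by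
    rw [kB_cast L hm, ← sub_eq_zero, ← An.cr_sub]
    have : Pv c m s (n - 1) - Pv c m s n = ((-1 : ℝ) : ℂ) * dB c m s ((n - 1 : ℤ) : ZMod m) := by
      rw [dB_cast L hm, sub_add_cancel]; push_cast; ring
    rw [this, An.cr_smul, An.cr_self, mul_zero]
  rw [e1, kB_cast L hm]
  exact Xl_uniq (hcr n)

/-- a small offset for which consecutive edges are not parallel -/
theorem ex_off [NeZero m] (L : Loop c) (hm : 4 ∣ m) {μ : ℝ} (hμ : 0 < μ) : ∃ s : ℝ, 0 < s ∧ s < μ ∧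
    (∀ n : ℤ, An.cr (dB c m s ((n - 1 : ℤ) : ZMod m)) (dB c m s (n : ZMod m)) ≠ 0) ∧
    ∀ a : ZMod m, dB c m s a ≠ 0 := by
  have h1 : ∀ᶠ s in 𝓝[>] (0:ℝ), ∀ a : ZMod m, An.cr (dB c m s (a - 1)) (dB c m s a) ≠ 0 := by
    rw [Filter.eventually_all]
    intro a
    obtain ⟨n, rfl⟩ := ZMod.intCast_surjective a
    obtain ⟨u, hu⟩ : ∃ u, u = I ^ (n - 1) * (I - 1) := ⟨_, rfl⟩
    have hu0 : u ≠ 0 := by
      rw [hu]
      refine mul_ne_zero (zpow_ne_zero _ I_ne_zero) (fun h => ?_)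
      have := congrArg Complex.im h
      simp at this
    have e1 : I ^ n = I ^ (n - 1) * I := by
      rw [← zpow_add_one₀ I_ne_zero, sub_add_cancel]
    have e2 : I ^ (n + 1) = I ^ (n - 1) * I * I := by
      rw [zpow_add_one₀ I_ne_zero, e1]
    filter_upwards [quad_ev (A := An.cr (c ((n : ℝ) / m) - c (((n - 1 : ℤ) : ℝ) / m))
      (c (((n + 1 : ℤ) : ℝ) / m) - c ((n : ℝ) / m))) (B := An.cr (c ((n : ℝ) / m) -
        c (((n - 1 : ℤ) : ℝ) / m)) (I * u) + An.cr u (c (((n + 1 : ℤ) : ℝ) / m) - c ((n : ℝ) / m)))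
      (cr_I_pos hu0)] with s hs
    rw [← cr_quad] at hs
    have c1 : dB c m s ((n : ZMod m) - 1) = c ((n : ℝ) / m) - c (((n - 1 : ℤ) : ℝ) / m) + s * u := by
      have := dB_cast L hm s (n - 1)
      push_cast at this
      rw [this, sub_add_cancel]
      unfold Pv
      rw [hu, e1]; push_cast; ring
    have c2 : dB c m s (n : ZMod m) = c (((n + 1 : ℤ) : ℝ) / m) - c ((n : ℝ) / m) + s * (I * u) := by
      rw [dB_cast L hm]
      unfold Pv
      rw [hu, e2, e1]; ring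
    rw [c1, c2]
    exact hs
  have h2 : ∀ᶠ s in 𝓝[>] (0:ℝ), s < μ := by
    have := Ioo_mem_nhdsGT hμ
    filter_upwards [this] with s hs
    exact hs.2
  obtain ⟨s, hs1, hs2, hs3⟩ := (h1.and (h2.and self_mem_nhdsWithin)).exists
  refine ⟨s, hs3, hs2, fun n => ?_, fun a h => ?_⟩
  · have := hs1 (n : ZMod m)
    push_cast
    exact this
  · have := hs1 a
    rw [h] at this
    exact this (by unfold An.cr; simp)

end Pool.Agent.Y535.PEG
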