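import Pool.Agent.Y535.PEG.Per

/-! Generic polygons near a curve that keep the local monotonicity near given points. -/

set_option autoImplicit false
open Complex Set Topology Metric

namespace Pool.Agent.Y535.PEG

open Pool.Agent.H763R2 Pool.Agent.H763R2.An Pool.Agent.W675.Peg Pool.Agent.TH569.Peg
open Pool.Agent.H763R2.Dm (NoSq floor_const)

variable {c : ℝ → ℂ} {m : ℕ}

/-- all chords of an arc lie in an open quarter plane -/
def CI (q : ℝ → ℂ) (s : ℝ) (w : ℂ) (ρ : ℝ) : Prop := ∀ x y : ℝ, |x - s| < ρ → |y - s| < ρ →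
  x < y → |(w * (q y - q x)).im| < (w * (q y - q x)).re

theorem fin_gap (F : Finset ℤ) (g : ℤ → ℝ) : ∃ μ > 0, ∀ n ∈ F, 0 < g n → μ < g n := by
  classical
  induction F using Finset.induction_on with
  | empty => exact ⟨1, one_pos, fun n hn => absurd hn (Finset.notMem_empty n)⟩
  | insert a F ha ih =>
    obtain ⟨μ, hμ, h⟩ := ih
    by_cases hg : 0 < g a
    · refine ⟨min μ (g a / 2), by positivity, fun n hn hgn => ?_⟩
      rcases Finset.mem_insert.1 hn with rfl | hn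
      · exact (min_le_right _ _).trans_lt (by linarith)
      · exact (min_le_left _ _).trans_lt (h n hn hgn)
    · refine ⟨μ, hμ, fun n hn hgn => ?_⟩
      rcases Finset.mem_insert.1 hn with rfl | hn
      · exact absurd hgn hg
      · exact h n hn hgn

theorem marg {s ρ : ℝ} {w : ℂ} (h : CI c s w ρ) (hm : 0 < m) : ∃ μ > 0, ∀ V : ℤ → ℂ,
    (∀ n, ‖V n - c ((n : ℝ) / m)‖ < μ) → ∀ n : ℤ, |(n : ℝ) / m - s| < ρ →
      |((n + 1 : ℤ) : ℝ) / m - s| < ρ → |(w * (V (n + 1) - V n)).im| < (w * (V (n + 1) - V n)).re := by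
  have hm0 : (0 : ℝ) < m := by exact_mod_cast hm
  obtain ⟨ν, hν, H⟩ := fin_gap (Finset.Icc ⌊m * (s - ρ)⌋ ⌈m * (s + ρ)⌉)
    (fun n => (w * (c (((n + 1 : ℤ) : ℝ) / m) - c ((n : ℝ) / m))).re -
      |(w * (c (((n + 1 : ℤ) : ℝ) / m) - c ((n : ℝ) / m))).im|)
  refine ⟨ν / (4 * (‖w‖ + 1)), by positivity, fun V hV n h1 h2 => ?_⟩
  have h3 := h _ _ h1 h2 (by push_cast; gcongr; linarith)
  have hmem : n ∈ Finset.Icc ⌊m * (s - ρ)⌋ ⌈m * (s + ρ)⌉ := by
    rw [abs_lt] at h1
    rw [Finset.mem_Icc]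
    constructor
    · have : (m : ℝ) * (s - ρ) < n := by
        have h4 : s - ρ < (n : ℝ) / m := by linarith [h1.1]
        rw [lt_div_iff₀ hm0] at h4; linarith
      have h5 := Int.floor_mono this.le
      rwa [Int.floor_intCast] at h5
    · have : (n : ℝ) < (m : ℝ) * (s + ρ) := by
        have h4 : (n : ℝ) / m < s + ρ := by linarith [h1.2]
        rw [div_lt_iff₀ hm0] at h4; linarith
      have h5 := Int.ceil_mono this.le
      rwa [Int.ceil_intCast] at h5
  have h6 := H n hmem (by linarith)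
  obtain ⟨z, hz⟩ : ∃ z, z = c (((n + 1 : ℤ) : ℝ) / m) - c ((n : ℝ) / m) := ⟨_, rfl⟩
  rw [← hz] at h3 h6
  have h7 : ‖w * (V (n + 1) - V n) - w * z‖ < ν / 2 := by
    rw [← mul_sub, norm_mul]
    have e : V (n + 1) - V n - z = (V (n + 1) - c (((n + 1 : ℤ) : ℝ) / m)) -
      (V n - c ((n : ℝ) / m)) := by rw [hz]; ring
    have h8 : ‖V (n + 1) - V n - z‖ < 2 * (ν / (4 * (‖w‖ + 1))) := by
      rw [e]
      refine (norm_sub_le _ _).trans_lt ?_
      have := hV (n + 1)
      have := hV n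
      linarith
    have h9 : ‖w‖ * ‖V (n + 1) - V n - z‖ ≤ (‖w‖ + 1) * ‖V (n + 1) - V n - z‖ :=
      mul_le_mul_of_nonneg_right (by linarith) (norm_nonneg _)
    have h10 : (‖w‖ + 1) * ‖V (n + 1) - V n - z‖ < (‖w‖ + 1) * (2 * (ν / (4 * (‖w‖ + 1)))) :=
      mul_lt_mul_of_pos_left h8 (by positivity)
    have h11 : (‖w‖ + 1) * (2 * (ν / (4 * (‖w‖ + 1)))) = ν / 2 := by
      field_simp; ring
    linarith
  have a1 := (abs_re_le_norm (w * (V (n + 1) - V n) - w * z)).trans_lt h7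
  have a2 := (abs_im_le_norm (w * (V (n + 1) - V n) - w * z)).trans_lt h7
  rw [sub_re] at a1
  rw [sub_im] at a2
  rw [abs_lt] at a1 a2 ⊢
  have b1 := le_abs_self (w * z).im
  have b2 := neg_abs_le (w * z).im
  constructor <;> linarith

theorem pl_mono {A U : ℤ → ℝ} (h : ∀ n, A (n + 1) = A n + U n) {N1 N2 : ℤ}
    (hU : ∀ n, N1 ≤ n → n ≤ N2 → 0 < U n) {x y : ℝ} (hx : N1 ≤ ⌊x⌋) (hy : ⌊y⌋ ≤ N2)
    (hxy : x < y) : A ⌊x⌋ + Int.fract x * U ⌊x⌋ < A ⌊y⌋ + Int.fract y * U ⌊y⌋ := by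
  have hfl := Int.floor_mono hxy.le
  have fx := Int.fract_lt_one x
  have fy := Int.fract_nonneg y
  have ex := Int.floor_add_fract x
  have ey := Int.floor_add_fract y
  rcases lt_or_eq_of_le hfl with hlt | heq
  · have mono : ∀ k : ℤ, ⌊x⌋ + 1 ≤ k → k ≤ ⌊y⌋ → A (⌊x⌋ + 1) ≤ A k := by
      intro k hk
      induction k, hk using Int.leInduction with
      | base => intro _; exact le_rfl
      | succ k hk ih =>
        intro hk2
        have h1 := ih (by linarith)
        have h2 := hU k (by linarith) (by linarith)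
        rw [h k]; linarith
    have h1 := mono ⌊y⌋ (by linarith) le_rfl
    have h2 := hU ⌊x⌋ hx (by linarith)
    have h3 := hU ⌊y⌋ (by linarith) hy
    rw [h ⌊x⌋] at h1
    have h4 : Int.fract x * U ⌊x⌋ < 1 * U ⌊x⌋ := mul_lt_mul_of_pos_right fx h2
    have h5 : 0 ≤ Int.fract y * U ⌊y⌋ := mul_nonneg fy h3.le
    linarith
  · rw [← heq] at ey ⊢
    have h2 := hU ⌊x⌋ hx (by linarith)
    have : Int.fract x < Int.fract y := by linarith
    have := mul_lt_mul_of_pos_right this h2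
    linarith

theorem CI_poly {d : ZMod m → ℂ} {k : ZMod m → ℝ} (hm : 0 < m) {s ρ : ℝ} {w : ℂ}
    (hρ : 2 / m ≤ ρ) (h : ∀ n : ℤ, |(n : ℝ) / m - s| < ρ → |((n + 1 : ℤ) : ℝ) / m - s| < ρ →
      |(w * Ux d k n).im| < (w * Ux d k n).re) : CI (qq d k) s w (ρ / 2) := by
  intro x y hx hy hxy
  have hm0 : (0 : ℝ) < m := by exact_mod_cast hm
  rw [abs_lt] at hx hy
  have h2m : (2 : ℝ) / m = 1 / m + 1 / m := by ring
  have hin : ∀ n : ℤ, ⌊(m : ℝ) * x⌋ ≤ n → n ≤ ⌊(m : ℝ) * y⌋ → |(w * Ux d k n).im| < (w * Ux d k n).re := by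
    intro n h1 h2
    have h3 : (m : ℝ) * x < n + 1 := by
      have := Int.lt_floor_add_one ((m : ℝ) * x)
      have h4 : ((⌊(m : ℝ) * x⌋ : ℤ) : ℝ) ≤ n := by exact_mod_cast h1
      linarith
    have h5 : (n : ℝ) ≤ (m : ℝ) * y := by
      have := Int.floor_le ((m : ℝ) * y)
      have h4 : (n : ℝ) ≤ ((⌊(m : ℝ) * y⌋ : ℤ) : ℝ) := by exact_mod_cast h2
      linarith
    have h6 : x < (n : ℝ) / m + 1 / m := by
      rw [← add_div, lt_div_iff₀ hm0]; linarith
    have h7 : (n : ℝ) / m ≤ y := by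
      rw [div_le_iff₀ hm0]; linarith
    have h8 : ((n + 1 : ℤ) : ℝ) / m = (n : ℝ) / m + 1 / m := by push_cast; rw [add_div]
    have h9 : (0 : ℝ) < 1 / m := by positivity
    refine h n ?_ ?_
    · rw [abs_lt]; constructor <;> linarith
    · rw [h8, abs_lt]; constructor <;> linarith
  have hlin : ∀ τ : ℝ, (∀ n : ℤ, ⌊(m : ℝ) * x⌋ ≤ n → n ≤ ⌊(m : ℝ) * y⌋ →
      0 < (w * Ux d k n).re + τ * (w * Ux d k n).im) →
      0 < (w * (qq d k y - qq d k x)).re + τ * (w * (qq d k y - qq d k x)).im := by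
    intro τ hτ
    have := pl_mono (A := fun n => (w * Vx d k n).re + τ * (w * Vx d k n).im)
      (U := fun n => (w * Ux d k n).re + τ * (w * Ux d k n).im) (fun n => by
        unfold Ux
        rw [mul_sub, sub_re, sub_im]; ring) (N1 := ⌊(m : ℝ) * x⌋) (N2 := ⌊(m : ℝ) * y⌋) hτ
      (x := m * x) (y := m * y) le_rfl le_rfl (mul_lt_mul_of_pos_left hxy hm0)
    have val : ∀ t : ℝ, (w * qq d k t).re + τ * (w * qq d k t).im =
        (w * Vx d k ⌊(m : ℝ) * t⌋).re + τ * (w * Vx d k ⌊(m : ℝ) * t⌋).im +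
        Int.fract ((m : ℝ) * t) * ((w * Ux d k ⌊(m : ℝ) * t⌋).re +
          τ * (w * Ux d k ⌊(m : ℝ) * t⌋).im) := by
      intro t
      unfold qq pp
      rw [mul_add, show w * ((Int.fract ((m : ℝ) * t) : ℝ) * Ux d k ⌊(m : ℝ) * t⌋) =
        ((Int.fract ((m : ℝ) * t) : ℝ) : ℂ) * (w * Ux d k ⌊(m : ℝ) * t⌋) by ring,
        add_re, add_im, re_ofReal_mul, im_ofReal_mul]
      ring
    rw [← val, ← val] at this
    rw [mul_sub, sub_re, sub_im]
    linarith
  have p1 := hlin 1 (fun n h1 h2 => by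
    have := (abs_lt.1 (hin n h1 h2)).1
    linarith)
  have p2 := hlin (-1) (fun n h1 h2 => by
    have := (abs_lt.1 (hin n h1 h2)).2
    linarith)
  rw [abs_lt]
  constructor <;> linarith

theorem Gen_PLc {d : ZMod m → ℂ} {k : ZMod m → ℝ} (G : Gl d k) : PLc (qq d k) := by
  intro s0
  have L : Loop (qq d k) := qq_loop
  by_cases hd : ∃ s1, qq d k s1 = qq d k s0 ∧ ∀ n : ℤ, s1 ≠ s0 + n
  · right
    obtain ⟨s1, h1, h2⟩ := hd
    -- shift into the period after `s0`
    obtain ⟨y, hy1, hy2, hye⟩ : ∃ y, s0 < y ∧ y < s0 + 1 ∧ qq d k s0 = qq d k y := by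
      refine ⟨s0 + Int.fract (s1 - s0), ?_, ?_, ?_⟩
      · have : Int.fract (s1 - s0) ≠ 0 := by
          intro h0
          have h3 := Int.floor_add_fract (s1 - s0)
          rw [h0] at h3
          exact h2 ⌊s1 - s0⌋ (by linarith)
        have := lt_of_le_of_ne (Int.fract_nonneg (s1 - s0)) this.symm
        linarith
      · have := Int.fract_lt_one (s1 - s0)
        linarith
      · rw [← h1]
        have h3 := Int.floor_add_fract (s1 - s0)
        have h4 : s0 + Int.fract (s1 - s0) = s1 + ((-⌊s1 - s0⌋ : ℤ) : ℝ) := by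
          push_cast; linarith
        rw [h4, L.per_int]
    obtain ⟨e, f, η, he, hf, hef, hη, l1, l2, hfib⟩ := G.gen.db s0 y hy1 hy2 hye
    refine ⟨y, e, f, η, ⟨hη, l1, l2, hye.symm, ?_, hfib⟩⟩
    intro h0
    apply hef
    rw [Complex.div_im]
    have : e.im * f.re / normSq f - e.re * f.im / normSq f = An.cr f e / normSq f := by
      unfold An.cr; ring
    rw [this, h0, zero_div]
  · left
    push Not at hd
    have hm0 := G.mpos
    by_cases hfr : Int.fract ((m : ℝ) * s0) = 0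
    · -- a vertex
      obtain ⟨n, hn⟩ : ∃ n : ℤ, n = ⌊(m : ℝ) * s0⌋ := ⟨_, rfl⟩
      have hns : (m : ℝ) * s0 = n := by
        have := Int.floor_add_fract ((m : ℝ) * s0)
        rw [hfr, ← hn] at this; linarith
      obtain ⟨e, he⟩ : ∃ e, e = (m : ℂ) * Ux d k (n - 1) := ⟨_, rfl⟩
      obtain ⟨f, hf⟩ : ∃ f, f = (m : ℂ) * Ux d k n := ⟨_, rfl⟩
      have hcr : An.cr f e ≠ 0 := by
        intro h0
        have h1 := G.fe (i := n - 1) (j := n) (G.ne1 n)
        rw [← he, ← hf] at h1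
        apply h1
        rw [Complex.div_im]
        have : e.im * f.re / normSq f - e.re * f.im / normSq f = An.cr f e / normSq f := by
          unfold An.cr; ring
        rw [this, h0, zero_div]
      obtain ⟨τ, hτ, hτ1⟩ : ∃ τ : ℝ, (τ = 1 ∨ τ = -1) ∧ 0 < τ * An.cr f e := by
        rcases lt_or_gt_of_ne hcr with h | h
        · exact ⟨-1, Or.inr rfl, by linarith⟩
        · exact ⟨1, Or.inl rfl, by linarith⟩
      have pn : ∀ r : ℝ, |r| < 1 / m → qq d k (s0 + r) = qq d k s0 +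
          (max (m * r) 0 : ℝ) * Ux d k n + (min (m * r) 0 : ℝ) * Ux d k (n - 1) := by
        intro r hr
        have hr2 : |(m : ℝ) * r| < 1 := by
          rw [abs_mul, abs_of_pos hm0]
          rwa [lt_div_iff₀' hm0] at hr
        rw [abs_lt] at hr2
        unfold qq
        rw [mul_add, hns, pp_near n (s := (n : ℝ) + m * r) (by linarith) (by linarith),
          pp_near n (s := (n : ℝ)) (by linarith) (by linarith), add_sub_cancel_left, sub_self]
        simp
      refine ⟨e, f, ((τ : ℝ) : ℂ) * (starRingEnd ℂ) (I * (f - e)), 1 / (2 * m), ⟨?_, ?_, ?_, ?_, ?_, ?_⟩⟩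
      · have : (((τ : ℝ) : ℂ) * (starRingEnd ℂ) (I * (f - e)) * e).re = τ * An.cr f e := by
          rw [mul_assoc, re_ofReal_mul]
          congr 1
          unfold An.cr; simp; ring
        rw [this]; exact hτ1
      · have : (((τ : ℝ) : ℂ) * (starRingEnd ℂ) (I * (f - e)) * f).re = τ * An.cr f e := by
          rw [mul_assoc, re_ofReal_mul]
          congr 1
          unfold An.cr; simp; ring
        rw [this]; exact hτ1
      · positivity
      · intro r hr
        have hr1 : |r| < 1 / m := by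
          rw [abs_of_nonneg hr.1]
          refine hr.2.trans_lt ?_
          gcongr; linarith
        rw [pn r hr1, max_eq_left (mul_nonneg hm0.le hr.1), min_eq_right (mul_nonneg hm0.le hr.1), hf]
        push_cast; ring
      · intro r hr
        have hr1 : |(-r)| < 1 / m := by
          rw [abs_neg, abs_of_nonneg hr.1]
          refine hr.2.trans_lt ?_
          gcongr; linarith
        have h0 : (m : ℝ) * (-r) ≤ 0 := by
          have := mul_nonneg hm0.le hr.1
          linarith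
        rw [sub_eq_add_neg s0 r, pn (-r) hr1, max_eq_right h0, min_eq_left h0, he]
        push_cast; ring
      · intro t ht
        exact hd t ht
    · obtain ⟨η, hη, hl⟩ := G.lin (t := s0) hfr
      obtain ⟨e, he⟩ : ∃ e, e = (m : ℂ) * Ux d k ⌊(m : ℝ) * s0⌋ := ⟨_, rfl⟩
      have he0 : e ≠ 0 := by rw [he]; exact G.e_ne _
      have hp : 0 < ((starRingEnd ℂ) e * e).re := by
        rw [← Complex.normSq_eq_conj_mul_self, ofReal_re]
        exact normSq_pos.2 he0
      rw [← he] at hl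
      refine ⟨e, e, (starRingEnd ℂ) e, η, ⟨hp, hp, hη, ?_, ?_, fun t ht => hd t ht⟩⟩
      · intro r hr
        exact hl r (by rw [abs_of_nonneg hr.1]; exact hr.2)
      · intro r hr
        have := hl (-r) (by rw [abs_neg, abs_of_nonneg hr.1]; exact hr.2)
        rw [← sub_eq_add_neg] at this
        rw [this]; push_cast; ring

/-- generic polygons near the curve keeping two cones -/
theorem approx_cone (L : Loop c) {a b ρ : ℝ} {wa wb : ℂ} (hρ : 0 < ρ) (ha : CI c a wa ρ)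
    (hb : CI c b wb ρ) {ε : ℝ} (hε : 0 < ε) : ∃ q : ℝ → ℂ, Gen q ∧ PLc q ∧
      (∀ t, ‖q t - c t‖ ≤ ε) ∧ CI q a wa (ρ / 2) ∧ CI q b wb (ρ / 2) := by
  obtain ⟨N0, hN0, hN⟩ := L.fine (δ := ε / 4) (by positivity)
  obtain ⟨N1, hN1⟩ := exists_nat_gt (2 / ρ)
  obtain ⟨m, hmd⟩ : ∃ m, m = 4 * (N0 + N1) := ⟨_, rfl⟩
  have hm4 : 4 ∣ m := ⟨_, hmd⟩
  have hm3 : 3 ≤ m := by omega
  have : NeZero m := ⟨by omega⟩
  have hmn : 0 < m := by omega
  have hm0 : (0 : ℝ) < m := by exact_mod_cast hmn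
  have huc : ∀ s t : ℝ, |s - t| ≤ 1 / m → ‖c s - c t‖ < ε / 4 := by
    intro s t h
    refine hN (4 * (N0 + N1)) (by omega) s t (h.trans (le_of_eq ?_))
    rw [hmd]
  have hmρ : 2 / (m : ℝ) ≤ ρ := by
    rw [div_le_iff₀ hm0]
    rw [div_lt_iff₀ hρ] at hN1
    have h1 : (N1 : ℝ) ≤ m := by
      rw [hmd]; push_cast
      have h2 : (0 : ℝ) ≤ N1 := Nat.cast_nonneg _
      have h3 : (0 : ℝ) ≤ N0 := Nat.cast_nonneg _
      linarith
    nlinarith
  obtain ⟨μa, hμa, Ha⟩ := marg ha hmn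
  obtain ⟨μb, hμb, Hb⟩ := marg hb hmn
  obtain ⟨μ, hμ, μ1, μ2, μ3⟩ : ∃ μ > 0, 2 * μ ≤ μa ∧ 2 * μ ≤ μb ∧ 2 * μ ≤ ε / 4 := by
    refine ⟨min (min (μa / 2) (μb / 2)) (ε / 8), by positivity, ?_, ?_, ?_⟩
    · have := (min_le_left (min (μa / 2) (μb / 2)) (ε / 8)).trans (min_le_left _ _)
      linarith
    · have := (min_le_left (min (μa / 2) (μb / 2)) (ε / 8)).trans (min_le_right _ _)
      linarith
    · have := min_le_right (min (μa / 2) (μb / 2)) (ε / 8)
      linarith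
  obtain ⟨s, hs0, hs1, hcr, hdn⟩ := ex_off L hm4 hμ
  obtain ⟨δ, hδ, hp⟩ := pertG (kB c m s) hcr hμ
  obtain ⟨f, hf, h1, h2⟩ := stageA (d0 := dB c m s) hdn (fun _ => Ioo 0 δ)
    (fun _ => Ioo_infinite hδ)
  obtain ⟨k, hk, h3, h4⟩ := stageB (dp_ne hdn f) h1 h2
    (fun i => Ioo (kB c m s i) (kB c m s i + δ)) (fun i => Ioo_infinite (by linarith))
  have G : Gl (dp (dB c m s) f) k := ⟨hm3, dp_ne hdn f, h1, h2, h3, h4⟩
  have near0 : ∀ n : ℤ, ‖Vx (dp (dB c m s) f) k n - c ((n : ℝ) / m)‖ < 2 * μ := by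
    intro n
    have g1 := hp f k hf hk n
    rw [Vx_base L hm4 hcr] at g1
    have g2 := Pv_near c m hs0.le n
    have g3 := norm_add_le (Vx (dp (dB c m s) f) k n - Pv c m s n) (Pv c m s n - c ((n : ℝ) / m))
    rw [sub_add_sub_cancel] at g3
    linarith
  refine ⟨qq (dp (dB c m s) f) k, G.gen, Gen_PLc G, fun t => ?_, ?_, ?_⟩
  · have near : ∀ n : ℤ, |t - n / m| ≤ 1 / m → ‖Vx (dp (dB c m s) f) k n - c t‖ ≤ ε := by
      intro n hn
      have g1 := near0 n
      have g2 := huc (n / m) t (by rw [abs_sub_comm]; exact hn)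
      have g3 := norm_add_le (Vx (dp (dB c m s) f) k n - c ((n : ℝ) / m)) (c ((n : ℝ) / m) - c t)
      rw [sub_add_sub_cancel] at g3
      linarith
    set n : ℤ := ⌊m * t⌋ with hn
    have f0 := Int.fract_nonneg ((m:ℝ) * t)
    have f1 := (Int.fract_lt_one ((m:ℝ) * t)).le
    have fe : (n:ℝ) + Int.fract (m * t) = m * t := Int.floor_add_fract _
    have et : t = n / m + Int.fract (m * t) / m := by
      rw [← add_div, fe, mul_div_cancel_left₀ _ hm0.ne']
    have n1 := near n (by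
      rw [show t - n / m = Int.fract (m * t) / m by linarith, abs_of_nonneg (by positivity)]
      gcongr)
    have n2 := near (n + 1) (by
      push_cast
      rw [show t - ((n:ℝ) + 1) / m = -((1 - Int.fract (m * t)) / m) by
        rw [add_div, sub_div]; linarith, abs_neg, abs_of_nonneg (div_nonneg (by linarith) hm0.le)]
      gcongr
      linarith)
    have e : qq (dp (dB c m s) f) k t - c t =
        ((1 - Int.fract (m * t) : ℝ) : ℂ) * (Vx (dp (dB c m s) f) k n - c t) +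
        ((Int.fract (m * t) : ℝ) : ℂ) * (Vx (dp (dB c m s) f) k (n + 1) - c t) := by
      unfold qq pp Ux; rw [← hn]; push_cast; ring
    rw [e]
    refine (norm_add_le _ _).trans ?_
    rw [norm_mul, norm_mul, norm_real, norm_real, Real.norm_eq_abs, Real.norm_eq_abs,
      abs_of_nonneg f0, abs_of_nonneg (by linarith)]
    nlinarith
  · exact CI_poly hmn hmρ (fun n g1 g2 => Ha _ (fun n => (near0 n).trans_le μ1) n g1 g2)
  · exact CI_poly hmn hmρ (fun n g1 g2 => Hb _ (fun n => (near0 n).trans_le μ2) n g1 g2)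

end Pool.Agent.Y535.PEG
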