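import Pool.Agent.Y535.PEG.Par

/-! Generic polygons near a curve that keep the local monotonicity in finitely many zones. -/

set_option autoImplicit false
open Complex Set Topology Metric

namespace Pool.Agent.Y535.PEG

open Pool.Agent.H763R2 Pool.Agent.H763R2.An Pool.Agent.W675.Peg Pool.Agent.TH569.Peg
open Pool.Agent.H763R2.Dm (NoSq floor_const)

variable {c : ℝ → ℂ} {m : ℕ}

/-- all chords of an arc lie in an open sector -/
def CG (τ : ℝ) (q : ℝ → ℂ) (s : ℝ) (w : ℂ) (ρ : ℝ) : Prop := ∀ x y : ℝ, |x - s| < ρ →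
  |y - s| < ρ → x < y → τ * |(w * (q y - q x)).im| < (w * (q y - q x)).re

theorem marg' {s ρ τ : ℝ} {w : ℂ} (h0 : 0 ≤ τ) (h1 : τ ≤ 1) (h : CG τ c s w ρ) (hm : 0 < m) :
    ∃ μ > 0, ∀ V : ℤ → ℂ,
    (∀ n, ‖V n - c ((n : ℝ) / m)‖ < μ) → ∀ n : ℤ, |(n : ℝ) / m - s| < ρ →
      |((n + 1 : ℤ) : ℝ) / m - s| < ρ →
      τ * |(w * (V (n + 1) - V n)).im| < (w * (V (n + 1) - V n)).re := by
  have hm0 : (0 : ℝ) < m := by exact_mod_cast hm
  obtain ⟨ν, hν, H⟩ := fin_gap (Finset.Icc ⌊m * (s - ρ)⌋ ⌈m * (s + ρ)⌉)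
    (fun n => (w * (c (((n + 1 : ℤ) : ℝ) / m) - c ((n : ℝ) / m))).re -
      τ * |(w * (c (((n + 1 : ℤ) : ℝ) / m) - c ((n : ℝ) / m))).im|)
  refine ⟨ν / (4 * (‖w‖ + 1)), by positivity, fun V hV n hn1 hn2 => ?_⟩
  have h3 := h _ _ hn1 hn2 (by push_cast; gcongr; linarith)
  have hmem : n ∈ Finset.Icc ⌊m * (s - ρ)⌋ ⌈m * (s + ρ)⌉ := by
    rw [abs_lt] at hn1
    rw [Finset.mem_Icc]
    constructor
    · have : (m : ℝ) * (s - ρ) < n := by
        have h4 : s - ρ < (n : ℝ) / m := by linarith [hn1.1]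
        rw [lt_div_iff₀ hm0] at h4; linarith
      have h5 := Int.floor_mono this.le
      rwa [Int.floor_intCast] at h5
    · have : (n : ℝ) < (m : ℝ) * (s + ρ) := by
        have h4 : (n : ℝ) / m < s + ρ := by linarith [hn1.2]
        rw [div_lt_iff₀ hm0] at h4; linarith
      have h5 := Int.ceil_mono this.le
      rwa [Int.ceil_intCast] at h5
  have h6 := H n hmem (by linarith)
  obtain ⟨z, hz⟩ : ∃ z, z = c (((n + 1 : ℤ) : ℝ) / m) - c ((n : ℝ) / m) := ⟨_, rfl⟩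
  rw [← hz] at h3 h6
  have h7 : ‖w * (V (n + 1) - V n) - w * z‖ < ν / 2 := by
    rw [← mul_sub, norm_mul]
    have e : V (n + 1) - V n - z = (V (n + 1) - c (((n + 1 : ℤ) : ℝ) / m)) -
      (V n - c ((n : ℝ) / m)) := by rw [hz]; ring
    have h8 : ‖V (n + 1) - V n - z‖ < 2 * (ν / (4 * (‖w‖ + 1))) := by
      rw [e]
      refine (norm_sub_le _ _).trans_lt ?_
      have := hV (n + 1)
      have := hV n
      linarith
    have h9 : ‖w‖ * ‖V (n + 1) - V n - z‖ ≤ (‖w‖ + 1) * ‖V (n + 1) - V n - z‖ :=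
      mul_le_mul_of_nonneg_right (by linarith) (norm_nonneg _)
    have h10 : (‖w‖ + 1) * ‖V (n + 1) - V n - z‖ < (‖w‖ + 1) * (2 * (ν / (4 * (‖w‖ + 1)))) :=
      mul_lt_mul_of_pos_left h8 (by positivity)
    have h11 : (‖w‖ + 1) * (2 * (ν / (4 * (‖w‖ + 1)))) = ν / 2 := by
      field_simp; ring
    linarith
  have a1 := (abs_re_le_norm (w * (V (n + 1) - V n) - w * z)).trans_lt h7
  have a2 := (abs_im_le_norm (w * (V (n + 1) - V n) - w * z)).trans_lt h7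
  rw [sub_re] at a1
  rw [sub_im] at a2
  rw [abs_lt] at a1
  have b1 : |(w * (V (n + 1) - V n)).im| ≤ |(w * z).im| + ν / 2 := by
    have := abs_add_le (w * z).im ((w * (V (n + 1) - V n)).im - (w * z).im)
    rw [add_sub_cancel] at this
    linarith
  have b2 : τ * |(w * (V (n + 1) - V n)).im| ≤ τ * (|(w * z).im| + ν / 2) :=
    mul_le_mul_of_nonneg_left b1 h0
  have b3 : τ * (ν / 2) ≤ 1 * (ν / 2) := mul_le_mul_of_nonneg_right h1 (by positivity)
  linarith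

theorem CG_poly {d : ZMod m → ℂ} {k : ZMod m → ℝ} (hm : 0 < m) {s ρ τ : ℝ} {w : ℂ}
    (hτ : 0 ≤ τ) (hρ : 2 / m ≤ ρ)
    (h : ∀ n : ℤ, |(n : ℝ) / m - s| < ρ → |((n + 1 : ℤ) : ℝ) / m - s| < ρ →
      τ * |(w * Ux d k n).im| < (w * Ux d k n).re) : CG τ (qq d k) s w (ρ / 2) := by
  intro x y hx hy hxy
  have hm0 : (0 : ℝ) < m := by exact_mod_cast hm
  rw [abs_lt] at hx hy
  have h2m : (2 : ℝ) / m = 1 / m + 1 / m := by ring
  have hin : ∀ n : ℤ, ⌊(m : ℝ) * x⌋ ≤ n → n ≤ ⌊(m : ℝ) * y⌋ →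
      τ * |(w * Ux d k n).im| < (w * Ux d k n).re := by
    intro n h1 h2
    have h3 : (m : ℝ) * x < n + 1 := by
      have := Int.lt_floor_add_one ((m : ℝ) * x)
      have h4 : ((⌊(m : ℝ) * x⌋ : ℤ) : ℝ) ≤ n := by exact_mod_cast h1
      linarith
    have h5 : (n : ℝ) ≤ (m : ℝ) * y := by
      have := Int.floor_le ((m : ℝ) * y)
      have h4 : (n : ℝ) ≤ ((⌊(m : ℝ) * y⌋ : ℤ) : ℝ) := by exact_mod_cast h2
      linarith
    have h6 : x < (n : ℝ) / m + 1 / m := by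
      rw [← add_div, lt_div_iff₀ hm0]; linarith
    have h7 : (n : ℝ) / m ≤ y := by
      rw [div_le_iff₀ hm0]; linarith
    have h8 : ((n + 1 : ℤ) : ℝ) / m = (n : ℝ) / m + 1 / m := by push_cast; rw [add_div]
    have h9 : (0 : ℝ) < 1 / m := by positivity
    refine h n ?_ ?_
    · rw [abs_lt]; constructor <;> linarith
    · rw [h8, abs_lt]; constructor <;> linarith
  have hlin : ∀ τ : ℝ, (∀ n : ℤ, ⌊(m : ℝ) * x⌋ ≤ n → n ≤ ⌊(m : ℝ) * y⌋ →
      0 < (w * Ux d k n).re + τ * (w * Ux d k n).im) →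
      0 < (w * (qq d k y - qq d k x)).re + τ * (w * (qq d k y - qq d k x)).im := by
    intro τ hτ
    have := pl_mono (A := fun n => (w * Vx d k n).re + τ * (w * Vx d k n).im)
      (U := fun n => (w * Ux d k n).re + τ * (w * Ux d k n).im) (fun n => by
        unfold Ux
        rw [mul_sub, sub_re, sub_im]; ring) (N1 := ⌊(m : ℝ) * x⌋) (N2 := ⌊(m : ℝ) * y⌋) hτ
      (x := m * x) (y := m * y) le_rfl le_rfl (mul_lt_mul_of_pos_left hxy hm0)
    have val : ∀ t : ℝ, (w * qq d k t).re + τ * (w * qq d k t).im =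
        (w * Vx d k ⌊(m : ℝ) * t⌋).re + τ * (w * Vx d k ⌊(m : ℝ) * t⌋).im +
        Int.fract ((m : ℝ) * t) * ((w * Ux d k ⌊(m : ℝ) * t⌋).re +
          τ * (w * Ux d k ⌊(m : ℝ) * t⌋).im) := by
      intro t
      unfold qq pp
      rw [mul_add, show w * ((Int.fract ((m : ℝ) * t) : ℝ) * Ux d k ⌊(m : ℝ) * t⌋) =
        ((Int.fract ((m : ℝ) * t) : ℝ) : ℂ) * (w * Ux d k ⌊(m : ℝ) * t⌋) by ring,
        add_re, add_im, re_ofReal_mul, im_ofReal_mul]
      ring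
    rw [← val, ← val] at this
    rw [mul_sub, sub_re, sub_im]
    linarith
  have p1 := hlin τ (fun n h1 h2 => by
    have h3 := hin n h1 h2
    have h4 := mul_le_mul_of_nonneg_left (neg_abs_le (w * Ux d k n).im) hτ
    linarith)
  have p2 := hlin (-τ) (fun n h1 h2 => by
    have h3 := hin n h1 h2
    have h4 := mul_le_mul_of_nonneg_left (le_abs_self (w * Ux d k n).im) hτ
    linarith)
  rcases abs_cases (w * (qq d k y - qq d k x)).im with ⟨e, -⟩ | ⟨e, -⟩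
  · rw [e]; linarith
  · rw [e]; linarith

/-- generic polygons near the curve keeping finitely many sectors -/
theorem approx_zones (L : Loop c) {ι : Type*} [Finite ι] {s τ : ι → ℝ} {w : ι → ℂ} {ρ : ℝ}
    (hρ : 0 < ρ) (hτ : ∀ i, 0 ≤ τ i ∧ τ i ≤ 1) (h : ∀ i, CG (τ i) c (s i) (w i) ρ) {ε : ℝ}
    (hε : 0 < ε) : ∃ q : ℝ → ℂ, Gen q ∧ PLc q ∧
      (∀ t, ‖q t - c t‖ ≤ ε) ∧ ∀ i, CG (τ i) q (s i) (w i) (ρ / 2) := by
  obtain ⟨N0, hN0, hN⟩ := L.fine (δ := ε / 4) (by positivity)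
  obtain ⟨N1, hN1⟩ := exists_nat_gt (2 / ρ)
  obtain ⟨m, hmd⟩ : ∃ m, m = 4 * (N0 + N1) := ⟨_, rfl⟩
  have hm4 : 4 ∣ m := ⟨_, hmd⟩
  have hm3 : 3 ≤ m := by omega
  have : NeZero m := ⟨by omega⟩
  have hmn : 0 < m := by omega
  have hm0 : (0 : ℝ) < m := by exact_mod_cast hmn
  have huc : ∀ s t : ℝ, |s - t| ≤ 1 / m → ‖c s - c t‖ < ε / 4 := by
    intro s t h
    refine hN (4 * (N0 + N1)) (by omega) s t (h.trans (le_of_eq ?_))
    rw [hmd]
  have hmρ : 2 / (m : ℝ) ≤ ρ := by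
    rw [div_le_iff₀ hm0]
    rw [div_lt_iff₀ hρ] at hN1
    have h1 : (N1 : ℝ) ≤ m := by
      rw [hmd]; push_cast
      have h2 : (0 : ℝ) ≤ N1 := Nat.cast_nonneg _
      have h3 : (0 : ℝ) ≤ N0 := Nat.cast_nonneg _
      linarith
    nlinarith
  have hmarg : ∀ i, ∃ μ > 0, ∀ V : ℤ → ℂ,
      (∀ n, ‖V n - c ((n : ℝ) / m)‖ < μ) → ∀ n : ℤ, |(n : ℝ) / m - s i| < ρ →
      |((n + 1 : ℤ) : ℝ) / m - s i| < ρ →
      τ i * |(w i * (V (n + 1) - V n)).im| < (w i * (V (n + 1) - V n)).re :=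
    fun i => marg' (hτ i).1 (hτ i).2 (h i) hmn
  choose μi hμi Hi using hmarg
  obtain ⟨μ, hμ, μ1, μ3⟩ : ∃ μ > 0, (∀ i, 2 * μ ≤ μi i) ∧ 2 * μ ≤ ε / 4 := by
    have e1 : ∀ᶠ μ in 𝓝[>] (0:ℝ), ∀ i, μ < μi i / 2 := by
      rw [Filter.eventually_all]
      intro i
      have := Ioo_mem_nhdsGT (half_pos (hμi i))
      filter_upwards [this] with μ hμ
      exact hμ.2
    have e2 : ∀ᶠ μ in 𝓝[>] (0:ℝ), μ < ε / 8 := by
      have := Ioo_mem_nhdsGT (show 0 < ε / 8 by positivity)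
      filter_upwards [this] with μ hμ
      exact hμ.2
    obtain ⟨μ, g1, g2, g3⟩ := (e1.and (e2.and self_mem_nhdsWithin)).exists
    exact ⟨μ, g3, fun i => by linarith [g1 i], by linarith⟩
  obtain ⟨s', hs0, hs1, hcr, hdn⟩ := ex_off L hm4 hμ
  obtain ⟨δ, hδ, hp⟩ := pertG (kB c m s') hcr hμ
  obtain ⟨f, hf, h1, h2⟩ := stageA (d0 := dB c m s') hdn (fun _ => Ioo 0 δ)
    (fun _ => Ioo_infinite hδ)
  obtain ⟨k, hk, h3, h4⟩ := stageB (dp_ne hdn f) h1 h2
    (fun i => Ioo (kB c m s' i) (kB c m s' i + δ)) (fun i => Ioo_infinite (by linarith))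
  have G : Gl (dp (dB c m s') f) k := ⟨hm3, dp_ne hdn f, h1, h2, h3, h4⟩
  have near0 : ∀ n : ℤ, ‖Vx (dp (dB c m s') f) k n - c ((n : ℝ) / m)‖ < 2 * μ := by
    intro n
    have g1 := hp f k hf hk n
    rw [Vx_base L hm4 hcr] at g1
    have g2 := Pv_near c m hs0.le n
    have g3 := norm_add_le (Vx (dp (dB c m s') f) k n - Pv c m s' n) (Pv c m s' n - c ((n : ℝ) / m))
    rw [sub_add_sub_cancel] at g3
    linarith
  refine ⟨qq (dp (dB c m s') f) k, G.gen, Gen_PLc G, fun t => ?_, fun i => ?_⟩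
  · have near : ∀ n : ℤ, |t - n / m| ≤ 1 / m → ‖Vx (dp (dB c m s') f) k n - c t‖ ≤ ε := by
      intro n hn
      have g1 := near0 n
      have g2 := huc (n / m) t (by rw [abs_sub_comm]; exact hn)
      have g3 := norm_add_le (Vx (dp (dB c m s') f) k n - c ((n : ℝ) / m)) (c ((n : ℝ) / m) - c t)
      rw [sub_add_sub_cancel] at g3
      linarith
    set n : ℤ := ⌊m * t⌋ with hn
    have f0 := Int.fract_nonneg ((m:ℝ) * t)
    have f1 := (Int.fract_lt_one ((m:ℝ) * t)).le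
    have fe : (n:ℝ) + Int.fract (m * t) = m * t := Int.floor_add_fract _
    have et : t = n / m + Int.fract (m * t) / m := by
      rw [← add_div, fe, mul_div_cancel_left₀ _ hm0.ne']
    have n1 := near n (by
      rw [show t - n / m = Int.fract (m * t) / m by linarith, abs_of_nonneg (by positivity)]
      gcongr)
    have n2 := near (n + 1) (by
      push_cast
      rw [show t - ((n:ℝ) + 1) / m = -((1 - Int.fract (m * t)) / m) by
        rw [add_div, sub_div]; linarith, abs_neg, abs_of_nonneg (div_nonneg (by linarith) hm0.le)]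
      gcongr
      linarith)
    have e : qq (dp (dB c m s') f) k t - c t =
        ((1 - Int.fract (m * t) : ℝ) : ℂ) * (Vx (dp (dB c m s') f) k n - c t) +
        ((Int.fract (m * t) : ℝ) : ℂ) * (Vx (dp (dB c m s') f) k (n + 1) - c t) := by
      unfold qq pp Ux; rw [← hn]; push_cast; ring
    rw [e]
    refine (norm_add_le _ _).trans ?_
    rw [norm_mul, norm_mul, norm_real, norm_real, Real.norm_eq_abs, Real.norm_eq_abs,
      abs_of_nonneg f0, abs_of_nonneg (by linarith)]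
    nlinarith
  · exact CG_poly hmn (hτ i).1 hmρ
      (fun n g1 g2 => Hi i _ (fun n => (near0 n).trans_le (μ1 i)) n g1 g2)

/-- a general constancy lemma -/
theorem const_Icc {P : ℝ → ℤ → Prop} (hu : ∀ s k k', P s k → P s k' → k = k')
    (hl : ∀ s k, P s k → ∃ ρ > 0, ∀ s', |s' - s| < ρ → P s' k) {a b : ℝ} (hab : a ≤ b)
    (h : ∀ s ∈ Icc a b, ∃ k, ∃ ρ > 0, ∀ s', s' ≠ s → |s' - s| < ρ → P s' k) {ka kb : ℤ}
    (ha : P a ka) (hb : P b kb) : ka = kb := by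
  classical
  have ex : ∀ s, ∃ k, s ∈ Icc a b → ∃ ρ > 0, ∀ s', s' ≠ s → |s' - s| < ρ → P s' k := fun s => by
    by_cases hs : s ∈ Icc a b
    · obtain ⟨k, hk⟩ := h s hs
      exact ⟨k, fun _ => hk⟩
    · exact ⟨0, fun h => absurd h hs⟩
  choose f hf using ex
  have hpc : PreconnectedSpace (Icc a b) := isPreconnected_iff_preconnectedSpace.1 isPreconnected_Icc
  -- a common point near two points
  have com : ∀ s0 s ρ ρ' : ℝ, 0 < ρ' → |s - s0| < ρ → ∃ s', s' ≠ s ∧ s' ≠ s0 ∧ |s' - s| < ρ' ∧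
      |s' - s0| < ρ := by
    intro s0 s ρ ρ' hρ' hs
    obtain ⟨r, hr, r1, r2⟩ : ∃ r > 0, r < ρ' ∧ r < ρ - |s - s0| := by
      have : 0 < ρ - |s - s0| := by linarith
      exact ⟨min (ρ' / 2) ((ρ - |s - s0|) / 2), by positivity,
        by linarith [min_le_left (ρ' / 2) ((ρ - |s - s0|) / 2)],
        by linarith [min_le_right (ρ' / 2) ((ρ - |s - s0|) / 2)]⟩
    by_cases h : s + r = s0
    · refine ⟨s + r / 2, by linarith, by intro h'; linarith, ?_, ?_⟩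
      · rw [add_sub_cancel_left, abs_of_pos (by positivity)]; linarith
      · have := abs_add_le (r / 2) (s - s0)
        rw [show r / 2 + (s - s0) = s + r / 2 - s0 by ring, abs_of_pos (by positivity : 0 < r / 2)] at this
        linarith
    · refine ⟨s + r, by linarith, h, ?_, ?_⟩
      · rw [add_sub_cancel_left, abs_of_pos hr]; linarith
      · have := abs_add_le r (s - s0)
        rw [show r + (s - s0) = s + r - s0 by ring, abs_of_pos hr] at this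
        linarith
  have hlc : IsLocallyConstant (fun s : Icc a b => f s) := by
    rw [IsLocallyConstant.iff_eventually_eq]
    intro s0
    obtain ⟨ρ, hρ, H⟩ := hf s0 s0.2
    have : ∀ᶠ s : Icc a b in 𝓝 s0, |(s : ℝ) - s0| < ρ := by
      have h1 := Metric.ball_mem_nhds s0 hρ
      filter_upwards [h1] with s hs
      exact hs
    filter_upwards [this] with s hs
    obtain ⟨ρ', hρ', H'⟩ := hf s s.2
    obtain ⟨s', n1, n2, n3, n4⟩ := com s0 s ρ ρ' hρ' hs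
    exact hu s' _ _ (H' s' n1 n3) (H s' n2 n4)
  have hconst := hlc.apply_eq_of_preconnectedSpace ⟨a, le_rfl, hab⟩ ⟨b, hab, le_rfl⟩
  have val : ∀ s k, s ∈ Icc a b → P s k → f s = k := by
    intro s k hs hk
    obtain ⟨ρ, hρ, H⟩ := hf s hs
    obtain ⟨ρ1, hρ1, H1⟩ := hl s k hk
    obtain ⟨s', n1, -, n3, n4⟩ := com s s ρ1 ρ hρ (by simpa using hρ1)
    exact hu s' _ _ (H s' n1 n3) (H1 s' n4)
  simp only at hconst
  rw [← val a ka ⟨le_rfl, hab⟩ ha, ← val b kb ⟨hab, le_rfl⟩ hb, hconst]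

end Pool.Agent.Y535.PEG
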