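import Pool.Agent.Y535.PEG.Side
import Pool.Agent.Y535.PEG.Arq

/-! Half turns of the angle function near cone points and along similar arcs. -/

set_option autoImplicit false
open Complex Set Topology Metric

namespace Pool.Agent.Y535.PEG

open Pool.Agent.H763R2 Pool.Agent.H763R2.An Pool.Agent.W675.Peg Pool.Agent.TH569.Peg
open Pool.Agent.H763R2.Dm (NoSq floor_const)

variable {c : ℝ → ℂ} {θ : ℝ → ℝ → ℝ} {g : ℤ}

theorem floor_pre {X : Type*} [TopologicalSpace X] {V : Set X} (hV : IsPreconnected V) {f : X → ℝ}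
    (hf : ContinuousOn f V) (h : ∀ z ∈ V, Real.sin (f z) ≠ 0) {z w : X} (hz : z ∈ V)
    (hw : w ∈ V) : ⌊f z / Real.pi⌋ = ⌊f w / Real.pi⌋ := by
  have hπ := Real.pi_pos
  have key : ∀ {z w : X}, z ∈ V → w ∈ V → ¬ ⌊f z / Real.pi⌋ < ⌊f w / Real.pi⌋ := by
    intro z w hz hw hlt
    have h1 : f z < ⌊f w / Real.pi⌋ * Real.pi := by
      have := Int.floor_lt.1 hlt
      rwa [div_lt_iff₀ hπ] at this
    have h2 : ⌊f w / Real.pi⌋ * Real.pi ≤ f w := by
      have := Int.floor_le (f w / Real.pi)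
      rwa [le_div_iff₀ hπ] at this
    obtain ⟨x, hx, hx0⟩ := hV.intermediate_value hz hw hf
      (show (⌊f w / Real.pi⌋ * Real.pi : ℝ) ∈ Icc (f z) (f w) from ⟨h1.le, h2⟩)
    refine h x hx ?_
    rw [hx0]
    exact Real.sin_int_mul_pi _
  rcases lt_trichotomy ⌊f z / Real.pi⌋ ⌊f w / Real.pi⌋ with h | h | h
  · exact absurd h (key hz hw)
  · exact h
  · exact absurd h (key hw hz)

theorem half_fl {x : ℝ} (h : 0 < Real.cos x * Real.sin x) :
    ⌊x / Real.pi⌋ * Real.pi < x ∧ x < ⌊x / Real.pi⌋ * Real.pi + Real.pi / 2 := by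
  have hπ := Real.pi_pos
  have h1 : ⌊x / Real.pi⌋ * Real.pi ≤ x := by
    have := Int.floor_le (x / Real.pi)
    rwa [le_div_iff₀ hπ] at this
  have h2 : x < ⌊x / Real.pi⌋ * Real.pi + Real.pi := by
    have := Int.lt_floor_add_one (x / Real.pi)
    rw [div_lt_iff₀ hπ] at this
    linarith
  set k := ⌊x / Real.pi⌋
  have e : Real.cos (x - k * Real.pi) * Real.sin (x - k * Real.pi) = Real.cos x * Real.sin x := by
    rw [Real.sin_sub_int_mul_pi, Real.cos_sub_int_mul_pi]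
    have : ((-1 : ℝ) ^ k) * ((-1 : ℝ) ^ k) = 1 := by
      rw [← mul_zpow]; simp
    linear_combination (Real.cos x * Real.sin x) * this
  rw [← e] at h
  set y := x - k * Real.pi with hy
  have hs : 0 ≤ Real.sin y := Real.sin_nonneg_of_nonneg_of_le_pi (by linarith) (by linarith)
  have hs' : 0 < Real.sin y := by
    rcases lt_or_eq_of_le hs with h' | h'
    · exact h'
    · rw [← h', mul_zero] at h; exact absurd h (lt_irrefl _)
  have hc : 0 < Real.cos y := (mul_pos_iff_of_pos_right hs').1 h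
  constructor
  · by_contra hcon
    push Not at hcon
    have : y = 0 := by rw [hy]; linarith
    rw [this, Real.sin_zero] at hs'
    exact lt_irrefl _ hs'
  · by_contra hcon
    push Not at hcon
    have : Real.cos y ≤ 0 := Real.cos_nonpos_of_pi_div_two_le_of_le (by linarith) (by linarith)
    linarith

theorem fl_even {x : ℝ} (h : 0 < Real.sin x) : Even ⌊x / Real.pi⌋ := by
  have hπ := Real.pi_pos
  have h1 : ⌊x / Real.pi⌋ * Real.pi ≤ x := by
    have := Int.floor_le (x / Real.pi)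
    rwa [le_div_iff₀ hπ] at this
  have h2 : x < ⌊x / Real.pi⌋ * Real.pi + Real.pi := by
    have := Int.lt_floor_add_one (x / Real.pi)
    rw [div_lt_iff₀ hπ] at this
    linarith
  set k := ⌊x / Real.pi⌋
  have hs : 0 ≤ Real.sin (x - k * Real.pi) :=
    Real.sin_nonneg_of_nonneg_of_le_pi (by linarith) (by linarith)
  rw [Real.sin_sub_int_mul_pi] at hs
  by_contra hodd
  rw [Int.not_even_iff_odd] at hodd
  rw [hodd.neg_one_zpow] at hs
  linarith

theorem fl_odd {x : ℝ} (h : Real.sin x < 0) : Odd ⌊x / Real.pi⌋ := by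
  have h1 : 0 < Real.sin (x + Real.pi) := by rw [Real.sin_add_pi]; linarith
  have h2 := fl_even h1
  rw [add_div, div_self Real.pi_ne_zero, Int.floor_add_one] at h2
  rwa [Int.even_add_one, Int.not_even_iff_odd] at h2

theorem trig_rel {r s x y : ℝ} (hr : 0 < r) (hs : 0 < s) (h1 : r * Real.cos x = s * Real.cos y)
    (h2 : r * Real.sin x = s * Real.sin y) : Real.cos x = Real.cos y ∧ Real.sin x = Real.sin y := by
  have h3 : r ^ 2 = s ^ 2 := by
    have a1 := Real.cos_sq_add_sin_sq x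
    have a2 := Real.cos_sq_add_sin_sq y
    have a3 : (r * Real.cos x) ^ 2 + (r * Real.sin x) ^ 2 =
        (s * Real.cos y) ^ 2 + (s * Real.sin y) ^ 2 := by rw [h1, h2]
    nlinarith
  have h4 : r = s := (pow_left_inj₀ hr.le hs.le (by norm_num)).1 h3
  subst h4
  exact ⟨mul_left_cancel₀ hr.ne' h1, mul_left_cancel₀ hr.ne' h2⟩

theorem ang_const {X : Type*} [TopologicalSpace X] {V : Set X} (hV : IsPreconnected V)
    {f k : X → ℝ} (hf : ContinuousOn f V) (hk : ContinuousOn k V)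
    (h : ∀ z ∈ V, Real.cos (f z) = Real.cos (k z) ∧ Real.sin (f z) = Real.sin (k z)) :
    ∃ m : ℤ, ∀ z ∈ V, f z = k z + m * (2 * Real.pi) := by
  rcases V.eq_empty_or_nonempty with rfl | ⟨z0, hz0⟩
  · exact ⟨0, fun z hz => absurd hz (notMem_empty z)⟩
  have hexp : ∀ z ∈ V, exp (((f z - k z : ℝ) : ℂ) * I) = 1 := by
    intro z hz
    obtain ⟨h1, h2⟩ := h z hz
    rw [exp_mul_I, ← ofReal_cos, ← ofReal_sin, Real.cos_sub, Real.sin_sub, h1, h2]
    have a1 := Real.cos_sq_add_sin_sq (k z)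
    have : Real.cos (k z) * Real.cos (k z) + Real.sin (k z) * Real.sin (k z) = 1 := by
      rw [← a1]; ring
    rw [this, mul_comm (Real.sin (k z)), sub_self]
    simp
  obtain ⟨m, hm⟩ := exp_eq_one_iff.1 (hexp z0 hz0)
  refine ⟨m, fun z hz => ?_⟩
  have h3 := H777R2.exp_const_on hV (k := fun z => ((f z - k z : ℝ) : ℂ) * I)
    (by fun_prop) (c := 1) hexp hz hz0
  rw [hm] at h3
  have h4 := congrArg Complex.im h3
  rw [mul_I_im, ofReal_re, show (m : ℂ) * (2 * Real.pi * I) =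
    (((m : ℝ) * (2 * Real.pi) : ℝ) : ℂ) * I by push_cast; ring, mul_I_im, ofReal_re] at h4
  linarith

/-- constant number of half turns for short forward chords -/
def KL (θ : ℝ → ℝ → ℝ) (s : ℝ) (k : ℤ) : Prop := ∃ ρ > 0, ∀ x y : ℝ, |x - s| < ρ → |y - s| < ρ →
  x < y → ⌊θ x y / Real.pi⌋ = k

/-- constant number of half turns for short backward chords -/
def KR (θ : ℝ → ℝ → ℝ) (s : ℝ) (k : ℤ) : Prop := ∃ ρ > 0, ∀ x y : ℝ, |x - s| < ρ → |y - s| < ρ →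
  x < y → ⌊θ y (x + 1) / Real.pi⌋ = k

theorem pair_near {s ρ : ℝ} (hρ : 0 < ρ) : ∃ x y : ℝ, |x - s| < ρ ∧ |y - s| < ρ ∧ x < y :=
  ⟨s, s + ρ / 2, by simpa using hρ, by
    rw [add_sub_cancel_left, abs_of_pos (by positivity)]; linarith, by linarith⟩

theorem KL.uniq {s : ℝ} {k k' : ℤ} (h : KL θ s k) (h' : KL θ s k') : k = k' := by
  obtain ⟨ρ, hρ, H⟩ := h
  obtain ⟨ρ', hρ', H'⟩ := h'
  obtain ⟨x, y, hx, hy, hxy⟩ := pair_near (s := s) (lt_min hρ hρ')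
  rw [← H x y (lt_min_iff.1 hx).1 (lt_min_iff.1 hy).1 hxy,
    H' x y (lt_min_iff.1 hx).2 (lt_min_iff.1 hy).2 hxy]

theorem KR.uniq {s : ℝ} {k k' : ℤ} (h : KR θ s k) (h' : KR θ s k') : k = k' := by
  obtain ⟨ρ, hρ, H⟩ := h
  obtain ⟨ρ', hρ', H'⟩ := h'
  obtain ⟨x, y, hx, hy, hxy⟩ := pair_near (s := s) (lt_min hρ hρ')
  rw [← H x y (lt_min_iff.1 hx).1 (lt_min_iff.1 hy).1 hxy,
    H' x y (lt_min_iff.1 hx).2 (lt_min_iff.1 hy).2 hxy]

theorem near_tr {s s' x ρ ρ' : ℝ} (h : |s' - s| + ρ' ≤ ρ) (hx : |x - s'| < ρ') : |x - s| < ρ := by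
  have := abs_add_le (x - s') (s' - s)
  rw [sub_add_sub_cancel] at this
  linarith

theorem KL.loc {s : ℝ} {k : ℤ} (h : KL θ s k) : ∃ ρ > 0, ∀ s', |s' - s| < ρ → KL θ s' k := by
  obtain ⟨ρ, hρ, H⟩ := h
  refine ⟨ρ / 2, by positivity, fun s' hs' => ⟨ρ / 2, by positivity, fun x y hx hy => ?_⟩⟩
  exact H x y (near_tr (by linarith) hx) (near_tr (by linarith) hy)

theorem KR.loc {s : ℝ} {k : ℤ} (h : KR θ s k) : ∃ ρ > 0, ∀ s', |s' - s| < ρ → KR θ s' k := by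
  obtain ⟨ρ, hρ, H⟩ := h
  refine ⟨ρ / 2, by positivity, fun s' hs' => ⟨ρ / 2, by positivity, fun x y hx hy => ?_⟩⟩
  exact H x y (near_tr (by linarith) hx) (near_tr (by linarith) hy)

theorem Tri_UU {s ρ x y : ℝ} (hρ : ρ ≤ 1 / 2) (hx : |x - s| < ρ) (hy : |y - s| < ρ)
    (hxy : x < y) : y < x + 1 := by
  rw [abs_lt] at hx hy
  linarith

theorem DD_per1 (L : Loop c) (x y : ℝ) : DD c y (x + 1) = DD c y x := by
  rw [DD_eq, DD_eq, L.per]

theorem CC_per1 (L : Loop c) (x y : ℝ) : CC c y (x + 1) = CC c y x := by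
  rw [CC_eq, CC_eq, L.per]

theorem exKL (L : Loop c) (J : Inj c) (A : Ang c (mgc c) θ g) {s : ℝ} (h : Cone c s) :
    ∃ k, KL θ s k := by
  obtain ⟨ρ0, hρ0, hs⟩ := cone_sign L J h
  obtain ⟨ρ, hρ, hρ1, hρ2⟩ : ∃ ρ > 0, ρ ≤ ρ0 ∧ ρ ≤ 1 / 2 :=
    ⟨min ρ0 (1 / 2), by positivity, min_le_left _ _, min_le_right _ _⟩
  obtain ⟨x0, y0, hx0, hy0, hxy0⟩ := pair_near (s := s) hρ
  refine ⟨⌊θ x0 y0 / Real.pi⌋, ρ, hρ, fun x y hx hy hxy => ?_⟩
  refine floor_pre (Tri_pre s ρ) (f := fun p => θ p.1 p.2) (A.cont.mono ?_) (fun p hp => ?_)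
    (z := (x, y)) (w := (x0, y0)) ⟨hx, hy, hxy⟩ ⟨hx0, hy0, hxy0⟩
  · rintro p hp
    exact ⟨hp.2.2, Tri_UU hρ2 hp.1 hp.2.1 hp.2.2⟩
  · have := (hs p.1 p.2 (hp.1.trans_le hρ1) (hp.2.1.trans_le hρ1) hp.2.2).1
    obtain ⟨r, hr, -, e2⟩ := A.ex p.1 p.2 hp.2.2 (Tri_UU hρ2 hp.1 hp.2.1 hp.2.2)
    have h2 := right_ne_zero_of_mul this.ne'
    rw [e2] at h2
    exact right_ne_zero_of_mul h2

theorem exKR (L : Loop c) (J : Inj c) (A : Ang c (mgc c) θ g) {s : ℝ} (h : Cone c s) :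
    ∃ k, KR θ s k := by
  obtain ⟨ρ0, hρ0, hs⟩ := cone_sign L J h
  obtain ⟨ρ, hρ, hρ1, hρ2⟩ : ∃ ρ > 0, ρ ≤ ρ0 ∧ ρ ≤ 1 / 2 :=
    ⟨min ρ0 (1 / 2), by positivity, min_le_left _ _, min_le_right _ _⟩
  obtain ⟨x0, y0, hx0, hy0, hxy0⟩ := pair_near (s := s) hρ
  refine ⟨⌊θ y0 (x0 + 1) / Real.pi⌋, ρ, hρ, fun x y hx hy hxy => ?_⟩
  refine floor_pre (Tri_pre s ρ) (f := fun p => θ p.2 (p.1 + 1)) ?_ (fun p hp => ?_)
    (z := (x, y)) (w := (x0, y0)) ⟨hx, hy, hxy⟩ ⟨hx0, hy0, hxy0⟩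
  · refine A.cont.comp (f := fun p : ℝ × ℝ => ((p.2, p.1 + 1) : ℝ × ℝ)) (by fun_prop) ?_
    rintro p hp
    exact ⟨Tri_UU hρ2 hp.1 hp.2.1 hp.2.2, by simp only; linarith [hp.2.2]⟩
  · have := (hs p.1 p.2 (hp.1.trans_le hρ1) (hp.2.1.trans_le hρ1) hp.2.2).2
    obtain ⟨r, hr, -, e2⟩ := A.ex p.2 (p.1 + 1) (Tri_UU hρ2 hp.1 hp.2.1 hp.2.2)
      (by linarith [hp.2.2])
    have h2 := right_ne_zero_of_mul this.ne'
    rw [← CC_per1 L, e2] at h2
    exact right_ne_zero_of_mul h2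

theorem KL.per (A : Ang c (mgc c) θ g) {s : ℝ} {k : ℤ} (h : KL θ s k) : KL θ (s + 1) (k + 2 * g) := by
  obtain ⟨ρ0, hρ0, hs⟩ := h
  obtain ⟨ρ, hρ, hρ1, hρ2⟩ : ∃ ρ > 0, ρ ≤ ρ0 ∧ ρ ≤ 1 / 2 :=
    ⟨min ρ0 (1 / 2), by positivity, min_le_left _ _, min_le_right _ _⟩
  refine ⟨ρ, hρ, fun x y hx hy hxy => ?_⟩
  have hx' : |x - 1 - s| < ρ := by rwa [show x - 1 - s = x - (s + 1) by ring]
  have hy' : |y - 1 - s| < ρ := by rwa [show y - 1 - s = y - (s + 1) by ring]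
  have e := A.per (x - 1) (y - 1) (by linarith) (Tri_UU hρ2 hx' hy' (by linarith))
  rw [sub_add_cancel, sub_add_cancel] at e
  rw [e, ← hs (x - 1) (y - 1) (hx'.trans_le hρ1) (hy'.trans_le hρ1) (by linarith),
    add_div, show (g : ℝ) * (2 * Real.pi) / Real.pi = ((2 * g : ℤ) : ℝ) by
      push_cast; field_simp, Int.floor_add_intCast]

theorem KR.per (A : Ang c (mgc c) θ g) {s : ℝ} {k : ℤ} (h : KR θ s k) : KR θ (s + 1) (k + 2 * g) := by
  obtain ⟨ρ0, hρ0, hs⟩ := h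
  obtain ⟨ρ, hρ, hρ1, hρ2⟩ : ∃ ρ > 0, ρ ≤ ρ0 ∧ ρ ≤ 1 / 2 :=
    ⟨min ρ0 (1 / 2), by positivity, min_le_left _ _, min_le_right _ _⟩
  refine ⟨ρ, hρ, fun x y hx hy hxy => ?_⟩
  have hx' : |x - 1 - s| < ρ := by rwa [show x - 1 - s = x - (s + 1) by ring]
  have hy' : |y - 1 - s| < ρ := by rwa [show y - 1 - s = y - (s + 1) by ring]
  have e := A.per (y - 1) (x - 1 + 1) (by linarith [Tri_UU hρ2 hx' hy' (by linarith)])
    (by linarith)
  rw [sub_add_cancel, sub_add_cancel] at e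
  have e2 := hs (x - 1) (y - 1) (hx'.trans_le hρ1) (hy'.trans_le hρ1) (by linarith)
  rw [sub_add_cancel] at e2
  rw [e, ← e2, add_div, show (g : ℝ) * (2 * Real.pi) / Real.pi = ((2 * g : ℤ) : ℝ) by
      push_cast; field_simp, Int.floor_add_intCast]

/-- along a tame arc the number of half turns does not change -/
theorem KL.tame (L : Loop c) (J : Inj c) (A : Ang c (mgc c) θ g) {a b : ℝ}
    (h : ∀ s ∈ Icc a b, Cone c s) (hab : a ≤ b) {k k' : ℤ} (hk : KL θ a k) (hk' : KL θ b k') :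
    k = k' := by
  classical
  have ex : ∀ s, ∃ k, s ∈ Icc a b → KL θ s k := fun s => by
    by_cases hs : s ∈ Icc a b
    · obtain ⟨k, hk⟩ := exKL L J A (h s hs)
      exact ⟨k, fun _ => hk⟩
    · exact ⟨0, fun h => absurd h hs⟩
  choose f hf using ex
  have : IsPreconnected (Icc a b) := isPreconnected_Icc
  have hpc : PreconnectedSpace (Icc a b) := isPreconnected_iff_preconnectedSpace.1 this
  have hlc : IsLocallyConstant (fun s : Icc a b => f s) := by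
    rw [IsLocallyConstant.iff_eventually_eq]
    intro s
    obtain ⟨ρ, hρ, hl⟩ := (hf s s.2).loc
    have : ∀ᶠ s' : Icc a b in 𝓝 s, |(s' : ℝ) - s| < ρ := by
      have h1 := Metric.ball_mem_nhds s hρ
      filter_upwards [h1] with s' hs'
      exact hs'
    filter_upwards [this] with s' hs'
    exact (hf s' s'.2).uniq (hl s' hs')
  have := hlc.apply_eq_of_preconnectedSpace ⟨a, le_rfl, hab⟩ ⟨b, hab, le_rfl⟩
  simp only at this
  rw [hk.uniq (hf a ⟨le_rfl, hab⟩), hk'.uniq (hf b ⟨hab, le_rfl⟩), this]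

/-- along a tame arc the other number of half turns does not change -/
theorem KR.tame (L : Loop c) (J : Inj c) (A : Ang c (mgc c) θ g) {a b : ℝ}
    (h : ∀ s ∈ Icc a b, Cone c s) (hab : a ≤ b) {k k' : ℤ} (hk : KR θ a k) (hk' : KR θ b k') :
    k = k' := by
  classical
  have ex : ∀ s, ∃ k, s ∈ Icc a b → KR θ s k := fun s => by
    by_cases hs : s ∈ Icc a b
    · obtain ⟨k, hk⟩ := exKR L J A (h s hs)
      exact ⟨k, fun _ => hk⟩
    · exact ⟨0, fun h => absurd h hs⟩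
  choose f hf using ex
  have : IsPreconnected (Icc a b) := isPreconnected_Icc
  have hpc : PreconnectedSpace (Icc a b) := isPreconnected_iff_preconnectedSpace.1 this
  have hlc : IsLocallyConstant (fun s : Icc a b => f s) := by
    rw [IsLocallyConstant.iff_eventually_eq]
    intro s
    obtain ⟨ρ, hρ, hl⟩ := (hf s s.2).loc
    have : ∀ᶠ s' : Icc a b in 𝓝 s, |(s' : ℝ) - s| < ρ := by
      have h1 := Metric.ball_mem_nhds s hρ
      filter_upwards [h1] with s' hs'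
      exact hs'
    filter_upwards [this] with s' hs'
    exact (hf s' s'.2).uniq (hl s' hs')
  have := hlc.apply_eq_of_preconnectedSpace ⟨a, le_rfl, hab⟩ ⟨b, hab, le_rfl⟩
  simp only at this
  rw [hk.uniq (hf a ⟨le_rfl, hab⟩), hk'.uniq (hf b ⟨hab, le_rfl⟩), this]

/-- at cone points the number of half turns has one parity -/
theorem KL.parity (L : Loop c) (J : Inj c) {z0 : ℂ} (h0 : 0 < mgc c z0) (A : Ang c (mgc c) θ g)
    {s s' : ℝ} (h : Cone c s) (h' : Cone c s') {k k' : ℤ} (hk : KL θ s k) (hk' : KL θ s' k') :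
    Even (k' - k) := by
  obtain ⟨σ, hσ, hside⟩ := cone_side L J h0
  have key : ∀ s k, Cone c s → KL θ s k → (σ = 1 → Even k) ∧ (σ = -1 → Odd k) := by
    intro s k hs hk
    obtain ⟨ρ1, hρ1, h1⟩ := hside s hs
    obtain ⟨ρ2, hρ2, h2⟩ := hk
    obtain ⟨ρ, hρ, hρ3, hρ4, hρ5⟩ : ∃ ρ > 0, ρ ≤ ρ1 ∧ ρ ≤ ρ2 ∧ ρ ≤ 1 / 2 :=
      ⟨min (min ρ1 ρ2) (1 / 2), by positivity, (min_le_left _ _).trans (min_le_left _ _),
        (min_le_left _ _).trans (min_le_right _ _), min_le_right _ _⟩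
    obtain ⟨x, y, hx, hy, hxy⟩ := pair_near (s := s) hρ
    have b1 := (h1 x y (hx.trans_le hρ3) (hy.trans_le hρ3) hxy).2.1
    have b2 := h2 x y (hx.trans_le hρ4) (hy.trans_le hρ4) hxy
    obtain ⟨r, hr, -, e2⟩ := A.ex x y hxy (Tri_UU hρ5 hx hy hxy)
    rw [e2] at b1
    rw [← b2]
    constructor
    · intro hσ1
      rw [hσ1, one_mul] at b1
      exact fl_even ((mul_pos_iff_of_pos_left hr).1 b1)
    · intro hσ1
      rw [hσ1] at b1
      refine fl_odd ?_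
      have : 0 < r * -Real.sin (θ x y) := by linarith
      have := (mul_pos_iff_of_pos_left hr).1 this
      linarith
  obtain ⟨a1, a2⟩ := key s k h hk
  obtain ⟨b1, b2⟩ := key s' k' h' hk'
  rcases hσ with e | e
  · exact (b1 e).sub (a1 e)
  · exact (b2 e).sub_odd (a2 e)

end Pool.Agent.Y535.PEG
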