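import Pool.Agent.Y535.PEG.StmB

/-! Simple generic polygons near a simple closed curve. -/

set_option autoImplicit false
open Complex Set Topology Metric

namespace Pool.Agent.Y535.PEG

open Pool.Agent.H763R2 Pool.Agent.H763R2.An Pool.Agent.W675.Peg Pool.Agent.TH569.Peg
open Pool.Agent.H763R2.Dm (NoSq floor_const)

variable {c : ℝ → ℂ} {m : ℕ}

/-- generic polygons near the curve keeping finitely many sectors -/
theorem approx_zonesV (L : Loop c) {ι : Type*} [Finite ι] {s τ : ι → ℝ} {w : ι → ℂ} {ρ : ι → ℝ}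
    (hρ : ∀ i, 0 < ρ i) (hτ : ∀ i, 0 ≤ τ i ∧ τ i ≤ 1) (h : ∀ i, CG (τ i) c (s i) (w i) (ρ i)) {ε : ℝ}
    (hε : 0 < ε) : ∃ q : ℝ → ℂ, Gen q ∧ PLc q ∧
      (∀ t, ‖q t - c t‖ ≤ ε) ∧ ∀ i, CG (τ i) q (s i) (w i) (ρ i / 2) := by
  obtain ⟨N0, hN0, hN⟩ := L.fine (δ := ε / 4) (by positivity)
  obtain ⟨N1, hN1⟩ : ∃ N1 : ℕ, ∀ i, 2 / ρ i < N1 := by
    have : ∀ᶠ N : ℕ in Filter.atTop, ∀ i, 2 / ρ i < N := by
      rw [Filter.eventually_all]
      intro i
      exact (tendsto_natCast_atTop_atTop (R := ℝ)).eventually_gt_atTop (2 / ρ i)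
    exact this.exists
  obtain ⟨m, hmd⟩ : ∃ m, m = 4 * (N0 + N1) := ⟨_, rfl⟩
  have hm4 : 4 ∣ m := ⟨_, hmd⟩
  have hm3 : 3 ≤ m := by omega
  have : NeZero m := ⟨by omega⟩
  have hmn : 0 < m := by omega
  have hm0 : (0 : ℝ) < m := by exact_mod_cast hmn
  have huc : ∀ s t : ℝ, |s - t| ≤ 1 / m → ‖c s - c t‖ < ε / 4 := by
    intro s t h
    refine hN (4 * (N0 + N1)) (by omega) s t (h.trans (le_of_eq ?_))
    rw [hmd]
  have hmρ : ∀ i, 2 / (m : ℝ) ≤ ρ i := by
    intro i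
    have hN1 := hN1 i
    rw [div_le_iff₀ hm0]
    rw [div_lt_iff₀ (hρ i)] at hN1
    have h1 : (N1 : ℝ) ≤ m := by
      rw [hmd]; push_cast
      have h2 : (0 : ℝ) ≤ N1 := Nat.cast_nonneg _
      have h3 : (0 : ℝ) ≤ N0 := Nat.cast_nonneg _
      linarith
    nlinarith [hρ i]
  have hmarg : ∀ i, ∃ μ > 0, ∀ V : ℤ → ℂ,
      (∀ n, ‖V n - c ((n : ℝ) / m)‖ < μ) → ∀ n : ℤ, |(n : ℝ) / m - s i| < ρ i →
      |((n + 1 : ℤ) : ℝ) / m - s i| < ρ i →
      τ i * |(w i * (V (n + 1) - V n)).im| < (w i * (V (n + 1) - V n)).re :=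
    fun i => marg' (hτ i).1 (hτ i).2 (h i) hmn
  choose μi hμi Hi using hmarg
  obtain ⟨μ, hμ, μ1, μ3⟩ : ∃ μ > 0, (∀ i, 2 * μ ≤ μi i) ∧ 2 * μ ≤ ε / 4 := by
    have e1 : ∀ᶠ μ in 𝓝[>] (0:ℝ), ∀ i, μ < μi i / 2 := by
      rw [Filter.eventually_all]
      intro i
      have := Ioo_mem_nhdsGT (half_pos (hμi i))
      filter_upwards [this] with μ hμ
      exact hμ.2
    have e2 : ∀ᶠ μ in 𝓝[>] (0:ℝ), μ < ε / 8 := by
      have := Ioo_mem_nhdsGT (show 0 < ε / 8 by positivity)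
      filter_upwards [this] with μ hμ
      exact hμ.2
    obtain ⟨μ, g1, g2, g3⟩ := (e1.and (e2.and self_mem_nhdsWithin)).exists
    exact ⟨μ, g3, fun i => by linarith [g1 i], by linarith⟩
  obtain ⟨s', hs0, hs1, hcr, hdn⟩ := ex_off L hm4 hμ
  obtain ⟨δ, hδ, hp⟩ := pertG (kB c m s') hcr hμ
  obtain ⟨f, hf, h1, h2⟩ := stageA (d0 := dB c m s') hdn (fun _ => Ioo 0 δ)
    (fun _ => Ioo_infinite hδ)
  obtain ⟨k, hk, h3, h4⟩ := stageB (dp_ne hdn f) h1 h2
    (fun i => Ioo (kB c m s' i) (kB c m s' i + δ)) (fun i => Ioo_infinite (by linarith))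
  have G : Gl (dp (dB c m s') f) k := ⟨hm3, dp_ne hdn f, h1, h2, h3, h4⟩
  have near0 : ∀ n : ℤ, ‖Vx (dp (dB c m s') f) k n - c ((n : ℝ) / m)‖ < 2 * μ := by
    intro n
    have g1 := hp f k hf hk n
    rw [Vx_base L hm4 hcr] at g1
    have g2 := Pv_near c m hs0.le n
    have g3 := norm_add_le (Vx (dp (dB c m s') f) k n - Pv c m s' n) (Pv c m s' n - c ((n : ℝ) / m))
    rw [sub_add_sub_cancel] at g3
    linarith
  refine ⟨qq (dp (dB c m s') f) k, G.gen, Gen_PLc G, fun t => ?_, fun i => ?_⟩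
  · have near : ∀ n : ℤ, |t - n / m| ≤ 1 / m → ‖Vx (dp (dB c m s') f) k n - c t‖ ≤ ε := by
      intro n hn
      have g1 := near0 n
      have g2 := huc (n / m) t (by rw [abs_sub_comm]; exact hn)
      have g3 := norm_add_le (Vx (dp (dB c m s') f) k n - c ((n : ℝ) / m)) (c ((n : ℝ) / m) - c t)
      rw [sub_add_sub_cancel] at g3
      linarith
    set n : ℤ := ⌊m * t⌋ with hn
    have f0 := Int.fract_nonneg ((m:ℝ) * t)
    have f1 := (Int.fract_lt_one ((m:ℝ) * t)).le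
    have fe : (n:ℝ) + Int.fract (m * t) = m * t := Int.floor_add_fract _
    have et : t = n / m + Int.fract (m * t) / m := by
      rw [← add_div, fe, mul_div_cancel_left₀ _ hm0.ne']
    have n1 := near n (by
      rw [show t - n / m = Int.fract (m * t) / m by linarith, abs_of_nonneg (by positivity)]
      gcongr)
    have n2 := near (n + 1) (by
      push_cast
      rw [show t - ((n:ℝ) + 1) / m = -((1 - Int.fract (m * t)) / m) by
        rw [add_div, sub_div]; linarith, abs_neg, abs_of_nonneg (div_nonneg (by linarith) hm0.le)]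
      gcongr
      linarith)
    have e : qq (dp (dB c m s') f) k t - c t =
        ((1 - Int.fract (m * t) : ℝ) : ℂ) * (Vx (dp (dB c m s') f) k n - c t) +
        ((Int.fract (m * t) : ℝ) : ℂ) * (Vx (dp (dB c m s') f) k (n + 1) - c t) := by
      unfold qq pp Ux; rw [← hn]; push_cast; ring
    rw [e]
    refine (norm_add_le _ _).trans ?_
    rw [norm_mul, norm_mul, norm_real, norm_real, Real.norm_eq_abs, Real.norm_eq_abs,
      abs_of_nonneg f0, abs_of_nonneg (by linarith)]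
    nlinarith
  · exact CG_poly hmn (hτ i).1 (hmρ i)
      (fun n g1 g2 => Hi i _ (fun n => (near0 n).trans_le (μ1 i)) n g1 g2)


theorem osc (L : Loop c) {ε : ℝ} (hε : 0 < ε) : ∃ δ > 0, ∀ x y, |x - y| ≤ δ → ‖c x - c y‖ ≤ ε := by
  obtain ⟨N0, hN0, hN⟩ := L.fine (δ := ε) hε
  refine ⟨1 / N0, by positivity, fun x y h => (hN N0 le_rfl x y h).le⟩

theorem approx_simple (hP : S_P) (L : Loop c) (J : Inj c) {ι : Type} [Finite ι] (i0 : ι)
    {s τ : ι → ℝ} {w : ι → ℂ} {ρ : ℝ} (hρ : 0 < ρ) (hτ : ∀ i, 0 ≤ τ i ∧ τ i ≤ 1)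
    (h : ∀ i, CG (τ i) c (s i) (w i) ρ) {ε : ℝ} (hε : 0 < ε) : ∃ q : ℝ → ℂ, Gen q ∧ PLc q ∧ Inj q ∧
      (∀ t, ‖q t - c t‖ ≤ ε) ∧ ∀ i, CG (τ i) q (s i) (w i) (ρ / 8) := by
  obtain ⟨δ0, hδ0, hosc⟩ := osc L (ε := ε / 8) (by positivity)
  obtain ⟨ρ', hρ', r1, r2⟩ : ∃ ρ' > 0, ρ' ≤ ρ / 4 ∧ ρ' ≤ 1 / 4 :=
    ⟨min (ρ / 4) (1 / 4), by positivity, min_le_left _ _, min_le_right _ _⟩
  obtain ⟨η, hη, e1, e2⟩ : ∃ η > 0, η ≤ δ0 ∧ 8 * η ≤ ρ' :=
    ⟨min δ0 (ρ' / 8), by positivity, min_le_left _ _, by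
      have := min_le_right δ0 (ρ' / 8)
      linarith⟩
  obtain ⟨ρ1, hρ1, hnear⟩ := near_par L J hη
  obtain ⟨q0, G0, P0, hq0, z0⟩ := approx_zonesV L (ρ := fun _ => ρ) (fun _ => hρ) hτ h
    (ε := min (ε / 8) (ρ1 / 4)) (by positivity)
  have L0 := G0.L
  have hq1 : ∀ t, ‖q0 t - c t‖ ≤ ε / 8 := fun t => (hq0 t).trans (min_le_left _ _)
  have hq2 : ∀ t, ‖q0 t - c t‖ ≤ ρ1 / 4 := fun t => (hq0 t).trans (min_le_right _ _)
  have coin : ∀ x y, q0 x = q0 y → ∃ (n : ℤ) (e : ℝ), |e| < η ∧ y = x + e + n := by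
    intro x y hxy
    refine hnear y x ?_
    have h1 := norm_add_le (c y - q0 y) (q0 x - c x)
    rw [show c y - q0 y + (q0 x - c x) = c y - c x by rw [hxy]; ring, norm_sub_rev (c y) (q0 y)] at h1
    have := hq2 x
    have := hq2 y
    linarith
  have clean : ∀ x y, |x - s i0| < ρ' → q0 x = q0 y → ∃ n : ℤ, y = x + n := by
    intro x y hx hxy
    obtain ⟨n, e, he, hy⟩ := coin x y hxy
    have hqe : q0 (x + e) = q0 x := by
      rw [hxy, hy, L0.per_int]
    have hz := z0 i0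
    rw [abs_lt] at hx he
    have m1 : |x - s i0| < ρ / 2 := by rw [abs_lt]; constructor <;> linarith
    have m2 : |x + e - s i0| < ρ / 2 := by rw [abs_lt]; constructor <;> linarith
    rcases lt_trichotomy e 0 with h | h | h
    · have := hz (x + e) x m2 m1 (by linarith)
      rw [hqe, sub_self, mul_zero] at this
      simp at this
    · exact ⟨n, by rw [hy, h]; ring⟩
    · have := hz x (x + e) m1 m2 (by linarith)
      rw [hqe, sub_self, mul_zero] at this
      simp at this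
  have shortc : ∀ x y, x < y → y < x + 1 → q0 x = q0 y → y - x < η ∨ x + 1 - y < η := by
    intro x y h1 h2 hxy
    obtain ⟨n, e, he, hy⟩ := coin x y hxy
    rw [abs_lt] at he
    have n1 : (n : ℝ) < 2 := by linarith
    have n2 : (-1 : ℝ) < n := by linarith
    have n3 : n < 2 := by exact_mod_cast n1
    have n4 : -1 < n := by exact_mod_cast n2
    have n5 : n = 0 ∨ n = 1 := by omega
    rcases n5 with h | h
    · left; rw [hy, h]; push_cast; linarith
    · right; rw [hy, h]; push_cast; linarith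
  obtain ⟨l, lm, lp, ln, Lp, Jp, Mp⟩ := hP q0 G0 P0 (s i0) ρ' η hη (by linarith) r2 clean shortc
  obtain ⟨p, hp⟩ : ∃ p : ℝ → ℂ, p = fun t => q0 (l t) := ⟨_, rfl⟩
  rw [← hp] at Lp Jp Mp
  have pn : ∀ t, ‖p t - c t‖ ≤ ε / 4 := by
    intro t
    have h1 := norm_add_le (q0 (l t) - c (l t)) (c (l t) - c t)
    rw [sub_add_sub_cancel] at h1
    have h2 := hq1 (l t)
    have h3 := hosc (l t) t ((ln t).trans e1)
    rw [hp]
    simp only
    linarith
  have zp : ∀ i, CG (τ i) p (s i) (w i) (3 * ρ / 8) := by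
    intro i x y hx hy hxy
    have k1 := ln x
    have k2 := ln y
    rw [abs_le] at k1 k2
    rw [abs_lt] at hx hy
    have := z0 i (l x) (l y) (by rw [abs_lt]; constructor <;> linarith)
      (by rw [abs_lt]; constructor <;> linarith) (lm hxy)
    rw [hp]
    exact this
  obtain ⟨δ1, hδ1, hleb⟩ := leb1 (c := p) (a := 0) (b := 1) (fun s _ => Mp s)
  obtain ⟨t, htI, htf, htc⟩ := (isCompact_Icc (a := (0:ℝ)) (b := 1)).finite_cover_balls
    (e := δ1 / 4) (by positivity)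
  have hfin : Finite t := htf
  have hwt : ∀ y : t, ∃ w, CG 0 p y w δ1 := fun y => hleb y (htI y.2)
  choose wt hwt using hwt
  obtain ⟨ρ2, hρ2, hnear2⟩ := near_par Lp Jp (δ := δ1 / 4) (by positivity)
  obtain ⟨q, hG, hPL, hq, hz⟩ := approx_zonesV Lp (ι := t ⊕ ι)
    (s := Sum.elim (fun y => (y : ℝ)) s)
    (τ := Sum.elim (fun _ => 0) τ)
    (w := Sum.elim wt w) (ρ := Sum.elim (fun _ => δ1) (fun _ => 3 * ρ / 8))
    (by
      rintro (y | i)
      · exact hδ1
      · simp only [Sum.elim_inr]; positivity)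
    (by
      rintro (y | i)
      · simp
      · exact hτ i) (by
      rintro (y | i)
      · exact hwt y
      · exact zp i) (ε := min (ε / 4) (ρ2 / 8)) (by positivity)
  have Lq := hG.L
  have hqa : ∀ t, ‖q t - p t‖ ≤ ε / 4 := fun t => (hq t).trans (min_le_left _ _)
  have hqb : ∀ t, ‖q t - p t‖ ≤ ρ2 / 8 := fun t => (hq t).trans (min_le_right _ _)
  refine ⟨q, hG, hPL, ?_, fun t => ?_, fun i => ?_⟩
  · have key : ∀ x ∈ Icc (0:ℝ) 1, ∀ y, q x = q y → ∃ n : ℤ, y = x + n := by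
      intro x hx y hxy
      obtain ⟨n, e, he, hy⟩ := hnear2 y x (by
        have h1 := norm_add_le (p y - q y) (q x - p x)
        rw [show p y - q y + (q x - p x) = p y - p x by rw [hxy]; ring, norm_sub_rev (p y) (q y)] at h1
        have := hqb x
        have := hqb y
        linarith)
      have hqe : q (x + e) = q x := by
        rw [hxy, hy, Lq.per_int]
      obtain ⟨y', hy', hsy⟩ := mem_iUnion₂.1 (htc hx)
      have hsy' : |x - y'| < δ1 / 4 := hsy
      have h1 := hz (Sum.inl ⟨y', hy'⟩)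
      simp only [Sum.elim_inl] at h1
      rw [abs_lt] at hsy' he
      have m1 : |x - y'| < δ1 / 2 := by rw [abs_lt]; constructor <;> linarith
      have m2 : |x + e - y'| < δ1 / 2 := by rw [abs_lt]; constructor <;> linarith
      rcases lt_trichotomy e 0 with h | h | h
      · have := h1 (x + e) x m2 m1 (by linarith)
        rw [hqe, sub_self, mul_zero] at this
        simp at this
      · exact ⟨n, by rw [hy, h]; ring⟩
      · have := h1 x (x + e) m1 m2 (by linarith)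
        rw [hqe, sub_self, mul_zero] at this
        simp at this
    intro x y hxy hyx he
    obtain ⟨n, hn⟩ := key (Int.fract x) ⟨Int.fract_nonneg x, (Int.fract_lt_one x).le⟩ (y - ⌊x⌋) (by
      have e1 := Lq.per_int (Int.fract x) ⌊x⌋
      rw [Int.fract_add_floor] at e1
      have e2 := Lq.per_int (y - ⌊x⌋) ⌊x⌋
      rw [sub_add_cancel] at e2
      rw [← e1, ← e2, he])
    have hfl := Int.fract_add_floor x
    have n1 : (n : ℝ) < 1 := by linarith
    have n2 : (0 : ℝ) < n := by linarith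
    have n3 : n < 1 := by exact_mod_cast n1
    have n4 : 0 < n := by exact_mod_cast n2
    omega
  · have h1 := norm_add_le (q t - p t) (p t - c t)
    rw [sub_add_sub_cancel] at h1
    have := hqa t
    have := pn t
    linarith
  · have h1 := hz (Sum.inr i)
    simp only [Sum.elim_inr] at h1
    exact fun x y hx hy hxy => h1 x y (by linarith) (by linarith) hxy

end Pool.Agent.Y535.PEG
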