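import Pool.Agent.Y535.PEG.Sap

/-! Simple generic polygons near a curve with cones. -/

set_option autoImplicit false
open Complex Set Topology Metric

namespace Pool.Agent.Y535.PEG

open Pool.Agent.H763R2 Pool.Agent.H763R2.An Pool.Agent.W675.Peg Pool.Agent.TH569.Peg
open Pool.Agent.H763R2.Dm (NoSq floor_const)

variable {c q : ℝ → ℂ}

theorem exAppS (hP : S_P) (L : Loop c) (J : Inj c) {b u v : ℝ} (ha : Cone c 0) (hb : Cone c b)
    (hM : ∀ s ∈ Icc u v, Mon c s) : ∃ σ > 0,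
    (∀ σ' > 0, σ' ≤ σ → Zn c 0 σ' ∧ Zn c b σ') ∧ ∀ ε > 0, ∃ q, Gen q ∧ PLc q ∧ Inj q ∧
      (∀ t, ‖q t - c t‖ ≤ ε) ∧ Zn q 0 σ ∧ Zn q b σ ∧ ∀ s ∈ Icc u v, ∃ w, CG 0 q s w σ := by
  obtain ⟨ρa, hρa, wa, Ha⟩ := ha
  obtain ⟨ρb, hρb, wb, Hb⟩ := hb
  obtain ⟨sa, hsa, Sa⟩ := cone_sign L J ⟨ρa, hρa, wa, Ha⟩
  obtain ⟨sb, hsb, Sb⟩ := cone_sign L J ⟨ρb, hρb, wb, Hb⟩
  obtain ⟨δ, hδ, hleb⟩ := leb1 hM
  obtain ⟨ρ, hρ, r1, r2, r3⟩ : ∃ ρ > 0, ρ ≤ ρa ∧ ρ ≤ ρb ∧ ρ ≤ δ :=
    ⟨min (min ρa ρb) δ, by positivity, (min_le_left _ _).trans (min_le_left _ _),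
      (min_le_left _ _).trans (min_le_right _ _), min_le_right _ _⟩
  have Ca : CG 1 c 0 wa ρ := fun x y hx hy hxy => by
    rw [one_mul]; exact Ha x y (hx.trans_le r1) (hy.trans_le r1) hxy
  have Cb : CG 1 c b wb ρ := fun x y hx hy hxy => by
    rw [one_mul]; exact Hb x y (hx.trans_le r2) (hy.trans_le r2) hxy
  obtain ⟨t, htI, htf, htc⟩ := (isCompact_Icc (a := u) (b := v)).finite_cover_balls
    (e := ρ / 16) (by positivity)
  have hfin : Finite t := htf
  have hwt : ∀ y : t, ∃ w, CG 0 c y w ρ := fun y => by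
    obtain ⟨w, hw⟩ := hleb y (htI y.2)
    exact ⟨w, fun x z hx hz hxz => hw x z (hx.trans_le r3) (hz.trans_le r3) hxz⟩
  choose wt hwt using hwt
  obtain ⟨ρ1, hρ1, hnear⟩ := near_par L J (δ := ρ / 16) (by positivity)
  obtain ⟨τa, hτa, ka⟩ := Metric.continuous_iff.1 L.cont 0 (ρ1 / 32) (by positivity)
  obtain ⟨τb, hτb, kb⟩ := Metric.continuous_iff.1 L.cont b (ρ1 / 32) (by positivity)
  simp only [dist_eq_norm] at ka kb
  obtain ⟨σ, hσ, s1, s2, s3, s4, s5⟩ : ∃ σ > 0, σ ≤ τa ∧ σ ≤ τb ∧ σ ≤ ρ / 16 ∧ σ ≤ sa ∧ σ ≤ sb :=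
    ⟨min (min (min τa τb) (ρ / 16)) (min sa sb), by positivity,
      (min_le_left _ _).trans ((min_le_left _ _).trans (min_le_left _ _)),
      (min_le_left _ _).trans ((min_le_left _ _).trans (min_le_right _ _)),
      (min_le_left _ _).trans (min_le_right _ _),
      (min_le_right _ _).trans (min_le_left _ _), (min_le_right _ _).trans (min_le_right _ _)⟩
  refine ⟨σ, hσ, fun σ' _ hσ' => ⟨fun x y hx hy hxy => Sa x y (by linarith) (by linarith) hxy,
    fun x y hx hy hxy => Sb x y (by linarith) (by linarith) hxy⟩, fun ε hε => ?_⟩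
  obtain ⟨q, hG, hPL, hJ, hq, hz⟩ := approx_simple hP L J (ι := t ⊕ Bool) (Sum.inr true)
    (s := Sum.elim (fun y => (y : ℝ)) (fun i => if i then 0 else b))
    (τ := Sum.elim (fun _ => 0) (fun _ => 1))
    (w := Sum.elim wt (fun i => if i then wa else wb)) hρ
    (by rintro (y | i) <;> simp) (by
      rintro (y | i)
      · exact hwt y
      · cases i
        · simpa using Cb
        · simpa using Ca) (ε := min ε (ρ1 / 64)) (by positivity)
  have qa := hz (Sum.inr true)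
  have qb := hz (Sum.inr false)
  simp only [Sum.elim_inr, if_true] at qa
  simp only [Sum.elim_inr, Bool.false_eq_true, if_false] at qb
  have qa' : CI q 0 wa (ρ / 16) := fun x y hx hy hxy => by
    have := qa x y (by linarith) (by linarith) hxy
    rwa [one_mul] at this
  have qb' : CI q b wb (ρ / 16) := fun x y hx hy hxy => by
    have := qb x y (by linarith) (by linarith) hxy
    rwa [one_mul] at this
  have qm : ∀ s ∈ Icc u v, ∃ w, CG 0 q s w (ρ / 16) := by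
    intro s hs
    obtain ⟨y, hy, hsy⟩ := mem_iUnion₂.1 (htc hs)
    have h1 := hz (Sum.inl ⟨y, hy⟩)
    simp only [Sum.elim_inl] at h1
    have hsy' : |s - y| < ρ / 16 := hsy
    refine ⟨_, fun x z hx hz hxz => h1 x z ?_ ?_ hxz⟩
    · have := abs_add_le (x - s) (s - y)
      rw [sub_add_sub_cancel] at this
      linarith
    · have := abs_add_le (z - s) (s - y)
      rw [sub_add_sub_cancel] at this
      linarith
  have hq1 : ∀ t, ‖q t - c t‖ ≤ ρ1 / 64 := fun t => (hq t).trans (min_le_right _ _)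
  have hcl : ∀ x y, |‖q x - q y‖ - ‖c x - c y‖| ≤ ρ1 / 32 := by
    intro x y
    have h1 := abs_norm_sub_norm_le (q x - q y) (c x - c y)
    have h2 := norm_sub_le (q x - c x) (q y - c y)
    rw [show q x - c x - (q y - c y) = q x - q y - (c x - c y) by ring] at h2
    have := hq1 x
    have := hq1 y
    linarith
  have hnq : ∀ s z, ‖q z - q s‖ < ρ1 / 2 → ∃ (n : ℤ) (e : ℝ), |e| < ρ / 16 ∧ z = s + e + n := by
    intro s z hz
    refine hnear z s ?_
    have := (abs_le.1 (hcl z s)).1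
    linarith
  refine ⟨q, hG, hPL, hJ, fun t => (hq t).trans (min_le_left _ _), ?_, ?_, ?_⟩
  · intro x y hx hy hxy
    refine zone_sign hG.L qa' (hnq 0) (ρ2 := σ) (fun x hx => ?_) s3 x y hx hy hxy
    have h1 := ka x (hx.trans_le s1)
    have := (abs_le.1 (hcl x 0)).2
    linarith
  · intro x y hx hy hxy
    refine zone_sign hG.L qb' (hnq b) (ρ2 := σ) (fun x hx => ?_) s3 x y hx hy hxy
    have h1 := kb x (hx.trans_le s2)
    have := (abs_le.1 (hcl x b)).2
    linarith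
  · intro s hs
    obtain ⟨w, hw⟩ := qm s hs
    exact ⟨w, fun x y hx hy hxy => hw x y (hx.trans_le s3) (hy.trans_le s3) hxy⟩

end Pool.Agent.Y535.PEG
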