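import Pool.Agent.Y535.PEG.Cnr

/-! The sign of the signed distance near a corner and near a double point. -/

set_option autoImplicit false
open Complex Set Topology Metric

namespace Pool.Agent.Y535.PEG

open Pool.Agent.H763R2 Pool.Agent.H763R2.An Pool.Agent.W675.Peg Pool.Agent.TH569.Peg
open Pool.Agent.H763R2.Dm (NoSq floor_const)

variable {q : ℝ → ℂ}

/-- a corner (or a straight point) that is passed once -/
structure Cor (q : ℝ → ℂ) (s0 : ℝ) (e f w : ℂ) (η : ℝ) : Prop where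
  he : 0 < (w * e).re
  hf : 0 < (w * f).re
  hη : 0 < η
  fwd : ∀ s ∈ Icc (0:ℝ) η, q (s0 + s) = q s0 + s * f
  bwd : ∀ s ∈ Icc (0:ℝ) η, q (s0 - s) = q s0 - s * e
  fib : ∀ t, q t = q s0 → ∃ n : ℤ, t = s0 + n

/-- height over the corner curve -/
noncomputable def hN (p w : ℂ) (a b : ℝ) (z : ℂ) : ℝ := (w * (z - p)).im - fc a b (w * (z - p)).re

theorem hN_cont (p w : ℂ) (a b : ℝ) : Continuous (hN p w a b) := by
  unfold hN fc; fun_prop

/-- slope -/
noncomputable def slp (w e : ℂ) : ℝ := (w * e).im / (w * e).re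

theorem slp_mul {w e : ℂ} (h : 0 < (w * e).re) : slp w e * (w * e).re = (w * e).im := by
  unfold slp; field_simp

/-- the curve near the corner -/
theorem Cor.zero {s0 η : ℝ} {e f w : ℂ} (H : Cor q s0 e f w η) {s : ℝ} (hs : |s| ≤ η) :
    hN (q s0) w (slp w e) (slp w f) (q (s0 + s)) = 0 := by
  rw [abs_le] at hs
  rcases le_total 0 s with h | h
  · rw [H.fwd s ⟨h, hs.2⟩]
    unfold hN
    rw [add_sub_cancel_left, show w * (s * f) = s * (w * f) by ring, re_ofReal_mul, im_ofReal_mul,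
      fc_pos (mul_nonneg h H.hf.le)]
    have := slp_mul H.hf
    linear_combination -s * this
  · have e1 := H.bwd (-s) ⟨by linarith, by linarith⟩
    rw [sub_neg_eq_add] at e1
    rw [e1]
    unfold hN
    rw [show q s0 - ((-s : ℝ) : ℂ) * e - q s0 = (s : ℂ) * e by push_cast; ring,
      show w * (s * e) = s * (w * e) by ring, re_ofReal_mul, im_ofReal_mul,
      fc_neg (mul_nonpos_of_nonpos_of_nonneg h H.he.le)]
    have := slp_mul H.he
    linear_combination -s * this

theorem Cor.wne {s0 η : ℝ} {e f w : ℂ} (H : Cor q s0 e f w η) : w ≠ 0 := by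
  rintro rfl
  have := H.he
  simp at this

theorem Cor.sign (L : Loop q) {s0 η : ℝ} {e f w : ℂ} (H : Cor q s0 e f w η) :
    ∃ R > 0, ∃ τ : ℝ, (τ = 1 ∨ τ = -1) ∧ ∀ z, ‖z - q s0‖ < R →
      (0 < hN (q s0) w (slp w e) (slp w f) z → 0 < τ * mgc q z) ∧
      (hN (q s0) w (slp w e) (slp w f) z < 0 → τ * mgc q z < 0) ∧
      (hN (q s0) w (slp w e) (slp w f) z = 0 → mgc q z = 0) := by
  have S := mgc_sg L
  have hM := S.cont
  have hw0 := H.wne
  have hwn : 0 < ‖w‖ := norm_pos_iff.2 hw0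
  obtain ⟨p, hp⟩ : ∃ p, p = q s0 := ⟨_, rfl⟩
  obtain ⟨N, hN'⟩ : ∃ N : ℂ → ℝ, N = hN p w (slp w e) (slp w f) := ⟨_, rfl⟩
  rw [← hp, ← hN']
  have N_eq : ∀ z, N z = (w * (z - p)).im - fc (slp w e) (slp w f) (w * (z - p)).re := fun z => by
    rw [hN']; rfl
  have Nzero : ∀ s, |s| ≤ η → N (q (s0 + s)) = 0 := fun s hs => by
    rw [hN', hp]; exact H.zero hs
  obtain ⟨δ, hδ, hnear⟩ := L.near_fib p H.hη
  -- curve points near the corner
  have near : ∀ t, ‖q t - p‖ < δ → ∃ s, |s| < η ∧ q t = q (s0 + s) := by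
    intro t ht
    obtain ⟨t', ht', htt⟩ := hnear t ht
    obtain ⟨n, rfl⟩ := H.fib t' (by rw [← hp]; exact ht')
    refine ⟨t - (s0 + n), htt, ?_⟩
    have := L.per_int (s0 + (t - (s0 + n))) n
    rw [← this]; congr 1; ring
  obtain ⟨R, hR, R1, R2, R3⟩ : ∃ R > 0, R ≤ δ ∧ R * ‖w‖ ≤ η * (w * e).re ∧
      R * ‖w‖ ≤ η * (w * f).re := by
    have k1 : 0 < η * (w * e).re := mul_pos H.hη H.he
    have k2 : 0 < η * (w * f).re := mul_pos H.hη H.hf
    refine ⟨min δ (min (η * (w * e).re / ‖w‖) (η * (w * f).re / ‖w‖)), by positivity,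
      min_le_left _ _, ?_, ?_⟩
    · have h1 := (min_le_right δ (min (η * (w * e).re / ‖w‖) (η * (w * f).re / ‖w‖))).trans
        (min_le_left _ _)
      rwa [le_div_iff₀ hwn] at h1
    · have h1 := (min_le_right δ (min (η * (w * e).re / ‖w‖) (η * (w * f).re / ‖w‖))).trans
        (min_le_right _ _)
      rwa [le_div_iff₀ hwn] at h1
  have on_of : ∀ z, ‖z - p‖ < R → N z = 0 → z ∈ range q := by
    intro z hz hzN
    rw [N_eq] at hzN
    have hX : |(w * (z - p)).re| < R * ‖w‖ := by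
      refine (abs_re_le_norm _).trans_lt ?_
      rw [norm_mul, mul_comm]
      exact mul_lt_mul_of_pos_right hz hwn
    obtain ⟨X, hXe⟩ : ∃ X, X = (w * (z - p)).re := ⟨_, rfl⟩
    rw [← hXe] at hX hzN
    rw [abs_lt] at hX
    rcases le_total 0 X with h | h
    · refine ⟨s0 + X / (w * f).re, ?_⟩
      rw [H.fwd _ ⟨div_nonneg h H.hf.le, by rw [div_le_iff₀ H.hf]; linarith⟩, ← hp]
      rw [fc_pos h] at hzN
      have e1 : w * (z - p) = ((X / (w * f).re : ℝ) : ℂ) * (w * f) := by
        apply Complex.ext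
        · rw [re_ofReal_mul, ← hXe, div_mul_cancel₀ _ H.hf.ne']
        · rw [im_ofReal_mul]
          have : (w * (z - p)).im = slp w f * X := by linarith
          rw [this]; unfold slp; field_simp [H.hf.ne']
      have e2 : z - p = ((X / (w * f).re : ℝ) : ℂ) * f := by
        apply mul_left_cancel₀ hw0
        rw [e1]; ring
      rw [← e2]; ring
    · refine ⟨s0 - (-X) / (w * e).re, ?_⟩
      rw [H.bwd _ ⟨div_nonneg (by linarith) H.he.le, by rw [div_le_iff₀ H.he]; linarith⟩, ← hp]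
      rw [fc_neg h] at hzN
      have e1 : w * (z - p) = ((X / (w * e).re : ℝ) : ℂ) * (w * e) := by
        apply Complex.ext
        · rw [re_ofReal_mul, ← hXe, div_mul_cancel₀ _ H.he.ne']
        · rw [im_ofReal_mul]
          have : (w * (z - p)).im = slp w e * X := by linarith
          rw [this]; unfold slp; field_simp [H.he.ne']
      have e2 : z - p = ((X / (w * e).re : ℝ) : ℂ) * e := by
        apply mul_left_cancel₀ hw0
        rw [e1]; ring
      rw [show ((-X / (w * e).re : ℝ) : ℂ) = -((X / (w * e).re : ℝ) : ℂ) by push_cast; ring,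
        neg_mul, ← e2]; ring
  have off_of : ∀ z, ‖z - p‖ < R → N z ≠ 0 → mgc q z ≠ 0 := by
    intro z hz hzN h
    obtain ⟨t, rfl⟩ := (S.zero L).1 h
    obtain ⟨s, hs, e1⟩ := near t (hz.trans_le R1)
    rw [e1] at hzN
    exact hzN (Nzero s hs.le)
  -- star shape
  have star : ∀ σ : ℝ, (σ = 1 ∨ σ = -1) → ∀ z, ‖z - p‖ < R → 0 < σ * N z →
      0 < mgc q z * mgc q (p + ((σ * (R * ‖w‖ / 2) : ℝ) : ℂ) * I * w⁻¹) := by
    intro σ hσ z hz hzN
    have hσa : |σ| = 1 := by rcases hσ with h | h <;> rw [h] <;> simp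
    have hσσ : σ * σ = 1 := by rcases hσ with h | h <;> rw [h] <;> norm_num
    have := sign_pre (V := Icc (0:ℝ) 1) isPreconnected_Icc
      (f := fun l : ℝ => mgc q (((1 - l : ℝ) : ℂ) * z +
        (l : ℂ) * (p + ((σ * (R * ‖w‖ / 2) : ℝ) : ℂ) * I * w⁻¹)))
      (by fun_prop) (fun l hl => off_of _ ?_ ?_) (z := 0) (w := 1) (by simp) (by simp)
    · simpa using this
    · have e1 : ((1 - l : ℝ) : ℂ) * z + (l : ℂ) * (p + ((σ * (R * ‖w‖ / 2) : ℝ) : ℂ) * I * w⁻¹) - p =
          ((1 - l : ℝ) : ℂ) * (z - p) + ((l : ℝ) : ℂ) * (((σ * (R * ‖w‖ / 2) : ℝ) : ℂ) * I * w⁻¹) := by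
        push_cast; ring
      rw [e1]
      refine (norm_add_le _ _).trans_lt ?_
      rw [norm_mul, norm_mul (l : ℂ), norm_mul, norm_mul, norm_I, mul_one, norm_real, norm_real,
        norm_real, Real.norm_of_nonneg hl.1, Real.norm_of_nonneg (by linarith [hl.2]),
        Real.norm_eq_abs, abs_mul, hσa, one_mul, abs_of_pos (by positivity), norm_inv]
      have e2 : R * ‖w‖ / 2 * ‖w‖⁻¹ = R / 2 := by field_simp
      rw [e2]
      rcases lt_or_eq_of_le hl.2 with h | h
      · nlinarith [mul_lt_mul_of_pos_left hz (sub_pos.2 h), hl.1]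
      · rw [h]; linarith
    · have e1 : w * (((1 - l : ℝ) : ℂ) * z + (l : ℂ) * (p + ((σ * (R * ‖w‖ / 2) : ℝ) : ℂ) * I * w⁻¹) - p)
          = ((1 - l : ℝ) : ℂ) * (w * (z - p)) + ((l * (σ * (R * ‖w‖ / 2)) : ℝ) : ℂ) * I := by
        push_cast
        field_simp
        ring
      have e2 : σ * N (((1 - l : ℝ) : ℂ) * z + (l : ℂ) * (p + ((σ * (R * ‖w‖ / 2) : ℝ) : ℂ) * I * w⁻¹))
          = (1 - l) * (σ * N z) + l * (R * ‖w‖ / 2) := by
        rw [N_eq, N_eq, e1]
        simp only [add_re, add_im, re_ofReal_mul, im_ofReal_mul, I_re, I_im, mul_zero, mul_one,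
          add_zero]
        rw [fc_mul (by linarith [hl.2])]
        linear_combination l * (R * ‖w‖ / 2) * hσσ
      have e3 : 0 < (1 - l) * (σ * N z) + l * (R * ‖w‖ / 2) := by
        have k : 0 < R * ‖w‖ / 2 := by positivity
        rcases lt_or_eq_of_le hl.1 with h | h
        · have := mul_nonneg (sub_nonneg.2 hl.2) hzN.le
          have := mul_pos h k
          linarith
        · rw [← h]; linarith
      rw [← e2] at e3
      exact right_ne_zero_of_mul e3.ne'
  -- the two sides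
  have hfn : f ≠ 0 := by
    rintro rfl
    have := H.hf
    simp at this
  have hfn' : 0 < ‖f‖ := norm_pos_iff.2 hfn
  obtain ⟨σ1, hσ1, hσ2, hσ3⟩ : ∃ σ1 > 0, σ1 < η ∧ σ1 * ‖f‖ < R / 2 := by
    refine ⟨min (η / 2) (R / (4 * ‖f‖)), by have := H.hη; positivity, ?_, ?_⟩
    · have := min_le_left (η / 2) (R / (4 * ‖f‖))
      linarith [H.hη]
    · have := min_le_right (η / 2) (R / (4 * ‖f‖))
      rw [le_div_iff₀ (by positivity)] at this
      linarith
  have p1e : q (s0 + σ1) = p + σ1 * f := by rw [H.fwd σ1 ⟨hσ1.le, hσ2.le⟩, hp]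
  have fibre : ∀ t, q t = q (s0 + σ1) → ∃ n : ℤ, t = s0 + σ1 + n := by
    intro t ht
    obtain ⟨t', ht', htt⟩ := hnear t (by
      rw [ht, p1e, add_sub_cancel_left, norm_mul, norm_real, Real.norm_of_nonneg hσ1.le]
      linarith)
    obtain ⟨n, rfl⟩ := H.fib t' (by rw [← hp]; exact ht')
    have e1 : q t = q (s0 + (t - (s0 + n))) := by
      have := L.per_int (s0 + (t - (s0 + n))) n
      rw [← this]; congr 1; ring
    obtain ⟨r, hr⟩ : ∃ r, r = t - (s0 + n) := ⟨_, rfl⟩
    rw [← hr] at e1 htt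
    rw [abs_lt] at htt
    rw [ht, p1e] at e1
    rcases le_total 0 r with h | h
    · rw [H.fwd r ⟨h, htt.2.le⟩, ← hp] at e1
      have e2 : ((σ1 : ℝ) : ℂ) * f = (r : ℂ) * f := add_left_cancel e1
      have e3 := mul_right_cancel₀ hfn e2
      have e4 : σ1 = r := by exact_mod_cast e3
      exact ⟨n, by linarith⟩
    · exfalso
      have e5 := H.bwd (-r) ⟨by linarith, by linarith⟩
      rw [sub_neg_eq_add] at e5
      rw [e5, ← hp] at e1
      have e2 : ((σ1 : ℝ) : ℂ) * (w * f) = (r : ℂ) * (w * e) := by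
        have : p + σ1 * f = p + r * e := by rw [e1]; push_cast; ring
        have h3 : ((σ1 : ℝ) : ℂ) * f = (r : ℂ) * e := add_left_cancel this
        linear_combination w * h3
      have e3 := congrArg Complex.re e2
      rw [re_ofReal_mul, re_ofReal_mul] at e3
      have h4 : 0 < σ1 * (w * f).re := mul_pos hσ1 H.hf
      have h5 : r * (w * e).re ≤ 0 := mul_nonpos_of_nonpos_of_nonneg h H.he.le
      linarith
  obtain ⟨R', hR', hodd⟩ := odd_simple L S (t0 := s0 + σ1) (η := min σ1 (η - σ1)) hfn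
    (lt_min hσ1 (by linarith)) (fun s hs => by
      have h1 := abs_le.1 (hs.trans (min_le_left _ _))
      have h2 := abs_le.1 (hs.trans (min_le_right _ _))
      rw [p1e, add_assoc, H.fwd (σ1 + s) ⟨by linarith, by linarith⟩, hp]
      push_cast; ring) fibre
  -- a small normal vector
  obtain ⟨ε, hε, ε1, ε2, ε3⟩ : ∃ ε > 0, ε * ‖f‖ < R' ∧ ε * ‖f‖ < R / 2 ∧
      ε * |(w * f).im| < σ1 * (w * f).re := by
    have k := mul_pos hσ1 H.hf
    refine ⟨min (min (R' / (2 * ‖f‖)) (R / (4 * ‖f‖)))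
      (σ1 * (w * f).re / (2 * (|(w * f).im| + 1))), by positivity, ?_, ?_, ?_⟩
    · have := (min_le_left (min (R' / (2 * ‖f‖)) (R / (4 * ‖f‖)))
        (σ1 * (w * f).re / (2 * (|(w * f).im| + 1)))).trans (min_le_left _ _)
      rw [le_div_iff₀ (by positivity)] at this
      linarith
    · have := (min_le_left (min (R' / (2 * ‖f‖)) (R / (4 * ‖f‖)))
        (σ1 * (w * f).re / (2 * (|(w * f).im| + 1)))).trans (min_le_right _ _)
      rw [le_div_iff₀ (by positivity)] at this
      linarith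
    · have h1 := (min_le_right (min (R' / (2 * ‖f‖)) (R / (4 * ‖f‖)))
        (σ1 * (w * f).re / (2 * (|(w * f).im| + 1))))
      set ε := min (min (R' / (2 * ‖f‖)) (R / (4 * ‖f‖)))
        (σ1 * (w * f).re / (2 * (|(w * f).im| + 1)))
      rw [le_div_iff₀ (by positivity)] at h1
      have h2 : 0 < ε := by positivity
      have h3 := abs_nonneg (w * f).im
      nlinarith
  have hζ : ‖((ε : ℝ) : ℂ) * (I * f)‖ = ε * ‖f‖ := by
    rw [norm_mul, norm_mul, norm_I, one_mul, norm_real, Real.norm_of_nonneg hε.le]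
  have ho := hodd (ε * (I * f)) (by rw [hζ]; exact ε1)
  rw [p1e] at ho
  have hsl := slp_mul H.hf
  have hq2 : 0 < ((w * f).re ^ 2 + (w * f).im ^ 2) / (w * f).re := by
    have := H.hf
    positivity
  have e12 := abs_lt.1 (show |ε * (w * f).im| < σ1 * (w * f).re by
    rw [abs_mul, abs_of_pos hε]; exact ε3)
  have Np : N (p + σ1 * f + ε * (I * f)) = ε * (((w * f).re ^ 2 + (w * f).im ^ 2) / (w * f).re) := by
    rw [N_eq, show w * (p + σ1 * f + ε * (I * f) - p) = (σ1 : ℂ) * (w * f) + (ε : ℂ) * (I * (w * f)) by ring]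
    simp only [add_re, add_im, re_ofReal_mul, im_ofReal_mul, I_mul_re, I_mul_im]
    rw [fc_pos (by linarith)]
    unfold slp
    have := H.hf.ne'
    field_simp
    ring
  have Nm : N (p + σ1 * f - ε * (I * f)) = -(ε * (((w * f).re ^ 2 + (w * f).im ^ 2) / (w * f).re)) := by
    rw [N_eq, show w * (p + σ1 * f - ε * (I * f) - p) = (σ1 : ℂ) * (w * f) - (ε : ℂ) * (I * (w * f)) by ring]
    simp only [sub_re, sub_im, re_ofReal_mul, im_ofReal_mul, I_mul_re, I_mul_im]
    rw [fc_pos (by linarith)]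
    unfold slp
    have := H.hf.ne'
    field_simp
    ring
  have np : ‖p + σ1 * f + ε * (I * f) - p‖ < R := by
    rw [show p + σ1 * f + ε * (I * f) - p = σ1 * f + ε * (I * f) by ring]
    refine (norm_add_le _ _).trans_lt ?_
    rw [hζ, norm_mul, norm_real, Real.norm_of_nonneg hσ1.le]; linarith
  have nm : ‖p + σ1 * f - ε * (I * f) - p‖ < R := by
    rw [show p + σ1 * f - ε * (I * f) - p = σ1 * f - ε * (I * f) by ring]
    refine (norm_sub_le _ _).trans_lt ?_
    rw [hζ, norm_mul, norm_real, Real.norm_of_nonneg hσ1.le]; linarith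
  have hNpos := mul_pos hε hq2
  have A1 := star 1 (Or.inl rfl) _ np (by rw [Np, one_mul]; exact hNpos)
  have A2 := star (-1) (Or.inr rfl) _ nm (by rw [Nm]; linarith)
  -- conclusion
  have hm1 : mgc q (p + σ1 * f + ε * (I * f)) ≠ 0 := off_of _ np (by rw [Np]; exact hNpos.ne')
  rcases lt_or_gt_of_ne hm1 with hneg | hpos
  · refine ⟨R, hR, -1, Or.inr rfl, fun z hz => ⟨fun h => ?_, fun h => ?_, fun h => ?_⟩⟩
    · have B := star 1 (Or.inl rfl) z hz (by linarith)
      have C := pos_tr B (by rw [mul_comm]; exact A1)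
      rw [mul_comm] at C
      have := pos_iff_neg_of_mul_neg_helper hneg C
      linarith
    · have B := star (-1) (Or.inr rfl) z hz (by linarith)
      have C := pos_tr B (by rw [mul_comm]; exact A2)
      have hp' : 0 < mgc q (p + σ1 * f - ε * (I * f)) := by linarith
      have := (mul_pos_iff_of_pos_right hp').1 C
      linarith
    · exact (S.zero L).2 (on_of z hz h)
  · refine ⟨R, hR, 1, Or.inl rfl, fun z hz => ⟨fun h => ?_, fun h => ?_, fun h => ?_⟩⟩
    · have B := star 1 (Or.inl rfl) z hz (by linarith)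
      have C := pos_tr B (by rw [mul_comm]; exact A1)
      have := (mul_pos_iff_of_pos_right hpos).1 C
      linarith
    · have B := star (-1) (Or.inr rfl) z hz (by linarith)
      have C := pos_tr B (by rw [mul_comm]; exact A2)
      have hp' : mgc q (p + σ1 * f - ε * (I * f)) < 0 := by linarith
      rw [mul_comm] at C
      have := pos_iff_neg_of_mul_neg_helper hp' C
      linarith
    · exact (S.zero L).2 (on_of z hz h)

end Pool.Agent.Y535.PEG
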