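import Pool.Agent.Y535.PEG.Cone

/-! The inner side is the same at all points near which all chords lie in a quarter plane. -/

set_option autoImplicit false
open Complex Set Topology Metric

namespace Pool.Agent.Y535.PEG

open Pool.Agent.H763R2 Pool.Agent.H763R2.An Pool.Agent.W675.Peg Pool.Agent.TH569.Peg
open Pool.Agent.H763R2.Dm (NoSq floor_const)

variable {c : ℝ → ℂ}

theorem pos_tr {a b e : ℝ} (h1 : 0 < a * b) (h2 : 0 < b * e) : 0 < a * e := by
  have h3 : 0 < (a * b) * (b * e) := mul_pos h1 h2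
  have h4 : 0 < b ^ 2 * (a * e) := by
    have : (a * b) * (b * e) = b ^ 2 * (a * e) := by ring
    rwa [← this]
  exact (pos_iff_pos_of_mul_pos h4).1 (by
    by_contra hcon
    have : b ^ 2 = 0 := le_antisymm (not_lt.1 hcon) (sq_nonneg b)
    rw [this, zero_mul] at h4
    exact lt_irrefl _ h4)

theorem pos_iff_neg_of_mul_neg_helper {a b : ℝ} (ha : a < 0) (h : 0 < a * b) : b < 0 := by
  by_contra hcon
  push Not at hcon
  have := mul_nonpos_of_nonpos_of_nonneg ha.le hcon
  linarith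

/-- test points on the two sides of a cone point -/
theorem cone_test (L : Loop c) (J : Inj c) {s : ℝ} (h : Cone c s) : ∃ p q : ℂ,
    (∀ n m : ℤ, IsWc c p n → IsWc c q m → n = m + 1) ∧ mgc c p ≠ 0 ∧ mgc c q ≠ 0 ∧
    ∃ ρ > 0, ∀ x y : ℝ, |x - s| < ρ → |y - s| < ρ → x < y →
      0 < mgc c p * mgc c (DD c x y) ∧ 0 < mgc c p * mgc c (CC c x y) ∧
      0 < mgc c q * mgc c (DD c y x) ∧ 0 < mgc c q * mgc c (CC c y x) := by
  have hM := (mgc_sg L).cont
  have nz : ∀ z, z ∉ range c → mgc c z ≠ 0 := fun z h hz => h ((mgc_sg L).zero L |>.1 hz)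
  have nC : ∀ y : ℂ, mgc c y ≠ 0 → y ∉ range c := fun y h hy => h ((mgc_sg L).zero L |>.2 hy)
  obtain ⟨ρ3, hρ3, hsign⟩ := cone_sign L J h
  obtain ⟨ρ0, hρ0, w, hw⟩ := h
  have hw0 : w ≠ 0 := by
    rintro rfl
    have := hw s (s + ρ0 / 2) (by simp; exact hρ0) (by
      rw [add_sub_cancel_left, abs_of_pos (by positivity)]; linarith) (by linarith)
    simp at this
  have hwn : 0 < ‖w‖ := norm_pos_iff.2 hw0
  obtain ⟨ρ1, hρ1, hnear⟩ := near_par L J hρ0
  obtain ⟨ρ2, hρ2, hcont⟩ := Metric.continuous_iff.1 L.cont s (ρ1 / 8) (by positivity)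
  simp only [dist_eq_norm] at hcont
  have gen : ∀ x z : ℝ, |x - s| < ρ0 → |z - s| < ρ0 →
      |(w * (c z - c x)).im| ≤ |(w * (c z - c x)).re| := by
    intro x z hx hz
    rcases lt_trichotomy x z with h | h | h
    · exact (hw x z hx hz h).le.trans (le_abs_self _)
    · rw [h]; simp
    · have := (hw z x hz hx h).le.trans (le_abs_self _)
      rw [show w * (c z - c x) = -(w * (c x - c z)) by ring, neg_im, neg_re, abs_neg, abs_neg]
      exact this
  have hss : |s - s| < ρ0 := by rw [sub_self, abs_zero]; exact hρ0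
  -- points in the upper or lower quarter plane near `c s` are not on the curve
  have off : ∀ z : ℂ, ‖z - c s‖ < ρ1 → |(w * (z - c s)).re| < |(w * (z - c s)).im| →
      z ∉ range c := by
    rintro _ h1 h2 ⟨z, rfl⟩
    obtain ⟨n, e, he, hs⟩ := hnear z s h1
    have e1 : c z = c (s + e) := by rw [hs, L.per_int]
    rw [e1] at h2
    exact absurd (gen s (s + e) hss (by rw [add_sub_cancel_left]; exact he)) (not_le.2 h2)
  -- the crossing
  obtain ⟨η, hη, hη1, hη2⟩ : ∃ η > 0, η < ρ0 ∧ η < 1 / 2 :=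
    ⟨min (ρ0 / 2) (1 / 4), by positivity, by linarith [min_le_left (ρ0 / 2) (1 / 4)],
      lt_of_le_of_lt (min_le_right _ _) (by norm_num)⟩
  obtain ⟨ρ4, hρ4, hnear4⟩ := near_par L J hη
  obtain ⟨δ, hδ, hδ1, hδ2⟩ : ∃ δ > 0, δ < ‖w‖ * ρ4 ∧ δ < ‖w‖ * ρ1 := by
    refine ⟨min (‖w‖ * ρ4) (‖w‖ * ρ1) / 2, by positivity, ?_, ?_⟩
    · have := min_le_left (‖w‖ * ρ4) (‖w‖ * ρ1)
      have h3 : 0 < ‖w‖ * ρ4 := by positivity
      linarith
    · have := min_le_right (‖w‖ * ρ4) (‖w‖ * ρ1)
      have h3 : 0 < ‖w‖ * ρ1 := by positivity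
      linarith
  have dn : ‖(δ : ℂ) * I * w⁻¹‖ < ρ1 := by
    rw [norm_mul, norm_mul, norm_I, mul_one, norm_real, Real.norm_of_nonneg hδ.le, norm_inv,
      ← div_eq_mul_inv, div_lt_iff₀ hwn]
    linarith
  have wp : w * (c s + δ * I * w⁻¹ - c s) = δ * I := by
    rw [add_sub_cancel_left]; field_simp
  have wq : w * (c s - δ * I * w⁻¹ - c s) = -(δ * I) := by
    rw [sub_sub_cancel_left]; field_simp
  refine ⟨c s + δ * I * w⁻¹, c s - δ * I * w⁻¹, fun n m hn hm => ?_, ?_, ?_, min ρ3 (min ρ0 ρ2),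
    by positivity, ?_⟩
  · have hn' := wc_shift L hn s
    have hm' := wc_shift L hm s
    refine cross (c := fun t => c (t + s)) (p := c s) (e := w⁻¹) (inv_ne_zero hw0) hδ hη hη2
      (L.shift s) (by simp) hn' hm' (fun t ht => ?_) (fun t ht => ?_) (fun t ht => ?_)
    · have := ge_of_far L J hη2 hη hnear4 (s := t + s) (t := s) (by linarith [ht.1])
        (by linarith [ht.2])
      rw [div_inv_eq_mul, norm_mul, mul_comm]
      exact hδ1.trans_le (mul_le_mul_of_nonneg_left this hwn.le)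
    · have := hw s (t + s) hss (by rw [add_sub_cancel_right, abs_of_pos ht.1]; linarith [ht.2])
        (by linarith [ht.1])
      rw [div_inv_eq_mul, mul_comm]
      exact lt_of_le_of_lt (abs_nonneg _) this
    · have := hw (t + s) s (by rw [add_sub_cancel_right, abs_of_neg ht.2]; linarith [ht.1]) hss
        (by linarith [ht.2])
      rw [div_inv_eq_mul, mul_comm]
      have h5 := lt_of_le_of_lt (abs_nonneg _) this
      rw [show w * (c (t + s) - c s) = -(w * (c s - c (t + s))) by ring, neg_re]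
      linarith
  · refine nz _ (off _ (by rw [add_sub_cancel_left]; exact dn) ?_)
    rw [wp]
    simp
    exact hδ.ne'
  · refine nz _ (off _ (by rw [sub_sub_cancel_left, norm_neg]; exact dn) ?_)
    rw [wq]
    simp
    exact hδ.ne'
  · -- the signs
    intro x y hx hy hxy
    obtain ⟨hx3, hx⟩ := lt_min_iff.1 hx
    obtain ⟨hy3, hy⟩ := lt_min_iff.1 hy
    obtain ⟨hx0, hx2⟩ := lt_min_iff.1 hx
    obtain ⟨hy0, hy2⟩ := lt_min_iff.1 hy
    -- a reference pair
    set κ := min ρ3 (min ρ0 ρ2) with hκ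
    have hκ0 : 0 < κ := by positivity
    have hκ3 : κ ≤ ρ3 := min_le_left _ _
    have hκ1 : κ ≤ ρ0 := (min_le_right _ _).trans (min_le_left _ _)
    have hκ2 : κ ≤ ρ2 := (min_le_right _ _).trans (min_le_right _ _)
    have hyy : |s + κ / 2 - s| < κ := by
      rw [add_sub_cancel_left, abs_of_pos (by positivity)]; linarith
    have hsκ : |s - s| < κ := by rw [sub_self, abs_zero]; exact hκ0
    have mem1 : ((s, s + κ / 2) : ℝ × ℝ) ∈ Tri s κ := ⟨hsκ, hyy, by simp only; linarith⟩
    have mem2 : ((x, y) : ℝ × ℝ) ∈ Tri s κ :=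
      ⟨lt_min hx3 (lt_min hx0 hx2), lt_min hy3 (lt_min hy0 hy2), hxy⟩
    have cD := L.DD_cont
    have cC := L.CC_cont
    have cC' : Continuous fun p : ℝ × ℝ => CC c p.2 p.1 := L.CC_cont.comp (by fun_prop :
      Continuous fun p : ℝ × ℝ => ((p.2, p.1) : ℝ × ℝ))
    have t1 := sign_pre (Tri_pre s κ) (f := fun p => mgc c (DD c p.1 p.2))
      (hM.comp cD).continuousOn (fun p hp => by
        have := (hsign p.1 p.2 (hp.1.trans_le hκ3) (hp.2.1.trans_le hκ3) hp.2.2).1
        exact left_ne_zero_of_mul this.ne') mem1 mem2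
    have t2 := sign_pre (Tri_pre s κ) (f := fun p => mgc c (CC c p.2 p.1))
      (hM.comp cC').continuousOn (fun p hp => by
        have := (hsign p.1 p.2 (hp.1.trans_le hκ3) (hp.2.1.trans_le hκ3) hp.2.2).2
        exact right_ne_zero_of_mul this.ne') mem1 mem2
    simp only at t1 t2
    have s1 := hsign x y hx3 hy3 hxy
    -- the reference chord
    set y1 := s + κ / 2 with hy1
    have hsy := hw s y1 hss (hyy.trans_le hκ1) (by rw [hy1]; linarith)
    have nsy := hcont y1 (hyy.trans_le hκ2)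
    set ch := c y1 - c s with hch
    have hI : ‖I * ch‖ = ‖ch‖ := by rw [norm_mul, norm_I, one_mul]
    have u1 : 0 < mgc c (c s + δ * I * w⁻¹) * mgc c (DD c s y1) := by
      have := sign_pre (V := Icc (0:ℝ) 1) isPreconnected_Icc
        (f := fun l : ℝ => mgc c (c s + ((1 - l : ℝ) : ℂ) * (δ * I * w⁻¹) + (l : ℂ) * (I * ch)))
        (by fun_prop) (fun l hl => nz _ (off _ ?_ ?_)) (z := 0) (w := 1) (by simp) (by simp)
      · rw [DD_eq]
        simpa using this
      · rw [show c s + ((1 - l : ℝ) : ℂ) * (δ * I * w⁻¹) + (l : ℂ) * (I * ch) - c s =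
          ((1 - l : ℝ) : ℂ) * (δ * I * w⁻¹) + (l : ℂ) * (I * ch) by ring]
        refine (norm_add_le _ _).trans_lt ?_
        rw [norm_mul, norm_mul (l : ℂ), norm_real, norm_real, Real.norm_of_nonneg hl.1,
          Real.norm_of_nonneg (by linarith [hl.2]), hI]
        rcases lt_or_eq_of_le hl.1 with h | h
        · nlinarith [mul_le_mul_of_nonneg_left dn.le (sub_nonneg.2 hl.2),
            mul_lt_mul_of_pos_left (show ‖ch‖ < ρ1 by linarith) h]
        · rw [← h]; simp only [sub_zero, one_mul, zero_mul, add_zero]; exact dn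
      · have e1 : w * (c s + ((1 - l : ℝ) : ℂ) * (δ * I * w⁻¹) + (l : ℂ) * (I * ch) - c s) =
            (((1 - l) * δ : ℝ) : ℂ) * I + (l : ℂ) * (I * (w * ch)) := by
          push_cast
          field_simp
          ring
        rw [e1]
        simp only [add_re, add_im, mul_re, mul_im, ofReal_re, ofReal_im, I_re, I_im, mul_zero,
          zero_mul, mul_one, one_mul, zero_add, add_zero, sub_zero, zero_sub]
        simp only [mul_re, mul_im] at hsy
        rw [show (l * -(w.re * ch.im + w.im * ch.re)) = -(l * (w.re * ch.im + w.im * ch.re)) by ring,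
          abs_neg, abs_mul, abs_of_nonneg hl.1]
        have p1 : 0 ≤ (1 - l) * δ := mul_nonneg (by linarith [hl.2]) hδ.le
        have p2 := lt_of_le_of_lt (abs_nonneg _) hsy
        have p3 : 0 ≤ l * (w.re * ch.re - w.im * ch.im) := mul_nonneg hl.1 p2.le
        rw [abs_of_nonneg (show 0 ≤ (1 - l) * δ + l * (w.re * ch.re - w.im * ch.im) by linarith)]
        rcases lt_or_eq_of_le hl.1 with h | h
        · have := mul_lt_mul_of_pos_left hsy h
          linarith
        · rw [← h]; simp; exact hδ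
    have u2 : 0 < mgc c (c s - δ * I * w⁻¹) * mgc c (CC c y1 s) := by
      have := sign_pre (V := Icc (0:ℝ) 1) isPreconnected_Icc
        (f := fun l : ℝ => mgc c (c s - ((1 - l : ℝ) : ℂ) * (δ * I * w⁻¹) - (l : ℂ) * (I * ch)))
        (by fun_prop) (fun l hl => nz _ (off _ ?_ ?_)) (z := 0) (w := 1) (by simp) (by simp)
      · rw [CC_eq, show c s + I * (c s - c y1) = c s - I * ch by rw [hch]; ring]
        simpa using this
      · rw [show c s - ((1 - l : ℝ) : ℂ) * (δ * I * w⁻¹) - (l : ℂ) * (I * ch) - c s =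
          -(((1 - l : ℝ) : ℂ) * (δ * I * w⁻¹) + (l : ℂ) * (I * ch)) by ring, norm_neg]
        refine (norm_add_le _ _).trans_lt ?_
        rw [norm_mul, norm_mul (l : ℂ), norm_real, norm_real, Real.norm_of_nonneg hl.1,
          Real.norm_of_nonneg (by linarith [hl.2]), hI]
        rcases lt_or_eq_of_le hl.1 with h | h
        · nlinarith [mul_le_mul_of_nonneg_left dn.le (sub_nonneg.2 hl.2),
            mul_lt_mul_of_pos_left (show ‖ch‖ < ρ1 by linarith) h]
        · rw [← h]; simp only [sub_zero, one_mul, zero_mul, add_zero]; exact dn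
      · have e1 : w * (c s - ((1 - l : ℝ) : ℂ) * (δ * I * w⁻¹) - (l : ℂ) * (I * ch) - c s) =
            -((((1 - l) * δ : ℝ) : ℂ) * I + (l : ℂ) * (I * (w * ch))) := by
          push_cast
          field_simp
          ring
        rw [e1]
        simp only [neg_re, neg_im, abs_neg, add_re, add_im, mul_re, mul_im, ofReal_re, ofReal_im,
          I_re, I_im, mul_zero, zero_mul, mul_one, one_mul, zero_add, add_zero, sub_zero, zero_sub]
        simp only [mul_re, mul_im] at hsy
        rw [show (l * -(w.re * ch.im + w.im * ch.re)) = -(l * (w.re * ch.im + w.im * ch.re)) by ring,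
          abs_neg, abs_mul, abs_of_nonneg hl.1]
        have p1 : 0 ≤ (1 - l) * δ := mul_nonneg (by linarith [hl.2]) hδ.le
        have p2 := lt_of_le_of_lt (abs_nonneg _) hsy
        have p3 : 0 ≤ l * (w.re * ch.re - w.im * ch.im) := mul_nonneg hl.1 p2.le
        rw [abs_of_nonneg (show 0 ≤ (1 - l) * δ + l * (w.re * ch.re - w.im * ch.im) by linarith)]
        rcases lt_or_eq_of_le hl.1 with h | h
        · have := mul_lt_mul_of_pos_left hsy h
          linarith
        · rw [← h]; simp; exact hδ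
    have v1 := pos_tr u1 t1
    have v2 := pos_tr u2 t2
    exact ⟨v1, pos_tr v1 s1.1, pos_tr v2 (by rw [mul_comm]; exact s1.2), v2⟩

/-- the side of the curve on which the interior lies, at all cone points -/
theorem cone_side (L : Loop c) (J : Inj c) {z0 : ℂ} (h0 : 0 < mgc c z0) :
    ∃ g : ℝ, (g = 1 ∨ g = -1) ∧ ∀ s, Cone c s → ∃ ρ > 0, ∀ x y : ℝ,
      |x - s| < ρ → |y - s| < ρ → x < y →
      0 < g * mgc c (DD c x y) ∧ 0 < g * mgc c (CC c x y) ∧
      g * mgc c (DD c y x) < 0 ∧ g * mgc c (CC c y x) < 0 := by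
  obtain ⟨n0, ho, hw⟩ := wind_vals L J h0
  have nC : ∀ y : ℂ, mgc c y ≠ 0 → y ∉ range c := fun y h hy => h ((mgc_sg L).zero L |>.2 hy)
  refine ⟨if n0 = 1 then 1 else -1, by split_ifs <;> simp, fun s hs => ?_⟩
  obtain ⟨p, q, hpq, hp, hq, ρ, hρ, hsg⟩ := cone_test L J hs
  obtain ⟨n, hn⟩ := L.exW (nC _ hp)
  obtain ⟨m, hm⟩ := L.exW (nC _ hq)
  have e := hpq n m hn hm
  have P := hw p (nC _ hp) n hn
  have Q := hw q (nC _ hq) m hm
  have n00 : n0 ≠ 0 := by
    rintro rfl
    exact absurd ho (by decide)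
  have fin : (n0 = 1 ∧ 0 < mgc c p ∧ mgc c q < 0) ∨ (n0 ≠ 1 ∧ mgc c p < 0 ∧ 0 < mgc c q) := by
    rcases lt_or_gt_of_ne hp with h1 | h1 <;> rcases lt_or_gt_of_ne hq with h2 | h2
    · have := P.2 h1; have := Q.2 h2; omega
    · have a1 := P.2 h1; have a2 := Q.1 h2
      exact Or.inr ⟨by omega, h1, h2⟩
    · have a1 := P.1 h1; have a2 := Q.2 h2
      exact Or.inl ⟨by omega, h1, h2⟩
    · have := P.1 h1; have := Q.1 h2; omega
  refine ⟨ρ, hρ, fun x y hx hy hxy => ?_⟩
  obtain ⟨s1, s2, s3, s4⟩ := hsg x y hx hy hxy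
  rcases fin with ⟨f1, f2, f3⟩ | ⟨f1, f2, f3⟩
  · rw [if_pos f1]
    simp only [one_mul]
    exact ⟨(mul_pos_iff_of_pos_left f2).1 s1, (mul_pos_iff_of_pos_left f2).1 s2,
      (pos_iff_neg_of_mul_neg_helper f3 s3), (pos_iff_neg_of_mul_neg_helper f3 s4)⟩
  · rw [if_neg f1]
    have g1 := pos_iff_neg_of_mul_neg_helper f2 s1
    have g2 := pos_iff_neg_of_mul_neg_helper f2 s2
    have g3 := (mul_pos_iff_of_pos_left f3).1 s3
    have g4 := (mul_pos_iff_of_pos_left f3).1 s4
    refine ⟨by linarith, by linarith, by linarith, by linarith⟩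

end Pool.Agent.Y535.PEG
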