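import Pool.Agent.Y535.PEG.Loc

/-! The signed distance of a Jordan curve near an arc that is mapped into the curve by a direct
similarity: the equality. -/

set_option autoImplicit false
open Complex Set Topology Metric

namespace Pool.Agent.Y535.PEG

open Pool.Agent.H763R2 Pool.Agent.H763R2.An Pool.Agent.W675.Peg Pool.Agent.TH569.Peg
open Pool.Agent.H763R2.Dm (NoSq floor_const)

variable {c : ℝ → ℂ}

/-- points of the curve that are close have close parameters -/
theorem near_par (L : Loop c) (J : Inj c) {δ : ℝ} (hδ : 0 < δ) :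
    ∃ ρ > 0, ∀ s t, ‖c s - c t‖ < ρ → ∃ (n : ℤ) (e : ℝ), |e| < δ ∧ s = t + e + n := by
  have hc := L.cont
  rcases lt_or_ge (1 / 2) δ with hδ2 | hδ2
  · refine ⟨1, one_pos, fun s t _ => ⟨⌊s - t + 1 / 2⌋, s - t - ⌊s - t + 1 / 2⌋, ?_, by ring⟩⟩
    have h1 := Int.floor_le (s - t + 1 / 2)
    have h2 := Int.lt_floor_add_one (s - t + 1 / 2)
    rw [abs_lt]
    constructor <;> linarith
  · have hK : IsCompact (Icc (0:ℝ) 1 ×ˢ Icc δ (1 - δ)) := isCompact_Icc.prod isCompact_Icc
    obtain ⟨p, hp, hmin⟩ := hK.exists_isMinOn ⟨(0, δ), by constructor <;> constructor <;> simp <;> linarith⟩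
      (f := fun p : ℝ × ℝ => ‖c (p.1 + p.2) - c p.1‖) (by fun_prop)
    refine ⟨‖c (p.1 + p.2) - c p.1‖, norm_pos_iff.2 (sub_ne_zero.2 ?_), fun s t h => ?_⟩
    · exact (J _ _ (by linarith [hp.2.1]) (by linarith [hp.2.2])).symm
    · set d := Int.fract (s - t) with hd
      have d0 : 0 ≤ d := Int.fract_nonneg _
      have d1 : d < 1 := Int.fract_lt_one _
      have e1 : s = t + d + ⌊s - t⌋ := by rw [hd]; unfold Int.fract; ring
      have e2 : c s = c (Int.fract t + d) := by
        have : s = Int.fract t + d + ((⌊t⌋ + ⌊s - t⌋ : ℤ) : ℝ) := by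
          rw [e1]; push_cast; unfold Int.fract; simp only [hd]; unfold Int.fract; ring_nf
        rw [this, L.per_int]
      have e3 : c t = c (Int.fract t) := by
        have := L.per_int (Int.fract t) ⌊t⌋
        rwa [Int.fract_add_floor] at this
      by_cases hda : d < δ
      · exact ⟨⌊s - t⌋, d, by rw [abs_of_nonneg d0]; exact hda, e1⟩
      · by_cases hdb : 1 - δ < d
        · refine ⟨⌊s - t⌋ + 1, d - 1, ?_, by push_cast; linarith⟩
          rw [abs_of_neg (by linarith)]; linarith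
        · exfalso
          push Not at hda hdb
          have hm := hmin (a := (Int.fract t, d)) ⟨⟨Int.fract_nonneg t, (Int.fract_lt_one t).le⟩,
            ⟨hda, hdb⟩⟩
          simp only at hm
          rw [e2, e3] at h
          exact absurd h (not_lt.2 hm)

theorem ge_of_far (L : Loop c) (J : Inj c) {δ ρ : ℝ} (hδ2 : δ < 1 / 2) (hδ : 0 < δ)
    (h : ∀ s t, ‖c s - c t‖ < ρ → ∃ (n : ℤ) (e : ℝ), |e| < δ ∧ s = t + e + n) {s t : ℝ}
    (h1 : t + δ ≤ s) (h2 : s ≤ t + 1 - δ) : ρ ≤ ‖c s - c t‖ := by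
  by_contra hcon
  push Not at hcon
  obtain ⟨n, e, he, hs⟩ := h s t hcon
  rw [abs_lt] at he
  have h3 : (0:ℝ) < n := by linarith
  have h4 : (n:ℝ) < 1 := by linarith
  have h5 : 0 < n := by exact_mod_cast h3
  have h6 : n < 1 := by exact_mod_cast h4
  omega

/-- points of both signs near every point of the curve -/
theorem both_near (L : Loop c) (J : Inj c) {z0 : ℂ} (h0 : 0 < mgc c z0) (t : ℝ) {r : ℝ}
    (hr : 0 < r) : (∃ z, ‖z - c t‖ < r ∧ 0 < mgc c z) ∧ (∃ z, ‖z - c t‖ < r ∧ mgc c z < 0) := by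
  have nz : ∀ z, mgc c z ≠ 0 → z ∉ range c := fun z h hz => h ((mgc_sg L).zero L |>.2 hz)
  have hz0 : z0 ∉ range c := nz z0 h0.ne'
  set D := connectedComponentIn (range c)ᶜ z0 with hD
  have hDo : IsOpen D := L.closed.isOpen_compl.connectedComponentIn
  have hzD : z0 ∈ D := mem_connectedComponentIn hz0
  have hDc : IsConnected D := ⟨⟨z0, hzD⟩, isPreconnected_connectedComponentIn⟩
  have hDb : Bornology.IsBounded D := (ins_of_pos L h0).2
  have hdis : Disjoint D (range c) := by
    rw [Set.disjoint_left]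
    intro z hz
    exact connectedComponentIn_subset _ _ hz
  have hfr : frontier D ⊆ range c := frontier_component_subset L.closed z0
  have hfr2 := Pool.Agent.W675.SqG.frontier_all L J hDo hDc.nonempty hDb hdis hfr
  have hrc := range_cir L
  have posD : ∀ z ∈ D, 0 < mgc c z := by
    intro z hz
    have hne : ∀ w ∈ D, mgc c w ≠ 0 := fun w hw h1 =>
      (connectedComponentIn_subset _ _ hw) ((mgc_sg L).zero L |>.1 h1)
    by_contra hneg
    push Not at hneg
    obtain ⟨w, hw, hw0⟩ := hDc.isPreconnected.intermediate_value hz hzD (mgc_sg L).cont.continuousOn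
      (show (0:ℝ) ∈ Icc (mgc c z) (mgc c z0) from ⟨hneg, h0.le⟩)
    exact hne w hw hw0
  have Dpos : ∀ z, 0 < mgc c z → z ∈ D := by
    intro z hz
    have h1 := Pool.Agent.Helper265.Br.jordan_one (cir_cont L) (cir_inj L J) (a := z0) (b := z)
      (by rw [hrc]; exact hz0) (by rw [hrc]; exact nz z hz.ne') (by rw [hrc]; exact hDb)
      (by rw [hrc]; exact (ins_of_pos L hz).2)
    rwa [hrc] at h1
  have hcl : c t ∈ closure D := by
    have : c t ∈ frontier D := by rw [hfr2]; exact mem_range_self t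
    exact frontier_subset_closure this
  obtain ⟨-, -, h3⟩ := Pool.Agent.Helper265.Br.jordan_facts (cir_cont L) (cir_inj L J) hDo hDc hDb
    (by rw [hrc]; exact hfr2)
  have hct : c t ∉ D := fun h => Set.disjoint_left.1 hdis h (mem_range_self t)
  have h4 := h3 hct
  constructor
  · obtain ⟨z, hz, hd⟩ := Metric.mem_closure_iff.1 hcl r hr
    exact ⟨z, by rw [dist_comm, dist_eq_norm] at hd; exact hd, posD z hz⟩
  · obtain ⟨z, hz, hd⟩ := Metric.mem_closure_iff.1 h4 r hr
    refine ⟨z, by rw [dist_comm, dist_eq_norm] at hd; exact hd, ?_⟩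
    have hzC : z ∉ range c := by
      rw [← hfr2]
      intro h
      exact hz (frontier_subset_closure h)
    have hne : mgc c z ≠ 0 := fun h => hzC ((mgc_sg L).zero L |>.1 h)
    rcases lt_or_gt_of_ne hne with h | h
    · exact h
    · exact absurd (subset_closure (Dpos z h)) hz

/-- the signed distance near an arc that is mapped by a direct similarity -/
theorem loc_eq (L : Loop c) (J : Inj c) {z0 : ℂ} (h0 : 0 < mgc c z0) {a b δ τ : ℝ} (hδ : 0 < δ)
    {u v : ℂ} (hu : u ≠ 0) (hT : ∀ s ∈ Icc (a - δ) (b + δ), c (s + τ) = u * c s + v) :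
    ∃ r > 0, ∀ t ∈ Icc a b, ∀ z, ‖z - c t‖ < r → mgc c (u * z + v) = ‖u‖ * mgc c z := by
  obtain ⟨δ', hδ', hδ'1, hδ'2⟩ : ∃ δ' > 0, δ' ≤ δ ∧ δ' < 1 / 2 :=
    ⟨min δ (1 / 4), by positivity, min_le_left _ _, lt_of_le_of_lt (min_le_right _ _) (by norm_num)⟩
  obtain ⟨ρ, hρ, hnear⟩ := near_par L J hδ'
  obtain ⟨n0, ho, hw⟩ := wind_vals L J h0
  have hu0 : 0 < ‖u‖ := norm_pos_iff.2 hu
  have n00 : n0 ≠ 0 := by
    rintro rfl
    exact absurd ho (by decide)
  obtain ⟨r, hr, hr1, hr2⟩ : ∃ r > 0, 3 * r < ρ ∧ 3 * (‖u‖ * r) < ρ := by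
    refine ⟨ρ / (4 * (1 + ‖u‖)), by positivity, ?_, ?_⟩
    · rw [show 3 * (ρ / (4 * (1 + ‖u‖))) = ρ * (3 / (4 * (1 + ‖u‖))) by ring]
      have : 3 / (4 * (1 + ‖u‖)) < 1 := by rw [div_lt_one (by positivity)]; linarith
      nlinarith
    · rw [show 3 * (‖u‖ * (ρ / (4 * (1 + ‖u‖)))) = ρ * (3 * ‖u‖ / (4 * (1 + ‖u‖))) by ring]
      have : 3 * ‖u‖ / (4 * (1 + ‖u‖)) < 1 := by rw [div_lt_one (by positivity)]; linarith
      nlinarith
  refine ⟨r, hr, fun t ht z hz => ?_⟩
  have hTt : ∀ e : ℝ, |e| ≤ δ' → c (t + e + τ) = u * c (t + e) + v := fun e he => by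
    rw [abs_le] at he
    exact hT _ ⟨by linarith [ht.1], by linarith [ht.2]⟩
  have hTt0 : c (t + τ) = u * c t + v := by
    have := hTt 0 (by simp; linarith)
    simpa using this
  have hzT : ∀ y : ℂ, ‖u * y + v - c (t + τ)‖ = ‖u‖ * ‖y - c t‖ := fun y => by
    rw [hTt0, show u * y + v - (u * c t + v) = u * (y - c t) by ring, norm_mul]
  have dd : ∀ y w : ℂ, ‖u * y + v - (u * w + v)‖ = ‖u‖ * ‖y - w‖ := fun y w => by
    rw [show u * y + v - (u * w + v) = u * (y - w) by ring, norm_mul]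
  -- distances
  have hdist : ∀ y : ℂ, ‖y - c t‖ < r →
      infDist (u * y + v) (range c) = ‖u‖ * infDist y (range c) := by
    intro y hy
    apply le_antisymm
    · have h1 : infDist (u * y + v) (range c) / ‖u‖ ≤ infDist y (range c) := by
        refine le_of_forall_gt fun d hd => ?_
        have h2 : infDist y (range c) < r := by
          refine lt_of_le_of_lt (infDist_le_dist_of_mem (mem_range_self t)) ?_
          rw [dist_eq_norm]; exact hy
        obtain ⟨w, ⟨s, rfl⟩, hwd⟩ := (infDist_lt_iff L.ne).1 (lt_min hd h2)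
        obtain ⟨w1, w2⟩ := lt_min_iff.1 hwd
        rw [dist_eq_norm] at w1 w2
        have h3 : ‖c s - c t‖ < ρ := by
          have := norm_add_le (c s - y) (y - c t)
          rw [sub_add_sub_cancel, norm_sub_rev (c s) y] at this
          linarith
        obtain ⟨n, e, he, hs⟩ := hnear s t h3
        have h4 : c s = c (t + e) := by rw [hs, L.per_int]
        have h5 := hTt e he.le
        rw [div_lt_iff₀ hu0]
        refine lt_of_le_of_lt (infDist_le_dist_of_mem (mem_range_self (t + e + τ))) ?_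
        rw [dist_eq_norm, h5, dd, ← h4, mul_comm]
        exact mul_lt_mul_of_pos_right w1 hu0
      rw [div_le_iff₀ hu0] at h1
      linarith
    · refine le_of_forall_gt fun d hd => ?_
      have h2 : infDist (u * y + v) (range c) < ‖u‖ * r := by
        refine lt_of_le_of_lt (infDist_le_dist_of_mem (mem_range_self (t + τ))) ?_
        rw [dist_eq_norm, hzT]
        exact mul_lt_mul_of_pos_left hy hu0
      obtain ⟨w, ⟨s, rfl⟩, hwd⟩ := (infDist_lt_iff L.ne).1 (lt_min hd h2)
      obtain ⟨w1, w2⟩ := lt_min_iff.1 hwd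
      rw [dist_eq_norm] at w1 w2
      have h3 : ‖c s - c (t + τ)‖ < ρ := by
        have := norm_add_le (c s - (u * y + v)) (u * y + v - c (t + τ))
        rw [sub_add_sub_cancel, norm_sub_rev (c s) (u * y + v), hzT] at this
        have h7 : ‖u‖ * ‖y - c t‖ ≤ ‖u‖ * r := mul_le_mul_of_nonneg_left hy.le hu0.le
        have h8 : 0 < ‖u‖ * r := mul_pos hu0 hr
        linarith
      obtain ⟨n, e, he, hs⟩ := hnear s (t + τ) h3
      have h4 : c s = c (t + e + τ) := by
        rw [hs, show t + τ + e + n = t + e + τ + n by ring, L.per_int]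
      rw [h4, hTt e he.le, dd] at w1
      refine lt_of_le_of_lt ?_ w1
      refine mul_le_mul_of_nonneg_left ?_ hu0.le
      have := infDist_le_dist_of_mem (x := y) (mem_range_self (f := c) (t + e))
      rwa [dist_eq_norm] at this
  have habs : ∀ y : ℂ, ‖y - c t‖ < r → |mgc c (u * y + v)| = ‖u‖ * |mgc c y| := fun y hy => by
    rw [mgc_abs, mgc_abs, hdist y hy]
  have nC : ∀ y : ℂ, mgc c y ≠ 0 → y ∉ range c := fun y h hy => h ((mgc_sg L).zero L |>.2 hy)
  -- differences of winding numbers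
  have hdiff : ∀ y y' : ℂ, ‖y - c t‖ < r → ‖y' - c t‖ < r → mgc c y ≠ 0 → mgc c y' ≠ 0 →
      ∃ n n' m m' : ℤ, IsWc c y n ∧ IsWc c y' n' ∧ IsWc c (u * y + v) m ∧
        IsWc c (u * y' + v) m' ∧ n - n' = m - m' := by
    intro y y' hy hy' hn hn'
    have hT1 : mgc c (u * y + v) ≠ 0 := fun h => by
      have := habs y hy
      rw [h, abs_zero] at this
      have h2 : 0 < ‖u‖ * |mgc c y| := mul_pos hu0 (abs_pos.2 hn)
      linarith
    have hT2 : mgc c (u * y' + v) ≠ 0 := fun h => by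
      have := habs y' hy'
      rw [h, abs_zero] at this
      have h2 : 0 < ‖u‖ * |mgc c y'| := mul_pos hu0 (abs_pos.2 hn')
      linarith
    obtain ⟨n, hn1⟩ := L.exW (nC _ hn)
    obtain ⟨n', hn1'⟩ := L.exW (nC _ hn')
    obtain ⟨m, hm1⟩ := L.exW (nC _ hT1)
    obtain ⟨m', hm1'⟩ := L.exW (nC _ hT2)
    refine ⟨n, n', m, m', hn1, hn1', hm1, hm1', ?_⟩
    refine loc_wind L (t := t) (τ := τ) hδ' hδ'2 hu (v := v) (fun s hs => ?_) (z := y) (z' := y')
      (fun s hs => ?_) (fun s hs => ?_) hn1 hn1' hm1 hm1'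
    · have := hTt (s - t) (by rw [abs_le]; constructor <;> linarith [hs.1, hs.2])
      rwa [show t + (s - t) = s by ring] at this
    · have g := ge_of_far L J hδ'2 hδ' hnear hs.1 hs.2
      have a1 := norm_add_le (y - c t) (c t - y')
      rw [sub_add_sub_cancel, norm_sub_rev (c t)] at a1
      have a2 := norm_add_le (c s - y') (y' - c t)
      rw [sub_add_sub_cancel] at a2
      linarith
    · have g := ge_of_far L J hδ'2 hδ' hnear (s := s + τ) (t := t + τ) (by linarith [hs.1])
        (by linarith [hs.2])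
      have a1 := norm_add_le (y - c t) (c t - y')
      rw [sub_add_sub_cancel, norm_sub_rev (c t)] at a1
      have a2 := norm_add_le (c (s + τ) - (u * y' + v)) (u * y' + v - c (t + τ))
      rw [sub_add_sub_cancel, hzT] at a2
      have a3 : ‖u * y - u * y'‖ = ‖u‖ * ‖y - y'‖ := by rw [← mul_sub, norm_mul]
      rw [a3]
      have a4 : ‖u‖ * ‖y - y'‖ ≤ ‖u‖ * (r + r) := mul_le_mul_of_nonneg_left (by linarith) hu0.le
      have a5 : ‖u‖ * ‖y' - c t‖ ≤ ‖u‖ * r := mul_le_mul_of_nonneg_left hy'.le hu0.le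
      nlinarith
  have hmul : ∀ x y : ℝ, |x| = ‖u‖ * |y| → (0 < y → 0 < x) → (y < 0 → x < 0) → x = ‖u‖ * y := by
    intro x y h1 h2 h3
    rcases lt_trichotomy y 0 with h | h | h
    · rw [abs_of_neg (h3 h), abs_of_neg h] at h1; linarith
    · rw [h, abs_zero, mul_zero, abs_eq_zero] at h1
      rw [h1, h, mul_zero]
    · rw [abs_of_pos (h2 h), abs_of_pos h] at h1; exact h1
  obtain ⟨⟨zp, hzp, hp⟩, ⟨zm, hzm, hm⟩⟩ := both_near L J h0 t hr
  refine hmul _ _ (habs z hz) (fun hpos => ?_) (fun hneg => ?_)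
  · obtain ⟨n, n', m, m', b1, b2, b3, b4, e⟩ := hdiff z zm hz hzm hpos.ne' hm.ne
    have c1 := (hw _ (nC _ hpos.ne') n b1).1 hpos
    have c2 := (hw _ (nC _ hm.ne) n' b2).2 hm
    have hT1 : mgc c (u * z + v) ≠ 0 := fun h => by
      have := habs z hz
      rw [h, abs_zero] at this
      have h2 : 0 < ‖u‖ * |mgc c z| := mul_pos hu0 (abs_pos.2 hpos.ne')
      linarith
    rcases lt_or_gt_of_ne hT1 with h | h
    · exfalso
      have c3 := (hw _ (nC _ hT1) m b3).2 h
      have hT2 : mgc c (u * zm + v) ≠ 0 := fun h => by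
        have := habs zm hzm
        rw [h, abs_zero] at this
        have h2 : 0 < ‖u‖ * |mgc c zm| := mul_pos hu0 (abs_pos.2 hm.ne)
        linarith
      rcases lt_or_gt_of_ne hT2 with h' | h'
      · have c4 := (hw _ (nC _ hT2) m' b4).2 h'
        omega
      · have c4 := (hw _ (nC _ hT2) m' b4).1 h'
        omega
    · exact h
  · obtain ⟨n, n', m, m', b1, b2, b3, b4, e⟩ := hdiff z zp hz hzp hneg.ne hp.ne'
    have c1 := (hw _ (nC _ hneg.ne) n b1).2 hneg
    have c2 := (hw _ (nC _ hp.ne') n' b2).1 hp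
    have hT1 : mgc c (u * z + v) ≠ 0 := fun h => by
      have := habs z hz
      rw [h, abs_zero] at this
      have h2 : 0 < ‖u‖ * |mgc c z| := mul_pos hu0 (abs_pos.2 hneg.ne)
      linarith
    rcases lt_or_gt_of_ne hT1 with h | h
    · exact h
    · exfalso
      have c3 := (hw _ (nC _ hT1) m b3).1 h
      have hT2 : mgc c (u * zp + v) ≠ 0 := fun h => by
        have := habs zp hzp
        rw [h, abs_zero] at this
        have h2 : 0 < ‖u‖ * |mgc c zp| := mul_pos hu0 (abs_pos.2 hp.ne')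
        linarith
      rcases lt_or_gt_of_ne hT2 with h' | h'
      · have c4 := (hw _ (nC _ hT2) m' b4).2 h'
        omega
      · have c4 := (hw _ (nC _ hT2) m' b4).1 h'
        omega

end Pool.Agent.Y535.PEG
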