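import Pool.Agent.H763R2.An.Wd

/-! Statements: erasure of short loops, local winding of maps that look linear, sums of local
windings. -/

set_option autoImplicit false
open Complex Set Topology Metric

namespace Pool.Agent.Y535.PEG

open Pool.Agent.H763R2.An (Wd Bd InR)

/-- a path on `[u, v]` with finitely many short coincidences -/
structure Er (f : ℝ → ℂ) (u v η : ℝ) : Prop where
  uv : u < v
  η0 : 0 ≤ η
  fin : {p : ℝ × ℝ | u ≤ p.1 ∧ p.1 < p.2 ∧ p.2 ≤ v ∧ f p.1 = f p.2}.Finite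
  short : ∀ x y, u ≤ x → x < y → y ≤ v → f x = f y → y - x ≤ η
  hu : ∀ y, u < y → y ≤ v → f u ≠ f y
  hv : ∀ x, u ≤ x → x < v → f x ≠ f v

/-- a change of the parameter that erases loops -/
structure Ed (f : ℝ → ℂ) (u v η : ℝ) (l : ℝ → ℝ) : Prop where
  mono : StrictMonoOn l (Icc u v)
  lu : l u = u
  lv : l v = v
  near : ∀ t ∈ Icc u v, |l t - t| ≤ η
  inj : ∀ x ∈ Icc u v, ∀ y ∈ Icc u v, f (l x) = f (l y) → x = y
  right : ∀ t, u ≤ t → t < v → ∃ κ > 0, ∃ δ > 0, ∀ h, 0 ≤ h → h < δ → l (t + h) = l t + κ * h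
  left : ∀ t, u < t → t ≤ v → ∃ s κ δ, u < s ∧ 0 < κ ∧ 0 < δ ∧
    (∀ h, 0 < h → h < δ → l (t - h) = s - κ * h) ∧ (s = l t ∨ (s < l t ∧ f s = f (l t)))

def S_E : Prop := ∀ (f : ℝ → ℂ) (u v η : ℝ), Er f u v η → ∃ l, Ed f u v η l

/-- the winding around an isolated zero where the map looks like an injective linear map -/
def S_IDX : Prop := ∀ G : ℝ → ℝ → ℂ, (Continuous fun p : ℝ × ℝ => G p.1 p.2) →
  ∀ (x0 y0 r0 : ℝ) (u v : ℂ) (κ : ℝ), 0 < r0 → u.re * v.im - u.im * v.re ≠ 0 →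
    (∀ s t : ℝ, |s| ≤ r0 → |t| ≤ r0 → (s ≠ 0 ∨ t ≠ 0) →
      0 < κ * (G (x0 + s) (y0 + t) * (starRingEnd ℂ) (s * u + t * v)).re) →
    ∀ r, 0 < r → r ≤ r0 → Wd G (x0 - r) (x0 + r) (y0 - r) (y0 + r) =
      ((if 0 < u.re * v.im - u.im * v.re then 1 else -1 : ℤ) : ℂ) * (2 * Real.pi * I)

open Classical in
/-- the winding around a rectangle is the sum of the local windings -/
def S_Z : Prop := ∀ G : ℝ → ℝ → ℂ, (Continuous fun p : ℝ × ℝ => G p.1 p.2) →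
  ∀ (Z : Finset (ℝ × ℝ)) (ι : ℝ × ℝ → ℤ),
    (∀ z ∈ Z, ∃ r0 > 0, ∀ r, 0 < r → r ≤ r0 →
      Wd G (z.1 - r) (z.1 + r) (z.2 - r) (z.2 + r) = (ι z : ℂ) * (2 * Real.pi * I)) →
    ∀ a b c d : ℝ, Bd G a b c d → (∀ x ∈ Icc a b, ∀ y ∈ Icc c d, G x y = 0 → (x, y) ∈ Z) →
      Wd G a b c d = ((∑ z ∈ Z.filter (InR a b c d), ι z : ℤ) : ℂ) * (2 * Real.pi * I)

end Pool.Agent.Y535.PEG
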