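import Pool.Agent.Y535.PEG.StmA
import Pool.Agent.Y535.PEG.Mon2

/-! Statements: simple polygons and the signs of the squares inscribed in them. -/

set_option autoImplicit false
open Complex Set Topology Metric

namespace Pool.Agent.Y535.PEG

open Pool.Agent.H763R2 Pool.Agent.H763R2.An Pool.Agent.W675.Peg Pool.Agent.TH569.Peg
open Pool.Agent.H763R2.Dm (NoSq floor_const)

/-- erasing the loops of a closed polygon all coincidences of which are short -/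
def S_P : Prop := ∀ q : ℝ → ℂ, Gen q → PLc q → ∀ a ρ η : ℝ, 0 < η → 4 * η < ρ → ρ ≤ 1 / 4 →
  (∀ x y, |x - a| < ρ → q x = q y → ∃ n : ℤ, y = x + n) →
  (∀ x y, x < y → y < x + 1 → q x = q y → y - x < η ∨ x + 1 - y < η) →
  ∃ l : ℝ → ℝ, StrictMono l ∧ (∀ t, l (t + 1) = l t + 1) ∧ (∀ t, |l t - t| ≤ η) ∧
    Loop (fun t => q (l t)) ∧ Inj (fun t => q (l t)) ∧ ∀ s, Mon (fun t => q (l t)) s

/-- the function `τ * mgc q` is positive on the left of all straight pieces and negative on the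
right -/
def SGN (q : ℝ → ℂ) (τ : ℝ) : Prop := (τ = 1 ∨ τ = -1) ∧ ∀ (t : ℝ) (e : ℂ) (η : ℝ), e ≠ 0 → 0 < η →
  Lin q t e η → ∃ R > 0, ∀ ζ : ℂ, ‖ζ‖ < R → (0 < An.cr e ζ → 0 < τ * mgc q (q t + ζ)) ∧
    (An.cr e ζ < 0 → τ * mgc q (q t + ζ) < 0) ∧ (An.cr e ζ = 0 → mgc q (q t + ζ) = 0)

def S_SG : Prop := ∀ q : ℝ → ℂ, Gen q → PLc q → Inj q → ∃ τ, SGN q τ

/-- signs of the zeros for a simple generic polygon -/
structure Sgs (q : ℝ → ℂ) (j : ℝ × ℝ → ℤ) : Prop where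
  pm : ∀ z ∈ Zq q, j z = 1 ∨ j z = -1
  loc : ∀ z ∈ Zq q, ∃ r0 > 0, ∀ r, 0 < r → r ≤ r0 →
    Wd (fun x y => GG q (mgc q) x (x + y)) (z.1 - r) (z.1 + r) (z.2 - z.1 - r) (z.2 - z.1 + r) =
      (j z : ℂ) * (2 * Real.pi * I)
  rot : ∀ x y x' y', (x, y) ∈ Zq q → (x', y') ∈ Zq q → q x' = q y → q y' = CC q x y →
    j (x', y') = - j (x, y)

def S_I : Prop := ∀ q : ℝ → ℂ, Gen q → Inj q → ∀ τ, SGN q τ → ∃ j, Sgs q j

def S_T1 : Prop := ∀ (q : ℝ → ℂ) (b σ : ℝ) (j : ℝ × ℝ → ℤ), Two q b σ → Inj q → Sgs q j →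
  ∃ η0 > 0, ∀ η, 0 < η → η < η0 →
    Bd (fun x r => GG q (mgc q) x (x + r)) 0 b η (1 - η) ∧
      Wd (fun x r => GG q (mgc q) x (x + r)) 0 b η (1 - η) = 0

def S_T2 : Prop := ∀ (q : ℝ → ℂ) (b σ : ℝ) (j : ℝ × ℝ → ℤ), Two q b σ → Inj q → Sgs q j →
  (∀ s ∈ Icc 0 b, ∃ w, CG 0 q s w σ) → ∃ η0 > 0, ∀ η, 0 < η → η < η0 →
    Bd (fun x r => GG q (mgc q) x (x + r)) 0 b η (σ / 2) ∧
      Wd (fun x r => GG q (mgc q) x (x + r)) 0 b η (σ / 2) = 0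

end Pool.Agent.Y535.PEG
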