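import Pool.Agent.Y535.PEG.Tg1

/-! Normalised angle functions of two curves over short chords of corresponding arcs. -/

set_option autoImplicit false
open Complex Set Topology Metric

namespace Pool.Agent.Y535.PEG

open Pool.Agent.H763R2 Pool.Agent.H763R2.An Pool.Agent.W675.Peg Pool.Agent.TH569.Peg
open Pool.Agent.H763R2.Dm (NoSq floor_const)

variable {c c' : ℝ → ℂ} {θ θ' : ℝ → ℝ → ℝ} {g g' : ℤ}

/-- correction by half a turn for negatively oriented curves -/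
def nz (n0 : ℤ) : ℤ := if 0 < n0 then 0 else 1

/-- the normalised angle function -/
noncomputable def Nrm (θ : ℝ → ℝ → ℝ) (n0 : ℤ) : ℝ → ℝ → ℝ := fun x y => θ x y + (nz n0 : ℝ) * Real.pi

theorem rel4m (L : Loop c) (J : Inj c) {z0 : ℂ} (h0 : 0 < mgc c z0) (A : Ang c (mgc c) θ g)
    (L' : Loop c') (J' : Inj c') (A' : Ang c' (mgc c') θ' g') {n0 n1 : ℤ} (ho : Odd n0)
    (ho1 : Odd n1)
    (hw : ∀ z, z ∉ range c → ∀ n, IsWc c z n → (0 < mgc c z → n = n0) ∧ (mgc c z < 0 → n = 0))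
    (hw1 : ∀ z, z ∉ range c' → ∀ n, IsWc c' z n →
      (0 < mgc c' z → n = n1) ∧ (mgc c' z < 0 → n = 0))
    {a b : ℝ} {u v : ℂ} {φ : ℝ → ℝ} (hT : Smy (fun z => u * (starRingEnd ℂ) z + v) u (-1))
    (P : Mq c c' (fun z => u * (starRingEnd ℂ) z + v) φ a b (-1)) {a1 b1 : ℝ} (ha1 : a < a1)
    (h11 : a1 ≤ b1) (hb1 : b1 < b) : ∃ K : ℤ, ∃ ε > 0, ∀ x y, a1 ≤ x → y ≤ b1 → x < y → y < x + ε →
      Nrm θ' n1 (φ y) (φ x) = Real.pi / 2 - Nrm θ n0 x y + K * (2 * Real.pi) := by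
  have ba := P.b1
  obtain ⟨anti, wid⟩ : StrictAntiOn φ (Icc a b) ∧ φ a < φ b + 1 := by
    rcases P.mono with ⟨h, -⟩ | ⟨-, h, h'⟩
    · exact absurd h (by decide)
    · exact ⟨h, h'⟩
  obtain ⟨ε', hε', r, hr, hM⟩ := arc_eq4 L J h0 L' J' ho ho1 hw hw1 hT P ha1 hb1 h11
  obtain ⟨ε, hε, hn⟩ := short_near L ha1 hb1 hr
  obtain ⟨S, hS⟩ : ∃ S : Set (ℝ × ℝ), S = {p | a1 ≤ p.1 ∧ p.2 ≤ b1 ∧ p.1 < p.2 ∧ p.2 < p.1 + ε} :=
    ⟨_, rfl⟩
  have hpre : IsPreconnected S := hS ▸ short_pre a1 b1 ε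
  have ma : a ∈ Icc a b := ⟨le_rfl, P.ab.le⟩
  have mb : b ∈ Icc a b := ⟨P.ab.le, le_rfl⟩
  have mS : ∀ p ∈ S, p.1 ∈ Icc a b ∧ p.2 ∈ Icc a b ∧ p.1 < p.2 ∧ p.2 < p.1 + 1 := by
    rintro p hp
    rw [hS] at hp
    obtain ⟨h1, h2, h3, h4⟩ := hp
    exact ⟨⟨by linarith, by linarith⟩, ⟨by linarith, by linarith⟩, h3, by linarith⟩
  have c1 : ContinuousOn (fun p : ℝ × ℝ => φ p.1) S :=
    P.cont.comp (by fun_prop) (fun p hp => (mS p hp).1)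
  have c2 : ContinuousOn (fun p : ℝ × ℝ => φ p.2) S :=
    P.cont.comp (by fun_prop) (fun p hp => (mS p hp).2.1)
  have hx : ∀ p ∈ S, φ p.2 < φ p.1 ∧ φ p.1 < φ p.2 + 1 := fun p hp => by
    obtain ⟨m1, m2, m3, -⟩ := mS p hp
    have g1 := anti.antitoneOn ma m1 m1.1
    have g2 := anti.antitoneOn m2 mb m2.2
    exact ⟨anti m1 m2 m3, by linarith⟩
  have hv : 0 < ‖u‖ := norm_pos_iff.2 hT.ne
  obtain ⟨j0, hj0, K0, hK0⟩ : ∃ j0 : ℤ, (∀ x : ℝ, Real.cos (j0 * Real.pi + x) = ε' * Real.cos x ∧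
      Real.sin (j0 * Real.pi + x) = ε' * Real.sin x) ∧ ∃ K0 : ℤ, j0 + nz n0 + nz n1 = 2 * K0 := by
    have n00 : n0 ≠ 0 := by
      rintro rfl
      exact absurd ho (by decide)
    rcases hε' with ⟨h, h5⟩ | ⟨h, h5⟩
    · refine ⟨0, fun x => by rw [h]; simp, ?_⟩
      have h6 : n1 = n0 := by linarith
      rw [h6]
      exact ⟨nz n0, by ring⟩
    · refine ⟨1, fun x => ?_, ?_⟩
      · rw [h, Int.cast_one, one_mul, add_comm, Real.cos_add_pi, Real.sin_add_pi]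
        constructor <;> ring
      · have h6 : n1 = -n0 := by linarith
        unfold nz
        rcases lt_or_gt_of_ne n00 with h7 | h7
        · rw [if_neg (not_lt.2 h7.le), if_pos (show 0 < n1 by omega)]
          exact ⟨1, by norm_num⟩
        · rw [if_pos h7, if_neg (show ¬ 0 < n1 by omega)]
          exact ⟨1, by norm_num⟩
  obtain ⟨m, hmm⟩ := chg3 A A' hpre (fun p hp => (mS p hp).2.2) c2 c1 hx hv
    (α := j0 * Real.pi + Real.pi / 2) (σ := -1)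
    (fun p hp r' r1 r2 => by
    obtain ⟨m1, m2, -, -⟩ := mS p hp
    have hp' := hp
    rw [hS] at hp'
    have near := hn p.1 p.2 hp'.1 hp'.2.1 hp'.2.2.1 hp'.2.2.2
    have eD := hM p.1 ⟨hp'.1, by linarith [hp'.2.1, hp'.2.2.1]⟩ _ near.1
    have eC := hM p.1 ⟨hp'.1, by linarith [hp'.2.1, hp'.2.2.1]⟩ _ near.2
    have t1 : DD c' (φ p.2) (φ p.1) = (fun z => u * (starRingEnd ℂ) z + v) (CC c p.1 p.2) := by
      rw [DD_eq, CC_eq, P.eq _ m1, P.eq _ m2]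
      simp only [map_add, map_sub, map_mul, conj_I]; ring
    have t2 : CC c' (φ p.2) (φ p.1) = (fun z => u * (starRingEnd ℂ) z + v) (DD c p.1 p.2) := by
      rw [CC_eq, DD_eq, P.eq _ m1, P.eq _ m2]
      simp only [map_add, map_sub, map_mul, conj_I]; ring
    rw [t1, t2, eD, eC, r1, r2,
      show (j0 : ℝ) * Real.pi + Real.pi / 2 + -1 * θ p.1 p.2 =
        (j0 : ℝ) * Real.pi + (Real.pi / 2 - θ p.1 p.2) by ring, (hj0 _).1, (hj0 _).2,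
      Real.cos_pi_div_two_sub, Real.sin_pi_div_two_sub]
    constructor <;> ring)
  refine ⟨K0 + m, ε, hε, fun x y h1 h2 h3 h4 => ?_⟩
  have := hmm (x, y) (by rw [hS]; exact ⟨h1, h2, h3, h4⟩)
  simp only at this
  have hK1 := congrArg (fun m : ℤ => (m : ℝ) * Real.pi) hK0
  push_cast at hK1
  unfold Nrm
  rw [this]; push_cast; linear_combination hK1

theorem rel4p (L : Loop c) (J : Inj c) {z0 : ℂ} (h0 : 0 < mgc c z0) (A : Ang c (mgc c) θ g)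
    (L' : Loop c') (J' : Inj c') (A' : Ang c' (mgc c') θ' g') {n0 n1 : ℤ} (ho : Odd n0)
    (ho1 : Odd n1)
    (hw : ∀ z, z ∉ range c → ∀ n, IsWc c z n → (0 < mgc c z → n = n0) ∧ (mgc c z < 0 → n = 0))
    (hw1 : ∀ z, z ∉ range c' → ∀ n, IsWc c' z n →
      (0 < mgc c' z → n = n1) ∧ (mgc c' z < 0 → n = 0))
    {a b : ℝ} {u v : ℂ} {φ : ℝ → ℝ} (hT : Smy (fun z => u * z + v) u 1)
    (P : Mq c c' (fun z => u * z + v) φ a b 1) {a1 b1 : ℝ} (ha1 : a < a1)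
    (h11 : a1 ≤ b1) (hb1 : b1 < b) : ∃ K : ℤ, ∃ ε > 0, ∀ x y, a1 ≤ x → y ≤ b1 → x < y → y < x + ε →
      Nrm θ' n1 (φ x) (φ y) = Nrm θ n0 x y + K * (2 * Real.pi) := by
  have ba := P.b1
  obtain ⟨mono, wid⟩ : StrictMonoOn φ (Icc a b) ∧ φ b < φ a + 1 := by
    rcases P.mono with ⟨-, h, h'⟩ | ⟨h, -⟩
    · exact ⟨h, h'⟩
    · exact absurd h (by decide)
  obtain ⟨ε', hε', r, hr, hM⟩ := arc_eq4 L J h0 L' J' ho ho1 hw hw1 hT P ha1 hb1 h11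
  obtain ⟨ε, hε, hn⟩ := short_near L ha1 hb1 hr
  obtain ⟨S, hS⟩ : ∃ S : Set (ℝ × ℝ), S = {p | a1 ≤ p.1 ∧ p.2 ≤ b1 ∧ p.1 < p.2 ∧ p.2 < p.1 + ε} :=
    ⟨_, rfl⟩
  have hpre : IsPreconnected S := hS ▸ short_pre a1 b1 ε
  have ma : a ∈ Icc a b := ⟨le_rfl, P.ab.le⟩
  have mb : b ∈ Icc a b := ⟨P.ab.le, le_rfl⟩
  have mS : ∀ p ∈ S, p.1 ∈ Icc a b ∧ p.2 ∈ Icc a b ∧ p.1 < p.2 ∧ p.2 < p.1 + 1 := by
    rintro p hp
    rw [hS] at hp
    obtain ⟨h1, h2, h3, h4⟩ := hp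
    exact ⟨⟨by linarith, by linarith⟩, ⟨by linarith, by linarith⟩, h3, by linarith⟩
  have c1 : ContinuousOn (fun p : ℝ × ℝ => φ p.1) S :=
    P.cont.comp (by fun_prop) (fun p hp => (mS p hp).1)
  have c2 : ContinuousOn (fun p : ℝ × ℝ => φ p.2) S :=
    P.cont.comp (by fun_prop) (fun p hp => (mS p hp).2.1)
  have hx : ∀ p ∈ S, φ p.1 < φ p.2 ∧ φ p.2 < φ p.1 + 1 := fun p hp => by
    obtain ⟨m1, m2, m3, -⟩ := mS p hp
    have g1 := mono.monotoneOn ma m1 m1.1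
    have g2 := mono.monotoneOn m2 mb m2.2
    exact ⟨mono m1 m2 m3, by linarith⟩
  have hv : 0 < ‖u‖ := norm_pos_iff.2 hT.ne
  obtain ⟨j0, hj0, K0, hK0⟩ : ∃ j0 : ℤ, (∀ x : ℝ, Real.cos (j0 * Real.pi + x) = ε' * Real.cos x ∧
      Real.sin (j0 * Real.pi + x) = ε' * Real.sin x) ∧ ∃ K0 : ℤ, j0 + nz n1 - nz n0 = 2 * K0 := by
    have n00 : n0 ≠ 0 := by
      rintro rfl
      exact absurd ho (by decide)
    rcases hε' with ⟨h, h5⟩ | ⟨h, h5⟩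
    · refine ⟨0, fun x => by rw [h]; simp, ?_⟩
      have h6 : n1 = n0 := by linarith
      rw [h6]
      exact ⟨0, by ring⟩
    · refine ⟨1, fun x => ?_, ?_⟩
      · rw [h, Int.cast_one, one_mul, add_comm, Real.cos_add_pi, Real.sin_add_pi]
        constructor <;> ring
      · have h6 : n1 = -n0 := by linarith
        unfold nz
        rcases lt_or_gt_of_ne n00 with h7 | h7
        · rw [if_neg (not_lt.2 h7.le), if_pos (show 0 < n1 by omega)]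
          exact ⟨0, by norm_num⟩
        · rw [if_pos h7, if_neg (show ¬ 0 < n1 by omega)]
          exact ⟨1, by norm_num⟩
  obtain ⟨m, hmm⟩ := chg3 A A' hpre (fun p hp => (mS p hp).2.2) c1 c2 hx hv
    (α := j0 * Real.pi) (σ := 1)
    (fun p hp r' r1 r2 => by
    obtain ⟨m1, m2, -, -⟩ := mS p hp
    have hp' := hp
    rw [hS] at hp'
    have near := hn p.1 p.2 hp'.1 hp'.2.1 hp'.2.2.1 hp'.2.2.2
    have eD := hM p.1 ⟨hp'.1, by linarith [hp'.2.1, hp'.2.2.1]⟩ _ near.1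
    have eC := hM p.1 ⟨hp'.1, by linarith [hp'.2.1, hp'.2.2.1]⟩ _ near.2
    have t1 : DD c' (φ p.1) (φ p.2) = (fun z => u * z + v) (DD c p.1 p.2) := by
      rw [DD_eq, DD_eq, P.eq _ m1, P.eq _ m2]; ring
    have t2 : CC c' (φ p.1) (φ p.2) = (fun z => u * z + v) (CC c p.1 p.2) := by
      rw [CC_eq, CC_eq, P.eq _ m1, P.eq _ m2]; ring
    rw [t1, t2, eD, eC, r1, r2, one_mul, (hj0 _).1, (hj0 _).2]
    constructor <;> ring)
  refine ⟨K0 + m, ε, hε, fun x y h1 h2 h3 h4 => ?_⟩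
  have := hmm (x, y) (by rw [hS]; exact ⟨h1, h2, h3, h4⟩)
  simp only at this
  have hK1 := congrArg (fun m : ℤ => (m : ℝ) * Real.pi) hK0
  push_cast at hK1
  unfold Nrm
  rw [this]; push_cast; linear_combination hK1


end Pool.Agent.Y535.PEG
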