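import Pool.Agent.Y535.PEG.Tg2

/-! The groupoid of local congruences between the curves of a family. -/

set_option autoImplicit false
open Complex Set Topology Metric

namespace Pool.Agent.Y535.PEG

open Pool.Agent.H763R2 Pool.Agent.H763R2.An Pool.Agent.W675.Peg Pool.Agent.TH569.Peg
open Pool.Agent.H763R2.Dm (NoSq floor_const)

variable {c c' c'' : ℝ → ℂ} {θ θ' θ'' : ℝ → ℝ → ℝ} {g g' : ℤ}

/-- a local congruence between two curves keeping the directions -/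
structure E2 (c c' : ℝ → ℂ) (θ θ' : ℝ → ℝ → ℝ) (q q' : ℝ) (K : ℤ) (Ψ : ℝ → ℝ) (δ : ℝ) (U V : ℂ) :
    Prop where
  hδ : 0 < δ
  cont : ContinuousOn Ψ (Icc (q - δ) (q + δ))
  mono : StrictMonoOn Ψ (Icc (q - δ) (q + δ))
  base : Ψ q = q'
  nU : ‖U‖ = 1
  eq : ∀ s ∈ Icc (q - δ) (q + δ), c' (Ψ s) = U * c s + V
  rel : ∀ x ∈ Icc (q - δ) (q + δ), ∀ y ∈ Icc (q - δ) (q + δ), x < y →
    θ' (Ψ x) (Ψ y) = θ x y + K * (2 * Real.pi)

/-- a local opposite congruence between two curves reversing the directions -/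
structure O2 (c c' : ℝ → ℂ) (θ θ' : ℝ → ℝ → ℝ) (q q' : ℝ) (K : ℤ) (Ψ : ℝ → ℝ) (δ : ℝ) (U V : ℂ) :
    Prop where
  hδ : 0 < δ
  cont : ContinuousOn Ψ (Icc (q - δ) (q + δ))
  anti : StrictAntiOn Ψ (Icc (q - δ) (q + δ))
  base : Ψ q = q'
  nU : ‖U‖ = 1
  eq : ∀ s ∈ Icc (q - δ) (q + δ), c' (Ψ s) = U * (starRingEnd ℂ) (c s) + V
  rel : ∀ x ∈ Icc (q - δ) (q + δ), ∀ y ∈ Icc (q - δ) (q + δ), x < y →
    θ' (Ψ y) (Ψ x) = Real.pi / 2 - θ x y + K * (2 * Real.pi)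

theorem E2.compE {s t r : ℝ} {K K' : ℤ} {Ψ Ψ' : ℝ → ℝ} {δ δ' : ℝ} {U V U' V' : ℂ}
    (T : E2 c c' θ θ' s t K Ψ δ U V) (T' : E2 c' c'' θ' θ'' t r K' Ψ' δ' U' V') :
    ∃ (K2 : ℤ) (Ψ2 : ℝ → ℝ) (δ2 : ℝ) (U2 V2 : ℂ), E2 c c'' θ θ'' s r K2 Ψ2 δ2 U2 V2 ∧ K2 = K + K' := by
  obtain ⟨δ2, h2, hle, hn⟩ := near_cont T.hδ T.cont T'.hδ
  rw [T.base] at hn
  have sub := win_sub (q := s) hle
  have mem : ∀ x ∈ Icc (s - δ2) (s + δ2), Ψ x ∈ Icc (t - δ') (t + δ') := fun x hx =>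
    win_mem (hn x hx)
  refine ⟨K + K', fun x => Ψ' (Ψ x), δ2, U' * U, U' * V + V', ⟨h2, T'.cont.comp (T.cont.mono sub) mem,
    fun x hx y hy hxy => T'.mono (mem x hx) (mem y hy) (T.mono (sub hx) (sub hy) hxy), ?_, ?_, ?_, ?_⟩,
    rfl⟩
  · rw [T.base, T'.base]
  · rw [norm_mul, T'.nU, T.nU, one_mul]
  · intro x hx
    rw [T'.eq _ (mem x hx), T.eq x (sub hx)]; ring
  · intro x hx y hy hxy
    rw [T'.rel _ (mem x hx) _ (mem y hy) (T.mono (sub hx) (sub hy) hxy),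
      T.rel x (sub hx) y (sub hy) hxy]
    push_cast; ring

theorem E2.compO {s t r : ℝ} {K K' : ℤ} {Ψ Ψ' : ℝ → ℝ} {δ δ' : ℝ} {U V U' V' : ℂ}
    (T : E2 c c' θ θ' s t K Ψ δ U V) (T' : O2 c' c'' θ' θ'' t r K' Ψ' δ' U' V') :
    ∃ (K2 : ℤ) (Ψ2 : ℝ → ℝ) (δ2 : ℝ) (U2 V2 : ℂ), O2 c c'' θ θ'' s r K2 Ψ2 δ2 U2 V2 ∧ K2 = K' - K := by
  obtain ⟨δ2, h2, hle, hn⟩ := near_cont T.hδ T.cont T'.hδ
  rw [T.base] at hn
  have sub := win_sub (q := s) hle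
  have mem : ∀ x ∈ Icc (s - δ2) (s + δ2), Ψ x ∈ Icc (t - δ') (t + δ') := fun x hx =>
    win_mem (hn x hx)
  refine ⟨K' - K, fun x => Ψ' (Ψ x), δ2, U' * (starRingEnd ℂ) U, U' * (starRingEnd ℂ) V + V',
    ⟨h2, T'.cont.comp (T.cont.mono sub) mem,
    fun x hx y hy hxy => T'.anti (mem x hx) (mem y hy) (T.mono (sub hx) (sub hy) hxy), ?_, ?_, ?_, ?_⟩,
    rfl⟩
  · rw [T.base, T'.base]
  · rw [norm_mul, Complex.norm_conj, T'.nU, T.nU, one_mul]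
  · intro x hx
    rw [T'.eq _ (mem x hx), T.eq x (sub hx)]
    simp only [map_add, map_mul]; ring
  · intro x hx y hy hxy
    rw [T'.rel _ (mem x hx) _ (mem y hy) (T.mono (sub hx) (sub hy) hxy),
      T.rel x (sub hx) y (sub hy) hxy]
    push_cast; ring

theorem O2.compE {s t r : ℝ} {K K' : ℤ} {Ψ Ψ' : ℝ → ℝ} {δ δ' : ℝ} {U V U' V' : ℂ}
    (T : O2 c c' θ θ' s t K Ψ δ U V) (T' : E2 c' c'' θ' θ'' t r K' Ψ' δ' U' V') :
    ∃ (K2 : ℤ) (Ψ2 : ℝ → ℝ) (δ2 : ℝ) (U2 V2 : ℂ), O2 c c'' θ θ'' s r K2 Ψ2 δ2 U2 V2 ∧ K2 = K + K' := by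
  obtain ⟨δ2, h2, hle, hn⟩ := near_cont T.hδ T.cont T'.hδ
  rw [T.base] at hn
  have sub := win_sub (q := s) hle
  have mem : ∀ x ∈ Icc (s - δ2) (s + δ2), Ψ x ∈ Icc (t - δ') (t + δ') := fun x hx =>
    win_mem (hn x hx)
  refine ⟨K + K', fun x => Ψ' (Ψ x), δ2, U' * U, U' * V + V',
    ⟨h2, T'.cont.comp (T.cont.mono sub) mem,
    fun x hx y hy hxy => T'.mono (mem y hy) (mem x hx) (T.anti (sub hx) (sub hy) hxy), ?_, ?_, ?_, ?_⟩,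
    rfl⟩
  · rw [T.base, T'.base]
  · rw [norm_mul, T'.nU, T.nU, one_mul]
  · intro x hx
    rw [T'.eq _ (mem x hx), T.eq x (sub hx)]; ring
  · intro x hx y hy hxy
    rw [T'.rel _ (mem y hy) _ (mem x hx) (T.anti (sub hx) (sub hy) hxy),
      T.rel x (sub hx) y (sub hy) hxy]
    push_cast; ring

theorem O2.compO {s t r : ℝ} {K K' : ℤ} {Ψ Ψ' : ℝ → ℝ} {δ δ' : ℝ} {U V U' V' : ℂ}
    (T : O2 c c' θ θ' s t K Ψ δ U V) (T' : O2 c' c'' θ' θ'' t r K' Ψ' δ' U' V') :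
    ∃ (K2 : ℤ) (Ψ2 : ℝ → ℝ) (δ2 : ℝ) (U2 V2 : ℂ), E2 c c'' θ θ'' s r K2 Ψ2 δ2 U2 V2 ∧ K2 = K' - K := by
  obtain ⟨δ2, h2, hle, hn⟩ := near_cont T.hδ T.cont T'.hδ
  rw [T.base] at hn
  have sub := win_sub (q := s) hle
  have mem : ∀ x ∈ Icc (s - δ2) (s + δ2), Ψ x ∈ Icc (t - δ') (t + δ') := fun x hx =>
    win_mem (hn x hx)
  refine ⟨K' - K, fun x => Ψ' (Ψ x), δ2, U' * (starRingEnd ℂ) U, U' * (starRingEnd ℂ) V + V',
    ⟨h2, T'.cont.comp (T.cont.mono sub) mem,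
    fun x hx y hy hxy => T'.anti (mem y hy) (mem x hx) (T.anti (sub hx) (sub hy) hxy), ?_, ?_, ?_, ?_⟩,
    rfl⟩
  · rw [T.base, T'.base]
  · rw [norm_mul, Complex.norm_conj, T'.nU, T.nU, one_mul]
  · intro x hx
    rw [T'.eq _ (mem x hx), T.eq x (sub hx)]
    simp only [map_add, map_mul, Complex.conj_conj]; ring
  · intro x hx y hy hxy
    rw [T'.rel _ (mem y hy) _ (mem x hx) (T.anti (sub hx) (sub hy) hxy),
      T.rel x (sub hx) y (sub hy) hxy]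
    push_cast; ring

/-- parity of the number of half turns at a mirror symmetric chord -/
theorem mir_n0b (L : Loop c) (J : Inj c) (nosq : NoSq (range c)) {n0 : ℤ} (ho : Odd n0)
    (hw : ∀ z, z ∉ range c → ∀ n, IsWc c z n → (0 < mgc c z → n = n0) ∧ (mgc c z < 0 → n = 0))
    {a b : ℝ} {u v : ℂ} {φ : ℝ → ℝ} (R : Mr c a b u v φ) {m : ℝ} (hm1 : a < m)
    (hm2 : m < b) (hm3 : φ m = m) : ∃ r1, a ≤ r1 ∧ r1 < m ∧ ∀ r, r1 < r → r < m →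
      (n0 = 1 ∧ 0 < mgc c (DD c r (φ r))) ∨ (n0 = -1 ∧ mgc c (DD c r (φ r)) < 0) := by
  obtain ⟨r1, h1, h2, H⟩ := mir_wd L J nosq R.P.b1 R hm1 hm2 hm3
  refine ⟨r1, h1, h2, fun r g1 g2 => ?_⟩
  obtain ⟨⟨o1, o2⟩, hn⟩ := H r g1 g2
  have nz : ∀ z, z ∉ range c → mgc c z ≠ 0 := fun z h hz => h ((mgc_sg L).zero L |>.1 hz)
  have n00 : n0 ≠ 0 := by
    rintro rfl
    exact absurd ho (by decide)
  obtain ⟨n, hn1⟩ := L.exW o1
  obtain ⟨m, hm1⟩ := L.exW o2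
  have e := hn n m hn1 hm1
  have P' := hw _ o1 n hn1
  have Q' := hw _ o2 m hm1
  rcases lt_or_gt_of_ne (nz _ o1) with h1 | h1 <;> rcases lt_or_gt_of_ne (nz _ o2) with h2 | h2
  · have := P'.2 h1; have := Q'.2 h2; omega
  · have a1 := P'.2 h1; have a2 := Q'.1 h2
    exact Or.inr ⟨by omega, h1⟩
  · have a1 := P'.1 h1; have a2 := Q'.2 h2
    exact Or.inl ⟨by omega, h1⟩
  · have := P'.1 h1; have := Q'.1 h2; omega

/-- a local reflection of the curve fixing one of its points, exact form -/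
theorem TO.loopN (L : Loop c) (J : Inj c) (nosq : NoSq (range c)) (A : Ang c (mgc c) θ g) {n0 : ℤ}
    (ho : Odd n0)
    (hw : ∀ z, z ∉ range c → ∀ n, IsWc c z n → (0 < mgc c z → n = n0) ∧ (mgc c z < 0 → n = 0))
    {q : ℝ} {K : ℤ} {ψ : ℝ → ℝ} {δ : ℝ} {U V : ℂ} (T : TO c θ q q K ψ δ U V) :
    (n0 = 1 ∧ Even K) ∨ (n0 = -1 ∧ Odd K) := by
  have hδ := T.hδ
  have mq : q ∈ Icc (q - δ) (q + δ) := ⟨by linarith, by linarith⟩
  have hcψ := T.eq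
  have hψq : ψ q = q := T.base
  have hψa := T.anti
  have hψc := T.cont
  have hP : U * (starRingEnd ℂ) (c q) + V = c q := by
    rw [← hcψ q mq, hψq]
  have hmod : U * (starRingEnd ℂ) U = 1 := by
    rw [Complex.mul_conj, Complex.normSq_eq_norm_sq, T.nU]; norm_num
  have hinv : ∀ z, U * (starRingEnd ℂ) (U * (starRingEnd ℂ) z + V) + V = z := by
    intro z
    have h1 : U * (starRingEnd ℂ) (U * (starRingEnd ℂ) (c q) + V) + V = c q := by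
      rw [hP, hP]
    simp only [map_add, map_mul, Complex.conj_conj] at h1 ⊢
    have h2 : U * (starRingEnd ℂ) V + V = 0 := by
      linear_combination h1 - c q * hmod
    linear_combination h2 + z * hmod
  obtain ⟨δ1, hδ1, l1, n1⟩ := near_cont hδ hψc (η := 1 / 4) (by norm_num)
  obtain ⟨δ2, hδ2, l2, n2⟩ := near_cont (q := q) hδ1
    (hψc.mono (Icc_subset_Icc (by linarith) (by linarith))) (η := δ1) hδ1
  rw [hψq] at n1 n2
  obtain ⟨t, ht, t1, t2⟩ : ∃ t > 0, t ≤ δ2 ∧ t ≤ 1 / 4 :=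
    ⟨min δ2 (1 / 4), by positivity, min_le_left _ _, min_le_right _ _⟩
  obtain ⟨r0, hr0⟩ : ∃ r0, r0 = q - t := ⟨_, rfl⟩
  obtain ⟨b, hb⟩ : ∃ b, b = ψ r0 := ⟨_, rfl⟩
  have m0 : r0 ∈ Icc (q - δ) (q + δ) := ⟨by linarith, by linarith⟩
  have hqb : q < b := by
    have := hψa m0 mq (by linarith)
    rwa [hψq, ← hb] at this
  have hb1 := n2 r0 ⟨by linarith, by linarith⟩
  have hb2 := n1 r0 ⟨by linarith, by linarith⟩
  rw [← hb, abs_lt] at hb1 hb2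
  have mb : b ∈ Icc (q - δ) (q + δ) := ⟨by linarith, by linarith⟩
  have hbb : ψ b = r0 := by
    have h1 : c (ψ b) = c r0 := by
      rw [hcψ b mb]
      conv_lhs => rw [hb]
      rw [hcψ r0 m0, hinv]
    have h2 := n1 b ⟨by linarith, by linarith⟩
    rw [abs_lt] at h2
    rcases lt_trichotomy (ψ b) r0 with h3 | h3 | h3
    · exact absurd h1 (J _ _ h3 (by linarith))
    · exact h3
    · exact absurd h1.symm (J _ _ h3 (by linarith))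
  have hab : r0 < b := by linarith
  have hba : b < r0 + 1 := by linarith
  have sub : Icc r0 b ⊆ Icc (q - δ) (q + δ) := Icc_subset_Icc m0.1 mb.2
  have mr0 : r0 ∈ Icc r0 b := ⟨le_rfl, hab.le⟩
  have mbb : b ∈ Icc r0 b := ⟨hab.le, le_rfl⟩
  have hmap : ∀ s ∈ Icc r0 b, ψ s ∈ Icc r0 b := fun s hs => by
    have g1 := hψa.antitoneOn m0 (sub hs) hs.1
    have g2 := hψa.antitoneOn (sub hs) mb hs.2
    rw [← hb] at g1
    rw [hbb] at g2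
    exact ⟨g2, g1⟩
  have him : (fun z => U * (starRingEnd ℂ) z + V) '' (c '' Icc r0 b) = c '' Icc r0 b := by
    have sub1 : (fun z => U * (starRingEnd ℂ) z + V) '' (c '' Icc r0 b) ⊆ c '' Icc r0 b := by
      rintro _ ⟨_, ⟨s, hs, rfl⟩, rfl⟩
      exact ⟨ψ s, hmap s hs, hcψ s (sub hs)⟩
    refine Subset.antisymm sub1 ?_
    rintro z hz
    exact ⟨U * (starRingEnd ℂ) z + V, sub1 ⟨z, hz, rfl⟩, hinv z⟩
  have hU0 : U ≠ 0 := by
    intro h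
    rw [h, zero_mul] at hmod
    exact zero_ne_one hmod
  obtain ⟨-, φ, R⟩ := exMrN L J hab hba hU0 him (by rw [hb]; exact (hcψ r0 m0).symm)
  have hφ : ∀ s ∈ Icc r0 b, φ s = ψ s := fun s hs => by
    refine inj_Icc J hba (R.mem s hs) (hmap s hs) ?_
    rw [R.P.eq s hs, hcψ s (sub hs)]
  have hqI : q ∈ Icc r0 b := ⟨by linarith, hqb.le⟩
  obtain ⟨r1, g1, g2, Hs⟩ := mir_n0b L J nosq ho hw R (m := q) (by linarith) hqb
    (by rw [hφ q hqI, hψq])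
  obtain ⟨r, hr⟩ : ∃ r, r = (r1 + q) / 2 := ⟨_, rfl⟩
  have hrI : r ∈ Icc r0 b := ⟨by linarith, by linarith⟩
  have hsg := Hs r (by linarith) (by linarith)
  have hφr : q < φ r := by
    have := R.anti hrI hqI (by linarith)
    rwa [hφ q hqI, hψq] at this
  have hφI := R.mem r hrI
  have e1 : ψ r = φ r := (hφ r hrI).symm
  have e2 : ψ (φ r) = r := by
    have h1 := hφ (φ r) hφI
    rw [R.inv r hrI] at h1
    linarith
  have e3 := T.rel r (sub hrI) (φ r) (sub hφI) (by linarith)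
  rw [e1, e2] at e3
  have hpar := par_n0 A (n0 := n0) (x := r) (y := φ r) (by linarith) (by linarith [hφI.2]) (k := K)
    (by linarith) (by
      rcases hsg with ⟨h5, h6⟩ | ⟨h5, h6⟩
      · exact Or.inl ⟨h5, h6⟩
      · exact Or.inr ⟨by rw [h5]; decide, h6⟩)
  rcases hsg with ⟨h5, -⟩ | ⟨h5, -⟩
  · exact Or.inl ⟨h5, hpar.2 h5⟩
  · refine Or.inr ⟨h5, Int.not_even_iff_odd.1 fun h => ?_⟩
    have := hpar.1 h
    rw [this] at h5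
    exact absurd h5 (by decide)

/-- loops of the first kind -/
theorem E2.loop (L : Loop c) (J : Inj c) {q : ℝ} {K : ℤ} {Ψ : ℝ → ℝ}
    {δ : ℝ} {U V : ℂ} (T : E2 c c θ θ q q K Ψ δ U V) : K = 0 :=
  TE.loop L J (θ := θ) ⟨T.hδ, T.cont, T.mono, T.base, T.nU, T.eq, T.rel⟩

/-- loops of the second kind -/
theorem O2.loop (L : Loop c) (J : Inj c) (nosq : NoSq (range c)) (A : Ang c (mgc c) θ g) {n0 : ℤ}
    (ho : Odd n0)
    (hw : ∀ z, z ∉ range c → ∀ n, IsWc c z n → (0 < mgc c z → n = n0) ∧ (mgc c z < 0 → n = 0))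
    {q : ℝ} {K : ℤ} {Ψ : ℝ → ℝ} {δ : ℝ} {U V : ℂ}
    (T : O2 c c (Nrm θ n0) (Nrm θ n0) q q K Ψ δ U V) : Even K := by
  have T' : TO c θ q q (K - nz n0) Ψ δ U V :=
    ⟨T.hδ, T.cont, T.anti, T.base, T.nU, T.eq, fun x hx y hy hxy => by
      have := T.rel x hx y hy hxy
      unfold Nrm at this
      push_cast
      linear_combination this⟩
  rcases T'.loopN L J nosq A ho hw with ⟨h1, h2⟩ | ⟨h1, h2⟩
  · rw [h1] at h2
    have e : nz 1 = 0 := by decide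
    rwa [e, sub_zero] at h2
  · rw [h1] at h2
    have e : nz (-1) = 1 := by decide
    rw [e] at h2
    have := h2.add_odd (show Odd (1 : ℤ) by decide)
    rwa [sub_add_cancel] at this

variable {ι : Type*} {C : ι → ℝ → ℂ} {Θ : ι → ℝ → ℝ → ℝ}

/-- Two points of the family are related by a local congruence, with a parity. -/
def Gf (C : ι → ℝ → ℂ) (Θ : ι → ℝ → ℝ → ℝ) (p q : ι × ℝ) (k : ZMod 2) : Prop :=
  (∃ (K : ℤ) (Ψ : ℝ → ℝ) (δ : ℝ) (U V : ℂ),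
    E2 (C p.1) (C q.1) (Θ p.1) (Θ q.1) p.2 q.2 K Ψ δ U V ∧ (K : ZMod 2) = k) ∨
  (∃ (K : ℤ) (Ψ : ℝ → ℝ) (δ : ℝ) (U V : ℂ),
    O2 (C p.1) (C q.1) (Θ p.1) (Θ q.1) p.2 q.2 K Ψ δ U V ∧ (K : ZMod 2) = k)

theorem Gf.comp {p q r : ι × ℝ} {k k' : ZMod 2} (h : Gf C Θ p q k) (h' : Gf C Θ q r k') :
    Gf C Θ p r (k + k') := by
  rcases h with ⟨K, Ψ, δ, U, V, T, e⟩ | ⟨K, Ψ, δ, U, V, T, e⟩ <;>
    rcases h' with ⟨K', Ψ', δ', U', V', T', e'⟩ | ⟨K', Ψ', δ', U', V', T', e'⟩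
  · obtain ⟨K2, Ψ2, δ2, U2, V2, T2, e2⟩ := T.compE T'
    exact Or.inl ⟨K2, Ψ2, δ2, U2, V2, T2, by rw [e2, ← e, ← e']; push_cast; ring⟩
  · obtain ⟨K2, Ψ2, δ2, U2, V2, T2, e2⟩ := T.compO T'
    refine Or.inr ⟨K2, Ψ2, δ2, U2, V2, T2, ?_⟩
    rw [e2, ← e, ← e']; push_cast
    rw [(zm2 (K' : ZMod 2) K).2]; ring
  · obtain ⟨K2, Ψ2, δ2, U2, V2, T2, e2⟩ := T.compE T'
    refine Or.inr ⟨K2, Ψ2, δ2, U2, V2, T2, ?_⟩
    rw [e2, ← e, ← e']; push_cast; ring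
  · obtain ⟨K2, Ψ2, δ2, U2, V2, T2, e2⟩ := T.compO T'
    refine Or.inl ⟨K2, Ψ2, δ2, U2, V2, T2, ?_⟩
    rw [e2, ← e, ← e']; push_cast
    rw [(zm2 (K' : ZMod 2) K).2]; ring

theorem Gf.refl (p : ι × ℝ) : Gf C Θ p p 0 := by
  refine Or.inl ⟨0, id, 1, 1, 0, ⟨one_pos, continuousOn_id, ?_, rfl, norm_one, ?_, ?_⟩, by simp⟩
  · exact fun x _ y _ h => h
  · intro s _; simp
  · intro x _ y _ _; simp

/-- a consistent parity on the classes of a groupoid without holonomy -/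
theorem exXg {α : Type*} (G : α → α → ZMod 2 → Prop) (hr : ∀ s, G s s 0)
    (hc : ∀ s t r k k', G s t k → G t r k' → G s r (k + k')) (hl : ∀ s k, G s s k → k = 0) :
    ∃ x : α → ZMod 2, ∀ s t k k', G s t k → G t s k' → x t = x s + k := by
  classical
  obtain ⟨r, hr⟩ : ∃ r : Setoid α, ∀ s t, r s t ↔ ∃ k k', G s t k ∧ G t s k' := by
    refine ⟨⟨fun s t => ∃ k k', G s t k ∧ G t s k', ⟨fun s => ⟨0, 0, hr s, hr s⟩,
      fun ⟨k, k', h, h'⟩ => ⟨k', k, h', h⟩, ?_⟩⟩, fun s t => Iff.rfl⟩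
    rintro s t r ⟨k, k', h, h'⟩ ⟨l, l', i, i'⟩
    exact ⟨_, _, hc _ _ _ _ _ h i, hc _ _ _ _ _ i' h'⟩
  have h1 : ∀ s, ∃ k, G (Quotient.out (Quotient.mk r s)) s k := fun s => by
    obtain ⟨k, k', h, -⟩ := (hr _ _).1 (Quotient.mk_out (s := r) s)
    exact ⟨k, h⟩
  choose x hx using h1
  refine ⟨x, fun s t k k' h h' => ?_⟩
  have e1 : Quotient.mk r s = Quotient.mk r t := Quotient.sound ((hr s t).2 ⟨k, k', h, h'⟩)
  obtain ⟨a, a', i, i'⟩ := (hr _ _).1 (Quotient.mk_out (s := r) t)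
  have p1 := hl _ _ (hc _ _ _ _ _ (hx t) i')
  have p2 := hx s
  rw [e1] at p2
  have p3 := hl _ _ (hc _ _ _ _ _ (hc _ _ _ _ _ p2 h) i')
  have : x t + a' = x s + k + a' := by rw [p1, p3]
  exact add_right_cancel this

end Pool.Agent.Y535.PEG
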