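import Pool.Agent.Y535.PEG.Tg3

/-! Congruent prolonged arcs of two curves, and the levels of tame points. -/

set_option autoImplicit false
open Complex Set Topology Metric

namespace Pool.Agent.Y535.PEG

open Pool.Agent.H763R2 Pool.Agent.H763R2.An Pool.Agent.W675.Peg Pool.Agent.TH569.Peg
open Pool.Agent.H763R2.Dm (NoSq floor_const)

variable {c c' : ℝ → ℂ} {θ θ' ϑ ϑ' : ℝ → ℝ → ℝ} {g g' : ℤ}

theorem germ_minus2 {a b : ℝ} {u v : ℂ} {φ : ℝ → ℝ}
    (P : Mq c c' (fun z => u * (starRingEnd ℂ) z + v) φ a b (-1)) {a1 b1 : ℝ} (ha1 : a < a1)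
    (hb1 : b1 < b) (hu : ‖u‖ = 1) {k : ℤ} {ε : ℝ} (hε : 0 < ε)
    (H : ∀ x y, a1 ≤ x → y ≤ b1 → x < y → y < x + ε →
      ϑ' (φ y) (φ x) = Real.pi / 2 - ϑ x y + k * (2 * Real.pi)) {s : ℝ} (h1 : a1 < s) (h2 : s < b1) :
    ∃ δ, O2 c c' ϑ ϑ' s (φ s) k φ δ u v := by
  have anti : StrictAntiOn φ (Icc a b) := by
    rcases P.mono with ⟨h, -⟩ | ⟨-, h, -⟩
    · exact absurd h (by decide)
    · exact h
  obtain ⟨δ, hδ, d1, d2, d3⟩ := exWin h1 h2 hε
  have sub : Icc (s - δ) (s + δ) ⊆ Icc a b := Icc_subset_Icc (by linarith) (by linarith)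
  refine ⟨δ, hδ, P.cont.mono sub, anti.mono sub, rfl, hu, fun x hx => P.eq x (sub hx),
    fun x hx y hy hxy => ?_⟩
  exact H x y (by linarith [hx.1]) (by linarith [hy.2]) hxy (by linarith [hx.1, hy.2])

theorem germ_plus2 {a b : ℝ} {u v : ℂ} {φ : ℝ → ℝ}
    (P : Mq c c' (fun z => u * z + v) φ a b 1) {a1 b1 : ℝ} (ha1 : a < a1)
    (hb1 : b1 < b) (hu : ‖u‖ = 1) {k : ℤ} {ε : ℝ} (hε : 0 < ε)
    (H : ∀ x y, a1 ≤ x → y ≤ b1 → x < y → y < x + ε →
      ϑ' (φ x) (φ y) = ϑ x y + k * (2 * Real.pi)) {s : ℝ} (h1 : a1 < s) (h2 : s < b1) :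
    ∃ δ, E2 c c' ϑ ϑ' s (φ s) k φ δ u v := by
  have mono : StrictMonoOn φ (Icc a b) := by
    rcases P.mono with ⟨-, h, -⟩ | ⟨h, -⟩
    · exact h
    · exact absurd h (by decide)
  obtain ⟨δ, hδ, d1, d2, d3⟩ := exWin h1 h2 hε
  have sub : Icc (s - δ) (s + δ) ⊆ Icc a b := Icc_subset_Icc (by linarith) (by linarith)
  refine ⟨δ, hδ, P.cont.mono sub, mono.mono sub, rfl, hu, fun x hx => P.eq x (sub hx),
    fun x hx y hy hxy => ?_⟩
  exact H x y (by linarith [hx.1]) (by linarith [hy.2]) hxy (by linarith [hx.1, hy.2])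

theorem plus_germs2 (L : Loop c) (J : Inj c) {z0 : ℂ} (h0 : 0 < mgc c z0) (A : Ang c (mgc c) θ g)
    (L' : Loop c') (J' : Inj c') (A' : Ang c' (mgc c') θ' g') {n0 n1 : ℤ} (ho : Odd n0)
    (ho1 : Odd n1)
    (hw : ∀ z, z ∉ range c → ∀ n, IsWc c z n → (0 < mgc c z → n = n0) ∧ (mgc c z < 0 → n = 0))
    (hw1 : ∀ z, z ∉ range c' → ∀ n, IsWc c' z n →
      (0 < mgc c' z → n = n1) ∧ (mgc c' z < 0 → n = 0))
    {a b a' b' : ℝ} (hb : b < a + 1) (hb' : b' < a' + 1) {u v : ℂ} (hu : ‖u‖ = 1)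
    (him : (fun z => u * z + v) '' (c '' Icc a b) = c' '' Icc a' b') {p p' q q' : ℝ} (hp : a < p)
    (hp' : p' < b) (hq : a' < q) (hq' : q' < b') (hpp : p < p') (hqq : q < q')
    (e1 : u * c p + v = c' q) (e2 : u * c p' + v = c' q') :
    ∃ (K : ℤ) (φ : ℝ → ℝ) (δ δ' : ℝ), E2 c c' (Nrm θ n0) (Nrm θ' n1) p q K φ δ u v ∧
      E2 c c' (Nrm θ n0) (Nrm θ' n1) p' q' K φ δ' u v := by
  have hu0 : u ≠ 0 := norm_ne_zero_iff.1 (by rw [hu]; exact one_ne_zero)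
  have hT : Smy (fun z => u * z + v) u 1 := ⟨hu0, Or.inl ⟨rfl, v, fun _ => rfl⟩⟩
  obtain ⟨φ, d, P, hφ⟩ := mk_mq L J L' J' hT (by linarith) hb (by linarith) hb' him
  have ma : a ∈ Icc a b := ⟨le_rfl, by linarith⟩
  have mb : b ∈ Icc a b := ⟨by linarith, le_rfl⟩
  have mp : p ∈ Icc a b := ⟨by linarith, by linarith⟩
  have mp' : p' ∈ Icc a b := ⟨by linarith, by linarith⟩
  have mem : ∀ s ∈ Icc a b, φ s ∈ Icc a' b' := fun s hs => by
    rcases hφ with ⟨hd, f1, f2⟩ | ⟨hd, f1, f2⟩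
    · rcases P.mono with ⟨-, h, -⟩ | ⟨h, -⟩
      · rw [← f1, ← f2]
        exact ⟨h.monotoneOn ma hs hs.1, h.monotoneOn hs mb hs.2⟩
      · rw [hd] at h; exact absurd h (by decide)
    · rcases P.mono with ⟨h, -⟩ | ⟨-, h, -⟩
      · rw [hd] at h; exact absurd h (by decide)
      · rw [← f1, ← f2]
        exact ⟨h.antitoneOn hs mb hs.2, h.antitoneOn ma hs hs.1⟩
  have f1 : φ p = q := inj_Icc J' hb' (mem p mp) ⟨by linarith, by linarith⟩
    (by rw [P.eq p mp]; exact e1)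
  have f2 : φ p' = q' := inj_Icc J' hb' (mem p' mp') ⟨by linarith, by linarith⟩
    (by rw [P.eq p' mp']; exact e2)
  have hd : d = 1 := by
    rcases P.mono with ⟨h, -⟩ | ⟨-, h, -⟩
    · exact h
    · have := h mp mp' hpp
      rw [f1, f2] at this
      linarith
  subst hd
  obtain ⟨k, ε, hε, H⟩ := rel4p L J h0 A L' J' A' ho ho1 hw hw1 hT P (a1 := (a + p) / 2)
    (b1 := (p' + b) / 2) (by linarith) (by linarith) (by linarith)
  obtain ⟨δ, T⟩ := germ_plus2 P (by linarith) (by linarith) hu hε H (s := p) (by linarith)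
    (by linarith)
  obtain ⟨δ', T'⟩ := germ_plus2 P (by linarith) (by linarith) hu hε H (s := p') (by linarith)
    (by linarith)
  rw [f1] at T
  rw [f2] at T'
  exact ⟨k, φ, δ, δ', T, T'⟩

theorem minus_germs2 (L : Loop c) (J : Inj c) {z0 : ℂ} (h0 : 0 < mgc c z0) (A : Ang c (mgc c) θ g)
    (L' : Loop c') (J' : Inj c') (A' : Ang c' (mgc c') θ' g') {n0 n1 : ℤ} (ho : Odd n0)
    (ho1 : Odd n1)
    (hw : ∀ z, z ∉ range c → ∀ n, IsWc c z n → (0 < mgc c z → n = n0) ∧ (mgc c z < 0 → n = 0))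
    (hw1 : ∀ z, z ∉ range c' → ∀ n, IsWc c' z n →
      (0 < mgc c' z → n = n1) ∧ (mgc c' z < 0 → n = 0))
    {a b a' b' : ℝ} (hb : b < a + 1) (hb' : b' < a' + 1) {u v : ℂ} (hu : ‖u‖ = 1)
    (him : (fun z => u * (starRingEnd ℂ) z + v) '' (c '' Icc a b) = c' '' Icc a' b')
    {p p' q q' : ℝ} (hp : a < p)
    (hp' : p' < b) (hq : a' < q) (hq' : q' < b') (hpp : p < p') (hqq : q < q')
    (e1 : u * (starRingEnd ℂ) (c p) + v = c' q') (e2 : u * (starRingEnd ℂ) (c p') + v = c' q) :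
    ∃ (K : ℤ) (φ : ℝ → ℝ) (δ δ' : ℝ), O2 c c' (Nrm θ n0) (Nrm θ' n1) p q' K φ δ u v ∧
      O2 c c' (Nrm θ n0) (Nrm θ' n1) p' q K φ δ' u v ∧
      (p = q → p' = q' → ∃ m δ'', O2 c c' (Nrm θ n0) (Nrm θ' n1) m m K φ δ'' u v) := by
  have hu0 : u ≠ 0 := norm_ne_zero_iff.1 (by rw [hu]; exact one_ne_zero)
  have hT : Smy (fun z => u * (starRingEnd ℂ) z + v) u (-1) := ⟨hu0, Or.inr ⟨rfl, v, fun _ => rfl⟩⟩
  obtain ⟨φ, d, P, hφ⟩ := mk_mq L J L' J' hT (by linarith) hb (by linarith) hb' him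
  have ma : a ∈ Icc a b := ⟨le_rfl, by linarith⟩
  have mb : b ∈ Icc a b := ⟨by linarith, le_rfl⟩
  have mp : p ∈ Icc a b := ⟨by linarith, by linarith⟩
  have mp' : p' ∈ Icc a b := ⟨by linarith, by linarith⟩
  have mem : ∀ s ∈ Icc a b, φ s ∈ Icc a' b' := fun s hs => by
    rcases hφ with ⟨hd, f1, f2⟩ | ⟨hd, f1, f2⟩
    · rcases P.mono with ⟨-, h, -⟩ | ⟨h, -⟩
      · rw [← f1, ← f2]
        exact ⟨h.monotoneOn ma hs hs.1, h.monotoneOn hs mb hs.2⟩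
      · rw [hd] at h; exact absurd h (by decide)
    · rcases P.mono with ⟨h, -⟩ | ⟨-, h, -⟩
      · rw [hd] at h; exact absurd h (by decide)
      · rw [← f1, ← f2]
        exact ⟨h.antitoneOn hs mb hs.2, h.antitoneOn ma hs hs.1⟩
  have f1 : φ p = q' := inj_Icc J' hb' (mem p mp) ⟨by linarith, by linarith⟩
    (by rw [P.eq p mp]; exact e1)
  have f2 : φ p' = q := inj_Icc J' hb' (mem p' mp') ⟨by linarith, by linarith⟩
    (by rw [P.eq p' mp']; exact e2)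
  obtain ⟨hd, anti⟩ : d = -1 ∧ StrictAntiOn φ (Icc a b) := by
    rcases P.mono with ⟨-, h, -⟩ | ⟨h, h', -⟩
    · have := h mp mp' hpp
      rw [f1, f2] at this
      linarith
    · exact ⟨h, h'⟩
  subst hd
  obtain ⟨k, ε, hε, H⟩ := rel4m L J h0 A L' J' A' ho ho1 hw hw1 hT P (a1 := (a + p) / 2)
    (b1 := (p' + b) / 2) (by linarith) (by linarith) (by linarith)
  obtain ⟨δ, T⟩ := germ_minus2 P (by linarith) (by linarith) hu hε H (s := p) (by linarith)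
    (by linarith)
  obtain ⟨δ', T'⟩ := germ_minus2 P (by linarith) (by linarith) hu hε H (s := p') (by linarith)
    (by linarith)
  refine ⟨k, φ, δ, δ', by rw [f1] at T; exact T, by rw [f2] at T'; exact T', fun g1 g2 => ?_⟩
  subst g1 g2
  have hc : ContinuousOn (fun s => φ s - s) (Icc p p') :=
    (P.cont.mono (Icc_subset_Icc mp.1 mp'.2)).sub continuousOn_id
  obtain ⟨m, hm, hm0⟩ := intermediate_value_Icc' hpp.le hc
    (show (0:ℝ) ∈ Icc (φ p' - p') (φ p - p) by rw [f1, f2]; constructor <;> linarith)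
  simp only at hm0
  have hfm : φ m = m := by linarith
  obtain ⟨δ'', T''⟩ := germ_minus2 P (by linarith) (by linarith) hu hε H (s := m)
    (by linarith [hm.1]) (by linarith [hm.2])
  rw [hfm] at T''
  exact ⟨m, δ'', T''⟩

/-- The prolonged arc over `[p, p']` is mapped onto the prolonged arc over `[q, q']` of another curve
by a congruence keeping the orientation of the plane and the direction of the curve. -/
def Dirc2 (c c' : ℝ → ℂ) (p p' q q' : ℝ) : Prop := ∃ a b a' b' : ℝ, a < p ∧ p' < b ∧ b < a + 1 ∧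
  a' < q ∧ q' < b' ∧ b' < a' + 1 ∧ ∃ u v : ℂ, ‖u‖ = 1 ∧
    (fun z => u * z + v) '' (c '' Icc a b) = c' '' Icc a' b' ∧ u * c p + v = c' q ∧
    u * c p' + v = c' q'

/-- The prolonged arc over `[p, p']` is mapped onto the prolonged arc over `[q, q']` of another curve
by a congruence reversing the orientation of the plane and the direction of the curve. -/
def Mirc2 (c c' : ℝ → ℂ) (p p' q q' : ℝ) : Prop := ∃ a b a' b' : ℝ, a < p ∧ p' < b ∧ b < a + 1 ∧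
  a' < q ∧ q' < b' ∧ b' < a' + 1 ∧ ∃ u v : ℂ, ‖u‖ = 1 ∧
    (fun z => u * (starRingEnd ℂ) z + v) '' (c '' Icc a b) = c' '' Icc a' b' ∧
    u * (starRingEnd ℂ) (c p) + v = c' q' ∧ u * (starRingEnd ℂ) (c p') + v = c' q

theorem Dirc2.symm {p p' q q' : ℝ} (h : Dirc2 c c' p p' q q') : Dirc2 c' c q q' p p' := by
  obtain ⟨a, b, a', b', h1, h2, h3, h4, h5, h6, u, v, hu, him, e1, e2⟩ := h
  have hu0 : u ≠ 0 := norm_ne_zero_iff.1 (by rw [hu]; exact one_ne_zero)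
  have hinv : ∀ z, u⁻¹ * (u * z + v) + (-(u⁻¹ * v)) = z := fun z => by
    field_simp; ring
  refine ⟨a', b', a, b, h4, h5, h6, h1, h2, h3, u⁻¹, -(u⁻¹ * v), by rw [norm_inv, hu, inv_one],
    ?_, ?_, ?_⟩
  · rw [← him, image_image]
    simp only [hinv, image_id']
  · rw [← e1, hinv]
  · rw [← e2, hinv]

theorem Mirc2.symm {p p' q q' : ℝ} (h : Mirc2 c c' p p' q q') : Mirc2 c' c q q' p p' := by
  obtain ⟨a, b, a', b', h1, h2, h3, h4, h5, h6, u, v, hu, him, e1, e2⟩ := h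
  have hmod : u * (starRingEnd ℂ) u = 1 := by
    rw [Complex.mul_conj, Complex.normSq_eq_norm_sq, hu]; norm_num
  have hinv : ∀ z, u * (starRingEnd ℂ) (u * (starRingEnd ℂ) z + v) +
      (-(u * (starRingEnd ℂ) v)) = z := fun z => by
    simp only [map_add, map_mul, Complex.conj_conj]
    linear_combination z * hmod
  refine ⟨a', b', a, b, h4, h5, h6, h1, h2, h3, u, -(u * (starRingEnd ℂ) v), hu,
    ?_, ?_, ?_⟩
  · rw [← him, image_image]
    simp only [hinv, image_id']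
  · rw [← e2, hinv]
  · rw [← e1, hinv]

theorem E2.level {s t : ℝ} {K : ℤ} {Ψ : ℝ → ℝ} {δ : ℝ} {U V : ℂ} (T : E2 c c' ϑ ϑ' s t K Ψ δ U V)
    {l l' : ℤ} (h : KL ϑ s l) (h' : KL ϑ' t l') : l' = l + 2 * K := by
  obtain ⟨ρ1, hρ1, h1⟩ := h
  obtain ⟨ρ2, hρ2, h2⟩ := h'
  obtain ⟨δ', hδ', hle, hn⟩ := near_cont T.hδ T.cont hρ2
  rw [T.base] at hn
  obtain ⟨y, hy, y1, -, y2, -⟩ := chord_at (s := s) hρ1 hρ1 hδ'
  have ms : s ∈ Icc (s - δ') (s + δ') := ⟨by linarith, by linarith⟩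
  have my : y ∈ Icc (s - δ') (s + δ') := ⟨by linarith, by linarith⟩
  have sub := win_sub (q := s) hle
  have e1 := h1 s y (by simpa using hρ1) y1 hy
  have e2 := h2 (Ψ s) (Ψ y) (hn s ms) (hn y my) (T.mono (sub ms) (sub my) hy)
  rw [fl_add (T.rel s (sub ms) y (sub my) hy), e1] at e2
  exact e2.symm

theorem nrm_cs {x : ℝ} (n0 : ℤ) (h : 0 < Real.cos x * Real.sin x) :
    0 < Real.cos (x + (nz n0 : ℝ) * Real.pi) * Real.sin (x + (nz n0 : ℝ) * Real.pi) := by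
  unfold nz
  split_ifs
  · simpa using h
  · rw [Int.cast_one, one_mul, Real.cos_add_pi, Real.sin_add_pi]
    rw [neg_mul_neg]
    exact h

theorem O2.level (L : Loop c) (J : Inj c) (A : Ang c (mgc c) θ g) {n0 : ℤ} {s t : ℝ} {K : ℤ}
    {Ψ : ℝ → ℝ} {δ : ℝ} {U V : ℂ} (T : O2 c c' (Nrm θ n0) ϑ' s t K Ψ δ U V) (hs : Cone c s)
    {l l' : ℤ} (h : KL (Nrm θ n0) s l) (h' : KL ϑ' t l') : l' = -l + 2 * K := by
  obtain ⟨p, q, _, hp, _, ρ3, hρ3, hsg⟩ := cone_test L J hs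
  obtain ⟨ρ1, hρ1, h1⟩ := h
  obtain ⟨ρ2, hρ2, h2⟩ := h'
  obtain ⟨δ', hδ', hle, hn⟩ := near_cont T.hδ T.cont hρ2
  rw [T.base] at hn
  obtain ⟨y, hy, y1, y3, y2, y4⟩ := chord_at (s := s) hρ1 hρ3 hδ'
  have ms : s ∈ Icc (s - δ') (s + δ') := ⟨by linarith, by linarith⟩
  have my : y ∈ Icc (s - δ') (s + δ') := ⟨by linarith, by linarith⟩
  have sub := win_sub (q := s) hle
  have e1 := h1 s y (by simpa using hρ1) y1 hy
  have e2 := h2 (Ψ y) (Ψ s) (hn y my) (hn s ms) (T.anti (sub ms) (sub my) hy)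
  obtain ⟨b1, b2, -, -⟩ := hsg s y (by simpa using hρ3) y3 hy
  have b3 : 0 < mgc c (DD c s y) * mgc c (CC c s y) := pos_tr (by rwa [mul_comm] at b1) b2
  have cs : 0 < Real.cos (Nrm θ n0 s y) * Real.sin (Nrm θ n0 s y) := nrm_cs n0 (cs_pos A hy y4 b3)
  rw [T.rel s (sub ms) y (sub my) hy,
    show Real.pi / 2 - Nrm θ n0 s y + K * (2 * Real.pi) =
      Real.pi / 2 + -1 * Nrm θ n0 s y + K * (2 * Real.pi) by ring, fl_half cs, e1] at e2
  exact e2.symm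

theorem E2.cone {s t : ℝ} {K : ℤ} {Ψ : ℝ → ℝ} {δ : ℝ} {U V : ℂ} (T : E2 c c' ϑ ϑ' s t K Ψ δ U V)
    (h : Cone c s) : Cone c' t := by
  obtain ⟨ρ, hρ, w, hw⟩ := h
  have hU : U ≠ 0 := norm_ne_zero_iff.1 (by rw [T.nU]; exact one_ne_zero)
  obtain ⟨η, hη, h1, h2⟩ : ∃ η > 0, η ≤ δ ∧ η < ρ :=
    ⟨min δ (ρ / 2), lt_min T.hδ (by linarith), min_le_left _ _,
      lt_of_le_of_lt (min_le_right _ _) (by linarith)⟩
  have sub := win_sub (q := s) h1
  have ms : s ∈ Icc (s - η) (s + η) := ⟨by linarith, by linarith⟩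
  have m1 : s - η ∈ Icc (s - η) (s + η) := ⟨by linarith, by linarith⟩
  have m2 : s + η ∈ Icc (s - η) (s + η) := ⟨by linarith, by linarith⟩
  have a1 := T.mono (sub m1) (sub ms) (by linarith)
  have a2 := T.mono (sub ms) (sub m2) (by linarith)
  rw [T.base] at a1 a2
  refine ⟨min (t - Ψ (s - η)) (Ψ (s + η) - t), lt_min (by linarith) (by linarith), w * U⁻¹,
    fun x y hx hy hxy => ?_⟩
  have ex : ∀ x, |x - t| < min (t - Ψ (s - η)) (Ψ (s + η) - t) →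
      ∃ x0 ∈ Icc (s - η) (s + η), Ψ x0 = x := fun x hx => by
    rw [lt_min_iff, abs_lt, abs_lt] at hx
    exact intermediate_value_Icc (by linarith) (T.cont.mono sub) ⟨by linarith, by linarith⟩
  obtain ⟨x0, hx0, rfl⟩ := ex x hx
  obtain ⟨y0, hy0, rfl⟩ := ex y hy
  have hlt : x0 < y0 := by
    by_contra hcon
    push Not at hcon
    have := T.mono.monotoneOn (sub hy0) (sub hx0) hcon
    linarith
  have e : w * U⁻¹ * (c' (Ψ y0) - c' (Ψ x0)) = w * (c y0 - c x0) := by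
    rw [T.eq _ (sub hx0), T.eq _ (sub hy0)]
    field_simp; ring
  rw [e]
  refine hw x0 y0 ?_ ?_ hlt
  · rw [abs_lt]; constructor <;> linarith [hx0.1, hx0.2]
  · rw [abs_lt]; constructor <;> linarith [hy0.1, hy0.2]

theorem O2.cone {s t : ℝ} {K : ℤ} {Ψ : ℝ → ℝ} {δ : ℝ} {U V : ℂ} (T : O2 c c' ϑ ϑ' s t K Ψ δ U V)
    (h : Cone c s) : Cone c' t := by
  obtain ⟨ρ, hρ, w, hw⟩ := h
  have hU : U ≠ 0 := norm_ne_zero_iff.1 (by rw [T.nU]; exact one_ne_zero)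
  obtain ⟨η, hη, h1, h2⟩ : ∃ η > 0, η ≤ δ ∧ η < ρ :=
    ⟨min δ (ρ / 2), lt_min T.hδ (by linarith), min_le_left _ _,
      lt_of_le_of_lt (min_le_right _ _) (by linarith)⟩
  have sub := win_sub (q := s) h1
  have ms : s ∈ Icc (s - η) (s + η) := ⟨by linarith, by linarith⟩
  have m1 : s - η ∈ Icc (s - η) (s + η) := ⟨by linarith, by linarith⟩
  have m2 : s + η ∈ Icc (s - η) (s + η) := ⟨by linarith, by linarith⟩
  have a1 := T.anti (sub m1) (sub ms) (by linarith)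
  have a2 := T.anti (sub ms) (sub m2) (by linarith)
  rw [T.base] at a1 a2
  refine ⟨min (Ψ (s - η) - t) (t - Ψ (s + η)), lt_min (by linarith) (by linarith),
    -((starRingEnd ℂ) w * U⁻¹), fun x y hx hy hxy => ?_⟩
  have ex : ∀ x, |x - t| < min (Ψ (s - η) - t) (t - Ψ (s + η)) →
      ∃ x0 ∈ Icc (s - η) (s + η), Ψ x0 = x := fun x hx => by
    rw [lt_min_iff, abs_lt, abs_lt] at hx
    exact intermediate_value_Icc' (by linarith) (T.cont.mono sub) ⟨by linarith, by linarith⟩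
  obtain ⟨x0, hx0, rfl⟩ := ex x hx
  obtain ⟨y0, hy0, rfl⟩ := ex y hy
  have hlt : y0 < x0 := by
    by_contra hcon
    push Not at hcon
    have := T.anti.antitoneOn (sub hx0) (sub hy0) hcon
    linarith
  have e : -((starRingEnd ℂ) w * U⁻¹) * (c' (Ψ y0) - c' (Ψ x0)) =
      (starRingEnd ℂ) (w * (c x0 - c y0)) := by
    rw [T.eq _ (sub hx0), T.eq _ (sub hy0), map_mul, map_sub]
    field_simp; ring
  rw [e, Complex.conj_im, Complex.conj_re, abs_neg]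
  refine hw y0 x0 ?_ ?_ hlt
  · rw [abs_lt]; constructor <;> linarith [hy0.1, hy0.2]
  · rw [abs_lt]; constructor <;> linarith [hx0.1, hx0.2]

/-- the level of a tame point and the orientation -/
theorem KL.n0b (L : Loop c) (J : Inj c) (A : Ang c (mgc c) θ g) {n0 : ℤ} (ho : Odd n0)
    (hw : ∀ z, z ∉ range c → ∀ n, IsWc c z n → (0 < mgc c z → n = n0) ∧ (mgc c z < 0 → n = 0))
    {s : ℝ} (h : Cone c s) {l : ℤ} (hl : KL θ s l) : Even (l + nz n0) := by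
  have h1 := hl.n0 L J A ho hw h
  obtain ⟨p, q, hpq, hp, hq, -⟩ := cone_test L J h
  have nC : ∀ y : ℂ, mgc c y ≠ 0 → y ∉ range c := fun y h hy => h ((mgc_sg L).zero L |>.2 hy)
  have h2 : n0 = 1 ∨ n0 = -1 := by
    have n00 : n0 ≠ 0 := by
      rintro rfl
      exact absurd ho (by decide)
    obtain ⟨n, hn⟩ := L.exW (nC p hp)
    obtain ⟨m, hm⟩ := L.exW (nC q hq)
    have e := hpq n m hn hm
    have P' := hw p (nC p hp) n hn
    have Q' := hw q (nC q hq) m hm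
    rcases lt_or_gt_of_ne hp with h1 | h1 <;> rcases lt_or_gt_of_ne hq with h2 | h2
    · have := P'.2 h1; have := Q'.2 h2; omega
    · have a1 := P'.2 h1; have a2 := Q'.1 h2
      right; omega
    · have a1 := P'.1 h1; have a2 := Q'.2 h2
      left; omega
    · have := P'.1 h1; have := Q'.1 h2; omega
  rcases h2 with h2 | h2
  · have e : nz n0 = 0 := by rw [h2]; decide
    rw [e, add_zero]
    exact h1.2 h2
  · have e : nz n0 = 1 := by rw [h2]; decide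
    rw [e]
    have h3 : ¬ Even l := fun h4 => by
      have := h1.1 h4
      rw [this] at h2
      exact absurd h2 (by decide)
    exact (Int.not_even_iff_odd.1 h3).add_odd (by decide)

theorem KL.nrm {s : ℝ} {l : ℤ} (n0 : ℤ) (h : KL θ s l) : KL (Nrm θ n0) s (l + nz n0) := by
  obtain ⟨ρ, hρ, H⟩ := h
  refine ⟨ρ, hρ, fun x y hx hy hxy => ?_⟩
  unfold Nrm
  rw [fl_pi, H x y hx hy hxy]

end Pool.Agent.Y535.PEG
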