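import Pool.Agent.Y535.PEG.Tw3

/-! Odd families of Jordan curves whose arcs are locally monotone or similar in pairs. -/

set_option autoImplicit false
open Complex Set Topology Metric

namespace Pool.Agent.Y535.PEG

open Pool.Agent.H763R2 Pool.Agent.H763R2.An Pool.Agent.W675.Peg Pool.Agent.TH569.Peg
open Pool.Agent.H763R2.Dm (NoSq floor_const)

theorem z2_of_even {m : ℤ} (h : Even m) : (m : ZMod 2) = 0 :=
  (ZMod.intCast_zmod_eq_zero_iff_dvd _ 2).2 (even_iff_two_dvd.1 h)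

theorem z2_of_odd {m : ℤ} (h : Odd m) : (m : ZMod 2) = 1 := by
  obtain ⟨k, rfl⟩ := h
  push_cast
  have : (2 : ZMod 2) = 0 := by decide
  rw [this, zero_mul, zero_add]

theorem z2_pm {m m' : ℤ} (h : m' = m ∨ m' = -m) : (m' : ZMod 2) = m := by
  rcases h with h | h
  · rw [h]
  · rw [h]; push_cast
    have h9 := (zm2 (0 : ZMod 2) (m : ZMod 2)).2
    rwa [zero_sub, zero_add] at h9

/-- the charges of a square free curve cut at tame points -/
theorem exF {c : ℝ → ℂ} (L : Loop c) (J : Inj c) (nosq : NoSq (range c)) :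
    ∃ (θ : ℝ → ℝ → ℝ) (g : ℤ) (x : ℝ → ℤ) (l0 : ℤ), Ang c (mgc c) θ g ∧ Odd g ∧
      (∀ s, Cone c s → KL θ s (l0 + 2 * x s)) ∧
      (∀ s, Cone c s → x (s + 1) = x s + g) ∧
      (∀ s t, AR c s t → (∀ r ∈ Icc s t, Mon c r) → x t = x s) ∧
      (∀ s t, AR c s t → (∃ f, Smx f ∧ f '' (c '' Icc s t) = c '' Icc s t ∧ f (c s) = c t) →
        Even (x t - x s)) := by
  obtain ⟨θ, g, A, hodd⟩ := exists_odd L J nosq
  obtain ⟨x, l0, hx, m1, m2, m3, m4⟩ := exChargeK L J nosq A
  refine ⟨θ, g, x, l0, A, hodd, hx, fun s hs => ?_, m1, ?_⟩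
  · have e1 := (hx (s + 1) (hs.per L)).uniq ((hx s hs).per A)
    linarith
  · rintro s t h ⟨f, ⟨u, v, hu, hf⟩, k2, k3⟩
    rcases hf with hf | hf
    · rw [hf] at k2 k3
      have := m3 _ _ _ _ h h ⟨u, v, hu, Or.inl ⟨k2, k3⟩⟩
      have h0 : x t - x s = 0 := by linarith
      rw [h0]
      exact Even.zero
    · rw [hf] at k2 k3
      exact m4 _ _ h ⟨u, v, hu, k2, k3⟩

/-- the parity argument for a family of curves -/
theorem family_false {N : ℕ} (hN : Odd N) {c : Fin N → ℝ → ℂ} (L : ∀ k, Loop (c k))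
    (J : ∀ k, Inj (c k)) (nosq : ∀ k, NoSq (range (c k))) {n : Fin N → ℕ} (hn : ∀ k, 2 ≤ n k)
    {t : Fin N → ℕ → ℝ} (S : ∀ k, Sub (c k) (n k) (t k)) {σ : Fin N × ℕ → Fin N × ℕ}
    (hσ : ∀ k, ∀ i < n k, (σ (k, i)).2 < n (σ (k, i)).1 ∧ σ (σ (k, i)) = (k, i))
    (H : ∀ k, ∀ i < n k, (∀ s ∈ Icc (t k i) (t k (i + 1)), Mon (c k) s) ∨
      ∃ f, Smx f ∧ f '' (c k '' Icc (t k i) (t k (i + 1))) =
        c (σ (k, i)).1 '' Icc (t (σ (k, i)).1 (σ (k, i)).2) (t (σ (k, i)).1 ((σ (k, i)).2 + 1)) ∧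
        (σ (k, i) = (k, i) → f (c k (t k i)) = c k (t k (i + 1)))) : False := by
  classical
  have ex := fun k => exF (L k) (J k) (nosq k)
  choose θ g x l0 A hodd hx hper hmon hself using ex
  have ex0 := fun k => exists_pos (L k) (J k) (nosq k)
  choose z0 h0 using ex0
  have ar : ∀ k, ∀ i < n k, AR (c k) (t k i) (t k (i + 1)) := fun k i hi =>
    ⟨(S k).lt i hi, (S k).len2 (hn k) hi, (S k).cone i hi.le, (S k).cone (i + 1) hi⟩
  obtain ⟨f, hf⟩ : ∃ f : Fin N × ℕ → ZMod 2, ∀ p, f p =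
      ((x p.1 (t p.1 (p.2 + 1)) - x p.1 (t p.1 p.2) : ℤ) : ZMod 2) := ⟨_, fun _ => rfl⟩
  have tot : ∑ p ∈ Finset.univ.sigma (fun k : Fin N => Finset.range (n k)), f (p.1, p.2) = 1 := by
    rw [Finset.sum_sigma]
    have e1 : ∀ k : Fin N, ∑ i ∈ Finset.range (n k), f (k, i) = 1 := fun k => by
      have e2 : ∑ i ∈ Finset.range (n k), (x k (t k (i + 1)) - x k (t k i)) = g k := by
        rw [Finset.sum_range_sub (fun i => x k (t k i)), (S k).one,
          hper k _ ((S k).cone 0 (Nat.zero_le _))]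
        ring
      have e3 : ∑ i ∈ Finset.range (n k), f (k, i) =
          ((∑ i ∈ Finset.range (n k), (x k (t k (i + 1)) - x k (t k i)) : ℤ) : ZMod 2) := by
        rw [Int.cast_sum]
        exact Finset.sum_congr rfl fun i _ => hf (k, i)
      rw [e3, e2]
      exact z2_of_odd (hodd k)
    rw [Finset.sum_congr rfl (fun k _ => e1 k), Finset.sum_const, Finset.card_univ, Fintype.card_fin,
      nsmul_eq_mul, mul_one]
    have := z2_of_odd (m := (N : ℤ)) (by exact_mod_cast hN)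
    simpa using this
  have one : ∀ k, ∀ i < n k, (f (k, i) = 0 ∨ f (σ (k, i)) = f (k, i)) ∧
      (σ (k, i) = (k, i) → f (k, i) = 0) := fun k i hi => by
    have hj := (hσ k i hi).1
    rcases H k i hi with h | ⟨T, hT, k2, k3⟩
    · have e : f (k, i) = 0 := by
        rw [hf]
        simp only
        rw [hmon k _ _ (ar k i hi) h, sub_self, Int.cast_zero]
      exact ⟨Or.inl e, fun _ => e⟩
    · refine ⟨Or.inr ?_, fun he => ?_⟩
      · obtain ⟨u, v, hu, hTT⟩ := hT
        have a1 := ar k i hi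
        have a2 := ar _ _ hj
        have hp := pair2 (L k) (J k) (h0 k) (A k) (L _) (J _) (nosq _) (h0 _) (A _) a1 a2
          (hx k _ a1.ha) (hx k _ a1.hb) (hx _ _ a2.ha) (hx _ _ a2.hb) hu (v := v) (by
          rcases hTT with h | h
          · left; rw [← h]; exact k2
          · right; rw [← h]; exact k2)
        rw [hf, hf]
        refine z2_pm ?_
        rcases hp with hp | hp
        · left; linarith
        · right; linarith
      · rw [hf]
        refine z2_of_even (hself k _ _ (ar k i hi) ⟨T, hT, ?_, k3 he⟩)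
        rw [he] at k2
        exact k2
  have key : ∀ k, ∀ i < n k, f (σ (k, i)) = f (k, i) := fun k i hi => by
    obtain ⟨hj, hjj⟩ := hσ k i hi
    rcases (one k i hi).1 with h | h
    · rcases (one _ _ hj).1 with h' | h'
      · rw [h]; exact h'
      · rw [Prod.mk.eta, hjj] at h'
        exact h'.symm
    · exact h
  have h2 : ∑ p ∈ Finset.univ.sigma (fun k : Fin N => Finset.range (n k)), f (p.1, p.2) = 0 := by
    refine Finset.sum_involution
      (fun p _ => (⟨(σ (p.1, p.2)).1, (σ (p.1, p.2)).2⟩ : (_ : Fin N) × ℕ))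
      (fun p hp => ?_) (fun p hp hne he => ?_) (fun p hp => ?_) (fun p hp => ?_)
    · have hi : p.2 < n p.1 := Finset.mem_range.1 (Finset.mem_sigma.1 hp).2
      simp only [Prod.mk.eta]
      rw [key p.1 p.2 hi]
      exact (zm2 _ 0).1
    · have hi : p.2 < n p.1 := Finset.mem_range.1 (Finset.mem_sigma.1 hp).2
      refine hne ((one p.1 p.2 hi).2 ?_)
      have e1 := congrArg Sigma.fst he
      have e2 := congrArg (fun q : (_ : Fin N) × ℕ => q.2) he
      exact Prod.ext e1 e2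
    · have hi : p.2 < n p.1 := Finset.mem_range.1 (Finset.mem_sigma.1 hp).2
      exact Finset.mem_sigma.2 ⟨Finset.mem_univ _, Finset.mem_range.2 (hσ p.1 p.2 hi).1⟩
    · have hi : p.2 < n p.1 := Finset.mem_range.1 (Finset.mem_sigma.1 hp).2
      have e := (hσ p.1 p.2 hi).2
      simp only [Prod.mk.eta]
      rw [e]
  rw [tot] at h2
  exact one_ne_zero h2

end Pool.Agent.Y535.PEG
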