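import Pool.Agent.Y535.PEG.Tg4
import Pool.Agent.Y535.PEG.Tw4

/-! Odd families of Jordan curves whose arcs are locally monotone, or similar in pairs, or
overlapping and congruent in pairs. -/

set_option autoImplicit false
open Complex Set Topology Metric

namespace Pool.Agent.Y535.PEG

open Pool.Agent.H763R2 Pool.Agent.H763R2.An Pool.Agent.W675.Peg Pool.Agent.TH569.Peg
open Pool.Agent.H763R2.Dm (NoSq floor_const)

/-- the data of a square free curve -/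
structure Dtx (c : ℝ → ℂ) (θ : ℝ → ℝ → ℝ) (g n0 : ℤ) (z0 : ℂ) (y : ℝ → ℤ) : Prop where
  L : Loop c
  J : Inj c
  nosq : NoSq (range c)
  A : Ang c (mgc c) θ g
  odd : Odd g
  pos : 0 < mgc c z0
  ho : Odd n0
  hw : ∀ z, z ∉ range c → ∀ n, IsWc c z n → (0 < mgc c z → n = n0) ∧ (mgc c z < 0 → n = 0)
  lev : ∀ s, Cone c s → KL θ s (2 * y s - nz n0)
  mon : ∀ s t, AR c s t → (∀ r ∈ Icc s t, Mon c r) → y t = y s
  slf : ∀ s t, AR c s t → (∃ f, Smx f ∧ f '' (c '' Icc s t) = c '' Icc s t ∧ f (c s) = c t) →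
    Even (y t - y s)

theorem exDtx {c : ℝ → ℂ} (L : Loop c) (J : Inj c) (nosq : NoSq (range c)) :
    ∃ (θ : ℝ → ℝ → ℝ) (g n0 : ℤ) (z0 : ℂ) (y : ℝ → ℤ), Dtx c θ g n0 z0 y := by
  obtain ⟨θ, g, x, l0, A, hodd, hx, -, hm, hs⟩ := exF L J nosq
  obtain ⟨z0, h0⟩ := exists_pos L J nosq
  obtain ⟨n0, ho, hw⟩ := wind_vals L J h0
  by_cases hex : ∃ s0, Cone c s0
  · obtain ⟨s0, C0⟩ := hex
    obtain ⟨h, hh⟩ := KL.n0b L J A ho hw C0 (hx s0 C0)
    obtain ⟨e, he⟩ : ∃ e, e = h - x s0 := ⟨_, rfl⟩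
    refine ⟨θ, g, n0, z0, fun s => x s + e, L, J, nosq, A, hodd, h0, ho, hw, fun s hs => ?_,
      fun s t h1 h2 => ?_, fun s t h1 h2 => ?_⟩
    · rw [show 2 * (x s + e) - nz n0 = l0 + 2 * x s by rw [he]; linarith]
      exact hx s hs
    · rw [hm s t h1 h2]
    · rw [show x t + e - (x s + e) = x t - x s by ring]
      exact hs s t h1 h2
  · exact ⟨θ, g, n0, z0, x, L, J, nosq, A, hodd, h0, ho, hw, fun s h => absurd ⟨s, h⟩ hex, hm, hs⟩

variable {ι : Type*} {C : ι → ℝ → ℂ} {Th : ι → ℝ → ℝ → ℝ} {G N0 : ι → ℤ} {Z : ι → ℂ}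
  {Y : ι → ℝ → ℤ}

theorem Gf.shift (D : ∀ k, Dtx (C k) (Th k) (G k) (N0 k) (Z k) (Y k)) (k : ι) (s : ℝ) :
    Gf C (fun k => Nrm (Th k) (N0 k)) (k, s) (k, s + 1) (G k) := by
  refine Or.inl ⟨G k, fun x => x + 1, 1 / 4, 1, 0, ⟨by norm_num, by fun_prop, ?_, rfl, norm_one, ?_,
    ?_⟩, rfl⟩
  · exact fun x _ y _ h => by simpa using h
  · intro s _
    simp only
    rw [(D k).L.per]; ring
  · intro x hx y hy hxy
    simp only at hx hy ⊢
    unfold Nrm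
    rw [(D k).A.per x y hxy (by linarith [hx.1, hy.2])]; ring

theorem Gf.unshift (D : ∀ k, Dtx (C k) (Th k) (G k) (N0 k) (Z k) (Y k)) (k : ι) (s : ℝ) :
    Gf C (fun k => Nrm (Th k) (N0 k)) (k, s + 1) (k, s) (G k) := by
  refine Or.inl ⟨-G k, fun x => x - 1, 1 / 4, 1, 0, ⟨by norm_num, by fun_prop, ?_, by simp, norm_one,
    ?_, ?_⟩, ?_⟩
  · exact fun x _ y _ h => by simpa using h
  · intro s _
    have := (D k).L.per (s - 1)
    rw [sub_add_cancel] at this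
    simp only
    rw [← this]; ring
  · intro x hx y hy hxy
    simp only at hx hy ⊢
    have := (D k).A.per (x - 1) (y - 1) (by linarith) (by linarith [hx.1, hy.2])
    rw [sub_add_cancel, sub_add_cancel] at this
    unfold Nrm
    rw [this]; push_cast; ring
  · push_cast
    have := (zm2 (0 : ZMod 2) (G k)).2
    rwa [zero_sub, zero_add] at this

theorem Gf.loop (D : ∀ k, Dtx (C k) (Th k) (G k) (N0 k) (Z k) (Y k)) {p : ι × ℝ} {k : ZMod 2}
    (h : Gf C (fun k => Nrm (Th k) (N0 k)) p p k) : k = 0 := by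
  rcases h with ⟨K, Ψ, δ, U, V, T, e⟩ | ⟨K, Ψ, δ, U, V, T, e⟩
  · rw [T.loop (D p.1).L (D p.1).J] at e
    rw [← e]; simp
  · rw [← e]
    exact z2_of_even (T.loop (D p.1).L (D p.1).J (D p.1).nosq (D p.1).A (D p.1).ho (D p.1).hw)

theorem Gf.tame (D : ∀ k, Dtx (C k) (Th k) (G k) (N0 k) (Z k) (Y k)) {p q : ι × ℝ} {k : ZMod 2}
    (h : Gf C (fun k => Nrm (Th k) (N0 k)) p q k) (hs : Cone (C p.1) p.2) :
    Cone (C q.1) q.2 ∧ (Y q.1 q.2 : ZMod 2) = Y p.1 p.2 + k := by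
  have lv : ∀ p : ι × ℝ, Cone (C p.1) p.2 → KL (Nrm (Th p.1) (N0 p.1)) p.2 (2 * Y p.1 p.2) :=
    fun p hp => by
      have := ((D p.1).lev p.2 hp).nrm (N0 p.1)
      rwa [sub_add_cancel] at this
  rcases h with ⟨K, Ψ, δ, U, V, T, e⟩ | ⟨K, Ψ, δ, U, V, T, e⟩
  · have hc := T.cone hs
    have e1 := T.level (lv p hs) (lv q hc)
    have e2 : Y q.1 q.2 = Y p.1 p.2 + K := by linarith
    refine ⟨hc, ?_⟩
    rw [e2, ← e]; push_cast; rfl
  · have hc := T.cone hs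
    have e1 := T.level (D p.1).L (D p.1).J (D p.1).A hs (lv p hs) (lv q hc)
    have e2 : Y q.1 q.2 = -Y p.1 p.2 + K := by linarith
    refine ⟨hc, ?_⟩
    rw [e2, ← e]; push_cast
    have h9 := (zm2 (0 : ZMod 2) (Y p.1 p.2 : ZMod 2)).2
    rw [zero_sub, zero_add] at h9
    rw [h9]

theorem dirc2_x (D : ∀ k, Dtx (C k) (Th k) (G k) (N0 k) (Z k) (Y k)) {X : ι × ℝ → ZMod 2}
    (hX : ∀ p q k k', Gf C (fun k => Nrm (Th k) (N0 k)) p q k →
      Gf C (fun k => Nrm (Th k) (N0 k)) q p k' → X q = X p + k) {i j : ι} {p p' q q' : ℝ}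
    (hp : p < p') (hq : q < q') (h : Dirc2 (C i) (C j) p p' q q') :
    X (j, q') - X (j, q) = X (i, p') - X (i, p) := by
  have h' := h.symm
  obtain ⟨a, b, a', b', h1, h2, h3, h4, h5, h6, u, v, hu, him, e1, e2⟩ := h
  obtain ⟨K, φ, δ, δ', g1, g2⟩ := plus_germs2 (D i).L (D i).J (D i).pos (D i).A (D j).L (D j).J
    (D j).A (D i).ho (D j).ho (D i).hw (D j).hw h3 h6 hu him h1 h2 h4 h5 hp hq e1 e2
  obtain ⟨a, b, a', b', h1, h2, h3, h4, h5, h6, u', v', hu, him, e1, e2⟩ := h'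
  obtain ⟨K', φ', d, d', g3, g4⟩ := plus_germs2 (D j).L (D j).J (D j).pos (D j).A (D i).L (D i).J
    (D i).A (D j).ho (D i).ho (D j).hw (D i).hw h3 h6 hu him h1 h2 h4 h5 hq hp e1 e2
  exact zm2_sub (hX (i, p) (j, q) K K' (Or.inl ⟨K, φ, δ, u, v, g1, rfl⟩)
    (Or.inl ⟨K', φ', d, u', v', g3, rfl⟩)) (hX (i, p') (j, q') K K'
    (Or.inl ⟨K, φ, δ', u, v, g2, rfl⟩) (Or.inl ⟨K', φ', d', u', v', g4, rfl⟩))

theorem mirc2_x (D : ∀ k, Dtx (C k) (Th k) (G k) (N0 k) (Z k) (Y k)) {X : ι × ℝ → ZMod 2}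
    (hX : ∀ p q k k', Gf C (fun k => Nrm (Th k) (N0 k)) p q k →
      Gf C (fun k => Nrm (Th k) (N0 k)) q p k' → X q = X p + k) {i j : ι} {p p' q q' : ℝ}
    (hp : p < p') (hq : q < q') (h : Mirc2 (C i) (C j) p p' q q') :
    X (j, q') - X (j, q) = X (i, p') - X (i, p) ∧
      (i = j → p = q → p' = q' → X (i, p') - X (i, p) = 0) := by
  have h' := h.symm
  obtain ⟨a, b, a', b', h1, h2, h3, h4, h5, h6, u, v, hu, him, e1, e2⟩ := h
  obtain ⟨K, φ, δ, δ', g1, g2, g5⟩ := minus_germs2 (D i).L (D i).J (D i).pos (D i).A (D j).L (D j).J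
    (D j).A (D i).ho (D j).ho (D i).hw (D j).hw h3 h6 hu him h1 h2 h4 h5 hp hq e1 e2
  obtain ⟨a, b, a', b', h1, h2, h3, h4, h5, h6, u', v', hu, him, e1, e2⟩ := h'
  obtain ⟨K', φ', d, d', g3, g4, -⟩ := minus_germs2 (D j).L (D j).J (D j).pos (D j).A (D i).L
    (D i).J (D i).A (D j).ho (D i).ho (D j).hw (D i).hw h3 h6 hu him h1 h2 h4 h5 hq hp e1 e2
  have x1 := hX (i, p) (j, q') K K' (Or.inr ⟨K, φ, δ, u, v, g1, rfl⟩)
    (Or.inr ⟨K', φ', d', u', v', g4, rfl⟩)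
  have x2 := hX (i, p') (j, q) K K' (Or.inr ⟨K, φ, δ', u, v, g2, rfl⟩)
    (Or.inr ⟨K', φ', d, u', v', g3, rfl⟩)
  refine ⟨zm2_sub' x1 x2, fun hij he he' => ?_⟩
  subst hij
  obtain ⟨m, δ'', T⟩ := g5 he he'
  subst he he'
  have hk : (K : ZMod 2) = 0 := Gf.loop D (p := (i, m)) (Or.inr ⟨K, φ, δ'', u, v, T, rfl⟩)
  rw [hk, add_zero] at x1
  rw [x1, sub_self]

/-- the parity argument for a family of curves -/
theorem grand_false {N : ℕ} (hN : Odd N) {c : Fin N → ℝ → ℂ} (L : ∀ k, Loop (c k))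
    (J : ∀ k, Inj (c k)) (nosq : ∀ k, NoSq (range (c k))) {n : Fin N → ℕ} (hn : ∀ k, 2 ≤ n k)
    {t : Fin N → ℕ → ℝ} (ht : ∀ k, ∀ i < n k, t k i < t k (i + 1))
    (ht1 : ∀ k, t k (n k) = t k 0 + 1) {σ : Fin N × ℕ → Fin N × ℕ}
    (hσ : ∀ k, ∀ i < n k, (σ (k, i)).2 < n (σ (k, i)).1 ∧ σ (σ (k, i)) = (k, i))
    (H : ∀ k, ∀ i < n k,
      (Cone (c k) (t k i) ∧ Cone (c k) (t k (i + 1)) ∧
        ∀ s ∈ Icc (t k i) (t k (i + 1)), Mon (c k) s) ∨
      (Cone (c k) (t k i) ∧ Cone (c k) (t k (i + 1)) ∧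
        Cone (c (σ (k, i)).1) (t (σ (k, i)).1 (σ (k, i)).2) ∧
        Cone (c (σ (k, i)).1) (t (σ (k, i)).1 ((σ (k, i)).2 + 1)) ∧
        ∃ f, Smx f ∧ f '' (c k '' Icc (t k i) (t k (i + 1))) =
          c (σ (k, i)).1 '' Icc (t (σ (k, i)).1 (σ (k, i)).2) (t (σ (k, i)).1 ((σ (k, i)).2 + 1)) ∧
          (σ (k, i) = (k, i) → f (c k (t k i)) = c k (t k (i + 1)))) ∨
      (σ (k, i) ≠ (k, i) ∧ Dirc2 (c k) (c (σ (k, i)).1) (t k i) (t k (i + 1))
        (t (σ (k, i)).1 (σ (k, i)).2) (t (σ (k, i)).1 ((σ (k, i)).2 + 1))) ∨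
      Mirc2 (c k) (c (σ (k, i)).1) (t k i) (t k (i + 1))
        (t (σ (k, i)).1 (σ (k, i)).2) (t (σ (k, i)).1 ((σ (k, i)).2 + 1))) : False := by
  classical
  have ex := fun k => exDtx (L k) (J k) (nosq k)
  choose Th G N0 Z Y D using ex
  obtain ⟨x0, hx0⟩ := exXg (Gf c (fun k => Nrm (Th k) (N0 k))) Gf.refl
    (fun s t r k k' h h' => h.comp h') (fun s k h => Gf.loop D h)
  obtain ⟨X, hXc, hXn⟩ : ∃ X : Fin N × ℝ → ZMod 2, (∀ p, Cone (c p.1) p.2 →
      X p = (Y p.1 p.2 : ZMod 2)) ∧ ∀ p, ¬ Cone (c p.1) p.2 → X p = x0 p :=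
    ⟨fun p => if Cone (c p.1) p.2 then (Y p.1 p.2 : ZMod 2) else x0 p, fun p hp => if_pos hp,
      fun p hp => if_neg hp⟩
  have hX : ∀ p q k k', Gf c (fun k => Nrm (Th k) (N0 k)) p q k →
      Gf c (fun k => Nrm (Th k) (N0 k)) q p k' → X q = X p + k := by
    intro p q k k' h h'
    by_cases hs : Cone (c p.1) p.2
    · obtain ⟨hc, hl⟩ := h.tame D hs
      rw [hXc p hs, hXc q hc]
      exact hl
    · have hc : ¬ Cone (c q.1) q.2 := fun hc => hs (h'.tame D hc).1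
      rw [hXn p hs, hXn q hc]
      exact hx0 _ _ _ _ h h'
  have hXd : ∀ k s, Cone (c k) s → X (k, s) = (Y k s : ZMod 2) := fun k s h => hXc (k, s) h
  have ar : ∀ k, ∀ i < n k, Cone (c k) (t k i) → Cone (c k) (t k (i + 1)) →
      AR (c k) (t k i) (t k (i + 1)) :=
    fun k i hi c1 c2 => ⟨ht k i hi, ord_len (hn k) (ht k) (ht1 k) hi, c1, c2⟩
  obtain ⟨f, hf⟩ : ∃ f : Fin N × ℕ → ZMod 2, ∀ p, f p =
      X (p.1, t p.1 (p.2 + 1)) - X (p.1, t p.1 p.2) := ⟨_, fun _ => rfl⟩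
  have tot : ∑ p ∈ Finset.univ.sigma (fun k : Fin N => Finset.range (n k)), f (p.1, p.2) = 1 := by
    rw [Finset.sum_sigma]
    have e1 : ∀ k : Fin N, ∑ i ∈ Finset.range (n k), f (k, i) = 1 := fun k => by
      have e2 : ∑ i ∈ Finset.range (n k), f (k, i) =
          ∑ i ∈ Finset.range (n k), (X (k, t k (i + 1)) - X (k, t k i)) :=
        Finset.sum_congr rfl fun i _ => hf (k, i)
      rw [e2, Finset.sum_range_sub (fun i => X (k, t k i)), ht1 k,
        hX _ _ _ _ (Gf.shift D k (t k 0)) (Gf.unshift D k (t k 0)), add_sub_cancel_left]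
      exact z2_of_odd (D k).odd
    rw [Finset.sum_congr rfl (fun k _ => e1 k), Finset.sum_const, Finset.card_univ, Fintype.card_fin,
      nsmul_eq_mul, mul_one]
    have := z2_of_odd (m := (N : ℤ)) (by exact_mod_cast hN)
    simpa using this
  have one : ∀ k, ∀ i < n k, (f (k, i) = 0 ∨ f (σ (k, i)) = f (k, i)) ∧
      (σ (k, i) = (k, i) → f (k, i) = 0) := fun k i hi => by
    have hj := (hσ k i hi).1
    rcases H k i hi with ⟨c1, c2, h⟩ | ⟨c1, c2, c3, c4, T, hT, k2, k3⟩ | ⟨hne, h⟩ | h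
    · have e : f (k, i) = 0 := by
        rw [hf]
        simp only
        rw [hXd _ _ c1, hXd _ _ c2]
        rw [(D k).mon _ _ (ar k i hi c1 c2) h, sub_self]
      exact ⟨Or.inl e, fun _ => e⟩
    · have a1 := ar k i hi c1 c2
      refine ⟨Or.inr ?_, fun he => ?_⟩
      · obtain ⟨u, v, hu, hTT⟩ := hT
        have a2 := ar _ _ hj c3 c4
        have hp := pair2 (L k) (J k) (D k).pos (D k).A (L _) (J _) (nosq _) (D _).pos (D _).A a1 a2
          ((D k).lev _ a1.ha) ((D k).lev _ a1.hb) ((D _).lev _ a2.ha) ((D _).lev _ a2.hb) hu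
          (v := v) (by
            rcases hTT with h | h
            · left; rw [← h]; exact k2
            · right; rw [← h]; exact k2)
        rw [hf, hf]
        simp only
        rw [hXd _ _ c1, hXd _ _ c2, hXd _ _ c3, hXd _ _ c4]
        have := z2_pm (m := Y k (t k (i + 1)) - Y k (t k i))
          (m' := Y (σ (k, i)).1 (t (σ (k, i)).1 ((σ (k, i)).2 + 1)) -
            Y (σ (k, i)).1 (t (σ (k, i)).1 (σ (k, i)).2)) (by
          rcases hp with hp | hp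
          · left; linarith
          · right; linarith)
        push_cast at this
        exact this
      · rw [hf]
        simp only
        rw [hXd _ _ c1, hXd _ _ c2]
        have := z2_of_even ((D k).slf _ _ a1 ⟨T, hT, by rw [he] at k2; exact k2, k3 he⟩)
        push_cast at this
        exact this
    · refine ⟨Or.inr ?_, fun he => absurd he hne⟩
      rw [hf, hf]
      exact dirc2_x D hX (ht k i hi) (ht _ _ hj) h
    · obtain ⟨e1, e2⟩ := mirc2_x D hX (ht k i hi) (ht _ _ hj) h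
      refine ⟨Or.inr ?_, fun he => ?_⟩
      · rw [hf, hf]
        exact e1
      · rw [hf]
        exact e2 (by rw [he]) (by rw [he]) (by rw [he])
  have key : ∀ k, ∀ i < n k, f (σ (k, i)) = f (k, i) := fun k i hi => by
    obtain ⟨hj, hjj⟩ := hσ k i hi
    rcases (one k i hi).1 with h | h
    · rcases (one _ _ hj).1 with h' | h'
      · rw [h]; exact h'
      · rw [Prod.mk.eta, hjj] at h'
        exact h'.symm
    · exact h
  have h2 : ∑ p ∈ Finset.univ.sigma (fun k : Fin N => Finset.range (n k)), f (p.1, p.2) = 0 := by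
    refine Finset.sum_involution
      (fun p _ => (⟨(σ (p.1, p.2)).1, (σ (p.1, p.2)).2⟩ : (_ : Fin N) × ℕ))
      (fun p hp => ?_) (fun p hp hne he => ?_) (fun p hp => ?_) (fun p hp => ?_)
    · have hi : p.2 < n p.1 := Finset.mem_range.1 (Finset.mem_sigma.1 hp).2
      simp only [Prod.mk.eta]
      rw [key p.1 p.2 hi]
      exact (zm2 _ 0).1
    · have hi : p.2 < n p.1 := Finset.mem_range.1 (Finset.mem_sigma.1 hp).2
      refine hne ((one p.1 p.2 hi).2 ?_)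
      have e1 := congrArg Sigma.fst he
      have e2 := congrArg (fun q : (_ : Fin N) × ℕ => q.2) he
      exact Prod.ext e1 e2
    · have hi : p.2 < n p.1 := Finset.mem_range.1 (Finset.mem_sigma.1 hp).2
      exact Finset.mem_sigma.2 ⟨Finset.mem_univ _, Finset.mem_range.2 (hσ p.1 p.2 hi).1⟩
    · have hi : p.2 < n p.1 := Finset.mem_range.1 (Finset.mem_sigma.1 hp).2
      have e := (hσ p.1 p.2 hi).2
      simp only [Prod.mk.eta]
      rw [e]
  rw [tot] at h2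
  exact one_ne_zero h2

end Pool.Agent.Y535.PEG
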