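import Pool.Agent.Y535.PEG.Tg5

/-! Theta curves. -/

set_option autoImplicit false
open Complex Set Topology Metric

namespace Pool.Agent.Y535.PEG

open Pool.Agent.H763R2 Pool.Agent.H763R2.An Pool.Agent.W675.Peg Pool.Agent.TH569.Peg
open Pool.Agent.H763R2.Dm (NoSq floor_const)

theorem theta4 {c : Fin 3 → ℝ → ℂ} (L : ∀ k, Loop (c k)) (J : ∀ k, Inj (c k))
    (nosq : ∀ k, NoSq (range (c k))) {p q r s : Fin 3 → ℝ} (h1 : ∀ k, p k < q k)
    (h2 : ∀ k, q k < r k) (h3 : ∀ k, r k < s k) (h4 : ∀ k, s k < p k + 1)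
    (C1 : ∀ k, Cone (c k) (p k)) (C2 : ∀ k, Cone (c k) (q k)) (C3 : ∀ k, Cone (c k) (r k))
    (C4 : ∀ k, Cone (c k) (s k))
    (hs : ∀ k, c k '' Icc (p k) (q k) = c (k + 1) '' Icc (r (k + 1)) (s (k + 1)))
    (m1 : ∀ k, ∀ x ∈ Icc (q k) (r k), Mon (c k) x)
    (m2 : ∀ k, ∀ x ∈ Icc (s k) (p k + 1), Mon (c k) x) : False := by
  obtain ⟨σ, hσ⟩ : ∃ σ : Fin 3 × ℕ → Fin 3 × ℕ, ∀ k,
      σ (k, 0) = (k + 1, 2) ∧ σ (k, 1) = (k, 1) ∧ σ (k, 2) = (k + 2, 0) ∧ σ (k, 3) = (k, 3) :=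
    ⟨fun p => if p.2 = 0 then (p.1 + 1, 2) else if p.2 = 2 then (p.1 + 2, 0) else p,
      fun k => ⟨by simp, by simp, by simp, by simp⟩⟩
  obtain ⟨t, ht⟩ : ∃ t : Fin 3 → ℕ → ℝ, ∀ k, t k 0 = p k ∧ t k 1 = q k ∧ t k 2 = r k ∧
      t k 3 = s k ∧ t k 4 = p k + 1 :=
    ⟨fun k i => if i = 0 then p k else if i = 1 then q k else if i = 2 then r k else
      if i = 3 then s k else p k + 1, fun k => ⟨by simp, by simp, by simp, by simp, by simp⟩⟩
  have idS : Smx (fun z : ℂ => z) := ⟨1, 0, one_ne_zero, Or.inl (by funext z; ring)⟩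
  have C5 : ∀ k, Cone (c k) (p k + 1) := fun k => (C1 k).per (L k)
  have f1 : ∀ k : Fin 3, k + 1 + 2 = k := by decide
  have f2 : ∀ k : Fin 3, k + 2 + 1 = k := by decide
  refine grand_false (N := 3) (by decide) L J nosq (n := fun _ => 4)
    (fun _ => by norm_num) (t := t) ?_ ?_ (σ := σ) ?_ ?_
  · intro k i hi
    obtain ⟨t0, t1, t2, t3, t4⟩ := ht k
    interval_cases i
    · show t k 0 < t k 1
      rw [t0, t1]; exact h1 k
    · show t k 1 < t k 2
      rw [t1, t2]; exact h2 k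
    · show t k 2 < t k 3
      rw [t2, t3]; exact h3 k
    · show t k 3 < t k 4
      rw [t3, t4]; exact h4 k
  · intro k
    obtain ⟨t0, t1, t2, t3, t4⟩ := ht k
    show t k 4 = t k 0 + 1
    rw [t0, t4]
  · intro k i hi
    interval_cases i
    · rw [(hσ k).1, (hσ (k + 1)).2.2.1, f1]
      exact ⟨by norm_num, rfl⟩
    · rw [(hσ k).2.1, (hσ k).2.1]
      exact ⟨by norm_num, rfl⟩
    · rw [(hσ k).2.2.1, (hσ (k + 2)).1, f2]
      exact ⟨by norm_num, rfl⟩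
    · rw [(hσ k).2.2.2, (hσ k).2.2.2]
      exact ⟨by norm_num, rfl⟩
  · intro k i hi
    obtain ⟨t0, t1, t2, t3, t4⟩ := ht k
    interval_cases i
    · refine Or.inr (Or.inl ?_)
      rw [(hσ k).1]
      show Cone (c k) (t k 0) ∧ Cone (c k) (t k 1) ∧ Cone (c (k + 1)) (t (k + 1) 2) ∧
        Cone (c (k + 1)) (t (k + 1) 3) ∧ ∃ f, Smx f ∧ f '' (c k '' Icc (t k 0) (t k 1)) =
          c (k + 1) '' Icc (t (k + 1) 2) (t (k + 1) 3) ∧
          ((k + 1, 2) = (k, 0) → f (c k (t k 0)) = c k (t k 1))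
      rw [t0, t1, (ht (k + 1)).2.2.1, (ht (k + 1)).2.2.2.1]
      refine ⟨C1 k, C2 k, C3 _, C4 _, fun z => z, idS, ?_, fun h => ?_⟩
      · rw [image_id']
        exact hs k
      · exact absurd (congrArg Prod.snd h) (by simp)
    · refine Or.inl ?_
      show Cone (c k) (t k 1) ∧ Cone (c k) (t k 2) ∧ ∀ s ∈ Icc (t k 1) (t k 2), Mon (c k) s
      rw [t1, t2]
      exact ⟨C2 k, C3 k, m1 k⟩
    · refine Or.inr (Or.inl ?_)
      rw [(hσ k).2.2.1]
      show Cone (c k) (t k 2) ∧ Cone (c k) (t k 3) ∧ Cone (c (k + 2)) (t (k + 2) 0) ∧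
        Cone (c (k + 2)) (t (k + 2) 1) ∧ ∃ f, Smx f ∧ f '' (c k '' Icc (t k 2) (t k 3)) =
          c (k + 2) '' Icc (t (k + 2) 0) (t (k + 2) 1) ∧
          ((k + 2, 0) = (k, 2) → f (c k (t k 2)) = c k (t k 3))
      rw [t2, t3, (ht (k + 2)).1, (ht (k + 2)).2.1]
      refine ⟨C3 k, C4 k, C1 _, C2 _, fun z => z, idS, ?_, fun h => ?_⟩
      · rw [image_id']
        have := hs (k + 2)
        rw [f2 k] at this
        exact this.symm
      · exact absurd (congrArg Prod.snd h) (by simp)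
    · refine Or.inl ?_
      show Cone (c k) (t k 3) ∧ Cone (c k) (t k 4) ∧ ∀ s ∈ Icc (t k 3) (t k 4), Mon (c k) s
      rw [t3, t4]
      exact ⟨C4 k, C5 k, m2 k⟩

theorem Cone.mon {c : ℝ → ℂ} {s : ℝ} (h : Cone c s) : Mon c s := by
  obtain ⟨ρ, hρ, w, hw⟩ := h
  exact ⟨ρ, hρ, w, fun x y hx hy hxy => (abs_nonneg _).trans_lt (hw x y hx hy hxy)⟩

theorem Mon.per {c : ℝ → ℂ} (L : Loop c) {s : ℝ} (h : Mon c s) : Mon c (s + 1) := by
  obtain ⟨ρ, hρ, w, hw⟩ := h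
  refine ⟨ρ, hρ, w, fun x y hx hy hxy => ?_⟩
  have := hw (x - 1) (y - 1) (by rwa [show x - 1 - s = x - (s + 1) by ring])
    (by rwa [show y - 1 - s = y - (s + 1) by ring]) (by linarith)
  rwa [← L.per (x - 1), ← L.per (y - 1), sub_add_cancel, sub_add_cancel] at this

/-- inner parts of a common arc of two curves -/
theorem innerArc {c c' : ℝ → ℂ} (L : Loop c) (J : Inj c) (L' : Loop c') (J' : Inj c')
    (h : c '' Icc 0 (1 / 2) = c' '' Icc (1 / 2) 1) {ρ : ℝ} (hρ : 0 < ρ) :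
    ∃ p q r s : ℝ, 0 < p ∧ p < ρ ∧ p < q ∧ q < 1 / 2 ∧ 1 / 2 - q < ρ ∧ 1 / 2 < r ∧ r - 1 / 2 < ρ ∧
      r < s ∧ s < 1 ∧ 1 - s < ρ ∧ c '' Icc p q = c' '' Icc r s := by
  have hT : Smy (fun z => (1 : ℂ) * z + 0) 1 1 := ⟨one_ne_zero, Or.inl ⟨rfl, 0, fun _ => rfl⟩⟩
  obtain ⟨φ, d, P, hφ⟩ := mk_mq L J L' J' hT (a := 0) (b := 1 / 2) (a' := 1 / 2) (b' := 1)
    (by norm_num) (by norm_num) (by norm_num) (by norm_num) (by
      rw [← h, image_image]
      simp)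
  have heq : ∀ x ∈ Icc (0 : ℝ) (1 / 2), c' (φ x) = c x := fun x hx => by
    rw [P.eq x hx]; ring
  have m0 : (0 : ℝ) ∈ Icc (0 : ℝ) (1 / 2) := ⟨le_rfl, by norm_num⟩
  have m1 : (1 / 2 : ℝ) ∈ Icc (0 : ℝ) (1 / 2) := ⟨by norm_num, le_rfl⟩
  obtain ⟨η, hη, n1⟩ := Metric.continuousWithinAt_iff.1 (P.cont 0 m0) ρ hρ
  obtain ⟨η', hη', n2⟩ := Metric.continuousWithinAt_iff.1 (P.cont (1 / 2) m1) ρ hρ
  simp only [Real.dist_eq] at n1 n2
  obtain ⟨p, hp0, hp1, hp2, hp3⟩ : ∃ p, 0 < p ∧ p < η ∧ p < ρ ∧ p < 1 / 4 := by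
    have h1 : 0 < min (min η ρ) (1 / 4) := by positivity
    refine ⟨min (min η ρ) (1 / 4) / 2, by positivity, ?_, ?_, ?_⟩
    · have := (min_le_left (min η ρ) (1 / 4)).trans (min_le_left _ _); linarith
    · have := (min_le_left (min η ρ) (1 / 4)).trans (min_le_right _ _); linarith
    · have := min_le_right (min η ρ) (1 / 4); linarith
  obtain ⟨e, he0, he1, he2, he3⟩ : ∃ p, 0 < p ∧ p < η' ∧ p < ρ ∧ p < 1 / 4 := by
    have h1 : 0 < min (min η' ρ) (1 / 4) := by positivity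
    refine ⟨min (min η' ρ) (1 / 4) / 2, by positivity, ?_, ?_, ?_⟩
    · have := (min_le_left (min η' ρ) (1 / 4)).trans (min_le_left _ _); linarith
    · have := (min_le_left (min η' ρ) (1 / 4)).trans (min_le_right _ _); linarith
    · have := min_le_right (min η' ρ) (1 / 4); linarith
  obtain ⟨q, hq⟩ : ∃ q, q = 1 / 2 - e := ⟨_, rfl⟩
  have mp : p ∈ Icc (0 : ℝ) (1 / 2) := ⟨hp0.le, by linarith⟩
  have mq : q ∈ Icc (0 : ℝ) (1 / 2) := ⟨by linarith, by linarith⟩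
  have k1 := n1 mp (by rw [sub_zero, abs_of_pos hp0]; exact hp1)
  have k2 := n2 mq (by rw [abs_lt]; constructor <;> linarith)
  rw [abs_lt] at k1 k2
  have sub : Icc p q ⊆ Icc (0 : ℝ) (1 / 2) := Icc_subset_Icc mp.1 mq.2
  have hcq : ContinuousOn φ (Icc p q) := P.cont.mono sub
  have im : ∀ r s : ℝ, φ '' Icc p q = Icc r s → c '' Icc p q = c' '' Icc r s := fun r s hrs => by
    rw [← hrs, image_image]
    exact image_congr fun x hx => (heq x (sub hx)).symm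
  rcases hφ with ⟨hd, f1, f2⟩ | ⟨hd, f1, f2⟩
  · have mono : StrictMonoOn φ (Icc 0 (1 / 2)) := by
      rcases P.mono with ⟨-, h, -⟩ | ⟨h, -⟩
      · exact h
      · rw [hd] at h; exact absurd h (by decide)
    have g1 := mono m0 mp hp0
    have g2 := mono mq m1 (by linarith)
    have g3 := mono mp mq (by linarith)
    rw [f1] at g1 k1
    rw [f2] at g2 k2
    refine ⟨p, q, φ p, φ q, hp0, hp2, by linarith, by linarith, by linarith, g1, by linarith, g3, g2,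
      by linarith, im _ _ (Subset.antisymm ?_ (intermediate_value_Icc (by linarith) hcq))⟩
    rintro _ ⟨x, hx, rfl⟩
    exact ⟨mono.monotoneOn mp (sub hx) hx.1, mono.monotoneOn (sub hx) mq hx.2⟩
  · have anti : StrictAntiOn φ (Icc 0 (1 / 2)) := by
      rcases P.mono with ⟨h, -⟩ | ⟨-, h, -⟩
      · rw [hd] at h; exact absurd h (by decide)
      · exact h
    have g1 := anti m0 mp hp0
    have g2 := anti mq m1 (by linarith)
    have g3 := anti mp mq (by linarith)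
    rw [f1] at g1 k1
    rw [f2] at g2 k2
    refine ⟨p, q, φ q, φ p, hp0, hp2, by linarith, by linarith, by linarith, g2, by linarith, g3, g1,
      by linarith, im _ _ (Subset.antisymm ?_ (intermediate_value_Icc' (by linarith) hcq))⟩
    rintro _ ⟨x, hx, rfl⟩
    exact ⟨anti.antitoneOn (sub hx) mq hx.2, anti.antitoneOn mp (sub hx) hx.1⟩

/-- theta curves that are locally monotone at the junctions and tame near them -/
theorem theta_false {c : Fin 3 → ℝ → ℂ} (L : ∀ k, Loop (c k)) (J : ∀ k, Inj (c k))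
    (nosq : ∀ k, NoSq (range (c k)))
    (h3 : ∀ k, c k '' Icc 0 (1 / 2) = c (k + 1) '' Icc (1 / 2) 1)
    (M0 : ∀ k, Mon (c k) 0) (M1 : ∀ k, Mon (c k) (1 / 2)) {ρ : ℝ} (hρ : 0 < ρ)
    (T0 : ∀ k s, 0 < |s| → |s| < ρ → Cone (c k) s)
    (T1 : ∀ k s, 0 < |s - 1 / 2| → |s - 1 / 2| < ρ → Cone (c k) s) : False := by
  have ex := fun k => innerArc (L k) (J k) (L (k + 1)) (J (k + 1)) (h3 k) hρ
  choose p q r' s' a1 a2 a3 a4 a5 a6 a7 a8 a9 a10 a11 using ex
  have f1 : ∀ k : Fin 3, k + 1 + 2 = k := by decide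
  have cs : ∀ k, Cone (c k) (s' (k + 2)) := fun k => by
    have h1 := a9 (k + 2)
    have h2 := a10 (k + 2)
    have := (T0 k (s' (k + 2) - 1) (abs_pos.2 (by linarith)) (by rw [abs_lt]; constructor <;> linarith)).per
      (L k)
    rwa [sub_add_cancel] at this
  refine theta4 L J nosq (p := p) (q := q) (r := fun k => r' (k + 2)) (s := fun k => s' (k + 2)) a3
    (fun k => by linarith [a4 k, a6 (k + 2)]) (fun k => a8 _) (fun k => by linarith [a9 (k + 2), a1 k])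
    (fun k => T0 k _ (abs_pos.2 (a1 k).ne') (by rw [abs_of_pos (a1 k)]; exact a2 k))
    (fun k => T1 k _ (abs_pos.2 (by linarith [a4 k])) (by
      rw [abs_lt]; constructor <;> linarith [a4 k, a5 k]))
    (fun k => T1 k _ (abs_pos.2 (by linarith [a6 (k + 2)])) (by
      rw [abs_lt]; constructor <;> linarith [a6 (k + 2), a7 (k + 2)]))
    cs (fun k => by
      show _ = c (k + 1) '' Icc (r' (k + 1 + 2)) (s' (k + 1 + 2))
      rw [f1]
      exact a11 k) (fun k x hx => ?_) (fun k x hx => ?_)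
  · have b1 := a5 k
    have b2 := a7 (k + 2)
    have b3 := hx.1
    have b4 : x ≤ r' (k + 2) := hx.2
    by_cases h : x = 1 / 2
    · rw [h]; exact M1 k
    · exact (T1 k x (abs_pos.2 (sub_ne_zero.2 h)) (by rw [abs_lt]; constructor <;> linarith)).mon
  · have b1 := a10 (k + 2)
    have b2 := a2 k
    have b3 : s' (k + 2) ≤ x := hx.1
    have b4 := hx.2
    have : Mon (c k) (x - 1) := by
      by_cases h : x - 1 = 0
      · rw [h]; exact M0 k
      · exact (T0 k (x - 1) (abs_pos.2 h) (by rw [abs_lt]; constructor <;> linarith)).mon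
    have := this.per (L k)
    rwa [sub_add_cancel] at this

end Pool.Agent.Y535.PEG
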