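import Pool.Agent.Y535.PEG.Arq

/-! Differences of winding numbers near arcs of two curves that correspond by a similarity. -/

set_option autoImplicit false
open Complex Set Topology Metric

namespace Pool.Agent.Y535.PEG

open Pool.Agent.H763R2 Pool.Agent.H763R2.An Pool.Agent.W675.Peg Pool.Agent.TH569.Peg
open Pool.Agent.H763R2.Dm (NoSq floor_const)

variable {c c' : ℝ → ℂ}

/-- differences of winding numbers near an arc mapped by a similarity -/
theorem loc_wind3 (L : Loop c) (L' : Loop c') {T : ℂ → ℂ} {u : ℂ} {e d : ℤ} (hT : Smy T u e) {α β : ℝ}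
    (hαβ : α < β) (hβ : β < α + 1) {φ : ℝ → ℝ} (hφ : ContinuousOn φ (Icc α β))
    (hφc : ∀ s ∈ Icc α β, c' (φ s) = T (c s))
    (hd : (d = 1 ∧ φ α < φ β ∧ φ β < φ α + 1) ∨ (d = -1 ∧ φ β < φ α ∧ φ α < φ β + 1)) {z z' : ℂ}
    (h1 : ∀ s ∈ Icc β (α + 1), ‖z - z'‖ < ‖c s - z'‖)
    (h2 : ∀ s ∈ Icc (max (φ α) (φ β)) (min (φ α) (φ β) + 1), ‖T z - T z'‖ < ‖c' s - T z'‖)
    {n n' m m' : ℤ} (hn : IsWc c z n) (hn' : IsWc c z' n') (hm : IsWc c' (T z) m)
    (hm' : IsWc c' (T z') m') : m - m' = d * e * (n - n') := by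
  obtain ⟨k, hk, ek, e1⟩ := hn
  obtain ⟨k', hk', ek', e1'⟩ := hn'
  obtain ⟨q, hq, eq, e2⟩ := hm
  obtain ⟨q', hq', eq', e2'⟩ := hm'
  have hπ := Real.pi_pos
  have hu := hT.ne
  obtain ⟨A, hA⟩ : ∃ A : ℝ → ℂ, A = fun s => k s - k' s := ⟨_, rfl⟩
  obtain ⟨B, hB⟩ : ∃ B : ℝ → ℂ, B = fun s => q s - q' s := ⟨_, rfl⟩
  have cA : Continuous A := by rw [hA]; fun_prop
  have cB : Continuous B := by rw [hB]; fun_prop
  have eA : ∀ s, exp (A s) = (c s - z) / (c s - z') := fun s => by
    rw [hA]; simp only; rw [exp_sub, ek, ek']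
  have eB : ∀ s, exp (B s) = (c' s - T z) / (c' s - T z') := fun s => by
    rw [hB]; simp only; rw [exp_sub, eq, eq']
  have nz' : ∀ s, c s - z' ≠ 0 := fun s => by rw [← ek']; exact exp_ne_zero _
  have nz : ∀ s, c s - z ≠ 0 := fun s => by rw [← ek]; exact exp_ne_zero _
  have nw' : ∀ s, c' s - T z' ≠ 0 := fun s => by rw [← eq']; exact exp_ne_zero _
  have hα : α ∈ Icc α β := ⟨le_rfl, hαβ.le⟩
  have hβ' : β ∈ Icc α β := ⟨hαβ.le, le_rfl⟩
  -- the local part
  have hloc : (B (φ β)).im - (B (φ α)).im = e * ((A β).im - (A α).im) := by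
    have cBφ : ContinuousOn (fun s => B (φ s)) (Icc α β) := cB.comp_continuousOn hφ
    rcases hT.h with ⟨he, v, hv⟩ | ⟨he, v, hv⟩
    · have := H777R2.exp_const_on (X := ℝ) (A := Icc α β) isPreconnected_Icc
        (k := fun s => B (φ s) - A s) (cBφ.sub cA.continuousOn) (c := 1) (fun s hs => ?_) hβ' hα
      · have h3 := congrArg Complex.im this
        simp only [sub_im] at h3
        rw [he]; push_cast; linarith
      · rw [exp_sub, eA, eB, hφc s hs, hv, hv, hv]
        have a1 := nz' s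
        have e3 : u * c s + v - (u * z + v) = u * (c s - z) := by ring
        have e4 : u * c s + v - (u * z' + v) = u * (c s - z') := by ring
        rw [e3, e4, mul_div_mul_left _ _ hu]
        exact div_self (div_ne_zero (nz s) a1)
    · have := H777R2.exp_const_on (X := ℝ) (A := Icc α β) isPreconnected_Icc
        (k := fun s => B (φ s) - (starRingEnd ℂ) (A s))
        (cBφ.sub (continuous_conj.comp cA).continuousOn) (c := 1) (fun s hs => ?_) hβ' hα
      · have h3 := congrArg Complex.im this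
        simp only [sub_im, conj_im] at h3
        rw [he]; push_cast; linarith
      · rw [exp_sub, exp_conj, eA, eB, hφc s hs, hv, hv, hv]
        have a1 := nz' s
        have e3 : u * (starRingEnd ℂ) (c s) + v - (u * (starRingEnd ℂ) z + v) =
            u * (starRingEnd ℂ) (c s - z) := by rw [map_sub]; ring
        have e4 : u * (starRingEnd ℂ) (c s) + v - (u * (starRingEnd ℂ) z' + v) =
            u * (starRingEnd ℂ) (c s - z') := by rw [map_sub]; ring
        rw [e3, e4, mul_div_mul_left _ _ hu, map_div₀]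
        refine div_self (div_ne_zero ?_ ?_)
        · rw [Ne, map_eq_zero]; exact nz s
        · rw [Ne, map_eq_zero]; exact a1
  -- the far part
  have far : ∀ {a b w : ℂ}, b ≠ 0 → ‖w‖ < ‖b‖ → a = b - w → 0 < (a / b).re := by
    intro a b w hb hw e
    rw [e, sub_div, div_self hb, sub_re, one_re]
    have h3 : ‖w / b‖ < 1 := by rw [norm_div, div_lt_one (norm_pos_iff.2 hb)]; exact hw
    have h4 := re_le_norm (w / b)
    linarith
  have posA : ∀ s ∈ Icc β (α + 1), 0 < Real.cos (A s).im := by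
    intro s hs
    have h3 := far (a := c s - z) (nz' s) (h1 s hs) (by ring)
    rw [← eA, exp_re] at h3
    exact (mul_pos_iff_of_pos_left (Real.exp_pos _)).1 h3
  have posB : ∀ s ∈ Icc (max (φ α) (φ β)) (min (φ α) (φ β) + 1), 0 < Real.cos (B s).im := by
    intro s hs
    have h3 := far (a := c' s - T z) (nw' s) (h2 s hs) (by ring)
    rw [← eB, exp_re] at h3
    exact (mul_pos_iff_of_pos_left (Real.exp_pos _)).1 h3
  have gA := cos_pos_lt (f := fun s => (A s).im) (by fun_prop) hβ.le posA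
  have sA : ∀ s, (A (s + 1)).im - (A s).im = (n - n' : ℤ) * (2 * Real.pi) := by
    intro s
    have a1 := wc_step L hk ek e1 s
    have a2 := wc_step L hk' ek' e1' s
    have a3 : A (s + 1) - A s = ((((n - n' : ℤ) : ℝ) * (2 * Real.pi) : ℝ) : ℂ) * I := by
      rw [hA]; push_cast; linear_combination a1 - a2
    have a4 := congrArg Complex.im a3
    rwa [sub_im, mul_I_im, ofReal_re] at a4
  have sB : ∀ s, (B (s + 1)).im - (B s).im = (m - m' : ℤ) * (2 * Real.pi) := by
    intro s
    have a1 := wc_step L' hq eq e2 s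
    have a2 := wc_step L' hq' eq' e2' s
    have a3 : B (s + 1) - B s = ((((m - m' : ℤ) : ℝ) * (2 * Real.pi) : ℝ) : ℂ) * I := by
      rw [hB]; push_cast; linear_combination a1 - a2
    have a4 := congrArg Complex.im a3
    rwa [sub_im, mul_I_im, ofReal_re] at a4
  have sA1 := sA α
  -- reduce to a strict inequality
  suffices key : |((m - m' - d * e * (n - n') : ℤ) : ℝ) * (2 * Real.pi)| < 2 * Real.pi by
    rw [abs_mul, abs_of_pos (show 0 < 2 * Real.pi by positivity)] at key
    have i1 : |((m - m' - d * e * (n - n') : ℤ) : ℝ)| < 1 := by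
      by_contra hcon
      push Not at hcon
      nlinarith
    have i2 : |(m - m' - d * e * (n - n') : ℤ)| < 1 := by exact_mod_cast i1
    have i3 := Int.abs_lt_one_iff.1 i2
    linarith
  have he2 : (e : ℝ) = 1 ∨ (e : ℝ) = -1 := by
    rcases hT.h with ⟨he, -⟩ | ⟨he, -⟩
    · left; rw [he]; norm_num
    · right; rw [he]; norm_num
  rcases hd with ⟨hd, hlt, hlt1⟩ | ⟨hd, hlt, hlt1⟩
  · rw [max_eq_right hlt.le, min_eq_left hlt.le] at posB
    have gB := cos_pos_lt (f := fun s => (B s).im) (by fun_prop) hlt1.le posB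
    have sB1 := sB (φ α)
    have e5 : ((m - m' - d * e * (n - n') : ℤ) : ℝ) * (2 * Real.pi) =
        ((B (φ α + 1)).im - (B (φ β)).im) - e * ((A (α + 1)).im - (A β).im) := by
      rw [hd]
      push_cast at sA1 sB1 ⊢
      linear_combination -sB1 + hloc + e * sA1
    rw [e5]

    rw [abs_lt] at gA gB ⊢
    rcases he2 with he | he <;> rw [he] <;> constructor <;> linarith [gA.1, gA.2, gB.1, gB.2]
  · rw [max_eq_left hlt.le, min_eq_right hlt.le] at posB
    have gB := cos_pos_lt (f := fun s => (B s).im) (by fun_prop) hlt1.le posB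
    have sB1 := sB (φ β)
    have e5 : ((m - m' - d * e * (n - n') : ℤ) : ℝ) * (2 * Real.pi) =
        ((B (φ β + 1)).im - (B (φ α)).im) + e * ((A (α + 1)).im - (A β).im) := by
      rw [hd]
      push_cast at sA1 sB1 ⊢
      linear_combination -sB1 - hloc - e * sA1
    rw [e5]

    rw [abs_lt] at gA gB ⊢
    rcases he2 with he | he <;> rw [he] <;> constructor <;> linarith [gA.1, gA.2, gB.1, gB.2]

end Pool.Agent.Y535.PEG
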