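import Pool.Agent.Y535.PEG.Tw1

/-! The signed distances of two Jordan curves near arcs that correspond by a similarity. -/

set_option autoImplicit false
open Complex Set Topology Metric

namespace Pool.Agent.Y535.PEG

open Pool.Agent.H763R2 Pool.Agent.H763R2.An Pool.Agent.W675.Peg Pool.Agent.TH569.Peg
open Pool.Agent.H763R2.Dm (NoSq floor_const)

variable {c c' : ℝ → ℂ}

/-- the arc `[a, b]` of a curve is mapped by `T` into another curve, the parameter being changed by `φ` -/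
structure Mq (c c' : ℝ → ℂ) (T : ℂ → ℂ) (φ : ℝ → ℝ) (a b : ℝ) (d : ℤ) : Prop where
  ab : a < b
  b1 : b < a + 1
  cont : ContinuousOn φ (Icc a b)
  eq : ∀ s ∈ Icc a b, c' (φ s) = T (c s)
  mono : (d = 1 ∧ StrictMonoOn φ (Icc a b) ∧ φ b < φ a + 1) ∨
    (d = -1 ∧ StrictAntiOn φ (Icc a b) ∧ φ a < φ b + 1)

/-- the images of the two sides of a parameter are at a positive distance -/
theorem Mq.gap {T : ℂ → ℂ} {φ : ℝ → ℝ} {a b : ℝ} {d : ℤ} (h : Mq c c' T φ a b d) {a1 b1 δ : ℝ}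
    (hδ : 0 < δ) (ha : a + δ ≤ a1) (hb : b1 + δ ≤ b) (h11 : a1 ≤ b1) : ∃ δ' > 0, ∀ t ∈ Icc a1 b1,
    (φ t + δ' ≤ max (φ (t - δ)) (φ (t + δ))) ∧ (min (φ (t - δ)) (φ (t + δ)) ≤ φ t - δ') := by
  have hc := h.cont
  have m0 : ∀ t ∈ Icc a1 b1, t ∈ Icc a b := fun t ht => ⟨by linarith [ht.1], by linarith [ht.2]⟩
  have m1 : ∀ t ∈ Icc a1 b1, t - δ ∈ Icc a b := fun t ht =>
    ⟨by linarith [ht.1], by linarith [ht.2]⟩
  have m2 : ∀ t ∈ Icc a1 b1, t + δ ∈ Icc a b := fun t ht =>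
    ⟨by linarith [ht.1], by linarith [ht.2]⟩
  have c0 : ContinuousOn φ (Icc a1 b1) := hc.mono m0
  have c1 : ContinuousOn (fun t => φ (t - δ)) (Icc a1 b1) :=
    hc.comp (by fun_prop) m1
  have c2 : ContinuousOn (fun t => φ (t + δ)) (Icc a1 b1) :=
    hc.comp (by fun_prop) m2
  obtain ⟨t0, ht0, hmin⟩ := isCompact_Icc.exists_isMinOn (nonempty_Icc.2 h11)
    (f := fun t => min (max (φ (t - δ)) (φ (t + δ)) - φ t) (φ t - min (φ (t - δ)) (φ (t + δ))))
    (((c1.sup c2).sub c0).inf (c0.sub (c1.inf c2)))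
  refine ⟨min (max (φ (t0 - δ)) (φ (t0 + δ)) - φ t0) (φ t0 - min (φ (t0 - δ)) (φ (t0 + δ))),
    ?_, fun t ht => ?_⟩
  · rcases h.mono with ⟨-, hm, -⟩ | ⟨-, hm, -⟩
    · have e1 := hm (m1 t0 ht0) (m0 t0 ht0) (by linarith)
      have e2 := hm (m0 t0 ht0) (m2 t0 ht0) (by linarith)
      exact lt_min (by rw [sub_pos]; exact lt_max_of_lt_right e2)
        (by rw [sub_pos]; exact min_lt_of_left_lt e1)
    · have e1 := hm (m1 t0 ht0) (m0 t0 ht0) (by linarith)
      have e2 := hm (m0 t0 ht0) (m2 t0 ht0) (by linarith)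
      exact lt_min (by rw [sub_pos]; exact lt_max_of_lt_left e1)
        (by rw [sub_pos]; exact min_lt_of_right_lt e2)
  · have := isMinOn_iff.1 hmin t ht
    obtain ⟨g1, g2⟩ := le_min_iff.1 this
    constructor <;> linarith

/-- the signed distance near an arc mapped by a similarity -/
theorem arc_eq3 (L : Loop c) (J : Inj c) {z0 : ℂ} (h0 : 0 < mgc c z0)
    (L' : Loop c') (J' : Inj c') {z1 : ℂ} (h1 : 0 < mgc c' z1) {T : ℂ → ℂ} {u : ℂ}
    {e d : ℤ} (hT : Smy T u e) {φ : ℝ → ℝ} {a b : ℝ} (P : Mq c c' T φ a b d) {a1 b1 : ℝ}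
    (ha1 : a < a1) (hb1 : b1 < b) (h11 : a1 ≤ b1) :
    ∃ ε : ℝ, (ε = 1 ∨ ε = -1) ∧ ∃ r > 0, ∀ t ∈ Icc a1 b1, ∀ z, ‖z - c t‖ < r →
      mgc c' (T z) = ε * (‖u‖ * mgc c z) := by
  obtain ⟨δ, hδ, hδ1, hδ2, hδ3⟩ : ∃ δ > 0, a + δ ≤ a1 ∧ b1 + δ ≤ b ∧ δ < 1 / 2 :=
    ⟨min (min (a1 - a) (b - b1)) (1 / 4), lt_min (lt_min (by linarith) (by linarith)) (by norm_num),
      by linarith [(min_le_left (min (a1 - a) (b - b1)) (1 / 4)).trans (min_le_left _ _)],
      by linarith [(min_le_left (min (a1 - a) (b - b1)) (1 / 4)).trans (min_le_right _ _)],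
      lt_of_le_of_lt (min_le_right _ _) (by norm_num)⟩
  obtain ⟨δ0, hδ0, hgap0⟩ := P.gap hδ hδ1 hδ2 h11
  obtain ⟨δ', hδ', hδ'2, hgap⟩ : ∃ δ' > 0, δ' < 1 / 2 ∧ ∀ t ∈ Icc a1 b1,
    (φ t + δ' ≤ max (φ (t - δ)) (φ (t + δ))) ∧ (min (φ (t - δ)) (φ (t + δ)) ≤ φ t - δ') :=
    ⟨min δ0 (1 / 4), by positivity, lt_of_le_of_lt (min_le_right _ _) (by norm_num), fun t ht =>
      ⟨by linarith [(hgap0 t ht).1, min_le_left δ0 (1 / 4)],
        by linarith [(hgap0 t ht).2, min_le_left δ0 (1 / 4)]⟩⟩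
  obtain ⟨ρ, hρ, hnear⟩ := near_par L J hδ
  obtain ⟨ρ', hρ', hnear'⟩ := near_par L' J' hδ'
  obtain ⟨n0, ho, hw⟩ := wind_vals L J h0
  obtain ⟨n1, ho1, hw1⟩ := wind_vals L' J' h1
  have hu := hT.ne
  have hu0 : 0 < ‖u‖ := norm_pos_iff.2 hu
  have n00 : n0 ≠ 0 := by
    rintro rfl
    exact absurd ho (by decide)
  have n10 : n1 ≠ 0 := by
    rintro rfl
    exact absurd ho1 (by decide)
  obtain ⟨r, hr, hr1, hr2⟩ : ∃ r > 0, 3 * r < ρ ∧ 3 * (‖u‖ * r) < ρ' := by
    refine ⟨min (ρ / 4) (ρ' / (4 * ‖u‖)), by positivity, ?_, ?_⟩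
    · have := min_le_left (ρ / 4) (ρ' / (4 * ‖u‖))
      linarith
    · have h1 := min_le_right (ρ / 4) (ρ' / (4 * ‖u‖))
      have h2 := mul_le_mul_of_nonneg_left h1 hu0.le
      have h3 : ‖u‖ * (ρ' / (4 * ‖u‖)) = ρ' / 4 := by field_simp
      linarith
  refine ⟨if d * e * n0 = n1 then 1 else -1, by split_ifs <;> simp, r, hr, fun t ht z hz => ?_⟩
  have htt : t ∈ Icc a b := ⟨by linarith [ht.1], by linarith [ht.2]⟩
  have hmem : ∀ e : ℝ, |e| ≤ δ → t + e ∈ Icc a b := fun e he => by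
    rw [abs_le] at he
    exact ⟨by linarith [ht.1], by linarith [ht.2]⟩
  have hTt0 : c' (φ t) = T (c t) := P.eq t htt
  have hα := hmem (-δ) (by rw [abs_neg, abs_of_pos hδ])
  have hβ := hmem δ (by rw [abs_of_pos hδ])
  rw [← sub_eq_add_neg] at hα
  have hsub : Icc (t - δ) (t + δ) ⊆ Icc a b := Icc_subset_Icc hα.1 hβ.2
  obtain ⟨gg1, gg2⟩ := hgap t ht
  have hmono : (d = 1 ∧ φ (t - δ) < φ (t + δ) ∧ φ (t + δ) < φ (t - δ) + 1) ∨
      (d = -1 ∧ φ (t + δ) < φ (t - δ) ∧ φ (t - δ) < φ (t + δ) + 1) := by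
    have ab := P.ab.le
    rcases P.mono with ⟨h1, h2, h3⟩ | ⟨h1, h2, h3⟩
    · refine Or.inl ⟨h1, h2 hα hβ (by linarith), ?_⟩
      have g1 := h2.monotoneOn ⟨le_rfl, ab⟩ hα hα.1
      have g2 := h2.monotoneOn hβ ⟨ab, le_rfl⟩ hβ.2
      linarith
    · refine Or.inr ⟨h1, h2 hα hβ (by linarith), ?_⟩
      have g1 := h2.antitoneOn ⟨le_rfl, ab⟩ hα hα.1
      have g2 := h2.antitoneOn hβ ⟨ab, le_rfl⟩ hβ.2
      linarith
  -- nearby curve points of the image
  have hpre : ∀ e : ℝ, |e| < δ' → ∃ s ∈ Icc a b, φ s = φ t + e := by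
    intro e he
    rw [abs_lt] at he
    have cφ : ContinuousOn φ (Icc (t - δ) (t + δ)) := P.cont.mono hsub
    rcases hmono with ⟨-, h2, -⟩ | ⟨-, h2, -⟩
    · rw [max_eq_right h2.le] at gg1
      rw [min_eq_left h2.le] at gg2
      obtain ⟨s, hs, hse⟩ := intermediate_value_Icc (by linarith : t - δ ≤ t + δ) cφ
        (show φ t + e ∈ Icc (φ (t - δ)) (φ (t + δ)) from ⟨by linarith, by linarith⟩)
      exact ⟨s, hsub hs, hse⟩
    · rw [max_eq_left h2.le] at gg1
      rw [min_eq_right h2.le] at gg2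
      obtain ⟨s, hs, hse⟩ := intermediate_value_Icc' (by linarith : t - δ ≤ t + δ) cφ
        (show φ t + e ∈ Icc (φ (t + δ)) (φ (t - δ)) from ⟨by linarith, by linarith⟩)
      exact ⟨s, hsub hs, hse⟩
  -- distances
  have hdist : ∀ y : ℂ, ‖y - c t‖ < r →
      infDist (T y) (range c') = ‖u‖ * infDist y (range c) := by
    intro y hy
    apply le_antisymm
    · have h1 : infDist (T y) (range c') / ‖u‖ ≤ infDist y (range c) := by
        refine le_of_forall_gt fun d hd => ?_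
        have h2 : infDist y (range c) < r := by
          refine lt_of_le_of_lt (infDist_le_dist_of_mem (mem_range_self t)) ?_
          rw [dist_eq_norm]; exact hy
        obtain ⟨w, ⟨s, rfl⟩, hwd⟩ := (infDist_lt_iff L.ne).1 (lt_min hd h2)
        obtain ⟨w1, w2⟩ := lt_min_iff.1 hwd
        rw [dist_eq_norm] at w1 w2
        have h3 : ‖c s - c t‖ < ρ := by
          have := norm_add_le (c s - y) (y - c t)
          rw [sub_add_sub_cancel, norm_sub_rev (c s) y] at this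
          linarith
        obtain ⟨n, e', he, hs⟩ := hnear s t h3
        have h4 : c s = c (t + e') := by rw [hs, L.per_int]
        have h5 := P.eq _ (hmem e' he.le)
        rw [div_lt_iff₀ hu0]
        refine lt_of_le_of_lt (infDist_le_dist_of_mem (mem_range_self (φ (t + e')))) ?_
        rw [dist_eq_norm, h5, hT.norm, ← h4, mul_comm]
        exact mul_lt_mul_of_pos_right w1 hu0
      rw [div_le_iff₀ hu0] at h1
      linarith
    · refine le_of_forall_gt fun d hd => ?_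
      have h2 : infDist (T y) (range c') < ‖u‖ * r := by
        refine lt_of_le_of_lt (infDist_le_dist_of_mem (mem_range_self (φ t))) ?_
        rw [dist_eq_norm, hTt0, hT.norm]
        exact mul_lt_mul_of_pos_left hy hu0
      obtain ⟨w, ⟨s, rfl⟩, hwd⟩ := (infDist_lt_iff L'.ne).1 (lt_min hd h2)
      obtain ⟨w1, w2⟩ := lt_min_iff.1 hwd
      rw [dist_eq_norm] at w1 w2
      have h3 : ‖c' s - c' (φ t)‖ < ρ' := by
        have := norm_add_le (c' s - T y) (T y - c' (φ t))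
        rw [sub_add_sub_cancel, norm_sub_rev (c' s) (T y), hTt0, hT.norm] at this
        have h7 : ‖u‖ * ‖y - c t‖ ≤ ‖u‖ * r := mul_le_mul_of_nonneg_left hy.le hu0.le
        have h8 : 0 < ‖u‖ * r := mul_pos hu0 hr
        rw [hTt0]
        linarith
      obtain ⟨n, e', he, hs⟩ := hnear' s (φ t) h3
      obtain ⟨s', hs', hse⟩ := hpre e' he
      have h4 : c' s = T (c s') := by
        rw [hs, L'.per_int, ← hse, P.eq s' hs']
      rw [h4, hT.norm] at w1
      refine lt_of_le_of_lt ?_ w1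
      refine mul_le_mul_of_nonneg_left ?_ hu0.le
      have := infDist_le_dist_of_mem (x := y) (mem_range_self (f := c) s')
      rwa [dist_eq_norm] at this
  have habs : ∀ y : ℂ, ‖y - c t‖ < r → |mgc c' (T y)| = ‖u‖ * |mgc c y| := fun y hy => by
    rw [mgc_abs, mgc_abs, hdist y hy]
  have nC : ∀ y : ℂ, mgc c y ≠ 0 → y ∉ range c := fun y h hy => h ((mgc_sg L).zero L |>.2 hy)
  have nC' : ∀ y : ℂ, mgc c' y ≠ 0 → y ∉ range c' := fun y h hy => h ((mgc_sg L').zero L' |>.2 hy)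
  have hTne : ∀ y : ℂ, ‖y - c t‖ < r → mgc c y ≠ 0 → mgc c' (T y) ≠ 0 := fun y hy hn h => by
    have := habs y hy
    rw [h, abs_zero] at this
    have h2 : 0 < ‖u‖ * |mgc c y| := mul_pos hu0 (abs_pos.2 hn)
    linarith
  -- differences of winding numbers
  have hdiff : ∀ y y' : ℂ, ‖y - c t‖ < r → ‖y' - c t‖ < r → mgc c y ≠ 0 → mgc c y' ≠ 0 →
      ∃ n n' m m' : ℤ, IsWc c y n ∧ IsWc c y' n' ∧ IsWc c' (T y) m ∧
        IsWc c' (T y') m' ∧ m - m' = d * e * (n - n') := by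
    intro y y' hy hy' hn hn'
    have hT1 := hTne y hy hn
    have hT2 := hTne y' hy' hn'
    obtain ⟨n, hn1⟩ := L.exW (nC _ hn)
    obtain ⟨n', hn1'⟩ := L.exW (nC _ hn')
    obtain ⟨m, hm1⟩ := L'.exW (nC' _ hT1)
    obtain ⟨m', hm1'⟩ := L'.exW (nC' _ hT2)
    refine ⟨n, n', m, m', hn1, hn1', hm1, hm1', ?_⟩
    refine loc_wind3 L L' hT (α := t - δ) (β := t + δ) (by linarith) (by linarith)
      (P.cont.mono hsub) (fun s hs => P.eq s (hsub hs)) hmono (fun s hs => ?_) (fun s hs => ?_)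
      hn1 hn1' hm1 hm1'
    · have g := ge_of_far L J hδ3 hδ hnear hs.1 (by linarith [hs.2] : s ≤ t + 1 - δ)
      have a1 := norm_add_le (y - c t) (c t - y')
      rw [sub_add_sub_cancel, norm_sub_rev (c t)] at a1
      have a2 := norm_add_le (c s - y') (y' - c t)
      rw [sub_add_sub_cancel] at a2
      linarith
    · have g := ge_of_far L' J' hδ'2 hδ' hnear' (s := s) (t := φ t) (by linarith [hs.1])
        (by linarith [hs.2])
      have a1 := norm_add_le (y - c t) (c t - y')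
      rw [sub_add_sub_cancel, norm_sub_rev (c t)] at a1
      have a2 := norm_add_le (c' s - T y') (T y' - c' (φ t))
      rw [sub_add_sub_cancel, hTt0, hT.norm] at a2
      rw [hTt0] at g
      rw [hT.norm]
      have a4 : ‖u‖ * ‖y - y'‖ ≤ ‖u‖ * (r + r) := mul_le_mul_of_nonneg_left (by linarith) hu0.le
      have a5 : ‖u‖ * ‖y' - c t‖ ≤ ‖u‖ * r := mul_le_mul_of_nonneg_left hy'.le hu0.le
      nlinarith
  obtain ⟨⟨zp, hzp, hp⟩, ⟨zm, hzm, hm⟩⟩ := both_near L J h0 t hr
  have hde0 : d * e ≠ 0 := by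
    rcases P.mono with ⟨h1, -⟩ | ⟨h1, -⟩ <;> rcases hT.h with ⟨h2, -⟩ | ⟨h2, -⟩ <;>
      rw [h1, h2] <;> norm_num
  obtain ⟨K, hK⟩ : ∃ K, K = d * e * n0 := ⟨_, rfl⟩
  rw [← hK]
  have A := habs z hz
  rcases lt_trichotomy (mgc c z) 0 with hneg | hzero | hpos
  · obtain ⟨n, n', m, m', b1, b2, b3, b4, e5⟩ := hdiff z zp hz hzp hneg.ne hp.ne'
    have c1 := (hw _ (nC _ hneg.ne) n b1).2 hneg
    have c2 := (hw _ (nC _ hp.ne') n' b2).1 hp
    have hT1 := hTne z hz hneg.ne
    have hT2 := hTne zp hzp hp.ne'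
    have e6 : m - m' = -K := by rw [e5, c1, c2, hK]; ring
    have hm1 := hw1 _ (nC' _ hT1) m b3
    have hm2 := hw1 _ (nC' _ hT2) m' b4
    rw [abs_of_neg hneg] at A
    split_ifs with h
    · have : mgc c' (T z) < 0 := by
        rcases lt_or_gt_of_ne hT1 with h3 | h3
        · exact h3
        · exfalso
          have c3 := hm1.1 h3
          rcases lt_or_gt_of_ne hT2 with h' | h'
          · have c4 := hm2.2 h'
            omega
          · have c4 := hm2.1 h'
            omega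
      rw [abs_of_neg this] at A
      linarith
    · have : 0 < mgc c' (T z) := by
        rcases lt_or_gt_of_ne hT1 with h3 | h3
        · exfalso
          have c3 := hm1.2 h3
          rcases lt_or_gt_of_ne hT2 with h' | h'
          · have c4 := hm2.2 h'
            have c5 : d * e = 0 ∨ n0 = 0 := by
              rw [← mul_eq_zero, ← hK]; omega
            rcases c5 with c5 | c5
            · exact hde0 c5
            · exact n00 c5
          · have c4 := hm2.1 h'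
            omega
        · exact h3
      rw [abs_of_pos this] at A
      linarith
  · rw [hzero, abs_zero, mul_zero, abs_eq_zero] at A
    rw [A, hzero]; simp
  · obtain ⟨n, n', m, m', b1, b2, b3, b4, e5⟩ := hdiff z zm hz hzm hpos.ne' hm.ne
    have c1 := (hw _ (nC _ hpos.ne') n b1).1 hpos
    have c2 := (hw _ (nC _ hm.ne) n' b2).2 hm
    have hT1 := hTne z hz hpos.ne'
    have hT2 := hTne zm hzm hm.ne
    have e6 : m - m' = K := by rw [e5, c1, c2, hK]; ring
    have hm1 := hw1 _ (nC' _ hT1) m b3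
    have hm2 := hw1 _ (nC' _ hT2) m' b4
    rw [abs_of_pos hpos] at A
    split_ifs with h
    · have : 0 < mgc c' (T z) := by
        rcases lt_or_gt_of_ne hT1 with h3 | h3
        · exfalso
          have c3 := hm1.2 h3
          rcases lt_or_gt_of_ne hT2 with h' | h'
          · have c4 := hm2.2 h'
            omega
          · have c4 := hm2.1 h'
            omega
        · exact h3
      rw [abs_of_pos this] at A
      linarith
    · have : mgc c' (T z) < 0 := by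
        rcases lt_or_gt_of_ne hT1 with h3 | h3
        · exact h3
        · exfalso
          have c3 := hm1.1 h3
          rcases lt_or_gt_of_ne hT2 with h' | h'
          · have c4 := hm2.2 h'
            omega
          · have c4 := hm2.1 h'
            have c5 : d * e = 0 ∨ n0 = 0 := by
              rw [← mul_eq_zero, ← hK]; omega
            rcases c5 with c5 | c5
            · exact hde0 c5
            · exact n00 c5
      rw [abs_of_neg this] at A
      linarith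

end Pool.Agent.Y535.PEG
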