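import Pool.Agent.Y535.PEG.Tw2
import Pool.Agent.Y535.PEG.Mco

/-! Charges of corresponding arcs of two curves without inscribed squares. -/

set_option autoImplicit false
open Complex Set Topology Metric

namespace Pool.Agent.Y535.PEG

open Pool.Agent.H763R2 Pool.Agent.H763R2.An Pool.Agent.W675.Peg Pool.Agent.TH569.Peg
open Pool.Agent.H763R2.Dm (NoSq floor_const)

variable {c c' : ℝ → ℂ} {θ θ' : ℝ → ℝ → ℝ} {g g' : ℤ}

theorem mk_mq (L : Loop c) (J : Inj c) (L' : Loop c') (J' : Inj c') {T : ℂ → ℂ} {u : ℂ} {e : ℤ} (hT : Smy T u e)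
    {a b a' b' : ℝ} (hab : a < b) (hb : b < a + 1) (hab' : a' < b') (hb' : b' < a' + 1)
    (him : T '' (c '' Icc a b) = c' '' Icc a' b') :
    ∃ φ d, Mq c c' T φ a b d ∧ ((d = 1 ∧ φ a = a' ∧ φ b = b') ∨ (d = -1 ∧ φ a = b' ∧ φ b = a')) := by
  classical
  have h1 : ∀ s : Icc a b, ∃ s' : Icc a' b', c' s' = T (c s) := by
    rintro ⟨s, hs⟩
    have : T (c s) ∈ c' '' Icc a' b' := by
      rw [← him]; exact ⟨c s, ⟨s, hs, rfl⟩, rfl⟩
    obtain ⟨s', hs', e'⟩ := this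
    exact ⟨⟨s', hs'⟩, e'⟩
  choose ψ hψ using h1
  have hcl : IsClosedEmbedding (fun s' : Icc a' b' => c' s') := by
    refine Continuous.isClosedEmbedding (L'.cont.comp continuous_subtype_val) ?_
    intro x y hxy
    exact Subtype.ext (inj_Icc J' hb' x.2 y.2 hxy)
  have hψc : Continuous ψ := by
    rw [hcl.isInducing.continuous_iff]
    have : (fun s' : Icc a' b' => c' s') ∘ ψ = fun s : Icc a b => T (c s) := by
      funext s; exact hψ s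
    rw [this]
    exact hT.cont.comp (L.cont.comp continuous_subtype_val)
  obtain ⟨φ, hφ⟩ : ∃ φ : ℝ → ℝ, φ = fun s => if h : s ∈ Icc a b then (ψ ⟨s, h⟩ : ℝ) else a' :=
    ⟨_, rfl⟩
  have hφe : ∀ s (h : s ∈ Icc a b), φ s = ψ ⟨s, h⟩ := fun s h => by rw [hφ]; simp only; rw [dif_pos h]
  have hφc : ContinuousOn φ (Icc a b) := by
    rw [continuousOn_iff_continuous_domRestrict]
    have : (Icc a b).domRestrict φ = fun s => (ψ s : ℝ) := by
      funext s; exact hφe s.1 s.2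
    rw [this]
    exact continuous_subtype_val.comp hψc
  have heq : ∀ s ∈ Icc a b, c' (φ s) = T (c s) := fun s hs => by rw [hφe s hs, hψ]
  have hmem : ∀ s ∈ Icc a b, φ s ∈ Icc a' b' := fun s hs => by rw [hφe s hs]; exact (ψ _).2
  have hinj : InjOn φ (Icc a b) := by
    intro x hx y hy hxy
    have : T (c x) = T (c y) := by rw [← heq x hx, ← heq y hy, hxy]
    exact inj_Icc J hb hx hy (hT.inj this)
  have hsur : ∀ s' ∈ Icc a' b', ∃ s ∈ Icc a b, φ s = s' := by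
    intro s' hs'
    have : c' s' ∈ T '' (c '' Icc a b) := by rw [him]; exact ⟨s', hs', rfl⟩
    obtain ⟨_, ⟨s, hs, rfl⟩, e'⟩ := this
    refine ⟨s, hs, inj_Icc J' hb' (hmem s hs) hs' ?_⟩
    rw [heq s hs, e']
  have ma : a ∈ Icc a b := ⟨le_rfl, hab.le⟩
  have mb : b ∈ Icc a b := ⟨hab.le, le_rfl⟩
  obtain ⟨sa, hsa, ea⟩ := hsur a' ⟨le_rfl, hab'.le⟩
  obtain ⟨sb, hsb, eb⟩ := hsur b' ⟨hab'.le, le_rfl⟩
  rcases hφc.strictMonoOn_of_injOn_Icc' hab.le hinj with hm | hm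
  · have g1 := hm.monotoneOn ma hsa hsa.1
    have g2 := hm.monotoneOn hsb mb hsb.2
    have e1 : φ a = a' := le_antisymm (by linarith) (hmem a ma).1
    have e2 : φ b = b' := le_antisymm (hmem b mb).2 (by linarith)
    exact ⟨φ, 1, ⟨hab, hb, hφc, heq, Or.inl ⟨rfl, hm, by rw [e1, e2]; exact hb'⟩⟩,
      Or.inl ⟨rfl, e1, e2⟩⟩
  · have g1 := hm.antitoneOn ma hsb hsb.1
    have g2 := hm.antitoneOn hsa mb hsa.2
    have e1 : φ a = b' := le_antisymm (hmem a ma).2 (by linarith)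
    have e2 : φ b = a' := le_antisymm (by linarith) (hmem b mb).1
    exact ⟨φ, -1, ⟨hab, hb, hφc, heq, Or.inr ⟨rfl, hm, by rw [e1, e2]; exact hb'⟩⟩,
      Or.inr ⟨rfl, e1, e2⟩⟩


theorem chg3 (A : Ang c (mgc c) θ g) (A' : Ang c' (mgc c') θ' g') {S : Set (ℝ × ℝ)}
    (hS : IsPreconnected S)
    (hU : ∀ p ∈ S, p.1 < p.2 ∧ p.2 < p.1 + 1) {q1 q2 : ℝ × ℝ → ℝ} (hq1 : ContinuousOn q1 S)
    (hq2 : ContinuousOn q2 S) (hQ : ∀ p ∈ S, q1 p < q2 p ∧ q2 p < q1 p + 1) {v : ℝ} (hv : 0 < v)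
    {α σ : ℝ} (hrel : ∀ p ∈ S, ∀ r, mgc c (DD c p.1 p.2) = r * Real.cos (θ p.1 p.2) →
      mgc c (CC c p.1 p.2) = r * Real.sin (θ p.1 p.2) →
      mgc c' (DD c' (q1 p) (q2 p)) = v * r * Real.cos (α + σ * θ p.1 p.2) ∧
      mgc c' (CC c' (q1 p) (q2 p)) = v * r * Real.sin (α + σ * θ p.1 p.2)) :
    ∃ m : ℤ, ∀ p ∈ S, θ' (q1 p) (q2 p) = α + σ * θ p.1 p.2 + m * (2 * Real.pi) := by
  refine ang_const hS (f := fun p => θ' (q1 p) (q2 p)) (k := fun p => α + σ * θ p.1 p.2)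
    (A'.cont.comp (f := fun p : ℝ × ℝ => ((q1 p, q2 p) : ℝ × ℝ)) (hq1.prodMk hq2) hQ)
    (continuousOn_const.add (continuousOn_const.mul (A.cont.mono hU))) (fun p hp => ?_)
  obtain ⟨r, hr, e1, e2⟩ := A.ex p.1 p.2 (hU p hp).1 (hU p hp).2
  obtain ⟨r', hr', e1', e2'⟩ := A'.ex (q1 p) (q2 p) (hQ p hp).1 (hQ p hp).2
  obtain ⟨f1, f2⟩ := hrel p hp r e1 e2
  rw [e1'] at f1
  rw [e2'] at f2
  exact trig_rel hr' (mul_pos hv hr) f1 f2

theorem rel3m (L : Loop c) (J : Inj c) {z0 : ℂ} (h0 : 0 < mgc c z0) (A : Ang c (mgc c) θ g)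
    (L' : Loop c') (J' : Inj c') {z1 : ℂ} (h1 : 0 < mgc c' z1) (A' : Ang c' (mgc c') θ' g')
    {a b : ℝ} {u v : ℂ} {φ : ℝ → ℝ} (hT : Smy (fun z => u * (starRingEnd ℂ) z + v) u (-1))
    (P : Mq c c' (fun z => u * (starRingEnd ℂ) z + v) φ a b (-1)) {a1 b1 : ℝ} (ha1 : a < a1)
    (h11 : a1 ≤ b1) (hb1 : b1 < b) : ∃ j : ℤ, ∃ ε > 0, ∀ x y, a1 ≤ x → y ≤ b1 → x < y → y < x + ε →
      θ' (φ y) (φ x) = Real.pi / 2 - θ x y + j * Real.pi := by
  have ba := P.b1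
  obtain ⟨anti, wid⟩ : StrictAntiOn φ (Icc a b) ∧ φ a < φ b + 1 := by
    rcases P.mono with ⟨h, -⟩ | ⟨-, h, h'⟩
    · exact absurd h (by decide)
    · exact ⟨h, h'⟩
  obtain ⟨ε', hε', r, hr, hM⟩ := arc_eq3 L J h0 L' J' h1 hT P ha1 hb1 h11
  obtain ⟨ε, hε, hn⟩ := short_near L ha1 hb1 hr
  obtain ⟨S, hS⟩ : ∃ S : Set (ℝ × ℝ), S = {p | a1 ≤ p.1 ∧ p.2 ≤ b1 ∧ p.1 < p.2 ∧ p.2 < p.1 + ε} :=
    ⟨_, rfl⟩
  have hpre : IsPreconnected S := hS ▸ short_pre a1 b1 ε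
  have ma : a ∈ Icc a b := ⟨le_rfl, P.ab.le⟩
  have mb : b ∈ Icc a b := ⟨P.ab.le, le_rfl⟩
  have mS : ∀ p ∈ S, p.1 ∈ Icc a b ∧ p.2 ∈ Icc a b ∧ p.1 < p.2 ∧ p.2 < p.1 + 1 := by
    rintro p hp
    rw [hS] at hp
    obtain ⟨h1, h2, h3, h4⟩ := hp
    exact ⟨⟨by linarith, by linarith⟩, ⟨by linarith, by linarith⟩, h3, by linarith⟩
  have c1 : ContinuousOn (fun p : ℝ × ℝ => φ p.1) S :=
    P.cont.comp (by fun_prop) (fun p hp => (mS p hp).1)
  have c2 : ContinuousOn (fun p : ℝ × ℝ => φ p.2) S :=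
    P.cont.comp (by fun_prop) (fun p hp => (mS p hp).2.1)
  have hx : ∀ p ∈ S, φ p.2 < φ p.1 ∧ φ p.1 < φ p.2 + 1 := fun p hp => by
    obtain ⟨m1, m2, m3, -⟩ := mS p hp
    have g1 := anti.antitoneOn ma m1 m1.1
    have g2 := anti.antitoneOn m2 mb m2.2
    exact ⟨anti m1 m2 m3, by linarith⟩
  have hv : 0 < ‖u‖ := norm_pos_iff.2 hT.ne
  obtain ⟨j0, hj0⟩ : ∃ j0 : ℤ, ∀ x : ℝ, Real.cos (j0 * Real.pi + x) = ε' * Real.cos x ∧
      Real.sin (j0 * Real.pi + x) = ε' * Real.sin x := by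
    rcases hε' with h | h
    · exact ⟨0, fun x => by rw [h]; simp⟩
    · refine ⟨1, fun x => ?_⟩
      rw [h, Int.cast_one, one_mul, add_comm, Real.cos_add_pi, Real.sin_add_pi]
      constructor <;> ring
  obtain ⟨m, hmm⟩ := chg3 A A' hpre (fun p hp => (mS p hp).2.2) c2 c1 hx hv
    (α := j0 * Real.pi + Real.pi / 2) (σ := -1)
    (fun p hp r' r1 r2 => by
    obtain ⟨m1, m2, -, -⟩ := mS p hp
    have hp' := hp
    rw [hS] at hp'
    have near := hn p.1 p.2 hp'.1 hp'.2.1 hp'.2.2.1 hp'.2.2.2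
    have eD := hM p.1 ⟨hp'.1, by linarith [hp'.2.1, hp'.2.2.1]⟩ _ near.1
    have eC := hM p.1 ⟨hp'.1, by linarith [hp'.2.1, hp'.2.2.1]⟩ _ near.2
    have t1 : DD c' (φ p.2) (φ p.1) = (fun z => u * (starRingEnd ℂ) z + v) (CC c p.1 p.2) := by
      rw [DD_eq, CC_eq, P.eq _ m1, P.eq _ m2]
      simp only [map_add, map_sub, map_mul, conj_I]; ring
    have t2 : CC c' (φ p.2) (φ p.1) = (fun z => u * (starRingEnd ℂ) z + v) (DD c p.1 p.2) := by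
      rw [CC_eq, DD_eq, P.eq _ m1, P.eq _ m2]
      simp only [map_add, map_sub, map_mul, conj_I]; ring
    rw [t1, t2, eD, eC, r1, r2,
      show (j0 : ℝ) * Real.pi + Real.pi / 2 + -1 * θ p.1 p.2 =
        (j0 : ℝ) * Real.pi + (Real.pi / 2 - θ p.1 p.2) by ring, (hj0 _).1, (hj0 _).2,
      Real.cos_pi_div_two_sub, Real.sin_pi_div_two_sub]
    constructor <;> ring)
  refine ⟨j0 + 2 * m, ε, hε, fun x y h1 h2 h3 h4 => ?_⟩
  have := hmm (x, y) (by rw [hS]; exact ⟨h1, h2, h3, h4⟩)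
  simp only at this
  rw [this]; push_cast; ring

theorem rel3p (L : Loop c) (J : Inj c) {z0 : ℂ} (h0 : 0 < mgc c z0) (A : Ang c (mgc c) θ g)
    (L' : Loop c') (J' : Inj c') {z1 : ℂ} (h1 : 0 < mgc c' z1) (A' : Ang c' (mgc c') θ' g')
    {a b : ℝ} {u v : ℂ} {φ : ℝ → ℝ} (hT : Smy (fun z => u * z + v) u 1)
    (P : Mq c c' (fun z => u * z + v) φ a b 1) {a1 b1 : ℝ} (ha1 : a < a1)
    (h11 : a1 ≤ b1) (hb1 : b1 < b) : ∃ j : ℤ, ∃ ε > 0, ∀ x y, a1 ≤ x → y ≤ b1 → x < y → y < x + ε →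
      θ' (φ x) (φ y) = θ x y + j * Real.pi := by
  have ba := P.b1
  obtain ⟨mono, wid⟩ : StrictMonoOn φ (Icc a b) ∧ φ b < φ a + 1 := by
    rcases P.mono with ⟨-, h, h'⟩ | ⟨h, -⟩
    · exact ⟨h, h'⟩
    · exact absurd h (by decide)
  obtain ⟨ε', hε', r, hr, hM⟩ := arc_eq3 L J h0 L' J' h1 hT P ha1 hb1 h11
  obtain ⟨ε, hε, hn⟩ := short_near L ha1 hb1 hr
  obtain ⟨S, hS⟩ : ∃ S : Set (ℝ × ℝ), S = {p | a1 ≤ p.1 ∧ p.2 ≤ b1 ∧ p.1 < p.2 ∧ p.2 < p.1 + ε} :=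
    ⟨_, rfl⟩
  have hpre : IsPreconnected S := hS ▸ short_pre a1 b1 ε
  have ma : a ∈ Icc a b := ⟨le_rfl, P.ab.le⟩
  have mb : b ∈ Icc a b := ⟨P.ab.le, le_rfl⟩
  have mS : ∀ p ∈ S, p.1 ∈ Icc a b ∧ p.2 ∈ Icc a b ∧ p.1 < p.2 ∧ p.2 < p.1 + 1 := by
    rintro p hp
    rw [hS] at hp
    obtain ⟨h1, h2, h3, h4⟩ := hp
    exact ⟨⟨by linarith, by linarith⟩, ⟨by linarith, by linarith⟩, h3, by linarith⟩
  have c1 : ContinuousOn (fun p : ℝ × ℝ => φ p.1) S :=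
    P.cont.comp (by fun_prop) (fun p hp => (mS p hp).1)
  have c2 : ContinuousOn (fun p : ℝ × ℝ => φ p.2) S :=
    P.cont.comp (by fun_prop) (fun p hp => (mS p hp).2.1)
  have hx : ∀ p ∈ S, φ p.1 < φ p.2 ∧ φ p.2 < φ p.1 + 1 := fun p hp => by
    obtain ⟨m1, m2, m3, -⟩ := mS p hp
    have g1 := mono.monotoneOn ma m1 m1.1
    have g2 := mono.monotoneOn m2 mb m2.2
    exact ⟨mono m1 m2 m3, by linarith⟩
  have hv : 0 < ‖u‖ := norm_pos_iff.2 hT.ne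
  obtain ⟨j0, hj0⟩ : ∃ j0 : ℤ, ∀ x : ℝ, Real.cos (j0 * Real.pi + x) = ε' * Real.cos x ∧
      Real.sin (j0 * Real.pi + x) = ε' * Real.sin x := by
    rcases hε' with h | h
    · exact ⟨0, fun x => by rw [h]; simp⟩
    · refine ⟨1, fun x => ?_⟩
      rw [h, Int.cast_one, one_mul, add_comm, Real.cos_add_pi, Real.sin_add_pi]
      constructor <;> ring
  obtain ⟨m, hmm⟩ := chg3 A A' hpre (fun p hp => (mS p hp).2.2) c1 c2 hx hv
    (α := j0 * Real.pi) (σ := 1)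
    (fun p hp r' r1 r2 => by
    obtain ⟨m1, m2, -, -⟩ := mS p hp
    have hp' := hp
    rw [hS] at hp'
    have near := hn p.1 p.2 hp'.1 hp'.2.1 hp'.2.2.1 hp'.2.2.2
    have eD := hM p.1 ⟨hp'.1, by linarith [hp'.2.1, hp'.2.2.1]⟩ _ near.1
    have eC := hM p.1 ⟨hp'.1, by linarith [hp'.2.1, hp'.2.2.1]⟩ _ near.2
    have t1 : DD c' (φ p.1) (φ p.2) = (fun z => u * z + v) (DD c p.1 p.2) := by
      rw [DD_eq, DD_eq, P.eq _ m1, P.eq _ m2]; ring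
    have t2 : CC c' (φ p.1) (φ p.2) = (fun z => u * z + v) (CC c p.1 p.2) := by
      rw [CC_eq, CC_eq, P.eq _ m1, P.eq _ m2]; ring
    rw [t1, t2, eD, eC, r1, r2, one_mul, (hj0 _).1, (hj0 _).2]
    constructor <;> ring)
  refine ⟨j0 + 2 * m, ε, hε, fun x y h1 h2 h3 h4 => ?_⟩
  have := hmm (x, y) (by rw [hS]; exact ⟨h1, h2, h3, h4⟩)
  simp only at this
  rw [this]; push_cast; ring

/-- windows at the ends of an arc -/
theorem endwin {φ : ℝ → ℝ} {a b : ℝ} (hab : a < b) (hφ : ContinuousOn φ (Icc a b)) {ρ ρ' : ℝ}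
    (hρ : 0 < ρ) (hρ' : 0 < ρ') : ∃ δ > 0, δ ≤ (b - a) / 2 ∧
      (∀ s ∈ Icc a (a + δ), |s - a| < ρ ∧ |φ s - φ a| < ρ') ∧
      ∀ s ∈ Icc (b - δ) b, |s - b| < ρ ∧ |φ s - φ b| < ρ' := by
  obtain ⟨κ, hκ, hc⟩ := Metric.continuousWithinAt_iff.1 (hφ a ⟨le_rfl, hab.le⟩) ρ' hρ'
  obtain ⟨κ', hκ', hc'⟩ := Metric.continuousWithinAt_iff.1 (hφ b ⟨hab.le, le_rfl⟩) ρ' hρ'
  simp only [Real.dist_eq] at hc hc'
  obtain ⟨δ, hδ, d1, d2, d3, d4⟩ : ∃ δ > 0, δ < κ ∧ δ < κ' ∧ δ < ρ ∧ δ ≤ (b - a) / 2 := by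
    refine ⟨min (min (κ / 2) (κ' / 2)) (min (ρ / 2) ((b - a) / 2)), ?_, ?_, ?_, ?_, ?_⟩
    · exact lt_min (lt_min (by positivity) (by positivity)) (lt_min (by positivity) (by linarith))
    · exact lt_of_le_of_lt ((min_le_left _ _).trans (min_le_left _ _)) (by linarith)
    · exact lt_of_le_of_lt ((min_le_left _ _).trans (min_le_right _ _)) (by linarith)
    · exact lt_of_le_of_lt ((min_le_right _ _).trans (min_le_left _ _)) (by linarith)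
    · exact (min_le_right _ _).trans (min_le_right _ _)
  refine ⟨δ, hδ, d4, fun s hs => ?_, fun s hs => ?_⟩
  · have h1 : |s - a| ≤ δ := by rw [abs_of_nonneg (by linarith [hs.1])]; linarith [hs.2]
    exact ⟨by linarith, hc ⟨hs.1, by linarith [hs.2]⟩ (by linarith)⟩
  · have h1 : |s - b| ≤ δ := by
      rw [abs_sub_comm, abs_of_nonneg (by linarith [hs.2])]; linarith [hs.1]
    exact ⟨by linarith, hc' ⟨by linarith [hs.1], hs.2⟩ (by linarith)⟩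

theorem fl_pi (x : ℝ) (j : ℤ) : ⌊(x + j * Real.pi) / Real.pi⌋ = ⌊x / Real.pi⌋ + j := by
  have := fl_shift x 0 j
  simpa using this

theorem fl_hpi {x : ℝ} (h : 0 < Real.cos x * Real.sin x) (j : ℤ) :
    ⌊(Real.pi / 2 - x + j * Real.pi) / Real.pi⌋ = -⌊x / Real.pi⌋ + j := by
  have hπ := Real.pi_pos
  obtain ⟨h1, h2⟩ := half_fl h
  rw [Int.floor_eq_iff, le_div_iff₀ hπ, div_lt_iff₀ hπ]
  push_cast
  constructor <;> linarith

theorem lvl_p (L : Loop c) (J : Inj c) {z0 : ℂ} (h0 : 0 < mgc c z0) (A : Ang c (mgc c) θ g)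
    (L' : Loop c') (J' : Inj c') {z1 : ℂ} (h1 : 0 < mgc c' z1) (A' : Ang c' (mgc c') θ' g')
    {a b : ℝ} {u v : ℂ} {φ : ℝ → ℝ} (hT : Smy (fun z => u * z + v) u 1)
    (P : Mq c c' (fun z => u * z + v) φ a b 1) {la lb la' lb' : ℤ} (k1 : KL θ a la)
    (k2 : KL θ b lb) (k3 : KL θ' (φ a) la') (k4 : KL θ' (φ b) lb') : lb' - la' = lb - la := by
  have hab := P.ab
  have mono : StrictMonoOn φ (Icc a b) := by
    rcases P.mono with ⟨-, h, -⟩ | ⟨h, -⟩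
    · exact h
    · exact absurd h (by decide)
  obtain ⟨ρ1, hρ1, H1⟩ := k1
  obtain ⟨ρ2, hρ2, H2⟩ := k2
  obtain ⟨ρ3, hρ3, H3⟩ := k3
  obtain ⟨ρ4, hρ4, H4⟩ := k4
  obtain ⟨δ, hδ, hδ2, wa, wb⟩ := endwin hab P.cont (ρ := min ρ1 ρ2) (ρ' := min ρ3 ρ4)
    (by positivity) (by positivity)
  obtain ⟨j, ε, hε, H⟩ := rel3p L J h0 A L' J' h1 A' hT P (a1 := a + δ / 2) (b1 := b - δ / 2)
    (by linarith) (by linarith) (by linarith)
  obtain ⟨η, hη, n1, n2⟩ : ∃ η > 0, η < ε ∧ η < δ / 2 :=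
    ⟨min (ε / 2) (δ / 4), by positivity, lt_of_le_of_lt (min_le_left _ _) (by linarith),
      lt_of_le_of_lt (min_le_right _ _) (by linarith)⟩
  have x1 := wa (a + δ / 2) ⟨by linarith, by linarith⟩
  have x2 := wa (a + δ / 2 + η) ⟨by linarith, by linarith⟩
  have y1 := wb (b - δ / 2 - η) ⟨by linarith, by linarith⟩
  have y2 := wb (b - δ / 2) ⟨by linarith, by linarith⟩
  have e1 := H1 (a + δ / 2) (a + δ / 2 + η) (x1.1.trans_le (min_le_left _ _))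
    (x2.1.trans_le (min_le_left _ _)) (by linarith)
  have e2 := H2 (b - δ / 2 - η) (b - δ / 2) (y1.1.trans_le (min_le_right _ _))
    (y2.1.trans_le (min_le_right _ _)) (by linarith)
  have e3 := H3 (φ (a + δ / 2)) (φ (a + δ / 2 + η)) (x1.2.trans_le (min_le_left _ _))
    (x2.2.trans_le (min_le_left _ _)) (mono ⟨by linarith, by linarith⟩ ⟨by linarith, by linarith⟩
      (by linarith))
  have e4 := H4 (φ (b - δ / 2 - η)) (φ (b - δ / 2)) (y1.2.trans_le (min_le_right _ _))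
    (y2.2.trans_le (min_le_right _ _)) (mono ⟨by linarith, by linarith⟩ ⟨by linarith, by linarith⟩
      (by linarith))
  rw [H _ _ (by linarith) (by linarith) (by linarith) (by linarith), fl_pi, e1] at e3
  rw [H _ _ (by linarith) (by linarith) (by linarith) (by linarith), fl_pi, e2] at e4
  linarith

theorem lvl_m (L : Loop c) (J : Inj c) {z0 : ℂ} (h0 : 0 < mgc c z0) (A : Ang c (mgc c) θ g)
    (L' : Loop c') (J' : Inj c') {z1 : ℂ} (h1 : 0 < mgc c' z1) (A' : Ang c' (mgc c') θ' g')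
    {a b : ℝ} {u v : ℂ} {φ : ℝ → ℝ} (hT : Smy (fun z => u * (starRingEnd ℂ) z + v) u (-1))
    (P : Mq c c' (fun z => u * (starRingEnd ℂ) z + v) φ a b (-1)) (Ca : Cone c a) (Cb : Cone c b)
    {la lb la' lb' : ℤ} (k1 : KL θ a la)
    (k2 : KL θ b lb) (k3 : KL θ' (φ a) la') (k4 : KL θ' (φ b) lb') :
    lb' - la' = -(lb - la) := by
  have hab := P.ab
  have hb1 := P.b1
  have anti : StrictAntiOn φ (Icc a b) := by
    rcases P.mono with ⟨h, -⟩ | ⟨-, h, -⟩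
    · exact absurd h (by decide)
    · exact h
  obtain ⟨p, _, _, _, _, ρ5, hρ5, H5⟩ := cone_test L J Ca
  obtain ⟨p', _, _, _, _, ρ6, hρ6, H6⟩ := cone_test L J Cb
  obtain ⟨ρ1, hρ1, H1⟩ := k1
  obtain ⟨ρ2, hρ2, H2⟩ := k2
  obtain ⟨ρ3, hρ3, H3⟩ := k3
  obtain ⟨ρ4, hρ4, H4⟩ := k4
  obtain ⟨δ, hδ, hδ2, wa, wb⟩ := endwin hab P.cont (ρ := min (min ρ1 ρ2) (min ρ5 ρ6))
    (ρ' := min ρ3 ρ4) (by positivity) (by positivity)
  obtain ⟨j, ε, hε, H⟩ := rel3m L J h0 A L' J' h1 A' hT P (a1 := a + δ / 2) (b1 := b - δ / 2)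
    (by linarith) (by linarith) (by linarith)
  obtain ⟨η, hη, n1, n2⟩ : ∃ η > 0, η < ε ∧ η < δ / 2 :=
    ⟨min (ε / 2) (δ / 4), by positivity, lt_of_le_of_lt (min_le_left _ _) (by linarith),
      lt_of_le_of_lt (min_le_right _ _) (by linarith)⟩
  have i1 : ∀ {z : ℝ}, z < min (min ρ1 ρ2) (min ρ5 ρ6) → z < ρ1 := fun h =>
    h.trans_le ((min_le_left _ _).trans (min_le_left _ _))
  have i2 : ∀ {z : ℝ}, z < min (min ρ1 ρ2) (min ρ5 ρ6) → z < ρ2 := fun h =>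
    h.trans_le ((min_le_left _ _).trans (min_le_right _ _))
  have i5 : ∀ {z : ℝ}, z < min (min ρ1 ρ2) (min ρ5 ρ6) → z < ρ5 := fun h =>
    h.trans_le ((min_le_right _ _).trans (min_le_left _ _))
  have i6 : ∀ {z : ℝ}, z < min (min ρ1 ρ2) (min ρ5 ρ6) → z < ρ6 := fun h =>
    h.trans_le ((min_le_right _ _).trans (min_le_right _ _))
  have x1 := wa (a + δ / 2) ⟨by linarith, by linarith⟩
  have x2 := wa (a + δ / 2 + η) ⟨by linarith, by linarith⟩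
  have y1 := wb (b - δ / 2 - η) ⟨by linarith, by linarith⟩
  have y2 := wb (b - δ / 2) ⟨by linarith, by linarith⟩
  have e1 := H1 (a + δ / 2) (a + δ / 2 + η) (i1 x1.1) (i1 x2.1) (by linarith)
  have e2 := H2 (b - δ / 2 - η) (b - δ / 2) (i2 y1.1) (i2 y2.1) (by linarith)
  obtain ⟨f1, f2, -, -⟩ := H5 (a + δ / 2) (a + δ / 2 + η) (i5 x1.1) (i5 x2.1) (by linarith)
  obtain ⟨f3, f4, -, -⟩ := H6 (b - δ / 2 - η) (b - δ / 2) (i6 y1.1) (i6 y2.1) (by linarith)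
  have cs1 := cs_pos A (x := a + δ / 2) (y := a + δ / 2 + η) (by linarith) (by linarith)
    (pos_tr (by rwa [mul_comm] at f1) f2)
  have cs2 := cs_pos A (x := b - δ / 2 - η) (y := b - δ / 2) (by linarith) (by linarith)
    (pos_tr (by rwa [mul_comm] at f3) f4)
  have e3 := H3 (φ (a + δ / 2 + η)) (φ (a + δ / 2)) (x2.2.trans_le (min_le_left _ _))
    (x1.2.trans_le (min_le_left _ _)) (anti ⟨by linarith, by linarith⟩ ⟨by linarith, by linarith⟩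
      (by linarith))
  have e4 := H4 (φ (b - δ / 2)) (φ (b - δ / 2 - η)) (y2.2.trans_le (min_le_right _ _))
    (y1.2.trans_le (min_le_right _ _)) (anti ⟨by linarith, by linarith⟩ ⟨by linarith, by linarith⟩
      (by linarith))
  rw [H _ _ (by linarith) (by linarith) (by linarith) (by linarith), fl_hpi cs1, e1] at e3
  rw [H _ _ (by linarith) (by linarith) (by linarith) (by linarith), fl_hpi cs2, e2] at e4
  linarith

/-- the image arc run backwards -/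
theorem Mq.rev {T : ℂ → ℂ} {φ : ℝ → ℝ} {a b : ℝ} {d : ℤ} (P : Mq c c' T φ a b d) :
    Mq c (fun t => c' (-t)) T (fun s => -φ s) a b (-d) where
  ab := P.ab
  b1 := P.b1
  cont := P.cont.neg
  eq s hs := by
    simp only [neg_neg]
    exact P.eq s hs
  mono := by
    rcases P.mono with ⟨h1, h2, h3⟩ | ⟨h1, h2, h3⟩
    · refine Or.inr ⟨by rw [h1], fun x hx y hy hxy => ?_, by linarith⟩
      have := h2 hx hy hxy
      simp only; linarith
    · refine Or.inl ⟨by rw [h1]; norm_num, fun x hx y hy hxy => ?_, by linarith⟩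
      have := h2 hx hy hxy
      simp only; linarith

/-- similar arcs of two curves without inscribed squares have the same charge up to sign -/
theorem pair2 (L : Loop c) (J : Inj c) {z0 : ℂ} (h0 : 0 < mgc c z0) (A : Ang c (mgc c) θ g)
    (L' : Loop c') (J' : Inj c') (nosq' : NoSq (range c')) {z1 : ℂ} (h1 : 0 < mgc c' z1)
    (A' : Ang c' (mgc c') θ' g') {a b a' b' : ℝ} (h : AR c a b) (h' : AR c' a' b')
    {la lb la' lb' : ℤ} (k1 : KL θ a la) (k2 : KL θ b lb) (k3 : KL θ' a' la') (k4 : KL θ' b' lb')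
    {u v : ℂ} (hu : u ≠ 0)
    (H : (fun z => u * z + v) '' (c '' Icc a b) = c' '' Icc a' b' ∨
      (fun z => u * (starRingEnd ℂ) z + v) '' (c '' Icc a b) = c' '' Icc a' b') :
    lb' - la' = lb - la ∨ lb' - la' = -(lb - la) := by
  obtain ⟨ra', k5⟩ := exKR L' J' A' h'.ha
  obtain ⟨rb', k6⟩ := exKR L' J' A' h'.hb
  have hpar := parityX jP jT1 Y407.PEG.sgU jI L' J' nosq' A' h'.ab h'.ba h'.ha h'.hb k3 k4 k5 k6
  have Lr := L'.rev
  have Jr := J'.rev L'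
  have Ar := Ang.rev L' A'
  have h1r : 0 < mgc (fun t => c' (-t)) z1 := by rw [mgc_rev L']; exact h1
  rcases H with H | H
  · have hT : Smy (fun z => u * z + v) u 1 := ⟨hu, Or.inl ⟨rfl, v, fun _ => rfl⟩⟩
    obtain ⟨φ, d, P, hφ⟩ := mk_mq L J L' J' hT h.ab h.ba h'.ab h'.ba H
    rcases hφ with ⟨rfl, f1, f2⟩ | ⟨rfl, f1, f2⟩
    · left
      exact lvl_p L J h0 A L' J' h1 A' hT P k1 k2 (by rw [f1]; exact k3) (by rw [f2]; exact k4)
    · right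
      have P' := P.rev
      rw [neg_neg] at P'
      have := lvl_p L J h0 A Lr Jr h1r Ar hT P' k1 k2 (la' := rb') (lb' := ra')
        (by rw [f1]; exact k6.rev) (by rw [f2]; exact k5.rev)
      linarith
  · have hT : Smy (fun z => u * (starRingEnd ℂ) z + v) u (-1) :=
      ⟨hu, Or.inr ⟨rfl, v, fun _ => rfl⟩⟩
    obtain ⟨φ, d, P, hφ⟩ := mk_mq L J L' J' hT h.ab h.ba h'.ab h'.ba H
    rcases hφ with ⟨rfl, f1, f2⟩ | ⟨rfl, f1, f2⟩
    · right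
      have P' := P.rev
      have := lvl_m L J h0 A Lr Jr h1r Ar hT P' h.ha h.hb k1 k2 (la' := ra') (lb' := rb')
        (by rw [f1]; exact k5.rev) (by rw [f2]; exact k6.rev)
      linarith
    · left
      have := lvl_m L J h0 A L' J' h1 A' hT P h.ha h.hb k1 k2 (la' := lb') (lb' := la')
        (by rw [f1]; exact k4) (by rw [f2]; exact k3)
      linarith

end Pool.Agent.Y535.PEG
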